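import Pool.Agent.KST.Ev

/-!
# KST EVB: growth of eventually polynomial functions

`ev_growth`: induction on `d`. For `d = 0`: `EvP 1 h` means that all the differences
`Dl (single b 1) h` vanish for `c ≥ c₀`, so `h c = h c₀` for `c ≥ c₀` (go from `c₀` to `c` by adding
one unit at a time). Step: every `Dl (single b 1) h` is bounded by `C (1 + ∑ c) ^ d` for `c ≥ c₀`
(maximum of finitely many constants), and `h c` is the sum of `h c₀` and of at most `∑ c` such
differences at points `≤ c`: `|h c| ≤ |h c₀| + (∑ c) C (1 + ∑ c) ^ d`.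
(An induction principle for `c ≥ c₀`: write `c = c₀ + a`, induction on `a` by
`a + single b 1`; e.g. on `∑ b, a b`.)

`ev_red`: by induction on `d` it is enough to show that `EvP (m + 2 + e) h`, i.e. `EvP (n + 1) h`
with `n > m`, implies `EvP n h`. Let `b₁, ..., b_n ∈ B`; put `Δ^k_b h c = h (c + k e_b) - h c =
∑_{j < k} Dl e_b h (c + j e_b)`. Since `Dl e_{b₁} ... Dl e_{b_n} h` is in `EvP 1`, it is a constant
`t` for `c ≥ c₁`, so `Δ^k_{b₁} ... Δ^k_{b_n} h c₁ = k ^ n t`. This is an alternating sum of `2 ^ n`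
values of `h` at points `≥ c₁` with `∑ ≤ ∑ c₁ + n k`, so `k ^ n |t| ≤ 2 ^ n C (1 + ∑ c₁ + n k) ^ m`
for all `k`, and `t = 0` because `n > m`. So all the differences of order `n` are eventually zero.
Formally: prove by induction on `n` the statement: for all `h`, `t`, `c₁`, if
`Dl e_{b₁} (... (Dl e_{b_n} h)) c = t` for all `c ≥ c₁` (list of directions), and
`|h c| ≤ C (1 + ∑ c) ^ m` for `c ≥ c₁` with `m < n`, then `t = 0`; or use the operators
`Dl (k • single b 1)`, which are bounded in terms of `h` and of which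
`Dl (k • e_{b₁}) (... h) c = k ^ n t` (telescoping in every direction).
-/

namespace Pool.Agent.KST

variable {B : Type*} [Fintype B] [DecidableEq B] {h : (B → ℕ) → ℤ}

private theorem eb_ind (P : (B → ℕ) → Prop) (c₀ : B → ℕ) (h0 : P c₀)
    (hs : ∀ c, c₀ ≤ c → ∀ b, P c → P (c + Pi.single b 1)) : ∀ c, c₀ ≤ c → P c := by
  have key : ∀ n : ℕ, ∀ c : B → ℕ, c₀ ≤ c → ∑ b, (c b - c₀ b) = n → P c := by
    intro n
    induction n with
    | zero =>
      intro c hc hsum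
      have h1 : ∀ b ∈ Finset.univ, c b - c₀ b = 0 := Finset.sum_eq_zero_iff.1 hsum
      have h2 : c = c₀ := by
        funext b
        have h3 := h1 b (Finset.mem_univ b)
        have h4 : c₀ b ≤ c b := hc b
        omega
      rw [h2]; exact h0
    | succ n ih =>
      intro c hc hsum
      obtain ⟨b, -, hb⟩ : ∃ b ∈ Finset.univ, c b - c₀ b ≠ 0 :=
        Finset.exists_ne_zero_of_sum_ne_zero (by rw [hsum]; omega)
      have hb' : c₀ b < c b := by omega
      obtain ⟨c', hc'⟩ : ∃ c' : B → ℕ, c = c' + Pi.single b 1 := by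
        refine ⟨Function.update c b (c b - 1), ?_⟩
        funext b'
        rcases eq_or_ne b' b with rfl | h
        · simp only [Pi.add_apply, Function.update_self, Pi.single_eq_same]
          omega
        · simp [Function.update_of_ne h, Pi.single_eq_of_ne h]
      have hcb : ∀ b', c b' = c' b' + (Pi.single b 1 : B → ℕ) b' := by
        intro b'; rw [hc']; rfl
      have hle : c₀ ≤ c' := by
        intro b'
        have h1 := hcb b'
        have h2 : c₀ b' ≤ c b' := hc b'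
        show c₀ b' ≤ c' b'
        rcases eq_or_ne b' b with rfl | h
        · rw [Pi.single_eq_same] at h1; omega
        · rw [Pi.single_eq_of_ne h] at h1; omega
      have hsum' : ∑ b', (c' b' - c₀ b') = n := by
        have h3 : ∑ b', (c b' - c₀ b') = ∑ b', (c' b' - c₀ b') + 1 := by
          have h4 : ∀ b', c b' - c₀ b' = (c' b' - c₀ b') + (Pi.single b 1 : B → ℕ) b' := by
            intro b'
            have h5 := hcb b'
            have h6 : c₀ b' ≤ c' b' := hle b'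
            omega
          rw [Finset.sum_congr rfl fun b' _ => h4 b', Finset.sum_add_distrib]
          congr 1
          rw [Finset.sum_pi_single']
          simp
        omega
      rw [hc']
      exact hs c' hle b (ih c' hle hsum')
  intro c hc
  exact key _ c hc rfl

private theorem eb_sum (c : B → ℕ) (b : B) (k : ℕ) :
    ∑ b', (((c + Pi.single b k : B → ℕ) b' : ℕ) : ℝ) = ∑ b', (c b' : ℝ) + k := by
  have h1 : ∑ b', ((Pi.single b k : B → ℕ) b' : ℝ) = k := by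
    rw [← Nat.cast_sum, Finset.sum_pi_single']
    simp
  have h2 : ∀ b', (((c + Pi.single b k : B → ℕ) b' : ℕ) : ℝ) =
      (c b' : ℝ) + ((Pi.single b k : B → ℕ) b' : ℝ) := by
    intro b'
    rw [Pi.add_apply, Nat.cast_add]
  rw [Finset.sum_congr rfl fun b' _ => h2 b', Finset.sum_add_distrib, h1]

private theorem eb_const (h : (B → ℕ) → ℤ) (H : EvP 1 h) :
    ∃ c₀ : B → ℕ, ∀ c, c₀ ≤ c → h c = h c₀ := by
  choose c₁ hc₁ using H
  refine ⟨∑ b, c₁ b, eb_ind (fun c => h c = h (∑ b, c₁ b)) _ rfl ?_⟩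
  intro c hc b hcb
  have h1 := hc₁ b c ((Finset.single_le_sum (f := c₁) (fun _ _ => by
    intro b'; exact Nat.zero_le _) (Finset.mem_univ b)).trans hc)
  simp only [Dl] at h1
  rw [← hcb]
  linarith

theorem ev_growth (d : ℕ) (h : (B → ℕ) → ℤ) (H : EvP (d + 1) h) :
    ∃ (C : ℝ) (c₀ : B → ℕ), 0 ≤ C ∧ ∀ c, c₀ ≤ c → |(h c : ℝ)| ≤ C * (1 + ∑ b, (c b : ℝ)) ^ d := by
  induction d generalizing h with
  | zero =>
    obtain ⟨c₀, hc₀⟩ := eb_const h H
    refine ⟨|(h c₀ : ℝ)|, c₀, abs_nonneg _, fun c hc => ?_⟩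
    rw [hc₀ c hc, pow_zero, mul_one]
  | succ d ih =>
    have H' : ∀ b, ∃ (C : ℝ) (c₀ : B → ℕ), 0 ≤ C ∧ ∀ c, c₀ ≤ c →
        |(Dl (Pi.single b 1) h c : ℝ)| ≤ C * (1 + ∑ b, (c b : ℝ)) ^ d := fun b => ih _ (H b)
    choose C c₁ hC hc₁ using H'
    have hCs : 0 ≤ ∑ b, C b := Finset.sum_nonneg fun b _ => hC b
    refine ⟨|(h (∑ b, c₁ b) : ℝ)| + ∑ b, C b, ∑ b, c₁ b, add_nonneg (abs_nonneg _) hCs, ?_⟩
    have main : ∀ c, (∑ b, c₁ b) ≤ c → |(h c : ℝ)| ≤ |(h (∑ b, c₁ b) : ℝ)| +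
        (∑ b, (c b : ℝ)) * (∑ b, C b) * (1 + ∑ b, (c b : ℝ)) ^ d := by
      apply eb_ind (fun c => |(h c : ℝ)| ≤ |(h (∑ b, c₁ b) : ℝ)| +
        (∑ b, (c b : ℝ)) * (∑ b, C b) * (1 + ∑ b, (c b : ℝ)) ^ d)
      · have h0 : 0 ≤ ∑ b, ((∑ b, c₁ b : B → ℕ) b : ℝ) :=
          Finset.sum_nonneg fun b _ => Nat.cast_nonneg _
        have : 0 ≤ (∑ b, ((∑ b, c₁ b : B → ℕ) b : ℝ)) * (∑ b, C b) *
            (1 + ∑ b, ((∑ b, c₁ b : B → ℕ) b : ℝ)) ^ d := by positivity
        linarith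
      · intro c hc b hcb
        rw [eb_sum c b 1, Nat.cast_one]
        have h0 : 0 ≤ ∑ b, (c b : ℝ) := Finset.sum_nonneg fun b _ => Nat.cast_nonneg _
        have h1 := hc₁ b c ((Finset.single_le_sum (f := c₁) (fun _ _ => by
          intro b'; exact Nat.zero_le _) (Finset.mem_univ b)).trans hc)
        have h2 : C b ≤ ∑ b, C b := Finset.single_le_sum (fun b _ => hC b) (Finset.mem_univ b)
        have h3 : (h (c + Pi.single b 1) : ℝ) = h c + (Dl (Pi.single b 1) h c : ℤ) := by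
          simp only [Dl]
          push_cast
          ring
        have h4 : |(h (c + Pi.single b 1) : ℝ)| ≤ |(h c : ℝ)| + |(Dl (Pi.single b 1) h c : ℝ)| := by
          rw [h3]; exact abs_add_le _ _
        have h5 : 0 ≤ (1 + ∑ b, (c b : ℝ)) ^ d := by positivity
        have h6 : C b * (1 + ∑ b, (c b : ℝ)) ^ d ≤ (∑ b, C b) * (1 + ∑ b, (c b : ℝ)) ^ d :=
          mul_le_mul_of_nonneg_right h2 h5
        have h7 : (1 + ∑ b, (c b : ℝ)) ^ d ≤ (1 + (∑ b, (c b : ℝ) + 1)) ^ d :=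
          pow_le_pow_left₀ (by linarith) (by linarith) d
        have h8 : (∑ b, (c b : ℝ) + 1) * (∑ b, C b) * (1 + ∑ b, (c b : ℝ)) ^ d ≤
            (∑ b, (c b : ℝ) + 1) * (∑ b, C b) * (1 + (∑ b, (c b : ℝ) + 1)) ^ d :=
          mul_le_mul_of_nonneg_left h7 (by positivity)
        calc |(h (c + Pi.single b 1) : ℝ)| ≤ |(h c : ℝ)| + |(Dl (Pi.single b 1) h c : ℝ)| := h4
          _ ≤ (|(h (∑ b, c₁ b) : ℝ)| + (∑ b, (c b : ℝ)) * (∑ b, C b) *
              (1 + ∑ b, (c b : ℝ)) ^ d) + (∑ b, C b) * (1 + ∑ b, (c b : ℝ)) ^ d := by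
              linarith
          _ = |(h (∑ b, c₁ b) : ℝ)| + (∑ b, (c b : ℝ) + 1) * (∑ b, C b) *
              (1 + ∑ b, (c b : ℝ)) ^ d := by ring
          _ ≤ _ := by linarith
    intro c hc
    have h0 : 0 ≤ ∑ b, (c b : ℝ) := Finset.sum_nonneg fun b _ => Nat.cast_nonneg _
    refine (main c hc).trans ?_
    have h1 : (1 : ℝ) ≤ (1 + ∑ b, (c b : ℝ)) ^ (d + 1) := one_le_pow₀ (by linarith)
    have h2 : (∑ b, (c b : ℝ)) * (∑ b, C b) * (1 + ∑ b, (c b : ℝ)) ^ d ≤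
        (∑ b, C b) * (1 + ∑ b, (c b : ℝ)) ^ (d + 1) := by
      rw [pow_succ]
      have h3 : 0 ≤ (1 + ∑ b, (c b : ℝ)) ^ d := by positivity
      have h4 : 0 ≤ (∑ b, C b) * (1 + ∑ b, (c b : ℝ)) ^ d := mul_nonneg hCs h3
      nlinarith
    have h5 : |(h (∑ b, c₁ b) : ℝ)| ≤ |(h (∑ b, c₁ b) : ℝ)| * (1 + ∑ b, (c b : ℝ)) ^ (d + 1) :=
      le_mul_of_one_le_right (abs_nonneg _) h1
    rw [add_mul]
    linarith

private def Dk (k : ℕ) : List B → ((B → ℕ) → ℤ) → (B → ℕ) → ℤ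
  | [], h => h
  | b :: l, h => Dl (Pi.single b k) (Dk k l h)

private theorem eb_comm (a a' : B → ℕ) (h : (B → ℕ) → ℤ) : Dl a (Dl a' h) = Dl a' (Dl a h) := by
  funext c
  simp only [Dl]
  rw [add_right_comm c a a']
  ring

private theorem eb_Dk_Dl (k : ℕ) (l : List B) (a : B → ℕ) (h : (B → ℕ) → ℤ) :
    Dk k l (Dl a h) = Dl a (Dk k l h) := by
  induction l with
  | nil => rfl
  | cons b l ih =>
    show Dl (Pi.single b k) (Dk k l (Dl a h)) = Dl a (Dl (Pi.single b k) (Dk k l h))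
    rw [ih, eb_comm]

private theorem eb_tel (c₀ : B → ℕ) (b : B) (g : (B → ℕ) → ℤ) (t : ℤ)
    (hg : ∀ c, c₀ ≤ c → Dl (Pi.single b 1) g c = t) (k : ℕ) :
    ∀ c, c₀ ≤ c → Dl (Pi.single b k) g c = k * t := by
  induction k with
  | zero =>
    intro c _
    simp [Dl]
  | succ k ih =>
    intro c hc
    have h1 := ih c hc
    have h2 := hg (c + Pi.single b k) (hc.trans le_self_add)
    simp only [Dl] at h1 h2 ⊢
    rw [Pi.single_add, ← add_assoc]
    push_cast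
    linarith

private theorem eb_val (c₀ : B → ℕ) (k : ℕ) (l : List B) (h : (B → ℕ) → ℤ) (t : ℤ)
    (hg : ∀ c, c₀ ≤ c → Dk 1 l h c = t) :
    ∀ c, c₀ ≤ c → Dk k l h c = (k : ℤ) ^ l.length * t := by
  induction l generalizing h with
  | nil =>
    intro c hc
    have := hg c hc
    simpa [Dk] using this
  | cons b l ih =>
    have h1 : ∀ c, c₀ ≤ c → Dk 1 l (Dl (Pi.single b 1) h) c = t := by
      intro c hc
      rw [eb_Dk_Dl]
      exact hg c hc
    have h2 := ih _ h1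
    have h3 : ∀ c, c₀ ≤ c → Dl (Pi.single b 1) (Dk k l h) c = (k : ℤ) ^ l.length * t := by
      intro c hc
      rw [← eb_Dk_Dl]
      exact h2 c hc
    intro c hc
    show Dl (Pi.single b k) (Dk k l h) c = _
    rw [eb_tel c₀ b _ _ h3 k c hc, List.length_cons, pow_succ]
    ring

private theorem eb_bd (c₀ : B → ℕ) (k m : ℕ) (l : List B) (h : (B → ℕ) → ℤ) (C : ℝ) (hC : 0 ≤ C)
    (hg : ∀ c, c₀ ≤ c → |(h c : ℝ)| ≤ C * (1 + ∑ b, (c b : ℝ)) ^ m) :
    ∀ c, c₀ ≤ c → |(Dk k l h c : ℝ)| ≤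
      2 ^ l.length * C * (1 + ∑ b, (c b : ℝ) + l.length * k) ^ m := by
  induction l with
  | nil =>
    intro c hc
    simpa [Dk] using hg c hc
  | cons b l ih =>
    intro c hc
    have h0 : 0 ≤ ∑ b, (c b : ℝ) := Finset.sum_nonneg fun b _ => Nat.cast_nonneg _
    have hk : (0 : ℝ) ≤ k := Nat.cast_nonneg k
    have h1 := ih c hc
    have h2 := ih (c + Pi.single b k) (hc.trans le_self_add)
    rw [eb_sum] at h2
    have h3 : (Dk k (b :: l) h c : ℝ) = (Dk k l h (c + Pi.single b k) : ℝ) - (Dk k l h c : ℝ) := by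
      show ((Dl (Pi.single b k) (Dk k l h) c : ℤ) : ℝ) = _
      simp only [Dl]
      push_cast
      ring
    rw [h3, List.length_cons]
    have hl : (0 : ℝ) ≤ l.length := Nat.cast_nonneg _
    have h4 : (1 + ∑ b, (c b : ℝ) + l.length * k) ^ m ≤
        (1 + ∑ b, (c b : ℝ) + ((l.length + 1 : ℕ) : ℝ) * k) ^ m := by
      apply pow_le_pow_left₀ (by positivity)
      push_cast
      nlinarith
    have h5 : 1 + (∑ b, (c b : ℝ) + k) + l.length * k =
        1 + ∑ b, (c b : ℝ) + ((l.length + 1 : ℕ) : ℝ) * k := by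
      push_cast
      ring
    rw [h5] at h2
    have h6 : 0 ≤ 2 ^ l.length * C := by positivity
    have h7 := mul_le_mul_of_nonneg_left h4 h6
    calc |(Dk k l h (c + Pi.single b k) : ℝ) - (Dk k l h c : ℝ)|
        ≤ |(Dk k l h (c + Pi.single b k) : ℝ)| + |(Dk k l h c : ℝ)| := abs_sub _ _
      _ ≤ 2 ^ l.length * C * (1 + ∑ b, (c b : ℝ) + ((l.length + 1 : ℕ) : ℝ) * k) ^ m +
          2 ^ l.length * C * (1 + ∑ b, (c b : ℝ) + ((l.length + 1 : ℕ) : ℝ) * k) ^ m := by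
          linarith
      _ = 2 ^ (l.length + 1) * C * (1 + ∑ b, (c b : ℝ) + ((l.length + 1 : ℕ) : ℝ) * k) ^ m := by
          rw [pow_succ]; ring

private theorem eb_iff (j n : ℕ) (h : (B → ℕ) → ℤ) :
    EvP (j + n) h ↔ ∀ l : List B, l.length = n → EvP j (Dk 1 l h) := by
  induction n generalizing h with
  | zero =>
    constructor
    · intro H l hl
      rw [List.length_eq_zero_iff.1 hl]
      exact H
    · intro H
      exact H [] rfl
  | succ n ih =>
    constructor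
    · intro H l hl
      obtain ⟨b, l', rfl⟩ := List.exists_cons_of_length_eq_add_one hl
      have h1 : EvP (j + n) (Dl (Pi.single b 1) h) := H b
      have h2 := (ih _).1 h1 l' (by simpa using hl)
      rw [eb_Dk_Dl] at h2
      exact h2
    · intro H
      show ∀ b, EvP (j + n) (Dl (Pi.single b 1) h)
      intro b
      rw [ih]
      intro l hl
      rw [eb_Dk_Dl]
      exact H (b :: l) (by simp [hl])

private theorem eb_arch (n m : ℕ) (hmn : m < n) (t : ℤ) (A S : ℝ) (hA : 0 ≤ A) (hS : 0 ≤ S)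
    (hk : ∀ k : ℕ, ((|(k : ℤ) ^ n * t| : ℤ) : ℝ) ≤ A * (1 + S + n * k) ^ m) : t = 0 := by
  by_contra ht
  have ht1 : (1 : ℝ) ≤ |(t : ℝ)| := by
    have : (1 : ℤ) ≤ |t| := Int.one_le_abs ht
    exact_mod_cast this
  obtain ⟨k, hkA⟩ := exists_nat_gt (max 1 (A * (1 + S + n) ^ m))
  have hk1 : (1 : ℝ) < k := lt_of_le_of_lt (le_max_left _ _) hkA
  have hk2 : A * (1 + S + n) ^ m < k := lt_of_le_of_lt (le_max_right _ _) hkA
  have h1 := hk k
  have h2 : ((|(k : ℤ) ^ n * t| : ℤ) : ℝ) = (k : ℝ) ^ n * |(t : ℝ)| := by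
    push_cast
    rw [abs_mul, abs_pow, Nat.abs_cast]
  rw [h2] at h1
  have hn0 : (0 : ℝ) ≤ n := Nat.cast_nonneg n
  have h3 : (1 + S + n * k) ^ m ≤ ((1 + S + n) * k) ^ m := by
    apply pow_le_pow_left₀ (by positivity)
    nlinarith
  have h4 : (k : ℝ) ^ n ≤ A * ((1 + S + n) * k) ^ m := by
    calc (k : ℝ) ^ n ≤ (k : ℝ) ^ n * |(t : ℝ)| := le_mul_of_one_le_right (by positivity) ht1
      _ ≤ A * (1 + S + n * k) ^ m := h1
      _ ≤ _ := mul_le_mul_of_nonneg_left h3 hA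
  have h5 : (k : ℝ) ^ (m + 1) ≤ (k : ℝ) ^ n := pow_le_pow_right₀ hk1.le hmn
  have h6 : A * ((1 + S + n) * k) ^ m = (A * (1 + S + n) ^ m) * (k : ℝ) ^ m := by
    rw [mul_pow]; ring
  rw [h6] at h4
  have hkm : (0 : ℝ) < (k : ℝ) ^ m := by positivity
  have h7 : (A * (1 + S + n) ^ m) * (k : ℝ) ^ m < k * (k : ℝ) ^ m :=
    mul_lt_mul_of_pos_right hk2 hkm
  have h8 : (k : ℝ) ^ (m + 1) = k * (k : ℝ) ^ m := by rw [pow_succ]; ring
  linarith

private theorem eb_key (n m : ℕ) (hmn : m < n) (h : (B → ℕ) → ℤ) (H : EvP (n + 1) h)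
    (C : ℝ) (hC : 0 ≤ C) (c₀ : B → ℕ)
    (hb : ∀ c, c₀ ≤ c → |(h c : ℝ)| ≤ C * (1 + ∑ b, (c b : ℝ)) ^ m) : EvP n h := by
  have H' : EvP (1 + n) h := by rw [add_comm]; exact H
  have h0 : EvP (0 + n) h := by
    rw [eb_iff]
    intro l hl
    obtain ⟨c₁, hc₁⟩ := eb_const _ ((eb_iff 1 n h).1 H' l hl)
    obtain ⟨t, ht⟩ : ∃ t, t = Dk 1 l h c₁ := ⟨_, rfl⟩
    rw [← ht] at hc₁
    have ht0 : t = 0 := by
      have hle0 : c₀ ≤ c₀ + c₁ := le_self_add
      have hle1 : c₁ ≤ c₀ + c₁ := le_add_self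
      apply eb_arch n m hmn t (2 ^ n * C) (∑ b, (((c₀ + c₁ : B → ℕ) b : ℕ) : ℝ)) (by positivity)
        (Finset.sum_nonneg fun b _ => Nat.cast_nonneg _)
      intro k
      have h1 := eb_val c₁ k l h t hc₁ (c₀ + c₁) hle1
      have h2 := eb_bd c₀ k m l h C hC hb (c₀ + c₁) hle0
      rw [h1, hl] at h2
      rw [Int.cast_abs]
      exact h2
    refine ⟨c₁, fun c hc => ?_⟩
    rw [hc₁ c hc, ht0]
  rw [zero_add] at h0
  exact h0

theorem ev_red (d m : ℕ) (h : (B → ℕ) → ℤ) (H : EvP d h)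
    (hb : ∃ (C : ℝ) (c₀ : B → ℕ), ∀ c, c₀ ≤ c → |(h c : ℝ)| ≤ C * (1 + ∑ b, (c b : ℝ)) ^ m) :
    EvP (m + 1) h := by
  obtain ⟨C, c₀, hb⟩ := hb
  have hb' : ∀ c, c₀ ≤ c → |(h c : ℝ)| ≤ |C| * (1 + ∑ b, (c b : ℝ)) ^ m := by
    intro c hc
    refine (hb c hc).trans ?_
    have h0 : 0 ≤ ∑ b, (c b : ℝ) := Finset.sum_nonneg fun b _ => Nat.cast_nonneg _
    exact mul_le_mul_of_nonneg_right (le_abs_self C) (by positivity)
  induction d with
  | zero => exact EvP.mono (Nat.zero_le _) H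
  | succ d ih =>
    by_cases hd : d + 1 ≤ m + 1
    · exact EvP.mono hd H
    · exact ih (eb_key d m (by omega) h H |C| (abs_nonneg C) c₀ hb')

end Pool.Agent.KST
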