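import Pool.Agent.KST.Defs

/-!
# KST RMB: basic facts on the products of subspaces

`rm_add`: `Rm L c * Rm L c' = Rm L (c + c')` by `Finset.prod_mul_distrib` and `pow_add` (the
submodules of a commutative algebra are a commutative semiring). `rm_single`: `∏` with one factor.
`rm_fg`: products and powers of finitely generated submodules. `rm_ne`: choose `g b ∈ L b` nonzero;
the product of the powers is not zero by `Irm.mul` (induction, all partial products are in some `Rm`).
`hm_mono`: multiplication by a nonzero element of `Rm L a` is injective on `Rm L c` with values in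
`Rm L (c + a)`. `wt_mul`: `span {P, P'} ^ t * Rm L c` times `Rm L a`. `wt_le`:
`span {P, P'} ^ t ≤ Rm L (t • h₀)`. `mul_inj`: an element of `Rm L a` times an element of `Wt` is `0`
only if one of them is (`wt_le`).
-/

open MvPolynomial

namespace Pool.Agent.KST

variable {E 𝒜 B : Type*} [Field E] [CommRing 𝒜] [Algebra E 𝒜] [Fintype B] [DecidableEq B]

omit [DecidableEq B] in
theorem rm_add (L : B → Submodule E 𝒜) (c c' : B → ℕ) :
    Rm L (c + c') = Rm L c * Rm L c' := by
  simp only [Rm, Pi.add_apply, pow_add, Finset.prod_mul_distrib]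

omit [DecidableEq B] in
theorem rm_zero (L : B → Submodule E 𝒜) : Rm L 0 = 1 := by
  simp only [Rm, Pi.zero_apply, pow_zero, Finset.prod_const_one]

theorem rm_single (L : B → Submodule E 𝒜) (b : B) : Rm L (Pi.single b 1) = L b := by
  rw [Rm, Finset.prod_eq_single b]
  · rw [Pi.single_eq_same, pow_one]
  · intro b' _ hb'
    rw [Pi.single_eq_of_ne hb', pow_zero]
  · intro h
    exact absurd (Finset.mem_univ b) h

omit [DecidableEq B] in
theorem rm_smul (L : B → Submodule E 𝒜) (k : ℕ) (c : B → ℕ) : Rm L (k • c) = Rm L c ^ k := by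
  simp only [Rm, Pi.smul_apply, smul_eq_mul, pow_mul', Finset.prod_pow]

omit [DecidableEq B] in
theorem rm_fg (L : B → Submodule E 𝒜) (hL : ∀ b, (L b).FG) (c : B → ℕ) : (Rm L c).FG := by
  have h1 : (1 : Submodule E 𝒜).FG := by
    rw [Submodule.one_eq_span]
    exact Submodule.fg_span_singleton 1
  unfold Rm
  refine Finset.prod_induction _ (fun M : Submodule E 𝒜 => M.FG) ?_ h1 ?_
  · intro a b ha hb
    exact Submodule.FG.mul ha hb
  · intro b _
    exact Submodule.FG.pow (hL b) _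

omit [DecidableEq B] in
theorem rm_mul_mem (L : B → Submodule E 𝒜) {c c' : B → ℕ} {F G : 𝒜} (hF : F ∈ Rm L c)
    (hG : G ∈ Rm L c') : F * G ∈ Rm L (c + c') := by
  rw [rm_add]
  exact Submodule.mul_mem_mul hF hG

omit [DecidableEq B] in
/-- A family of nonzero spaces over a nonempty index set forces the ring to be nontrivial. -/
theorem nontrivial_of_irm [Nonempty B] (L : B → Submodule E 𝒜) (hL : Irm L) :
    Nontrivial 𝒜 := by
  obtain ⟨b⟩ := (inferInstance : Nonempty B)
  obtain ⟨x, _, hx⟩ := Submodule.exists_mem_ne_zero_of_ne_bot (hL.ne b)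
  exact ⟨x, 0, hx⟩

omit [DecidableEq B] in
theorem rm_ne [Nontrivial 𝒜] (L : B → Submodule E 𝒜) (hL : Irm L) (c : B → ℕ) :
    ∃ F ∈ Rm L c, F ≠ 0 := by
  classical
  have hadd : ∀ a b : B → ℕ, (∃ F ∈ Rm L a, F ≠ 0) → (∃ F ∈ Rm L b, F ≠ 0) →
      ∃ F ∈ Rm L (a + b), F ≠ 0 := by
    rintro a b ⟨F, hF, hF0⟩ ⟨G, hG, hG0⟩
    refine ⟨F * G, rm_mul_mem L hF hG, fun h => ?_⟩
    rcases hL.mul a b F G hF hG h with h | h
    · exact hF0 h
    · exact hG0 h
  have hzero : ∃ F ∈ Rm L (0 : B → ℕ), F ≠ 0 := by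
    refine ⟨1, ?_, one_ne_zero⟩
    rw [rm_zero]
    exact Submodule.one_le.mp le_rfl
  have hs : ∀ (b : B) (n : ℕ), ∃ F ∈ Rm L (Pi.single b n), F ≠ 0 := by
    intro b n
    induction n with
    | zero => rwa [Pi.single_zero]
    | succ n ih =>
      rw [Pi.single_add]
      refine hadd _ _ ih ?_
      rw [rm_single]
      exact Submodule.exists_mem_ne_zero_of_ne_bot (hL.ne b)
  rw [← Finset.univ_sum_single c]
  exact Finset.sum_induction _ (fun c : B → ℕ => ∃ F ∈ Rm L c, F ≠ 0) hadd hzero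
    (fun b _ => hs b (c b))

omit [DecidableEq B] in
theorem rm_pow_mem (L : B → Submodule E 𝒜) {c : B → ℕ} {F : 𝒜} (hF : F ∈ Rm L c) (k : ℕ) :
    F ^ k ∈ Rm L (k • c) := by
  rw [rm_smul]
  exact Submodule.pow_mem_pow _ hF k

omit [DecidableEq B] in
theorem irm_pow (L : B → Submodule E 𝒜) (hL : Irm L) {c c' : B → ℕ} {F G : 𝒜}
    (hF : F ∈ Rm L c) (hG : G ∈ Rm L c') (h0 : F ≠ 0) (k : ℕ) (h : F ^ k * G = 0) : G = 0 := by
  induction k with
  | zero => simpa using h
  | succ k ih =>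
    apply ih
    rw [pow_succ', mul_assoc] at h
    rcases hL.mul c (k • c + c') F (F ^ k * G) hF
      (rm_mul_mem L (rm_pow_mem L hF k) hG) h with h | h
    · exact absurd h h0
    · exact h

omit [DecidableEq B] in
theorem hm_mono (L : B → Submodule E 𝒜) (hL : Irm L) {c c' : B → ℕ} (h : c ≤ c') :
    hm L c ≤ hm L c' := by
  rcases subsingleton_or_nontrivial 𝒜 with hs | hn
  · have : ∀ c : B → ℕ, hm L c = 0 := by
      intro c
      unfold hm
      rw [Module.finrank_zero_of_subsingleton]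
      rfl
    rw [this, this]
  obtain ⟨G, hG, hG0⟩ := rm_ne L hL (c' - c)
  have hc : (c' - c) + c = c' := tsub_add_cancel_of_le h
  have hfin : Module.Finite E (Rm L c') := Module.Finite.iff_fg.mpr (rm_fg L hL.fg c')
  have hmap : ∀ F ∈ Rm L c, LinearMap.mulLeft E G F ∈ Rm L c' := by
    intro F hF
    have := rm_mul_mem L hG hF
    rw [hc] at this
    exact this
  unfold hm
  have := LinearMap.finrank_le_finrank_of_injective
    (f := (LinearMap.mulLeft E G).restrict hmap) (by
      rw [← LinearMap.ker_eq_bot, LinearMap.ker_eq_bot']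
      rintro ⟨F, hF⟩ hx
      have h1 : G * F = 0 := by
        have := congrArg Subtype.val hx
        simpa using this
      rcases hL.mul _ _ G F hG hF h1 with h2 | h2
      · exact absurd h2 hG0
      · exact Subtype.ext h2)
  exact_mod_cast this

omit [DecidableEq B] in
theorem wt_le (L : B → Submodule E 𝒜) (h₀ : B → ℕ) (P P' : 𝒜) (hP : P ∈ Rm L h₀)
    (hP' : P' ∈ Rm L h₀) (t : ℕ) (c : B → ℕ) : Wt L P P' t c ≤ Rm L (c + t • h₀) := by
  unfold Wt
  rw [add_comm, rm_add, rm_smul]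
  refine mul_le_mul' (pow_le_pow_left' ?_ t) le_rfl
  rw [Submodule.span_le]
  rintro x (rfl | rfl)
  · exact hP
  · exact hP'

omit [DecidableEq B] in
theorem wt_mul_mem (L : B → Submodule E 𝒜) (P P' : 𝒜) {t : ℕ} {c a : B → ℕ} {F G : 𝒜}
    (hF : F ∈ Wt L P P' t c) (hG : G ∈ Rm L a) : G * F ∈ Wt L P P' t (c + a) := by
  unfold Wt at hF ⊢
  rw [rm_add, ← mul_assoc, mul_comm G F]
  exact Submodule.mul_mem_mul hF hG

omit [DecidableEq B] in
theorem wt_wt_mem (L : B → Submodule E 𝒜) (P P' : 𝒜) {t t' : ℕ} {c a : B → ℕ} {F G : 𝒜}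
    (hF : F ∈ Wt L P P' t c) (hG : G ∈ Wt L P P' t' a) : F * G ∈ Wt L P P' (t + t') (c + a) := by
  unfold Wt at hF hG ⊢
  rw [rm_add, pow_add, mul_mul_mul_comm]
  exact Submodule.mul_mem_mul hF hG

omit [DecidableEq B] in
theorem wt_fg (L : B → Submodule E 𝒜) (hL : ∀ b, (L b).FG) (P P' : 𝒜) (t : ℕ) (c : B → ℕ) :
    (Wt L P P' t c).FG := by
  unfold Wt
  refine Submodule.FG.mul (Submodule.FG.pow ?_ t) (rm_fg L hL c)
  exact Submodule.fg_span (Set.toFinite _)

end Pool.Agent.KST
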