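import Pool.Agent.KST.Mhb
import Pool.Agent.KST.Rmb

/-!
# KST PRES: presentation of the products

Let `L b` be spanned by `g b 0, ..., g b (m b - 1)`; `φ = aeval (fun s => g s.1 s.2)`,
`I = {F | ∀ c, φ (component c of F) = 0}`, an ideal: for `F ∈ I` and `G` arbitrary the component of
degree `c` of `G F` is the finite sum of the products of the components of `G` and `F` with degrees
adding up to `c`. `MH I`: the components of a component. `pres_map`: a monomial of multidegree `c` is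
mapped to a product of `c b` generators of `L b` for all `b`, and these products span `∏ L b ^ c b`
(`Submodule.span_pow`/`Submodule.span_mul_span`, induction over `B`; or: `Sc` of `c + c'` is the
product, `sc_split`, so `(Sc c).map φ = ∏_b ((Sc e_b).map φ) ^ c b` and `(Sc e_b).map φ = L b`).
`hm_eq`: the image of `Sc c` in `S / I` and `Rm L c` are both isomorphic to `Sc c / (Sc c ∩ I)`.
-/

open MvPolynomial

namespace Pool.Agent.KST

/-- The ranks of two images agree if the kernels agree. -/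
theorem finrank_map_eq_of_ker {E M N N' : Type*} [Field E] [AddCommGroup M] [Module E M]
    [AddCommGroup N] [Module E N] [AddCommGroup N'] [Module E N'] (S : Submodule E M)
    (f : M →ₗ[E] N) (g : M →ₗ[E] N') (h : ∀ x ∈ S, f x = 0 ↔ g x = 0) :
    Module.finrank E (S.map f) = Module.finrank E (S.map g) := by
  have hker : LinearMap.ker (f.domRestrict S) = LinearMap.ker (g.domRestrict S) := by
    ext ⟨x, hx⟩
    rw [LinearMap.mem_ker, LinearMap.mem_ker, LinearMap.domRestrict_apply,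
      LinearMap.domRestrict_apply]
    exact h x hx
  rw [← LinearMap.range_domRestrict, ← LinearMap.range_domRestrict,
    ← (f.domRestrict S).quotKerEquivRange.finrank_eq,
    ← (g.domRestrict S).quotKerEquivRange.finrank_eq, hker]

variable {E 𝒜 B : Type*} [Field E] [CommRing 𝒜] [Algebra E 𝒜] [Fintype B] [DecidableEq B]

theorem pres_prod_mem (L : B → Submodule E 𝒜) {m : B → ℕ} (g : ∀ b, Fin (m b) → 𝒜)
    (hg : ∀ b i, g b i ∈ L b) (d : (Σ b, Fin (m b)) →₀ ℕ) :
    d.prod (fun s k => g s.1 s.2 ^ k) ∈ Rm L (Finsupp.weight wgt d) := by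
  induction d using Finsupp.induction_linear with
  | zero =>
    rw [Finsupp.prod_zero_index, map_zero, rm_zero]
    exact Submodule.one_le.mp le_rfl
  | add f g hf hg =>
    rw [Finsupp.prod_add_index' (fun _ => pow_zero _) (fun _ _ _ => pow_add _ _ _), map_add]
    exact rm_mul_mem L hf hg
  | single s k =>
    have e : (Finsupp.single s k).prod (fun (s : Σ b, Fin (m b)) (k : ℕ) => g s.1 s.2 ^ k) =
        g s.1 s.2 ^ k := Finsupp.prod_single_index (pow_zero _)
    rw [e, Finsupp.weight_single]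
    refine rm_pow_mem L ?_ k
    rw [wgt, rm_single]
    exact hg s.1 s.2

theorem pres_map_le (L : B → Submodule E 𝒜) {m : B → ℕ} (g : ∀ b, Fin (m b) → 𝒜)
    (hg : ∀ b i, g b i ∈ L b) (c : B → ℕ) :
    (Sc E (fun b => Fin (m b)) c).map
      (aeval (fun s : Σ b, Fin (m b) => g s.1 s.2) :
        MvPolynomial (Σ b, Fin (m b)) E →ₐ[E] 𝒜).toLinearMap ≤ Rm L c := by
  rw [Submodule.map_le_iff_le_comap]
  intro F hF
  rw [Submodule.mem_comap, AlgHom.toLinearMap_apply, F.as_sum, map_sum]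
  refine Submodule.sum_mem _ (fun d hd => ?_)
  have hw : Finsupp.weight wgt d = c :=
    (mem_sc c F).mp hF (MvPolynomial.mem_support_iff.mp hd)
  rw [aeval_monomial, ← Algebra.smul_def]
  refine Submodule.smul_mem _ _ ?_
  rw [← hw]
  exact pres_prod_mem L g hg d

theorem pres_le_map (L : B → Submodule E 𝒜) {m : B → ℕ} (g : ∀ b, Fin (m b) → 𝒜)
    (hg : ∀ b, Submodule.span E (Set.range (g b)) = L b) (c : B → ℕ) :
    Rm L c ≤ (Sc E (fun b => Fin (m b)) c).map
      (aeval (fun s : Σ b, Fin (m b) => g s.1 s.2) :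
        MvPolynomial (Σ b, Fin (m b)) E →ₐ[E] 𝒜).toLinearMap := by
  set φ : MvPolynomial (Σ b, Fin (m b)) E →ₐ[E] 𝒜 :=
    aeval (fun s : Σ b, Fin (m b) => g s.1 s.2) with hφ
  have hadd : ∀ a b : B → ℕ, Rm L a ≤ (Sc E (fun b => Fin (m b)) a).map φ.toLinearMap →
      Rm L b ≤ (Sc E (fun b => Fin (m b)) b).map φ.toLinearMap →
      Rm L (a + b) ≤ (Sc E (fun b => Fin (m b)) (a + b)).map φ.toLinearMap := by
    intro a b ha hb
    rw [rm_add, sc_split, Submodule.map_mul]
    exact mul_le_mul' ha hb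
  have hzero : Rm L (0 : B → ℕ) ≤ (Sc E (fun b => Fin (m b)) 0).map φ.toLinearMap := by
    rw [rm_zero, Submodule.one_le]
    refine ⟨1, ?_, map_one φ⟩
    rw [SetLike.mem_coe, mem_sc]
    exact isWeightedHomogeneous_one E wgt
  have hone : ∀ b : B, Rm L (Pi.single b 1) ≤
      (Sc E (fun b => Fin (m b)) (Pi.single b 1)).map φ.toLinearMap := by
    intro b
    rw [rm_single, ← hg b, Submodule.span_le]
    rintro _ ⟨i, rfl⟩
    refine ⟨X ⟨b, i⟩, sc_X (V := fun b => Fin (m b)) ⟨b, i⟩, ?_⟩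
    rw [AlgHom.toLinearMap_apply, hφ, aeval_X]
  have hs : ∀ (b : B) (n : ℕ), Rm L (Pi.single b n) ≤
      (Sc E (fun b => Fin (m b)) (Pi.single b n)).map φ.toLinearMap := by
    intro b n
    induction n with
    | zero => rwa [Pi.single_zero]
    | succ n ih =>
      rw [Pi.single_add]
      exact hadd _ _ ih (hone b)
  rw [← Finset.univ_sum_single c]
  exact Finset.sum_induction _
    (fun c : B → ℕ => Rm L c ≤ (Sc E (fun b => Fin (m b)) c).map φ.toLinearMap) hadd hzero
    (fun b _ => hs b (c b))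

theorem pres (L : B → Submodule E 𝒜) (hL : ∀ b, (L b).FG) :
    ∃ (m : B → ℕ) (φ : MvPolynomial (Σ b, Fin (m b)) E →ₐ[E] 𝒜)
      (I : Ideal (MvPolynomial (Σ b, Fin (m b)) E)), MH I ∧
      (∀ c, (Sc E (fun b => Fin (m b)) c).map φ.toLinearMap = Rm L c) ∧
      ∀ c, ∀ F ∈ Sc E (fun b => Fin (m b)) c, (F ∈ I ↔ φ F = 0) := by
  have hex : ∀ b, ∃ (n : ℕ) (s : Fin n → 𝒜), Submodule.span E (Set.range s) = L b :=
    fun b => Submodule.fg_iff_exists_fin_generating_family.mp (hL b)
  choose m g hg using hex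
  have hg' : ∀ b i, g b i ∈ L b := fun b i => by
    rw [← hg b]
    exact Submodule.subset_span ⟨i, rfl⟩
  set φ : MvPolynomial (Σ b, Fin (m b)) E →ₐ[E] 𝒜 :=
    aeval (fun s : Σ b, Fin (m b) => g s.1 s.2) with hφ
  have hMH := mh_span (fun p : {p : (B → ℕ) × MvPolynomial (Σ b, Fin (m b)) E //
      p.2 ∈ Sc E (fun b => Fin (m b)) p.1 ∧ φ p.2 = 0} => p.1.2) (fun p => p.1.1)
      (fun p => p.2.1)
  refine ⟨m, φ, _, hMH, fun c => le_antisymm (pres_map_le L g hg' c) (pres_le_map L g hg c),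
    fun c F hF => ⟨fun h => ?_, fun h => ?_⟩⟩
  · have hle : Ideal.span (Set.range (fun p : {p : (B → ℕ) × MvPolynomial (Σ b, Fin (m b)) E //
        p.2 ∈ Sc E (fun b => Fin (m b)) p.1 ∧ φ p.2 = 0} => p.1.2)) ≤ RingHom.ker φ := by
      rw [Ideal.span_le]
      rintro _ ⟨p, rfl⟩
      exact p.2.2
    exact hle h
  · exact Ideal.subset_span ⟨⟨(c, F), hF, h⟩, rfl⟩

theorem hm_evp (L : B → Submodule E 𝒜) (hL : ∀ b, (L b).FG) : ∃ d, EvP d (hm L) := by
  obtain ⟨m, φ, I, hI, hmap, hker⟩ := pres L hL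
  obtain ⟨d, hd⟩ := mh_evp I hI
  refine ⟨d, EvP.congr 0 (fun c _ => ?_) hd⟩
  unfold KST.hI hm
  rw [← hmap c]
  congr 1
  refine finrank_map_eq_of_ker _ _ _ (fun F hF => ?_)
  rw [AlgHom.toLinearMap_apply, AlgHom.toLinearMap_apply, Ideal.Quotient.mkₐ_eq_mk,
    Ideal.Quotient.eq_zero_iff_mem]
  exact hker c F hF

end Pool.Agent.KST
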