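import Pool.Agent.KST.Irml
import Pool.Agent.KST.Pres
import Pool.Agent.KST.Evb
import Pool.Agent.PW.Defs

/-!
# KST GRW: growth of the Hilbert function of the graph

`hil_bd`: from `HasDegree X 3 e₀` (the limit of `hil k * 6 / k ^ 3` is `e₀`): `hil k ≤ C (1 + k) ^ 3`.
`grw_low`: `hm_mono` and `hm_block_zero`.
`grw_up`: by `rep_up`, `rep_form` (`j₀ = 0`): choose any `y` and `lam` with `lam y ≠ 0`;
`F ↦ lam F` is injective on `Rm c`: take `H ∈ Rm c` with `H y ≠ 0` (a product of coordinates), so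
`lam H ∈ Rm (bk 0 ..)` is not `0`, `(lam H) F = H (lam F) = 0`, and `F = 0` by `Irm.mul`.
So `hm c ≤ hm (bk 0 (fun _ => D ∑ c)) = hil (D ∑ c)`.
`evp_Lf`: `hm_evp` and `ev_red` with `m = 3`.
-/

open MvPolynomial Filter Topology
open scoped LinearAlgebra.Projectivization

namespace Pool.Agent.KST

open Pool.Agent.Helper90.KSC Pool.Agent.Helper63.SAND Pool.Agent.PW

variable {E ι : Type*} [Field E] [Fintype ι] [DecidableEq ι] {N : ι → ℕ}

theorem hil_bd (X : Set (PPt E N)) (e₀ : ℕ) (hdeg : HasDegree X 3 e₀) :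
    ∃ C : ℝ, 0 ≤ C ∧ ∀ k : ℕ, (hil (fun x : X => seg (x : PPt E N)) k : ℝ) ≤
      C * (1 + k) ^ 3 := by
  obtain ⟨M, hM⟩ := hdeg.bddAbove_range
  have hM' : ∀ k : ℕ, (hil (fun x : X => seg (x : PPt E N)) k : ℝ) * ((3 : ℕ).factorial : ℝ) /
      (k : ℝ) ^ 3 ≤ M := fun k => hM ⟨k, rfl⟩
  refine ⟨|M| + hil (fun x : X => seg (x : PPt E N)) 0, by positivity, fun k => ?_⟩
  rcases Nat.eq_zero_or_pos k with rfl | hk
  · have h1 : (0 : ℝ) ≤ |M| := abs_nonneg M
    simp only [Nat.cast_zero, add_zero, one_pow, mul_one]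
    linarith
  · have hk' : (0 : ℝ) < (k : ℝ) ^ 3 := by positivity
    have h1 := hM' k
    rw [div_le_iff₀ hk'] at h1
    have h6 : ((3 : ℕ).factorial : ℝ) = 6 := by norm_num [Nat.factorial]
    rw [h6] at h1
    have h0 : (0 : ℝ) ≤ hil (fun x : X => seg (x : PPt E N)) k := Nat.cast_nonneg _
    have h00 : (0 : ℝ) ≤ hil (fun x : X => seg (x : PPt E N)) 0 := Nat.cast_nonneg _
    have h2 : M * (k : ℝ) ^ 3 ≤ |M| * (k : ℝ) ^ 3 :=
      mul_le_mul_of_nonneg_right (le_abs_self M) hk'.le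
    have h3 : (k : ℝ) ^ 3 ≤ (1 + k) ^ 3 := by
      apply pow_le_pow_left₀ (by positivity)
      linarith
    have h4 : |M| * (k : ℝ) ^ 3 ≤ |M| * (1 + k) ^ 3 :=
      mul_le_mul_of_nonneg_left h3 (abs_nonneg M)
    have h5 : (0 : ℝ) ≤ hil (fun x : X => seg (x : PPt E N)) 0 * (1 + (k : ℝ)) ^ 3 := by
      positivity
    rw [add_mul]
    linarith

omit [Fintype ι] in
private theorem bk_add {n : ℕ} (j : Fin (n + 1)) (v w : ι → ℕ) :
    bk j v + bk j w = bk j (fun i => v i + w i) := by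
  funext b
  simp only [bk, Pi.add_apply]
  split_ifs <;> rfl

omit [Fintype ι] in
private theorem bk_zero {n : ℕ} (j : Fin (n + 1)) :
    bk j (0 : ι → ℕ) = 0 := by
  funext b
  simp [bk]

/-- There is a product of coordinates of multidegree `c` which is not zero at `y`. -/
private theorem exists_rm_ne (X : Set (PPt E N)) (f : PPt E N → PPt E N) (n : ℕ)
    (c : Fin (n + 1) × ι → ℕ) (y : X) : ∃ H ∈ Rm (Lf X f n) c, H y ≠ 0 := by
  have h1 : ∀ b : Fin (n + 1) × ι, ∃ k, cf X f n b k y ≠ 0 := by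
    intro b
    by_contra h
    push Not at h
    have h2 := ((f^[b.1] (y : PPt E N)) b.2).rep_nonzero
    exact h2 (funext fun k => h k)
  choose k hk using h1
  have h2 : ∀ s : Finset (Fin (n + 1) × ι),
      (∏ b ∈ s, cf X f n b (k b) ^ c b) ∈ ∏ b ∈ s, Lf X f n b ^ c b := by
    intro s
    induction s using Finset.induction_on with
    | empty =>
      simp only [Finset.prod_empty]
      exact Submodule.one_le.1 le_rfl
    | insert b s hb ih =>
      rw [Finset.prod_insert hb, Finset.prod_insert hb]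
      refine Submodule.mul_mem_mul ?_ ih
      exact Submodule.pow_mem_pow _ (Submodule.subset_span (Set.mem_range_self (k b))) _
  refine ⟨_, h2 Finset.univ, ?_⟩
  rw [Finset.prod_apply]
  refine Finset.prod_ne_zero_iff.2 fun b _ => ?_
  rw [Pi.pow_apply]
  exact pow_ne_zero _ (hk b)

theorem grw_up (X : Set (PPt E N)) (f : PPt E N → PPt E N) (hf : Set.MapsTo f X X)
    (hloc : LocallyByForms X f) (hXi : Irred X) (n : ℕ) : ∃ D : ℕ,
      ∀ (c : Fin (n + 1) × ι → ℕ) (v : ι → ℕ),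
        hm (Lf X f n) (c + bk 0 v) ≤ hm (Lf X f n) (bk 0 (fun i => D * ∑ b, c b + v i)) := by
  have hirm : Irm (Lf X f n) := irm_Lf X f hf hloc X le_rfl hXi n
  obtain ⟨D, hD⟩ := rep_form X f n 0 fun j i =>
    rep_up X f hf hloc X le_rfl n 0 j (Fin.zero_le j) i
  refine ⟨D, fun c v => ?_⟩
  obtain ⟨y, hy⟩ := hXi.1
  obtain ⟨lam, hlam, hF⟩ := hD c ⟨y, hy⟩
  obtain ⟨H, hH, hHy⟩ := exists_rm_ne X f n c ⟨y, hy⟩
  have hmem : ∀ F ∈ Rm (Lf X f n) (c + bk 0 v),
      LinearMap.mulLeft E lam F ∈ Rm (Lf X f n) (bk 0 (fun i => D * ∑ b, c b + v i)) := by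
    intro F hFm
    rw [LinearMap.mulLeft_apply]
    rw [rm_add] at hFm
    rw [← bk_add, rm_add]
    refine Submodule.mul_induction_on hFm ?_ ?_
    · intro F hF1 G hG
      rw [← mul_assoc]
      exact Submodule.mul_mem_mul (hF F hF1) hG
    · intro F G h1 h2
      rw [mul_add]
      exact add_mem h1 h2
  have hinj : ∀ F ∈ Rm (Lf X f n) (c + bk 0 v), lam * F = 0 → F = 0 := by
    intro F hFm h0
    have h1 : (lam * H) * F = 0 := by
      rw [mul_right_comm, h0, zero_mul]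
    rcases hirm.mul _ _ _ _ (hF H hH) hFm h1 with h2 | h2
    · exfalso
      have h3 := congrFun h2 ⟨y, hy⟩
      rw [Pi.mul_apply, Pi.zero_apply] at h3
      rcases mul_eq_zero.1 h3 with h4 | h4
      · exact hlam h4
      · exact hHy h4
    · exact h2
  have hfin : Module.Finite E (Rm (Lf X f n) (bk 0 (fun i => D * ∑ b, c b + v i))) :=
    Module.Finite.iff_fg.2 (rm_fg _ hirm.fg _)
  have hle : Module.finrank E (Rm (Lf X f n) (c + bk 0 v)) ≤
      Module.finrank E (Rm (Lf X f n) (bk 0 (fun i => D * ∑ b, c b + v i))) := by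
    refine LinearMap.finrank_le_finrank_of_injective
      (f := (LinearMap.mulLeft E lam).restrict hmem) ?_
    rw [injective_iff_map_eq_zero]
    intro F h0
    have h1 : lam * (F : X → E) = 0 := congrArg Subtype.val h0
    exact Subtype.ext (hinj F F.2 h1)
  unfold hm
  exact_mod_cast hle

theorem evp_Lf (X : Set (PPt E N)) (f : PPt E N → PPt E N) (hf : Set.MapsTo f X X)
    (hloc : LocallyByForms X f) (hXi : Irred X) (e₀ : ℕ) (hdeg : HasDegree X 3 e₀) (n : ℕ) :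
    EvP 4 (hm (Lf X f n)) := by
  have hirm : Irm (Lf X f n) := irm_Lf X f hf hloc X le_rfl hXi n
  obtain ⟨d, hd⟩ := hm_evp (Lf X f n) hirm.fg
  refine ev_red d 3 _ hd ?_
  obtain ⟨C, hC, hCb⟩ := hil_bd X e₀ hdeg
  obtain ⟨D, hD⟩ := grw_up X f hf hloc hXi n
  refine ⟨C * (1 + D) ^ 3, 0, fun c _ => ?_⟩
  have h1 := hD c 0
  rw [bk_zero, add_zero] at h1
  simp only [Pi.zero_apply, add_zero] at h1
  rw [hm_block_zero] at h1
  have h2 := hCb (D * ∑ b, c b)
  have h0 : (0 : ℝ) ≤ (hm (Lf X f n) c : ℝ) := by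
    unfold hm
    positivity
  rw [abs_of_nonneg h0]
  have h3 : (hm (Lf X f n) c : ℝ) ≤ (hil (fun x : X => seg (x : PPt E N)) (D * ∑ b, c b) : ℝ) := by
    exact_mod_cast h1
  refine h3.trans (h2.trans ?_)
  rw [mul_assoc, ← mul_pow]
  refine mul_le_mul_of_nonneg_left ?_ hC
  refine pow_le_pow_left₀ (by positivity) ?_ 3
  push_cast
  have h4 : (0 : ℝ) ≤ ∑ b, (c b : ℝ) := Finset.sum_nonneg fun b _ => Nat.cast_nonneg _
  have h5 : (0 : ℝ) ≤ (D : ℝ) := Nat.cast_nonneg _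
  nlinarith

end Pool.Agent.KST
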