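import Pool.Agent.KST.Defs

/-!
# KST TR: formulas for trilinear forms

Direct from the definition of `Tri` (`Finset.sum_add_distrib`, `Finset.mul_sum`,
`Finset.sum_comm`). `tri_cls`: expand the definition of `pt` and `cls`; `Tri t` is multilinear, and
`cls A c = ∑ b, c b • cls A (Pi.single b 1)`.
-/

open Filter Topology

namespace Pool.Agent.KST

section

variable {B : Type*} [Fintype B]

theorem tri_add₁ (t : B → B → B → ℝ) (u u' v w : B → ℝ) :
    Tri t (u + u') v w = Tri t u v w + Tri t u' v w := by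
  unfold Tri
  rw [← Finset.sum_add_distrib]
  refine Finset.sum_congr rfl fun i _ => ?_
  rw [← Finset.sum_add_distrib]
  refine Finset.sum_congr rfl fun j _ => ?_
  rw [← Finset.sum_add_distrib]
  refine Finset.sum_congr rfl fun k _ => ?_
  rw [Pi.add_apply]
  ring

theorem tri_smul₁ (t : B → B → B → ℝ) (r : ℝ) (u v w : B → ℝ) :
    Tri t (r • u) v w = r * Tri t u v w := by
  unfold Tri
  rw [Finset.mul_sum]
  refine Finset.sum_congr rfl fun i _ => ?_
  rw [Finset.mul_sum]
  refine Finset.sum_congr rfl fun j _ => ?_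
  rw [Finset.mul_sum]
  refine Finset.sum_congr rfl fun k _ => ?_
  rw [Pi.smul_apply, smul_eq_mul]
  ring

theorem tri_swap₁ (t : B → B → B → ℝ) (h : ∀ i j k, t i j k = t j i k) (u v w : B → ℝ) :
    Tri t u v w = Tri t v u w := by
  unfold Tri
  rw [Finset.sum_comm]
  refine Finset.sum_congr rfl fun i _ => ?_
  refine Finset.sum_congr rfl fun j _ => ?_
  refine Finset.sum_congr rfl fun k _ => ?_
  rw [h]
  ring

theorem tri_swap₂ (t : B → B → B → ℝ) (h : ∀ i j k, t i j k = t i k j) (u v w : B → ℝ) :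
    Tri t u v w = Tri t u w v := by
  unfold Tri
  refine Finset.sum_congr rfl fun i _ => ?_
  rw [Finset.sum_comm]
  refine Finset.sum_congr rfl fun j _ => ?_
  refine Finset.sum_congr rfl fun k _ => ?_
  rw [h]
  ring

theorem tri_sum₁ {κ : Type*} (s : Finset κ) (t : B → B → B → ℝ) (u : κ → B → ℝ) (v w : B → ℝ) :
    Tri t (∑ x ∈ s, u x) v w = ∑ x ∈ s, Tri t (u x) v w := by
  classical
  induction s using Finset.induction_on with
  | empty =>
    unfold Tri
    simp
  | insert a s ha ih => rw [Finset.sum_insert ha, Finset.sum_insert ha, tri_add₁, ih]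

/-- A trilinear form is continuous. -/
theorem tri_cont (t : B → B → B → ℝ) :
    Continuous fun p : (B → ℝ) × (B → ℝ) × (B → ℝ) => Tri t p.1 p.2.1 p.2.2 := by
  unfold Tri
  fun_prop

/-- A bound for a trilinear form. -/
theorem tri_bound (t : B → B → B → ℝ) : ∃ C : ℝ, 0 ≤ C ∧ ∀ (u v w : B → ℝ) (a b c : ℝ),
    (∀ i, |u i| ≤ a) → (∀ i, |v i| ≤ b) → (∀ i, |w i| ≤ c) → |Tri t u v w| ≤ C * a * b * c := by
  refine ⟨∑ i, ∑ j, ∑ k, |t i j k|, ?_, ?_⟩
  · exact Finset.sum_nonneg fun i _ => Finset.sum_nonneg fun j _ =>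
      Finset.sum_nonneg fun k _ => abs_nonneg _
  · intro u v w a b c hu hv hw
    unfold Tri
    rw [Finset.sum_mul, Finset.sum_mul, Finset.sum_mul]
    refine (Finset.abs_sum_le_sum_abs _ _).trans (Finset.sum_le_sum fun i _ => ?_)
    rw [Finset.sum_mul, Finset.sum_mul, Finset.sum_mul]
    refine (Finset.abs_sum_le_sum_abs _ _).trans (Finset.sum_le_sum fun j _ => ?_)
    rw [Finset.sum_mul, Finset.sum_mul, Finset.sum_mul]
    refine (Finset.abs_sum_le_sum_abs _ _).trans (Finset.sum_le_sum fun k _ => ?_)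
    rw [abs_mul, abs_mul, abs_mul]
    have h1 := hu i
    have h2 := hv j
    have h3 := hw k
    have ha : 0 ≤ a := (abs_nonneg _).trans h1
    have hb : 0 ≤ b := (abs_nonneg _).trans h2
    have e1 : |t i j k| * |u i| ≤ |t i j k| * a := mul_le_mul_of_nonneg_left h1 (abs_nonneg _)
    have e2 : |t i j k| * |u i| * |v j| ≤ |t i j k| * a * b :=
      mul_le_mul e1 h2 (abs_nonneg _) (by positivity)
    exact mul_le_mul e2 h3 (abs_nonneg _) (by positivity)

private theorem tri_add₂ (t : B → B → B → ℝ) (u v v' w : B → ℝ) :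
    Tri t u (v + v') w = Tri t u v w + Tri t u v' w := by
  unfold Tri
  rw [← Finset.sum_add_distrib]
  refine Finset.sum_congr rfl fun i _ => ?_
  rw [← Finset.sum_add_distrib]
  refine Finset.sum_congr rfl fun j _ => ?_
  rw [← Finset.sum_add_distrib]
  refine Finset.sum_congr rfl fun k _ => ?_
  rw [Pi.add_apply]
  ring

private theorem tri_add₃ (t : B → B → B → ℝ) (u v w w' : B → ℝ) :
    Tri t u v (w + w') = Tri t u v w + Tri t u v w' := by
  unfold Tri
  rw [← Finset.sum_add_distrib]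
  refine Finset.sum_congr rfl fun i _ => ?_
  rw [← Finset.sum_add_distrib]
  refine Finset.sum_congr rfl fun j _ => ?_
  rw [← Finset.sum_add_distrib]
  refine Finset.sum_congr rfl fun k _ => ?_
  rw [Pi.add_apply]
  ring

private theorem tri_sum₂ {κ : Type*} (s : Finset κ) (t : B → B → B → ℝ) (u w : B → ℝ)
    (v : κ → B → ℝ) : Tri t u (∑ x ∈ s, v x) w = ∑ x ∈ s, Tri t u (v x) w := by
  classical
  induction s using Finset.induction_on with
  | empty =>
    unfold Tri
    simp
  | insert a s ha ih => rw [Finset.sum_insert ha, Finset.sum_insert ha, tri_add₂, ih]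

private theorem tri_sum₃ {κ : Type*} (s : Finset κ) (t : B → B → B → ℝ) (u v : B → ℝ)
    (w : κ → B → ℝ) : Tri t u v (∑ x ∈ s, w x) = ∑ x ∈ s, Tri t u v (w x) := by
  classical
  induction s using Finset.induction_on with
  | empty =>
    unfold Tri
    simp
  | insert a s ha ih => rw [Finset.sum_insert ha, Finset.sum_insert ha, tri_add₃, ih]

private theorem tri_smul₂ (t : B → B → B → ℝ) (r : ℝ) (u v w : B → ℝ) :
    Tri t u (r • v) w = r * Tri t u v w := by
  unfold Tri
  rw [Finset.mul_sum]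
  refine Finset.sum_congr rfl fun i _ => ?_
  rw [Finset.mul_sum]
  refine Finset.sum_congr rfl fun j _ => ?_
  rw [Finset.mul_sum]
  refine Finset.sum_congr rfl fun k _ => ?_
  rw [Pi.smul_apply, smul_eq_mul]
  ring

private theorem tri_smul₃ (t : B → B → B → ℝ) (r : ℝ) (u v w : B → ℝ) :
    Tri t u v (r • w) = r * Tri t u v w := by
  unfold Tri
  rw [Finset.mul_sum]
  refine Finset.sum_congr rfl fun i _ => ?_
  rw [Finset.mul_sum]
  refine Finset.sum_congr rfl fun j _ => ?_
  rw [Finset.mul_sum]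
  refine Finset.sum_congr rfl fun k _ => ?_
  rw [Pi.smul_apply, smul_eq_mul]
  ring

end

section

variable {ι : Type*} [Fintype ι] [DecidableEq ι]

private theorem cls_single (A : Matrix ι ι ℤ) (n : ℕ) (b : Fin (n + 1) × ι) :
    cls A (Pi.single b (1 : ℝ)) = fun i => (((A ^ (b.1 : ℕ)) b.2 i : ℤ) : ℝ) := by
  funext i
  unfold cls
  rw [Finset.sum_eq_single b]
  · rw [Pi.single_eq_same, one_mul]
  · intro c _ hc
    rw [Pi.single_eq_of_ne hc, zero_mul]
  · intro h
    exact absurd (Finset.mem_univ b) h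

private theorem cls_eq (A : Matrix ι ι ℤ) (n : ℕ) (c : Fin (n + 1) × ι → ℝ) :
    cls A c = ∑ b, c b • cls A (Pi.single b (1 : ℝ)) := by
  funext i
  rw [Finset.sum_apply]
  unfold cls
  refine Finset.sum_congr rfl fun b _ => ?_
  rw [Pi.smul_apply, smul_eq_mul]
  congr 1
  exact (congrFun (cls_single A n b) i).symm

theorem tri_cls (A : Matrix ι ι ℤ) (t : ι → ι → ι → ℝ) (n : ℕ) (a b c : Fin (n + 1) × ι → ℝ) :
    Tri (pt A t n) a b c = Tri t (cls A a) (cls A b) (cls A c) := by
  rw [cls_eq A n a, cls_eq A n b, cls_eq A n c, tri_sum₁]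
  conv_lhs => unfold Tri
  refine Finset.sum_congr rfl fun i _ => ?_
  rw [tri_sum₂]
  refine Finset.sum_congr rfl fun j _ => ?_
  rw [tri_sum₃]
  refine Finset.sum_congr rfl fun k _ => ?_
  rw [tri_smul₁, tri_smul₂, tri_smul₃]
  unfold pt
  ring

/-- The class of the block `j`. -/
theorem cls_bk (A : Matrix ι ι ℤ) (n : ℕ) (j : Fin (n + 1)) :
    cls A (rv (bk j (fun _ : ι => 1))) = om A j := by
  funext i
  unfold cls om rv bk
  rw [Fintype.sum_prod_type]
  rw [Finset.sum_eq_single j]
  · refine Finset.sum_congr rfl fun k _ => ?_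
    simp
  · intro b _ hb
    refine Finset.sum_eq_zero fun k _ => ?_
    simp [hb]
  · intro h
    exact absurd (Finset.mem_univ j) h

theorem cls_add (A : Matrix ι ι ℤ) (n : ℕ) (a b : Fin (n + 1) × ι → ℝ) :
    cls A (a + b) = cls A a + cls A b := by
  funext i
  rw [Pi.add_apply]
  unfold cls
  rw [← Finset.sum_add_distrib]
  refine Finset.sum_congr rfl fun k _ => ?_
  rw [Pi.add_apply, add_mul]

theorem cls_smul (A : Matrix ι ι ℤ) (n : ℕ) (r : ℝ) (a : Fin (n + 1) × ι → ℝ) :
    cls A (r • a) = r • cls A a := by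
  funext i
  rw [Pi.smul_apply]
  unfold cls
  rw [Finset.smul_sum]
  refine Finset.sum_congr rfl fun k _ => ?_
  rw [Pi.smul_apply, smul_eq_mul, smul_eq_mul, mul_assoc]

end

end Pool.Agent.KST
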