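import Pool.Agent.KST.Rmb

/-!
# KST PEN: the dimension of the powers of a pencil

Induction on `t`, for all `c ≥ c₁`. `Wt t c` is the image of the linear map
`Ψ_t : (Fin (t + 1) → Rm L c) → 𝒜`, `(F_s) ↦ ∑_s P ^ s P' ^ (t - s) F_s` (`Submodule.span_insert`,
`(E P + E P') ^ t` is spanned by the `P ^ s P' ^ (t - s)`), so
`finrank (Wt t c) = (t + 1) hm c - finrank (ker Ψ_t)`. Claim: `finrank (ker Ψ_t) = t hm (c - h₀)`.
`t = 0`: injective. Step: let `∑_{s ≤ t+1} P ^ s P' ^ (t + 1 - s) F_s = 0`. Then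
`P' ^ (t + 1) F_0 = - P (∑_{s ≥ 1} P ^ (s - 1) P' ^ (t + 1 - s) F_s)`. By `NZ` (used `t + 1` times, at the
degrees `c + t h₀, ..., c + h₀, c`; write `P' (P' ^ t F_0) = P G` with `P' ^ t F_0, G ∈
Rm L (c + t h₀)`, so `P' ^ t F_0 = P G'` with `G' ∈ Rm L (c + t h₀ - h₀)`, and so on)
`F_0 = P G_0` with `G_0 ∈ Rm L (c - h₀)`, unique because `P` is not a zero divisor. Then
`P (P' ^ (t + 1) G_0 + ∑_{s ≥ 1} P ^ (s - 1) P' ^ (t + 1 - s) F_s) = 0`, so
`(F_1 + P' G_0, F_2, ..., F_{t+1})` is in the kernel of `Ψ_t` (degree `c`, because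
`P' G_0 ∈ Rm L c`). Conversely `G_0 ∈ Rm L (c - h₀)` and an element of the kernel of `Ψ_t` give an
element of the kernel of `Ψ_{t+1}`. So `ker Ψ_{t+1}` is isomorphic to
`Rm L (c - h₀) × ker Ψ_t`.
-/

open MvPolynomial

namespace Pool.Agent.KST

variable {E 𝒜 B : Type*} [Field E] [CommRing 𝒜] [Algebra E 𝒜] [Fintype B] [DecidableEq B]

omit [Fintype B] [DecidableEq B] in
private lemma span_mul_eq (a : 𝒜) (S : Submodule E 𝒜) :
    Submodule.span E {a} * S = S.map (LinearMap.mulLeft E a) := by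
  ext x
  rw [Submodule.mem_span_singleton_mul, Submodule.mem_map]
  simp only [LinearMap.mulLeft_apply]

omit [Fintype B] [DecidableEq B] in
private lemma finrank_map_inj {V V' : Type*} [AddCommGroup V] [Module E V] [AddCommGroup V']
    [Module E V'] (f : V →ₗ[E] V') (S : Submodule E V) (h : ∀ x ∈ S, f x = 0 → x = 0) :
    Module.finrank E (S.map f) = Module.finrank E S := by
  rw [← LinearMap.range_domRestrict]
  apply LinearMap.finrank_range_of_inj
  rw [← LinearMap.ker_eq_bot, LinearMap.ker_eq_bot']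
  rintro ⟨x, hx⟩ h0
  exact Subtype.ext (h x hx h0)

omit [Fintype B] [DecidableEq B] in
private lemma pencil_succ (P P' : 𝒜) (t : ℕ) :
    Submodule.span E {P, P'} ^ (t + 1) =
      Submodule.span E {P' ^ (t + 1)} ⊔ Submodule.span E {P} * Submodule.span E {P, P'} ^ t := by
  have hs : Submodule.span E {P, P'} = Submodule.span E {P} ⊔ Submodule.span E {P'} :=
    Submodule.span_insert P {P'}
  induction t with
  | zero => rw [zero_add, pow_one, pow_one, pow_zero, mul_one, hs, sup_comm]
  | succ t ih =>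
    have h1 : Submodule.span E {P, P'} ^ (t + 1 + 1) =
        Submodule.span E {P} * Submodule.span E {P, P'} ^ (t + 1) ⊔
          Submodule.span E {P'} * Submodule.span E {P, P'} ^ (t + 1) := by
      rw [pow_succ' _ (t + 1)]
      nth_rewrite 1 [hs]
      rw [Submodule.sup_mul]
    have h2 : Submodule.span E {P'} * Submodule.span E {P, P'} ^ (t + 1) =
        Submodule.span E {P' ^ (t + 1 + 1)} ⊔
          Submodule.span E {P} * (Submodule.span E {P'} * Submodule.span E {P, P'} ^ t) := by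
      rw [ih, Submodule.mul_sup, Submodule.span_mul_span, Set.singleton_mul_singleton,
        ← pow_succ', mul_left_comm]
    have h3 : Submodule.span E {P} * (Submodule.span E {P'} * Submodule.span E {P, P'} ^ t) ≤
        Submodule.span E {P} * Submodule.span E {P, P'} ^ (t + 1) := by
      refine mul_le_mul_right ?_ _
      rw [pow_succ' _ t]
      refine mul_le_mul_left ?_ _
      rw [hs]
      exact le_sup_right
    rw [h1, h2, sup_left_comm, sup_eq_left.2 h3]

omit [DecidableEq B] in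
private lemma wt_succ (L : B → Submodule E 𝒜) (P P' : 𝒜) (t : ℕ) (c : B → ℕ) :
    Wt L P P' (t + 1) c = (Rm L c).map (LinearMap.mulLeft E (P' ^ (t + 1))) ⊔
      (Wt L P P' t c).map (LinearMap.mulLeft E P) := by
  rw [← span_mul_eq, ← span_mul_eq]
  unfold Wt
  rw [pencil_succ, Submodule.sup_mul, mul_assoc]

omit [DecidableEq B] in
private lemma nz_iter (L : B → Submodule E 𝒜) (h₀ : B → ℕ) (P P' : 𝒜)
    (hP' : P' ∈ Rm L h₀) (c₁ : B → ℕ) (hnz : NZ L h₀ P P' c₁) (c : B → ℕ) (hc : c₁ ≤ c)
    (F : 𝒜) (hF : F ∈ Rm L c) (s : ℕ) (G : 𝒜) (hG : G ∈ Rm L (c + s • h₀))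
    (h : P' ^ (s + 1) * F = P * G) : ∃ G₀ ∈ Rm L (c - h₀), F = P * G₀ := by
  induction s generalizing G with
  | zero =>
    rw [zero_smul, add_zero] at hG
    rw [zero_add, pow_one] at h
    exact hnz.2 c hc F hF ⟨G, hG, h⟩
  | succ s ih =>
    have h1 : P' ^ (s + 1) * F ∈ Rm L (c + (s + 1) • h₀) := by
      have := rm_mul_mem L hF (rm_pow_mem L hP' (s + 1))
      rwa [mul_comm] at this
    have h2 : c₁ ≤ c + (s + 1) • h₀ := hc.trans (fun b => Nat.le_add_right _ _)
    obtain ⟨G', hG', h3⟩ := hnz.2 _ h2 _ h1 ⟨G, hG, by rw [← h, pow_succ' _ (s + 1), mul_assoc]⟩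
    have h4 : c + (s + 1) • h₀ - h₀ = c + s • h₀ := by
      rw [succ_nsmul, ← add_assoc, add_tsub_cancel_right]
    rw [h4] at hG'
    exact ih G' hG' h3

theorem pen (L : B → Submodule E 𝒜) (hL : Irm L) (h₀ : B → ℕ) (P P' : 𝒜) (hP : P ∈ Rm L h₀)
    (hP' : P' ∈ Rm L h₀) (h0 : P ≠ 0) (c₁ : B → ℕ) (hnz : NZ L h₀ P P' c₁) (t : ℕ) (c : B → ℕ)
    (hc : c₁ ≤ c) :
    (Module.finrank E (Wt L P P' t c) : ℤ) = (t + 1) * hm L c - t * hm L (c - h₀) := by
  have hch : h₀ ≤ c := hnz.1.trans hc
  have hPz : ∀ (a : B → ℕ) (F : 𝒜), F ∈ Rm L a → P * F = 0 → F = 0 := fun a F hF h =>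
    (hL.mul h₀ a P F hP hF h).resolve_left h0
  have hPc : ∀ G ∈ Rm L (c - h₀), P * G ∈ Rm L c := by
    intro G hG
    have h1 := rm_mul_mem L hP hG
    rwa [add_tsub_cancel_of_le hch] at h1
  induction t with
  | zero =>
    have h1 : Wt L P P' 0 c = Rm L c := by
      unfold Wt
      rw [pow_zero, one_mul]
    rw [h1]
    simp [hm]
  | succ t ih =>
    have hB : Module.finrank E ((Wt L P P' t c).map (LinearMap.mulLeft E P)) =
        Module.finrank E (Wt L P P' t c) :=
      finrank_map_inj _ _ fun F hF h => hPz _ F (wt_le L h₀ P P' hP hP' t c hF) h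
    by_cases hz : P' = 0
    · -- `P' = 0`
      have h1 : Wt L P P' (t + 1) c = (Wt L P P' t c).map (LinearMap.mulLeft E P) := by
        rw [wt_succ, hz, zero_pow (Nat.succ_ne_zero t)]
        have : LinearMap.mulLeft E (0 : 𝒜) = 0 := by
          ext x
          simp
        rw [this, Submodule.map_zero, bot_sup_eq]
      have h2 : Rm L c = (Rm L (c - h₀)).map (LinearMap.mulLeft E P) := by
        apply le_antisymm
        · intro F hF
          obtain ⟨G, hG, h3⟩ := hnz.2 c hc F hF ⟨0, zero_mem _, by rw [hz, zero_mul, mul_zero]⟩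
          exact ⟨G, hG, h3.symm⟩
        · rintro _ ⟨G, hG, rfl⟩
          exact hPc G hG
      have h3 : hm L c = hm L (c - h₀) := by
        unfold hm
        rw [h2, finrank_map_inj _ _ fun F hF h => hPz _ F hF h]
      rw [h1, hB, ih, h3]
      push_cast
      ring
    · have hA : Module.finrank E ((Rm L c).map (LinearMap.mulLeft E (P' ^ (t + 1)))) =
          Module.finrank E (Rm L c) :=
        finrank_map_inj _ _ fun F hF h => irm_pow L hL hP' hF hz (t + 1) h
      have hI : (Rm L c).map (LinearMap.mulLeft E (P' ^ (t + 1))) ⊓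
          (Wt L P P' t c).map (LinearMap.mulLeft E P) =
          (Rm L (c - h₀)).map (LinearMap.mulLeft E (P' ^ (t + 1) * P)) := by
        apply le_antisymm
        · rintro _ ⟨⟨F, hF, rfl⟩, ⟨G, hG, h1⟩⟩
          obtain ⟨G₀, hG₀, h2⟩ := nz_iter L h₀ P P' hP' c₁ hnz c hc F hF t G
            (wt_le L h₀ P P' hP hP' t c hG) h1.symm
          refine ⟨G₀, hG₀, ?_⟩
          rw [LinearMap.mulLeft_apply, LinearMap.mulLeft_apply, h2, mul_assoc]
        · rintro _ ⟨G, hG, rfl⟩
          refine ⟨⟨P * G, hPc G hG, ?_⟩, ⟨P' ^ (t + 1) * G, ?_, ?_⟩⟩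
          · rw [LinearMap.mulLeft_apply, LinearMap.mulLeft_apply, mul_assoc]
          · have h1 : P' * G ∈ Rm L c := by
              have := rm_mul_mem L hP' hG
              rwa [add_tsub_cancel_of_le hch] at this
            have h2 : P' ^ (t + 1) * G = P' ^ t * (P' * G) := by
              rw [pow_succ, mul_assoc]
            rw [h2]
            exact Submodule.mul_mem_mul (Submodule.pow_mem_pow _
              (Submodule.subset_span (by simp)) t) h1
          · rw [LinearMap.mulLeft_apply, LinearMap.mulLeft_apply]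
            ring
      have hIr : Module.finrank E ((Rm L (c - h₀)).map (LinearMap.mulLeft E (P' ^ (t + 1) * P))) =
          Module.finrank E (Rm L (c - h₀)) := by
        refine finrank_map_inj _ _ fun F hF h => ?_
        rw [LinearMap.mulLeft_apply, mul_assoc] at h
        exact hPz _ F hF (irm_pow L hL hP' (hPc F hF) hz (t + 1) h)
      have : FiniteDimensional E (Rm L c) := Module.Finite.iff_fg.2 (rm_fg L hL.fg c)
      have : FiniteDimensional E (Wt L P P' t c) :=
        Module.Finite.iff_fg.2 (wt_fg L hL.fg P P' t c)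
      have hsum := Submodule.finrank_sup_add_finrank_inf_eq
        ((Rm L c).map (LinearMap.mulLeft E (P' ^ (t + 1))))
        ((Wt L P P' t c).map (LinearMap.mulLeft E P))
      rw [← wt_succ, hI, hIr, hA, hB] at hsum
      have hsum' : (Module.finrank E (Wt L P P' (t + 1) c) : ℤ) + hm L (c - h₀) =
          hm L c + Module.finrank E (Wt L P P' t c) := by
        unfold hm
        exact_mod_cast hsum
      rw [ih] at hsum'
      push_cast
      linarith

end Pool.Agent.KST
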