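import Pool.Agent.KST.Irml
import Pool.Agent.LLC.Few
import Pool.Agent.Helper63.SAND.Indep

/-!
# KST CRVA: many functions on a curve if an iterate has large degree

`a y = seg y` on `C` (`Ω = C`), `PrimeH` by `primeH_seg`. `IsCond a c₀ Θ`: the forms vanishing on `C`
are the forms in `Q = idl C` (`HP`, `idl_HP`); `conde` (PW/Conde.lean) for the Noether normalisation of
`Q` (`noeth`, `rank_finite`), and the translation as in `isCond_subX` (PW/Final.lean).
`y x = seg (f^[n] x)` is given locally by forms on `C` (the charts `chart G n χ` of `f`, `chart_locF`,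
restricted to `C`). Let `W = SIx N`. `indep` (Helper63/SAND/Indep.lean; read its exact statement): if
`y` is not `RepF` of degree `card W * (b₁ + c₀)` then there are `w₀, w₁` such that for every `b`, forms
`P_i` (`i ≤ b`) of degree `b₁` with `∑ P_i(a x) y_{w₀}^(b-i) y_{w₁}^i = 0` on `C` vanish on `C`; so the
space of these functions has dimension `(b + 1) hil_C b₁ ≥ (b + 1)(b₁ + 1)`: `hil_C b₁ ≥ b₁ + 1`
because `z' 0, z' 1` (`NN Q z'`, `z' : Fin 2 → _`) have no relation: the `b₁ + 1` forms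
`z'_0 ^ i z'_1 ^ (b₁ - i)` are independent on `C`. And the functions are in
`Rm (Lf C f n) (bk 0 b₁ + bk n b)` (`forms_block`, `bk_one`). `¬ RepF ..` follows from
`card W * (b₁ + c₀) < repDegree C f^[n]` (`Nat.sInf_le`; `RepBy` and `RepF` for `Ω = C` are the same
statement up to the subtype).
-/

open MvPolynomial Filter Topology
open scoped LinearAlgebra.Projectivization

namespace Pool.Agent.KST

open Pool.Agent.Helper90.KSC Pool.Agent.Helper63.SAND Pool.Agent.PW

variable {E ι : Type*} [Field E] [Fintype ι] [DecidableEq ι] {N : ι → ℕ}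

private theorem crva_lt {u : ℕ → ℝ} {d d' : ℕ} {e e' : ℝ}
    (h : Tendsto (fun k : ℕ => u k * (d.factorial : ℝ) / (k : ℝ) ^ d) atTop (𝓝 e))
    (h' : Tendsto (fun k : ℕ => u k * (d'.factorial : ℝ) / (k : ℝ) ^ d') atTop (𝓝 e'))
    (he' : e' ≠ 0) : ¬ d < d' := by
  intro hlt
  apply he'
  have h1 : Tendsto (fun k : ℕ => (u k * (d.factorial : ℝ) / (k : ℝ) ^ d) *
      (((d'.factorial : ℝ) / (d.factorial : ℝ)) * (1 / (k : ℝ) ^ (d' - d)))) atTop
      (𝓝 (e * (((d'.factorial : ℝ) / (d.factorial : ℝ)) * 0))) := by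
    refine h.mul (Tendsto.const_mul _ ?_)
    have h2 : Tendsto (fun k : ℕ => ((k : ℝ) ^ (d' - d))) atTop atTop :=
      (tendsto_pow_atTop (by omega)).comp tendsto_natCast_atTop_atTop
    have h3 := h2.inv_tendsto_atTop
    simp only [one_div]
    exact h3
  rw [mul_zero, mul_zero] at h1
  refine tendsto_nhds_unique h' (h1.congr' ?_)
  filter_upwards [eventually_gt_atTop 0] with k hk
  have hk0 : (0 : ℝ) < k := by exact_mod_cast hk
  have hf : (d.factorial : ℝ) ≠ 0 := by exact_mod_cast (Nat.factorial_pos d).ne'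
  have h2 : (k : ℝ) ^ d' = (k : ℝ) ^ d * (k : ℝ) ^ (d' - d) := by
    rw [← pow_add]
    congr 1
    omega
  rw [h2]
  field_simp

/-- the forms in two independent variables -/
private theorem crva_coeff (m : ℕ) (c : Fin (m + 1) → E)
    (h : ∑ j : Fin (m + 1), C (c j) * (X 0 ^ (j : ℕ) * X 1 ^ (m - j) :
      MvPolynomial (Fin 2) E) = 0) : c = 0 := by
  have h1 := congrArg (aeval (![Polynomial.X, 1] : Fin 2 → Polynomial E)) h
  rw [map_sum, map_zero] at h1
  funext i
  have h2 := congrArg (fun p => Polynomial.coeff p (i : ℕ)) h1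
  simp only [map_mul, map_pow, aeval_X, aeval_C, Matrix.cons_val_zero, Matrix.cons_val_one,
    one_pow, mul_one, Polynomial.finsetSum_coeff, Polynomial.coeff_zero] at h2
  rw [Finset.sum_eq_single i] at h2
  · have h3 : (algebraMap E (Polynomial E)) (c i) = Polynomial.C (c i) := rfl
    rw [h3, Polynomial.coeff_C_mul, Polynomial.coeff_X_pow, if_pos rfl, mul_one] at h2
    exact h2
  · intro j _ hj
    have h3 : (algebraMap E (Polynomial E)) (c j) = Polynomial.C (c j) := rfl
    rw [h3, Polynomial.coeff_C_mul, Polynomial.coeff_X_pow, if_neg, mul_zero]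
    exact fun h => hj (Fin.ext h.symm)
  · intro h
    exact absurd (Finset.mem_univ i) h

theorem crva [IsAlgClosed E] [CharZero E] (X : Set (PPt E N)) (f : PPt E N → PPt E N)
    (hf : Set.MapsTo f X X) (hloc : LocallyByForms X f) (C : Set (PPt E N)) (hCX : C ⊆ X)
    (hC : ZClosed C) (hCi : Irred C) (e : ℕ) (he : 1 ≤ e) (hdegC : HasDegree C 1 e) :
    ∃ c₀ : ℕ, ∀ n b₁ : ℕ,
      Fintype.card (SIx N) * (b₁ + c₀) < repDegree C f^[n] → ∀ b : ℕ,
      ((b + 1) * (b₁ + 1) : ℤ) ≤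
        hm (Lf C f n) (bk 0 (fun _ => b₁) + bk (Fin.last n) (fun _ => b)) := by
  classical
  obtain ⟨Q, hQdef⟩ : ∃ Q, Q = idl C := ⟨_, rfl⟩
  have hQ : HP Q := by rw [hQdef]; exact idl_HP C hCi
  have hmem : ∀ (F : MvPolynomial (SIx N) E) (k : ℕ), F.IsHomogeneous k →
      (∀ x ∈ C, eval (seg x) F = 0) → F ∈ Q := by
    intro F k hF h
    rw [hQdef]
    intro j x hx
    rw [homogeneousComponent_of_mem ((mem_homogeneousSubmodule _ _).2 hF)]
    split_ifs
    · exact h x hx
    · exact map_zero _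
  have hzero : ∀ x ∈ C, ∀ F ∈ Q, eval (seg x) F = 0 := by
    intro x hx F hF
    rw [← sum_homogeneousComponent F, map_sum]
    refine Finset.sum_eq_zero fun k _ => ?_
    rw [hQdef] at hF
    exact hF k x hx
  have hvan : ∀ (F : MvPolynomial (SIx N) E) (k : ℕ), F.IsHomogeneous k →
      (Van (fun x : C => seg (x : PPt E N)) F ↔ F ∈ Q) := by
    intro F k hF
    constructor
    · intro h
      exact hmem F k hF fun x hx => h ⟨x, hx⟩
    · intro h x
      exact hzero x.1 x.2 F h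
  obtain ⟨d₂, z, hz⟩ := noeth Q hQ
  obtain ⟨e₀, he₀⟩ := rank_finite Q hQ.prime z hz
  obtain ⟨e₂, he₂1, he₂2, he₂3, mb, hmb1, hmb2⟩ := basis Q hQ.prime z hz e₀ he₀
  have hdeg₂ := hil_limit Q hQ z hz e₂ he₂3 mb hmb2 hmb1 (fun x : C => seg (x : PPt E N)) hvan
  have hd : d₂ = 1 := by
    have h1 := crva_lt hdegC hdeg₂ (by
      have h1 : e₂ ≠ 0 := by omega
      exact_mod_cast h1)
    have h2 := crva_lt hdeg₂ hdegC (by
      have h1 : e ≠ 0 := by omega
      exact_mod_cast h1)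
    omega
  subst hd
  obtain ⟨c₀, Θ, -, hΘ1, hΘ2, hΘ3⟩ := conde Q hQ z hz e₀ he₀
  have hcond : IsCond (fun x : C => seg (x : PPt E N)) c₀ Θ := by
    refine ⟨hΘ1, fun h => hΘ2 ((hvan Θ c₀ hΘ1).1 h), ?_⟩
    intro b e₁ k N' D A hk hN hD hDv hA hrel
    have hD' : D ∉ Q := fun h => hDv ((hvan D e₁ hD).2 h)
    have hhom : (N' ^ k + ∑ i ∈ Finset.range k, A (i + 1) * D ^ (i + 1) * N' ^ (k - 1 - i)
        ).IsHomogeneous ((b + e₁) * k) := by
      refine (hN.pow k).add (IsHomogeneous.sum _ _ _ fun i hi => ?_)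
      rw [Finset.mem_range] at hi
      have h1 := ((hA (i + 1)).mul (hD.pow (i + 1))).mul (hN.pow (k - 1 - i))
      have h2 : (i + 1) * b + e₁ * (i + 1) + (b + e₁) * (k - 1 - i) = (b + e₁) * k := by
        obtain ⟨j, rfl⟩ : ∃ j, k = i + 1 + j := ⟨k - (i + 1), by omega⟩
        have : i + 1 + j - 1 - i = j := by omega
        rw [this]
        ring
      rw [h2] at h1
      exact h1
    have hmem' := (hvan _ _ hhom).1 hrel
    obtain ⟨R, hR, hR2⟩ := hΘ3 b e₁ N' D hN hD hD' ⟨k, A, hk, hmem'⟩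
    exact ⟨R, hR, fun x => hzero x.1 x.2 _ hR2⟩
  obtain ⟨eG, tG, G, hG1, hG2, hG3⟩ := hloc
  let F : X → X := fun x => ⟨f x, hf x.2⟩
  have hF : ∀ (n : ℕ) (x : X), ((F^[n] x : X) : PPt E N) = f^[n] x := by
    intro n
    induction n with
    | zero => intro x; rfl
    | succ n ih =>
      intro x
      rw [Function.iterate_succ_apply, Function.iterate_succ_apply, ih (F x)]
  have hne : Nonempty C := hCi.1.to_subtype
  refine ⟨c₀, fun n b₁ hlt b => ?_⟩
  have hloc' := chart_locF (fun x : X => seg (x : PPt E N)) (fun x => seg_ne_zero _) F eG G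
    ⟨hG1, fun s x => hG2 s x x.2, fun x => hG3 x x.2⟩ n
  have hlocC : LocF (fun x : C => seg (x : PPt E N)) (fun x : C => seg (f^[n] (x : PPt E N)))
      (eG ^ n) (chart G n) := by
    refine ⟨hloc'.1, fun s x => ?_, fun x => hloc'.2.2 ⟨x, hCX x.2⟩⟩
    obtain ⟨c, hc⟩ := hloc'.2.1 s ⟨x, hCX x.2⟩
    refine ⟨c, fun w => ?_⟩
    have h1 := hc w
    simp only [hF] at h1
    exact h1
  have hno : ¬ RepF (fun x : C => seg (x : PPt E N)) (fun x : C => seg (f^[n] (x : PPt E N)))
      (Fintype.card (SIx N) * (b₁ + c₀)) := by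
    rintro ⟨P, hP1, ⟨w, hw⟩, hP3⟩
    have h1 : RepBy C f^[n] (Fintype.card (SIx N) * (b₁ + c₀)) := by
      refine ⟨P, hP1, ?_, fun x hx => hP3 ⟨x, hx⟩⟩
      unfold Van at hw
      push Not at hw
      obtain ⟨x, hx⟩ := hw
      exact ⟨x, x.2, w, hx⟩
    have h2 : repDegree C f^[n] ≤ Fintype.card (SIx N) * (b₁ + c₀) := Nat.sInf_le h1
    omega
  obtain ⟨w₀, w₁, hind⟩ := indep (fun x : C => seg (x : PPt E N)) (primeH_seg C hCi) c₀ Θ hcond
    (fun x : C => seg (f^[n] (x : PPt E N))) (fun x => seg_ne_zero _) (eG ^ n) (chart G n) hlocC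
    b₁ b hno
  -- the functions
  obtain ⟨g, hg⟩ : ∃ g : Fin (b + 1) × Fin (b₁ + 1) → C → E, ∀ p x, g p x =
      eval (seg (x : PPt E N)) (z 0 ^ (p.2 : ℕ) * z 1 ^ (b₁ - p.2)) *
        (seg (f^[n] (x : PPt E N)) w₀ ^ (b - p.1) * seg (f^[n] (x : PPt E N)) w₁ ^ (p.1 : ℕ)) :=
    ⟨_, fun p x => rfl⟩
  have hzhom : ∀ j : Fin (b₁ + 1), (z 0 ^ (j : ℕ) * z 1 ^ (b₁ - j)).IsHomogeneous b₁ := by
    intro j
    have h1 := ((hz.lin 0).pow (j : ℕ)).mul ((hz.lin 1).pow (b₁ - j))
    have h2 : 1 * (j : ℕ) + 1 * (b₁ - j) = b₁ := by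
      have := j.2
      omega
    rw [h2] at h1
    exact h1
  have hgmem : ∀ p, g p ∈ Rm (Lf C f n) (bk 0 (fun _ => b₁) + bk (Fin.last n) (fun _ => b)) := by
    intro p
    have h1 : (fun x : C => eval (seg (x : PPt E N)) (z 0 ^ (p.2 : ℕ) * z 1 ^ (b₁ - p.2))) ∈
        Rm (Lf C f n) (bk 0 (fun _ => b₁)) :=
      (forms_block C f n 0 b₁ _).2 ⟨_, hzhom p.2, fun y => rfl⟩
    have h2 : (fun x : C => seg (f^[n] (x : PPt E N)) w₀ ^ (b - p.1) *
        seg (f^[n] (x : PPt E N)) w₁ ^ (p.1 : ℕ)) ∈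
        Rm (Lf C f n) (bk (Fin.last n) (fun _ => b)) := by
      refine (forms_block C f n (Fin.last n) b _).2 ⟨MvPolynomial.X w₀ ^ (b - p.1) * MvPolynomial.X w₁ ^ (p.1 : ℕ), ?_,
        fun y => ?_⟩
      · have h3 := ((isHomogeneous_X E w₀).pow (b - p.1)).mul
          ((isHomogeneous_X E w₁).pow (p.1 : ℕ))
        have h4 : 1 * (b - p.1) + 1 * (p.1 : ℕ) = b := by
          have := p.1.2
          omega
        rw [h4] at h3
        exact h3
      · rw [map_mul, map_pow, map_pow, eval_X, eval_X]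
        rfl
    have h3 := rm_mul_mem (Lf C f n) h1 h2
    have h4 : g p = (fun x : C => eval (seg (x : PPt E N)) (z 0 ^ (p.2 : ℕ) * z 1 ^ (b₁ - p.2))) *
        (fun x : C => seg (f^[n] (x : PPt E N)) w₀ ^ (b - p.1) *
          seg (f^[n] (x : PPt E N)) w₁ ^ (p.1 : ℕ)) := by
      funext x
      rw [hg]
      rfl
    rw [h4]
    exact h3
  have hgli : LinearIndependent E g := by
    rw [Fintype.linearIndependent_iff]
    intro lam hlam
    obtain ⟨c, hc⟩ : ∃ c : ℕ → Fin (b₁ + 1) → E, ∀ i j, c i j =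
        if h : i < b + 1 then lam (⟨i, h⟩, j) else 0 := ⟨_, fun i j => rfl⟩
    have hc' : ∀ (i : Fin (b + 1)) j, c i j = lam (i, j) := by
      intro i j
      rw [hc, dif_pos i.2]
    have key := hind (fun i => ∑ j : Fin (b₁ + 1), MvPolynomial.C (c i j) *
      (z 0 ^ (j : ℕ) * z 1 ^ (b₁ - j)))
      (fun i => IsHomogeneous.sum _ _ _ fun j _ => by
        have h1 := (isHomogeneous_C (SIx N) (c i j)).mul (hzhom j)
        rw [zero_add] at h1
        exact h1)
      (by
        intro x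
        have h1 := congrFun hlam x
        simp only [Finset.sum_apply, Pi.smul_apply, smul_eq_mul, Pi.zero_apply, hg] at h1
        rw [Fintype.sum_prod_type] at h1
        rw [Finset.sum_range]
        rw [← h1]
        refine Finset.sum_congr rfl fun i _ => ?_
        rw [map_sum, Finset.sum_mul, Finset.sum_mul]
        refine Finset.sum_congr rfl fun j _ => ?_
        rw [map_mul, eval_C, hc']
        ring)
    rintro ⟨i, j⟩
    have h1 := key i (Nat.lt_succ_iff.1 i.2)
    rw [hvan _ b₁ (IsHomogeneous.sum _ _ _ fun j _ => by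
        have h1 := (isHomogeneous_C (SIx N) (c i j)).mul (hzhom j)
        rw [zero_add] at h1
        exact h1)] at h1
    have h2 := hz.inj (∑ j : Fin (b₁ + 1), MvPolynomial.C (c i j) *
      (MvPolynomial.X 0 ^ (j : ℕ) * MvPolynomial.X 1 ^ (b₁ - j))) (by
        rw [map_sum]
        simp only [map_mul, map_pow, aeval_X, aeval_C, algebraMap_eq]
        exact h1)
    have h3 := congrFun (crva_coeff b₁ (fun j => c i j) h2) j
    rw [← hc']
    exact h3
  have hfg : (Rm (Lf C f n) (bk 0 (fun _ => b₁) + bk (Fin.last n) (fun _ => b))).FG :=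
    rm_fg (Lf C f n) (fun b => Submodule.fg_span (Set.finite_range _)) _
  have hfin : Module.Finite E (Rm (Lf C f n) (bk 0 (fun _ => b₁) + bk (Fin.last n)
      (fun _ => b))) := Module.Finite.iff_fg.2 hfg
  have hli' : LinearIndependent E (fun p => (⟨g p, hgmem p⟩ :
      Rm (Lf C f n) (bk 0 (fun _ => b₁) + bk (Fin.last n) (fun _ => b)))) :=
    LinearIndependent.of_comp (Submodule.subtype _) hgli
  have h1 := hli'.fintype_card_le_finrank
  rw [Fintype.card_prod, Fintype.card_fin, Fintype.card_fin] at h1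
  unfold hm
  exact_mod_cast h1

end Pool.Agent.KST
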