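import Pool.Agent.KST.Irml

/-!
# KST CRVB: the Hilbert function of a threefold and of a curve in it

Let `h₀ = bk 0 (fun _ => 1)`, `φ₁ ∈ Rm (Lf X f n) (D₁ • h₀)` the function of `F₁`, and so on
(`forms_block`). For a pair `(i₁, i₂)` in `I` let `c' = c - (i₁ D₁ + i₂ D₂) • h₀` and let
`V (i₁, i₂) ⊆ Rm (Lf X f n) c'` be a complement of the kernel of the restriction
`Rm (Lf X f n) c' → Rm (Lf C f n) c'` (onto: the generators restrict to the generators), of dimension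
`hm (Lf C f n) c'`, which is at least `hm (Lf C f n) c₁` (`hm_mono`, `irm_Lf` for `C`). The linear map
`∏_{I} V (i₁, i₂) → Rm (Lf X f n) c`, `(G) ↦ ∑ φ₁ ^ i₁ φ₂ ^ i₂ G (i₁, i₂)` is injective: suppose that
the sum is `0` and not all `G` are `0`. Let `i₁` be minimal with some `G (i₁, .) ≠ 0`. Divide by
`φ₁ ^ i₁` (`irm_pow` for `X`): `∑_{i₂} φ₂ ^ i₂ G (i₁, i₂) + φ₁ (..) = 0` on `X`. Restrict to `S₁`
(`φ₁ = 0`): `∑_{i₂} φ₂ ^ i₂ G (i₁, i₂) = 0` on `S₁`. Let `i₂` be minimal with `G (i₁, i₂) ≠ 0`; divide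
by `φ₂ ^ i₂` (`irm_pow` for `S₁`, `φ₂ ≠ 0` on `S₁`) and restrict to `C` (`φ₂ = 0`):
`G (i₁, i₂) = 0` on `C`, so `G (i₁, i₂) = 0` by the choice of `V`. Contradiction.
-/

open MvPolynomial Filter Topology
open scoped LinearAlgebra.Projectivization

namespace Pool.Agent.KST

open Pool.Agent.Helper90.KSC Pool.Agent.Helper63.SAND

variable {E ι : Type*} [Field E] [Fintype ι] [DecidableEq ι] {N : ι → ℕ}

/-! ### Restriction of functions -/

/-- The restriction of functions to a subset. -/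
private noncomputable def rs {Y' Y : Set (PPt E N)} (h : Y' ⊆ Y) : (Y → E) →ₐ[E] (Y' → E) :=
  { toFun := fun F y => F ⟨y, h y.2⟩
    map_one' := rfl
    map_mul' := fun _ _ => rfl
    map_zero' := rfl
    map_add' := fun _ _ => rfl
    commutes' := fun _ => rfl }

omit [Fintype ι] [DecidableEq ι] in
private theorem rs_Lf {Y' Y : Set (PPt E N)} (h : Y' ⊆ Y) (f : PPt E N → PPt E N) (n : ℕ)
    (b : Fin (n + 1) × ι) : (Lf Y f n b).map (rs h).toLinearMap = Lf Y' f n b := by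
  rw [Lf, Submodule.map_span, ← Set.range_comp]
  rfl

omit [DecidableEq ι] in
private theorem rs_Rm {Y' Y : Set (PPt E N)} (h : Y' ⊆ Y) (f : PPt E N → PPt E N) (n : ℕ)
    (c : Fin (n + 1) × ι → ℕ) :
    (Rm (Lf Y f n) c).map (rs h).toLinearMap = Rm (Lf Y' f n) c := by
  show Submodule.mapHom (rs h) (∏ b, Lf Y f n b ^ c b) = _
  rw [map_prod]
  apply Finset.prod_congr rfl
  intro b _
  rw [map_pow]
  congr 1
  exact rs_Lf h f n b

omit [DecidableEq ι] in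
private theorem rs_mem {Y' Y : Set (PPt E N)} (h : Y' ⊆ Y) (f : PPt E N → PPt E N) (n : ℕ)
    (c : Fin (n + 1) × ι → ℕ) {F : Y → E} (hF : F ∈ Rm (Lf Y f n) c) :
    rs h F ∈ Rm (Lf Y' f n) c := by
  rw [← rs_Rm h]
  exact Submodule.mem_map_of_mem hF

omit [DecidableEq ι] in
private theorem exists_sec {Y' Y : Set (PPt E N)} (h : Y' ⊆ Y) (f : PPt E N → PPt E N) (n : ℕ)
    (c : Fin (n + 1) × ι → ℕ) : ∃ σ : Rm (Lf Y' f n) c →ₗ[E] (Y → E),
      ∀ g, σ g ∈ Rm (Lf Y f n) c ∧ rs h (σ g) = g := by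
  let R : Rm (Lf Y f n) c →ₗ[E] Rm (Lf Y' f n) c :=
    (rs h).toLinearMap.restrict (fun F hF => rs_mem h f n c hF)
  have hR : LinearMap.range R = ⊤ := by
    rw [LinearMap.range_eq_top]
    rintro ⟨g, hg⟩
    have hg' := hg
    rw [← rs_Rm h] at hg'
    obtain ⟨F, hF, hFg⟩ := hg'
    exact ⟨⟨F, hF⟩, Subtype.ext hFg⟩
  obtain ⟨σ, hσ⟩ := R.exists_rightInverse_of_surjective hR
  refine ⟨(Submodule.subtype _) ∘ₗ σ, fun g => ⟨(σ g).2, ?_⟩⟩
  have h1 := LinearMap.congr_fun hσ g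
  exact congrArg Subtype.val h1

/-- Successive division by `φ` and restriction to `φ = 0`. -/
private theorem crv_step {B : Type*} [Fintype B] {𝒜 ℬ : Type*} [CommRing 𝒜] [Algebra E 𝒜]
    [CommRing ℬ] [Algebra E ℬ] (L : B → Submodule E 𝒜) (hL : Irm L) (ρ : 𝒜 →ₐ[E] ℬ) {φ : 𝒜}
    {d : B → ℕ} (hφ : φ ∈ Rm L d) (h0 : φ ≠ 0) (hρ : ρ φ = 0) {c : B → ℕ} (e : ℕ → B → ℕ)
    (G : ℕ → 𝒜) (I : Finset ℕ) :
    (∀ i ∈ I, e i + i • d = c) → (∀ i ∈ I, G i ∈ Rm L (e i)) → (∀ i ∈ I, ρ (G i) = 0 → G i = 0) →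
    ∑ i ∈ I, φ ^ i * G i = 0 → ∀ i ∈ I, G i = 0 := by
  induction I using Finset.induction_on_min with
  | empty =>
    intro _ _ _ _ i hi
    simp at hi
  | insert i₀ s hmin ih =>
    intro he hG hinj hsum
    have hle : ∀ i ∈ insert i₀ s, i₀ ≤ i := by
      intro i hi
      rcases Finset.mem_insert.1 hi with rfl | hi
      · exact le_rfl
      · exact (hmin i hi).le
    have hni : i₀ ∉ s := fun hi => lt_irrefl _ (hmin _ hi)
    have h1 : φ ^ i₀ * ∑ i ∈ insert i₀ s, φ ^ (i - i₀) * G i = 0 := by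
      rw [← hsum, Finset.mul_sum]
      apply Finset.sum_congr rfl
      intro i hi
      rw [← mul_assoc, ← pow_add, Nat.add_sub_cancel' (hle i hi)]
    have h2 : ∑ i ∈ insert i₀ s, φ ^ (i - i₀) * G i ∈ Rm L (e i₀) := by
      apply Submodule.sum_mem
      intro i hi
      obtain ⟨k, rfl⟩ := Nat.exists_eq_add_of_le (hle i hi)
      rw [Nat.add_sub_cancel_left]
      have h3 := rm_mul_mem L (rm_pow_mem L hφ k) (hG _ hi)
      have h4 : k • d + e (i₀ + k) = e i₀ := by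
        have h5 : (k • d + e (i₀ + k)) + i₀ • d = e i₀ + i₀ • d := by
          rw [he i₀ (Finset.mem_insert_self _ _), ← he _ hi, add_smul]
          abel
        exact add_right_cancel h5
      rwa [h4] at h3
    have h3 := irm_pow L hL hφ h2 h0 i₀ h1
    have h4 : ρ (G i₀) = 0 := by
      have h5 := congrArg ρ h3
      rw [map_sum, map_zero, Finset.sum_insert hni, Nat.sub_self, pow_zero, one_mul,
        Finset.sum_eq_zero, add_zero] at h5
      · exact h5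
      · intro i hi
        have h6 : i - i₀ ≠ 0 := Nat.sub_ne_zero_of_lt (hmin i hi)
        rw [map_mul, map_pow, hρ, zero_pow h6, zero_mul]
    have h5 : G i₀ = 0 := hinj i₀ (Finset.mem_insert_self _ _) h4
    rw [Finset.sum_insert hni, h5, mul_zero, zero_add] at hsum
    intro i hi
    rcases Finset.mem_insert.1 hi with rfl | hi
    · exact h5
    · exact ih (fun i hi => he i (Finset.mem_insert_of_mem hi))
        (fun i hi => hG i (Finset.mem_insert_of_mem hi))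
        (fun i hi => hinj i (Finset.mem_insert_of_mem hi)) hsum i hi

theorem crvb (X : Set (PPt E N)) (hXi : Irred X) (f : PPt E N → PPt E N)
    (hf : Set.MapsTo f X X) (hloc : LocallyByForms X f) (S₁ C : Set (PPt E N)) (hCS : C ⊆ S₁)
    (hSX : S₁ ⊆ X) (hSi : Irred S₁) (hCi : Irred C) (D₁ D₂ : ℕ)
    (F₁ F₂ : MvPolynomial (SIx N) E) (hF₁ : F₁.IsHomogeneous D₁) (hF₂ : F₂.IsHomogeneous D₂)
    (h₁ : ∀ y ∈ S₁, eval (seg y) F₁ = 0) (h₁' : ∃ y ∈ X, eval (seg y) F₁ ≠ 0)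
    (h₂ : ∀ y ∈ C, eval (seg y) F₂ = 0) (h₂' : ∃ y ∈ S₁, eval (seg y) F₂ ≠ 0) (n : ℕ)
    (I : Finset (ℕ × ℕ)) (c c₁ : Fin (n + 1) × ι → ℕ)
    (hc : ∀ p ∈ I, c₁ + bk 0 (fun _ => p.1 * D₁ + p.2 * D₂) ≤ c) :
    (I.card : ℤ) * hm (Lf C f n) c₁ ≤ hm (Lf X f n) c := by
  classical
  have hXirm : Irm (Lf X f n) := irm_Lf X f hf hloc X Set.Subset.rfl hXi n
  have hSirm : Irm (Lf S₁ f n) := irm_Lf X f hf hloc S₁ hSX hSi n
  have hCirm : Irm (Lf C f n) := irm_Lf X f hf hloc C (hCS.trans hSX) hCi n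
  obtain ⟨φ₁, hφ₁⟩ : ∃ φ₁ : X → E, φ₁ = fun y : X => eval (seg (y : PPt E N)) F₁ := ⟨_, rfl⟩
  obtain ⟨φ₂, hφ₂⟩ : ∃ φ₂ : X → E, φ₂ = fun y : X => eval (seg (y : PPt E N)) F₂ := ⟨_, rfl⟩
  obtain ⟨d₁, hd₁⟩ : ∃ d : Fin (n + 1) × ι → ℕ, d = bk 0 (fun _ => D₁) := ⟨_, rfl⟩
  obtain ⟨d₂, hd₂⟩ : ∃ d : Fin (n + 1) × ι → ℕ, d = bk 0 (fun _ => D₂) := ⟨_, rfl⟩
  have hbk : ∀ i j : ℕ, (bk 0 (fun _ => i * D₁ + j * D₂) : Fin (n + 1) × ι → ℕ) =
      i • d₁ + j • d₂ := by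
    intro i j
    rw [hd₁, hd₂]
    funext b
    simp only [bk, Pi.add_apply, Pi.smul_apply, smul_eq_mul]
    split_ifs <;> simp
  have m₁ : φ₁ ∈ Rm (Lf X f n) d₁ := by
    rw [hd₁]
    exact (forms_block X f n 0 D₁ φ₁).2 ⟨F₁, hF₁, fun y => by rw [hφ₁]; rfl⟩
  have m₂ : φ₂ ∈ Rm (Lf X f n) d₂ := by
    rw [hd₂]
    exact (forms_block X f n 0 D₂ φ₂).2 ⟨F₂, hF₂, fun y => by rw [hφ₂]; rfl⟩
  have m₂' : rs hSX φ₂ ∈ Rm (Lf S₁ f n) d₂ := rs_mem hSX f n _ m₂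
  have n₁ : φ₁ ≠ 0 := by
    obtain ⟨y, hy, hy'⟩ := h₁'
    intro h
    apply hy'
    have h3 := congrFun h ⟨y, hy⟩
    rw [hφ₁] at h3
    exact h3
  have n₂ : rs hSX φ₂ ≠ 0 := by
    obtain ⟨y, hy, hy'⟩ := h₂'
    intro h
    apply hy'
    have h3 := congrFun h ⟨y, hy⟩
    rw [hφ₂] at h3
    exact h3
  have z₁ : rs hSX φ₁ = 0 := by
    funext y
    rw [hφ₁]
    exact h₁ y y.2
  have z₂ : rs hCS (rs hSX φ₂) = 0 := by
    funext y
    rw [hφ₂]
    exact h₂ y y.2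
  -- the degrees
  obtain ⟨c', hc'⟩ : ∃ c' : ℕ → ℕ → Fin (n + 1) × ι → ℕ,
      c' = fun i j => c - (i • d₁ + j • d₂) := ⟨_, rfl⟩
  have hle : ∀ p ∈ I, c₁ + (p.1 • d₁ + p.2 • d₂) ≤ c := by
    intro p hp
    rw [← hbk]
    exact hc p hp
  have hc1 : ∀ p ∈ I, c' p.1 p.2 + (p.1 • d₁ + p.2 • d₂) = c := by
    intro p hp
    rw [hc']
    exact tsub_add_cancel_of_le (le_trans le_add_self (hle p hp))
  have hc2 : ∀ p ∈ I, c₁ ≤ c' p.1 p.2 := by
    intro p hp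
    rw [hc']
    exact le_tsub_of_add_le_right (hle p hp)
  -- the sections
  choose σ hσ1 hσ2 using fun (i j : ℕ) => exists_sec (hCS.trans hSX) f n (c' i j)
  let Φ₀ : (∀ p : I, Rm (Lf C f n) (c' p.1.1 p.1.2)) →ₗ[E] (X → E) :=
    ∑ p : I, (LinearMap.mulLeft E (φ₁ ^ p.1.1 * φ₂ ^ p.1.2)) ∘ₗ (σ p.1.1 p.1.2) ∘ₗ
      LinearMap.proj p
  have hΦ₀ : ∀ g, Φ₀ g = ∑ p : I, φ₁ ^ p.1.1 * φ₂ ^ p.1.2 * σ p.1.1 p.1.2 (g p) := by
    intro g
    simp only [Φ₀, LinearMap.sum_apply, LinearMap.comp_apply, LinearMap.mulLeft_apply,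
      LinearMap.proj_apply]
  have hmem : ∀ g, Φ₀ g ∈ Rm (Lf X f n) c := by
    intro g
    rw [hΦ₀]
    apply Submodule.sum_mem
    intro p _
    have h3 := rm_mul_mem _ (rm_mul_mem _ (rm_pow_mem _ m₁ p.1.1) (rm_pow_mem _ m₂ p.1.2))
      (hσ1 p.1.1 p.1.2 (g p))
    have h4 : p.1.1 • d₁ + p.1.2 • d₂ + c' p.1.1 p.1.2 = c :=
      (add_comm _ _).trans (hc1 p.1 p.2)
    rwa [h4] at h3
  have hinj : ∀ g, Φ₀ g = 0 → g = 0 := by
    intro g hg
    obtain ⟨τ, hτ⟩ : ∃ τ : ℕ → ℕ → (X → E), τ = fun i j =>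
      if h : (i, j) ∈ I then σ i j (g ⟨(i, j), h⟩) else 0 := ⟨_, rfl⟩
    have hτI : ∀ p : I, τ p.1.1 p.1.2 = σ p.1.1 p.1.2 (g p) := by
      intro p
      rw [hτ]
      exact dif_pos p.2
    have hτmem : ∀ p ∈ I, τ p.1 p.2 ∈ Rm (Lf X f n) (c' p.1 p.2) := by
      intro p hp
      have h3 := hτI ⟨p, hp⟩
      rw [show τ p.1 p.2 = _ from h3]
      exact hσ1 _ _ _
    have hτ0 : ∀ p ∈ I, rs (hCS.trans hSX) (τ p.1 p.2) = 0 → τ p.1 p.2 = 0 := by
      intro p hp h4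
      have h3 := hτI ⟨p, hp⟩
      rw [show τ p.1 p.2 = _ from h3] at h4 ⊢
      rw [hσ2] at h4
      have h5 : g ⟨p, hp⟩ = 0 := Subtype.ext h4
      rw [h5, map_zero]
    have hsum : ∑ p ∈ I, φ₁ ^ p.1 * φ₂ ^ p.2 * τ p.1 p.2 = 0 := by
      rw [← Finset.sum_coe_sort, ← hg, hΦ₀]
      apply Finset.sum_congr rfl
      intro p _
      rw [hτI]
    obtain ⟨I₁, hI₁⟩ : ∃ I₁ : Finset ℕ, I₁ = I.image Prod.fst := ⟨_, rfl⟩
    obtain ⟨I₂, hI₂⟩ : ∃ I₂ : ℕ → Finset ℕ, I₂ = fun i => (I.filter (fun p => p.1 = i)).image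
      Prod.snd := ⟨_, rfl⟩
    have hI₂' : ∀ i j, j ∈ I₂ i ↔ (i, j) ∈ I := by
      intro i j
      rw [hI₂]
      simp only [Finset.mem_image, Finset.mem_filter]
      constructor
      · rintro ⟨p, ⟨hp, rfl⟩, rfl⟩
        exact hp
      · intro h
        exact ⟨(i, j), ⟨h, rfl⟩, rfl⟩
    have hI₁' : ∀ i ∈ I₁, ∃ j, (i, j) ∈ I := by
      intro i hi
      rw [hI₁, Finset.mem_image] at hi
      obtain ⟨p, hp, rfl⟩ := hi
      exact ⟨p.2, hp⟩
    have hmemI : ∀ p : ℕ × ℕ, p ∈ I ↔ p.1 ∈ I₁ ∧ p.2 ∈ I₂ p.1 := by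
      intro p
      rw [hI₂']
      constructor
      · intro h
        exact ⟨by rw [hI₁]; exact Finset.mem_image_of_mem _ h, h⟩
      · exact fun h => h.2
    obtain ⟨G, hG⟩ : ∃ G : ℕ → (X → E), G = fun i => ∑ j ∈ I₂ i, φ₂ ^ j * τ i j := ⟨_, rfl⟩
    have hsum1 : ∑ i ∈ I₁, φ₁ ^ i * G i = 0 := by
      rw [← hsum, Finset.sum_finset_product' I I₁ I₂ hmemI
        (f := fun i j => φ₁ ^ i * φ₂ ^ j * τ i j)]
      apply Finset.sum_congr rfl
      intro i _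
      rw [hG]
      show φ₁ ^ i * (∑ j ∈ I₂ i, φ₂ ^ j * τ i j) = _
      rw [Finset.mul_sum]
      apply Finset.sum_congr rfl
      intro j _
      rw [mul_assoc]
    obtain ⟨e, he⟩ : ∃ e : ℕ → Fin (n + 1) × ι → ℕ, e = fun i => c - i • d₁ := ⟨_, rfl⟩
    have he1 : ∀ i ∈ I₁, e i + i • d₁ = c := by
      intro i hi
      obtain ⟨j, hj⟩ := hI₁' i hi
      rw [he]
      apply tsub_add_cancel_of_le
      refine le_trans ?_ (hle _ hj)
      show i • d₁ ≤ c₁ + (i • d₁ + j • d₂)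
      exact le_trans le_self_add le_add_self
    have he2 : ∀ i ∈ I₁, ∀ j ∈ I₂ i, c' i j + j • d₂ = e i := by
      intro i hi j hj
      have h3 := hc1 _ ((hI₂' i j).1 hj)
      have h4 : c' i j + j • d₂ + i • d₁ = e i + i • d₁ := by
        rw [he1 i hi, ← h3]
        show _ = c' i j + (i • d₁ + j • d₂)
        abel
      exact add_right_cancel h4
    have hGmem : ∀ i ∈ I₁, G i ∈ Rm (Lf X f n) (e i) := by
      intro i hi
      rw [hG]
      apply Submodule.sum_mem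
      intro j hj
      have h3 := rm_mul_mem _ (rm_pow_mem _ m₂ j) (hτmem _ ((hI₂' i j).1 hj))
      have h4 : j • d₂ + c' i j = e i := (add_comm _ _).trans (he2 i hi j hj)
      exact h4 ▸ h3
    have key : ∀ i ∈ I₁, rs hSX (G i) = 0 → ∀ j ∈ I₂ i, τ i j = 0 := by
      intro i hi h3 j hj
      have h4 := crv_step (Lf S₁ f n) hSirm (rs hCS) m₂' n₂ z₂ (c := e i) (fun j => c' i j)
        (fun j => rs hSX (τ i j)) (I₂ i) (he2 i hi)
        (fun j hj => rs_mem hSX f n _ (hτmem _ ((hI₂' i j).1 hj)))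
        (fun j hj h5 => by
          have h6 : τ i j = 0 := hτ0 _ ((hI₂' i j).1 hj) h5
          show rs hSX (τ i j) = 0
          rw [h6, map_zero])
        (by
          rw [← h3, hG, map_sum]
          apply Finset.sum_congr rfl
          intro j _
          rw [map_mul, map_pow]) j hj
      apply hτ0 _ ((hI₂' i j).1 hj)
      show rs hCS (rs hSX (τ i j)) = 0
      rw [show rs hSX (τ i j) = 0 from h4, map_zero]
    have hG0 : ∀ i ∈ I₁, G i = 0 :=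
      crv_step (Lf X f n) hXirm (rs hSX) m₁ n₁ z₁ (c := c) e G I₁ he1 hGmem (by
        intro i hi h3
        rw [hG]
        apply Finset.sum_eq_zero
        intro j hj
        rw [key i hi h3 j hj, mul_zero]) hsum1
    funext p
    have hp := (hmemI p.1).1 p.2
    have h3 : τ p.1.1 p.1.2 = 0 := key _ hp.1 (by rw [hG0 _ hp.1, map_zero]) _ hp.2
    rw [hτI] at h3
    have h4 := hσ2 _ _ (g p)
    rw [h3, map_zero] at h4
    exact Subtype.ext h4.symm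
  -- dimensions
  have hfX : Module.Finite E (Rm (Lf X f n) c) :=
    Module.Finite.iff_fg.2 (rm_fg _ hXirm.fg c)
  have hfC : ∀ c, Module.Finite E (Rm (Lf C f n) c) := fun c =>
    Module.Finite.iff_fg.2 (rm_fg _ hCirm.fg c)
  haveI := hfC
  have h3 := LinearMap.finrank_le_finrank_of_injective
    (f := Φ₀.codRestrict (Rm (Lf X f n) c) hmem) (by
      rw [injective_iff_map_eq_zero]
      intro g hg
      exact hinj g (congrArg Subtype.val hg))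
  rw [Module.finrank_pi_fintype] at h3
  have h4 : (I.card : ℤ) * hm (Lf C f n) c₁ ≤
      ∑ p : I, hm (Lf C f n) (c' p.1.1 p.1.2) := by
    have h5 : ∀ p : I, hm (Lf C f n) c₁ ≤ hm (Lf C f n) (c' p.1.1 p.1.2) := fun p =>
      hm_mono _ hCirm (hc2 p.1 p.2)
    have h6 := Finset.sum_le_sum (fun p (_ : p ∈ (Finset.univ : Finset I)) => h5 p)
    rw [Finset.sum_const, Finset.card_univ, Fintype.card_coe, nsmul_eq_mul] at h6
    exact h6
  refine h4.trans ?_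
  unfold hm
  exact_mod_cast h3

end Pool.Agent.KST
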