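import Pool.Agent.KST.Evb

/-!
# KST EVC: the leading form

`ev_cub`: for `i, j, k : B` the function `Dl e_i (Dl e_j (Dl e_k h))` is in `EvP 1`, so it is
eventually a constant `t i j k : ℤ` (`ev_growth` with `d = 0` is not enough; prove: `EvP 1 h` implies
`∃ c₀ k, ∀ c ≥ c₀, h c = k`). `t` is symmetric as the operators `Dl` commute. Let
`q c = 6 h c - ∑ i j k, t i j k * c i * c j * c k` (an integer valued function). All its differences of
order three are eventually zero: the third difference of the cubic polynomial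
`∑ t i j k c i c j c k` in the directions `e_a, e_b, e_c` is the constant `6 t a b c` (by
symmetry; expand: for a symmetric trilinear form `T`,
`T(x+a)^3 - T(x)^3 = 3 T(x,x,a) + 3 T(x,a,a) + T(a,a,a)`, and so on). So `EvP 3 q`, and
`c₁` is `ev_growth` for `q`. `c₂`: `Dl a q` is in `EvP 2` (`EvP.dl`), `6 Dl a h c = 3 T(c,c,a) +
3 T(c,a,a) + T(a,a,a) + Dl a q c`; divide by 3. `c₃`: `Dl a' (Dl a q)` is in `EvP 1`,
`6 Dl a' (Dl a h) c = 6 T(c,a,a') + const + Dl a' (Dl a q) c`.

`cub_ray`: from `c₁`: `|6 h (c₁ + k v) - T(c₁ + k v)^3| ≤ C (1 + ∑ c₁ + k ∑ v)^2` and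
`T(c₁ + k v)^3 = k^3 T(v,v,v) + O(k^2)`.

`cub_unique`: by `cub_ray` (take `c₁` above both bounds) `T(v,v,v) = T'(v,v,v)` for all
`v : B → ℕ`; then `tri_polar`. `tri_polar`: `6 T(u,v,w) = T(u+v+w)^3 - T(u+v)^3 - T(u+w)^3 - T(v+w)^3
+ T(u)^3 + T(v)^3 + T(w)^3` for symmetric `t`; apply it to the `e_i, e_j, e_k` (natural vectors):
`6 t i j k = 6 t' i j k`.
-/

open Filter Topology

namespace Pool.Agent.KST

variable {B : Type*} [Fintype B] [DecidableEq B]

private lemma ind_vec {P : (B → ℕ) → Prop} (c₀ : B → ℕ) (h0 : P c₀)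
    (hs : ∀ c, c₀ ≤ c → ∀ b, P c → P (c + Pi.single b 1)) : ∀ c, c₀ ≤ c → P c := by
  have key : ∀ (n : ℕ) (c : B → ℕ), c₀ ≤ c → ∑ b, c b = n → P c := by
    intro n
    induction n using Nat.strong_induction_on with
    | _ n ih =>
      intro c hc hn
      by_cases he : c = c₀
      · rw [he]
        exact h0
      · obtain ⟨b, hb⟩ : ∃ b, c₀ b < c b := by
          by_contra hcon
          push Not at hcon
          exact he (le_antisymm hcon hc)
        have h1 : c = Function.update c b (c b - 1) + Pi.single b 1 := by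
          funext x
          by_cases hx : x = b
          · subst hx
            rw [Pi.add_apply, Function.update_self, Pi.single_eq_same]
            omega
          · rw [Pi.add_apply, Function.update_of_ne hx, Pi.single_eq_of_ne hx, add_zero]
        have h2 : c₀ ≤ Function.update c b (c b - 1) := by
          intro x
          by_cases hx : x = b
          · subst hx
            rw [Function.update_self]
            exact Nat.le_sub_one_of_lt hb
          · rw [Function.update_of_ne hx]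
            exact hc x
        have h3 : ∑ x, Function.update c b (c b - 1) x < n := by
          rw [← hn]
          apply Finset.sum_lt_sum
          · intro x _
            by_cases hx : x = b
            · subst hx
              rw [Function.update_self]
              omega
            · rw [Function.update_of_ne hx]
          · refine ⟨b, Finset.mem_univ b, ?_⟩
            rw [Function.update_self]
            omega
        rw [h1]
        exact hs _ h2 b (ih _ h3 _ h2 rfl)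
  exact fun c hc => key _ c hc rfl

private lemma ev_const {h : (B → ℕ) → ℤ} (H : EvP 1 h) :
    ∃ (t : ℤ) (c₀ : B → ℕ), ∀ c, c₀ ≤ c → h c = t := by
  have H' : ∀ b, ∃ c₀ : B → ℕ, ∀ c, c₀ ≤ c → Dl (Pi.single b 1) h c = 0 := fun b => H b
  choose c0 hc0 using H'
  refine ⟨h (Finset.univ.sup c0), Finset.univ.sup c0, ?_⟩
  refine ind_vec (P := fun c => h c = h (Finset.univ.sup c0)) _ rfl ?_
  intro c hc b hP
  have h1 := hc0 b c ((Finset.le_sup (f := c0) (Finset.mem_univ b)).trans hc)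
  have h2 : h (c + Pi.single b 1) - h c = 0 := h1
  rw [← hP]
  linarith

omit [Fintype B] [DecidableEq B] in
private lemma Dl_add' (a : B → ℕ) (f g : (B → ℕ) → ℤ) :
    Dl a (fun c => f c + g c) = fun c => Dl a f c + Dl a g c := by
  funext c
  unfold Dl
  ring

omit [Fintype B] [DecidableEq B] in
private lemma Dl_sub' (a : B → ℕ) (f g : (B → ℕ) → ℤ) :
    Dl a (fun c => f c - g c) = fun c => Dl a f c - Dl a g c := by
  funext c
  unfold Dl
  ring

omit [Fintype B] [DecidableEq B] in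
private lemma Dl_mul' (a : B → ℕ) (k : ℤ) (f : (B → ℕ) → ℤ) :
    Dl a (fun c => k * f c) = fun c => k * Dl a f c := by
  funext c
  unfold Dl
  ring

omit [Fintype B] [DecidableEq B] in
private lemma Dl_const' (a : B → ℕ) (k : ℤ) : Dl a (fun _ => k) = fun _ => 0 := by
  funext c
  unfold Dl
  ring

omit [Fintype B] [DecidableEq B] in
private lemma Dl_comm' (a b : B → ℕ) (f : (B → ℕ) → ℤ) : Dl a (Dl b f) = Dl b (Dl a f) := by
  funext c
  unfold Dl
  rw [add_right_comm c b a]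
  ring

section TR

variable {R : Type*} [CommRing R]

private def TR (t : B → B → B → R) (u v w : B → R) : R :=
  ∑ i, ∑ j, ∑ k, t i j k * u i * v j * w k

omit [DecidableEq B] in
private lemma TR_add1 (t : B → B → B → R) (u u' v w : B → R) :
    TR t (u + u') v w = TR t u v w + TR t u' v w := by
  unfold TR
  simp only [← Finset.sum_add_distrib, Pi.add_apply]
  refine Finset.sum_congr rfl fun i _ => Finset.sum_congr rfl fun j _ =>
    Finset.sum_congr rfl fun k _ => by ring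

omit [DecidableEq B] in
private lemma TR_add2 (t : B → B → B → R) (u v v' w : B → R) :
    TR t u (v + v') w = TR t u v w + TR t u v' w := by
  unfold TR
  simp only [← Finset.sum_add_distrib, Pi.add_apply]
  refine Finset.sum_congr rfl fun i _ => Finset.sum_congr rfl fun j _ =>
    Finset.sum_congr rfl fun k _ => by ring

omit [DecidableEq B] in
private lemma TR_add3 (t : B → B → B → R) (u v w w' : B → R) :
    TR t u v (w + w') = TR t u v w + TR t u v w' := by
  unfold TR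
  simp only [← Finset.sum_add_distrib, Pi.add_apply]
  refine Finset.sum_congr rfl fun i _ => Finset.sum_congr rfl fun j _ =>
    Finset.sum_congr rfl fun k _ => by ring

omit [DecidableEq B] in
private lemma TR_sym12 {t : B → B → B → R} (h : ∀ i j k, t i j k = t j i k) (u v w : B → R) :
    TR t u v w = TR t v u w := by
  unfold TR
  rw [Finset.sum_comm]
  refine Finset.sum_congr rfl fun i _ => Finset.sum_congr rfl fun j _ =>
    Finset.sum_congr rfl fun k _ => ?_
  rw [h j i k]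
  ring

omit [DecidableEq B] in
private lemma TR_sym23 {t : B → B → B → R} (h : ∀ i j k, t i j k = t i k j) (u v w : B → R) :
    TR t u v w = TR t u w v := by
  unfold TR
  refine Finset.sum_congr rfl fun i _ => ?_
  rw [Finset.sum_comm]
  refine Finset.sum_congr rfl fun j _ => Finset.sum_congr rfl fun k _ => ?_
  rw [h i k j]
  ring

private lemma TR_single (t : B → B → B → R) (i j k : B) :
    TR t (Pi.single i 1) (Pi.single j 1) (Pi.single k 1) = t i j k := by
  unfold TR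
  rw [Finset.sum_eq_single i, Finset.sum_eq_single j, Finset.sum_eq_single k]
  · simp
  · intro b _ hb
    rw [Pi.single_eq_of_ne hb, mul_zero]
  · intro h
    exact absurd (Finset.mem_univ _) h
  · intro b _ hb
    refine Finset.sum_eq_zero fun x _ => ?_
    rw [Pi.single_eq_of_ne hb, mul_zero, zero_mul]
  · intro h
    exact absurd (Finset.mem_univ _) h
  · intro b _ hb
    refine Finset.sum_eq_zero fun x _ => Finset.sum_eq_zero fun y _ => ?_
    rw [Pi.single_eq_of_ne hb, mul_zero, zero_mul, zero_mul]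
  · intro h
    exact absurd (Finset.mem_univ _) h

omit [DecidableEq B] in
private lemma TR_cube {t : B → B → B → R} (h₁ : ∀ i j k, t i j k = t j i k)
    (h₂ : ∀ i j k, t i j k = t i k j) (c a : B → R) :
    TR t (c + a) (c + a) (c + a) = TR t c c c + 3 * TR t c c a + 3 * TR t c a a + TR t a a a := by
  simp only [TR_add1, TR_add2, TR_add3]
  have e1 : TR t c a c = TR t c c a := TR_sym23 h₂ c a c
  have e2 : TR t a c c = TR t c a c := TR_sym12 h₁ a c c
  have e3 : TR t a c a = TR t c a a := TR_sym12 h₁ a c a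
  have e4 : TR t a a c = TR t a c a := TR_sym23 h₂ a a c
  rw [e4, e3, e2, e1]
  ring

end TR

private def zv (c : B → ℕ) : B → ℤ := fun b => (c b : ℤ)

omit [Fintype B] [DecidableEq B] in
private lemma zv_add (c a : B → ℕ) : zv (c + a) = zv c + zv a := by
  funext b
  unfold zv
  rw [Pi.add_apply, Pi.add_apply]
  push_cast
  rfl

omit [Fintype B] in
private lemma zv_single (i : B) : zv (Pi.single i 1) = Pi.single i 1 := by
  funext b
  unfold zv
  by_cases hb : b = i
  · subst hb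
    rw [Pi.single_eq_same, Pi.single_eq_same]
    rfl
  · rw [Pi.single_eq_of_ne hb, Pi.single_eq_of_ne hb]
    rfl

omit [DecidableEq B] in
private lemma zv_cast (t : B → B → B → ℤ) (u v w : B → ℕ) :
    ((TR t (zv u) (zv v) (zv w) : ℤ) : ℝ) =
      Tri (fun i j k => (t i j k : ℝ)) (rv u) (rv v) (rv w) := by
  unfold TR Tri zv
  push_cast
  rfl

omit [DecidableEq B] in
private lemma dl_c1 {t : B → B → B → ℤ} (h₁ : ∀ i j k, t i j k = t j i k)
    (h₂ : ∀ i j k, t i j k = t i k j) (a : B → ℕ) :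
    Dl a (fun c => TR t (zv c) (zv c) (zv c)) = fun c => 3 * TR t (zv c) (zv c) (zv a) +
      (3 * TR t (zv c) (zv a) (zv a) + TR t (zv a) (zv a) (zv a)) := by
  funext c
  change TR t (zv (c + a)) (zv (c + a)) (zv (c + a)) - TR t (zv c) (zv c) (zv c) = _
  rw [zv_add, TR_cube h₁ h₂]
  ring

omit [DecidableEq B] in
private lemma dl_c2 {t : B → B → B → ℤ} (h₁ : ∀ i j k, t i j k = t j i k) (a : B → ℕ)
    (y : B → ℤ) :
    Dl a (fun c => TR t (zv c) (zv c) y) = fun c => 2 * TR t (zv c) (zv a) y +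
      TR t (zv a) (zv a) y := by
  funext c
  change TR t (zv (c + a)) (zv (c + a)) y - TR t (zv c) (zv c) y = _
  rw [zv_add]
  simp only [TR_add1, TR_add2]
  rw [TR_sym12 h₁ (zv a) (zv c) y]
  ring

omit [DecidableEq B] in
private lemma dl_c3 (t : B → B → B → ℤ) (a : B → ℕ) (x y : B → ℤ) :
    Dl a (fun c => TR t (zv c) x y) = fun _ => TR t (zv a) x y := by
  funext c
  change TR t (zv (c + a)) x y - TR t (zv c) x y = _
  rw [zv_add, TR_add1]
  ring

theorem ev_cub (h : (B → ℕ) → ℤ) (H : EvP 4 h) : ∃ t : B → B → B → ℝ, Cub h t := by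
  have hc : ∀ i j k : B, ∃ (t : ℤ) (c₀ : B → ℕ), ∀ c, c₀ ≤ c →
      Dl (Pi.single i 1) (Dl (Pi.single j 1) (Dl (Pi.single k 1) h)) c = t :=
    fun i j k => ev_const (H k j i)
  choose t c0 ht using hc
  have s1 : ∀ i j k, t i j k = t j i k := by
    intro i j k
    rw [← ht i j k (c0 i j k ⊔ c0 j i k) le_sup_left,
      ← ht j i k (c0 i j k ⊔ c0 j i k) le_sup_right, Dl_comm' (Pi.single i 1) (Pi.single j 1)]
  have s2 : ∀ i j k, t i j k = t i k j := by
    intro i j k
    rw [← ht i j k (c0 i j k ⊔ c0 i k j) le_sup_left,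
      ← ht i k j (c0 i j k ⊔ c0 i k j) le_sup_right, Dl_comm' (Pi.single j 1) (Pi.single k 1)]
  obtain ⟨q, hq⟩ : ∃ q : (B → ℕ) → ℤ, q = fun c => 6 * h c - TR t (zv c) (zv c) (zv c) :=
    ⟨_, rfl⟩
  have hq3 : EvP 3 q := by
    intro b b' b''
    refine ⟨c0 b'' b' b, fun c hc => ?_⟩
    rw [hq]
    rw [Dl_sub', Dl_mul', dl_c1 s1 s2, Dl_sub', Dl_mul', Dl_add', Dl_mul', dl_c2 s1, Dl_add',
      Dl_mul', dl_c3, Dl_const', Dl_sub', Dl_mul']
    rw [show (fun c => 3 * (2 * TR t (zv c) (zv (Pi.single b' 1)) (zv (Pi.single b 1)) +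
      TR t (zv (Pi.single b' 1)) (zv (Pi.single b' 1)) (zv (Pi.single b 1))) +
      (3 * TR t (zv (Pi.single b' 1)) (zv (Pi.single b 1)) (zv (Pi.single b 1)) + 0)) =
      fun c => 6 * TR t (zv c) (zv (Pi.single b' 1)) (zv (Pi.single b 1)) +
      (3 * TR t (zv (Pi.single b' 1)) (zv (Pi.single b' 1)) (zv (Pi.single b 1)) +
      3 * TR t (zv (Pi.single b' 1)) (zv (Pi.single b 1)) (zv (Pi.single b 1))) from by
        funext c; ring]
    rw [Dl_add', Dl_mul', dl_c3, Dl_const', zv_single, zv_single, zv_single, TR_single]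
    change 6 * Dl (Pi.single b'' 1) (Dl (Pi.single b' 1) (Dl (Pi.single b 1) h)) c -
      (6 * t b'' b' b + 0) = 0
    rw [ht b'' b' b c hc]
    ring
  refine ⟨fun i j k => (t i j k : ℝ), ?_, ?_, ?_, ?_, ?_⟩
  · intro i j k
    rw [s1]
  · intro i j k
    rw [s2]
  · obtain ⟨C, c₀, -, hb⟩ := ev_growth 2 q hq3
    refine ⟨C, c₀, fun c hc => ?_⟩
    have h1 := hb c hc
    rw [← zv_cast]
    rw [hq] at h1
    push_cast at h1
    exact h1
  · intro a
    have h1 : EvP 2 (Dl a q) := EvP.dl a hq3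
    have h2 : EvP 2 (fun c => 3 * TR t (zv c) (zv a) (zv a) + TR t (zv a) (zv a) (zv a)) := by
      intro b b'
      refine ⟨0, fun c _ => ?_⟩
      rw [Dl_add', Dl_mul', dl_c3, Dl_const', Dl_add', Dl_const', Dl_const']
      rfl
    obtain ⟨C, c₀, -, hb⟩ := ev_growth 1 _ (h1.add h2)
    refine ⟨C / 3, c₀, fun c hc => ?_⟩
    have h3 := hb c hc
    have h4 : Dl a q c + (3 * TR t (zv c) (zv a) (zv a) + TR t (zv a) (zv a) (zv a)) =
        3 * (2 * Dl a h c - TR t (zv c) (zv c) (zv a)) := by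
      rw [hq, Dl_sub', Dl_mul', dl_c1 s1 s2]
      ring
    rw [h4] at h3
    rw [← zv_cast]
    push_cast at h3
    rw [abs_mul, abs_of_pos (by norm_num : (0 : ℝ) < 3), pow_one] at h3
    linarith
  · intro a a'
    have h1 : EvP 1 (Dl a' (Dl a q)) := EvP.dl a' (EvP.dl a hq3)
    have h2 := EvP.const (B := B) (3 * TR t (zv a') (zv a') (zv a) +
      3 * TR t (zv a') (zv a) (zv a))
    obtain ⟨C, c₀, -, hb⟩ := ev_growth 0 _ (h1.add h2)
    refine ⟨C / 6, c₀, fun c hc => ?_⟩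
    have h3 := hb c hc
    have h4 : Dl a' (Dl a q) c + (3 * TR t (zv a') (zv a') (zv a) +
        3 * TR t (zv a') (zv a) (zv a)) =
        6 * (Dl a' (Dl a h) c - TR t (zv c) (zv a) (zv a')) := by
      rw [hq, Dl_sub', Dl_mul', dl_c1 s1 s2, Dl_sub', Dl_mul', Dl_add', Dl_mul', dl_c2 s1,
        Dl_add', Dl_mul', dl_c3, Dl_const']
      have h5 := TR_sym23 s2 (zv c) (zv a') (zv a)
      linear_combination (-6) * h5
    rw [h4] at h3
    rw [← zv_cast]
    push_cast at h3
    rw [abs_mul, abs_of_pos (by norm_num : (0 : ℝ) < 6), pow_zero] at h3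
    linarith

theorem cub_ray (h : (B → ℕ) → ℤ) (t : B → B → B → ℝ) (H : Cub h t) (v : B → ℕ) :
    ∃ c₀ : B → ℕ, ∀ c₁, c₀ ≤ c₁ →
      Tendsto (fun k : ℕ => 6 * (h (c₁ + k • v) : ℝ) / (k : ℝ) ^ 3) atTop
        (𝓝 (Tri t (rv v) (rv v) (rv v))) := by
  obtain ⟨C, c₀, hb⟩ := H.c₁
  refine ⟨c₀, fun c₁ hc₁ => ?_⟩
  have hinv : Tendsto (fun k : ℕ => (k : ℝ)⁻¹) atTop (𝓝 0) := tendsto_inv_atTop_nhds_zero_nat
  -- the cubic form
  have hcont : Continuous (fun u : B → ℝ => Tri t u u u) := by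
    unfold Tri
    fun_prop
  have hx : Tendsto (fun k : ℕ => (fun b => (c₁ b : ℝ) * (k : ℝ)⁻¹ + (v b : ℝ) : B → ℝ)) atTop
      (𝓝 (rv v)) := by
    rw [tendsto_pi_nhds]
    intro b
    have h1 := (hinv.const_mul (c₁ b : ℝ)).add_const (v b : ℝ)
    rw [mul_zero, zero_add] at h1
    exact h1
  have h1 : Tendsto (fun k : ℕ => Tri t (fun b => (c₁ b : ℝ) * (k : ℝ)⁻¹ + (v b : ℝ))
      (fun b => (c₁ b : ℝ) * (k : ℝ)⁻¹ + (v b : ℝ))
      (fun b => (c₁ b : ℝ) * (k : ℝ)⁻¹ + (v b : ℝ))) atTop (𝓝 (Tri t (rv v) (rv v) (rv v))) :=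
    (hcont.tendsto (rv v)).comp hx
  -- the error
  obtain ⟨A, hA⟩ : ∃ A : ℝ, A = 1 + ∑ b, (c₁ b : ℝ) := ⟨_, rfl⟩
  obtain ⟨S, hS⟩ : ∃ S : ℝ, S = ∑ b, (v b : ℝ) := ⟨_, rfl⟩
  have h2 : Tendsto (fun k : ℕ => C * (A * (k : ℝ)⁻¹ + S) ^ 2 * (k : ℝ)⁻¹) atTop (𝓝 0) := by
    have h3 := ((((hinv.const_mul A).add_const S).pow 2).const_mul C).mul hinv
    rw [mul_zero] at h3
    exact h3
  have h3 : Tendsto (fun k : ℕ => 6 * (h (c₁ + k • v) : ℝ) / (k : ℝ) ^ 3 -
      Tri t (fun b => (c₁ b : ℝ) * (k : ℝ)⁻¹ + (v b : ℝ))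
      (fun b => (c₁ b : ℝ) * (k : ℝ)⁻¹ + (v b : ℝ))
      (fun b => (c₁ b : ℝ) * (k : ℝ)⁻¹ + (v b : ℝ))) atTop (𝓝 0) := by
    refine squeeze_zero_norm' ?_ h2
    filter_upwards [eventually_ge_atTop 1] with k hk
    have hk0 : (0 : ℝ) < k := by exact_mod_cast hk
    have h4 := hb (c₁ + k • v) (hc₁.trans (le_add_of_nonneg_right (zero_le)))
    have h5 : Tri t (rv (c₁ + k • v)) (rv (c₁ + k • v)) (rv (c₁ + k • v)) =
        (k : ℝ) ^ 3 * Tri t (fun b => (c₁ b : ℝ) * (k : ℝ)⁻¹ + (v b : ℝ))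
      (fun b => (c₁ b : ℝ) * (k : ℝ)⁻¹ + (v b : ℝ))
      (fun b => (c₁ b : ℝ) * (k : ℝ)⁻¹ + (v b : ℝ)) := by
      unfold Tri
      simp only [Finset.mul_sum]
      refine Finset.sum_congr rfl fun i _ => Finset.sum_congr rfl fun j _ =>
        Finset.sum_congr rfl fun l _ => ?_
      have h6 : ∀ b, rv (c₁ + k • v) b = (k : ℝ) * ((c₁ b : ℝ) * (k : ℝ)⁻¹ + (v b : ℝ)) := by
        intro b
        change ((c₁ b + k * v b : ℕ) : ℝ) = _
        push_cast
        field_simp
      rw [h6, h6, h6]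
      ring
    have h6 : 1 + ∑ b, (((c₁ + k • v) b : ℕ) : ℝ) = (k : ℝ) * (A * (k : ℝ)⁻¹ + S) := by
      have h7 : ∀ b, (((c₁ + k • v) b : ℕ) : ℝ) = (c₁ b : ℝ) + (k : ℝ) * (v b : ℝ) := by
        intro b
        change ((c₁ b + k * v b : ℕ) : ℝ) = _
        push_cast
        rfl
      simp only [h7]
      rw [Finset.sum_add_distrib, ← Finset.mul_sum, ← hS, hA]
      field_simp
      ring
    rw [h5, h6] at h4
    rw [Real.norm_eq_abs]
    have h8 : 6 * (h (c₁ + k • v) : ℝ) / (k : ℝ) ^ 3 -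
        Tri t (fun b => (c₁ b : ℝ) * (k : ℝ)⁻¹ + (v b : ℝ))
      (fun b => (c₁ b : ℝ) * (k : ℝ)⁻¹ + (v b : ℝ))
      (fun b => (c₁ b : ℝ) * (k : ℝ)⁻¹ + (v b : ℝ)) =
      (6 * (h (c₁ + k • v) : ℝ) - (k : ℝ) ^ 3 *
        Tri t (fun b => (c₁ b : ℝ) * (k : ℝ)⁻¹ + (v b : ℝ))
      (fun b => (c₁ b : ℝ) * (k : ℝ)⁻¹ + (v b : ℝ))
      (fun b => (c₁ b : ℝ) * (k : ℝ)⁻¹ + (v b : ℝ))) / (k : ℝ) ^ 3 := by
      field_simp
    rw [h8, abs_div, abs_of_pos (by positivity : (0 : ℝ) < (k : ℝ) ^ 3),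
      div_le_iff₀ (by positivity)]
    refine h4.trans (le_of_eq ?_)
    field_simp
  have h4 := h3.add h1
  rw [zero_add] at h4
  refine h4.congr fun k => ?_
  ring

omit [Fintype B] [DecidableEq B] in
private lemma rv_add' (c a : B → ℕ) : rv (c + a) = rv c + rv a := by
  funext b
  change ((c b + a b : ℕ) : ℝ) = (c b : ℝ) + (a b : ℝ)
  push_cast
  rfl

omit [DecidableEq B] in
private lemma tri_pol {t : B → B → B → ℝ} (h₁ : ∀ i j k, t i j k = t j i k)
    (h₂ : ∀ i j k, t i j k = t i k j) (u v w : B → ℝ) :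
    6 * TR t u v w = TR t (u + v + w) (u + v + w) (u + v + w) - TR t (u + v) (u + v) (u + v) -
      TR t (u + w) (u + w) (u + w) - TR t (v + w) (v + w) (v + w) + TR t u u u + TR t v v v +
      TR t w w w := by
  rw [TR_cube h₁ h₂ (u + v) w, TR_cube h₁ h₂ u w, TR_cube h₁ h₂ v w]
  simp only [TR_add1, TR_add2]
  have e1 := TR_sym12 h₁ v u w
  linear_combination (-3) * e1

theorem tri_polar (t t' : B → B → B → ℝ) (h₁ : ∀ i j k, t i j k = t j i k)
    (h₂ : ∀ i j k, t i j k = t i k j) (h₁' : ∀ i j k, t' i j k = t' j i k)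
    (h₂' : ∀ i j k, t' i j k = t' i k j)
    (h : ∀ v : B → ℕ, Tri t (rv v) (rv v) (rv v) = Tri t' (rv v) (rv v) (rv v)) : t = t' := by
  have hT : ∀ v : B → ℕ, TR t (rv v) (rv v) (rv v) = TR t' (rv v) (rv v) (rv v) := h
  have key : ∀ u v w : B → ℕ, TR t (rv u) (rv v) (rv w) = TR t' (rv u) (rv v) (rv w) := by
    intro u v w
    have e1 := tri_pol h₁ h₂ (rv u) (rv v) (rv w)
    have e2 := tri_pol h₁' h₂' (rv u) (rv v) (rv w)
    rw [← rv_add', ← rv_add', ← rv_add', ← rv_add'] at e1 e2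
    rw [hT, hT, hT, hT, hT, hT, hT, ← e2] at e1
    linarith
  have hs : ∀ i : B, rv (Pi.single i 1) = Pi.single i 1 := by
    intro i
    funext b
    by_cases hb : b = i
    · subst hb
      change ((Pi.single b 1 : B → ℕ) b : ℝ) = _
      rw [Pi.single_eq_same, Pi.single_eq_same]
      push_cast
      rfl
    · change ((Pi.single i 1 : B → ℕ) b : ℝ) = _
      rw [Pi.single_eq_of_ne hb, Pi.single_eq_of_ne hb]
      push_cast
      rfl
  funext i j k
  have h1 := key (Pi.single i 1) (Pi.single j 1) (Pi.single k 1)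
  rw [hs, hs, hs, TR_single, TR_single] at h1
  exact h1

theorem cub_unique (h : (B → ℕ) → ℤ) (t t' : B → B → B → ℝ) (H : Cub h t) (H' : Cub h t') :
    t = t' := by
  refine tri_polar t t' H.s₁ H.s₂ H'.s₁ H'.s₂ fun v => ?_
  obtain ⟨c₀, h1⟩ := cub_ray h t H v
  obtain ⟨c₀', h2⟩ := cub_ray h t' H' v
  exact tendsto_nhds_unique (h1 (c₀ ⊔ c₀') le_sup_left) (h2 (c₀ ⊔ c₀') le_sup_right)

end Pool.Agent.KST
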