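import Pool.Agent.KST.Surf
import Pool.Agent.KST.Crva
import Pool.Agent.KST.Crvb
import Pool.Agent.KST.Tr
import Pool.Agent.KST.Evc

/-!
# KST CRVC: the degrees of the iterates on a curve are bounded by an intersection number

`surf` gives `S₁`, `F₁`, `D₁`, `F₂`, `D₂` (multiply the forms by a coordinate not vanishing on
`X`, resp. `S₁`, so that `D₁, D₂ ≥ 1`), `crva` gives `c₀`. Let `W = SIx N`, `n` fixed,
`1 = fun _ => 1`, `Q_n = Tri t (om A n) 1 1 ≥ 0`, `R_n = Tri t (om A n) (om A n) 1`. `e₀ = Tri t 1 1 1`,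
`Tri t (om A n) (om A n) (om A n) = e₀` (invariance). Let `b₁` be the largest integer with
`card W (b₁ + c₀) < repDegree C f^[n]` (if there is none, `repDegree ≤ card W c₀` and we are done), so
`repDegree C f^[n] ≤ card W (b₁ + 1 + c₀)`. For `k, j` let `c₁ = bk 0 b₁ + bk (last n) k`,
`c = bk 0 (b₁ + j) + bk (last n) k`, `I = {(i₁, i₂) | i₁ D₁ + i₂ D₂ ≤ j}`; `I` contains the pairs with
`i₁ ≤ j / (2 D₁)`, `i₂ ≤ j / (2 D₂)`, so `card I ≥ j ^ 2 / (4 D₁ D₂)`. `crvb`, `crva`: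
`j ^ 2 / (4 D₁ D₂) (k + 1) (b₁ + 1) ≤ hm (Lf X f n) c ≤ hm (Lf X f n) (c + c₂)` for `c₂` large. With
`k = p s`, `j = q s`, `s → ∞` (`p, q ≥ 1` fixed naturals) and `Cub` (`cub_ray`, `tri_cls`,
`cls_bk`; leading term of `hm (..) (c + c₂)` is
`s ^ 3 (q ^ 3 e₀ + 3 q ^ 2 p Q_n + 3 q p ^ 2 R_n + p ^ 3 e₀) / 6`):
`q ^ 2 p (b₁ + 1) / (4 D₁ D₂) ≤ (q ^ 3 e₀ + 3 q ^ 2 p Q_n + 3 q p ^ 2 R_n + p ^ 3 e₀) / 6`.
Divide by `q ^ 2 p`, `ε = p / q`: `(b₁ + 1) / (4 D₁ D₂) ≤ (e₀ / ε + 3 Q_n + 3 ε R_n + ε ^ 2 e₀) / 6` for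
all rational `ε > 0`. If `Q_n ≤ 1` take `ε = 1`; `R_n ≤ K₀ Q_n ^ 2 ≤ K₀` by hypothesis. If `Q_n > 1`
take `q = ⌈Q_n⌉`, `p = 1`: `e₀ / ε = e₀ q ≤ 2 e₀ Q_n`, `ε R_n ≤ K₀ Q_n ^ 2 / Q_n = K₀ Q_n`.
So `b₁ + 1 ≤ K (1 + Q_n)`.
-/

open MvPolynomial Filter Topology
open scoped LinearAlgebra.Projectivization

namespace Pool.Agent.KST

open Pool.Agent.Helper90.KSC Pool.Agent.Helper63.SAND Pool.Agent.PW

variable {E ι : Type*} [Field E] [Fintype ι] [DecidableEq ι] {N : ι → ℕ}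

private theorem crvc_tri {B : Type*} [Fintype B] (t : B → B → B → ℝ)
    (h₁ : ∀ i j k, t i j k = t j i k) (h₂ : ∀ i j k, t i j k = t i k j) (u v : B → ℝ) (q p : ℝ) :
    Tri t (q • u + p • v) (q • u + p • v) (q • u + p • v) = q ^ 3 * Tri t u u u +
      3 * q ^ 2 * p * Tri t v u u + 3 * q * p ^ 2 * Tri t v v u + p ^ 3 * Tri t v v v := by
  have e1 : ∀ x y z : B → ℝ, Tri t x y z = Tri t y x z := fun x y z => tri_swap₁ t h₁ x y z
  have e2 : ∀ x y z : B → ℝ, Tri t x y z = Tri t x z y := fun x y z => tri_swap₂ t h₂ x y z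
  have f1 : ∀ x y : B → ℝ, Tri t (q • u + p • v) x y = q * Tri t u x y + p * Tri t v x y := by
    intro x y
    rw [tri_add₁, tri_smul₁, tri_smul₁]
  have f2 : ∀ x y : B → ℝ, Tri t x (q • u + p • v) y = q * Tri t x u y + p * Tri t x v y := by
    intro x y
    rw [e1, f1, e1 u, e1 v]
  have f3 : ∀ x y : B → ℝ, Tri t x y (q • u + p • v) = q * Tri t x y u + p * Tri t x y v := by
    intro x y
    rw [e2, f2, e2 x u, e2 x v]
  rw [f1, f2, f2, f3, f3, f3, f3]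
  have g1 : Tri t u v u = Tri t v u u := e1 u v u
  have g2 : Tri t u u v = Tri t v u u := by rw [e2, g1]
  have g3 : Tri t v u v = Tri t v v u := e2 v u v
  have g4 : Tri t u v v = Tri t v v u := by rw [e1, g3]
  rw [g1, g2, g3, g4]
  ring

/-- forms of positive degree -/
private theorem crvc_pos {Y Z : Set (PPt E N)} (h : ∃ (D : ℕ) (F : MvPolynomial (SIx N) E),
    F.IsHomogeneous D ∧ (∀ y ∈ Y, eval (seg y) F = 0) ∧ ∃ y ∈ Z, eval (seg y) F ≠ 0) :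
    ∃ (D : ℕ) (F : MvPolynomial (SIx N) E), 1 ≤ D ∧
      F.IsHomogeneous D ∧ (∀ y ∈ Y, eval (seg y) F = 0) ∧ ∃ y ∈ Z, eval (seg y) F ≠ 0 := by
  obtain ⟨D, F, hF, h1, y, hy, h2⟩ := h
  obtain ⟨w, hw⟩ := Function.ne_iff.1 (seg_ne_zero y)
  refine ⟨D + 1, F * MvPolynomial.X w, by omega, hF.mul (isHomogeneous_X E w), fun z hz => ?_, y,
    hy, ?_⟩
  · rw [map_mul, h1 z hz, zero_mul]
  · rw [map_mul, eval_X]
    exact mul_ne_zero h2 hw

theorem crvc [IsAlgClosed E] [CharZero E] (X : Set (PPt E N)) (hX : ZClosed X) (hXi : Irred X)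
    (e₀ : ℕ) (he₀ : 1 ≤ e₀) (hdeg : HasDegree X 3 e₀) (f : PPt E N → PPt E N)
    (hf : Set.MapsTo f X X) (hloc : LocallyByForms X f) (A : Matrix ι ι ℤ)
    (t : ι → ι → ι → ℝ) (hs₁ : ∀ i j k, t i j k = t j i k) (hs₂ : ∀ i j k, t i j k = t i k j)
    (hinv : ∀ n, Tri t (om A n) (om A n) (om A n) = e₀)
    (hcub : ∀ n, Cub (hm (Lf X f n)) (pt A t n)) (h0 : ∀ n, 0 ≤ Tri t (om A n) (om A 0) (om A 0))
    (K₀ : ℝ) (hK₀ : 0 ≤ K₀) (hR : ∀ n, Tri t (om A n) (om A n) (om A 0) ≤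
      K₀ * Tri t (om A n) (om A 0) (om A 0) ^ 2)
    (C : Set (PPt E N)) (hCX : C ⊆ X) (hC : ZClosed C) (hCi : Irred C) (e : ℕ) (he : 1 ≤ e)
    (hdegC : HasDegree C 1 e) :
    ∃ K : ℝ, 0 ≤ K ∧ ∀ n : ℕ, (repDegree C f^[n] : ℝ) ≤
      K * (1 + Tri t (om A n) (om A 0) (om A 0)) := by
  classical
  obtain ⟨c₀, hc₀⟩ := crva X f hf hloc C hCX hC hCi e he hdegC
  obtain ⟨S₁, hCS, hSX, hSi, hF1, hF2⟩ := surf X hX hXi e₀ he₀ hdeg C hCX hC hCi e he hdegC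
  obtain ⟨D₁, F₁, hD₁, hF₁, h₁, h₁'⟩ := crvc_pos hF1
  obtain ⟨D₂, F₂, hD₂, hF₂, h₂, h₂'⟩ := crvc_pos hF2
  obtain ⟨w, hw⟩ : ∃ w, w = Fintype.card (SIx N) := ⟨_, rfl⟩
  have hw1 : 1 ≤ w := by
    rw [hw]
    exact Fintype.card_pos
  have hD₁' : (1 : ℝ) ≤ D₁ := by exact_mod_cast hD₁
  have hD₂' : (1 : ℝ) ≤ D₂ := by exact_mod_cast hD₂
  refine ⟨w * (D₁ * D₂ * (2 * e₀ + 2 + 2 * K₀) + c₀), by positivity, fun n => ?_⟩
  obtain ⟨Q, hQ⟩ : ∃ Q, Q = Tri t (om A n) (om A 0) (om A 0) := ⟨_, rfl⟩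
  have hQ0 : 0 ≤ Q := by rw [hQ]; exact h0 n
  rw [← hQ]
  obtain ⟨R, hR'⟩ : ∃ R, R = repDegree C f^[n] := ⟨_, rfl⟩
  rw [← hR']
  by_cases hsmall : R ≤ w * (0 + c₀)
  · have h3 : (R : ℝ) ≤ w * (0 + c₀) := by exact_mod_cast hsmall
    have h4 : (0 : ℝ) ≤ w * (D₁ * D₂ * (2 * e₀ + 2 + 2 * K₀)) := by positivity
    have h5 : (0 : ℝ) ≤ w * c₀ := by positivity
    have h6 : (w : ℝ) * (D₁ * D₂ * (2 * e₀ + 2 + 2 * K₀) + c₀) * (1 + Q) =
        w * (D₁ * D₂ * (2 * e₀ + 2 + 2 * K₀)) * (1 + Q) + w * c₀ + w * c₀ * Q := by ring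
    rw [h6]
    have h7 : (0 : ℝ) ≤ w * (D₁ * D₂ * (2 * e₀ + 2 + 2 * K₀)) * (1 + Q) := by positivity
    have h8 : (0 : ℝ) ≤ w * c₀ * Q := by positivity
    linarith
  -- the largest `b₁`
  have hex : ∃ m : ℕ, R ≤ w * (m + c₀) := ⟨R, by nlinarith⟩
  obtain ⟨m, hmm⟩ : ∃ m, m = Nat.find hex := ⟨_, rfl⟩
  have hm1 := Nat.find_spec hex
  rw [← hmm] at hm1
  have hm2 : ∀ j < m, ¬ R ≤ w * (j + c₀) := fun j hj => Nat.find_min hex (hmm ▸ hj)
  rcases m with _ | b₁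
  · exact absurd hm1 hsmall
  have hb₁ : w * (b₁ + c₀) < R := not_le.1 (hm2 b₁ (Nat.lt_succ_self _))
  -- the Hilbert function of `C`
  have hC' : ∀ b : ℕ, ((b + 1) * (b₁ + 1) : ℤ) ≤
      hm (Lf C f n) (bk 0 (fun _ => b₁) + bk (Fin.last n) (fun _ => b)) := by
    intro b
    refine hc₀ n b₁ ?_ b
    rw [← hw, ← hR']
    exact hb₁
  have hirm := irm_Lf X f hf hloc X le_rfl hXi n
  -- the main inequality
  have key : ∀ q : ℕ, 1 ≤ q → 6 * (q : ℝ) ^ 2 * (b₁ + 1) / (4 * D₁ * D₂) ≤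
      q ^ 3 * e₀ + 3 * q ^ 2 * Q + 3 * q * Tri t (om A n) (om A n) (om A 0) + e₀ := by
    intro q hq
    obtain ⟨v, hv⟩ : ∃ v : Fin (n + 1) × ι → ℕ, v = bk 0 (fun _ => q) + bk (Fin.last n) (fun _ => 1) :=
      ⟨_, rfl⟩
    obtain ⟨c', hc'⟩ := cub_ray _ _ (hcub n) v
    have hlim := hc' (c' + bk 0 (fun _ => b₁)) (le_self_add)
    have hval : Tri (pt A t n) (rv v) (rv v) (rv v) =
        q ^ 3 * e₀ + 3 * q ^ 2 * Q + 3 * q * Tri t (om A n) (om A n) (om A 0) + e₀ := by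
      have h3 : rv v = (q : ℝ) • rv (bk (0 : Fin (n + 1)) (fun _ : ι => 1)) +
          (1 : ℝ) • rv (bk (Fin.last n) (fun _ : ι => 1)) := by
        funext b
        rw [hv]
        simp only [rv, bk, Pi.add_apply, Pi.smul_apply, smul_eq_mul]
        push_cast
        split_ifs <;> simp
      rw [tri_cls, h3, cls_add, cls_smul, cls_smul, cls_bk, cls_bk, crvc_tri t hs₁ hs₂]
      have h4 : om A ((0 : Fin (n + 1)) : ℕ) = om A 0 := rfl
      have h5 : om A ((Fin.last n : Fin (n + 1)) : ℕ) = om A n := rfl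
      rw [h4, h5, hinv n, hinv 0, ← hQ]
      ring
    rw [hval] at hlim
    refine ge_of_tendsto hlim ?_
    filter_upwards [eventually_ge_atTop 1] with s hs
    obtain ⟨I, hI⟩ : ∃ I : Finset (ℕ × ℕ), I = Finset.range (q * s / (2 * D₁) + 1) ×ˢ
      Finset.range (q * s / (2 * D₂) + 1) := ⟨_, rfl⟩
    have hIm : ∀ x ∈ I, x.1 * D₁ + x.2 * D₂ ≤ q * s := by
      intro x hx
      rw [hI, Finset.mem_product, Finset.mem_range, Finset.mem_range] at hx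
      have h3 : x.1 * (2 * D₁) ≤ q * s :=
        (Nat.le_div_iff_mul_le (by omega)).1 (Nat.lt_succ_iff.1 hx.1)
      have h4 : x.2 * (2 * D₂) ≤ q * s :=
        (Nat.le_div_iff_mul_le (by omega)).1 (Nat.lt_succ_iff.1 hx.2)
      nlinarith
    have h3 := crvb X hXi f hf hloc S₁ C hCS hSX hSi hCi D₁ D₂ F₁ F₂ hF₁ hF₂ h₁ h₁' h₂ h₂' n I
      (bk 0 (fun _ => b₁) + s • v) (bk 0 (fun _ => b₁) + bk (Fin.last n) (fun _ => s)) (by
        intro x hx b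
        have h3 := hIm x hx
        rw [hv]
        simp only [bk, Pi.add_apply, Pi.smul_apply, smul_eq_mul]
        by_cases hb0 : b.1 = 0
        · by_cases hb1 : b.1 = Fin.last n
          · simp only [if_pos hb0, if_pos hb1]
            nlinarith
          · simp only [if_pos hb0, if_neg hb1]
            nlinarith
        · by_cases hb1 : b.1 = Fin.last n
          · simp only [if_neg hb0, if_pos hb1]
            nlinarith
          · simp only [if_neg hb0, if_neg hb1]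
            nlinarith)
    have h4 : hm (Lf X f n) (bk 0 (fun _ => b₁) + s • v) ≤
        hm (Lf X f n) (c' + bk 0 (fun _ => b₁) + s • v) := by
      apply hm_mono _ hirm
      intro b
      simp only [Pi.add_apply]
      omega
    have h5 := hC' s
    have h6 : (I.card : ℤ) * ((s + 1) * (b₁ + 1)) ≤
        hm (Lf X f n) (c' + bk 0 (fun _ => b₁) + s • v) :=
      ((mul_le_mul_of_nonneg_left h5 (Int.natCast_nonneg _)).trans h3).trans h4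
    have h7 : (I.card : ℝ) * ((s + 1) * (b₁ + 1)) ≤
        (hm (Lf X f n) (c' + bk 0 (fun _ => b₁) + s • v) : ℝ) := by exact_mod_cast h6
    have hs0 : (0 : ℝ) < s := by exact_mod_cast hs
    have h8 : ((q : ℝ) * s) ^ 2 / (4 * D₁ * D₂) ≤ I.card := by
      rw [hI, Finset.card_product, Finset.card_range, Finset.card_range]
      have h9 : ((q : ℝ) * s) / (2 * D₁) ≤ ((q * s / (2 * D₁) + 1 : ℕ) : ℝ) := by
        have h10 := Nat.lt_succ_floor (((q * s : ℕ) : ℝ) / ((2 * D₁ : ℕ) : ℝ))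
        rw [Nat.floor_div_eq_div] at h10
        have h11 : (((q * s : ℕ) : ℝ) / ((2 * D₁ : ℕ) : ℝ)) = ((q : ℝ) * s) / (2 * D₁) := by
          push_cast
          ring
        rw [h11] at h10
        exact h10.le
      have h9' : ((q : ℝ) * s) / (2 * D₂) ≤ ((q * s / (2 * D₂) + 1 : ℕ) : ℝ) := by
        have h10 := Nat.lt_succ_floor (((q * s : ℕ) : ℝ) / ((2 * D₂ : ℕ) : ℝ))
        rw [Nat.floor_div_eq_div] at h10
        have h11 : (((q * s : ℕ) : ℝ) / ((2 * D₂ : ℕ) : ℝ)) = ((q : ℝ) * s) / (2 * D₂) := by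
          push_cast
          ring
        rw [h11] at h10
        exact h10.le
      have h12 : ((q : ℝ) * s) ^ 2 / (4 * D₁ * D₂) =
          (((q : ℝ) * s) / (2 * D₁)) * (((q : ℝ) * s) / (2 * D₂)) := by
        field_simp
        ring
      rw [h12]
      push_cast at h9 h9' ⊢
      exact mul_le_mul h9 h9' (by positivity) (by positivity)
    rw [le_div_iff₀ (by positivity)]
    have h9 : 6 * (q : ℝ) ^ 2 * (b₁ + 1) / (4 * D₁ * D₂) * s ^ 3 =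
        6 * (((q : ℝ) * s) ^ 2 / (4 * D₁ * D₂) * (s * (b₁ + 1))) := by
      field_simp
    rw [h9]
    have h10 : ((q : ℝ) * s) ^ 2 / (4 * D₁ * D₂) * (s * (b₁ + 1)) ≤
        (I.card : ℝ) * ((s + 1) * (b₁ + 1)) := by
      refine mul_le_mul h8 ?_ (by positivity) (by positivity)
      have h11 : (0 : ℝ) ≤ b₁ + 1 := by positivity
      nlinarith
    linarith
  -- the choice of `q`
  have hfin : ((b₁ : ℝ) + 1) ≤ D₁ * D₂ * (2 * e₀ + 2 + 2 * K₀) * (1 + Q) := by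
    obtain ⟨q, hq⟩ : ∃ q, q = ⌈Q⌉₊ + 1 := ⟨_, rfl⟩
    have hq1 : 1 ≤ q := by omega
    have hqQ : Q ≤ q := by
      rw [hq]
      push_cast
      have := Nat.le_ceil Q
      linarith
    have hqQ' : (q : ℝ) ≤ Q + 2 := by
      rw [hq]
      push_cast
      have := Nat.ceil_lt_add_one hQ0
      linarith
    have hq1' : (1 : ℝ) ≤ q := by exact_mod_cast hq1
    have h3 := key q hq1
    have h4 := hR n
    rw [← hQ] at h4
    have hpos : (0 : ℝ) < 4 * D₁ * D₂ := by positivity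
    rw [div_le_iff₀ hpos] at h3
    have he0 : (0 : ℝ) ≤ e₀ := Nat.cast_nonneg _
    -- divide by q ^ 2
    have h5 : 3 * (q : ℝ) * Tri t (om A n) (om A n) (om A 0) ≤ 3 * K₀ * Q * q ^ 2 := by
      have h6 : Q ^ 2 ≤ Q * q := by nlinarith
      have h7 : K₀ * Q ^ 2 ≤ K₀ * (Q * q) := mul_le_mul_of_nonneg_left h6 hK₀
      have h8 : Tri t (om A n) (om A n) (om A 0) ≤ K₀ * (Q * q) := h4.trans h7
      nlinarith
    have h6 : (q : ℝ) ^ 3 * e₀ ≤ (Q + 2) * e₀ * q ^ 2 := by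
      have h7 : (q : ℝ) ^ 3 * e₀ = q * (e₀ * q ^ 2) := by ring
      have h8 : (Q + 2) * e₀ * (q : ℝ) ^ 2 = (Q + 2) * (e₀ * q ^ 2) := by ring
      rw [h7, h8]
      exact mul_le_mul_of_nonneg_right hqQ' (by positivity)
    have h7 : (e₀ : ℝ) ≤ e₀ * q ^ 2 := by
      have : (1 : ℝ) ≤ q ^ 2 := one_le_pow₀ hq1'
      nlinarith
    have h8 : (q : ℝ) ^ 3 * e₀ + 3 * q ^ 2 * Q + 3 * q * Tri t (om A n) (om A n) (om A 0) + e₀ ≤
        ((Q + 2) * e₀ + 3 * Q + 3 * K₀ * Q + e₀) * q ^ 2 := by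
      nlinarith
    have h9 : 6 * (q : ℝ) ^ 2 * (b₁ + 1) ≤
        ((Q + 2) * e₀ + 3 * Q + 3 * K₀ * Q + e₀) * q ^ 2 * (4 * D₁ * D₂) :=
      h3.trans (mul_le_mul_of_nonneg_right h8 hpos.le)
    have h10 : 6 * ((b₁ : ℝ) + 1) ≤ ((Q + 2) * e₀ + 3 * Q + 3 * K₀ * Q + e₀) * (4 * D₁ * D₂) := by
      have h11 : (0 : ℝ) < q ^ 2 := by positivity
      have h12 : (6 * ((b₁ : ℝ) + 1)) * q ^ 2 ≤
          (((Q + 2) * e₀ + 3 * Q + 3 * K₀ * Q + e₀) * (4 * D₁ * D₂)) * q ^ 2 := by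
        calc (6 * ((b₁ : ℝ) + 1)) * q ^ 2 = 6 * (q : ℝ) ^ 2 * (b₁ + 1) := by ring
          _ ≤ _ := h9
          _ = _ := by ring
      exact le_of_mul_le_mul_right h12 h11
    have h11 : (Q + 2) * e₀ + 3 * Q + 3 * K₀ * Q + e₀ ≤ (3 * e₀ + 3 + 3 * K₀) * (1 + Q) := by
      nlinarith [mul_nonneg he0 hQ0, mul_nonneg hK₀ hQ0]
    have h12 := mul_le_mul_of_nonneg_right h11 hpos.le
    nlinarith
  have hRm : (R : ℝ) ≤ w * (b₁ + 1 + c₀) := by exact_mod_cast hm1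
  have h3 : (w : ℝ) * (b₁ + 1 + c₀) ≤
      w * (D₁ * D₂ * (2 * e₀ + 2 + 2 * K₀) * (1 + Q) + c₀) := by
    apply mul_le_mul_of_nonneg_left _ (Nat.cast_nonneg _)
    linarith
  have h4 : (w : ℝ) * (D₁ * D₂ * (2 * e₀ + 2 + 2 * K₀) * (1 + Q) + c₀) ≤
      w * (D₁ * D₂ * (2 * e₀ + 2 + 2 * K₀) + c₀) * (1 + Q) := by
    have h5 : (0 : ℝ) ≤ w * c₀ * Q := by positivity
    nlinarith
  linarith

end Pool.Agent.KST
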