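import Pool.Agent.KST.Forms
import Pool.Agent.Helper63.WH.Final
import Pool.Agent.LLX.Abound

/-!
# KST HTI: the height inequality given by a section

`wt_bd`: an element `F` of `Wt (Lf Y f n) P P' T c` is a finite sum of products of `T` factors `P` or
`P'`, and of `c b` coordinates `cf Y f n b k` for every block `b`, with constant coefficients: there
are finitely many products and coefficients `a_m : E` such that for all `y`:
`F y = ∑_m a_m * (product)`. For an absolute value `|.|` of `E`, the products are bounded by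
`max (|P y|, |P' y|) ^ T * ∏ b, (max_k |cf b k y|) ^ c b`.
(Induction: the space is a product of powers of spans; `Submodule.mul_induction_on`.)

`hti`: let `Xw y = sg Y f j w y`, `β y = ∑ u w Xw y`, `Xw ^ j' F = β ^ j' G_w`. Let `F y ≠ 0`; some
`Xw y ≠ 0` (`seg_ne_zero`), so `β y ≠ 0` (if `j' ≥ 1`; for `j' = 0` the claim is `0 ≤ ..`). For an
absolute value with `|Xw y|` maximal at `w`:
`(max_w |Xw y|) ^ j' |F y| = |β y| ^ j' |G_w y| ≤ |β y| ^ j' C_v max (|P y|, |P' y|) ^ T
∏ b, (max_k |cf b k y|) ^ c b`. Apply `abs_htq` (Helper63/WH/Ahtq.lean) to the vector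
`z = (F y / β y ^ j') • (the j'-fold products of the Xw y)`, i.e. `z : (Fin j' → SIx N) → E`,
`z w = (F y / β y ^ j') ∏ l, X (w l) y`, `‖z‖ = |F y| / |β y|^j' (max |Xw y|) ^ j'`, and `A` = `T` copies
of the vector `![P y, P' y]` and `c b` copies of the vector `(cf b k y)_k` for every `b`. The constant
`C_v`: at all complex places `∑_m |a_m|` is bounded (finitely many algebraic numbers: `LLX/Abound`,
`abound`), at all but finitely many primes `|a_m|_v ≤ 1` for all `m` and all the embeddings (`pint`,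
Helper63/WH/Pint.lean), at the others bounded. `absHeight z = j' * absHeight (seg (f^[j] y)) =
j' * absTotal (f^[j] y)` (`absHeight_smul`, `absHeight_prod`, `absHeight_seg`). `T` copies give
`T * absHeight ![P y, P' y]`; the vector `![P y, P' y]` is not `0` by hypothesis. The constant does not
depend on `y`.
-/

open MvPolynomial
open scoped LinearAlgebra.Projectivization

namespace Pool.Agent.KST

open Pool.Agent.Helper90.KSC Pool.Agent.Helper63.SAND Pool.Agent.Helper63.WH

variable {E ι : Type*} [Field E] [CharZero E] [Algebra.IsAlgebraic ℚ E] [Fintype ι]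
  [DecidableEq ι] {N : ι → ℕ}

/-- Functions whose absolute values are bounded by `w`, for all multiplicative maps. -/
private def Mn (Y : Set (PPt E N)) (w : (E →*₀ ℝ) → Y → ℝ) : Set (Y → E) :=
  {M | ∀ ν : E →*₀ ℝ, (∀ x, 0 ≤ ν x) → ∀ y, ν (M y) ≤ w ν y}

private def Wpos (Y : Set (PPt E N)) (w : (E →*₀ ℝ) → Y → ℝ) : Prop :=
  ∀ ν : E →*₀ ℝ, (∀ x, 0 ≤ ν x) → ∀ y, 0 ≤ w ν y

omit [CharZero E] [Algebra.IsAlgebraic ℚ E] [Fintype ι] [DecidableEq ι] in
private theorem mn_mul (Y : Set (PPt E N)) {w w' : (E →*₀ ℝ) → Y → ℝ} (hw : Wpos Y w)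
    {A B : Submodule E (Y → E)} (hA : A ≤ Submodule.span E (Mn Y w))
    (hB : B ≤ Submodule.span E (Mn Y w')) :
    A * B ≤ Submodule.span E (Mn Y (fun ν y => w ν y * w' ν y)) := by
  refine (mul_le_mul' hA hB).trans ?_
  rw [Submodule.span_mul_span]
  refine Submodule.span_mono ?_
  rintro _ ⟨M, hM, M', hM', rfl⟩
  intro ν hν y
  change ν (M y * M' y) ≤ w ν y * w' ν y
  rw [map_mul]
  exact mul_le_mul (hM ν hν y) (hM' ν hν y) (hν _) (hw ν hν y)

omit [CharZero E] [Algebra.IsAlgebraic ℚ E] [Fintype ι] [DecidableEq ι] in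
private theorem mn_one (Y : Set (PPt E N)) :
    (1 : Submodule E (Y → E)) ≤ Submodule.span E (Mn Y (fun _ _ => 1)) := by
  rw [Submodule.one_eq_span, Submodule.span_le, Set.singleton_subset_iff]
  refine Submodule.subset_span ?_
  intro ν _ y
  rw [Pi.one_apply, map_one]

omit [CharZero E] [Algebra.IsAlgebraic ℚ E] [Fintype ι] [DecidableEq ι] in
private theorem mn_pow (Y : Set (PPt E N)) {w : (E →*₀ ℝ) → Y → ℝ} (hw : Wpos Y w)
    {A : Submodule E (Y → E)} (hA : A ≤ Submodule.span E (Mn Y w)) (n : ℕ) :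
    A ^ n ≤ Submodule.span E (Mn Y (fun ν y => w ν y ^ n)) := by
  induction n with
  | zero =>
    simp only [pow_zero]
    exact mn_one Y
  | succ n ih =>
    simp only [pow_succ]
    exact mn_mul Y (fun ν hν y => pow_nonneg (hw ν hν y) n) ih hA

omit [CharZero E] [Algebra.IsAlgebraic ℚ E] [Fintype ι] [DecidableEq ι] in
private theorem mn_prod (Y : Set (PPt E N)) {β : Type*} (s : Finset β)
    {w : β → (E →*₀ ℝ) → Y → ℝ} (hw : ∀ b, Wpos Y (w b))
    {A : β → Submodule E (Y → E)} (hA : ∀ b, A b ≤ Submodule.span E (Mn Y (w b))) :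
    ∏ b ∈ s, A b ≤ Submodule.span E (Mn Y (fun ν y => ∏ b ∈ s, w b ν y)) := by
  classical
  induction s using Finset.induction_on with
  | empty =>
    simp only [Finset.prod_empty]
    exact mn_one Y
  | insert b s hb ih =>
    simp only [Finset.prod_insert hb]
    exact mn_mul Y (hw b) (hA b) ih

/-- The weight of the block `b`. -/
private noncomputable def wb (Y : Set (PPt E N)) (f : PPt E N → PPt E N) (n : ℕ)
    (b : Fin (n + 1) × ι) (ν : E →*₀ ℝ) (y : Y) : ℝ := ⨆ k, ν (cf Y f n b k y)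

/-- The weight of `P, P'`. -/
private noncomputable def wP (Y : Set (PPt E N)) (P P' : Y → E) (ν : E →*₀ ℝ) (y : Y) : ℝ :=
  ⨆ i, ν ((![P y, P' y] : Fin 2 → E) i)

/-- The total weight. -/
private noncomputable def wt (Y : Set (PPt E N)) (f : PPt E N → PPt E N) (n : ℕ) (P P' : Y → E)
    (T : ℕ) (c : Fin (n + 1) × ι → ℕ) (ν : E →*₀ ℝ) (y : Y) : ℝ :=
  wP Y P P' ν y ^ T * ∏ b, wb Y f n b ν y ^ c b

omit [CharZero E] [Algebra.IsAlgebraic ℚ E] [DecidableEq ι] in
private theorem wt_bd (Y : Set (PPt E N)) (f : PPt E N → PPt E N) (n : ℕ) (P P' : Y → E) (T : ℕ)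
    (c : Fin (n + 1) × ι → ℕ) :
    Wt (Lf Y f n) P P' T c ≤ Submodule.span E (Mn Y (wt Y f n P P' T c)) := by
  have hwP : Wpos Y (wP Y P P') := fun ν hν y => Real.iSup_nonneg fun i => hν _
  have hwb : ∀ b, Wpos Y (wb Y f n b) := fun b ν hν y => Real.iSup_nonneg fun i => hν _
  unfold Wt wt Rm
  refine mn_mul Y (w := fun ν y => wP Y P P' ν y ^ T)
    (w' := fun ν y => ∏ b, wb Y f n b ν y ^ c b)
    (fun ν hν y => pow_nonneg (hwP ν hν y) T) ?_ ?_
  · refine mn_pow Y hwP ?_ T
    refine Submodule.span_mono ?_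
    rintro M (rfl | rfl) ν hν y
    · exact le_ciSup (f := fun i => ν ((![M y, P' y] : Fin 2 → E) i))
        (Set.finite_range _).bddAbove 0
    · exact le_ciSup (f := fun i => ν ((![P y, M y] : Fin 2 → E) i))
        (Set.finite_range _).bddAbove 1
  · refine mn_prod Y Finset.univ (w := fun b ν y => wb Y f n b ν y ^ c b)
      (fun b ν hν y => pow_nonneg (hwb b ν hν y) _) fun b => ?_
    refine mn_pow Y (hwb b) ?_ (c b)
    refine Submodule.span_mono ?_
    rintro _ ⟨k, rfl⟩ ν hν y
    exact le_ciSup (f := fun k => ν (cf Y f n b k y)) (Set.finite_range _).bddAbove k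

/-- The norm of a normed field along an embedding. -/
private noncomputable def nu {K : Type*} [NormedField K] (τ : E →+* K) : E →*₀ ℝ where
  toFun x := ‖τ x‖
  map_zero' := by rw [map_zero, norm_zero]
  map_one' := by rw [map_one, norm_one]
  map_mul' x y := by rw [map_mul, norm_mul]

omit [CharZero E] [Algebra.IsAlgebraic ℚ E] in
private theorem nu_apply {K : Type*} [NormedField K] (τ : E →+* K) (x : E) : nu τ x = ‖τ x‖ := rfl

omit [CharZero E] [Algebra.IsAlgebraic ℚ E] in
private theorem nu_nonneg {K : Type*} [NormedField K] (τ : E →+* K) (x : E) : 0 ≤ nu τ x :=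
  norm_nonneg (τ x)

theorem hti (Y : Set (PPt E N)) (f : PPt E N → PPt E N) (n : ℕ) (P P' : Y → E) (T : ℕ)
    (c : Fin (n + 1) × ι → ℕ) (F : Y → E) (hF : F ∈ Wt (Lf Y f n) P P' T c) (j j' : ℕ)
    (β : Y → E) (hG : ∀ w, ∃ G ∈ Wt (Lf Y f n) P P' T c, sg Y f j w ^ j' * F = β ^ j' * G) :
    ∃ C : ℝ, ∀ y : Y, F y ≠ 0 → (P y ≠ 0 ∨ P' y ≠ 0) →
      j' * absTotal (f^[j] (y : PPt E N)) ≤
        ∑ b : Fin (n + 1) × ι, (c b : ℝ) * absHeight ((f^[b.1] (y : PPt E N)) b.2).rep +
        T * absHeight ![P y, P' y] + C := by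
  classical
  choose G hGW hG using hG
  have hrep : ∀ w, ∃ (m : ℕ) (a : Fin m → E) (M : Fin m → Mn Y (wt Y f n P P' T c)),
      ∑ i, a i • (M i : Y → E) = G w := fun w =>
    Submodule.mem_span_set'.1 (wt_bd Y f n P P' T c (hGW w))
  choose m a M hM using hrep
  let S : Finset E := Finset.univ.biUnion fun w => Finset.univ.image (a w)
  have haS : ∀ w i, a w i ∈ S := fun w i =>
    Finset.mem_biUnion.2 ⟨w, Finset.mem_univ _, Finset.mem_image_of_mem _ (Finset.mem_univ _)⟩
  have halg : Algebra.IsAlgebraic ℤ E :=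
    (IsFractionRing.comap_isAlgebraic_iff (A := ℤ) (K := ℚ) (C := E)).2 inferInstance
  obtain ⟨q, hq, hint⟩ := Algebra.IsAlgebraic.exists_integral_multiples ℤ S
  obtain ⟨B, hB1, -, hB⟩ := Pool.Agent.LLX.abound S
  obtain ⟨m₀, hm₀⟩ : ∃ m₀ : ℕ, ∀ w, m w ≤ m₀ :=
    ⟨∑ w, m w, fun w => Finset.single_le_sum (f := m) (fun _ _ => Nat.zero_le _)
      (Finset.mem_univ w)⟩
  have hqE : (q : E) ≠ 0 := by exact_mod_cast hq
  have hq1 : (1 : ℝ) ≤ |(q : ℝ)| := by
    have : (1 : ℤ) ≤ |q| := Int.one_le_abs hq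
    exact_mod_cast this
  set cc : ℝ := |(q : ℝ)| * ((m₀ + 1) * B) with hcc
  have hcc1 : 1 ≤ cc := by
    have h1 : (1 : ℝ) ≤ (m₀ + 1) * B := by
      have : (0 : ℝ) ≤ m₀ := Nat.cast_nonneg _
      nlinarith
    nlinarith
  refine ⟨Real.log cc, fun y hFy hPy => ?_⟩
  obtain ⟨X, hX⟩ : ∃ X : SIx N → E, X = seg (f^[j] (y : PPt E N)) := ⟨_, rfl⟩
  have hsg : ∀ w, sg Y f j w y = X w := fun w => by rw [hX]; rfl
  have hX0 : X ≠ 0 := by rw [hX]; exact seg_ne_zero _
  have hGy : ∀ w, X w ^ j' * F y = β y ^ j' * G w y := by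
    intro w
    have h := congrFun (hG w) y
    simp only [Pi.mul_apply, Pi.pow_apply, hsg] at h
    exact h
  have hβ : β y ^ j' ≠ 0 := by
    intro h0
    obtain ⟨w, hw⟩ := Function.ne_iff.1 hX0
    have h := hGy w
    rw [h0, zero_mul] at h
    exact mul_ne_zero (pow_ne_zero j' hw) hFy h
  set lam : E := (q : E) * (F y / β y ^ j') with hlam
  have hlam0 : lam ≠ 0 := mul_ne_zero hqE (div_ne_zero hFy hβ)
  -- the vector z
  obtain ⟨z, hz⟩ : ∃ z : (Fin j' → SIx N) → E,
      z = lam • fun v : Fin j' → SIx N => ∏ l, X (v l) := ⟨_, rfl⟩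
  have hzh : absHeight z = j' * absTotal (f^[j] (y : PPt E N)) := by
    rw [hz, absHeight_smul lam hlam0]
    have h := absHeight_prod (α := Fin j') (σ := fun _ => SIx N) (fun _ => X) fun _ => hX0
    rw [h, Finset.sum_const, Finset.card_univ, Fintype.card_fin, nsmul_eq_mul, hX, absHeight_seg]
  have hz0 : z ≠ 0 := by
    obtain ⟨w, hw⟩ := Function.ne_iff.1 hX0
    refine Function.ne_iff.2 ⟨fun _ => w, ?_⟩
    rw [hz]
    simp only [Pi.smul_apply, smul_eq_mul, Pi.zero_apply]
    exact mul_ne_zero hlam0 (Finset.prod_ne_zero_iff.2 fun _ _ => hw)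
  -- the bound for a multiplicative map
  have hzle : ∀ ν : E →*₀ ℝ, (∀ x, 0 ≤ ν x) → ∀ D : ℝ,
      (∀ w, ν ((q : E) * G w y) ≤ D) → (⨆ v, ν (z v)) ≤ D := by
    intro ν hν D hD
    obtain ⟨w₀, hw₀⟩ := Finite.exists_max fun w => ν (X w)
    haveI : Nonempty (Fin j' → SIx N) := ⟨fun _ => w₀⟩
    refine ciSup_le fun v => le_trans ?_ (hD w₀)
    have h1 : (q : E) * G w₀ y = lam * X w₀ ^ j' := by
      rw [hlam]
      have h := hGy w₀
      field_simp
      linear_combination -h
    rw [h1, hz]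
    simp only [Pi.smul_apply, smul_eq_mul, map_mul, map_prod, map_pow]
    refine mul_le_mul_of_nonneg_left ?_ (by
      have := hν lam
      exact this)
    calc ∏ l, ν (X (v l)) ≤ ∏ _l : Fin j', ν (X w₀) :=
          Finset.prod_le_prod (fun _ _ => hν _) fun l _ => hw₀ (v l)
      _ = ν (X w₀) ^ j' := by rw [Finset.prod_const, Finset.card_univ, Fintype.card_fin]
  -- the vectors A
  let σ : (Fin T ⊕ (Σ b : Fin (n + 1) × ι, Fin (c b))) → Type := fun x =>
    Sum.elim (fun _ => Fin 2) (fun x => Fin (N x.1.2 + 1)) x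
  let A : ∀ x, σ x → E := fun x => match x with
    | Sum.inl _ => (![P y, P' y] : Fin 2 → E)
    | Sum.inr x => fun k => cf Y f n x.1 k y
  haveI hσ : ∀ x, Finite (σ x) := by
    rintro (x | x)
    · exact inferInstanceAs (Finite (Fin 2))
    · exact inferInstanceAs (Finite (Fin (N x.1.2 + 1)))
  have hA0 : ∀ x, A x ≠ 0 := by
    rintro (x | x)
    · intro h0
      rcases hPy with h | h
      · exact h (congrFun h0 (0 : Fin 2))
      · exact h (congrFun h0 (1 : Fin 2))
    · exact ((f^[x.1.1] (y : PPt E N)) x.1.2).rep_nonzero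
  have hAprod : ∀ ν : E →*₀ ℝ, ∏ x, ⨆ i, ν (A x i) = wt Y f n P P' T c ν y := by
    intro ν
    rw [Fintype.prod_sum_type]
    unfold wt
    congr 1
    · have h1 : (∏ x : Fin T, ⨆ i, ν (A (Sum.inl x) i)) = ∏ _x : Fin T, wP Y P P' ν y :=
        Finset.prod_congr rfl fun _ _ => rfl
      rw [h1, Finset.prod_const, Finset.card_univ, Fintype.card_fin]
    · rw [Fintype.prod_sigma]
      refine Finset.prod_congr rfl fun b _ => ?_
      have h1 : (∏ x : Fin (c b), ⨆ i, ν (A (Sum.inr ⟨b, x⟩) i)) =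
          ∏ _x : Fin (c b), wb Y f n b ν y := Finset.prod_congr rfl fun _ _ => rfl
      rw [h1, Finset.prod_const, Finset.card_univ, Fintype.card_fin]
  have hAsum : ∑ x, absHeight (A x) = T * absHeight ![P y, P' y] +
      ∑ b : Fin (n + 1) × ι, (c b : ℝ) * absHeight ((f^[b.1] (y : PPt E N)) b.2).rep := by
    rw [Fintype.sum_sum_type]
    congr 1
    · have h1 : (∑ x : Fin T, absHeight (A (Sum.inl x))) =
          ∑ _x : Fin T, absHeight (![P y, P' y] : Fin 2 → E) := Finset.sum_congr rfl fun _ _ => rfl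
      rw [h1, Finset.sum_const, Finset.card_univ, Fintype.card_fin, nsmul_eq_mul]
    · rw [Fintype.sum_sigma]
      refine Finset.sum_congr rfl fun b _ => ?_
      have h1 : (∑ x : Fin (c b), absHeight (A (Sum.inr ⟨b, x⟩))) =
          ∑ _x : Fin (c b), absHeight ((f^[b.1] (y : PPt E N)) b.2).rep :=
        Finset.sum_congr rfl fun _ _ => rfl
      rw [h1, Finset.sum_const, Finset.card_univ, Fintype.card_fin, nsmul_eq_mul]
  have hGval : ∀ w, (q : E) * G w y = ∑ i, (q : E) * a w i * (M w i : Y → E) y := by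
    intro w
    rw [← hM w, Finset.sum_apply, Finset.mul_sum]
    refine Finset.sum_congr rfl fun i _ => ?_
    rw [Pi.smul_apply, smul_eq_mul, mul_assoc]
  have hmain := abs_htq z hz0 A hA0 cc hcc1 (fun s => by
    have h1 := hzle (nu s) (nu_nonneg s) (cc * wt Y f n P P' T c (nu s) y) (fun w => by
      have hW : 0 ≤ wt Y f n P P' T c (nu s) y := by
        rw [← hAprod]
        exact Finset.prod_nonneg fun x _ => Real.iSup_nonneg fun i => nu_nonneg s _
      rw [hGval, nu_apply, map_sum]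
      refine (norm_sum_le _ _).trans ?_
      have h2 : ∀ i ∈ (Finset.univ : Finset (Fin (m w))),
          ‖s ((q : E) * a w i * (M w i : Y → E) y)‖ ≤
            |(q : ℝ)| * B * wt Y f n P P' T c (nu s) y := by
        intro i _
        rw [map_mul, map_mul, norm_mul, norm_mul, map_intCast]
        have h3 : ‖(q : ℂ)‖ = |(q : ℝ)| := by
          rw [Complex.norm_intCast]
        rw [h3]
        have h4 := (M w i).2 (nu s) (nu_nonneg s) y
        rw [nu_apply] at h4
        exact mul_le_mul (mul_le_mul_of_nonneg_left (hB s _ (haS w i)) (abs_nonneg _)) h4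
          (norm_nonneg _) (mul_nonneg (abs_nonneg _) (by linarith))
      refine (Finset.sum_le_sum h2).trans ?_
      rw [Finset.sum_const, Finset.card_univ, Fintype.card_fin, nsmul_eq_mul, hcc]
      have h5 : ((m w : ℕ) : ℝ) ≤ m₀ + 1 := by
        have : ((m w : ℕ) : ℝ) ≤ m₀ := by exact_mod_cast hm₀ w
        linarith
      have h6 : 0 ≤ |(q : ℝ)| * B * wt Y f n P P' T c (nu s) y :=
        mul_nonneg (mul_nonneg (abs_nonneg _) (by linarith)) hW
      calc ((m w : ℕ) : ℝ) * (|(q : ℝ)| * B * wt Y f n P P' T c (nu s) y) ≤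
            (m₀ + 1) * (|(q : ℝ)| * B * wt Y f n P P' T c (nu s) y) :=
            mul_le_mul_of_nonneg_right h5 h6
        _ = |(q : ℝ)| * ((m₀ + 1) * B) * wt Y f n P P' T c (nu s) y := by ring)
    rw [← hAprod] at h1
    exact h1) (fun p τ => by
    have h1 := hzle (nu τ) (nu_nonneg τ) (wt Y f n P P' T c (nu τ) y) (fun w => by
      have hW : 0 ≤ wt Y f n P P' T c (nu τ) y := by
        rw [← hAprod]
        exact Finset.prod_nonneg fun x _ => Real.iSup_nonneg fun i => nu_nonneg τ _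
      rw [hGval]
      have h2 : ∀ i ∈ (Finset.univ : Finset (Fin (m w))),
          pAbs p τ ((q : E) * a w i * (M w i : Y → E) y) ≤
            wt Y f n P P' T c (nu τ) y := by
        intro i _
        have h3 : ‖τ ((q : E) * a w i)‖ ≤ 1 := by
          have h5 := hint _ (haS w i)
          rw [zsmul_eq_mul] at h5
          exact pint_le_one p _ (h5.map (τ.toIntAlgHom))
        have h4 := (M w i).2 (nu τ) (nu_nonneg τ) y
        rw [nu_apply] at h4
        rw [pAbs_apply, map_mul, norm_mul]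
        calc ‖τ ((q : E) * a w i)‖ * ‖τ ((M w i : Y → E) y)‖ ≤
              1 * wt Y f n P P' T c (nu τ) y :=
              mul_le_mul h3 h4 (norm_nonneg _) zero_le_one
          _ = _ := one_mul _
      have h7 : ∀ t : Finset (Fin (m w)),
          pAbs p τ (∑ i ∈ t, (q : E) * a w i * (M w i : Y → E) y) ≤
            wt Y f n P P' T c (nu τ) y := by
        intro t
        induction t using Finset.induction_on with
        | empty =>
          rw [Finset.sum_empty, map_zero]
          exact hW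
        | insert i t hi ih =>
          rw [Finset.sum_insert hi]
          exact (pAbs_nonarch p τ _ _).trans (max_le (h2 i (Finset.mem_univ _)) ih)
      exact h7 Finset.univ)
    rw [← hAprod] at h1
    exact h1) ∅ (fun _ => 1) (by simp) (by simp)
  rw [hzh, hAsum, Finset.sum_empty, add_zero] at hmain
  linarith

end Pool.Agent.KST
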