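import Pool.Agent.KST.Rmb

/-!
# KST MOR: the elementary Morse inequality

`mor`: let `W = Wt t c`, `W' = Wt t (c + j b)`; `β ^ j W ⊆ W'` and `X_w ^ j W ⊆ W'` (`wt_mul_mem`,
`rm_pow_mem`). The map `W → W' / β ^ j W`, `F ↦ X_w ^ j F`, has target of dimension
`dim W' - dim W` (multiplication by `β ^ j` is injective on `W`, as `W ≤ Rm L (c + t h₀)`, `irm_pow`).
The intersection of the kernels over `w` has dimension at least
`dim W - card σ (dim W' - dim W) > 0`.

`mor_mono`: let `F♯ ∈ Wt t c`, `F♯ ≠ 0`, `X_w ^ j F♯ = β ^ j G_w` with `G_w ∈ Wt t c`, and let the `X_w`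
span `Rm L b`. Let `m = card σ`. For `H ∈ Rm L (m j b) = (span X) ^ (m j)`: a monomial of degree `m j`
in the `X_w` is divisible by some `X_w ^ j` (if `j ≥ 1`: otherwise its degree is at most
`m (j - 1) < m j`; if `m = 0`, then `Rm L b = 0`, impossible), so
`H F♯ ∈ β ^ j • (Rm L ((m - 1) j b) * Wt t c)`. So for `H ∈ Wt t' (d + m j b)`:
`H F♯ ∈ β ^ j • Wt (t' + t) (d + (m - 1) j b + c)`; multiplication by `F♯` and by `β ^ j` is injective.
-/

open MvPolynomial

namespace Pool.Agent.KST

variable {E 𝒜 B σ : Type*} [Field E] [CommRing 𝒜] [Algebra E 𝒜] [Fintype B] [DecidableEq B]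
  [Fintype σ]

open Pointwise in
omit [Algebra E 𝒜] [Field E] in
private lemma pow_range_mem (X : σ → 𝒜) (n : ℕ) (y : 𝒜) (hy : y ∈ (Set.range X) ^ n) :
    ∃ e : σ → ℕ, ∑ w, e w = n ∧ y = ∏ w, X w ^ e w := by
  classical
  induction n generalizing y with
  | zero =>
    rw [pow_zero, Set.mem_one] at hy
    exact ⟨0, by simp, by simp [hy]⟩
  | succ n ih =>
    rw [pow_succ, Set.mem_mul] at hy
    obtain ⟨a, ha, z, ⟨w, rfl⟩, rfl⟩ := hy
    obtain ⟨e, he, rfl⟩ := ih a ha
    refine ⟨e + Pi.single w 1, ?_, ?_⟩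
    · simp only [Pi.add_apply, Finset.sum_add_distrib, he]
      rw [Finset.sum_pi_single']
      simp
    · simp only [Pi.add_apply, pow_add, Finset.prod_mul_distrib]
      congr 1
      rw [Finset.prod_eq_single w]
      · rw [Pi.single_eq_same, pow_one]
      · intro i _ hi
        rw [Pi.single_eq_of_ne hi, pow_zero]
      · intro h
        exact absurd (Finset.mem_univ w) h

omit [DecidableEq B] [Fintype σ] in
private lemma prod_mem_rm (L : B → Submodule E 𝒜) (b : B → ℕ) (X : σ → 𝒜)
    (hX : ∀ w, X w ∈ Rm L b) (s : Finset σ) (e : σ → ℕ) :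
    ∏ w ∈ s, X w ^ e w ∈ Rm L ((∑ w ∈ s, e w) • b) := by
  classical
  induction s using Finset.induction_on with
  | empty =>
    rw [Finset.prod_empty, Finset.sum_empty, zero_smul, rm_zero]
    exact Submodule.one_le.1 le_rfl
  | insert a s ha ih =>
    rw [Finset.prod_insert ha, Finset.sum_insert ha, add_smul]
    exact rm_mul_mem L (rm_pow_mem L (hX a) _) ih

open Pointwise in
omit [DecidableEq B] in
private lemma mono_div (L : B → Submodule E 𝒜) (b : B → ℕ) (X : σ → 𝒜)
    (hX : ∀ w, X w ∈ Rm L b) (j : ℕ) (hj : 0 < j) (hσ : 0 < Fintype.card σ) (y : 𝒜)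
    (hy : y ∈ (Set.range X) ^ (Fintype.card σ * j)) :
    ∃ w, ∃ M ∈ Rm L (((Fintype.card σ - 1) * j) • b), y = X w ^ j * M := by
  classical
  obtain ⟨e, he, rfl⟩ := pow_range_mem X _ y hy
  have hw : ∃ w, j ≤ e w := by
    by_contra hcon
    push Not at hcon
    have h1 : ∑ w, e w ≤ ∑ _w : σ, (j - 1) := Finset.sum_le_sum fun w _ => by
      have := hcon w
      omega
    rw [Finset.sum_const, Finset.card_univ, smul_eq_mul, he] at h1
    have h2 : j ≤ j - 1 := Nat.le_of_mul_le_mul_left h1 hσ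
    omega
  obtain ⟨w, hw⟩ := hw
  refine ⟨w, ∏ i, X i ^ (e i - Pi.single (M := fun _ => ℕ) w j i), ?_, ?_⟩
  · have h := prod_mem_rm L b X hX Finset.univ (fun i => e i - Pi.single (M := fun _ => ℕ) w j i)
    have hs : ∑ i, (e i - Pi.single (M := fun _ => ℕ) w j i) = (Fintype.card σ - 1) * j := by
      have h2 : ∑ i, Pi.single (M := fun _ => ℕ) w j i = j := by
        rw [Finset.sum_pi_single']
        simp
      have h1 : ∑ i, (e i - Pi.single (M := fun _ => ℕ) w j i) +
          ∑ i, Pi.single (M := fun _ => ℕ) w j i = Fintype.card σ * j := by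
        rw [← he, ← Finset.sum_add_distrib]
        refine Finset.sum_congr rfl fun i _ => ?_
        by_cases hi : i = w
        · subst hi
          rw [Pi.single_eq_same]
          omega
        · rw [Pi.single_eq_of_ne hi]
          omega
      rw [h2] at h1
      rw [Nat.sub_mul, one_mul]
      omega
    rwa [hs] at h
  · have h1 : X w ^ j = ∏ i, X i ^ Pi.single (M := fun _ => ℕ) w j i := by
      rw [Finset.prod_eq_single w]
      · rw [Pi.single_eq_same]
      · intro i _ hi
        rw [Pi.single_eq_of_ne hi, pow_zero]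
      · intro h
        exact absurd (Finset.mem_univ w) h
    rw [h1, ← Finset.prod_mul_distrib]
    refine Finset.prod_congr rfl fun i _ => ?_
    rw [← pow_add]
    congr 1
    by_cases hi : i = w
    · subst hi
      rw [Pi.single_eq_same]
      omega
    · rw [Pi.single_eq_of_ne hi]
      omega

omit [Fintype B] [DecidableEq B] [Fintype σ] [CommRing 𝒜] [Algebra E 𝒜] in
private lemma finrank_map_inj {M N : Type*} [AddCommGroup M] [Module E M] [AddCommGroup N]
    [Module E N] (f : M →ₗ[E] N) (W : Submodule E M) (hf : ∀ x ∈ W, f x = 0 → x = 0) :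
    Module.finrank E (W.map f) = Module.finrank E W := by
  have hinj : Function.Injective (f.domRestrict W) := by
    rw [injective_iff_map_eq_zero]
    intro x hx
    exact Subtype.ext (hf x x.2 hx)
  have h := LinearMap.finrank_range_of_inj hinj
  rwa [LinearMap.range_domRestrict] at h

theorem mor (L : B → Submodule E 𝒜) (hL : Irm L) (h₀ : B → ℕ) (P P' : 𝒜) (hP : P ∈ Rm L h₀)
    (hP' : P' ∈ Rm L h₀) (b : B → ℕ) (X : σ → 𝒜) (hX : ∀ w, X w ∈ Rm L b) (β : 𝒜)
    (hβ : β ∈ Rm L b) (hβ0 : β ≠ 0) (t j : ℕ) (c : B → ℕ)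
    (hd : (Fintype.card σ : ℤ) * ((Module.finrank E (Wt L P P' t (c + j • b)) : ℤ) -
      Module.finrank E (Wt L P P' t c)) < Module.finrank E (Wt L P P' t c)) :
    ∃ F ∈ Wt L P P' t c, F ≠ 0 ∧ ∀ w, ∃ G ∈ Wt L P P' t c, X w ^ j * F = β ^ j * G := by
  classical
  set W : Submodule E 𝒜 := Wt L P P' t c with hW
  set W' : Submodule E 𝒜 := Wt L P P' t (c + j • b) with hW'
  have : Module.Finite E W := Module.Finite.iff_fg.2 (wt_fg L hL.fg P P' t c)
  have : Module.Finite E W' := Module.Finite.iff_fg.2 (wt_fg L hL.fg P P' t _)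
  let N : Submodule E 𝒜 := W.map (LinearMap.mulLeft E (β ^ j))
  have hNW : N ≤ W' := by
    rintro _ ⟨F, hF, rfl⟩
    exact wt_mul_mem L P P' hF (rm_pow_mem L hβ j)
  have hN : Module.finrank E N = Module.finrank E W := by
    refine finrank_map_inj _ W fun x hx h => ?_
    exact irm_pow L hL hβ (wt_le L h₀ P P' hP hP' t c hx) hβ0 j h
  let Q : Submodule E (𝒜 ⧸ N) := W'.map N.mkQ
  have : Module.Finite E Q := inferInstance
  have hQ : Module.finrank E Q + Module.finrank E N = Module.finrank E W' := by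
    have h := LinearMap.finrank_range_add_finrank_ker (N.mkQ.domRestrict W')
    rw [LinearMap.range_domRestrict] at h
    have hker : Module.finrank E (LinearMap.ker (N.mkQ.domRestrict W')) =
        Module.finrank E N := by
      rw [LinearMap.ker_domRestrict, Submodule.ker_mkQ]
      exact (Submodule.comapSubtypeEquivOfLe hNW).finrank_eq
    rw [hker] at h
    exact h
  let Φ : W →ₗ[E] (σ → Q) := LinearMap.pi fun w =>
    ((N.mkQ ∘ₗ LinearMap.mulLeft E (X w ^ j)) ∘ₗ W.subtype).codRestrict Q fun F =>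
      ⟨X w ^ j * F, wt_mul_mem L P P' F.2 (rm_pow_mem L (hX w) j), rfl⟩
  have hnot : ¬ Function.Injective Φ := by
    intro hinj
    have h := LinearMap.finrank_le_finrank_of_injective hinj
    rw [Module.finrank_pi_fintype, Finset.sum_const, Finset.card_univ, smul_eq_mul] at h
    have h2 : (Module.finrank E Q : ℤ) = Module.finrank E W' - Module.finrank E W := by
      rw [← hN, ← hQ]
      push_cast
      ring
    have h3 : (Module.finrank E W : ℤ) ≤ Fintype.card σ * Module.finrank E Q := by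
      exact_mod_cast h
    rw [h2] at h3
    exact absurd hd (not_lt.2 h3)
  rw [injective_iff_map_eq_zero] at hnot
  push Not at hnot
  obtain ⟨F, hF, hF0⟩ := hnot
  refine ⟨F, F.2, fun h => hF0 (Subtype.ext h), fun w => ?_⟩
  have h1 : N.mkQ (X w ^ j * (F : 𝒜)) = 0 := by
    have h := congrFun hF w
    exact congrArg Subtype.val h
  rw [Submodule.mkQ_apply, Submodule.Quotient.mk_eq_zero] at h1
  obtain ⟨G, hG, hGe⟩ := h1
  exact ⟨G, hG, hGe.symm⟩

theorem mor_mono (L : B → Submodule E 𝒜) (hL : Irm L) (h₀ : B → ℕ) (P P' : 𝒜)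
    (hP : P ∈ Rm L h₀) (hP' : P' ∈ Rm L h₀) (b : B → ℕ) (X : σ → 𝒜)
    (hX : Submodule.span E (Set.range X) = Rm L b) (β : 𝒜) (hβ : β ∈ Rm L b) (hβ0 : β ≠ 0)
    (t j : ℕ) (c : B → ℕ) (F : 𝒜) (hF : F ∈ Wt L P P' t c) (hF0 : F ≠ 0)
    (hFX : ∀ w, ∃ G ∈ Wt L P P' t c, X w ^ j * F = β ^ j * G) (t' : ℕ) (d : B → ℕ) :
    Module.finrank E (Wt L P P' t' (d + (Fintype.card σ * j) • b)) ≤
      Module.finrank E (Wt L P P' (t' + t) (d + ((Fintype.card σ - 1) * j) • b + c)) := by
  classical
  haveI : Nontrivial 𝒜 := ⟨β, 0, hβ0⟩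
  have hXm : ∀ w, X w ∈ Rm L b := fun w => by
    rw [← hX]
    exact Submodule.subset_span ⟨w, rfl⟩
  have key : ∀ H ∈ Wt L P P' t' (d + (Fintype.card σ * j) • b),
      ∃ G ∈ Wt L P P' (t' + t) (d + ((Fintype.card σ - 1) * j) • b + c),
        H * F = β ^ j * G := by
    rcases Nat.eq_zero_or_pos j with rfl | hj
    · intro H hH
      rw [mul_zero, zero_smul, add_zero] at hH ⊢
      exact ⟨H * F, wt_wt_mem L P P' hH hF, by rw [pow_zero, one_mul]⟩
    · have hσ : 0 < Fintype.card σ := by
        rcases Nat.eq_zero_or_pos (Fintype.card σ) with h0 | h0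
        · exfalso
          have := Fintype.card_eq_zero_iff.1 h0
          obtain ⟨R, hR, hR0⟩ := rm_ne L hL b
          rw [← hX, Set.range_eq_empty, Submodule.span_empty] at hR
          exact hR0 ((Submodule.mem_bot E).1 hR)
        · exact h0
      have hmon : ∀ M ∈ Rm L ((Fintype.card σ * j) • b),
          ∃ G ∈ Wt L P P' t (c + ((Fintype.card σ - 1) * j) • b), M * F = β ^ j * G := by
        intro M hM
        rw [rm_smul, ← hX, Submodule.span_pow] at hM
        induction hM using Submodule.span_induction with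
        | mem y hy =>
          obtain ⟨w, M', hM', rfl⟩ := mono_div L b X hXm j hj hσ y hy
          obtain ⟨G, hG, hGe⟩ := hFX w
          refine ⟨M' * G, wt_mul_mem L P P' hG hM', ?_⟩
          calc X w ^ j * M' * F = M' * (X w ^ j * F) := by ring
            _ = β ^ j * (M' * G) := by rw [hGe]; ring
        | zero => exact ⟨0, Submodule.zero_mem _, by ring⟩
        | add x y _ _ hx hy =>
          obtain ⟨G, hG, hGe⟩ := hx
          obtain ⟨G', hG', hGe'⟩ := hy
          exact ⟨G + G', Submodule.add_mem _ hG hG', by rw [add_mul, hGe, hGe']; ring⟩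
        | smul a x _ hx =>
          obtain ⟨G, hG, hGe⟩ := hx
          exact ⟨a • G, Submodule.smul_mem _ a hG, by
            rw [smul_mul_assoc, hGe, mul_smul_comm]⟩
      intro H hH
      rw [Wt, rm_add, ← mul_assoc] at hH
      induction hH using Submodule.mul_induction_on' with
      | mem_mul_mem A hA M hM =>
        obtain ⟨G, hG, hGe⟩ := hmon M hM
        refine ⟨A * G, ?_, ?_⟩
        · have h := wt_wt_mem L P P' (show A ∈ Wt L P P' t' d from hA) hG
          have hc : d + (c + ((Fintype.card σ - 1) * j) • b) =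
              d + ((Fintype.card σ - 1) * j) • b + c := by
            rw [add_comm c, add_assoc]
          rwa [hc] at h
        · rw [mul_assoc, hGe]
          ring
      | add x hx y hy hx' hy' =>
        obtain ⟨G, hG, hGe⟩ := hx'
        obtain ⟨G', hG', hGe'⟩ := hy'
        exact ⟨G + G', Submodule.add_mem _ hG hG', by rw [add_mul, hGe, hGe']; ring⟩
  set V₁ := Wt L P P' t' (d + (Fintype.card σ * j) • b) with hV₁
  set V₂ := Wt L P P' (t' + t) (d + ((Fintype.card σ - 1) * j) • b + c) with hV₂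
  have : Module.Finite E V₂ := Module.Finite.iff_fg.2 (wt_fg L hL.fg P P' _ _)
  have h1 : Module.finrank E (V₁.map (LinearMap.mulRight E F)) = Module.finrank E V₁ := by
    refine finrank_map_inj _ V₁ fun x hx h => ?_
    rcases hL.mul _ _ x F (wt_le L h₀ P P' hP hP' _ _ hx) (wt_le L h₀ P P' hP hP' _ _ hF) h with
      h | h
    · exact h
    · exact absurd h hF0
  have h2 : V₁.map (LinearMap.mulRight E F) ≤ V₂.map (LinearMap.mulLeft E (β ^ j)) := by
    rintro _ ⟨H, hH, rfl⟩
    obtain ⟨G, hG, hGe⟩ := key H hH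
    exact ⟨G, hG, hGe.symm⟩
  calc Module.finrank E V₁ = Module.finrank E (V₁.map (LinearMap.mulRight E F)) := h1.symm
    _ ≤ Module.finrank E (V₂.map (LinearMap.mulLeft E (β ^ j))) := Submodule.finrank_mono h2
    _ ≤ Module.finrank E V₂ := Submodule.finrank_map_le _ _

end Pool.Agent.KST
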