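import Pool.Agent.KST.Pen
import Pool.Agent.KST.Mor
import Pool.Agent.KST.Tr
import Pool.Agent.KST.Evc

/-!
# KST KTA: sections from the numerical condition

Write `D c = hm L c - hm L (c - h₀)` for `c ≥ c₁ ≥ h₀`; `D c = Dl h₀ (hm L) (c - h₀)`. By `c₂` and
`c₃` of `Cub` (for `a = h₀`) there are `C₀` and `c₂ ≥ c₁ + h₀` such that for `c ≥ c₂`
`|2 D c - Tri t c c h₀| ≤ C₀ (1 + ∑ c)` (`Tri t (c - h₀) (c - h₀) h₀` and `Tri t c c h₀` differ by
`O(1 + ∑ c)`). By `pen`, `finrank (Wt T c) = T D c + hm L c` for `c ≥ c₁`.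
Let `c = k a + c₂`, `j = ⌊m' k⌋₊` (so `j ≤ m' k`, `m' k - 1 ≤ j`). Then
`2 D c = k ^ 2 Q(a,a) + O(k)`, `2 D (c + j b) = k ^ 2 Q(a,a) + 2 k j Q(a,b) + j ^ 2 Q(b,b) + O(k)`,
`Q(u,v) = Tri t u v h₀`; `j ^ 2 = m' ^ 2 k ^ 2 + O(k)`, `k j = m' k ^ 2 + O(k)`, so
`card σ (2 D (c + j b) - 2 D c) ≤ k ^ 2 card σ (2 m' Q(a,b) + m' ^ 2 Q(b,b)) + O(k)
< k ^ 2 Q(a,a) - O(k) ≤ 2 D c` for `k` large, by the condition. For such a `k` (choose `k ≥ K`)
`card σ (finrank (Wt T (c + j b)) - finrank (Wt T c)) < finrank (Wt T c)` for `T` large: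
`T (card σ (D (c + j b) - D c) - D c) + card σ (hm (c + j b) - hm c) - hm c < 0`. Apply `mor`.
-/

open MvPolynomial

namespace Pool.Agent.KST

variable {E 𝒜 B σ : Type*} [Field E] [CommRing 𝒜] [Algebra E 𝒜] [Fintype B] [DecidableEq B]
  [Fintype σ]

omit [DecidableEq B] in
private theorem kta_quad (t : B → B → B → ℝ) (hs : ∀ i j k, t i j k = t j i k)
    (k j : ℝ) (x y e w : B → ℝ) :
    Tri t (k • x + j • y + e) (k • x + j • y + e) w =
      k ^ 2 * Tri t x x w + 2 * k * j * Tri t x y w + j ^ 2 * Tri t y y w +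
        2 * k * Tri t x e w + 2 * j * Tri t y e w + Tri t e e w := by
  have h1 : ∀ v, Tri t (k • x + j • y + e) v w =
      k * Tri t x v w + j * Tri t y v w + Tri t e v w := by
    intro v
    rw [tri_add₁, tri_add₁, tri_smul₁, tri_smul₁]
  rw [h1, tri_swap₁ t hs x (k • x + j • y + e), tri_swap₁ t hs y (k • x + j • y + e),
    tri_swap₁ t hs e (k • x + j • y + e), h1, h1, h1, tri_swap₁ t hs y x, tri_swap₁ t hs e x,
    tri_swap₁ t hs e y]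
  ring

private theorem kta_num (μ k j qab qbb qae qbe qee : ℝ) (hμ : 0 ≤ μ) (hk : 0 ≤ k) (hj : 0 ≤ j)
    (h1 : j ≤ μ * k) (h2 : μ * k - 1 ≤ j) :
    |2 * k * (j - μ * k) * qab + (j ^ 2 - μ ^ 2 * k ^ 2) * qbb + 2 * k * qae + 2 * j * qbe + qee| ≤
      (2 * |qab| + 2 * μ * |qbb| + 2 * |qae| + 2 * μ * |qbe| + |qee|) * (k + 1) := by
  have hd : |j - μ * k| ≤ 1 := by
    rw [abs_le]
    constructor <;> linarith
  have e1 : |2 * k * (j - μ * k) * qab| ≤ 2 * k * |qab| := by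
    rw [abs_mul, abs_mul, abs_of_nonneg (by positivity : 0 ≤ 2 * k)]
    have : 2 * k * |j - μ * k| ≤ 2 * k * 1 := mul_le_mul_of_nonneg_left hd (by positivity)
    rw [mul_one] at this
    exact mul_le_mul_of_nonneg_right this (abs_nonneg _)
  have e2 : |(j ^ 2 - μ ^ 2 * k ^ 2) * qbb| ≤ 2 * μ * k * |qbb| := by
    have h3 : j ^ 2 - μ ^ 2 * k ^ 2 = (j - μ * k) * (j + μ * k) := by ring
    have h4 : 0 ≤ j + μ * k := by positivity
    rw [h3, abs_mul, abs_mul, abs_of_nonneg h4]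
    have h5 : |j - μ * k| * (j + μ * k) ≤ 1 * (2 * μ * k) :=
      mul_le_mul hd (by linarith) h4 (by norm_num)
    rw [one_mul] at h5
    exact mul_le_mul_of_nonneg_right h5 (abs_nonneg _)
  have e3 : |2 * k * qae| ≤ 2 * k * |qae| := by
    rw [abs_mul, abs_of_nonneg (by positivity : 0 ≤ 2 * k)]
  have e4 : |2 * j * qbe| ≤ 2 * (μ * k) * |qbe| := by
    rw [abs_mul, abs_of_nonneg (by positivity : 0 ≤ 2 * j)]
    exact mul_le_mul_of_nonneg_right (by linarith) (abs_nonneg _)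
  have t1 := abs_add_le (2 * k * (j - μ * k) * qab + (j ^ 2 - μ ^ 2 * k ^ 2) * qbb + 2 * k * qae +
    2 * j * qbe) qee
  have t2 := abs_add_le (2 * k * (j - μ * k) * qab + (j ^ 2 - μ ^ 2 * k ^ 2) * qbb + 2 * k * qae)
    (2 * j * qbe)
  have t3 := abs_add_le (2 * k * (j - μ * k) * qab + (j ^ 2 - μ ^ 2 * k ^ 2) * qbb) (2 * k * qae)
  have t4 := abs_add_le (2 * k * (j - μ * k) * qab) ((j ^ 2 - μ ^ 2 * k ^ 2) * qbb)
  have p1 := abs_nonneg qab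
  have p2 : 0 ≤ μ * |qbb| := by positivity
  have p3 := abs_nonneg qae
  have p4 : 0 ≤ μ * |qbe| := by positivity
  have p5 : 0 ≤ |qee| * k := by positivity
  nlinarith

omit [DecidableEq B] in
private theorem kta_asym (h : (B → ℕ) → ℤ) (t : B → B → B → ℝ) (ht : Cub h t)
    (h₀ a b c₁ : B → ℕ) (hc₁ : h₀ ≤ c₁) :
    ∃ c₂, c₁ ≤ c₂ ∧ ∀ μ : ℝ, 0 ≤ μ → ∃ C : ℝ, ∀ k j : ℕ, (j : ℝ) ≤ μ * k → μ * k - 1 ≤ j →
      |2 * ((h (k • a + c₂ + j • b) - h (k • a + c₂ + j • b - h₀) : ℤ) : ℝ) -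
        (k : ℝ) ^ 2 * (Tri t (rv a) (rv a) (rv h₀) + 2 * μ * Tri t (rv a) (rv b) (rv h₀) +
          μ ^ 2 * Tri t (rv b) (rv b) (rv h₀))| ≤ C * (k + 1) := by
  obtain ⟨C₂, c₀, hC⟩ := ht.c₂ h₀
  have hC0 : 0 ≤ C₂ := by
    have h1 := (abs_nonneg _).trans (hC c₀ le_rfl)
    have h2 : (0 : ℝ) < 1 + ∑ i, (c₀ i : ℝ) := by positivity
    exact nonneg_of_mul_nonneg_left h1 h2
  refine ⟨c₁ + c₀, le_self_add, fun μ hμ => ?_⟩
  set c₂ := c₁ + c₀ with hc₂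
  set e : B → ℝ := fun i => (c₂ i : ℝ) - h₀ i with he
  refine ⟨C₂ * (1 + ∑ i, (a i : ℝ) + μ * ∑ i, (b i : ℝ) + ∑ i, (c₂ i : ℝ)) +
    (2 * |Tri t (rv a) (rv b) (rv h₀)| + 2 * μ * |Tri t (rv b) (rv b) (rv h₀)| +
      2 * |Tri t (rv a) e (rv h₀)| + 2 * μ * |Tri t (rv b) e (rv h₀)| +
      |Tri t e e (rv h₀)|), fun k j h1 h2 => ?_⟩
  set c := k • a + c₂ + j • b with hc
  set d := c - h₀ with hd
  have hk0 : (0 : ℝ) ≤ k := Nat.cast_nonneg _
  have hj0 : (0 : ℝ) ≤ j := Nat.cast_nonneg _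
  have hle : ∀ i, h₀ i ≤ c₁ i := hc₁
  have hci : ∀ i, c i = k * a i + (c₁ i + c₀ i) + j * b i := by
    intro i
    simp [hc, hc₂]
  have hdi : ∀ i, d i = c i - h₀ i := fun i => rfl
  have hdc : d + h₀ = c := by
    funext i
    rw [Pi.add_apply, hdi, hci]
    have := hle i
    omega
  have hd0 : c₀ ≤ d := by
    intro i
    have h6 : c₀ i ≤ d i := by
      rw [hdi, hci]
      have := hle i
      omega
    exact h6
  have h3 := hC d hd0
  have h4 : Dl h₀ h d = h c - h d := by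
    unfold Dl
    rw [hdc]
  rw [h4] at h3
  have hrv : rv d = (k : ℝ) • rv a + (j : ℝ) • rv b + e := by
    funext i
    have h5 : h₀ i ≤ c i := by
      rw [hci]
      have := hle i
      have : 0 ≤ k * a i := Nat.zero_le _
      have : 0 ≤ j * b i := Nat.zero_le _
      omega
    simp only [rv, Pi.add_apply, Pi.smul_apply, smul_eq_mul, he, hdi]
    rw [Nat.cast_sub h5, hci]
    simp only [hc₂, Pi.add_apply]
    push_cast
    ring
  have hsum : ∑ i, (d i : ℝ) ≤ (k : ℝ) * ∑ i, (a i : ℝ) + (j : ℝ) * ∑ i, (b i : ℝ) +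
      ∑ i, (c₂ i : ℝ) := by
    rw [Finset.mul_sum, Finset.mul_sum, ← Finset.sum_add_distrib, ← Finset.sum_add_distrib]
    refine Finset.sum_le_sum fun i _ => ?_
    have h5 : (d i : ℝ) ≤ (c i : ℝ) := by
      rw [hdi]
      exact_mod_cast Nat.sub_le _ _
    refine h5.trans (le_of_eq ?_)
    rw [hci]
    simp only [hc₂, Pi.add_apply]
    push_cast
    ring
  rw [hrv, kta_quad t ht.s₁] at h3
  have hn := kta_num μ k j (Tri t (rv a) (rv b) (rv h₀)) (Tri t (rv b) (rv b) (rv h₀))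
    (Tri t (rv a) e (rv h₀)) (Tri t (rv b) e (rv h₀)) (Tri t e e (rv h₀)) hμ hk0 hj0 h1 h2
  have hA : (0 : ℝ) ≤ ∑ i, (a i : ℝ) := by positivity
  have hB : (0 : ℝ) ≤ ∑ i, (b i : ℝ) := by positivity
  have hC' : (0 : ℝ) ≤ ∑ i, (c₂ i : ℝ) := by positivity
  have h5 : 1 + ∑ i, (d i : ℝ) ≤
      (1 + ∑ i, (a i : ℝ) + μ * ∑ i, (b i : ℝ) + ∑ i, (c₂ i : ℝ)) * (k + 1) := by
    have h6 : (j : ℝ) * ∑ i, (b i : ℝ) ≤ μ * k * ∑ i, (b i : ℝ) :=
      mul_le_mul_of_nonneg_right h1 hB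
    have h7 : 0 ≤ μ * ∑ i, (b i : ℝ) := by positivity
    have h8 : 0 ≤ (∑ i, (c₂ i : ℝ)) * k := by positivity
    nlinarith
  have h6 := mul_le_mul_of_nonneg_left h5 hC0
  set P := (2 * |Tri t (rv a) (rv b) (rv h₀)| + 2 * μ * |Tri t (rv b) (rv b) (rv h₀)| +
      2 * |Tri t (rv a) e (rv h₀)| + 2 * μ * |Tri t (rv b) e (rv h₀)| +
      |Tri t e e (rv h₀)|) with hP
  have key : 2 * ((h c - h d : ℤ) : ℝ) -
        (k : ℝ) ^ 2 * (Tri t (rv a) (rv a) (rv h₀) + 2 * μ * Tri t (rv a) (rv b) (rv h₀) +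
          μ ^ 2 * Tri t (rv b) (rv b) (rv h₀)) =
      (2 * ((h c - h d : ℤ) : ℝ) - ((k : ℝ) ^ 2 * Tri t (rv a) (rv a) (rv h₀) +
        2 * k * j * Tri t (rv a) (rv b) (rv h₀) + (j : ℝ) ^ 2 * Tri t (rv b) (rv b) (rv h₀) +
        2 * k * Tri t (rv a) e (rv h₀) + 2 * j * Tri t (rv b) e (rv h₀) + Tri t e e (rv h₀))) +
      (2 * k * (j - μ * k) * Tri t (rv a) (rv b) (rv h₀) +
        ((j : ℝ) ^ 2 - μ ^ 2 * (k : ℝ) ^ 2) * Tri t (rv b) (rv b) (rv h₀) +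
        2 * k * Tri t (rv a) e (rv h₀) + 2 * j * Tri t (rv b) e (rv h₀) + Tri t e e (rv h₀)) := by
    ring
  rw [key]
  refine (abs_add_le _ _).trans ?_
  have h7 := add_le_add (h3.trans h6) hn
  refine h7.trans (le_of_eq ?_)
  ring

theorem kt_F (L : B → Submodule E 𝒜) (hL : Irm L) (t : B → B → B → ℝ) (ht : Cub (hm L) t)
    (h₀ : B → ℕ) (P P' : 𝒜) (hP : P ∈ Rm L h₀) (hP' : P' ∈ Rm L h₀) (h0 : P ≠ 0)
    (c₁ : B → ℕ) (hnz : NZ L h₀ P P' c₁) (b : B → ℕ) (X : σ → 𝒜) (hX : ∀ w, X w ∈ Rm L b)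
    (β : 𝒜) (hβ : β ∈ Rm L b) (hβ0 : β ≠ 0) (a : B → ℕ) (m' : ℝ) (hm' : 0 ≤ m')
    (hcond : Fintype.card σ * (2 * m' * Tri t (rv a) (rv b) (rv h₀) +
      m' ^ 2 * Tri t (rv b) (rv b) (rv h₀)) < Tri t (rv a) (rv a) (rv h₀)) :
    ∃ c₂ : B → ℕ, c₁ ≤ c₂ ∧ ∀ K : ℕ, ∃ k, K ≤ k ∧ ∃ T j : ℕ, m' * k - 1 ≤ j ∧
      ∃ F ∈ Wt L P P' T (k • a + c₂), F ≠ 0 ∧
        ∀ w, ∃ G ∈ Wt L P P' T (k • a + c₂), X w ^ j * F = β ^ j * G := by
  obtain ⟨c₂, hc₂, hasym⟩ := kta_asym (hm L) t ht h₀ a b c₁ hnz.1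
  obtain ⟨C, hC⟩ := hasym m' hm'
  obtain ⟨C', hC'⟩ := hasym 0 le_rfl
  refine ⟨c₂, hc₂, fun K => ?_⟩
  set s : ℝ := (Fintype.card σ : ℝ) with hs
  have hs0 : 0 ≤ s := Nat.cast_nonneg _
  set R₀ := Tri t (rv a) (rv a) (rv h₀) with hR₀
  set R₁ := Tri t (rv a) (rv a) (rv h₀) + 2 * m' * Tri t (rv a) (rv b) (rv h₀) +
    m' ^ 2 * Tri t (rv b) (rv b) (rv h₀) with hR₁
  set δ := R₀ - s * (R₁ - R₀) with hδ
  have hδ0 : 0 < δ := by
    have h1 : R₁ - R₀ = 2 * m' * Tri t (rv a) (rv b) (rv h₀) +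
        m' ^ 2 * Tri t (rv b) (rv b) (rv h₀) := by
      rw [hR₁, hR₀]
      ring
    rw [hδ, h1]
    linarith
  set M := s * |C| + (s + 1) * |C'| with hM
  have hM0 : 0 ≤ M := by positivity
  obtain ⟨k₀, hk₀⟩ := exists_nat_gt (2 * M / δ)
  set k := K + k₀ + 1 with hk
  have hkK : K ≤ k := by omega
  have hk1 : (1 : ℝ) ≤ k := by
    have : 1 ≤ k := by omega
    exact_mod_cast this
  have hkM : 2 * M < δ * k := by
    have h1 : 2 * M / δ < k := by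
      refine hk₀.trans_le ?_
      have : k₀ ≤ k := by omega
      exact_mod_cast this
    rw [div_lt_iff₀ hδ0] at h1
    linarith
  set j := ⌊m' * k⌋₊ with hj
  have hj1 : (j : ℝ) ≤ m' * k := Nat.floor_le (by positivity)
  have hj2 : m' * k - 1 ≤ j := by
    have := Nat.lt_floor_add_one (m' * k)
    linarith
  have a1 := hC k j hj1 hj2
  have a2 := hC' k 0 (by simp) (by simp)
  simp only [zero_smul, add_zero, mul_zero, zero_mul, ne_eq, OfNat.ofNat_ne_zero,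
    not_false_eq_true, zero_pow] at a2
  set c := k • a + c₂ with hc
  set D : ℤ := hm L c - hm L (c - h₀) with hD
  set D' : ℤ := hm L (c + j • b) - hm L (c + j • b - h₀) with hD'
  have hgap : (0 : ℝ) < ((D - Fintype.card σ * (D' - D) : ℤ) : ℝ) := by
    push_cast
    rw [← hs]
    have b1 := (abs_le.1 a1).2
    have b2 := (abs_le.1 a2).1
    have b3 : C * (k + 1) ≤ |C| * (k + 1) := mul_le_mul_of_nonneg_right (le_abs_self _) (by linarith)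
    have b4 : C' * (k + 1) ≤ |C'| * (k + 1) :=
      mul_le_mul_of_nonneg_right (le_abs_self _) (by linarith)
    have b5 : 2 * (D' : ℝ) ≤ (k : ℝ) ^ 2 * R₁ + |C| * (k + 1) := by linarith
    have b6 : (k : ℝ) ^ 2 * R₀ - |C'| * (k + 1) ≤ 2 * (D : ℝ) := by linarith
    have b7 := mul_le_mul_of_nonneg_left b5 hs0
    have b8 := mul_le_mul_of_nonneg_left b6 (by linarith : 0 ≤ s + 1)
    have b9 : M * (k + 1) < δ * (k : ℝ) ^ 2 := by nlinarith
    have b10 : 2 * ((D : ℝ) - s * (D' - D)) = (s + 1) * (2 * D) - s * (2 * D') := by ring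
    have b11 : δ * (k : ℝ) ^ 2 - M * (k + 1) =
        (s + 1) * ((k : ℝ) ^ 2 * R₀ - |C'| * (k + 1)) - s * ((k : ℝ) ^ 2 * R₁ + |C| * (k + 1)) := by
      rw [hδ, hM]
      ring
    linarith
  have hgap' : 1 ≤ D - Fintype.card σ * (D' - D) := by
    have : (0 : ℤ) < D - Fintype.card σ * (D' - D) := by exact_mod_cast hgap
    omega
  set R : ℤ := Fintype.card σ * (hm L (c + j • b) - hm L c) - hm L c with hR
  set T : ℕ := R.natAbs + 1 with hT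
  have hTR : R < T := by
    rw [hT]
    push_cast
    have := le_abs_self R
    omega
  have hcc : c₁ ≤ c := hc₂.trans le_add_self
  have hcc' : c₁ ≤ c + j • b := hcc.trans le_self_add
  have p1 := pen L hL h₀ P P' hP hP' h0 c₁ hnz T c hcc
  have p2 := pen L hL h₀ P P' hP hP' h0 c₁ hnz T (c + j • b) hcc'
  have hfin : (Fintype.card σ : ℤ) * ((Module.finrank E (Wt L P P' T (c + j • b)) : ℤ) -
      Module.finrank E (Wt L P P' T c)) < Module.finrank E (Wt L P P' T c) := by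
    rw [p1, p2]
    have q1 : ((T : ℤ) + 1) * hm L c - T * hm L (c - h₀) = T * D + hm L c := by
      rw [hD]
      ring
    have q2 : ((T : ℤ) + 1) * hm L (c + j • b) - T * hm L (c + j • b - h₀) =
        T * D' + hm L (c + j • b) := by
      rw [hD']
      ring
    rw [q1, q2]
    have q3 : (T : ℤ) * 1 ≤ T * (D - Fintype.card σ * (D' - D)) :=
      mul_le_mul_of_nonneg_left hgap' (Int.natCast_nonneg _)
    have q4 : (Fintype.card σ : ℤ) * (T * D' + hm L (c + j • b) - (T * D + hm L c)) -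
        (T * D + hm L c) = R - T * (D - Fintype.card σ * (D' - D)) := by
      rw [hR]
      ring
    linarith
  obtain ⟨F, hF, hF0, hFX⟩ := mor L hL h₀ P P' hP hP' b X hX β hβ hβ0 T j c hfin
  exact ⟨k, hkK, T, j, hj2, F, hF, hF0, hFX⟩

end Pool.Agent.KST
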