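import Pool.Agent.KST.Tr

/-!
# KST NUM: the numerical condition

All vectors are row vectors. `ω j = om A j = 1 A ^ j` for `j ≥ 0`, and for `B = A⁻¹` put
`ω (-j) = om B j`; `ω (j + 1) = ω j A` for all integers `j`. Invariance: `T(uA, vA, wA) = T(u,v,w)`.
`hn`, `hr` are stated for indices `≥ 0`; by invariance (multiply all the arguments by `A ^ m`) they hold
for all integer indices: `T(ω i, ω j, ω k) ≥ 0`, and for a combination `a` of the `ω i` (finitely many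
integers `i`) with natural coefficients
`T(a,a,ω l) T(ω j,ω k,ω l) ≤ K T(a,ω j,ω l) T(a,ω k,ω l)`. By homogeneity (common denominator) and
continuity this holds for `a` a combination with nonnegative real coefficients, and (multiply by
constants and take limits) for `a` and `ω j`, `ω k` replaced by limits of such combinations, resp. of
nonnegative multiples of the `ω`'s.

SPECTRUM: `hA`: `A ^ n = d₁ ^ n P + O(r₁ ^ n)`, so `ω n = d₁ ^ n θ + O(r₁ ^ n)`, `θ = 1 P`,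
`θ A = d₁ θ` (`θ j = ∑ i, P i j`), `θ = lim ω n / d₁ ^ n`. Similarly `ω (-n) = d₂ ^ n θ' + O(r₂ ^ n)`,
`θ' = 1 P'`, `θ' B = d₂ θ'`, so `θ' A = d₂⁻¹ θ'`.

(1) `p₀ = T(θ, 1, 1) > 0` (`1 = ω 0`): it is `≥ 0` as a limit. `T(ω n,1,1) = d₁ ^ n p₀ + O(r₁ ^ n)`; if
`p₀ = 0` the growth hypothesis `hgA` for a `ρ` with `max r₁ 1 < ρ < d₁` is violated (`K (1 + C r₁ ^ n)`
is smaller than `ρ ^ n` for `n` large). Similarly `q₀ = T(θ', 1, 1) > 0` from `hgB` and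
`T(ω (-n),1,1)`.

(2) `T(θ, θ', 1) > 0`. Suppose it is `0`. `T(θ, θ', ω l) = T(θ A^-l, θ' A^-l, ω 0) =
(d₂ / d₁) ^ l T(θ, θ', 1) = 0` for all integers `l`. Let `p(j,l) = T(θ, ω j, ω l)`,
`q(j,l) = T(θ', ω j, ω l)`, symmetric, `≥ 0`, `p(j+1,l+1) = d₁⁻¹ p(j,l)`, `q(j+1,l+1) = d₂ q(j,l)`. For
`ε > 0` use the inequality with `a = θ' + ε ω j`, `θ` (limit of `ω m / d₁ ^ m`) instead of `ω j`, `ω k`,
surface `ω l`: `T(a,a,ω l) ≥ 2 ε q(j,l)`, `T(a,θ,ω l) = ε p(j,l)`,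
`T(a,ω k,ω l) = q(k,l) + ε T(ω j,ω k,ω l)`; divide by `ε` and let `ε → 0`:
`2 q(j,l) p(k,l) ≤ K p(j,l) q(k,l)` (*) for all `j, k, l`.
Let `n < 0` be an integer, `|n|` large. (*) for `(j,k,l) = (0,n,0)`:
`2 q₀ p(n,0) ≤ K p₀ q(n,0)`; for `(0,n,n)`: `2 q(0,n) p(n,n) ≤ K p(0,n) q(n,n)`. Multiply:
`4 q₀ p(n,n) [q(0,n) p(n,0)] ≤ K ^ 2 p₀ q(n,n) [p(0,n) q(n,0)]`, the brackets are equal. `p(0,n) > 0`:
the inequality for `a = ω n`, `θ`, `ω 0`, surface `ω 0`: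
`T(ω n,ω n,ω 0) p₀ ≤ K p(n,0) T(ω n,ω 0,ω 0)` and `T(ω n,ω n,ω 0) = T(ω 0,ω 0,ω (-n)) > 0` for `|n|` large by
(1). Then also `q(0,n) > 0` by the first inequality (`q₀ > 0`; if `q(n,0) = 0` then `p(n,0) = 0`). So
`4 q₀ d₁ ^ |n| p₀ ≤ K ^ 2 p₀ d₂ ^ (-|n|) q₀`, i.e. `4 (d₁ d₂) ^ |n| ≤ K ^ 2`: false for `|n|` large.

(3) Let `a = ω N + ω (-N)`, `s = T(θ, θ', 1) > 0`. `T(a,a,1) ≥ 2 T(ω N, ω (-N), 1) =
2 (d₁ d₂) ^ N s + O((r₁ d₂) ^ N + (d₁ r₂) ^ N + (r₁ r₂) ^ N) ≥ s (d₁ d₂) ^ N` for `N` large.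
`T(a,1,1) ≤ C (d₁ ^ N + d₂ ^ N)`. With `μ = min d₁ d₂`, `μ (d₁ ^ N + d₂ ^ N)`..: `μ ^ N d₁ ^ N ≤
(d₁ d₂) ^ N`, `μ ^ N d₂ ^ N ≤ (d₁ d₂) ^ N`, `μ ^ (2N) ≤ (d₁ d₂) ^ N`. So with `m' = κ μ ^ N`:
`M (2 m' T(a,1,1) + m' ^ 2 T(1,1,1)) ≤ M (4 C κ + κ ^ 2 e₀) (d₁ d₂) ^ N < s (d₁ d₂) ^ N` for `κ` small.
Finally apply the invariance (`A ^ N`): `T(a,a,1) = T(a A^N, a A^N, ω N)`,
`a A ^ N = om A (2 N) + om A 0`.

`num'`: only `ω N` (with the extra hypothesis `0 ≤ K₁`, as there is no `hn`). By invariance (`A ^ n`) `T(ω (2n), ω (2n), ω n) = T(ω n, ω n, ω 0) =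
T(ω 0, ω 0, ω (-n)) = Tri t (om B n) (om B 0) (om B 0)` (symmetry; `om A n = 1 A ^ n`,
`A ^ n B ^ n = 1`), which is at least `r ^ n / (2 K₁)` for `n` large, for a fixed `r` with
`max d₁ 1 < r < d₂` (`hgB`; `r ^ n` exceeds `2 K₁`; note `K₁ > 0` by `hgB`).
`T(ω (2n), ω n, ω n) = T(ω n, ω 0, ω 0) ≤ C' d₁ ^ n` by `hA` and `tri_bound`, and `T(ω n, ω n, ω n) =
T(ω 0, ω 0, ω 0) = e`. Let `ρ = min (r / d₁) (√r) > 1`, `m' = κ ρ ^ n`:
`M (2 m' T(..) + m' ^ 2 e) ≤ |M| (2 κ C' r ^ n + κ ^ 2 |e| r ^ n) < r ^ n / (2 K₁)` for `κ` small.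
-/

open Filter Topology

namespace Pool.Agent.KST

variable {ι : Type*} [Fintype ι] [DecidableEq ι]

/-! ### The abstract part -/

private theorem num_pos (f : ℕ → ℝ) (p₀ C r d K : ℝ) (hf : ∀ n, 0 ≤ f n)
    (hb : ∀ n, |f n - d ^ n * p₀| ≤ C * r ^ n) (hr : 1 ≤ r) (hd : r < d)
    (hg : ∀ ρ, 0 < ρ → ρ < d → ∀ᶠ n : ℕ in atTop, ρ ^ n ≤ K * (1 + f n)) : 0 < p₀ := by
  by_contra hp
  push Not at hp
  have hC : 0 ≤ C := by
    have := (abs_nonneg _).trans (hb 0)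
    simpa using this
  have hd0 : 0 < d := by linarith
  have h1 : ∀ n, f n ≤ C * r ^ n := by
    intro n
    have h2 := (le_abs_self _).trans (hb n)
    have h3 : d ^ n * p₀ ≤ 0 := mul_nonpos_of_nonneg_of_nonpos (by positivity) hp
    linarith
  obtain ⟨ρ, hρ⟩ : ∃ ρ, ρ = (r + d) / 2 := ⟨_, rfl⟩
  have hρ1 : r < ρ := by linarith
  have hρ2 : ρ < d := by linarith
  have h4 := hg ρ (by linarith) hρ2
  have h5 : Tendsto (fun n : ℕ => (ρ / r) ^ n) atTop atTop :=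
    tendsto_pow_atTop_atTop_of_one_lt ((one_lt_div (by linarith)).2 hρ1)
  have h6 := h5.eventually_gt_atTop (|K| * (1 + C))
  obtain ⟨n, h7, h8⟩ := (h4.and h6).exists
  have hrn : 1 ≤ r ^ n := one_le_pow₀ hr
  have h9 : K * (1 + f n) ≤ |K| * ((1 + C) * r ^ n) := by
    calc K * (1 + f n) ≤ |K| * (1 + f n) :=
          mul_le_mul_of_nonneg_right (le_abs_self _) (by have := hf n; linarith)
      _ ≤ |K| * ((1 + C) * r ^ n) :=
          mul_le_mul_of_nonneg_left (by nlinarith [h1 n]) (abs_nonneg _)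
  rw [div_pow, lt_div_iff₀ (by positivity)] at h8
  linarith

/-- Data for the abstract argument. -/
private structure NumD (F : ℤ → ℤ → ℤ → ℝ) (K d₁ d₂ : ℝ) (p q : ℤ → ℤ → ℝ) (σ : ℤ → ℝ) :
    Prop where
  s1 : ∀ i j k, F i j k = F j i k
  s2 : ∀ i j k, F i j k = F i k j
  sh : ∀ m i j k, F (i + m) (j + m) (k + m) = F i j k
  hn : ∀ i j k, 0 ≤ F i j k
  hr : ∀ α β : ℝ, 0 ≤ α → 0 ≤ β → ∀ i j k l s : ℤ,
      (α ^ 2 * F i i s + 2 * α * β * F i j s + β ^ 2 * F j j s) * F k l s ≤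
        K * (α * F i k s + β * F j k s) * (α * F i l s + β * F j l s)
  hd₁ : 1 < d₁
  hd₂ : 1 < d₂
  L1 : ∀ j l, Tendsto (fun n : ℕ => F n j l / d₁ ^ n) atTop (𝓝 (p j l))
  L2 : ∀ j l, Tendsto (fun n : ℕ => F (-n) j l / d₂ ^ n) atTop (𝓝 (q j l))
  L3 : ∀ l, Tendsto (fun x : ℕ × ℕ => F x.1 (-x.2) l / (d₁ ^ x.1 * d₂ ^ x.2)) atTop (𝓝 (σ l))

namespace NumD

variable {F : ℤ → ℤ → ℤ → ℝ} {K d₁ d₂ : ℝ} {p q : ℤ → ℤ → ℝ} {σ : ℤ → ℝ}

private theorem p_sh (h : NumD F K d₁ d₂ p q σ) (N : ℕ) : p (-N) (-N) = d₁ ^ N * p 0 0 := by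
  have hd := h.hd₁
  have h1 := h.L1 (-N) (-N)
  have h2 : Tendsto (fun n : ℕ => d₁ ^ N * (F ((n + N : ℕ) : ℤ) 0 0 / d₁ ^ (n + N))) atTop
      (𝓝 (d₁ ^ N * p 0 0)) := ((tendsto_add_atTop_iff_nat N).2 (h.L1 0 0)).const_mul _
  refine tendsto_nhds_unique h1 (h2.congr fun n => ?_)
  have h3 : F ((n + N : ℕ) : ℤ) 0 0 = F n (-N) (-N) := by
    rw [← h.sh N n (-N) (-N)]
    congr 1 <;> push_cast <;> ring
  have h4 : d₁ ≠ 0 := by linarith
  rw [h3, pow_add]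
  field_simp

private theorem q_sh (h : NumD F K d₁ d₂ p q σ) (N : ℕ) :
    q (-N) (-N) * d₂ ^ N = q 0 0 := by
  have hd := h.hd₂
  have h1 := (((tendsto_add_atTop_iff_nat N).2 (h.L2 (-N) (-N))).mul_const (d₂ ^ N))
  refine tendsto_nhds_unique h1 ((h.L2 0 0).congr fun n => ?_)
  have h3 : F (-((n + N : ℕ) : ℤ)) (-N) (-N) = F (-n) 0 0 := by
    rw [← h.sh N (-((n + N : ℕ) : ℤ)) (-N) (-N)]
    congr 1 <;> push_cast <;> ring
  have h4 : d₂ ≠ 0 := by linarith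
  rw [h3, pow_add]
  field_simp

private theorem σ_sh (h : NumD F K d₁ d₂ p q σ) (N : ℕ) (h0 : σ 0 = 0) : σ (-N) = 0 := by
  have hd := h.hd₂
  have hd' := h.hd₁
  have e1 : Tendsto (fun m : ℕ => (m, m + N)) atTop (atTop : Filter (ℕ × ℕ)) := by
    rw [← prod_atTop_atTop_eq]
    exact tendsto_id.prodMk (tendsto_add_atTop_nat N)
  have e2 : Tendsto (fun m : ℕ => (m + N, m)) atTop (atTop : Filter (ℕ × ℕ)) := by
    rw [← prod_atTop_atTop_eq]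
    exact (tendsto_add_atTop_nat N).prodMk tendsto_id
  have h1 := ((h.L3 (-N)).comp e1).mul_const (d₂ ^ N)
  have h2 := ((h.L3 0).comp e2).const_mul (d₁ ^ N)
  have h3 : σ (-N) * d₂ ^ N = d₁ ^ N * σ 0 := by
    refine tendsto_nhds_unique h1 (h2.congr fun n => ?_)
    have h3 : F n (-((n + N : ℕ) : ℤ)) (-N) = F ((n + N : ℕ) : ℤ) (-n) 0 := by
      rw [← h.sh N n (-((n + N : ℕ) : ℤ)) (-N)]
      congr 1 <;> push_cast <;> ring
    have h4 : d₂ ≠ 0 := by linarith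
    have h5 : d₁ ≠ 0 := by linarith
    simp only [Function.comp]
    rw [h3, pow_add, pow_add]
    field_simp
  rw [h0, mul_zero] at h3
  have h4 : d₂ ^ N ≠ 0 := pow_ne_zero _ (by linarith)
  exact (mul_eq_zero.1 h3).resolve_right h4

private theorem p_nn (h : NumD F K d₁ d₂ p q σ) (j l : ℤ) : 0 ≤ p j l := by
  have hd := h.hd₁
  exact ge_of_tendsto' (h.L1 j l) fun n => div_nonneg (h.hn _ _ _) (by positivity)

private theorem q_nn (h : NumD F K d₁ d₂ p q σ) (j l : ℤ) : 0 ≤ q j l := by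
  have hd := h.hd₂
  exact ge_of_tendsto' (h.L2 j l) fun n => div_nonneg (h.hn _ _ _) (by positivity)

private theorem p_symm (h : NumD F K d₁ d₂ p q σ) (j l : ℤ) : p j l = p l j := by
  refine tendsto_nhds_unique (h.L1 j l) ((h.L1 l j).congr fun n => ?_)
  rw [h.s2]

private theorem q_symm (h : NumD F K d₁ d₂ p q σ) (j l : ℤ) : q j l = q l j := by
  refine tendsto_nhds_unique (h.L2 j l) ((h.L2 l j).congr fun n => ?_)
  rw [h.s2]

private theorem diag (h : NumD F K d₁ d₂ p q σ) (l : ℤ) :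
    Tendsto (fun n : ℕ => F n (-n) l / (d₁ ^ n * d₂ ^ n)) atTop (𝓝 (σ l)) := by
  have e1 : Tendsto (fun m : ℕ => (m, m)) atTop (atTop : Filter (ℕ × ℕ)) := by
    rw [← prod_atTop_atTop_eq]
    exact tendsto_id.prodMk tendsto_id
  exact (h.L3 l).comp e1

/-- The main inequality. -/
private theorem main_ineq (h : NumD F K d₁ d₂ p q σ) (k s : ℤ) (hs : σ s = 0) :
    2 * q 0 s * p k s ≤ K * p 0 s * q k s := by
  have hd1 := h.hd₁
  have hd2 := h.hd₂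
  have h1 : ∀ ε : ℝ, 0 < ε → 2 * q 0 s * p k s ≤ K * p 0 s * (q k s + ε * F 0 k s) := by
    intro ε hε
    have h2 : ∀ m : ℕ, 2 * ε * (F (-m) 0 s / d₂ ^ m) * (F m k s / d₁ ^ m) ≤
        K * (F m (-m) s / (d₁ ^ m * d₂ ^ m) + ε * (F m 0 s / d₁ ^ m)) *
          (F (-m) k s / d₂ ^ m + ε * F 0 k s) := by
      intro m
      have hm1 : 0 < d₁ ^ m := by positivity
      have hm2 : 0 < d₂ ^ m := by positivity
      have h3 := h.hr (1 / d₂ ^ m) ε (by positivity) hε.le (-m) 0 m k s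
      have h4 : 2 * (1 / d₂ ^ m) * ε * F (-m) 0 s * F m k s ≤
          ((1 / d₂ ^ m) ^ 2 * F (-m) (-m) s + 2 * (1 / d₂ ^ m) * ε * F (-m) 0 s +
            ε ^ 2 * F 0 0 s) * F m k s := by
        refine mul_le_mul_of_nonneg_right ?_ (h.hn _ _ _)
        have h5 := mul_nonneg (sq_nonneg (1 / d₂ ^ m)) (h.hn (-m) (-m) s)
        have h6 := mul_nonneg (sq_nonneg ε) (h.hn 0 0 s)
        linarith
      have h5 := h4.trans h3
      have h6 := mul_le_mul_of_nonneg_right h5 (by positivity : (0 : ℝ) ≤ 1 / d₁ ^ m)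
      rw [h.s1 (-m) m s, h.s1 0 m s] at h6
      calc _ = 2 * (1 / d₂ ^ m) * ε * F (-m) 0 s * F m k s * (1 / d₁ ^ m) := by
            field_simp
        _ ≤ _ := h6
        _ = _ := by field_simp
    have h3 : Tendsto (fun m : ℕ => 2 * ε * (F (-m) 0 s / d₂ ^ m) * (F m k s / d₁ ^ m)) atTop
        (𝓝 (2 * ε * q 0 s * p k s)) := ((h.L2 0 s).const_mul _).mul (h.L1 k s)
    have h4 : Tendsto (fun m : ℕ =>
        K * (F m (-m) s / (d₁ ^ m * d₂ ^ m) + ε * (F m 0 s / d₁ ^ m)) *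
          (F (-m) k s / d₂ ^ m + ε * F 0 k s)) atTop
        (𝓝 (K * (σ s + ε * p 0 s) * (q k s + ε * F 0 k s))) :=
      (((h.diag s).add ((h.L1 0 s).const_mul _)).const_mul _).mul ((h.L2 k s).add_const _)
    have h5 := le_of_tendsto_of_tendsto' h3 h4 h2
    rw [hs, zero_add] at h5
    have h6 : ε * (2 * q 0 s * p k s) ≤ ε * (K * p 0 s * (q k s + ε * F 0 k s)) := by
      calc _ = 2 * ε * q 0 s * p k s := by ring
        _ ≤ _ := h5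
        _ = _ := by ring
    exact le_of_mul_le_mul_left h6 hε
  have h2 : Tendsto (fun n : ℕ => K * p 0 s * (q k s + 1 / ((n : ℝ) + 1) * F 0 k s)) atTop
      (𝓝 (K * p 0 s * (q k s + 0 * F 0 k s))) :=
    ((tendsto_one_div_add_atTop_nhds_zero_nat.mul_const _).const_add _).const_mul _
  rw [zero_mul, add_zero] at h2
  exact ge_of_tendsto' h2 fun n => h1 _ (by positivity)

private theorem σ_pos (h : NumD F K d₁ d₂ p q σ) (hp : 0 < p 0 0) (hq : 0 < q 0 0) :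
    0 < σ 0 := by
  have hd1 := h.hd₁
  have hd2 := h.hd₂
  have hσ : 0 ≤ σ 0 := ge_of_tendsto' (h.diag 0) fun n =>
    div_nonneg (h.hn _ _ _) (by positivity)
  rcases hσ.lt_or_eq with h0 | h0
  · exact h0
  exfalso
  have h0' : σ 0 = 0 := h0.symm
  -- choose `N`
  have e1 : ∀ᶠ n : ℕ in atTop, 0 < F n 0 0 / d₁ ^ n := (h.L1 0 0).eventually_const_lt hp
  have hdd : 1 < d₁ * d₂ := by nlinarith
  have e2 : ∀ᶠ n : ℕ in atTop, K ^ 2 < (d₁ * d₂) ^ n :=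
    (tendsto_pow_atTop_atTop_of_one_lt hdd).eventually_gt_atTop _
  obtain ⟨N, h1, h2⟩ := (e1.and e2).exists
  have hN1 : 0 < d₁ ^ N := by positivity
  have hN2 : 0 < d₂ ^ N := by positivity
  have h1' : 0 < F N 0 0 := by
    rcases (div_pos_iff.1 h1) with h3 | h3
    · exact h3.1
    · linarith [h3.2]
  have hs := h.σ_sh N h0'
  have E1 := h.main_ineq (-N) 0 h0'
  have E2 := h.main_ineq (-N) (-N) hs
  have E3 : F (-N) (-N) 0 * p 0 0 ≤ K * p (-N) 0 * F (-N) 0 0 := by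
    have h3 : ∀ m : ℕ, F (-N) (-N) 0 * (F m 0 0 / d₁ ^ m) ≤
        K * (F m (-N) 0 / d₁ ^ m) * F (-N) 0 0 := by
      intro m
      have hm1 : 0 < d₁ ^ m := by positivity
      have h4 := h.hr 1 0 zero_le_one le_rfl (-N) 0 m 0 0
      have h5 := mul_le_mul_of_nonneg_right h4 (by positivity : (0 : ℝ) ≤ 1 / d₁ ^ m)
      rw [h.s1 (-N) m 0] at h5
      calc _ = (1 ^ 2 * F (-N) (-N) 0 + 2 * 1 * 0 * F (-N) 0 0 + 0 ^ 2 * F 0 0 0) *
            F m 0 0 * (1 / d₁ ^ m) := by ring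
        _ ≤ _ := h5
        _ = _ := by ring
    exact le_of_tendsto_of_tendsto' ((h.L1 0 0).const_mul _)
      (((h.L1 (-N) 0).const_mul _).mul_const _) h3
  have hFN : F (-N) (-N) 0 = F N 0 0 := by
    rw [← h.sh N (-N) (-N) 0, h.s2, h.s1]
    congr 1 <;> ring
  have hpN : 0 < p (-N) 0 := by
    refine lt_of_le_of_ne (h.p_nn _ _) fun h3 => ?_
    rw [← h3, hFN] at E3
    have := mul_pos h1' hp
    linarith [this]
  have hqN : 0 < q (-N) 0 := by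
    refine lt_of_le_of_ne (h.q_nn _ _) fun h3 => ?_
    rw [← h3] at E1
    have := mul_pos hq hpN
    linarith [this]
  rw [h.p_sh N, h.q_symm 0 (-N), h.p_symm 0 (-N)] at E2
  have hqs := h.q_sh N
  have hqN' : 0 ≤ q (-N) (-N) := h.q_nn _ _
  have hX : 0 < p (-N) 0 * q (-N) 0 := mul_pos hpN hqN
  have h5 : (2 * q 0 0 * p (-N) 0) * (2 * q (-N) 0 * (d₁ ^ N * p 0 0)) ≤
      (K * p 0 0 * q (-N) 0) * (K * p (-N) 0 * q (-N) (-N)) := by
    refine mul_le_mul E1 E2 (by positivity) (le_trans (by positivity) E1)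
  have h6 : (4 * q 0 0 * d₁ ^ N * p 0 0) * (p (-N) 0 * q (-N) 0) ≤
      (K ^ 2 * p 0 0 * q (-N) (-N)) * (p (-N) 0 * q (-N) 0) := by
    calc _ = (2 * q 0 0 * p (-N) 0) * (2 * q (-N) 0 * (d₁ ^ N * p 0 0)) := by ring
      _ ≤ _ := h5
      _ = _ := by ring
  have h7 := le_of_mul_le_mul_right h6 hX
  have h8 := mul_le_mul_of_nonneg_right h7 hN2.le
  have h9 : (4 * (d₁ * d₂) ^ N) * (p 0 0 * q 0 0) ≤ K ^ 2 * (p 0 0 * q 0 0) := by
    calc _ = 4 * q 0 0 * d₁ ^ N * p 0 0 * d₂ ^ N := by rw [mul_pow]; ring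
      _ ≤ _ := h8
      _ = K ^ 2 * p 0 0 * (q (-N) (-N) * d₂ ^ N) := by ring
      _ = _ := by rw [hqs]; ring
  have h10 := le_of_mul_le_mul_right h9 (mul_pos hp hq)
  have h11 : 0 < (d₁ * d₂) ^ N := by positivity
  linarith

private theorem fin (h : NumD F K d₁ d₂ p q σ) (hp : 0 < p 0 0) (hq : 0 < q 0 0) (M : ℝ) :
    ∃ κ : ℝ, 0 < κ ∧ ∃ N₀ : ℕ, ∀ n : ℕ, N₀ ≤ n →
      M * (2 * (κ * (min d₁ d₂) ^ n) * (F n 0 0 + F (-n) 0 0) +
        (κ * (min d₁ d₂) ^ n) ^ 2 * F 0 0 0) <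
      F n n 0 + 2 * F n (-n) 0 + F (-n) (-n) 0 := by
  have hd1 := h.hd₁
  have hd2 := h.hd₂
  have hσ := h.σ_pos hp hq
  obtain ⟨Q, hQ⟩ : ∃ Q, Q = p 0 0 + q 0 0 + 2 := ⟨_, rfl⟩
  obtain ⟨e, he⟩ : ∃ e, e = F 0 0 0 := ⟨_, rfl⟩
  have he0 : 0 ≤ e := he ▸ h.hn 0 0 0
  have hQ0 : 0 < Q := by linarith
  obtain ⟨S, hS⟩ : ∃ S, S = |M| * (2 * Q + e) + 1 := ⟨_, rfl⟩
  have hS0 : 0 < S := by rw [hS]; positivity
  obtain ⟨κ, hκ⟩ : ∃ κ, κ = min 1 (σ 0 / (2 * S)) := ⟨_, rfl⟩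
  have hκ0 : 0 < κ := by
    rw [hκ]
    exact lt_min one_pos (by positivity)
  have hκ1 : κ ≤ 1 := hκ ▸ min_le_left _ _
  have hκ2 : κ * S ≤ σ 0 / 2 := by
    have h1 : κ ≤ σ 0 / (2 * S) := hκ ▸ min_le_right _ _
    calc κ * S ≤ σ 0 / (2 * S) * S := mul_le_mul_of_nonneg_right h1 hS0.le
      _ = σ 0 / 2 := by field_simp
  have e1 : ∀ᶠ n : ℕ in atTop, F n 0 0 / d₁ ^ n < p 0 0 + 1 :=
    (h.L1 0 0).eventually_lt_const (by linarith)
  have e2 : ∀ᶠ n : ℕ in atTop, F (-n) 0 0 / d₂ ^ n < q 0 0 + 1 :=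
    (h.L2 0 0).eventually_lt_const (by linarith)
  have e3 : ∀ᶠ n : ℕ in atTop, σ 0 / 2 < F n (-n) 0 / (d₁ ^ n * d₂ ^ n) :=
    (h.diag 0).eventually_const_lt (by linarith)
  obtain ⟨N₀, hN⟩ := eventually_atTop.1 (e1.and (e2.and e3))
  refine ⟨κ, hκ0, N₀, fun n hn => ?_⟩
  obtain ⟨h1, h2, h3⟩ := hN n hn
  have hn1 : 0 < d₁ ^ n := by positivity
  have hn2 : 0 < d₂ ^ n := by positivity
  rw [div_lt_iff₀ hn1] at h1
  rw [div_lt_iff₀ hn2] at h2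
  rw [lt_div_iff₀ (mul_pos hn1 hn2)] at h3
  obtain ⟨D, hD⟩ : ∃ D, D = d₁ ^ n * d₂ ^ n := ⟨_, rfl⟩
  obtain ⟨m, hm⟩ : ∃ m, m = (min d₁ d₂) ^ n := ⟨_, rfl⟩
  have hmin : 0 < min d₁ d₂ := lt_min (by linarith) (by linarith)
  have hm0 : 0 < m := by rw [hm]; positivity
  have hm1 : m ≤ d₁ ^ n := by rw [hm]; exact pow_le_pow_left₀ hmin.le (min_le_left _ _) n
  have hm2 : m ≤ d₂ ^ n := by rw [hm]; exact pow_le_pow_left₀ hmin.le (min_le_right _ _) n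
  have hD1 : m * d₁ ^ n ≤ D := by
    rw [hD, mul_comm (d₁ ^ n)]
    exact mul_le_mul_of_nonneg_right hm2 hn1.le
  have hD2 : m * d₂ ^ n ≤ D := by
    rw [hD]
    exact mul_le_mul_of_nonneg_right hm1 hn2.le
  have hD3 : m ^ 2 ≤ D := by
    rw [hD, sq]
    exact mul_le_mul hm1 hm2 hm0.le hn1.le
  have hD0 : 0 < D := by rw [hD]; positivity
  rw [← hm, ← he]
  rw [← hD] at h3
  have hF1 := h.hn n 0 0
  have hF2 := h.hn (-n) 0 0
  have hF3 := h.hn n n 0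
  have hF4 := h.hn (-n) (-n) 0
  have hp0 := hp.le
  have hq0 := hq.le
  have h4 : m * (F n 0 0 + F (-n) 0 0) ≤ Q * D := by
    calc m * (F n 0 0 + F (-n) 0 0) ≤
          m * ((p 0 0 + 1) * d₁ ^ n + (q 0 0 + 1) * d₂ ^ n) :=
          mul_le_mul_of_nonneg_left (by linarith) hm0.le
      _ = (p 0 0 + 1) * (m * d₁ ^ n) + (q 0 0 + 1) * (m * d₂ ^ n) := by ring
      _ ≤ (p 0 0 + 1) * D + (q 0 0 + 1) * D :=
          add_le_add (mul_le_mul_of_nonneg_left hD1 (by linarith))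
            (mul_le_mul_of_nonneg_left hD2 (by linarith))
      _ = Q * D := by rw [hQ]; ring
  have h5 : 2 * (κ * m) * (F n 0 0 + F (-n) 0 0) + (κ * m) ^ 2 * e ≤
      κ * (2 * Q + e) * D := by
    have h6 : 2 * (κ * m) * (F n 0 0 + F (-n) 0 0) ≤ 2 * κ * (Q * D) := by
      calc _ = 2 * κ * (m * (F n 0 0 + F (-n) 0 0)) := by ring
        _ ≤ _ := mul_le_mul_of_nonneg_left h4 (by linarith)
    have h7 : (κ * m) ^ 2 * e ≤ κ * e * D := by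
      calc (κ * m) ^ 2 * e = κ * (κ * (m ^ 2 * e)) := by ring
        _ ≤ κ * (1 * (D * e)) := by
            refine mul_le_mul_of_nonneg_left ?_ hκ0.le
            exact mul_le_mul hκ1 (mul_le_mul_of_nonneg_right hD3 he0) (by positivity) zero_le_one
        _ = _ := by ring
    calc _ ≤ 2 * κ * (Q * D) + κ * e * D := add_le_add h6 h7
      _ = _ := by ring
  have h6 : M * (2 * (κ * m) * (F n 0 0 + F (-n) 0 0) + (κ * m) ^ 2 * e) ≤
      |M| * (κ * (2 * Q + e) * D) := by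
    have h7 : 0 ≤ 2 * (κ * m) * (F n 0 0 + F (-n) 0 0) + (κ * m) ^ 2 * e := by positivity
    exact (mul_le_mul_of_nonneg_right (le_abs_self M) h7).trans
      (mul_le_mul_of_nonneg_left h5 (abs_nonneg _))
  have h7 : |M| * (κ * (2 * Q + e) * D) ≤ σ 0 / 2 * D := by
    calc |M| * (κ * (2 * Q + e) * D) = κ * (|M| * (2 * Q + e)) * D := by ring
      _ ≤ κ * S * D := by
          refine mul_le_mul_of_nonneg_right (mul_le_mul_of_nonneg_left ?_ hκ0.le) hD0.le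
          rw [hS]; linarith
      _ ≤ _ := mul_le_mul_of_nonneg_right hκ2 hD0.le
  have h8 : 0 < σ 0 / 2 * D := by positivity
  linarith

end NumD

/-! ### The integer indices -/

private theorem om_succ (A : Matrix ι ι ℤ) (n : ℕ) :
    om A (n + 1) = Matrix.vecMul (om A n) (A.map (Int.cast : ℤ → ℝ)) := by
  funext i
  simp only [om, Matrix.vecMul, dotProduct, Matrix.map_apply, Finset.sum_mul]
  rw [Finset.sum_comm]
  refine Finset.sum_congr rfl fun j _ => ?_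
  rw [pow_succ, Matrix.mul_apply]
  push_cast
  rfl

private theorem om_inv (A B : Matrix ι ι ℤ) (hBA : B * A = 1) (n : ℕ) :
    om B n = Matrix.vecMul (om B (n + 1)) (A.map (Int.cast : ℤ → ℝ)) := by
  funext i
  simp only [om, Matrix.vecMul, dotProduct, Matrix.map_apply, Finset.sum_mul]
  rw [Finset.sum_comm]
  refine Finset.sum_congr rfl fun j _ => ?_
  have h1 : B ^ n = B ^ (n + 1) * A := by rw [pow_succ, mul_assoc, hBA, mul_one]
  rw [h1, Matrix.mul_apply]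
  push_cast
  rfl

private theorem om_zero (A B : Matrix ι ι ℤ) : om A 0 = om B 0 := by
  funext i
  simp only [om, pow_zero]

private def omz (A B : Matrix ι ι ℤ) : ℤ → ι → ℝ
  | Int.ofNat n => om A n
  | Int.negSucc n => om B (n + 1)

private theorem omz_nat (A B : Matrix ι ι ℤ) (n : ℕ) : omz A B (n : ℤ) = om A n := rfl

private theorem omz_neg (A B : Matrix ι ι ℤ) (n : ℕ) : omz A B (-(n : ℤ)) = om B n := by
  cases n with
  | zero => exact om_zero A B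
  | succ n => rfl

private theorem omz_succ (A B : Matrix ι ι ℤ) (hBA : B * A = 1) (j : ℤ) :
    omz A B (j + 1) = Matrix.vecMul (omz A B j) (A.map (Int.cast : ℤ → ℝ)) := by
  obtain ⟨n, rfl | rfl⟩ := j.eq_nat_or_neg
  · have h1 : ((n : ℤ) + 1) = ((n + 1 : ℕ) : ℤ) := by push_cast; ring
    rw [h1, omz_nat, omz_nat, om_succ]
  · cases n with
    | zero =>
      have h1 : (-((0 : ℕ) : ℤ) + 1) = ((1 : ℕ) : ℤ) := by simp
      rw [h1, omz_nat, omz_neg, om_zero B A]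
      exact om_succ A 0
    | succ n =>
      have h1 : (-((n + 1 : ℕ) : ℤ) + 1) = -(n : ℤ) := by push_cast; ring
      rw [h1, omz_neg, omz_neg]
      exact om_inv A B hBA n

private theorem tri_sh (A B : Matrix ι ι ℤ) (hBA : B * A = 1) (t : ι → ι → ι → ℝ)
    (hinv : ∀ u v w : ι → ℝ, Tri t (Matrix.vecMul u (A.map (Int.cast : ℤ → ℝ)))
        (Matrix.vecMul v (A.map (Int.cast : ℤ → ℝ)))
        (Matrix.vecMul w (A.map (Int.cast : ℤ → ℝ))) = Tri t u v w) (m i j k : ℤ) :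
    Tri t (omz A B (i + m)) (omz A B (j + m)) (omz A B (k + m)) =
      Tri t (omz A B i) (omz A B j) (omz A B k) := by
  have h1 : ∀ (n : ℕ) (i j k : ℤ),
      Tri t (omz A B (i + n)) (omz A B (j + n)) (omz A B (k + n)) =
        Tri t (omz A B i) (omz A B j) (omz A B k) := by
    intro n
    induction n with
    | zero => intro i j k; simp
    | succ n ih =>
      intro i j k
      have h2 : ∀ a : ℤ, a + ((n + 1 : ℕ) : ℤ) = (a + n) + 1 := by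
        intro a; push_cast; ring
      rw [h2, h2, h2, omz_succ A B hBA, omz_succ A B hBA, omz_succ A B hBA, hinv, ih]
  obtain ⟨n, rfl | rfl⟩ := m.eq_nat_or_neg
  · exact h1 n i j k
  · have h2 := h1 n (i + -n) (j + -n) (k + -n)
    simp only [neg_add_cancel_right] at h2
    exact h2.symm

omit [DecidableEq ι] in
private theorem tri_lin (t : ι → ι → ι → ℝ)
    (hs₁ : ∀ i j k, t i j k = t j i k) (α β : ℝ) (a b v w : ι → ℝ) :
    Tri t (α • a + β • b) v w = α * Tri t a v w + β * Tri t b v w ∧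
    Tri t (α • a + β • b) (α • a + β • b) w =
      α ^ 2 * Tri t a a w + 2 * α * β * Tri t a b w + β ^ 2 * Tri t b b w := by
  have h1 : ∀ v, Tri t (α • a + β • b) v w = α * Tri t a v w + β * Tri t b v w := by
    intro v
    rw [tri_add₁, tri_smul₁, tri_smul₁]
  refine ⟨h1 v, ?_⟩
  rw [h1, tri_swap₁ t hs₁ a, tri_swap₁ t hs₁ b (α • a + β • b), h1, h1, tri_swap₁ t hs₁ b a]
  ring

private theorem omz_nonneg (A B : Matrix ι ι ℤ) (hBA : B * A = 1) (t : ι → ι → ι → ℝ)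
    (hinv : ∀ u v w : ι → ℝ, Tri t (Matrix.vecMul u (A.map (Int.cast : ℤ → ℝ)))
        (Matrix.vecMul v (A.map (Int.cast : ℤ → ℝ)))
        (Matrix.vecMul w (A.map (Int.cast : ℤ → ℝ))) = Tri t u v w)
    (hn : ∀ i j k : ℕ, 0 ≤ Tri t (om A i) (om A j) (om A k)) (i j k : ℤ) :
    0 ≤ Tri t (omz A B i) (omz A B j) (omz A B k) := by
  obtain ⟨m, hm⟩ : ∃ m : ℕ, m = i.natAbs + j.natAbs + k.natAbs := ⟨_, rfl⟩
  rw [← tri_sh A B hBA t hinv m i j k]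
  obtain ⟨i', hi⟩ := Int.eq_ofNat_of_zero_le (by omega : 0 ≤ i + m)
  obtain ⟨j', hj⟩ := Int.eq_ofNat_of_zero_le (by omega : 0 ≤ j + m)
  obtain ⟨k', hk⟩ := Int.eq_ofNat_of_zero_le (by omega : 0 ≤ k + m)
  rw [hi, hj, hk]
  exact hn i' j' k'

private theorem omz_hr_nat (A B : Matrix ι ι ℤ) (hBA : B * A = 1) (t : ι → ι → ι → ℝ)
    (hs₁ : ∀ i j k, t i j k = t j i k)
    (hinv : ∀ u v w : ι → ℝ, Tri t (Matrix.vecMul u (A.map (Int.cast : ℤ → ℝ)))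
        (Matrix.vecMul v (A.map (Int.cast : ℤ → ℝ)))
        (Matrix.vecMul w (A.map (Int.cast : ℤ → ℝ))) = Tri t u v w)
    (K : ℝ) (hr : ∀ (n : ℕ) (α : Fin (n + 1) → ℕ) (j k l : Fin (n + 1)),
      Tri t (∑ i : Fin (n + 1), (α i : ℝ) • om A i) (∑ i : Fin (n + 1), (α i : ℝ) • om A i)
          (om A l) * Tri t (om A j) (om A k) (om A l) ≤
        K * Tri t (∑ i : Fin (n + 1), (α i : ℝ) • om A i) (om A j) (om A l) *
          Tri t (∑ i : Fin (n + 1), (α i : ℝ) • om A i) (om A k) (om A l))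
    (F : ℤ → ℤ → ℤ → ℝ)
    (hF : ∀ i j k, F i j k = Tri t (omz A B i) (omz A B j) (omz A B k))
    (α β : ℕ) (i j k l s : ℤ) :
    ((α : ℝ) ^ 2 * F i i s + 2 * α * β * F i j s + (β : ℝ) ^ 2 * F j j s) * F k l s ≤
        K * (α * F i k s + β * F j k s) * (α * F i l s + β * F j l s) := by
  obtain ⟨m, hm⟩ : ∃ m : ℕ, m = i.natAbs + j.natAbs + k.natAbs + l.natAbs + s.natAbs :=
    ⟨_, rfl⟩
  have hsh : ∀ a b c : ℤ, F a b c = F (a + m) (b + m) (c + m) := by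
    intro a b c
    rw [hF, hF, tri_sh A B hBA t hinv]
  obtain ⟨i', hi⟩ := Int.eq_ofNat_of_zero_le (by omega : 0 ≤ i + m)
  obtain ⟨j', hj⟩ := Int.eq_ofNat_of_zero_le (by omega : 0 ≤ j + m)
  obtain ⟨k', hk⟩ := Int.eq_ofNat_of_zero_le (by omega : 0 ≤ k + m)
  obtain ⟨l', hl⟩ := Int.eq_ofNat_of_zero_le (by omega : 0 ≤ l + m)
  obtain ⟨s', hs⟩ := Int.eq_ofNat_of_zero_le (by omega : 0 ≤ s + m)
  have hF' : ∀ a b c : ℕ, F a b c = Tri t (om A a) (om A b) (om A c) := fun a b c => hF _ _ _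
  rw [hsh i i s, hsh i j s, hsh j j s, hsh k l s, hsh i k s, hsh j k s, hsh i l s, hsh j l s,
    hi, hj, hk, hl, hs]
  simp only [hF']
  obtain ⟨n, hn⟩ : ∃ n : ℕ, n = i' + j' + k' + l' + s' := ⟨_, rfl⟩
  obtain ⟨x, hx⟩ : ∃ x : Fin (n + 1), (x : ℕ) = i' := ⟨⟨i', by omega⟩, rfl⟩
  obtain ⟨y, hy⟩ : ∃ y : Fin (n + 1), (y : ℕ) = j' := ⟨⟨j', by omega⟩, rfl⟩
  obtain ⟨z, hz⟩ : ∃ z : Fin (n + 1), (z : ℕ) = k' := ⟨⟨k', by omega⟩, rfl⟩
  obtain ⟨w, hw⟩ : ∃ w : Fin (n + 1), (w : ℕ) = l' := ⟨⟨l', by omega⟩, rfl⟩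
  obtain ⟨v, hv⟩ : ∃ v : Fin (n + 1), (v : ℕ) = s' := ⟨⟨s', by omega⟩, rfl⟩
  have h1 := hr n (Pi.single x α + Pi.single y β) z w v
  have h2 : ∑ a : Fin (n + 1), (((Pi.single x α + Pi.single y β : Fin (n + 1) → ℕ) a : ℕ) : ℝ) •
      om A a = (α : ℝ) • om A i' + (β : ℝ) • om A j' := by
    have h3 : ∀ (x : Fin (n + 1)) (α : ℕ),
        ∑ a : Fin (n + 1), (((Pi.single x α : Fin (n + 1) → ℕ) a : ℕ) : ℝ) • om A a =
          (α : ℝ) • om A x := by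
      intro x α
      rw [Finset.sum_eq_single x]
      · rw [Pi.single_eq_same]
      · intro b _ hb
        rw [Pi.single_eq_of_ne hb]
        simp
      · intro hx
        exact absurd (Finset.mem_univ x) hx
    have h4 : ∀ a : Fin (n + 1),
        (((Pi.single x α + Pi.single y β : Fin (n + 1) → ℕ) a : ℕ) : ℝ) • om A a =
        (((Pi.single x α : Fin (n + 1) → ℕ) a : ℕ) : ℝ) • om A a +
          (((Pi.single y β : Fin (n + 1) → ℕ) a : ℕ) : ℝ) • om A a := by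
      intro a
      rw [Pi.add_apply, Nat.cast_add, add_smul]
    rw [Finset.sum_congr rfl fun a _ => h4 a, Finset.sum_add_distrib, h3, h3, hx, hy]
  rw [h2, hz, hw, hv, (tri_lin t hs₁ α β _ _ (om A k') _).2, (tri_lin t hs₁ α β _ _ (om A k') _).1,
    (tri_lin t hs₁ α β _ _ (om A l') _).1] at h1
  exact h1

private theorem hr_real (F : ℤ → ℤ → ℤ → ℝ) (K : ℝ)
    (h : ∀ (α β : ℕ) (i j k l s : ℤ),
      ((α : ℝ) ^ 2 * F i i s + 2 * α * β * F i j s + (β : ℝ) ^ 2 * F j j s) * F k l s ≤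
        K * (α * F i k s + β * F j k s) * (α * F i l s + β * F j l s))
    (α β : ℝ) (hα : 0 ≤ α) (hβ : 0 ≤ β) (i j k l s : ℤ) :
    (α ^ 2 * F i i s + 2 * α * β * F i j s + β ^ 2 * F j j s) * F k l s ≤
        K * (α * F i k s + β * F j k s) * (α * F i l s + β * F j l s) := by
  have hlim : ∀ a : ℝ, 0 ≤ a → Tendsto (fun n : ℕ => (⌊a * (n : ℝ)⌋₊ : ℝ) / n) atTop (𝓝 a) :=
    fun a ha => (tendsto_nat_floor_mul_div_atTop ha).comp tendsto_natCast_atTop_atTop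
  have h1 := hlim α hα
  have h2 := hlim β hβ
  have h3 : Tendsto (fun n : ℕ => (((⌊α * (n : ℝ)⌋₊ : ℝ) / n) ^ 2 * F i i s +
      2 * ((⌊α * (n : ℝ)⌋₊ : ℝ) / n) * ((⌊β * (n : ℝ)⌋₊ : ℝ) / n) * F i j s +
      ((⌊β * (n : ℝ)⌋₊ : ℝ) / n) ^ 2 * F j j s) * F k l s) atTop
      (𝓝 ((α ^ 2 * F i i s + 2 * α * β * F i j s + β ^ 2 * F j j s) * F k l s)) :=
    (((((h1.pow 2).mul_const _).add (((h1.const_mul 2).mul h2).mul_const _)).add
      ((h2.pow 2).mul_const _)).mul_const _)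
  have h4 : Tendsto (fun n : ℕ => K *
      (((⌊α * (n : ℝ)⌋₊ : ℝ) / n) * F i k s + ((⌊β * (n : ℝ)⌋₊ : ℝ) / n) * F j k s) *
      (((⌊α * (n : ℝ)⌋₊ : ℝ) / n) * F i l s + ((⌊β * (n : ℝ)⌋₊ : ℝ) / n) * F j l s)) atTop
      (𝓝 (K * (α * F i k s + β * F j k s) * (α * F i l s + β * F j l s))) :=
    (((h1.mul_const _).add (h2.mul_const _)).const_mul _).mul
      ((h1.mul_const _).add (h2.mul_const _))
  refine le_of_tendsto_of_tendsto h3 h4 ?_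
  filter_upwards [eventually_gt_atTop 0] with n hn
  have hn0 : (0 : ℝ) < n := by exact_mod_cast hn
  have h5 := h ⌊α * (n : ℝ)⌋₊ ⌊β * (n : ℝ)⌋₊ i j k l s
  have h6 := mul_le_mul_of_nonneg_right h5 (by positivity : (0 : ℝ) ≤ 1 / (n : ℝ) ^ 2)
  calc _ = ((⌊α * (n : ℝ)⌋₊ : ℝ) ^ 2 * F i i s +
        2 * (⌊α * (n : ℝ)⌋₊ : ℝ) * (⌊β * (n : ℝ)⌋₊ : ℝ) * F i j s +
        (⌊β * (n : ℝ)⌋₊ : ℝ) ^ 2 * F j j s) * F k l s * (1 / (n : ℝ) ^ 2) := by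
          field_simp
    _ ≤ _ := h6
    _ = _ := by field_simp

private theorem om_bound (A : Matrix ι ι ℤ) (P : Matrix ι ι ℝ) (C r d : ℝ)
    (hA : ∀ (n : ℕ) (i j : ι), |(((A ^ n) i j : ℤ) : ℝ) - d ^ n * P i j| ≤ C * r ^ n) (n : ℕ)
    (i : ι) : |om A n i - d ^ n * ∑ j, P j i| ≤ (Fintype.card ι : ℝ) * (C * r ^ n) := by
  have h1 : om A n i - d ^ n * ∑ j, P j i = ∑ j, ((((A ^ n) j i : ℤ) : ℝ) - d ^ n * P j i) := by
    rw [Finset.sum_sub_distrib, Finset.mul_sum]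
    rfl
  rw [h1]
  refine (Finset.abs_sum_le_sum_abs _ _).trans ?_
  refine (Finset.sum_le_sum fun j _ => hA n j i).trans (le_of_eq ?_)
  rw [Finset.sum_const, Finset.card_univ, nsmul_eq_mul]

private theorem om_lim (A : Matrix ι ι ℤ) (P : Matrix ι ι ℝ) (C r d : ℝ) (hr : 1 ≤ r)
    (hd : r < d)
    (hA : ∀ (n : ℕ) (i j : ι), |(((A ^ n) i j : ℤ) : ℝ) - d ^ n * P i j| ≤ C * r ^ n) :
    Tendsto (fun n : ℕ => (d ^ n)⁻¹ • om A n) atTop (𝓝 fun i => ∑ j, P j i) := by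
  rw [tendsto_pi_nhds]
  intro i
  have hd0 : 0 < d := by linarith
  have h1 : Tendsto (fun n : ℕ => (Fintype.card ι : ℝ) * C * (r / d) ^ n) atTop (𝓝 0) := by
    have h2 := (tendsto_pow_atTop_nhds_zero_of_lt_one (r := r / d) (by positivity)
      ((div_lt_one hd0).2 hd)).const_mul ((Fintype.card ι : ℝ) * C)
    rwa [mul_zero] at h2
  rw [tendsto_iff_norm_sub_tendsto_zero]
  refine squeeze_zero (fun n => norm_nonneg _) (fun n => ?_) h1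
  have hdn : 0 < d ^ n := by positivity
  have h2 := om_bound A P C r d hA n i
  have h3 : ((d ^ n)⁻¹ • om A n) i - ∑ j, P j i = (d ^ n)⁻¹ * (om A n i - d ^ n * ∑ j, P j i) := by
    rw [Pi.smul_apply, smul_eq_mul]
    field_simp
  rw [h3, norm_mul, Real.norm_eq_abs, Real.norm_eq_abs, abs_of_pos (inv_pos.2 hdn)]
  calc (d ^ n)⁻¹ * |om A n i - d ^ n * ∑ j, P j i| ≤
        (d ^ n)⁻¹ * ((Fintype.card ι : ℝ) * (C * r ^ n)) :=
        mul_le_mul_of_nonneg_left h2 (inv_pos.2 hdn).le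
    _ = _ := by rw [div_pow]; field_simp

private theorem tri_pos (A : Matrix ι ι ℤ) (t : ι → ι → ι → ℝ) (P : Matrix ι ι ℝ)
    (C r d K : ℝ) (u : ι → ℝ) (hr : 1 ≤ r) (hd : r < d)
    (hA : ∀ (n : ℕ) (i j : ι), |(((A ^ n) i j : ℤ) : ℝ) - d ^ n * P i j| ≤ C * r ^ n)
    (hn : ∀ n, 0 ≤ Tri t (om A n) u u)
    (hg : ∀ ρ, 0 < ρ → ρ < d → ∀ᶠ n : ℕ in atTop, ρ ^ n ≤ K * (1 + Tri t (om A n) u u)) :
    0 < Tri t (fun i => ∑ j, P j i) u u := by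
  obtain ⟨Ct, hCt, hb⟩ := tri_bound t
  refine num_pos (fun n => Tri t (om A n) u u) _
    (Ct * ((Fintype.card ι : ℝ) * C) * (∑ i, |u i|) * (∑ i, |u i|)) r d K hn ?_ hr hd hg
  intro n
  have h1 : Tri t (om A n) u u - d ^ n * Tri t (fun i => ∑ j, P j i) u u =
      Tri t (om A n + (-d ^ n) • (fun i => ∑ j, P j i)) u u := by
    rw [tri_add₁, tri_smul₁]
    ring
  rw [h1]
  have hu : ∀ i, |u i| ≤ ∑ i, |u i| := fun i =>
    Finset.single_le_sum (f := fun i => |u i|) (fun _ _ => abs_nonneg _) (Finset.mem_univ i)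
  refine (hb _ u u ((Fintype.card ι : ℝ) * (C * r ^ n)) _ _ (fun i => ?_) hu hu).trans
    (le_of_eq (by ring))
  have h2 := om_bound A P C r d hA n i
  have h3 : (om A n + (-d ^ n) • (fun i => ∑ j, P j i)) i = om A n i - d ^ n * ∑ j, P j i := by
    rw [Pi.add_apply, Pi.smul_apply, smul_eq_mul]
    ring
  rw [h3]
  exact h2

theorem num (A B : Matrix ι ι ℤ) (hAB : A * B = 1) (t : ι → ι → ι → ℝ)
    (hs₁ : ∀ i j k, t i j k = t j i k) (hs₂ : ∀ i j k, t i j k = t i k j)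
    (hinv : ∀ u v w : ι → ℝ, Tri t (Matrix.vecMul u (A.map (Int.cast : ℤ → ℝ)))
        (Matrix.vecMul v (A.map (Int.cast : ℤ → ℝ)))
        (Matrix.vecMul w (A.map (Int.cast : ℤ → ℝ))) = Tri t u v w)
    (hn : ∀ i j k : ℕ, 0 ≤ Tri t (om A i) (om A j) (om A k))
    (K : ℝ) (hr : ∀ (n : ℕ) (α : Fin (n + 1) → ℕ) (j k l : Fin (n + 1)),
      Tri t (∑ i : Fin (n + 1), (α i : ℝ) • om A i) (∑ i : Fin (n + 1), (α i : ℝ) • om A i)
          (om A l) * Tri t (om A j) (om A k) (om A l) ≤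
        K * Tri t (∑ i : Fin (n + 1), (α i : ℝ) • om A i) (om A j) (om A l) *
          Tri t (∑ i : Fin (n + 1), (α i : ℝ) • om A i) (om A k) (om A l))
    (d₁ d₂ r₁ r₂ C : ℝ) (hd₁ : 1 < d₁) (hd₂ : 1 < d₂) (h1 : 1 ≤ r₁) (h2 : 1 ≤ r₂)
    (hr₁ : r₁ < d₁) (hr₂ : r₂ < d₂) (P P' : Matrix ι ι ℝ)
    (hA : ∀ (n : ℕ) (i j : ι), |(((A ^ n) i j : ℤ) : ℝ) - d₁ ^ n * P i j| ≤ C * r₁ ^ n)
    (hB : ∀ (n : ℕ) (i j : ι), |(((B ^ n) i j : ℤ) : ℝ) - d₂ ^ n * P' i j| ≤ C * r₂ ^ n)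
    (K₁ : ℝ) (hgA : ∀ ρ, 0 < ρ → ρ < d₁ → ∀ᶠ n : ℕ in atTop,
      ρ ^ n ≤ K₁ * (1 + Tri t (om A n) (om A 0) (om A 0)))
    (hgB : ∀ ρ, 0 < ρ → ρ < d₂ → ∀ᶠ n : ℕ in atTop,
      ρ ^ n ≤ K₁ * (1 + Tri t (om B n) (om B 0) (om B 0))) (M : ℝ) :
    ∃ κ : ℝ, 0 < κ ∧ ∃ N₀ : ℕ, ∀ n : ℕ, N₀ ≤ n →
      M * (2 * (κ * (min d₁ d₂) ^ n) * Tri t (om A (2 * n) + om A 0) (om A n) (om A n) +
        (κ * (min d₁ d₂) ^ n) ^ 2 * Tri t (om A n) (om A n) (om A n)) <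
      Tri t (om A (2 * n) + om A 0) (om A (2 * n) + om A 0) (om A n) := by
  have hBA : B * A = 1 := mul_eq_one_comm.1 hAB
  obtain ⟨F, hF⟩ : ∃ F : ℤ → ℤ → ℤ → ℝ,
      ∀ i j k, F i j k = Tri t (omz A B i) (omz A B j) (omz A B k) := ⟨_, fun _ _ _ => rfl⟩
  obtain ⟨θ, hθ⟩ : ∃ θ : ι → ℝ, θ = fun i => ∑ j, P j i := ⟨_, rfl⟩
  obtain ⟨θ', hθ'⟩ : ∃ θ' : ι → ℝ, θ' = fun i => ∑ j, P' j i := ⟨_, rfl⟩
  have l1 := om_lim A P C r₁ d₁ h1 hr₁ hA
  have l2 := om_lim B P' C r₂ d₂ h2 hr₂ hB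
  rw [← hθ] at l1
  rw [← hθ'] at l2
  have hc := tri_cont t
  have hc3 : ∀ {β : Type} (f : Filter β) (u v w : β → ι → ℝ) (u₀ v₀ w₀ : ι → ℝ),
      Tendsto u f (𝓝 u₀) → Tendsto v f (𝓝 v₀) → Tendsto w f (𝓝 w₀) →
      Tendsto (fun x => Tri t (u x) (v x) (w x)) f (𝓝 (Tri t u₀ v₀ w₀)) := by
    intro β f u v w u₀ v₀ w₀ hu hv hw
    have h3 := (hc.tendsto (u₀, v₀, w₀)).comp (hu.prodMk_nhds (hv.prodMk_nhds hw))
    exact h3
  have hdat : NumD F K d₁ d₂ (fun j l => Tri t θ (omz A B j) (omz A B l))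
      (fun j l => Tri t θ' (omz A B j) (omz A B l)) (fun l => Tri t θ θ' (omz A B l)) := by
    refine ⟨fun i j k => ?_, fun i j k => ?_, fun m i j k => ?_, fun i j k => ?_, ?_, hd₁, hd₂,
      fun j l => ?_, fun j l => ?_, fun l => ?_⟩
    · rw [hF, hF, tri_swap₁ t hs₁]
    · rw [hF, hF, tri_swap₂ t hs₂]
    · rw [hF, hF, tri_sh A B hBA t hinv]
    · rw [hF]
      exact omz_nonneg A B hBA t hinv hn i j k
    · exact hr_real F K (omz_hr_nat A B hBA t hs₁ hinv K hr F hF)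
    · refine (hc3 _ _ _ _ _ _ _ l1 (tendsto_const_nhds (x := omz A B j))
        (tendsto_const_nhds (x := omz A B l))).congr fun n => ?_
      rw [tri_smul₁, hF, omz_nat, inv_mul_eq_div]
    · refine (hc3 _ _ _ _ _ _ _ l2 (tendsto_const_nhds (x := omz A B j))
        (tendsto_const_nhds (x := omz A B l))).congr fun n => ?_
      rw [tri_smul₁, hF, omz_neg, inv_mul_eq_div]
    · have f1 : Tendsto (fun x : ℕ × ℕ => x.1) atTop atTop := by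
        rw [← prod_atTop_atTop_eq]; exact tendsto_fst
      have f2 : Tendsto (fun x : ℕ × ℕ => x.2) atTop atTop := by
        rw [← prod_atTop_atTop_eq]; exact tendsto_snd
      refine (hc3 _ _ _ _ _ _ _ (l1.comp f1) (l2.comp f2)
        (tendsto_const_nhds (x := omz A B l))).congr fun x => ?_
      simp only [Function.comp]
      rw [tri_smul₁, tri_swap₁ t hs₁, tri_smul₁, hF, omz_nat, omz_neg,
        tri_swap₁ t hs₁ (om A x.1)]
      rw [div_eq_mul_inv, mul_inv]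
      ring
  have hp : 0 < Tri t θ (omz A B 0) (omz A B 0) := by
    rw [hθ]
    exact tri_pos A t P C r₁ d₁ K₁ (om A 0) h1 hr₁ hA (fun n => hn n 0 0) hgA
  have hq : 0 < Tri t θ' (omz A B 0) (omz A B 0) := by
    rw [hθ']
    have h3 : omz A B 0 = om B 0 := om_zero A B
    rw [h3]
    refine tri_pos B t P' C r₂ d₂ K₁ (om B 0) h2 hr₂ hB (fun n => ?_) hgB
    have h4 := omz_nonneg A B hBA t hinv hn (-n) 0 0
    rwa [omz_neg, h3] at h4
  obtain ⟨κ, hκ, N₀, hN⟩ := hdat.fin hp hq M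
  refine ⟨κ, hκ, N₀, fun n hn' => ?_⟩
  have h3 := hN n hn'
  have hsh : ∀ a b c : ℤ, F a b c = F (a + n) (b + n) (c + n) := by
    intro a b c
    rw [hdat.sh]
  have hone : ∀ (a b : ι → ℝ) (v w : ι → ℝ), Tri t (a + b) v w = Tri t a v w + Tri t b v w :=
    tri_add₁ t
  have g1 : Tri t (om A (2 * n) + om A 0) (om A n) (om A n) = F n 0 0 + F (-n) 0 0 := by
    rw [hone, hsh n 0 0, hsh (-n) 0 0, hF, hF]
    have e1 : (n : ℤ) + n = ((2 * n : ℕ) : ℤ) := by push_cast; ring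
    have e2 : -(n : ℤ) + n = ((0 : ℕ) : ℤ) := by simp
    rw [e1, e2, zero_add]
    rfl
  have g2 : Tri t (om A n) (om A n) (om A n) = F 0 0 0 := by
    rw [hsh 0 0 0, hF, zero_add]
    rfl
  have g3 : Tri t (om A (2 * n) + om A 0) (om A (2 * n) + om A 0) (om A n) =
      F n n 0 + 2 * F n (-n) 0 + F (-n) (-n) 0 := by
    have h4 := (tri_lin t hs₁ 1 1 (om A (2 * n)) (om A 0) (om A n) (om A n)).2
    rw [one_smul, one_smul] at h4
    rw [h4, hsh n n 0, hsh n (-n) 0, hsh (-n) (-n) 0, hF, hF, hF]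
    have e1 : (n : ℤ) + n = ((2 * n : ℕ) : ℤ) := by push_cast; ring
    have e2 : -(n : ℤ) + n = ((0 : ℕ) : ℤ) := by simp
    rw [e1, e2, zero_add, omz_nat, omz_nat, omz_nat]
    ring
  rw [g1, g2, g3]
  exact h3

/-- The case where the inverse has a larger growth. -/
theorem num' (A B : Matrix ι ι ℤ) (hAB : A * B = 1) (t : ι → ι → ι → ℝ)
    (hs₁ : ∀ i j k, t i j k = t j i k) (hs₂ : ∀ i j k, t i j k = t i k j)
    (hinv : ∀ u v w : ι → ℝ, Tri t (Matrix.vecMul u (A.map (Int.cast : ℤ → ℝ)))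
        (Matrix.vecMul v (A.map (Int.cast : ℤ → ℝ)))
        (Matrix.vecMul w (A.map (Int.cast : ℤ → ℝ))) = Tri t u v w)
    (d₁ d₂ C : ℝ) (hd₁ : 1 < d₁) (hd₂ : d₁ < d₂)
    (hA : ∀ (n : ℕ) (i j : ι), |(((A ^ n) i j : ℤ) : ℝ)| ≤ C * d₁ ^ n)
    (K₁ : ℝ) (hK₁ : 0 ≤ K₁) (hgB : ∀ ρ, 0 < ρ → ρ < d₂ → ∀ᶠ n : ℕ in atTop,
      ρ ^ n ≤ K₁ * (1 + Tri t (om B n) (om B 0) (om B 0))) (M : ℝ) :
    ∃ κ ρ : ℝ, 0 < κ ∧ 1 < ρ ∧ ∃ N₀ : ℕ, ∀ n : ℕ, N₀ ≤ n →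
      M * (2 * (κ * ρ ^ n) * Tri t (om A (2 * n)) (om A n) (om A n) +
        (κ * ρ ^ n) ^ 2 * Tri t (om A n) (om A n) (om A n)) <
      Tri t (om A (2 * n)) (om A (2 * n)) (om A n) := by
  have hBA : B * A = 1 := mul_eq_one_comm.1 hAB
  obtain ⟨F, hF⟩ : ∃ F : ℤ → ℤ → ℤ → ℝ,
      ∀ i j k, F i j k = Tri t (omz A B i) (omz A B j) (omz A B k) := ⟨_, fun _ _ _ => rfl⟩
  have hsh : ∀ (m a b c : ℤ), F a b c = F (a + m) (b + m) (c + m) := by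
    intro m a b c
    rw [hF, hF, tri_sh A B hBA t hinv]
  -- the bound for `T(ω n, 1, 1)`
  obtain ⟨Ct, hCt, hb⟩ := tri_bound t
  obtain ⟨u, hu⟩ : ∃ u : ι → ℝ, u = om A 0 := ⟨_, rfl⟩
  have hui : ∀ i, |u i| ≤ ∑ i, |u i| := fun i =>
    Finset.single_le_sum (f := fun i => |u i|) (fun _ _ => abs_nonneg _) (Finset.mem_univ i)
  obtain ⟨C', hC'⟩ : ∃ C' : ℝ, C' =
    |Ct * ((Fintype.card ι : ℝ) * C) * (∑ i, |u i|) * (∑ i, |u i|)| := ⟨_, rfl⟩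
  have hC'0 : 0 ≤ C' := by rw [hC']; exact abs_nonneg _
  have hd0 : 0 < d₁ := by linarith
  have hF1 : ∀ n : ℕ, |F n 0 0| ≤ C' * d₁ ^ n := by
    intro n
    have h1 : ∀ i, |om A n i| ≤ (Fintype.card ι : ℝ) * (C * d₁ ^ n) := by
      intro i
      refine (Finset.abs_sum_le_sum_abs _ _).trans ?_
      refine (Finset.sum_le_sum fun j _ => hA n j i).trans (le_of_eq ?_)
      rw [Finset.sum_const, Finset.card_univ, nsmul_eq_mul]
    have h2 := hb (om A n) u u _ _ _ h1 hui hui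
    have h3 : F n 0 0 = Tri t (om A n) u u := by
      rw [hF, hu]
      rfl
    rw [h3]
    refine h2.trans ?_
    rw [hC']
    calc _ = Ct * ((Fintype.card ι : ℝ) * C) * (∑ i, |u i|) * (∑ i, |u i|) * d₁ ^ n := by ring
      _ ≤ _ := mul_le_mul_of_nonneg_right (le_abs_self _) (by positivity)
  obtain ⟨r, hr⟩ : ∃ r : ℝ, r = (d₁ + d₂) / 2 := ⟨_, rfl⟩
  have hr1 : d₁ < r := by linarith
  have hr2 : r < d₂ := by linarith
  have hr0 : 1 < r := by linarith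
  have hrp : 0 < r := by linarith
  obtain ⟨ρ, hρ⟩ : ∃ ρ : ℝ, ρ = min (r / d₁) (Real.sqrt r) := ⟨_, rfl⟩
  have hρ1 : 1 < ρ := by
    rw [hρ]
    refine lt_min ((one_lt_div hd0).2 hr1) ?_
    rw [Real.lt_sqrt (by norm_num)]
    simpa using hr0
  have hρ2 : ∀ n : ℕ, ρ ^ n * d₁ ^ n ≤ r ^ n := by
    intro n
    rw [← mul_pow]
    refine pow_le_pow_left₀ (by positivity) ?_ n
    have h3 : ρ ≤ r / d₁ := hρ ▸ min_le_left _ _
    rwa [le_div_iff₀ hd0] at h3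
  have hρ3 : ∀ n : ℕ, (ρ ^ n) ^ 2 ≤ r ^ n := by
    intro n
    have h3 : ρ ≤ Real.sqrt r := hρ ▸ min_le_right _ _
    have h4 : ρ ^ 2 ≤ r := by
      calc ρ ^ 2 ≤ (Real.sqrt r) ^ 2 := pow_le_pow_left₀ (by linarith) h3 2
        _ = r := Real.sq_sqrt hrp.le
    rw [← pow_mul, mul_comm n 2, pow_mul]
    exact pow_le_pow_left₀ (by positivity) h4 n
  -- the lower bound
  have hev := hgB r hrp hr2
  have hK0 : 0 < K₁ := by
    obtain ⟨n, hn⟩ := hev.exists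
    rcases hK₁.lt_or_eq with h | h
    · exact h
    · rw [← h, zero_mul] at hn
      have : 0 < r ^ n := by positivity
      linarith
  have hev2 : ∀ᶠ n : ℕ in atTop, 2 * K₁ < r ^ n :=
    (tendsto_pow_atTop_atTop_of_one_lt hr0).eventually_gt_atTop _
  obtain ⟨N₀, hN⟩ := eventually_atTop.1 (hev.and hev2)
  obtain ⟨e, he⟩ : ∃ e : ℝ, e = |F 0 0 0| := ⟨_, rfl⟩
  have he0 : 0 ≤ e := by rw [he]; exact abs_nonneg _
  obtain ⟨S, hS⟩ : ∃ S, S = |M| * (2 * C' + e) + 1 := ⟨_, rfl⟩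
  have hS0 : 0 < S := by rw [hS]; positivity
  obtain ⟨κ, hκ⟩ : ∃ κ, κ = min 1 (1 / (4 * K₁ * S)) := ⟨_, rfl⟩
  have hκ0 : 0 < κ := by
    rw [hκ]
    exact lt_min one_pos (by positivity)
  have hκ1 : κ ≤ 1 := hκ ▸ min_le_left _ _
  have hκ2 : κ * S ≤ 1 / (4 * K₁) := by
    have h1 : κ ≤ 1 / (4 * K₁ * S) := hκ ▸ min_le_right _ _
    calc κ * S ≤ 1 / (4 * K₁ * S) * S := mul_le_mul_of_nonneg_right h1 hS0.le
      _ = 1 / (4 * K₁) := by field_simp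
  refine ⟨κ, ρ, hκ0, hρ1, N₀, fun n hn => ?_⟩
  obtain ⟨h1, h2⟩ := hN n hn
  have g1 : Tri t (om A (2 * n)) (om A n) (om A n) = F n 0 0 := by
    rw [hsh n n 0 0, hF]
    have e1 : (n : ℤ) + n = ((2 * n : ℕ) : ℤ) := by push_cast; ring
    rw [e1, zero_add]
    rfl
  have g2 : Tri t (om A n) (om A n) (om A n) = F 0 0 0 := by
    rw [hsh n 0 0 0, hF, zero_add]
    rfl
  have g3 : Tri t (om A (2 * n)) (om A (2 * n)) (om A n) =
      Tri t (om B n) (om B 0) (om B 0) := by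
    have h3 : F (-n) 0 0 = Tri t (om B n) (om B 0) (om B 0) := by
      have h4 : omz A B 0 = om B 0 := om_zero A B
      rw [hF, omz_neg, h4]
    have h5 : Tri t (om A (2 * n)) (om A (2 * n)) (om A n) = F (2 * n) (2 * n) n := by
      rw [hF]
      have e1 : (2 * (n : ℤ)) = ((2 * n : ℕ) : ℤ) := by push_cast; ring
      rw [e1]
      rfl
    rw [← h3, h5, hsh (2 * n) (-n) 0 0, zero_add]
    have e2 : -(n : ℤ) + 2 * n = n := by ring
    rw [e2]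
    simp only [hF]
    rw [tri_swap₂ t hs₂, tri_swap₁ t hs₁]
  rw [g1, g2, g3]
  obtain ⟨g, hg⟩ : ∃ g, g = Tri t (om B n) (om B 0) (om B 0) := ⟨_, rfl⟩
  rw [← hg] at h1 ⊢
  have hrn : 0 < r ^ n := by positivity
  have h3 : r ^ n / (2 * K₁) ≤ g := by
    have h4 : r ^ n / K₁ ≤ 1 + g := by
      rw [div_le_iff₀ hK0]
      linarith
    have h5 : 1 < r ^ n / (2 * K₁) := by
      rw [one_lt_div (by positivity)]
      exact h2
    have h6 : r ^ n / K₁ = 2 * (r ^ n / (2 * K₁)) := by field_simp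
    linarith
  obtain ⟨m, hm⟩ : ∃ m, m = ρ ^ n := ⟨_, rfl⟩
  have hm0 : 0 < m := by rw [hm]; positivity
  have hm1 : m * d₁ ^ n ≤ r ^ n := by rw [hm]; exact hρ2 n
  have hm2 : m ^ 2 ≤ r ^ n := by rw [hm]; exact hρ3 n
  rw [← hm]
  have h4 : |2 * (κ * m) * F n 0 0 + (κ * m) ^ 2 * F 0 0 0| ≤ κ * (2 * C' + e) * r ^ n := by
    refine (abs_add_le _ _).trans ?_
    rw [abs_mul (2 * (κ * m)), abs_mul ((κ * m) ^ 2), ← he,
      abs_of_pos (by positivity : 0 < 2 * (κ * m)), abs_of_pos (by positivity : 0 < (κ * m) ^ 2)]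
    have h5 : 2 * (κ * m) * |F n 0 0| ≤ 2 * κ * (C' * r ^ n) := by
      calc _ ≤ 2 * (κ * m) * (C' * d₁ ^ n) := mul_le_mul_of_nonneg_left (hF1 n) (by positivity)
        _ = 2 * κ * (C' * (m * d₁ ^ n)) := by ring
        _ ≤ _ := by
          refine mul_le_mul_of_nonneg_left ?_ (by positivity)
          exact mul_le_mul_of_nonneg_left hm1 hC'0
    have h6 : (κ * m) ^ 2 * e ≤ κ * e * r ^ n := by
      calc (κ * m) ^ 2 * e = κ * (κ * (m ^ 2 * e)) := by ring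
        _ ≤ κ * (1 * (r ^ n * e)) := by
            refine mul_le_mul_of_nonneg_left ?_ hκ0.le
            exact mul_le_mul hκ1 (mul_le_mul_of_nonneg_right hm2 he0) (by positivity) zero_le_one
        _ = _ := by ring
    calc _ ≤ 2 * κ * (C' * r ^ n) + κ * e * r ^ n := add_le_add h5 h6
      _ = _ := by ring
  have h5 : M * (2 * (κ * m) * F n 0 0 + (κ * m) ^ 2 * F 0 0 0) ≤
      |M| * (κ * (2 * C' + e) * r ^ n) := by
    refine (le_abs_self _).trans ?_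
    rw [abs_mul]
    exact mul_le_mul_of_nonneg_left h4 (abs_nonneg _)
  have h6 : |M| * (κ * (2 * C' + e) * r ^ n) ≤ r ^ n / (4 * K₁) := by
    calc _ = κ * (|M| * (2 * C' + e)) * r ^ n := by ring
      _ ≤ κ * S * r ^ n := by
          refine mul_le_mul_of_nonneg_right (mul_le_mul_of_nonneg_left ?_ hκ0.le) hrn.le
          rw [hS]; linarith
      _ ≤ 1 / (4 * K₁) * r ^ n := mul_le_mul_of_nonneg_right hκ2 hrn.le
      _ = _ := by ring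
  have h7 : r ^ n / (4 * K₁) < r ^ n / (2 * K₁) := by
    refine div_lt_div_of_pos_left hrn (by positivity) (by linarith)
  linarith

end Pool.Agent.KST
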