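import Pool.Agent.KST.Geo
import Pool.Agent.KST.Crvc
import Pool.Agent.KST.Num
import Pool.Agent.KST.Hti
import Pool.Agent.KST.Kta
import Pool.Agent.LLC.Lbnd

/-!
# KST BST: the inequality (B*)

`bst_num`: `trib` for `(f, g, A)` gives `t`, `trib` for `(g, f, B)` gives `t'`; `t = t'` because
`Lf X f 0 = Lf X g 0` (`f^[0] = g^[0] = id`), `cub_unique` and
`pt A t 0 (0,i) (0,j) (0,k) = t i j k` (`cls A (single (0,i) 1) = single i 1`). `geo_nonneg`, `geo_rkt`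
(for `f`, `A`) give `hn`, `hr` with `K = 3 card (SIx N)`; `crvc` for `f`, `A`, the curve `C`, and for
`g`, `B`, the curve `C'`: `hinv` is the invariance and `Tri t 1 1 1 = e₀`, `h0` is `geo_nonneg`, `hR` is
`geo_rkt` with `α = single 0 1` (`a = om A 0 = 1`), `j = k = n`, `l = 0`:
`e₀ T(ω n, ω n, 1) ≤ K T(1, ω n, 1) ^ 2`. With `DegreeGrowth` this gives `hgA`, `hgB`. `hA`, `hB` are
hypotheses here. `M = card (SIx N)`. `bst_num'` in the same way with `num'` (only the curve `C'` is needed).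

`bst`: let `N₀`, `κ` be from `bst_num`, `n ≥ N₀`, `m' = κ (min d₁ d₂) ^ n`. Work with `Lf X f (2 n)`, the
central block `n`: `h₀ = b = bk n 1`, `a₀ = bk (2 n) 1 + ε • bk 0 1`, `P y = ∑ a w • sg X f n w y`: it is not
`0`, as `f^[n]` is surjective on `X`. `nzx` with `ψ u = ∑ u w • sg X f n w`, `U = SIx N → E`
gives the subspaces `S`. Let `u` be outside of them, `P' = ψ u`. `kt_F` for
`X = sg X f n`, `β` a nonzero coordinate, `a = a₀`, `m'` (`tri_cls`, `cls_bk`; the condition is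
`bst_num`) gives `c₂` and for arbitrarily large `k`: `T`, `j ≥ m' k - 1`, `F ∈ Wt T (k a₀ + c₂)`, and
`hti` (`j := n`, `j' := j`): for `y' ∈ X` with `F y' ≠ 0`, `P' y' ≠ 0`, and `y = f^[n] y'`, so
`f^[2n] y' = f^[n] y`, `y' = g^[n] y`:
`j h(y) ≤ k (h(f^[n] y) + ε h(g^[n] y)) + ∑ b, c₂ b * height of the block b + T h(P : P') + C`. The height
of the block `b` at `y'` is at most `C₃ (1 + h(y))` (`lbnd` for `f` and `g`, iterated: the block `b` is
a factor of `f^[b.1 - n] y` or of `g^[n - b.1] y`), `C₃` independent of `k`. So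
`(m' - 1/k - C₄/k) h(y) ≤ h(f^[n] y) + ε h(g^[n] y) + (T/k) h(P : P') + C/k`; choose `k` with
`(1 + C₄) / k ≤ m' / 2`. So the claim holds with `κ / 2`.
The form `Φ`: by `rep_up`, `rep_down`, `rep_form` for the base block `n` and a point `y₁'` with
`F y₁' ≠ 0` (exists) there is `lam`, `lam y₁' ≠ 0`, `lam F ∈ Rm (bk n (D ..))` where `F` is in
`Rm (c + T • h₀)` by `wt_le`; by `forms_block` `lam F` is the value of a form `Φ` at
`seg (f^[n] y')`. `Φ(seg y) ≠ 0` implies `F (g^[n] y) ≠ 0`.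
-/

open MvPolynomial Filter Topology
open scoped LinearAlgebra.Projectivization

namespace Pool.Agent.KST

open Pool.Agent.Helper90.KSC Pool.Agent.Helper63.SAND Pool.Agent.Helper63.WH Pool.Agent.PW
  Pool.Agent.LLC

variable {E ι : Type*} [Field E] [CharZero E] [Fintype ι] [DecidableEq ι] {N : ι → ℕ}

section Aux

omit [CharZero E] [Fintype ι] [DecidableEq ι] in
private theorem lf_zero_eq (X : Set (PPt E N)) (f g : PPt E N → PPt E N) :
    Lf X f 0 = Lf X g 0 := by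
  funext b
  have h : cf X f 0 b = cf X g 0 b := by
    funext k y
    have hb : ((b.1 : Fin 1) : ℕ) = 0 := by omega
    simp only [cf, hb, Function.iterate_zero, id_eq]
  rw [Lf, Lf, h]

private theorem cls_zero (A : Matrix ι ι ℤ) (i : ι) :
    cls A (Pi.single (((0 : Fin 1), i) : Fin 1 × ι) (1 : ℝ)) = Pi.single i 1 := by
  funext i'
  rw [cls, Finset.sum_eq_single (((0 : Fin 1), i) : Fin 1 × ι)]
  · simp only [Pi.single_eq_same, one_mul, Fin.val_zero, pow_zero, Matrix.one_apply]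
    by_cases h : i = i'
    · subst h
      simp
    · rw [if_neg h, Pi.single_eq_of_ne (Ne.symm h)]
      simp
  · intro b _ hb
    rw [Pi.single_eq_of_ne hb, zero_mul]
  · intro h
    exact absurd (Finset.mem_univ _) h

private theorem tri_single (t : ι → ι → ι → ℝ) (i j k : ι) :
    Tri t (Pi.single i 1) (Pi.single j 1) (Pi.single k 1) = t i j k := by
  rw [Tri, Finset.sum_eq_single i, Finset.sum_eq_single j, Finset.sum_eq_single k]
  · simp
  · intro b _ hb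
    rw [Pi.single_eq_of_ne hb, mul_zero]
  · intro h
    exact absurd (Finset.mem_univ _) h
  · intro b _ hb
    refine Finset.sum_eq_zero fun c _ => ?_
    rw [Pi.single_eq_of_ne hb, mul_zero, zero_mul]
  · intro h
    exact absurd (Finset.mem_univ _) h
  · intro b _ hb
    refine Finset.sum_eq_zero fun c _ => Finset.sum_eq_zero fun d _ => ?_
    rw [Pi.single_eq_of_ne hb, mul_zero, zero_mul, zero_mul]
  · intro h
    exact absurd (Finset.mem_univ _) h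

private theorem pt_zero (A : Matrix ι ι ℤ) (t : ι → ι → ι → ℝ) (i j k : ι) :
    pt A t 0 (0, i) (0, j) (0, k) = t i j k := by
  rw [pt]
  have h : ∀ i, cls A (Pi.single (((0 : Fin (0 + 1)), i) : Fin (0 + 1) × ι) (1 : ℝ)) =
      Pi.single i 1 := fun i => cls_zero A i
  rw [h, h, h, tri_single]

omit [CharZero E] in
/-- The leading forms of `f` and `g` are the same. -/
theorem t_unique (X : Set (PPt E N)) (f g : PPt E N → PPt E N) (A B : Matrix ι ι ℤ)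
    (t t' : ι → ι → ι → ℝ) (h : Cub (hm (Lf X f 0)) (pt A t 0))
    (h' : Cub (hm (Lf X g 0)) (pt B t' 0)) : t = t' := by
  rw [lf_zero_eq X f g] at h
  have e := cub_unique _ _ _ h h'
  funext i j k
  rw [← pt_zero A t i j k, e, pt_zero]

theorem bst_om_zero (A : Matrix ι ι ℤ) : om A 0 = fun _ => 1 := by
  funext i
  simp [om, Matrix.one_apply]

theorem bst_om_succ (A : Matrix ι ι ℤ) (n : ℕ) :
    om A (n + 1) = Matrix.vecMul (om A n) (A.map (Int.cast : ℤ → ℝ)) := by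
  funext i
  simp only [om, Matrix.vecMul, dotProduct, Matrix.map_apply, pow_succ, Matrix.mul_apply,
    Finset.sum_mul]
  rw [Finset.sum_comm]
  refine Finset.sum_congr rfl fun j _ => ?_
  push_cast
  rfl

theorem bst_om_inv (A : Matrix ι ι ℤ) (t : ι → ι → ι → ℝ)
    (hinv : ∀ u v w : ι → ℝ, Tri t (Matrix.vecMul u (A.map (Int.cast : ℤ → ℝ)))
        (Matrix.vecMul v (A.map (Int.cast : ℤ → ℝ)))
        (Matrix.vecMul w (A.map (Int.cast : ℤ → ℝ))) = Tri t u v w) (e₀ : ℝ)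
    (h1 : Tri t (fun _ => 1) (fun _ => 1) (fun _ => 1) = e₀) (n : ℕ) :
    Tri t (om A n) (om A n) (om A n) = e₀ := by
  induction n with
  | zero => rw [bst_om_zero, h1]
  | succ n ih => rw [bst_om_succ, hinv, ih]

/-- The growth of the degrees on a curve gives the growth of an intersection number. -/
theorem bst_crv_growth [IsAlgClosed E] (X : Set (PPt E N)) (hX : ZClosed X)
    (hXi : Irred X) (e₀ : ℕ) (he₀ : 1 ≤ e₀) (hdeg : HasDegree X 3 e₀) (f : PPt E N → PPt E N)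
    (hf : Set.MapsTo f X X) (hlf : LocallyByForms X f) (A : Matrix ι ι ℤ)
    (t : ι → ι → ι → ℝ) (hs₁ : ∀ i j k, t i j k = t j i k) (hs₂ : ∀ i j k, t i j k = t i k j)
    (hinv : ∀ u v w : ι → ℝ, Tri t (Matrix.vecMul u (A.map (Int.cast : ℤ → ℝ)))
        (Matrix.vecMul v (A.map (Int.cast : ℤ → ℝ)))
        (Matrix.vecMul w (A.map (Int.cast : ℤ → ℝ))) = Tri t u v w)
    (h1 : Tri t (fun _ => 1) (fun _ => 1) (fun _ => 1) = e₀)
    (hcub : ∀ n, Cub (hm (Lf X f n)) (pt A t n)) (d : ℝ)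
    (C : Set (PPt E N)) (hCX : C ⊆ X) (hC : ZClosed C) (hCi : Irred C) (e : ℕ) (he : 1 ≤ e)
    (hdegC : HasDegree C 1 e) (hCg : DegreeGrowth C f d) :
    ∃ K₁ : ℝ, 0 ≤ K₁ ∧ ∀ ρ, 0 < ρ → ρ < d → ∀ᶠ n : ℕ in atTop,
      ρ ^ n ≤ K₁ * (1 + Tri t (om A n) (om A 0) (om A 0)) := by
  have h0 := geo_nonneg X hXi f hf hlf A t hcub
  have hcard : (0 : ℝ) ≤ 3 * (Fintype.card (SIx N) : ℝ) := by positivity
  have hR : ∀ n : ℕ, Tri t (om A n) (om A n) (om A 0) ≤
      3 * (Fintype.card (SIx N) : ℝ) * Tri t (om A n) (om A 0) (om A 0) ^ 2 := by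
    intro n
    have hr := geo_rkt X hXi f hf hlf A t hcub n (Pi.single 0 1) (Fin.last n) (Fin.last n) 0
    have hsum : (∑ i : Fin (n + 1), (((Pi.single 0 1 : Fin (n + 1) → ℕ) i : ℕ) : ℝ) • om A i) =
        om A 0 := by
      rw [Finset.sum_eq_single 0]
      · simp
      · intro b _ hb
        rw [Pi.single_eq_of_ne hb]
        simp
      · intro h
        exact absurd (Finset.mem_univ _) h
    rw [hsum] at hr
    simp only [Fin.val_last, Fin.val_zero] at hr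
    have e1 : Tri t (om A 0) (om A 0) (om A 0) = e₀ := bst_om_inv A t hinv _ h1 0
    have e2 : Tri t (om A 0) (om A n) (om A 0) = Tri t (om A n) (om A 0) (om A 0) :=
      tri_swap₁ t hs₁ _ _ _
    rw [e1, e2] at hr
    have e3 : (1 : ℝ) ≤ e₀ := by exact_mod_cast he₀
    have e4 := h0 n n 0
    calc Tri t (om A n) (om A n) (om A 0) ≤ (e₀ : ℝ) * Tri t (om A n) (om A n) (om A 0) :=
          le_mul_of_one_le_left e4 e3
      _ ≤ _ := hr
      _ = _ := by ring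
  obtain ⟨K, hK, hKn⟩ := crvc X hX hXi e₀ he₀ hdeg f hf hlf A t hs₁ hs₂
    (fun n => bst_om_inv A t hinv _ h1 n) hcub (fun n => h0 n 0 0) _ hcard hR C hCX hC hCi e he hdegC
  refine ⟨K, hK, fun ρ hρ hρd => ?_⟩
  filter_upwards [hCg ρ hρ hρd] with n hn
  exact hn.trans (hKn n)

/-- The intersection numbers of the class of `(f^n)^* O(1, ..., 1)` with two hyperplane sections
grow at least like `d ^ n`. -/
def Gr3 (X : Set (PPt E N)) (f : PPt E N → PPt E N) (A : Matrix ι ι ℤ) (d : ℝ) : Prop :=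
  ∀ t : ι → ι → ι → ℝ, (∀ n, Cub (hm (Lf X f n)) (pt A t n)) →
    ∃ K₁ : ℝ, 0 ≤ K₁ ∧ ∀ ρ, 0 < ρ → ρ < d → ∀ᶠ n : ℕ in atTop,
      ρ ^ n ≤ K₁ * (1 + Tri t (om A n) (om A 0) (om A 0))

/-- The growth of the degrees on a curve gives the growth of the intersection numbers. -/
theorem gr3_crv [IsAlgClosed E] (X : Set (PPt E N)) (hX : ZClosed X)
    (hXi : Irred X) (e₀ : ℕ) (he₀ : 1 ≤ e₀) (hdeg : HasDegree X 3 e₀) (f g : PPt E N → PPt E N)
    (hf : Set.MapsTo f X X) (hg : Set.MapsTo g X X) (hfg : ∀ x ∈ X, f (g x) = x)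
    (hgf : ∀ x ∈ X, g (f x) = x) (hlf : LocallyByForms X f) (hlg : LocallyByForms X g)
    (A : Matrix ι ι ℤ) (hA : LinActsBy X f A) (d : ℝ)
    (C : Set (PPt E N)) (hCX : C ⊆ X) (hC : ZClosed C) (hCi : Irred C) (e : ℕ) (he : 1 ≤ e)
    (hdegC : HasDegree C 1 e) (hCg : DegreeGrowth C f d) : Gr3 X f A d := by
  classical
  intro t' hcub'
  obtain ⟨t, hs₁, hs₂, hinv, h1t, hcub⟩ := trib X hXi e₀ hdeg f g hf hg hfg hgf hlf hlg A hA
  have ht : t = t' := t_unique X f f A A t t' (hcub 0) (hcub' 0)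
  subst ht
  exact bst_crv_growth X hX hXi e₀ he₀ hdeg f hf hlf A t hs₁ hs₂ hinv h1t hcub d
    C hCX hC hCi e he hdegC hCg

theorem bst_growth_mono (h : ℕ → ℝ) (hh : ∀ n, 0 ≤ h n) (K K' d : ℝ) (hK : K ≤ K')
    (H : ∀ ρ, 0 < ρ → ρ < d → ∀ᶠ n : ℕ in atTop, ρ ^ n ≤ K * (1 + h n)) :
    ∀ ρ, 0 < ρ → ρ < d → ∀ᶠ n : ℕ in atTop, ρ ^ n ≤ K' * (1 + h n) := by
  intro ρ h1 h2
  filter_upwards [H ρ h1 h2] with n hn
  exact hn.trans (mul_le_mul_of_nonneg_right hK (by linarith [hh n]))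

end Aux

theorem bst_num [IsAlgClosed E] (X : Set (PPt E N)) (hX : ZClosed X) (hXi : Irred X)
    (e₀ : ℕ) (he₀ : 1 ≤ e₀) (hdeg : HasDegree X 3 e₀) (f g : PPt E N → PPt E N)
    (hf : Set.MapsTo f X X) (hg : Set.MapsTo g X X) (hfg : ∀ x ∈ X, f (g x) = x)
    (hgf : ∀ x ∈ X, g (f x) = x) (hlf : LocallyByForms X f) (hlg : LocallyByForms X g)
    (A B : Matrix ι ι ℤ) (hA : LinActsBy X f A) (hB : LinActsBy X g B) (hAB : A * B = 1)
    (d₁ d₂ r₁ r₂ C₀ : ℝ) (hd₁ : 1 < d₁) (hd₂ : 1 < d₂) (h1 : 1 ≤ r₁) (h2 : 1 ≤ r₂)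
    (hr₁ : r₁ < d₁) (hr₂ : r₂ < d₂) (P P' : Matrix ι ι ℝ)
    (hPA : ∀ (n : ℕ) (i j : ι), |(((A ^ n) i j : ℤ) : ℝ) - d₁ ^ n * P i j| ≤ C₀ * r₁ ^ n)
    (hPB : ∀ (n : ℕ) (i j : ι), |(((B ^ n) i j : ℤ) : ℝ) - d₂ ^ n * P' i j| ≤ C₀ * r₂ ^ n)
    (hG : Gr3 X f A d₁) (hG' : Gr3 X g B d₂) :
    ∃ t : ι → ι → ι → ℝ, (∀ i j k, t i j k = t j i k) ∧ (∀ i j k, t i j k = t i k j) ∧
      (∀ n, Cub (hm (Lf X f n)) (pt A t n)) ∧
      ∃ κ : ℝ, 0 < κ ∧ ∃ N₀ : ℕ, ∀ n : ℕ, N₀ ≤ n →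
        (Fintype.card (SIx N) : ℝ) * (2 * (κ * (min d₁ d₂) ^ n) *
            Tri t (om A (2 * n) + om A 0) (om A n) (om A n) +
          (κ * (min d₁ d₂) ^ n) ^ 2 * Tri t (om A n) (om A n) (om A n)) <
        Tri t (om A (2 * n) + om A 0) (om A (2 * n) + om A 0) (om A n) := by
  classical
  obtain ⟨t, hs₁, hs₂, hinv, h1t, hcub⟩ := trib X hXi e₀ hdeg f g hf hg hfg hgf hlf hlg A hA
  obtain ⟨t', hs₁', hs₂', hinv', h1t', hcub'⟩ :=
    trib X hXi e₀ hdeg g f hg hf hgf hfg hlg hlf B hB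
  have ht : t = t' := t_unique X f g A B t t' (hcub 0) (hcub' 0)
  subst ht
  refine ⟨t, hs₁, hs₂, hcub, ?_⟩
  obtain ⟨K₁, hK₁, hg₁⟩ := hG t hcub
  obtain ⟨K₂, hK₂, hg₂⟩ := hG' t hcub'
  have h0 := geo_nonneg X hXi f hf hlf A t hcub
  have h0' := geo_nonneg X hXi g hg hlg B t hcub'
  exact num A B hAB t hs₁ hs₂ hinv h0 (3 * (Fintype.card (SIx N) : ℝ))
    (fun n α j k l => geo_rkt X hXi f hf hlf A t hcub n α j k l) d₁ d₂ r₁ r₂ C₀ hd₁ hd₂ h1 h2
    hr₁ hr₂ P P' hPA hPB (max K₁ K₂)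
    (bst_growth_mono _ (fun n => h0 n 0 0) K₁ _ d₁ (le_max_left _ _) hg₁)
    (bst_growth_mono _ (fun n => h0' n 0 0) K₂ _ d₂ (le_max_right _ _) hg₂) (Fintype.card (SIx N))

theorem bst_num' [IsAlgClosed E] (X : Set (PPt E N)) (hX : ZClosed X) (hXi : Irred X)
    (e₀ : ℕ) (he₀ : 1 ≤ e₀) (hdeg : HasDegree X 3 e₀) (f g : PPt E N → PPt E N)
    (hf : Set.MapsTo f X X) (hg : Set.MapsTo g X X) (hfg : ∀ x ∈ X, f (g x) = x)
    (hgf : ∀ x ∈ X, g (f x) = x) (hlf : LocallyByForms X f) (hlg : LocallyByForms X g)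
    (A B : Matrix ι ι ℤ) (hA : LinActsBy X f A) (hB : LinActsBy X g B) (hAB : A * B = 1)
    (d₁ d₂ C₀ : ℝ) (hd₁ : 1 < d₁) (hd₂ : d₁ < d₂)
    (hPA : ∀ (n : ℕ) (i j : ι), |(((A ^ n) i j : ℤ) : ℝ)| ≤ C₀ * d₁ ^ n)
    (hG' : Gr3 X g B d₂) :
    ∃ t : ι → ι → ι → ℝ, (∀ i j k, t i j k = t j i k) ∧ (∀ i j k, t i j k = t i k j) ∧
      (∀ n, Cub (hm (Lf X f n)) (pt A t n)) ∧
      ∃ κ ρ : ℝ, 0 < κ ∧ 1 < ρ ∧ ∃ N₀ : ℕ, ∀ n : ℕ, N₀ ≤ n →
        (Fintype.card (SIx N) : ℝ) * (2 * (κ * ρ ^ n) *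
            Tri t (om A (2 * n)) (om A n) (om A n) +
          (κ * ρ ^ n) ^ 2 * Tri t (om A n) (om A n) (om A n)) <
        Tri t (om A (2 * n)) (om A (2 * n)) (om A n) := by
  classical
  obtain ⟨t, hs₁, hs₂, hinv, h1t, hcub⟩ := trib X hXi e₀ hdeg f g hf hg hfg hgf hlf hlg A hA
  obtain ⟨t', hs₁', hs₂', hinv', h1t', hcub'⟩ :=
    trib X hXi e₀ hdeg g f hg hf hgf hfg hlg hlf B hB
  have ht : t = t' := t_unique X f g A B t t' (hcub 0) (hcub' 0)
  subst ht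
  refine ⟨t, hs₁, hs₂, hcub, ?_⟩
  obtain ⟨K₂, hK₂, hg₂⟩ := hG' t hcub'
  exact num' A B hAB t hs₁ hs₂ hinv d₁ d₂ C₀ hd₁ hd₂ hPA K₂ hK₂ hg₂ (Fintype.card (SIx N))

section Hts

variable [Algebra.IsAlgebraic ℚ E]

omit [DecidableEq ι] in
theorem bst_absTotal_nonneg (x : PPt E N) : 0 ≤ absTotal x :=
  Finset.sum_nonneg fun i _ => absHeight_nonneg _

omit [DecidableEq ι] in
theorem bst_absHeight_le_total (x : PPt E N) (i : ι) :
    absHeight (x i).rep ≤ absTotal x :=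
  Finset.single_le_sum (f := fun i => absHeight (x i).rep) (fun i _ => absHeight_nonneg _)
    (Finset.mem_univ i)

/-- A map acting linearly multiplies the heights at most by a constant. -/
theorem bst_total_step {X : Set (PPt E N)} {f : PPt E N → PPt E N} {A : Matrix ι ι ℤ}
    (h : LinActsBy X f A) :
    ∃ C : ℝ, 0 ≤ C ∧ ∀ x ∈ X, absTotal (f x) ≤ C * (1 + absTotal x) := by
  obtain ⟨C, hC⟩ := lbnd h
  refine ⟨(∑ _i : ι, |C|) + ∑ i : ι, ∑ j : ι, |(A i j : ℝ)|, by positivity, fun x hx => ?_⟩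
  have h0 := bst_absTotal_nonneg x
  have h1 : ∀ i, absHeight (f x i).rep ≤ |C| + (∑ j : ι, |(A i j : ℝ)|) * absTotal x := by
    intro i
    have h2 := (abs_le.mp (hC x hx i)).2
    have h3 : ∑ j, (A i j : ℝ) * absHeight (x j).rep ≤ (∑ j : ι, |(A i j : ℝ)|) * absTotal x := by
      rw [Finset.sum_mul]
      refine Finset.sum_le_sum fun j _ => ?_
      exact mul_le_mul (le_abs_self _) (bst_absHeight_le_total x j) (absHeight_nonneg _)
        (abs_nonneg _)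
    have h4 := le_abs_self C
    linarith
  have h5 : absTotal (f x) ≤ ∑ i : ι, (|C| + (∑ j : ι, |(A i j : ℝ)|) * absTotal x) :=
    Finset.sum_le_sum fun i _ => h1 i
  rw [Finset.sum_add_distrib, ← Finset.sum_mul] at h5
  have h6 : 0 ≤ ∑ _i : ι, |C| := by positivity
  have h7 : 0 ≤ ∑ i : ι, ∑ j : ι, |(A i j : ℝ)| := by positivity
  nlinarith [mul_nonneg h6 h0]

omit [DecidableEq ι] in
theorem bst_total_iter {X : Set (PPt E N)} {f : PPt E N → PPt E N}
    (hf : Set.MapsTo f X X) {C : ℝ} (hC : 0 ≤ C)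
    (h : ∀ x ∈ X, absTotal (f x) ≤ C * (1 + absTotal x)) (n : ℕ) :
    ∃ C' : ℝ, 0 ≤ C' ∧ ∀ x ∈ X, absTotal (f^[n] x) ≤ C' * (1 + absTotal x) := by
  induction n with
  | zero =>
    refine ⟨1, zero_le_one, fun x _ => ?_⟩
    simp
  | succ n ih =>
    obtain ⟨C', hC', h'⟩ := ih
    refine ⟨C * (1 + C'), by positivity, fun x hx => ?_⟩
    rw [Function.iterate_succ_apply']
    have h1 := h _ (hf.iterate n hx)
    have h2 := h' x hx
    have h3 := bst_absTotal_nonneg x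
    calc absTotal (f (f^[n] x)) ≤ C * (1 + absTotal (f^[n] x)) := h1
      _ ≤ C * (1 + C' * (1 + absTotal x)) := by gcongr
      _ ≤ C * (1 + C') * (1 + absTotal x) := by
          have : 0 ≤ C * absTotal x := by positivity
          nlinarith

/-- The heights of the points `f^[j] (g^[n] y)` are bounded by the height of `y`. -/
private theorem total_fg {X : Set (PPt E N)} {f g : PPt E N → PPt E N} {A B : Matrix ι ι ℤ}
    (hf : Set.MapsTo f X X) (hg : Set.MapsTo g X X) (hA : LinActsBy X f A)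
    (hB : LinActsBy X g B) (n m : ℕ) :
    ∃ C : ℝ, 0 ≤ C ∧ ∀ y ∈ X, ∀ j : Fin m, absTotal (f^[j] (g^[n] y)) ≤ C * (1 + absTotal y) := by
  obtain ⟨Cf, hCf, hf1⟩ := bst_total_step hA
  obtain ⟨Cg, hCg, hg1⟩ := bst_total_step hB
  obtain ⟨Cn, hCn, hn⟩ := bst_total_iter hg hCg hg1 n
  have hj : ∀ j : Fin m, ∃ C' : ℝ, 0 ≤ C' ∧
      ∀ x ∈ X, absTotal (f^[j] x) ≤ C' * (1 + absTotal x) := fun j => bst_total_iter hf hCf hf1 j
  choose D hD hD' using hj
  have hD0 : 0 ≤ ∑ j, D j := Finset.sum_nonneg fun j _ => hD j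
  refine ⟨(∑ j, D j) * (1 + Cn), by positivity, fun y hy j => ?_⟩
  have h1 := hD' j _ (hg.iterate n hy)
  have h2 := hn y hy
  have h3 := bst_absTotal_nonneg y
  have h4 : D j ≤ ∑ j, D j := Finset.single_le_sum (fun j _ => hD j) (Finset.mem_univ j)
  calc absTotal (f^[j] (g^[n] y)) ≤ D j * (1 + absTotal (g^[n] y)) := h1
    _ ≤ D j * (1 + Cn * (1 + absTotal y)) := by
        have := hD j
        gcongr
    _ ≤ D j * ((1 + Cn) * (1 + absTotal y)) := by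
        refine mul_le_mul_of_nonneg_left ?_ (hD j)
        nlinarith
    _ ≤ (∑ j, D j) * ((1 + Cn) * (1 + absTotal y)) :=
        mul_le_mul_of_nonneg_right h4 (by positivity)
    _ = _ := by ring

omit [Algebra.IsAlgebraic ℚ E] in
/-- The sum over one block. -/
theorem bst_sum_bk (n : ℕ) (j : Fin (n + 1)) (H : Fin (n + 1) × ι → ℝ) :
    ∑ b : Fin (n + 1) × ι, ((bk j (fun _ : ι => 1) b : ℕ) : ℝ) * H b = ∑ i, H (j, i) := by
  rw [Fintype.sum_prod_type, Finset.sum_eq_single j]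
  · refine Finset.sum_congr rfl fun i _ => ?_
    simp [bk]
  · intro k _ hk
    refine Finset.sum_eq_zero fun i _ => ?_
    simp [bk, hk]
  · intro h
    exact absurd (Finset.mem_univ _) h

end Hts

theorem bst [IsAlgClosed E] [Algebra.IsAlgebraic ℚ E] (X : Set (PPt E N)) (hX : ZClosed X)
    (hXi : Irred X) (f g : PPt E N → PPt E N)
    (hf : Set.MapsTo f X X) (hg : Set.MapsTo g X X) (hfg : ∀ x ∈ X, f (g x) = x)
    (hgf : ∀ x ∈ X, g (f x) = x) (hlf : LocallyByForms X f) (hlg : LocallyByForms X g)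
    (A B : Matrix ι ι ℤ) (hA : LinActsBy X f A) (hB : LinActsBy X g B)
    (t : ι → ι → ι → ℝ) (hcub : ∀ n, Cub (hm (Lf X f n)) (pt A t n)) (n ε : ℕ)
    (m' : ℝ) (hm' : 0 < m')
    (hcond : (Fintype.card (SIx N) : ℝ) * (2 * m' *
            Tri t (om A (2 * n) + (ε : ℝ) • om A 0) (om A n) (om A n) +
          m' ^ 2 * Tri t (om A n) (om A n) (om A n)) <
        Tri t (om A (2 * n) + (ε : ℝ) • om A 0) (om A (2 * n) + (ε : ℝ) • om A 0) (om A n))
    (a : SIx N → E) (ha : ∃ x ∈ X, ∑ w, a w * seg x w ≠ 0) :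
    ∃ S : Finset (Submodule E (SIx N → E)), (∀ T ∈ S, T ≠ ⊤) ∧
      ∀ b : SIx N → E, (∀ T ∈ S, b ∉ T) →
        ∃ (D : ℕ) (Φ : MvPolynomial (SIx N) E) (T : ℝ), Φ.IsHomogeneous D ∧
          (∃ x ∈ X, eval (seg x) Φ ≠ 0) ∧ 0 ≤ T ∧
          ∀ y ∈ X, eval (seg y) Φ ≠ 0 → ∑ w, b w * seg y w ≠ 0 →
            m' / 2 * absTotal y ≤ absTotal (f^[n] y) + ε * absTotal (g^[n] y) +
              T * absHeight ![∑ w, a w * seg y w, ∑ w, b w * seg y w] + T := by
  classical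
  have hlt : n < 2 * n + 1 := by omega
  set j₁ : Fin (2 * n + 1) := ⟨n, hlt⟩ with hj₁
  have hIrm := irm_Lf X f hf hlf X subset_rfl hXi (2 * n)
  set h₀ : Fin (2 * n + 1) × ι → ℕ := bk j₁ (fun _ => 1) with hh₀
  have hinvg : ∀ x ∈ X, ∀ m : ℕ, f^[m] (g^[m] x) = x := by
    intro x hx m
    induction m generalizing x with
    | zero => rfl
    | succ m ih =>
      rw [Function.iterate_succ_apply, Function.iterate_succ_apply' g,
        hfg _ (hg.iterate m hx)]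
      exact ih x hx
  -- the linear forms in the block `n`
  let ψ : (SIx N → E) →ₗ[E] (X → E) := Fintype.linearCombination E (sg X f n)
  have hψ : LinearMap.range ψ = Rm (Lf X f (2 * n)) h₀ := by
    rw [hh₀, bk_one X f (2 * n) j₁]
    exact Fintype.range_linearCombination E _
  have hψa : ∀ (u : SIx N → E) (y : X), ψ u y = ∑ w, u w * seg (f^[n] (y : PPt E N)) w := by
    intro u y
    simp only [ψ, Fintype.linearCombination_apply, Finset.sum_apply, Pi.smul_apply, smul_eq_mul,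
      sg]
  have hP : ψ a ∈ Rm (Lf X f (2 * n)) h₀ := by
    rw [← hψ]
    exact LinearMap.mem_range_self _ _
  have hP0 : ψ a ≠ 0 := by
    obtain ⟨x, hx, hax⟩ := ha
    intro h
    apply hax
    have h1 := congrFun h ⟨g^[n] x, hg.iterate n hx⟩
    rw [hψa] at h1
    simp only [hinvg x hx n] at h1
    exact h1
  obtain ⟨S, c₁, hS, hSnz⟩ := nzx (Lf X f (2 * n)) hIrm h₀ (ψ a) hP ψ hψ
  refine ⟨S, hS, fun b hb => ?_⟩
  have hnz := hSnz b hb
  have hP' : ψ b ∈ Rm (Lf X f (2 * n)) h₀ := by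
    rw [← hψ]
    exact LinearMap.mem_range_self _ _
  have hsg : ∀ w, sg X f n w ∈ Rm (Lf X f (2 * n)) h₀ := by
    intro w
    rw [hh₀, bk_one X f (2 * n) j₁]
    exact Submodule.subset_span ⟨w, rfl⟩
  obtain ⟨x₀, hx₀⟩ := hXi.1
  obtain ⟨w₀, hw₀⟩ := Function.ne_iff.mp (seg_ne_zero (f^[n] x₀))
  have hβ0 : sg X f n w₀ ≠ 0 := by
    intro h
    exact hw₀ (congrFun h ⟨x₀, hx₀⟩)
  set a₀ : Fin (2 * n + 1) × ι → ℕ := bk (Fin.last (2 * n)) (fun _ => 1) +
    ε • bk 0 (fun _ => 1) with ha₀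
  have hcls₀ : cls A (rv h₀) = om A n := cls_bk A (2 * n) j₁
  have hcls₁ : cls A (rv a₀) = om A (2 * n) + (ε : ℝ) • om A 0 := by
    have e1 : rv a₀ = rv (bk (Fin.last (2 * n)) (fun _ : ι => 1)) +
        (ε : ℝ) • rv (bk (0 : Fin (2 * n + 1)) (fun _ : ι => 1)) := by
      funext b
      simp [ha₀, rv]
    rw [e1, cls_add, cls_smul, cls_bk, cls_bk]
    simp
  have hcond' : (Fintype.card (SIx N) : ℝ) *
      (2 * m' * Tri (pt A t (2 * n)) (rv a₀) (rv h₀) (rv h₀) +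
        m' ^ 2 * Tri (pt A t (2 * n)) (rv h₀) (rv h₀) (rv h₀)) <
      Tri (pt A t (2 * n)) (rv a₀) (rv a₀) (rv h₀) := by
    rw [tri_cls, tri_cls, tri_cls, hcls₀, hcls₁]
    exact hcond
  obtain ⟨c₂, hc₂, hk⟩ := kt_F (σ := SIx N) (Lf X f (2 * n)) hIrm (pt A t (2 * n)) (hcub (2 * n))
    h₀ (ψ a) (ψ b) hP hP' hP0 c₁ hnz h₀ (fun w => sg X f n w) hsg (sg X f n w₀) (hsg w₀) hβ0 a₀
    m' hm'.le hcond'
  obtain ⟨C₃, hC₃, hht⟩ := total_fg hf hg hA hB n (2 * n + 1)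
  set C₄ : ℝ := ∑ q, (c₂ q : ℝ) * C₃ with hC₄
  have hC₄0 : 0 ≤ C₄ := Finset.sum_nonneg fun q _ => by positivity
  obtain ⟨k, hKk, T, j, hj, F, hF, hF0, hG⟩ := hk (max 1 ⌈2 * (1 + C₄) / m'⌉₊)
  have hk1 : 1 ≤ k := (le_max_left _ _).trans hKk
  have hk2 : 2 * (1 + C₄) / m' ≤ k :=
    (Nat.le_ceil _).trans (by exact_mod_cast (le_max_right _ _).trans hKk)
  obtain ⟨C, hC⟩ := hti X f (2 * n) (ψ a) (ψ b) T (k • a₀ + c₂) F hF n j (sg X f n w₀) hG
  -- the form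
  have hrep : ∀ (j : Fin (2 * n + 1)) (i : ι), ∃ D : ℕ, ∀ y : X, ∃ lam : X → E, lam y ≠ 0 ∧
      ∀ k, lam * cf X f (2 * n) (j, i) k ∈ Rm (Lf X f (2 * n)) (bk j₁ (fun _ => D)) := by
    intro j i
    rcases le_total j₁ j with h | h
    · exact rep_up X f hf hlf X subset_rfl (2 * n) j₁ j h i
    · exact rep_down X f g hf hg hgf hlg (2 * n) j₁ j h i
  obtain ⟨D, hD⟩ := rep_form X f (2 * n) j₁ hrep
  obtain ⟨y₁, hy₁⟩ := Function.ne_iff.mp hF0
  obtain ⟨lam, hlam, hlamF⟩ := hD (k • a₀ + c₂ + T • h₀) y₁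
  have hF2 := hlamF F (wt_le _ h₀ _ _ hP hP' T _ hF)
  obtain ⟨Φ, hΦ, hΦe⟩ := (forms_block X f (2 * n) j₁ _ _).mp hF2
  refine ⟨_, Φ, T + |C| + C₄, hΦ, ?_, by positivity, ?_⟩
  · refine ⟨f^[n] (y₁ : PPt E N), hf.iterate n y₁.2, ?_⟩
    have h1 := hΦe y₁
    have h2 : (lam * F) y₁ ≠ 0 := mul_ne_zero hlam hy₁
    rw [h1] at h2
    exact h2
  · intro y hy hΦy hby
    have hy' : g^[n] y ∈ X := hg.iterate n hy
    set y' : X := ⟨g^[n] y, hy'⟩ with hy'd
    have hfy : f^[n] (y' : PPt E N) = y := hinvg y hy n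
    have hFy : F y' ≠ 0 := by
      intro h
      apply hΦy
      have h1 := hΦe y'
      have h2 : f^[((j₁ : Fin (2 * n + 1)) : ℕ)] (y' : PPt E N) = y := hfy
      rw [h2] at h1
      rw [← h1]
      change lam y' * F y' = 0
      rw [h, mul_zero]
    have hPa : ψ a y' = ∑ w, a w * seg y w := by rw [hψa, hfy]
    have hPb : ψ b y' = ∑ w, b w * seg y w := by rw [hψa, hfy]
    have hmain := hC y' hFy (Or.inr (by rw [hPb]; exact hby))
    rw [hfy, hPa, hPb] at hmain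
    -- the sum over the blocks
    set H : Fin (2 * n + 1) × ι → ℝ := fun q =>
      absHeight ((f^[q.1] (y' : PPt E N)) q.2).rep with hH
    have hsum : ∑ q : Fin (2 * n + 1) × ι, (((k • a₀ + c₂) q : ℕ) : ℝ) * H q =
        k * (absTotal (f^[n] y) + ε * absTotal (g^[n] y)) + ∑ q, (c₂ q : ℝ) * H q := by
      have e1 : ∀ q, (((k • a₀ + c₂) q : ℕ) : ℝ) * H q =
          (k : ℝ) * (((bk (Fin.last (2 * n)) (fun _ : ι => 1) q : ℕ) : ℝ) * H q) +
          (k : ℝ) * ε * (((bk (0 : Fin (2 * n + 1)) (fun _ : ι => 1) q : ℕ) : ℝ) * H q) +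
          (c₂ q : ℝ) * H q := by
        intro q
        simp only [ha₀, Pi.add_apply, Pi.smul_apply, smul_eq_mul, Nat.cast_add, Nat.cast_mul]
        ring
      rw [Finset.sum_congr rfl fun q _ => e1 q, Finset.sum_add_distrib, Finset.sum_add_distrib,
        ← Finset.mul_sum, ← Finset.mul_sum, bst_sum_bk, bst_sum_bk]
      have e2 : ∑ i, H (Fin.last (2 * n), i) = absTotal (f^[n] y) := by
        have e3 : f^[((Fin.last (2 * n) : Fin (2 * n + 1)) : ℕ)] (y' : PPt E N) = f^[n] y := by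
          rw [Fin.val_last, two_mul, Function.iterate_add_apply, hfy]
        simp only [hH, e3, absTotal]
      have e4 : ∑ i, H (0, i) = absTotal (g^[n] y) := by
        simp only [hH, Fin.val_zero, Function.iterate_zero, id_eq, absTotal, hy'd]
      rw [e2, e4]
      ring
    have hHb : ∀ q, H q ≤ C₃ * (1 + absTotal y) := fun q =>
      (bst_absHeight_le_total _ _).trans (hht y hy q.1)
    have hsum2 : ∑ q, (c₂ q : ℝ) * H q ≤ C₄ * (1 + absTotal y) := by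
      rw [hC₄, Finset.sum_mul]
      refine Finset.sum_le_sum fun q _ => ?_
      rw [mul_assoc]
      exact mul_le_mul_of_nonneg_left (hHb q) (Nat.cast_nonneg _)
    have hmain2 : (j : ℝ) * absTotal y ≤
        k * (absTotal (f^[n] y) + ε * absTotal (g^[n] y)) + ∑ q, (c₂ q : ℝ) * H q +
        T * absHeight ![∑ w, a w * seg y w, ∑ w, b w * seg y w] + C := by
      rw [← hsum]
      exact hmain
    have hy0 := bst_absTotal_nonneg y
    have hv0 : 0 ≤ absHeight ![∑ w, a w * seg y w, ∑ w, b w * seg y w] := absHeight_nonneg _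
    set v := absHeight ![∑ w, a w * seg y w, ∑ w, b w * seg y w] with hv
    set U := absTotal (f^[n] y) + ε * absTotal (g^[n] y) with hU
    have hkpos : (0 : ℝ) < k := by exact_mod_cast hk1
    have hk1' : (1 : ℝ) ≤ k := by exact_mod_cast hk1
    have hj2 : (m' * k - 1) * absTotal y ≤ j * absTotal y := mul_le_mul_of_nonneg_right hj hy0
    have hk3 : 1 + C₄ ≤ m' / 2 * k := by
      rw [div_le_iff₀ hm'] at hk2
      linarith
    have h5 : k * (m' / 2 * absTotal y) ≤ k * U + T * v + (|C| + C₄) := by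
      have h6 := le_abs_self C
      have h7 : (1 + C₄) * absTotal y ≤ m' / 2 * k * absTotal y :=
        mul_le_mul_of_nonneg_right hk3 hy0
      nlinarith
    have hT0 : (0 : ℝ) ≤ T := Nat.cast_nonneg _
    have h8 : k * (m' / 2 * absTotal y) ≤ k * (U + (T + |C| + C₄) * v + (T + |C| + C₄)) := by
      have h9 : (T : ℝ) * v ≤ k * ((T + |C| + C₄) * v) := by
        have : (T : ℝ) * v ≤ (T + |C| + C₄) * v :=
          mul_le_mul_of_nonneg_right (by linarith [abs_nonneg C]) hv0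
        have h10 : (T + |C| + C₄) * v ≤ k * ((T + |C| + C₄) * v) :=
          le_mul_of_one_le_left (by positivity) hk1'
        linarith
      have h11 : |C| + C₄ ≤ k * (T + |C| + C₄) := by
        have : (T + |C| + C₄) ≤ k * (T + |C| + C₄) :=
          le_mul_of_one_le_left (by positivity) hk1'
        linarith
      nlinarith
    exact le_of_mul_le_mul_left h8 hkpos

end Pool.Agent.KST
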