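import Pool.Agent.KST.Spec

/-!
# KST CONTR: a perturbed recursion with a small leading component

PROOF.  `spec`: `B ^ n = d ^ n P + R n`, `|R n i j| ≤ C₁ r ^ n`, `P B = d P`. `H n = B ^ n (H 0) + ∑_{k<n} B ^ (n-1-k) (e k)` with
`|e k i| ≤ b` (induction on `n`; if `b < 0` there is no `H`, unless the index type is empty). `P (H (m+1)) = d P (H m) + P (e m)`, so
`P (H m) = d ^ m (P (H 0) + ∑_{k<m} d ^ (-k-1) P (e k))`; with `C₂ ≥ |P i j|`, `N = card ι`: for `m ≥ m₀`
`|P (H m) i| ≤ N C₂ c d ^ m`, so `|P (H 0) i| ≤ N C₂ c + ∑_k d ^ (-k-1) N C₂ |b| ≤ N C₂ (c + |b| / (d - 1))` (`d > r ≥ 1`). Then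
`|H n i| ≤ d ^ n |P (H 0) i| + N C₁ r ^ n ∑ |H 0 j| + ∑_{k<n} (d ^ (n-1-k) N C₂ + N C₁ r ^ (n-1-k)) |b|`, and
`∑_{k<n} d ^ (n-1-k) ≤ d ^ n / (d - 1)`, the same bound for `r ≤ d`.
-/

set_option autoImplicit false

namespace Pool.Agent.KST

variable {ι : Type*} [Fintype ι] [DecidableEq ι]

omit [DecidableEq ι] in
private lemma mulVec_abs (P : Matrix ι ι ℝ) (v : ι → ℝ) (β : ℝ) (hβ : 0 ≤ β)
    (hv : ∀ j, |v j| ≤ β) (i : ι) : |(P.mulVec v) i| ≤ (∑ i, ∑ j, |P i j|) * β := by
  have h1 : |(P.mulVec v) i| ≤ ∑ j, |P i j| * β := by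
    unfold Matrix.mulVec dotProduct
    refine (Finset.abs_sum_le_sum_abs _ _).trans (Finset.sum_le_sum fun j _ => ?_)
    rw [abs_mul]
    exact mul_le_mul_of_nonneg_left (hv j) (abs_nonneg _)
  rw [← Finset.sum_mul] at h1
  refine h1.trans (mul_le_mul_of_nonneg_right ?_ hβ)
  exact Finset.single_le_sum (f := fun i => ∑ j, |P i j|)
    (fun i _ => Finset.sum_nonneg fun j _ => abs_nonneg _) (Finset.mem_univ i)

private lemma recursion (A : Matrix ι ι ℝ) (H e : ℕ → ι → ℝ)
    (he : ∀ n, H (n + 1) = A.mulVec (H n) + e n) (n : ℕ) :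
    H n = (A ^ n).mulVec (H 0) + ∑ k ∈ Finset.range n, (A ^ (n - 1 - k)).mulVec (e k) := by
  induction n with
  | zero => simp
  | succ n ih =>
    rw [he n, Finset.sum_range_succ]
    conv_lhs => rw [ih]
    rw [Matrix.mulVec_add, Matrix.mulVec_mulVec, ← pow_succ', Matrix.mulVec_sum]
    have h1 : n + 1 - 1 - n = 0 := by omega
    rw [h1, pow_zero, Matrix.one_mulVec, ← add_assoc]
    congr 2
    refine Finset.sum_congr rfl fun k hk => ?_
    have hk' := Finset.mem_range.1 hk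
    rw [Matrix.mulVec_mulVec, ← pow_succ']
    congr 2
    omega

private lemma geom_le {d : ℝ} (hd : 1 < d) (n : ℕ) :
    ∑ k ∈ Finset.range n, d ^ (n - 1 - k) ≤ d ^ n / (d - 1) := by
  rw [Finset.sum_range_reflect (fun k => d ^ k) n, geom_sum_eq hd.ne']
  apply div_le_div_of_nonneg_right _ (by linarith)
  linarith

theorem contr (B : Matrix ι ι ℤ) (d : ℝ) (s : Multiset ℂ)
    (hB : (B.charpoly.map (Int.castRingHom ℂ)).roots = (d : ℂ) ::ₘ s) (r : ℝ)
    (hr : ∀ z ∈ s, ‖z‖ < r) (hr1 : 1 ≤ r) (hrd : r < d) (b : ℝ) :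
    ∃ C : ℝ, 0 ≤ C ∧ ∀ H : ℕ → ι → ℝ,
      (∀ n i, |H (n + 1) i - ∑ j, (B i j : ℝ) * H n j| ≤ b) →
      ∀ c : ℝ, 0 ≤ c → (∃ m₀ : ℕ, ∀ m, m₀ ≤ m → ∀ i, |H m i| ≤ c * d ^ m) →
      ∀ n i, |H n i| ≤ C * (c + 1) * d ^ n + C * r ^ n * (1 + ∑ j, |H 0 j|) := by
  obtain ⟨P, C₁, hC₁, hpow, hPB, -⟩ := spec B d s hB r (by linarith) hr hrd
  have hd1 : 1 < d := by linarith
  have hd0 : 0 < d := by linarith
  set A : Matrix ι ι ℝ := B.map (Int.cast : ℤ → ℝ) with hA
  have hApow : ∀ (n : ℕ) (i j : ι), (A ^ n) i j = (((B ^ n) i j : ℤ) : ℝ) := by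
    intro n i j
    have h1 : A ^ n = (Int.castRingHom ℝ).mapMatrix (B ^ n) := by
      rw [map_pow]
      rfl
    rw [h1]
    rfl
  set C₂ : ℝ := ∑ i, ∑ j, |P i j| with hC₂
  have hC₂0 : 0 ≤ C₂ := Finset.sum_nonneg fun i _ => Finset.sum_nonneg fun j _ => abs_nonneg _
  set N : ℝ := (Fintype.card ι : ℝ) with hN
  have hN0 : 0 ≤ N := Nat.cast_nonneg _
  have hd10 : 0 < d - 1 := by linarith
  have hb0 : 0 ≤ |b| := abs_nonneg b
  have hq1 : 0 ≤ C₂ * |b| / (d - 1) := by positivity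
  have hq2 : 0 ≤ (C₂ + N * C₁) * |b| / (d - 1) := by positivity
  refine ⟨C₂ + C₂ * |b| / (d - 1) + C₁ + (C₂ + N * C₁) * |b| / (d - 1), by positivity, ?_⟩
  intro H hH c hc ⟨m₀, hm₀⟩ n i
  set e : ℕ → ι → ℝ := fun n => H (n + 1) - A.mulVec (H n) with he
  have heq : ∀ n, H (n + 1) = A.mulVec (H n) + e n := by
    intro n
    rw [he]
    simp
  have heb : ∀ n j, |e n j| ≤ |b| := by
    intro n j
    refine le_trans ?_ (le_abs_self b)
    exact hH n j
  -- the leading component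
  have hstep : ∀ m, P.mulVec (H (m + 1)) = d • P.mulVec (H m) + P.mulVec (e m) := by
    intro m
    rw [heq m, Matrix.mulVec_add, Matrix.mulVec_mulVec, hPB, Matrix.smul_mulVec]
  have hlead : ∀ m j, |(P.mulVec (H 0)) j| ≤ |(P.mulVec (H m)) j| / d ^ m +
      C₂ * |b| * ((1 - (d ^ m)⁻¹) / (d - 1)) := by
    intro m j
    induction m with
    | zero => simp
    | succ m ih =>
      refine ih.trans ?_
      have h1 : |(P.mulVec (H m)) j| ≤ (|(P.mulVec (H (m + 1))) j| + C₂ * |b|) / d := by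
        rw [le_div_iff₀ hd0]
        have h2 : (P.mulVec (H (m + 1))) j = d * (P.mulVec (H m)) j + (P.mulVec (e m)) j := by
          rw [hstep m]
          rfl
        have h3 := mulVec_abs P (e m) |b| hb0 (heb m) j
        rw [← hC₂] at h3
        have h4 : d * (P.mulVec (H m)) j = (P.mulVec (H (m + 1))) j - (P.mulVec (e m)) j := by
          rw [h2]; ring
        calc |(P.mulVec (H m)) j| * d = |d * (P.mulVec (H m)) j| := by
              rw [abs_mul, abs_of_pos hd0, mul_comm]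
          _ = |(P.mulVec (H (m + 1))) j - (P.mulVec (e m)) j| := by rw [h4]
          _ ≤ |(P.mulVec (H (m + 1))) j| + |(P.mulVec (e m)) j| := abs_sub _ _
          _ ≤ _ := by linarith
      have hdm : 0 < d ^ m := by positivity
      calc |(P.mulVec (H m)) j| / d ^ m + C₂ * |b| * ((1 - (d ^ m)⁻¹) / (d - 1))
          ≤ ((|(P.mulVec (H (m + 1))) j| + C₂ * |b|) / d) / d ^ m +
            C₂ * |b| * ((1 - (d ^ m)⁻¹) / (d - 1)) := by
              have := div_le_div_of_nonneg_right h1 hdm.le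
              linarith
        _ = _ := by
              rw [pow_succ]
              field_simp
              ring
  have h0 : |(P.mulVec (H 0)) i| ≤ C₂ * c + C₂ * |b| / (d - 1) := by
    refine (hlead m₀ i).trans (add_le_add ?_ ?_)
    · have hdm : 0 < d ^ m₀ := by positivity
      rw [div_le_iff₀ hdm]
      have := mulVec_abs P (H m₀) (c * d ^ m₀) (by positivity) (hm₀ m₀ le_rfl) i
      rw [← hC₂] at this
      linarith
    · rw [← mul_div_assoc]
      apply div_le_div_of_nonneg_right _ hd10.le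
      have : 0 ≤ (d ^ m₀)⁻¹ := by positivity
      have h2 : 0 ≤ C₂ * |b| := by positivity
      nlinarith
  -- the closed form
  have hrec := congrFun (recursion A H e heq n) i
  have h1 : |((A ^ n).mulVec (H 0)) i| ≤ d ^ n * |(P.mulVec (H 0)) i| +
      C₁ * r ^ n * ∑ j, |H 0 j| := by
    have h2 : ((A ^ n).mulVec (H 0)) i = d ^ n * (P.mulVec (H 0)) i +
        ∑ j, ((A ^ n) i j - d ^ n * P i j) * H 0 j := by
      unfold Matrix.mulVec dotProduct
      rw [Finset.mul_sum, ← Finset.sum_add_distrib]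
      refine Finset.sum_congr rfl fun j _ => ?_
      ring
    rw [h2]
    refine (abs_add_le _ _).trans (add_le_add ?_ ?_)
    · rw [abs_mul, abs_of_pos (by positivity : 0 < d ^ n)]
    · refine (Finset.abs_sum_le_sum_abs _ _).trans ?_
      rw [Finset.mul_sum]
      refine Finset.sum_le_sum fun j _ => ?_
      rw [abs_mul]
      apply mul_le_mul_of_nonneg_right _ (abs_nonneg _)
      rw [hApow]
      exact hpow n i j
  have hr0 : 0 < r := by linarith
  have h2 : ∀ (m k : ℕ), |((A ^ m).mulVec (e k)) i| ≤ (C₂ + N * C₁) * |b| * d ^ m := by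
    intro m k
    have hrm : r ^ m ≤ d ^ m := pow_le_pow_left₀ hr0.le hrd.le m
    calc |((A ^ m).mulVec (e k)) i| ≤ ∑ j, |(A ^ m) i j| * |b| := by
          unfold Matrix.mulVec dotProduct
          refine (Finset.abs_sum_le_sum_abs _ _).trans (Finset.sum_le_sum fun j _ => ?_)
          rw [abs_mul]
          exact mul_le_mul_of_nonneg_left (heb k j) (abs_nonneg _)
      _ ≤ ∑ j, (d ^ m * |P i j| + C₁ * d ^ m) * |b| := by
          refine Finset.sum_le_sum fun j _ => mul_le_mul_of_nonneg_right ?_ hb0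
          have h3 := hpow m i j
          rw [← hApow] at h3
          calc |(A ^ m) i j| = |d ^ m * P i j + ((A ^ m) i j - d ^ m * P i j)| := by
                congr 1; ring
            _ ≤ |d ^ m * P i j| + |(A ^ m) i j - d ^ m * P i j| := abs_add_le _ _
            _ ≤ d ^ m * |P i j| + C₁ * d ^ m := by
                rw [abs_mul, abs_of_pos (by positivity : 0 < d ^ m)]
                have := mul_le_mul_of_nonneg_left hrm hC₁
                linarith
      _ = (d ^ m * (∑ j, |P i j|) + N * C₁ * d ^ m) * |b| := by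
          rw [← Finset.sum_mul, Finset.sum_add_distrib, ← Finset.mul_sum, Finset.sum_const,
            Finset.card_univ, nsmul_eq_mul]
          ring
      _ ≤ (d ^ m * C₂ + N * C₁ * d ^ m) * |b| := by
          apply mul_le_mul_of_nonneg_right _ hb0
          have h3 : ∑ j, |P i j| ≤ C₂ :=
            Finset.single_le_sum (f := fun i => ∑ j, |P i j|)
              (fun i _ => Finset.sum_nonneg fun j _ => abs_nonneg _) (Finset.mem_univ i)
          have h4 : 0 < d ^ m := by positivity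
          have := mul_le_mul_of_nonneg_left h3 h4.le
          linarith
      _ = _ := by ring
  have h3 : |(∑ k ∈ Finset.range n, (A ^ (n - 1 - k)).mulVec (e k)) i| ≤
      (C₂ + N * C₁) * |b| / (d - 1) * d ^ n := by
    rw [Finset.sum_apply]
    refine (Finset.abs_sum_le_sum_abs _ _).trans ?_
    calc ∑ k ∈ Finset.range n, |((A ^ (n - 1 - k)).mulVec (e k)) i|
        ≤ ∑ k ∈ Finset.range n, (C₂ + N * C₁) * |b| * d ^ (n - 1 - k) :=
          Finset.sum_le_sum fun k _ => h2 _ k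
      _ = (C₂ + N * C₁) * |b| * ∑ k ∈ Finset.range n, d ^ (n - 1 - k) := by
          rw [Finset.mul_sum]
      _ ≤ (C₂ + N * C₁) * |b| * (d ^ n / (d - 1)) :=
          mul_le_mul_of_nonneg_left (geom_le hd1 n) (by positivity)
      _ = _ := by ring
  have h4 : |H n i| ≤ d ^ n * (C₂ * c + C₂ * |b| / (d - 1)) + C₁ * r ^ n * ∑ j, |H 0 j| +
      (C₂ + N * C₁) * |b| / (d - 1) * d ^ n := by
    rw [hrec, Pi.add_apply]
    refine (abs_add_le _ _).trans (add_le_add (h1.trans ?_) h3)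
    have h5 : 0 < d ^ n := by positivity
    have := mul_le_mul_of_nonneg_left h0 h5.le
    linarith
  refine h4.trans ?_
  have hdn : 0 < d ^ n := by positivity
  have hrn : 0 < r ^ n := by positivity
  have hS : 0 ≤ ∑ j, |H 0 j| := Finset.sum_nonneg fun j _ => abs_nonneg _
  set q₁ := C₂ * |b| / (d - 1) with hq1'
  set q₂ := (C₂ + N * C₁) * |b| / (d - 1) with hq2'
  set S := ∑ j, |H 0 j| with hS'
  have e1 : C₂ * c + q₁ + q₂ ≤ (C₂ + q₁ + C₁ + q₂) * (c + 1) := by
    nlinarith [mul_nonneg hq1 hc, mul_nonneg hq2 hc, mul_nonneg hC₁ hc]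
  have e2 : C₁ * S ≤ (C₂ + q₁ + C₁ + q₂) * (1 + S) := by
    nlinarith [mul_nonneg hq1 hS, mul_nonneg hq2 hS, mul_nonneg hC₂0 hS]
  have e3 := mul_le_mul_of_nonneg_right e1 hdn.le
  have e4 := mul_le_mul_of_nonneg_right e2 hrn.le
  nlinarith

end Pool.Agent.KST
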