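import Pool.Agent.LLC.Grow

/-!
# KST EXPB: uniform polynomial bounds for subexponential solutions of perturbed recursions

PROOF.  Over `ℂ`, `B = A.map cast`; let `s₁` be the multiset of the roots of the charpoly of modulus `≤ 1`, `s₂` the
rest, `p₁ = rts s₁`, `p₂ = rts s₂` (`LLC/LinA`), coprime, `p₁ p₂ (B) = 0`; `u p₁ + w p₂ = 1` (Bezout in `ℂ[X]`,
`IsCoprime`). For `X n = (H n)` and `Q = u(B) p₁(B)` (projection onto the kernel of `p₂(B)`): `Y n = Q (X n)` satisfies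
`Y (n+1) = B (Y n) + e n`, `‖e n‖ ≤ ‖Q‖ b'`, `p₂(B) (Y n) = 0`, and it grows subexponentially. Claim: `‖Y n‖ ≤ C₁` with
`C₁` depending on `A`, `b` only: by `lin_low` (with `ρ > 1` a lower bound of the moduli in `s₂`)
`ρ ^ m ‖Y n‖ ≤ C (1+m)^C ‖B ^ m (Y n)‖` and `B ^ m (Y n) = Y (n+m) - ∑_{k<m} B ^ (m-1-k) (e (n+k))`. Better: put
`f k = e (n + k)` (it satisfies `p₂(B) (f k) = 0` as well); `B ^ (m-1-k) f k` : by `lin_low` applied to the vector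
`y = Y n + ∑_{k<m} B^(-k-1) (f k)`. To avoid inverses use the induction on the multiset as in `grow_aux`/`step_large` of
`LLC/Grow.lean` with explicit constants: CLAIM for every multiset `s` and all `C, D` there are `C', D'` such that for
all `X` with `‖rts s (B) (X n)‖ ≤ C (1+n)^C + D (1+n)^D ‖X 0‖`, `‖X (n+1) - B (X n)‖ ≤ C (1+n)^C + D (1+n)^D ‖X 0‖` and
`X` subexponential: `‖X n‖ ≤ C' (1+n)^C' + D' (1+n)^D' ‖X 0‖`. Proof as there: for `z ::ₘ s`,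
`X' n = B (X n) - z X n` (`‖X' 0‖ ≤ K ‖X 0‖`), `X (n+1) = z X n + Y n`; `‖z‖ ≤ 1`: sum; `‖z‖ > 1`: geometric series from
the right. (It is enough to keep one bound of the form `M (1+n)^C` with `M = 1 + ‖X 0‖`: the claim is: for all `C`
there is `C'` such that for all `M ≥ 1` and all `X` with `‖X 0‖ ≤ M`,
`‖rts s (B) (X n)‖ ≤ C (1+n)^C M`, `‖X (n+1) - B (X n)‖ ≤ C (1+n)^C M`, subexponential: `‖X n‖ ≤ C' (1+n)^C' M`.)
Start: `s` = all the roots, `rts s (B) = 0` (Cayley-Hamilton), `M = 1 + ∑ |H 0 j|`, `C ≥ |b|`.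
-/

set_option autoImplicit false

open Polynomial Filter Topology

namespace Pool.Agent.KST

private theorem ex_small {V : Type*} [SeminormedAddCommGroup V] [NormedSpace ℂ V] {z : ℂ}
    (hz : ‖z‖ ≤ 1) {X Y : ℕ → V} {D M : ℝ} {k : ℕ} (hD : 0 ≤ D) (hM : 0 ≤ M)
    (hX : ∀ n, X (n + 1) = z • X n + Y n) (hY : ∀ n : ℕ, ‖Y n‖ ≤ D * (1 + (n : ℝ)) ^ k * M)
    (h0 : ‖X 0‖ ≤ M) : ∀ n : ℕ, ‖X n‖ ≤ (1 + D) * (1 + (n : ℝ)) ^ (k + 1) * M := by
  have h1 : ∀ n : ℕ, ‖X n‖ ≤ M + n * (D * (1 + (n : ℝ)) ^ k * M) := by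
    intro n
    induction n with
    | zero => simpa using h0
    | succ n ih =>
      rw [hX]
      have h2 : ‖z • X n‖ ≤ ‖X n‖ := by
        rw [norm_smul]
        exact mul_le_of_le_one_left (norm_nonneg _) hz
      have h3 : D * (1 + (n : ℝ)) ^ k * M ≤ D * (1 + ((n + 1 : ℕ) : ℝ)) ^ k * M := by
        push_cast
        gcongr
        linarith
      have h4 : (0 : ℝ) ≤ n := Nat.cast_nonneg n
      calc ‖z • X n + Y n‖ ≤ ‖X n‖ + D * (1 + (n : ℝ)) ^ k * M :=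
            (norm_add_le _ _).trans (add_le_add h2 (hY n))
        _ ≤ M + n * (D * (1 + (n : ℝ)) ^ k * M) + D * (1 + (n : ℝ)) ^ k * M := by linarith
        _ ≤ M + n * (D * (1 + ((n + 1 : ℕ) : ℝ)) ^ k * M) +
            D * (1 + ((n + 1 : ℕ) : ℝ)) ^ k * M := by gcongr
        _ = _ := by push_cast; ring
  intro n
  refine (h1 n).trans ?_
  have hn : (0 : ℝ) ≤ n := Nat.cast_nonneg n
  have h2 : (1 : ℝ) ≤ 1 + n := by linarith
  have h3 : (1 : ℝ) ≤ (1 + (n : ℝ)) ^ (k + 1) := one_le_pow₀ h2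
  have h4 : (n : ℝ) * (D * (1 + (n : ℝ)) ^ k * M) ≤ D * (1 + (n : ℝ)) ^ (k + 1) * M := by
    have h5 : (n : ℝ) * (D * (1 + (n : ℝ)) ^ k * M) ≤ (1 + n) * (D * (1 + (n : ℝ)) ^ k * M) :=
      mul_le_mul_of_nonneg_right (by linarith) (by positivity)
    refine h5.trans (le_of_eq ?_)
    rw [pow_succ]
    ring
  have h5 : M ≤ (1 + (n : ℝ)) ^ (k + 1) * M := le_mul_of_one_le_left hM h3
  calc M + n * (D * (1 + (n : ℝ)) ^ k * M) ≤
        (1 + (n : ℝ)) ^ (k + 1) * M + D * (1 + (n : ℝ)) ^ (k + 1) * M := add_le_add h5 h4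
    _ = _ := by ring

private theorem ex_large {V : Type*} [SeminormedAddCommGroup V] [NormedSpace ℂ V] {z : ℂ}
    (hz : 1 < ‖z‖) {X Y : ℕ → V} {D M : ℝ} {k : ℕ} (hD : 0 ≤ D) (hM : 0 ≤ M)
    (hX : ∀ n, X (n + 1) = z • X n + Y n) (hY : ∀ n : ℕ, ‖Y n‖ ≤ D * (1 + (n : ℝ)) ^ k * M)
    (hs : ∀ ε : ℝ, 0 < ε → ∃ C : ℝ, ∀ n, ‖X n‖ ≤ C * (1 + ε) ^ n) (n : ℕ) :
    ‖X n‖ ≤ (D * ∑' j : ℕ, (1 + (j : ℝ)) ^ k * ‖z‖⁻¹ ^ (j + 1)) * (1 + (n : ℝ)) ^ k * M := by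
  obtain ⟨a, ha⟩ : ∃ a, a = ‖z‖ := ⟨_, rfl⟩
  rw [← ha] at hz ⊢
  have ha0 : 0 < a := by linarith
  have hr1 : a⁻¹ < 1 := inv_lt_one_of_one_lt₀ hz
  have hr0 : 0 < a⁻¹ := inv_pos.2 ha0
  have h1 : ∀ n, ‖X n‖ ≤ a⁻¹ * (‖X (n + 1)‖ + ‖Y n‖) := by
    intro n
    rw [inv_mul_eq_div, le_div_iff₀ ha0, mul_comm, ha, ← norm_smul]
    have h2 : z • X n = X (n + 1) - Y n := by rw [hX]; abel
    rw [h2]
    exact norm_sub_le _ _
  have h2 : ∀ n l, ‖X n‖ ≤ a⁻¹ ^ l * ‖X (n + l)‖ +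
      ∑ j ∈ Finset.range l, a⁻¹ ^ (j + 1) * ‖Y (n + j)‖ := by
    intro n l
    induction l with
    | zero => simp
    | succ l ih =>
      rw [Finset.sum_range_succ]
      have h3 := mul_le_mul_of_nonneg_left (h1 (n + l)) (pow_nonneg hr0.le l)
      calc ‖X n‖ ≤ _ := ih
        _ ≤ a⁻¹ ^ l * (a⁻¹ * (‖X (n + l + 1)‖ + ‖Y (n + l)‖)) +
            ∑ j ∈ Finset.range l, a⁻¹ ^ (j + 1) * ‖Y (n + j)‖ := by linarith
        _ = a⁻¹ ^ (l + 1) * ‖X (n + (l + 1))‖ +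
            (∑ j ∈ Finset.range l, a⁻¹ ^ (j + 1) * ‖Y (n + j)‖ +
              a⁻¹ ^ (l + 1) * ‖Y (n + l)‖) := by rw [← add_assoc n l 1, pow_succ]; ring
  have hsum : Summable fun j : ℕ => (1 + (j : ℝ)) ^ k * a⁻¹ ^ (j + 1) := by
    have h3 := summable_pow_mul_geometric_of_norm_lt_one (R := ℝ) k (r := a⁻¹) (by
      rw [Real.norm_of_nonneg hr0.le]
      exact hr1)
    have h4 := (summable_nat_add_iff 1).2 h3
    refine h4.congr fun j => ?_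
    push_cast
    rw [add_comm (j : ℝ) 1]
  obtain ⟨T, hT⟩ : ∃ T, T = ∑' j : ℕ, (1 + (j : ℝ)) ^ k * a⁻¹ ^ (j + 1) := ⟨_, rfl⟩
  rw [← hT]
  have h3 : ∀ l, ∑ j ∈ Finset.range l, a⁻¹ ^ (j + 1) * ‖Y (n + j)‖ ≤
      D * T * (1 + (n : ℝ)) ^ k * M := by
    intro l
    have h4 : ∀ j ∈ Finset.range l, a⁻¹ ^ (j + 1) * ‖Y (n + j)‖ ≤
        D * (1 + (n : ℝ)) ^ k * M * ((1 + (j : ℝ)) ^ k * a⁻¹ ^ (j + 1)) := by
      intro j _
      have h5 := hY (n + j)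
      have h6 : (1 + ((n + j : ℕ) : ℝ)) ^ k ≤ (1 + (n : ℝ)) ^ k * (1 + (j : ℝ)) ^ k := by
        rw [← mul_pow]
        push_cast
        have hn : (0 : ℝ) ≤ n := Nat.cast_nonneg n
        have hj : (0 : ℝ) ≤ j := Nat.cast_nonneg j
        gcongr
        nlinarith
      have h7 : ‖Y (n + j)‖ ≤ D * ((1 + (n : ℝ)) ^ k * (1 + (j : ℝ)) ^ k) * M :=
        h5.trans (mul_le_mul_of_nonneg_right (mul_le_mul_of_nonneg_left h6 hD) hM)
      calc a⁻¹ ^ (j + 1) * ‖Y (n + j)‖ ≤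
            a⁻¹ ^ (j + 1) * (D * ((1 + (n : ℝ)) ^ k * (1 + (j : ℝ)) ^ k) * M) :=
            mul_le_mul_of_nonneg_left h7 (by positivity)
        _ = _ := by ring
    refine (Finset.sum_le_sum h4).trans ?_
    rw [← Finset.mul_sum]
    have h5 : ∑ j ∈ Finset.range l, (1 + (j : ℝ)) ^ k * a⁻¹ ^ (j + 1) ≤ T := by
      rw [hT]
      exact hsum.sum_le_tsum _ fun j _ => by positivity
    calc D * (1 + (n : ℝ)) ^ k * M *
          ∑ j ∈ Finset.range l, (1 + (j : ℝ)) ^ k * a⁻¹ ^ (j + 1) ≤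
          D * (1 + (n : ℝ)) ^ k * M * T := mul_le_mul_of_nonneg_left h5 (by positivity)
      _ = _ := by ring
  obtain ⟨E, hE⟩ := hs ((a - 1) / 2) (by linarith)
  have h4 : ∀ l, ‖X n‖ ≤ E * (1 + (a - 1) / 2) ^ n * ((1 + (a - 1) / 2) * a⁻¹) ^ l +
      D * T * (1 + (n : ℝ)) ^ k * M := by
    intro l
    have h5 := mul_le_mul_of_nonneg_left (hE (n + l)) (pow_nonneg hr0.le l)
    calc ‖X n‖ ≤ _ := h2 n l
      _ ≤ a⁻¹ ^ l * (E * (1 + (a - 1) / 2) ^ (n + l)) + D * T * (1 + (n : ℝ)) ^ k * M :=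
          add_le_add h5 (h3 l)
      _ = _ := by rw [pow_add, mul_pow]; ring
  have h5 : Tendsto (fun l : ℕ => E * (1 + (a - 1) / 2) ^ n * ((1 + (a - 1) / 2) * a⁻¹) ^ l +
      D * T * (1 + (n : ℝ)) ^ k * M) atTop
      (𝓝 (E * (1 + (a - 1) / 2) ^ n * 0 + D * T * (1 + (n : ℝ)) ^ k * M)) := by
    refine ((tendsto_pow_atTop_nhds_zero_of_lt_one ?_ ?_).const_mul _).add_const _
    · have : 0 < 1 + (a - 1) / 2 := by linarith
      positivity
    · rw [← div_eq_mul_inv, div_lt_one ha0]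
      linarith
  have h6 := ge_of_tendsto' h5 h4
  rwa [mul_zero, zero_add] at h6

variable {ι : Type*} [Fintype ι] [DecidableEq ι]

omit [DecidableEq ι] in
private theorem ex_bound (M : Matrix ι ι ℂ) : ∃ K : ℝ, 0 ≤ K ∧ ∀ w, ‖M.mulVec w‖ ≤ K * ‖w‖ :=
  ⟨‖LinearMap.toContinuousLinearMap M.mulVecLin‖, norm_nonneg _, fun w =>
    (LinearMap.toContinuousLinearMap M.mulVecLin).le_opNorm w⟩

private theorem ex_aux (B : Matrix ι ι ℂ) (s : Multiset ℂ) : ∀ (D : ℝ) (k : ℕ), 0 ≤ D →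
    ∃ (D' : ℝ) (k' : ℕ), 0 ≤ D' ∧ ∀ (M : ℝ) (X : ℕ → ι → ℂ), 1 ≤ M → ‖X 0‖ ≤ M →
      (∀ n : ℕ, ‖(aeval B (LLC.rts s)).mulVec (X n)‖ ≤ D * (1 + (n : ℝ)) ^ k * M) →
      (∀ n : ℕ, ‖X (n + 1) - B.mulVec (X n)‖ ≤ D * (1 + (n : ℝ)) ^ k * M) →
      (∀ ε : ℝ, 0 < ε → ∃ C : ℝ, ∀ n, ‖X n‖ ≤ C * (1 + ε) ^ n) →
      ∀ n : ℕ, ‖X n‖ ≤ D' * (1 + (n : ℝ)) ^ k' * M := by
  induction s using Multiset.induction_on with
  | empty =>
    intro D k hD
    refine ⟨D, k, hD, fun M X _ _ h1 _ _ => ?_⟩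
    have h2 : LLC.rts (0 : Multiset ℂ) = 1 := by simp [LLC.rts]
    simpa [h2] using h1
  | cons z s ih =>
    intro D k hD
    obtain ⟨N, hN⟩ : ∃ N : Matrix ι ι ℂ, N = aeval B (Polynomial.X - C z) := ⟨_, rfl⟩
    have hr : LLC.rts (z ::ₘ s) = LLC.rts s * (Polynomial.X - C z) := by
      unfold LLC.rts
      rw [Multiset.map_cons, Multiset.prod_cons, mul_comm]
    have hN' : N = B - algebraMap ℂ (Matrix ι ι ℂ) z := by
      rw [hN, map_sub, aeval_X, aeval_C]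
    have hNv : ∀ v, N.mulVec v = B.mulVec v - z • v := by
      intro v
      rw [hN', Matrix.sub_mulVec, Algebra.algebraMap_eq_smul_one, Matrix.smul_mulVec,
        Matrix.one_mulVec]
    have hcomm : B * N = N * B := by
      rw [hN', mul_sub, sub_mul, Algebra.commutes]
    obtain ⟨K, hK0, hK⟩ := ex_bound N
    obtain ⟨D₁, k₁, hD₁, ih'⟩ := ih D k hD
    obtain ⟨Q, hQ⟩ : ∃ Q : ℝ, Q = 1 + K := ⟨_, rfl⟩
    have hQ1 : 1 ≤ Q := by linarith
    have hQK : K ≤ Q := by linarith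
    have hQ0 : 0 ≤ Q := by linarith
    -- the constants for `Y`
    obtain ⟨D₂, hD₂⟩ : ∃ D₂ : ℝ, D₂ = D₁ * Q + D := ⟨_, rfl⟩
    have hD₂0 : 0 ≤ D₂ := by
      rw [hD₂]
      positivity
    -- the constants for `X`
    have hmain : ∀ (M : ℝ) (X : ℕ → ι → ℂ), 1 ≤ M → ‖X 0‖ ≤ M →
        (∀ n : ℕ, ‖(aeval B (LLC.rts (z ::ₘ s))).mulVec (X n)‖ ≤ D * (1 + (n : ℝ)) ^ k * M) →
        (∀ n : ℕ, ‖X (n + 1) - B.mulVec (X n)‖ ≤ D * (1 + (n : ℝ)) ^ k * M) →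
        (∀ ε : ℝ, 0 < ε → ∃ C : ℝ, ∀ n, ‖X n‖ ≤ C * (1 + ε) ^ n) →
        (∀ n, X (n + 1) = z • X n + (N.mulVec (X n) + (X (n + 1) - B.mulVec (X n)))) ∧
        ∀ n : ℕ, ‖N.mulVec (X n) + (X (n + 1) - B.mulVec (X n))‖ ≤
          D₂ * (1 + (n : ℝ)) ^ (max k₁ k) * M := by
      intro M X hM h0 h1 h2 h3
      have hM0 : 0 ≤ M := by linarith
      have h4 : ∀ n : ℕ, ‖N.mulVec (X n)‖ ≤ D₁ * (1 + (n : ℝ)) ^ k₁ * (Q * M) := by
        refine ih' (Q * M) (fun n => N.mulVec (X n)) ?_ ?_ ?_ ?_ ?_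
        · calc (1 : ℝ) = 1 * 1 := (one_mul 1).symm
            _ ≤ Q * M := mul_le_mul hQ1 hM zero_le_one hQ0
        · exact (hK _).trans (mul_le_mul hQK h0 (norm_nonneg _) hQ0)
        · intro n
          have h5 := h1 n
          rw [hr, map_mul, ← hN, ← Matrix.mulVec_mulVec] at h5
          refine h5.trans ?_
          have h6 : M ≤ Q * M := le_mul_of_one_le_left hM0 hQ1
          exact mul_le_mul_of_nonneg_left h6 (by positivity)
        · intro n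
          have h6 : N.mulVec (X (n + 1)) - B.mulVec (N.mulVec (X n)) =
              N.mulVec (X (n + 1) - B.mulVec (X n)) := by
            rw [Matrix.mulVec_sub, Matrix.mulVec_mulVec, Matrix.mulVec_mulVec, hcomm]
          show ‖N.mulVec (X (n + 1)) - B.mulVec (N.mulVec (X n))‖ ≤ _
          rw [h6]
          calc ‖N.mulVec (X (n + 1) - B.mulVec (X n))‖ ≤
                K * ‖X (n + 1) - B.mulVec (X n)‖ := hK _
            _ ≤ Q * (D * (1 + (n : ℝ)) ^ k * M) :=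
                mul_le_mul hQK (h2 n) (norm_nonneg _) hQ0
            _ = _ := by ring
        · intro ε hε
          obtain ⟨E, hE⟩ := h3 ε hε
          refine ⟨K * E, fun n => (hK _).trans ?_⟩
          rw [mul_assoc]
          exact mul_le_mul_of_nonneg_left (hE n) hK0
      refine ⟨fun n => ?_, fun n => ?_⟩
      · rw [hNv]
        abel
      · have hn1 : (1 : ℝ) ≤ 1 + n := by
          have : (0 : ℝ) ≤ n := Nat.cast_nonneg n
          linarith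
        have e1 : (1 + (n : ℝ)) ^ k₁ ≤ (1 + (n : ℝ)) ^ (max k₁ k) :=
          pow_le_pow_right₀ hn1 (le_max_left _ _)
        have e2 : (1 + (n : ℝ)) ^ k ≤ (1 + (n : ℝ)) ^ (max k₁ k) :=
          pow_le_pow_right₀ hn1 (le_max_right _ _)
        calc ‖N.mulVec (X n) + (X (n + 1) - B.mulVec (X n))‖ ≤
              D₁ * (1 + (n : ℝ)) ^ k₁ * (Q * M) + D * (1 + (n : ℝ)) ^ k * M :=
              (norm_add_le _ _).trans (add_le_add (h4 n) (h2 n))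
          _ ≤ D₁ * (1 + (n : ℝ)) ^ (max k₁ k) * (Q * M) +
              D * (1 + (n : ℝ)) ^ (max k₁ k) * M := by gcongr
          _ = _ := by
              rw [hD₂]
              ring
    rcases le_or_gt ‖z‖ 1 with hz | hz
    · refine ⟨1 + D₂, max k₁ k + 1, by linarith, fun M X hM h0 h1 h2 h3 => ?_⟩
      obtain ⟨h5, h6⟩ := hmain M X hM h0 h1 h2 h3
      exact ex_small hz hD₂0 (by linarith) h5 h6 h0
    · refine ⟨D₂ * ∑' j : ℕ, (1 + (j : ℝ)) ^ (max k₁ k) * ‖z‖⁻¹ ^ (j + 1), max k₁ k, ?_,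
        fun M X hM h0 h1 h2 h3 => ?_⟩
      · exact mul_nonneg hD₂0 (tsum_nonneg fun j => by positivity)
      · obtain ⟨h5, h6⟩ := hmain M X hM h0 h1 h2 h3
        exact fun n => ex_large hz hD₂0 (by linarith) h5 h6 h3 n

theorem expb (A : Matrix ι ι ℤ) (b : ℝ) :
    ∃ C : ℕ, ∀ H : ℕ → ι → ℝ,
      (∀ n i, |H (n + 1) i - ∑ j, (A i j : ℝ) * H n j| ≤ b) →
      (∀ ε : ℝ, 0 < ε → ∃ C' : ℝ, ∀ n i, |H n i| ≤ C' * (1 + ε) ^ n) →
      ∀ n i, |H n i| ≤ C * (1 + (n : ℝ)) ^ C * (1 + ∑ j, |H 0 j|) := by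
  obtain ⟨B, hB⟩ : ∃ B : Matrix ι ι ℂ, B = A.map (Int.cast : ℤ → ℂ) := ⟨_, rfl⟩
  have hchar : aeval B (LLC.rts (B.charpoly.roots)) = 0 := by
    have h1 : LLC.rts (B.charpoly.roots) = B.charpoly := by
      unfold LLC.rts
      exact ((IsAlgClosed.splits B.charpoly).eq_prod_roots_of_monic B.charpoly_monic).symm
    rw [h1]
    exact Matrix.aeval_self_charpoly B
  obtain ⟨D', k', hD', hmain⟩ := ex_aux B B.charpoly.roots |b| 0 (abs_nonneg b)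
  obtain ⟨E, hE⟩ := exists_nat_ge D'
  refine ⟨max E k', fun H hH hs n i => ?_⟩
  have hsum : 0 ≤ ∑ j, |H 0 j| := Finset.sum_nonneg fun j _ => abs_nonneg _
  have h1 := hmain (1 + ∑ j, |H 0 j|) (fun n i => (H n i : ℂ)) (by linarith) ?_ ?_ ?_ ?_ n
  · have h2 := (norm_le_pi_norm (fun i => (H n i : ℂ)) i).trans h1
    rw [Complex.norm_real, Real.norm_eq_abs] at h2
    refine h2.trans ?_
    have hn1 : (1 : ℝ) ≤ 1 + n := by
      have : (0 : ℝ) ≤ n := Nat.cast_nonneg n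
      linarith
    have e1 : (1 + (n : ℝ)) ^ k' ≤ (1 + (n : ℝ)) ^ (max E k') :=
      pow_le_pow_right₀ hn1 (le_max_right _ _)
    have e2 : D' ≤ (max E k' : ℕ) := hE.trans (by exact_mod_cast le_max_left E k')
    have e3 : D' * (1 + (n : ℝ)) ^ k' ≤ (max E k' : ℕ) * (1 + (n : ℝ)) ^ (max E k') :=
      mul_le_mul e2 e1 (by positivity) (Nat.cast_nonneg _)
    exact mul_le_mul_of_nonneg_right e3 (by linarith)
  · rw [pi_norm_le_iff_of_nonneg (by linarith)]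
    intro i
    rw [Complex.norm_real, Real.norm_eq_abs]
    have h2 : |H 0 i| ≤ ∑ j, |H 0 j| :=
      Finset.single_le_sum (f := fun j => |H 0 j|) (fun j _ => abs_nonneg _) (Finset.mem_univ i)
    linarith
  · intro n
    show ‖(aeval B (LLC.rts B.charpoly.roots)).mulVec (fun i => (H n i : ℂ))‖ ≤ _
    rw [hchar, Matrix.zero_mulVec, norm_zero]
    positivity
  · intro n
    have h3 : ‖(fun i => (H (n + 1) i : ℂ)) - B.mulVec (fun i => (H n i : ℂ))‖ ≤ |b| := by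
      rw [pi_norm_le_iff_of_nonneg (abs_nonneg b)]
      intro i
      have h1 : ((fun i => (H (n + 1) i : ℂ)) - B.mulVec (fun i => (H n i : ℂ))) i =
          ((H (n + 1) i - ∑ j, (A i j : ℝ) * H n j : ℝ) : ℂ) := by
        rw [Pi.sub_apply, hB]
        simp only [Matrix.mulVec, dotProduct, Matrix.map_apply]
        push_cast
        rfl
      rw [h1, Complex.norm_real, Real.norm_eq_abs]
      exact (hH n i).trans (le_abs_self b)
    refine h3.trans ?_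
    rw [pow_zero, mul_one]
    exact le_mul_of_one_le_right (abs_nonneg b) (by linarith)
  · intro ε hε
    obtain ⟨E, hE⟩ := hs ε hε
    refine ⟨|E|, fun n => ?_⟩
    rw [pi_norm_le_iff_of_nonneg (by positivity)]
    intro i
    rw [Complex.norm_real, Real.norm_eq_abs]
    refine (hE n i).trans ?_
    have : (0 : ℝ) ≤ (1 + ε) ^ n := by positivity
    exact mul_le_mul_of_nonneg_right (le_abs_self E) this

end Pool.Agent.KST
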