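import Pool.Agent.KST.Sdefs
import Pool.Agent.KST.Expb
import Pool.Agent.KST.Contr
import Pool.Agent.LLC.Orbd

/-!
# KST HSL: the heights of the iterates of the points of the images of a slow curve

`hsl_fwd`: let `y = f^[n] y'`, `y' ∈ Z`. `poly_height` (LLC/Orbd) for `x₀`:
`absTotal (f^[k] x₀) ≤ C (1 + k) ^ C`. By `hfl` for `y'`, `absTotal (f^[m] y) = absTotal (f^[m + n] y')` is
bounded by a polynomial in `m` (depending on `y'` and `n`). `H m i = absHeight ((f^[m] y) i).rep` satisfies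
`|H (m + 1) i - ∑ A i j H m j| ≤ b` (`lbnd`, `b` independent of `y`); it is nonnegative and
subexponential, so by `expb` `H m i ≤ C (1 + m) ^ C (1 + ∑ H 0 j)`, `C` independent of `y`;
`absTotal = ∑ H`.

`hsl_bwd`: (a) `absTotal (g^[k] x₀) ≤ C₁ d₂ ^ k` for all `k`: by `spec` `|(B ^ k) i j| ≤ C₂ d₂ ^ k`, and
`H k = B ^ k (H 0) + ∑_{l < k} B ^ (k - 1 - l) (e l)` with `|e l| ≤ b` (`recursion` in Contr.lean is
private: copy it), `∑_{l<k} d₂ ^ (k-1-l) ≤ d₂ ^ k / (d₂ - 1)`. So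
`∑_{j < k+1} (1 + absTotal (g^[j] x₀)) ≤ C₃ d₂ ^ k`. (b) For `m ≥ n`:
`g^[m] y = g^[m - n] y'` (`g^[n] (f^[n] y') = y'`), so by `hfl` for `g` and `y'`:
`absTotal (g^[m] y) ≤ r C₃ d₂ ^ (m - n) + C ≤ (r C₃ + 1) d₂ ^ m` for `m` large (depending on
`y'`, `n`). (c) `contr` with `c = r C₃ + 1` for `H m i = absHeight ((g^[m] y) i).rep`.
-/

open MvPolynomial
open scoped LinearAlgebra.Projectivization

namespace Pool.Agent.KST

open Pool.Agent.Helper90.KSC Pool.Agent.Helper63.SAND Pool.Agent.Helper63.WH Pool.Agent.PW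
  Pool.Agent.LLC

variable {E ι : Type*} [Field E] [CharZero E] [Algebra.IsAlgebraic ℚ E]
  [Fintype ι] [DecidableEq ι] {N : ι → ℕ}

private lemma hsl_pow_bound (ε : ℝ) (hε : 0 < ε) (k : ℕ) :
    ∃ K : ℝ, 0 ≤ K ∧ ∀ n : ℕ, (n : ℝ) ^ k ≤ K * (1 + ε) ^ n := by
  have h1 := tendsto_pow_const_div_const_pow_of_one_lt k (r := 1 + ε) (by linarith)
  obtain ⟨K, hK⟩ := h1.bddAbove_range
  refine ⟨max K 0, le_max_right _ _, fun n => ?_⟩
  have h2 : (n : ℝ) ^ k / (1 + ε) ^ n ≤ K := hK ⟨n, rfl⟩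
  have h3 : (0 : ℝ) < (1 + ε) ^ n := by positivity
  rw [div_le_iff₀ h3] at h2
  exact h2.trans (mul_le_mul_of_nonneg_right (le_max_left _ _) h3.le)

private lemma hsl_recursion (A : Matrix ι ι ℝ) (H e : ℕ → ι → ℝ)
    (he : ∀ n, H (n + 1) = A.mulVec (H n) + e n) (n : ℕ) :
    H n = (A ^ n).mulVec (H 0) + ∑ k ∈ Finset.range n, (A ^ (n - 1 - k)).mulVec (e k) := by
  induction n with
  | zero => simp
  | succ n ih =>
    rw [he n, Finset.sum_range_succ]
    conv_lhs => rw [ih]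
    rw [Matrix.mulVec_add, Matrix.mulVec_mulVec, ← pow_succ', Matrix.mulVec_sum]
    have h1 : n + 1 - 1 - n = 0 := by omega
    rw [h1, pow_zero, Matrix.one_mulVec, ← add_assoc]
    congr 2
    refine Finset.sum_congr rfl fun k hk => ?_
    have hk' := Finset.mem_range.1 hk
    rw [Matrix.mulVec_mulVec, ← pow_succ']
    congr 2
    omega

private lemma hsl_geom {d : ℝ} (hd : 1 < d) (n : ℕ) :
    ∑ k ∈ Finset.range n, d ^ (n - 1 - k) ≤ d ^ n / (d - 1) := by
  rw [Finset.sum_range_reflect (fun k => d ^ k) n, geom_sum_eq hd.ne']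
  apply div_le_div_of_nonneg_right _ (by linarith)
  linarith

private lemma hsl_upper (B : Matrix ι ι ℤ) (d : ℝ) (s : Multiset ℂ)
    (hB : (B.charpoly.map (Int.castRingHom ℂ)).roots = (d : ℂ) ::ₘ s) (r : ℝ)
    (hr : ∀ z ∈ s, ‖z‖ < r) (hr1 : 1 ≤ r) (hrd : r < d) (b : ℝ) :
    ∃ C : ℝ, 0 ≤ C ∧ ∀ H : ℕ → ι → ℝ,
      (∀ n i, |H (n + 1) i - ∑ j, (B i j : ℝ) * H n j| ≤ b) →
      ∀ n i, |H n i| ≤ C * (1 + ∑ j, |H 0 j|) * d ^ n := by
  obtain ⟨P, C₁, hC₁, hpow, -, -⟩ := spec B d s hB r (by linarith) hr hrd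
  have hd1 : 1 < d := by linarith
  have hd0 : 0 < d := by linarith
  set A : Matrix ι ι ℝ := B.map (Int.cast : ℤ → ℝ) with hA
  have hApow : ∀ (n : ℕ) (i j : ι), (A ^ n) i j = (((B ^ n) i j : ℤ) : ℝ) := by
    intro n i j
    have h1 : A ^ n = (Int.castRingHom ℝ).mapMatrix (B ^ n) := by
      rw [map_pow]
      rfl
    rw [h1]
    rfl
  set C₂ : ℝ := ∑ i, ∑ j, |P i j| with hC₂
  have hC₂0 : 0 ≤ C₂ := Finset.sum_nonneg fun i _ => Finset.sum_nonneg fun j _ => abs_nonneg _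
  set K : ℝ := C₂ + C₁ with hK
  have hK0 : 0 ≤ K := by positivity
  have hAb : ∀ (n : ℕ) (i j : ι), |(A ^ n) i j| ≤ K * d ^ n := by
    intro n i j
    have hrm : r ^ n ≤ d ^ n := pow_le_pow_left₀ (by linarith) hrd.le n
    have h3 := hpow n i j
    rw [← hApow] at h3
    have h4 : |P i j| ≤ C₂ := by
      refine le_trans ?_ (Finset.single_le_sum (f := fun i => ∑ j, |P i j|)
        (fun i _ => Finset.sum_nonneg fun j _ => abs_nonneg _) (Finset.mem_univ i))
      exact Finset.single_le_sum (f := fun j => |P i j|) (fun j _ => abs_nonneg _)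
        (Finset.mem_univ j)
    have h5 : 0 < d ^ n := by positivity
    calc |(A ^ n) i j| = |d ^ n * P i j + ((A ^ n) i j - d ^ n * P i j)| := by
          congr 1; ring
      _ ≤ |d ^ n * P i j| + |(A ^ n) i j - d ^ n * P i j| := abs_add_le _ _
      _ ≤ d ^ n * C₂ + C₁ * d ^ n := by
          rw [abs_mul, abs_of_pos h5]
          have h6 := mul_le_mul_of_nonneg_left hrm hC₁
          have h7 := mul_le_mul_of_nonneg_left h4 h5.le
          linarith
      _ = K * d ^ n := by rw [hK]; ring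
  set N : ℝ := (Fintype.card ι : ℝ) with hN
  have hN0 : 0 ≤ N := Nat.cast_nonneg _
  have hd10 : 0 < d - 1 := by linarith
  have hb0 : 0 ≤ |b| := abs_nonneg b
  refine ⟨K + N * K * |b| / (d - 1), by positivity, ?_⟩
  intro H hH n i
  set e : ℕ → ι → ℝ := fun n => H (n + 1) - A.mulVec (H n) with he
  have heq : ∀ n, H (n + 1) = A.mulVec (H n) + e n := by
    intro n
    rw [he]
    simp
  have heb : ∀ n j, |e n j| ≤ |b| := by
    intro n j
    refine le_trans ?_ (le_abs_self b)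
    exact hH n j
  have hrec := congrFun (hsl_recursion A H e heq n) i
  have h1 : |((A ^ n).mulVec (H 0)) i| ≤ K * d ^ n * ∑ j, |H 0 j| := by
    unfold Matrix.mulVec dotProduct
    refine (Finset.abs_sum_le_sum_abs _ _).trans ?_
    rw [Finset.mul_sum]
    refine Finset.sum_le_sum fun j _ => ?_
    rw [abs_mul]
    exact mul_le_mul_of_nonneg_right (hAb n i j) (abs_nonneg _)
  have h2 : ∀ (m k : ℕ), |((A ^ m).mulVec (e k)) i| ≤ N * K * |b| * d ^ m := by
    intro m k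
    unfold Matrix.mulVec dotProduct
    calc |∑ j, (A ^ m) i j * e k j| ≤ ∑ j, |(A ^ m) i j * e k j| :=
          Finset.abs_sum_le_sum_abs _ _
      _ ≤ ∑ _j : ι, K * d ^ m * |b| := by
          refine Finset.sum_le_sum fun j _ => ?_
          rw [abs_mul]
          exact mul_le_mul (hAb m i j) (heb k j) (abs_nonneg _) (by positivity)
      _ = N * K * |b| * d ^ m := by
          rw [Finset.sum_const, Finset.card_univ, nsmul_eq_mul]
          ring
  have h3 : |(∑ k ∈ Finset.range n, (A ^ (n - 1 - k)).mulVec (e k)) i| ≤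
      N * K * |b| / (d - 1) * d ^ n := by
    rw [Finset.sum_apply]
    refine (Finset.abs_sum_le_sum_abs _ _).trans ?_
    calc ∑ k ∈ Finset.range n, |((A ^ (n - 1 - k)).mulVec (e k)) i|
        ≤ ∑ k ∈ Finset.range n, N * K * |b| * d ^ (n - 1 - k) :=
          Finset.sum_le_sum fun k _ => h2 _ k
      _ = N * K * |b| * ∑ k ∈ Finset.range n, d ^ (n - 1 - k) := by
          rw [Finset.mul_sum]
      _ ≤ N * K * |b| * (d ^ n / (d - 1)) :=
          mul_le_mul_of_nonneg_left (hsl_geom hd1 n) (by positivity)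
      _ = _ := by ring
  rw [hrec, Pi.add_apply]
  refine (abs_add_le _ _).trans ((add_le_add h1 h3).trans ?_)
  have hdn : 0 < d ^ n := by positivity
  have hS : 0 ≤ ∑ j, |H 0 j| := Finset.sum_nonneg fun j _ => abs_nonneg _
  have hq : 0 ≤ N * K * |b| / (d - 1) := by positivity
  set q := N * K * |b| / (d - 1) with hq'
  set S := ∑ j, |H 0 j| with hS'
  have e1 : K * S + q ≤ (K + q) * (1 + S) := by
    nlinarith [mul_nonneg hq hS]
  have e2 := mul_le_mul_of_nonneg_right e1 hdn.le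
  linarith

omit [CharZero E] [Algebra.IsAlgebraic ℚ E] [Fintype ι] [DecidableEq ι] in
private lemma hsl_gf (X : Set (PPt E N)) (f g : PPt E N → PPt E N) (hf : Set.MapsTo f X X)
    (hgf : ∀ x ∈ X, g (f x) = x) (n : ℕ) : ∀ y ∈ X, g^[n] (f^[n] y) = y := by
  induction n with
  | zero => intro y _; rfl
  | succ n ih =>
    intro y hy
    rw [Function.iterate_succ_apply, Function.iterate_succ_apply', hgf _ (hf.iterate n hy)]
    exact ih y hy

omit [DecidableEq ι] in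
private lemma hsl_le (z : PPt E N) (i : ι) : absHeight (z i).rep ≤ absTotal z := by
  unfold absTotal
  exact Finset.single_le_sum (f := fun i => absHeight (z i).rep)
    (fun i _ => absHeight_nonneg _) (Finset.mem_univ i)

omit [DecidableEq ι] in
private lemma hsl_nn (z : PPt E N) : 0 ≤ absTotal z :=
  Finset.sum_nonneg fun _ _ => absHeight_nonneg _

omit [DecidableEq ι] in
private lemma hsl_abs (z : PPt E N) : ∑ j, |absHeight (z j).rep| = absTotal z := by
  unfold absTotal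
  exact Finset.sum_congr rfl fun j _ => abs_of_nonneg (absHeight_nonneg _)

theorem hsl_fwd (X : Set (PPt E N)) (e₀ : ℕ) (f g : PPt E N → PPt E N) (A B : Matrix ι ι ℤ)
    (h : Aut3 X e₀ f g A B) (Z : Set (PPt E N)) (hZX : Z ⊆ X) (x₀ : PPt E N)
    (hx₀ : x₀ ∈ Z) (ha : AbsArithDegree f x₀ 1) (r : ℝ) (hr₀ : 0 ≤ r)
    (hfl : ∀ y ∈ Z, ∃ C : ℝ, ∀ n : ℕ, absTotal (f^[n] y) ≤
      r * ∑ j ∈ Finset.range (n + 1), (1 + absTotal (f^[j] x₀)) + C) :
    ∃ C₀ : ℕ, ∀ n : ℕ, ∀ y ∈ f^[n] '' Z, ∀ m : ℕ,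
      absTotal (f^[m] y) ≤ C₀ * (1 + m) ^ C₀ * (1 + absTotal y) := by
  obtain ⟨C₁, hC₁⟩ := poly_height X f h.mf A h.af x₀ (hZX hx₀) ha
  obtain ⟨b, hb⟩ := lbnd h.af
  obtain ⟨C₂, hC₂⟩ := expb A b
  refine ⟨Fintype.card ι * C₂ + C₂, ?_⟩
  rintro n y ⟨y', hy', rfl⟩ m
  obtain ⟨C, hC⟩ := hfl y' hy'
  have hyX : ∀ m, f^[m] (f^[n] y') ∈ X := fun m => h.mf.iterate m (h.mf.iterate n (hZX hy'))
  have h1 := hC₂ (fun m i => absHeight ((f^[m] (f^[n] y')) i).rep)
    (fun m i => by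
      have h1 := hb _ (hyX m) i
      rw [Function.iterate_succ_apply']
      exact h1)
    (fun ε hε => by
      obtain ⟨K₁, hK₁, hK₁'⟩ := hsl_pow_bound ε hε (C₁ + 1)
      obtain ⟨K₂, hK₂, hK₂'⟩ := hsl_pow_bound ε hε 1
      refine ⟨(|r| * (K₂ + C₁ * K₁) + |C|) * (1 + ε) ^ (n + 1), fun m i => ?_⟩
      rw [abs_of_nonneg (absHeight_nonneg _)]
      refine (hsl_le _ i).trans ?_
      rw [← Function.iterate_add_apply]
      refine (hC (m + n)).trans ?_
      have h3 := hK₁' (m + n + 1)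
      have h4 := hK₂' (m + n + 1)
      rw [pow_one] at h4
      have h5 : (1 + ε) ^ (m + n + 1) = (1 + ε) ^ (n + 1) * (1 + ε) ^ m := by
        rw [← pow_add]; congr 1; omega
      have hS : ∑ j ∈ Finset.range (m + n + 1), (1 + absTotal (f^[j] x₀)) ≤
          (K₂ + C₁ * K₁) * (1 + ε) ^ (m + n + 1) := by
        have h6 : ∀ j ∈ Finset.range (m + n + 1), (1 + absTotal (f^[j] x₀)) ≤
            1 + C₁ * (((m + n + 1 : ℕ) : ℝ)) ^ C₁ := by
          intro j hj
          have hj' : j ≤ m + n := by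
            have := Finset.mem_range.1 hj
            omega
          have h7 := hC₁ j
          have h8 : (1 + (j : ℝ)) ^ C₁ ≤ (((m + n + 1 : ℕ) : ℝ)) ^ C₁ := by
            refine pow_le_pow_left₀ (by positivity) ?_ _
            push_cast
            have : (j : ℝ) ≤ ((m + n : ℕ) : ℝ) := by exact_mod_cast hj'
            push_cast at this
            linarith
          have h9 : (C₁ : ℝ) * (1 + (j : ℝ)) ^ C₁ ≤ C₁ * (((m + n + 1 : ℕ) : ℝ)) ^ C₁ :=
            mul_le_mul_of_nonneg_left h8 (Nat.cast_nonneg _)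
          linarith
        refine (Finset.sum_le_sum h6).trans ?_
        rw [Finset.sum_const, Finset.card_range, nsmul_eq_mul]
        have h10 : (C₁ : ℝ) * (((m + n + 1 : ℕ) : ℝ)) ^ (C₁ + 1) ≤
            C₁ * (K₁ * (1 + ε) ^ (m + n + 1)) :=
          mul_le_mul_of_nonneg_left h3 (Nat.cast_nonneg _)
        have h11 : ((m + n + 1 : ℕ) : ℝ) * (1 + C₁ * (((m + n + 1 : ℕ) : ℝ)) ^ C₁) =
            ((m + n + 1 : ℕ) : ℝ) + C₁ * (((m + n + 1 : ℕ) : ℝ)) ^ (C₁ + 1) := by ring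
        rw [h11]
        nlinarith
      have hS0 : 0 ≤ ∑ j ∈ Finset.range (m + n + 1), (1 + absTotal (f^[j] x₀)) :=
        Finset.sum_nonneg fun j _ => by
          have := hsl_nn (f^[j] x₀)
          linarith
      have h7 : r * ∑ j ∈ Finset.range (m + n + 1), (1 + absTotal (f^[j] x₀)) ≤
          |r| * ((K₂ + C₁ * K₁) * (1 + ε) ^ (m + n + 1)) :=
        (mul_le_mul_of_nonneg_right (le_abs_self r) hS0).trans
          (mul_le_mul_of_nonneg_left hS (abs_nonneg r))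
      have h8 : C ≤ |C| * (1 + ε) ^ (m + n + 1) := by
        have h9 : (1 : ℝ) ≤ (1 + ε) ^ (m + n + 1) := one_le_pow₀ (by linarith)
        have h10 := abs_nonneg C
        have h11 := le_abs_self C
        nlinarith
      refine (add_le_add h7 h8).trans (le_of_eq ?_)
      rw [h5]
      ring)
  have hsum : ∑ j, |absHeight ((f^[0] (f^[n] y')) j).rep| = absTotal (f^[n] y') :=
    hsl_abs _
  have h1m : (1 : ℝ) ≤ 1 + m := by
    have : (0 : ℝ) ≤ m := Nat.cast_nonneg m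
    linarith
  have hT := hsl_nn (f^[n] y')
  have h2 : absTotal (f^[m] (f^[n] y')) ≤
      Fintype.card ι * (C₂ * (1 + m) ^ C₂ * (1 + absTotal (f^[n] y'))) := by
    rw [← hsl_abs]
    calc ∑ i, |absHeight ((f^[m] (f^[n] y')) i).rep|
        ≤ ∑ _i : ι, (C₂ : ℝ) * (1 + m) ^ C₂ * (1 + absTotal (f^[n] y')) := by
          refine Finset.sum_le_sum fun i _ => ?_
          have h3 := h1 m i
          rw [hsum] at h3
          exact h3
      _ = _ := by rw [Finset.sum_const, Finset.card_univ, nsmul_eq_mul]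
  refine h2.trans ?_
  have h3 : ((1 : ℝ) + m) ^ C₂ ≤ (1 + m) ^ (Fintype.card ι * C₂ + C₂) :=
    pow_le_pow_right₀ h1m (Nat.le_add_left _ _)
  have h5 : (0 : ℝ) ≤ (1 + (m : ℝ)) ^ (Fintype.card ι * C₂ + C₂) := by positivity
  have h6 : (0 : ℝ) ≤ C₂ := Nat.cast_nonneg _
  have h7 : (0 : ℝ) ≤ (1 + absTotal (f^[n] y')) := by linarith
  calc (Fintype.card ι : ℝ) * (C₂ * (1 + m) ^ C₂ * (1 + absTotal (f^[n] y')))
      = (Fintype.card ι * C₂) * (1 + (m : ℝ)) ^ C₂ * (1 + absTotal (f^[n] y')) := by ring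
    _ ≤ (Fintype.card ι * C₂) * (1 + (m : ℝ)) ^ (Fintype.card ι * C₂ + C₂) *
          (1 + absTotal (f^[n] y')) :=
        mul_le_mul_of_nonneg_right (mul_le_mul_of_nonneg_left h3 (by positivity)) h7
    _ ≤ ((Fintype.card ι * C₂ + C₂ : ℕ) : ℝ) * (1 + (m : ℝ)) ^ (Fintype.card ι * C₂ + C₂) *
          (1 + absTotal (f^[n] y')) := by
        refine mul_le_mul_of_nonneg_right (mul_le_mul_of_nonneg_right ?_ h5) h7
        push_cast
        linarith

theorem hsl_bwd (X : Set (PPt E N)) (e₀ : ℕ) (f g : PPt E N → PPt E N) (A B : Matrix ι ι ℤ)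
    (h : Aut3 X e₀ f g A B) (Z : Set (PPt E N)) (hZX : Z ⊆ X) (x₀ : PPt E N)
    (hx₀ : x₀ ∈ Z) (r : ℝ) (hr₀ : 0 ≤ r)
    (hfl : ∀ y ∈ Z, ∃ C : ℝ, ∀ n : ℕ, absTotal (g^[n] y) ≤
      r * ∑ j ∈ Finset.range (n + 1), (1 + absTotal (g^[j] x₀)) + C)
    (d₂ r₂ : ℝ) (s : Multiset ℂ)
    (hB : (B.charpoly.map (Int.castRingHom ℂ)).roots = (d₂ : ℂ) ::ₘ s)
    (hr : ∀ z ∈ s, ‖z‖ < r₂) (h1 : 1 ≤ r₂) (h2 : r₂ < d₂) :
    ∃ C₀ : ℝ, 0 ≤ C₀ ∧ ∀ n : ℕ, ∀ y ∈ f^[n] '' Z, ∀ m : ℕ,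
      absTotal (g^[m] y) ≤ C₀ * d₂ ^ m + C₀ * r₂ ^ m * (1 + absTotal y) := by
  have hd1 : 1 < d₂ := by linarith
  obtain ⟨b, hb⟩ := lbnd h.ag
  obtain ⟨C₁, hC₁0, hC₁⟩ := hsl_upper B d₂ s hB r₂ hr h1 h2 b
  obtain ⟨C₂, hC₂0, hC₂⟩ := contr B d₂ s hB r₂ hr h1 h2 b
  set M : ℝ := (Fintype.card ι : ℝ) with hM
  have hM0 : 0 ≤ M := Nat.cast_nonneg _
  set K₁ : ℝ := M * (C₁ * (1 + absTotal x₀)) with hK₁
  have hT0 := hsl_nn x₀
  have hK₁0 : 0 ≤ K₁ := by positivity
  have hx : ∀ k, absTotal (g^[k] x₀) ≤ K₁ * d₂ ^ k := by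
    intro k
    have h3 := hC₁ (fun m i => absHeight ((g^[m] x₀) i).rep)
      (fun m i => by
        have h1 := hb _ (h.mg.iterate m (hZX hx₀)) i
        rw [Function.iterate_succ_apply']
        exact h1) k
    have hsum : ∑ j, |absHeight ((g^[0] x₀) j).rep| = absTotal x₀ := hsl_abs _
    rw [← hsl_abs]
    calc ∑ i, |absHeight ((g^[k] x₀) i).rep|
        ≤ ∑ _i : ι, C₁ * (1 + absTotal x₀) * d₂ ^ k := by
          refine Finset.sum_le_sum fun i _ => ?_
          have h4 := h3 i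
          rw [hsum] at h4
          exact h4
      _ = K₁ * d₂ ^ k := by
          rw [Finset.sum_const, Finset.card_univ, nsmul_eq_mul, hK₁]
          ring
  set c : ℝ := |r| * (K₁ * (d₂ / (d₂ - 1))) + 1 with hc
  have hd1' : 0 < d₂ - 1 := by linarith
  have hc0 : 0 ≤ c := by positivity
  refine ⟨M * (C₂ * (c + 1)), by positivity, ?_⟩
  rintro n y ⟨y', hy', rfl⟩ m
  obtain ⟨C, hC⟩ := hfl y' hy'
  have hyX : f^[n] y' ∈ X := h.mf.iterate n (hZX hy')
  have hd0 : 0 < d₂ := by linarith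
  have hev : ∃ k₀ : ℕ, ∀ k, k₀ ≤ k → |r| * (1 + (k : ℝ)) + C ≤ d₂ ^ k := by
    have h3 := tendsto_pow_const_div_const_pow_of_one_lt 1 hd1
    have h4 : ∀ᶠ k : ℕ in Filter.atTop,
        (k : ℝ) ^ 1 / d₂ ^ k < 1 / ((|r| + |C| + 1) * d₂) :=
      (tendsto_order.1 h3).2 _ (by positivity)
    obtain ⟨k₀, hk₀⟩ := Filter.eventually_atTop.1 h4
    refine ⟨k₀, fun k hk => ?_⟩
    have h5 := hk₀ (k + 1) (by omega)
    have h6 : (0 : ℝ) < d₂ ^ (k + 1) := by positivity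
    rw [pow_one, div_lt_div_iff₀ h6 (by positivity), one_mul] at h5
    have h7 : ((k + 1 : ℕ) : ℝ) = 1 + k := by push_cast; ring
    rw [h7, pow_succ, ← mul_assoc] at h5
    have h9 := (lt_of_mul_lt_mul_right h5 hd0.le).le
    have h8 : (0 : ℝ) ≤ k := Nat.cast_nonneg k
    have h10 := le_abs_self C
    have h11 := abs_nonneg C
    calc |r| * (1 + (k : ℝ)) + C ≤ (1 + k) * (|r| + |C| + 1) := by nlinarith
      _ ≤ d₂ ^ k := h9
  obtain ⟨k₀, hk₀⟩ := hev
  have h3 := hC₂ (fun m i => absHeight ((g^[m] (f^[n] y')) i).rep)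
    (fun m i => by
      have h1 := hb _ (h.mg.iterate m hyX) i
      rw [Function.iterate_succ_apply']
      exact h1) c hc0
    ⟨n + k₀, fun m hm i => by
      rw [abs_of_nonneg (absHeight_nonneg _)]
      refine (hsl_le _ i).trans ?_
      obtain ⟨k, rfl⟩ : ∃ k, m = k + n := ⟨m - n, by omega⟩
      rw [Function.iterate_add_apply, hsl_gf X f g h.mf h.gf n y' (hZX hy')]
      refine (hC k).trans ?_
      have h5 := hk₀ k (by omega)
      have hS : ∑ j ∈ Finset.range (k + 1), (1 + absTotal (g^[j] x₀)) ≤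
          (1 + k) + K₁ * (d₂ / (d₂ - 1)) * d₂ ^ k := by
        calc ∑ j ∈ Finset.range (k + 1), (1 + absTotal (g^[j] x₀))
            ≤ ∑ j ∈ Finset.range (k + 1), (1 + K₁ * d₂ ^ j) :=
              Finset.sum_le_sum fun j _ => add_le_add le_rfl (hx j)
          _ = (1 + k) + K₁ * ((d₂ ^ (k + 1) - 1) / (d₂ - 1)) := by
              rw [Finset.sum_add_distrib, ← Finset.mul_sum, geom_sum_eq hd1.ne',
                Finset.sum_const, Finset.card_range, nsmul_eq_mul, mul_one]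
              push_cast
              ring
          _ ≤ (1 + k) + K₁ * (d₂ ^ (k + 1) / (d₂ - 1)) := by
              have h6 : (d₂ ^ (k + 1) - 1) / (d₂ - 1) ≤ d₂ ^ (k + 1) / (d₂ - 1) :=
                div_le_div_of_nonneg_right (by linarith) hd1'.le
              have h7 := mul_le_mul_of_nonneg_left h6 hK₁0
              linarith
          _ = _ := by
              rw [pow_succ]
              ring
      have hS0 : 0 ≤ ∑ j ∈ Finset.range (k + 1), (1 + absTotal (g^[j] x₀)) :=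
        Finset.sum_nonneg fun j _ => by
          have := hsl_nn (g^[j] x₀)
          linarith
      have h6 : r * ∑ j ∈ Finset.range (k + 1), (1 + absTotal (g^[j] x₀)) ≤
          |r| * ((1 + k) + K₁ * (d₂ / (d₂ - 1)) * d₂ ^ k) :=
        (mul_le_mul_of_nonneg_right (le_abs_self r) hS0).trans
          (mul_le_mul_of_nonneg_left hS (abs_nonneg r))
      have h7 : d₂ ^ k ≤ d₂ ^ (k + n) := pow_le_pow_right₀ hd1.le (Nat.le_add_right _ _)
      calc r * ∑ j ∈ Finset.range (k + 1), (1 + absTotal (g^[j] x₀)) + C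
          ≤ |r| * ((1 + k) + K₁ * (d₂ / (d₂ - 1)) * d₂ ^ k) + C := add_le_add h6 le_rfl
        _ = |r| * (K₁ * (d₂ / (d₂ - 1))) * d₂ ^ k + (|r| * (1 + (k : ℝ)) + C) := by ring
        _ ≤ |r| * (K₁ * (d₂ / (d₂ - 1))) * d₂ ^ k + d₂ ^ k := add_le_add le_rfl h5
        _ = c * d₂ ^ k := by rw [hc]; ring
        _ ≤ c * d₂ ^ (k + n) := mul_le_mul_of_nonneg_left h7 hc0⟩ m
  have hsum : ∑ j, |absHeight ((g^[0] (f^[n] y')) j).rep| = absTotal (f^[n] y') :=
    hsl_abs _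
  have hT := hsl_nn (f^[n] y')
  have hdm : 0 < d₂ ^ m := by positivity
  have hrm : 0 < r₂ ^ m := by
    have : 0 < r₂ := by linarith
    positivity
  rw [← hsl_abs]
  calc ∑ i, |absHeight ((g^[m] (f^[n] y')) i).rep|
      ≤ ∑ _i : ι, (C₂ * (c + 1) * d₂ ^ m + C₂ * r₂ ^ m * (1 + absTotal (f^[n] y'))) := by
        refine Finset.sum_le_sum fun i _ => ?_
        have h4 := h3 i
        rw [hsum] at h4
        exact h4
    _ = M * (C₂ * (c + 1)) * d₂ ^ m + M * C₂ * r₂ ^ m * (1 + absTotal (f^[n] y')) := by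
        rw [Finset.sum_const, Finset.card_univ, nsmul_eq_mul, hM]
        ring
    _ ≤ M * (C₂ * (c + 1)) * d₂ ^ m +
          M * (C₂ * (c + 1)) * r₂ ^ m * (1 + absTotal (f^[n] y')) := by
        have h5 : M * C₂ ≤ M * (C₂ * (c + 1)) := by
          refine mul_le_mul_of_nonneg_left ?_ hM0
          nlinarith
        have h6 : 0 ≤ r₂ ^ m * (1 + absTotal (f^[n] y')) := by positivity
        have h7 := mul_le_mul_of_nonneg_right h5 h6
        nlinarith

end Pool.Agent.KST
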