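import Pool.Agent.KST.Sdefs2
import Pool.Agent.KST.Bst
import Pool.Agent.KST.Hsl

/-!
# KST BSL: the inequality on the images of a slow curve

`bsl`: `bst` for the given `n, ε, m'`: for `y ∈ f^[n'] '' Z ⊆ X`, `Φ(seg y) ≠ 0`, `lin b y ≠ 0`:
`m' / 2 h(y) ≤ h(f^[n] y) + ε h(g^[n] y) + T H + T ≤ (m' / 2 - 1) h(y) + C + T H + T`, so
`h(y) ≤ T' H + T'` with `T' = max T (T + C)` (`H = absHeight ![lin a y, lin b y] ≥ 0`, `lin` is the sum by
definition).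

`bsl_eq`: choose `r` with `1 < r < δ` and `‖z‖ < r` for all `z ∈ s + s'` (finite multisets, `gap_below` in
Exa.lean or directly by the maximum), `spec` for `A`, `B` (`P, P', C`), `bst_num` with `d₁ = d₂ = δ`,
`r₁ = r₂ = r`; `hsl_fwd` for `f`: `C₁`, and `hsl_bwd` for `g`: `C₂`. For `n` large
`κ δ ^ n / 2 - 1 ≥ C₁ (1 + n) ^ C₁ + C₂ r ^ n`, and `n ≥ N₀`: `bsl` with `ε = 1`, `m' = κ δ ^ n`:
`h(f^[n] y) + h(g^[n] y) ≤ C₁ (1 + n) ^ C₁ (1 + h(y)) + C₂ δ ^ n + C₂ r ^ n (1 + h(y)) ≤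
(m' / 2 - 1) h(y) + C`.

`bsl_lt`: let `max 1 δ₁ < d₁ < δ₂`. `|(A ^ n) i j| ≤ C₀ d₁ ^ n` (all the roots of the characteristic
polynomial have modulus less than `d₁`: `lin_up` in LLC/LinA for the columns, with a radius
between `max 1 δ₁` and `d₁`, the polynomial factor is absorbed; or `ZGB`: `gb_aux` in Exa.lean).
`bst_num'` gives `κ, ρ > 1`, `N₀`; `hsl_fwd`: `C₁`; `n` large with
`κ ρ ^ n / 2 - 1 ≥ C₁ (1 + n) ^ C₁`; `bsl` with `ε = 0`.
-/

open MvPolynomial Filter Topology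
open scoped LinearAlgebra.Projectivization

namespace Pool.Agent.KST

open Pool.Agent.Helper90.KSC Pool.Agent.Helper63.SAND Pool.Agent.Helper63.WH Pool.Agent.PW
  Pool.Agent.LLC

variable {E ι : Type*} [Field E] [CharZero E] [Algebra.IsAlgebraic ℚ E] [IsAlgClosed E]
  [Fintype ι] [DecidableEq ι] {N : ι → ℕ}

private theorem bsl_gap (δ : ℝ) (hδ : 1 < δ) (s : Multiset ℂ) (hs : ∀ z ∈ s, ‖z‖ < δ) :
    ∃ q : ℝ, 1 < q ∧ q < δ ∧ ∀ z ∈ s, ‖z‖ < q := by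
  induction s using Multiset.induction_on with
  | empty => exact ⟨(1 + δ) / 2, by linarith, by linarith, fun z hz => absurd hz (by simp)⟩
  | cons z s ih =>
    obtain ⟨q, h1, h2, h3⟩ := ih fun y hy => hs y (Multiset.mem_cons_of_mem hy)
    have hz : ‖z‖ < δ := hs z (Multiset.mem_cons_self z s)
    refine ⟨max q ((‖z‖ + δ) / 2), lt_max_of_lt_left h1, max_lt h2 (by linarith),
      fun y hy => ?_⟩
    rcases Multiset.mem_cons.1 hy with rfl | hy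
    · exact lt_max_of_lt_right (by linarith)
    · exact lt_max_of_lt_left (h3 y hy)

private theorem bsl_asym (κ δ q C₂ : ℝ) (C₁ : ℕ) (hκ : 0 < κ) (hδ : 1 < δ) (hq : 0 ≤ q)
    (hqδ : q < δ) :
    ∀ᶠ n : ℕ in atTop, (C₁ : ℝ) * (1 + n) ^ C₁ + C₂ * q ^ n + 1 ≤ κ * δ ^ n / 2 := by
  have hδ0 : (0 : ℝ) < δ := by linarith
  have h1 : Tendsto (fun n : ℕ => ((n : ℝ) + 1) ^ C₁ / δ ^ (n + 1)) atTop (𝓝 0) := by
    have := (tendsto_pow_const_div_const_pow_of_one_lt C₁ hδ).comp (tendsto_add_atTop_nat 1)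
    refine this.congr fun n => ?_
    simp
  have h2 : Tendsto (fun n : ℕ => (q / δ) ^ n) atTop (𝓝 0) :=
    tendsto_pow_atTop_nhds_zero_of_lt_one (by positivity) ((div_lt_one hδ0).2 hqδ)
  have h3 : Tendsto (fun n : ℕ => (δ⁻¹) ^ n) atTop (𝓝 0) :=
    tendsto_pow_atTop_nhds_zero_of_lt_one (by positivity) (inv_lt_one_of_one_lt₀ hδ)
  have h4 : Tendsto (fun n : ℕ => (C₁ * δ) * (((n : ℝ) + 1) ^ C₁ / δ ^ (n + 1)) +
      C₂ * (q / δ) ^ n + (δ⁻¹) ^ n) atTop (𝓝 0) := by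
    have := ((h1.const_mul ((C₁ : ℝ) * δ)).add (h2.const_mul C₂)).add h3
    simpa using this
  filter_upwards [h4.eventually_lt_const (show (0 : ℝ) < κ / 2 by positivity)] with n hn
  have hp : (0 : ℝ) < δ ^ n := by positivity
  have h5 : ((C₁ * δ) * (((n : ℝ) + 1) ^ C₁ / δ ^ (n + 1)) +
      C₂ * (q / δ) ^ n + (δ⁻¹) ^ n) * δ ^ n =
      (C₁ : ℝ) * (1 + n) ^ C₁ + C₂ * q ^ n + 1 := by
    rw [div_pow, inv_pow, pow_succ, add_comm (1 : ℝ) (n : ℝ)]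
    field_simp
  rw [← h5]
  have h6 := mul_le_mul_of_nonneg_right hn.le hp.le
  linarith

private theorem bsl_cons (B : Matrix ι ι ℂ) (s : Multiset ℂ) (z : ℂ) (v : ι → ℂ) :
    (Polynomial.aeval B (LLC.rts (z ::ₘ s))).mulVec v =
      (Polynomial.aeval B (LLC.rts s)).mulVec (B.mulVec v - z • v) := by
  have h1 : LLC.rts (z ::ₘ s) = LLC.rts s * (Polynomial.X - Polynomial.C z) := by
    rw [LLC.rts, Multiset.map_cons, Multiset.prod_cons, mul_comm, LLC.rts]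
  have h2 : (Polynomial.aeval B (Polynomial.X - Polynomial.C z)).mulVec v =
      B.mulVec v - z • v := by
    rw [map_sub, Polynomial.aeval_X, Polynomial.aeval_C, Matrix.sub_mulVec,
      Algebra.algebraMap_eq_smul_one, Matrix.smul_mulVec, Matrix.one_mulVec]
  rw [h1, map_mul, ← Matrix.mulVec_mulVec, h2]

/-- vectors killed by a polynomial with roots of modulus `< r` grow at most like `r ^ n` -/
private theorem bsl_up (B : Matrix ι ι ℂ) (r : ℝ) (hr : 0 < r) (s : Multiset ℂ) :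
    (∀ z ∈ s, ‖z‖ < r) → ∀ v : ι → ℂ, (Polynomial.aeval B (LLC.rts s)).mulVec v = 0 →
      ∃ K : ℝ, 0 ≤ K ∧ ∀ n : ℕ, ‖(B ^ n).mulVec v‖ ≤ K * r ^ n := by
  induction s using Multiset.induction_on with
  | empty =>
    intro _ v hv
    have h1 : LLC.rts (0 : Multiset ℂ) = 1 := by
      rw [LLC.rts, Multiset.map_zero, Multiset.prod_zero]
    rw [h1, map_one, Matrix.one_mulVec] at hv
    refine ⟨0, le_rfl, fun n => ?_⟩
    rw [hv, Matrix.mulVec_zero, norm_zero, zero_mul]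
  | cons z s ih =>
    intro hs v hv
    have hz : ‖z‖ < r := hs z (Multiset.mem_cons_self z s)
    rw [bsl_cons] at hv
    obtain ⟨K, hK, hb⟩ := ih (fun y hy => hs y (Multiset.mem_cons_of_mem hy)) _ hv
    set w := B.mulVec v - z • v with hw
    have hBv : B.mulVec v = w + z • v := by rw [hw]; abel
    have hd : 0 < r - ‖z‖ := by linarith
    refine ⟨max ‖v‖ (K / (r - ‖z‖)), le_max_of_le_left (norm_nonneg _), fun n => ?_⟩
    set M := max ‖v‖ (K / (r - ‖z‖)) with hM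
    have hKM : K ≤ M * (r - ‖z‖) := by
      rw [← div_le_iff₀ hd]
      exact le_max_right _ _
    have hM0 : 0 ≤ M := le_max_of_le_left (norm_nonneg _)
    induction n with
    | zero =>
      rw [pow_zero, pow_zero, Matrix.one_mulVec, mul_one]
      exact le_max_left _ _
    | succ n ihn =>
      have e1 : (B ^ (n + 1)).mulVec v = (B ^ n).mulVec w + z • (B ^ n).mulVec v := by
        rw [pow_succ, ← Matrix.mulVec_mulVec, hBv, Matrix.mulVec_add, Matrix.mulVec_smul]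
      have hrn : 0 ≤ r ^ n := by positivity
      calc ‖(B ^ (n + 1)).mulVec v‖ ≤ ‖(B ^ n).mulVec w‖ + ‖z • (B ^ n).mulVec v‖ := by
            rw [e1]; exact norm_add_le _ _
        _ ≤ K * r ^ n + ‖z‖ * (M * r ^ n) := by
            rw [norm_smul]
            exact add_le_add (hb n) (mul_le_mul_of_nonneg_left ihn (norm_nonneg _))
        _ ≤ M * (r - ‖z‖) * r ^ n + ‖z‖ * (M * r ^ n) := by
            have := mul_le_mul_of_nonneg_right hKM hrn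
            linarith
        _ = M * r ^ (n + 1) := by ring

private theorem bsl_mat (A : Matrix ι ι ℤ) (r : ℝ) (hr : 0 < r)
    (hA : ∀ z ∈ (A.charpoly.map (Int.castRingHom ℂ)).roots, ‖z‖ < r) :
    ∃ K : ℝ, ∀ (n : ℕ) (i j : ι), |(((A ^ n) i j : ℤ) : ℝ)| ≤ K * r ^ n := by
  set B : Matrix ι ι ℂ := A.map (Int.castRingHom ℂ) with hB
  have h0 : Polynomial.aeval B (LLC.rts (A.charpoly.map (Int.castRingHom ℂ)).roots) = 0 := by
    have h1 : Polynomial.aeval B (A.charpoly.map (Int.castRingHom ℂ)) = 0 := by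
      rw [← Matrix.charpoly_map]
      exact Matrix.aeval_self_charpoly _
    have h2 := (IsAlgClosed.splits (A.charpoly.map (Int.castRingHom ℂ))).eq_prod_roots_of_monic
        (A.charpoly_monic.map _)
    rw [h2] at h1
    exact h1
  have h3 : ∀ j : ι, ∃ K : ℝ, 0 ≤ K ∧
      ∀ n : ℕ, ‖(B ^ n).mulVec (Pi.single j 1)‖ ≤ K * r ^ n := fun j =>
    bsl_up B r hr _ hA _ (by rw [h0, Matrix.zero_mulVec])
  choose K hK0 hK using h3
  refine ⟨∑ j, K j, fun n i j => ?_⟩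
  have h4 : ((B ^ n).mulVec (Pi.single j 1)) i = (((A ^ n) i j : ℤ) : ℂ) := by
    rw [Matrix.mulVec_single_one]
    change (B ^ n) i j = _
    rw [hB, ← Matrix.map_pow]
    rfl
  have h5 : |(((A ^ n) i j : ℤ) : ℝ)| = ‖(((A ^ n) i j : ℤ) : ℂ)‖ := by
    rw [Complex.norm_intCast]
  rw [h5, ← h4]
  refine (norm_le_pi_norm _ i).trans ((hK j n).trans ?_)
  exact mul_le_mul_of_nonneg_right
    (Finset.single_le_sum (fun j _ => hK0 j) (Finset.mem_univ j)) (by positivity)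

omit [DecidableEq ι] [IsAlgClosed E] in
private theorem bsl_nn (y : PPt E N) : 0 ≤ absTotal y :=
  Finset.sum_nonneg fun _ _ => absHeight_nonneg _

theorem bsl (X : Set (PPt E N)) (e₀ : ℕ) (f g : PPt E N → PPt E N) (A B : Matrix ι ι ℤ)
    (h : Aut3 X e₀ f g A B) (Z : Set (PPt E N)) (hZX : Z ⊆ X)
    (t : ι → ι → ι → ℝ) (hcub : ∀ n, Cub (hm (Lf X f n)) (pt A t n)) (n ε : ℕ)
    (m' : ℝ) (hm' : 0 < m')
    (hcond : (Fintype.card (SIx N) : ℝ) * (2 * m' *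
            Tri t (om A (2 * n) + (ε : ℝ) • om A 0) (om A n) (om A n) +
          m' ^ 2 * Tri t (om A n) (om A n) (om A n)) <
        Tri t (om A (2 * n) + (ε : ℝ) • om A 0) (om A (2 * n) + (ε : ℝ) • om A 0) (om A n))
    (C : ℝ) (hC : ∀ k : ℕ, ∀ y ∈ f^[k] '' Z, absTotal (f^[n] y) + ε * absTotal (g^[n] y) ≤
      (m' / 2 - 1) * absTotal y + C) : Pins X f Z := by
  intro a ha
  obtain ⟨S, hS, hSb⟩ := bst X h.cl h.irr f g h.mf h.mg h.fg h.gf h.lf h.lg A B h.af h.ag t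
    hcub n ε m' hm' hcond a ha
  refine ⟨S, hS, fun b hb => ?_⟩
  obtain ⟨D, Φ, T, hΦ, hΦX, hT, hle⟩ := hSb b hb
  refine ⟨D, Φ, T + |C|, ⟨hΦ, by positivity, fun k y hy hΦy hby => ?_⟩, hΦX⟩
  have hyX : y ∈ X := by
    obtain ⟨z, hz, rfl⟩ := hy
    exact h.mf.iterate k (hZX hz)
  have h1 := hle y hyX hΦy hby
  have h2 := hC k y hy
  have h3 : (0 : ℝ) ≤ absHeight (![lin a y, lin b y] : Fin 2 → E) := absHeight_nonneg _
  have h4 : absHeight (![∑ w, a w * seg y w, ∑ w, b w * seg y w] : Fin 2 → E) =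
      absHeight (![lin a y, lin b y] : Fin 2 → E) := rfl
  rw [h4] at h1
  have h5 : (0 : ℝ) ≤ |C| * absHeight (![lin a y, lin b y] : Fin 2 → E) :=
    mul_nonneg (abs_nonneg _) h3
  have h6 := le_abs_self C
  rw [add_mul]
  linarith

/-- The case of equal dynamical degrees. -/
theorem bsl_eq (X : Set (PPt E N)) (e₀ : ℕ) (f g : PPt E N → PPt E N) (A B : Matrix ι ι ℤ)
    (h : Aut3 X e₀ f g A B) (δ : ℝ) (hδ : 1 < δ) (s s' : Multiset ℂ)
    (hA : (A.charpoly.map (Int.castRingHom ℂ)).roots = (δ : ℂ) ::ₘ s) (hAs : ∀ z ∈ s, ‖z‖ < δ)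
    (hB : (B.charpoly.map (Int.castRingHom ℂ)).roots = (δ : ℂ) ::ₘ s') (hBs : ∀ z ∈ s', ‖z‖ < δ)
    (hG : Gr3 X f A δ) (hG' : Gr3 X g B δ)
    (Z : Set (PPt E N)) (hZX : Z ⊆ X) (x₀ : PPt E N)
    (hx₀ : x₀ ∈ Z) (ha : AbsArithDegree f x₀ 1) (r : ℝ) (hr₀ : 0 ≤ r)
    (hfl : ∀ y ∈ Z, ∃ C : ℝ, ∀ n : ℕ, absTotal (f^[n] y) ≤
      r * ∑ j ∈ Finset.range (n + 1), (1 + absTotal (f^[j] x₀)) + C)
    (hgl : ∀ y ∈ Z, ∃ C : ℝ, ∀ n : ℕ, absTotal (g^[n] y) ≤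
      r * ∑ j ∈ Finset.range (n + 1), (1 + absTotal (g^[j] x₀)) + C) :
    Pins X f Z := by
  obtain ⟨q, hq1, hqδ, hqs⟩ := bsl_gap δ hδ (s + s') (fun z hz => by
    rcases Multiset.mem_add.1 hz with hz | hz
    · exact hAs z hz
    · exact hBs z hz)
  have hq0 : 0 < q := by linarith
  obtain ⟨P, CA, hCA, hPA, -, -⟩ := spec A δ s hA q hq0
    (fun z hz => hqs z (Multiset.mem_add.2 (Or.inl hz))) hqδ
  obtain ⟨P', CB, hCB, hPB, -, -⟩ := spec B δ s' hB q hq0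
    (fun z hz => hqs z (Multiset.mem_add.2 (Or.inr hz))) hqδ
  obtain ⟨t, -, -, hcub, κ, hκ, N₀, hN₀⟩ := bst_num X h.cl h.irr e₀ h.e1 h.deg f g h.mf h.mg
    h.fg h.gf h.lf h.lg A B h.af h.ag h.ab δ δ q q (max CA CB) hδ hδ hq1.le hq1.le hqδ hqδ P P'
    (fun n i j => (hPA n i j).trans
      (mul_le_mul_of_nonneg_right (le_max_left _ _) (by positivity)))
    (fun n i j => (hPB n i j).trans
      (mul_le_mul_of_nonneg_right (le_max_right _ _) (by positivity)))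
    hG hG'
  obtain ⟨C₁, hC₁⟩ := hsl_fwd X e₀ f g A B h Z hZX x₀ hx₀ ha r hr₀ hfl
  obtain ⟨C₂, hC₂0, hC₂⟩ := hsl_bwd X e₀ f g A B h Z hZX x₀ hx₀ r hr₀ hgl δ q s' hB
    (fun z hz => hqs z (Multiset.mem_add.2 (Or.inr hz))) hq1.le hqδ
  obtain ⟨n, hn, hnN⟩ := ((bsl_asym κ δ q C₂ C₁ hκ hδ hq0.le hqδ).and
    (eventually_ge_atTop N₀)).exists
  have hcond := hN₀ n hnN
  rw [min_self] at hcond
  refine bsl X e₀ f g A B h Z hZX t hcub n 1 (κ * δ ^ n) (by positivity) ?_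
    (C₁ * (1 + n) ^ C₁ + C₂ * δ ^ n + C₂ * q ^ n) (fun k y hy => ?_)
  · rw [Nat.cast_one, one_smul]
    exact hcond
  · have h1 := hC₁ k y hy n
    have h2 := hC₂ k y hy n
    have h3 := bsl_nn y
    rw [Nat.cast_one, one_mul]
    have h4 := mul_le_mul_of_nonneg_right hn h3
    linarith

/-- The case where the inverse has the larger dynamical degree. -/
theorem bsl_lt (X : Set (PPt E N)) (e₀ : ℕ) (f g : PPt E N → PPt E N) (A B : Matrix ι ι ℤ)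
    (h : Aut3 X e₀ f g A B) (δ₁ δ₂ : ℝ) (hδ₁ : 1 < δ₁) (hδ : δ₁ < δ₂)
    (hA : ∀ z ∈ (A.charpoly.map (Int.castRingHom ℂ)).roots, ‖z‖ ≤ δ₁)
    (hG' : Gr3 X g B δ₂)
    (Z : Set (PPt E N)) (hZX : Z ⊆ X) (x₀ : PPt E N)
    (hx₀ : x₀ ∈ Z) (ha : AbsArithDegree f x₀ 1) (r : ℝ) (hr₀ : 0 ≤ r)
    (hfl : ∀ y ∈ Z, ∃ C : ℝ, ∀ n : ℕ, absTotal (f^[n] y) ≤
      r * ∑ j ∈ Finset.range (n + 1), (1 + absTotal (f^[j] x₀)) + C) :
    Pins X f Z := by
  obtain ⟨d, hd1, hd2⟩ := exists_between hδ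
  obtain ⟨K, hK⟩ := bsl_mat A d (by linarith) fun z hz => (hA z hz).trans_lt hd1
  obtain ⟨t, -, -, hcub, κ, ρ, hκ, hρ, N₀, hN₀⟩ := bst_num' X h.cl h.irr e₀ h.e1 h.deg f g h.mf
    h.mg h.fg h.gf h.lf h.lg A B h.af h.ag h.ab d δ₂ K (by linarith) hd2 hK hG'
  obtain ⟨C₁, hC₁⟩ := hsl_fwd X e₀ f g A B h Z hZX x₀ hx₀ ha r hr₀ hfl
  obtain ⟨n, hn, hnN⟩ := ((bsl_asym κ ρ 0 0 C₁ hκ hρ le_rfl (by linarith)).and
    (eventually_ge_atTop N₀)).exists
  refine bsl X e₀ f g A B h Z hZX t hcub n 0 (κ * ρ ^ n) (by positivity) ?_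
    (C₁ * (1 + n) ^ C₁) (fun k y hy => ?_)
  · rw [Nat.cast_zero, zero_smul, add_zero]
    exact hN₀ n hnN
  · have h1 := hC₁ k y hy n
    have h3 := bsl_nn y
    rw [Nat.cast_zero, zero_mul, add_zero]
    rw [zero_mul, add_zero] at hn
    have h4 := mul_le_mul_of_nonneg_right hn h3
    linarith

end Pool.Agent.KST
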