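import Pool.Agent.LLC.Orbd
import Pool.Agent.LLC.Segk

/-!
# KST GAL: the degrees of the points of a finite hyperplane section

PROOF.  (a) FIELD. Let `L ⊆ E` be a number field which contains the coefficients of the finitely many forms `G s w` of
`LocallyByForms X f`, all the `a w`, `b w`, and the coefficients of finitely many multihomogeneous polynomials which cut out `Z`
(`ZClosed Z` gives a set `S` of polynomials; the polynomial ring is Noetherian, so the ideal generated by `S` is generated by a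
finite subset of `S`: `Submodule.fg_span_iff_fg_span_finset_subset` or `Ideal`/`Submodule.FG` of a span has a finite
subset spanning; the zeros are the same). As in `degLE_orbit` (`LLC/Orbd.lean`).
(b) CONJUGATION. For `σ : E ≃ₐ[L] E` and a point `y` let `σ y` be the point with the coordinates `σ ((y i).rep j)`. Claim: if
`z ∈ Z` then `σ z ∈ Z` (the equations have coefficients in `L` and are multihomogeneous: their vanishing does not depend on the
representatives) and `σ (f^[n] z) = f^[n] (σ z)` (induction: for `y ∈ X` with `σ y ∈ X` : choose `s, w` with `eval (seg y) (G s w) ≠ 0`,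
`= c seg (f y) w`; apply `σ`: the values of `G s` at `seg (σ y)` (proportional to `σ (seg y)`) are proportional to
`σ (seg (f y))` and to `seg (f (σ y))`, and not all zero; two points with proportional Segre coordinates are equal (`seg` is
injective on points; see `unseg_mk` in `LLC/Segk.lean`)). Here `f^[k] z` and `f^[k] (σ z)` are in `X`.
(c) COUNT. So the set `T = {y ∈ f^[n] '' Z | lin a y = t * lin b y}` is stable under all `σ` (the equation is homogeneous in
`seg y` with coefficients in `L`). Let `y ∈ T`, `F` the field generated over `L` by all the ratios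
`(y i).rep j / (y i).rep (w₀ i)`, `(y i).rep (w₀ i) ≠ 0`. It is finite over `L`, and the map from the `L`-embeddings `F → E` to `T`,
`φ ↦ σ y` for an extension `σ : E ≃ₐ[L] E` of `φ` (`E` is algebraically closed and algebraic over `L`:
`AlgHom.liftNormal`/`AlgEquiv`, see `IsAlgClosed.lift`, `Algebra.IsAlgebraic.algEquivOfAlgHom..`) is injective (`σ y` determines the
images of the ratios). The number of the embeddings is `[F : L]` (`AlgHom.card`, characteristic `0`), so `[F : L] ≤ M`, and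
`F` as an intermediate field of `E / ℚ` has degree `[L : ℚ] [F : L] ≤ [L : ℚ] M`. `D₀ = [L : ℚ]`.
-/

set_option autoImplicit false

open MvPolynomial
open scoped LinearAlgebra.Projectivization

namespace Pool.Agent.KST

open Pool.Agent.Helper90.KSC Pool.Agent.Helper63.SAND Pool.Agent.Helper63.WH

variable {E : Type*} [Field E] [CharZero E] [Algebra.IsAlgebraic ℚ E] [IsAlgClosed E]
  {ι : Type*} [Fintype ι] [DecidableEq ι] {N : ι → ℕ}

/-- The value at `y` of the linear form with the coefficients `a` in the Segre coordinates. -/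
noncomputable def lin (a : SIx N → E) (y : PPt E N) : E := ∑ w, a w * seg y w

section Conj

variable {E : Type*} [Field E] {ι : Type*} [Fintype ι] [DecidableEq ι] {N : ι → ℕ}

/-- the conjugate of a point -/
noncomputable def cj (σ : E →+* E) (y : PPt E N) : PPt E N := fun i =>
  Projectivization.mk E (fun j => σ ((y i).rep j)) (by
    intro h
    apply (y i).rep_nonzero
    funext j
    exact (map_eq_zero σ).1 (congrFun h j))

omit [Fintype ι] [DecidableEq ι] in
theorem cj_rep (σ : E →+* E) (y : PPt E N) : ∃ c : ι → E, (∀ i, c i ≠ 0) ∧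
    ∀ i j, ((cj σ y) i).rep j = c i * σ ((y i).rep j) := by
  have h : ∀ i, ∃ c : Eˣ, c • (fun j => σ ((y i).rep j)) = ((cj σ y) i).rep := fun i =>
    Projectivization.exists_smul_eq_mk_rep E _ _
  choose c hc using h
  exact ⟨fun i => c i, fun i => (c i).ne_zero, fun i j => (congrFun (hc i) j).symm⟩

omit [DecidableEq ι] in
theorem seg_cj (σ : E →+* E) (y : PPt E N) : ∃ c : E, c ≠ 0 ∧
    ∀ w, seg (cj σ y) w = c * σ (seg y w) := by
  obtain ⟨c, hc0, hc⟩ := cj_rep σ y
  refine ⟨∏ i, c i, Finset.prod_ne_zero_iff.2 fun i _ => hc0 i, fun w => ?_⟩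
  rw [seg, seg, map_prod, ← Finset.prod_mul_distrib]
  exact Finset.prod_congr rfl fun i _ => hc i (w i)

theorem eq_of_seg (x y : PPt E N) (c : E) (hc : c ≠ 0) (h : ∀ w, seg x w = c * seg y w) :
    x = y := by
  have hex : ∀ k, ∃ j, (x k).rep j ≠ 0 := fun k => Function.ne_iff.1 (x k).rep_nonzero
  choose w₀ hw₀ using hex
  have h0 : seg x w₀ ≠ 0 := Finset.prod_ne_zero_iff.2 fun k _ => hw₀ k
  funext i
  have h1 := LLC.unseg_mk x (seg x) 1 one_ne_zero (fun w => (one_mul _).symm) w₀ h0 i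
  have h2 := LLC.unseg_mk y (seg x) c hc h w₀ h0 i
  exact h1.symm.trans h2

theorem map_eval_fix {W : Type*} (σ : E →+* E) (P : MvPolynomial W E)
    (hP : ∀ d, σ (P.coeff d) = P.coeff d) (z : W → E) :
    σ (eval z P) = eval (fun w => σ (z w)) P := by
  rw [eval_eq, eval_eq, map_sum]
  refine Finset.sum_congr rfl fun d _ => ?_
  rw [map_mul, hP, map_prod]
  congr 1
  exact Finset.prod_congr rfl fun w _ => map_pow σ _ _

theorem eval_scale {W : Type*} (P : MvPolynomial W E) (e : ℕ) (hP : P.IsHomogeneous e) (c : E)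
    (z : W → E) : eval (fun w => c * z w) P = c ^ e * eval z P := by
  rw [eval_eq, eval_eq, Finset.mul_sum]
  refine Finset.sum_congr rfl fun d hd => ?_
  have h2 := hP (mem_support_iff.1 hd)
  rw [Finsupp.weight_apply, Finsupp.sum] at h2
  have h3 : ∑ w ∈ d.support, d w = e := by
    rw [← h2]
    simp
  simp only [mul_pow]
  rw [Finset.prod_mul_distrib, Finset.prod_pow_eq_pow_sum, h3]
  ring

theorem eval_scale_multi (P : MvPolynomial (Σ i, Fin (N i + 1)) E) (b : ι → ℕ)
    (hP : P.IsWeightedHomogeneous (fun s => Pi.single s.1 1) b) (c : ι → E)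
    (z : (Σ i, Fin (N i + 1)) → E) :
    eval (fun s => c s.1 * z s) P = (∏ i, c i ^ b i) * eval z P := by
  rw [eval_eq', eval_eq', Finset.mul_sum]
  refine Finset.sum_congr rfl fun d hd => ?_
  have h2 := hP (mem_support_iff.1 hd)
  have h3 : ∀ i, ∑ j, d ⟨i, j⟩ = b i := by
    intro i
    have h4 := congrFun h2 i
    have h5 : (d.sum fun (s : (Σ i, Fin (N i + 1))) (k : ℕ) =>
        k • (Pi.single s.1 1 : ι → ℕ)) = ∑ s, d s • (Pi.single s.1 1 : ι → ℕ) :=
      Finsupp.sum_fintype _ _ (fun _ => zero_smul _ _)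
    rw [Finsupp.weight_apply, h5, Finset.sum_apply, Fintype.sum_sigma] at h4
    rw [← h4, Finset.sum_eq_single i]
    · refine Finset.sum_congr rfl fun j _ => ?_
      rw [Pi.smul_apply, Pi.single_eq_same, smul_eq_mul, mul_one]
    · intro i' _ hi'
      refine Finset.sum_eq_zero fun j _ => ?_
      rw [Pi.smul_apply, Pi.single_eq_of_ne (Ne.symm hi'), smul_zero]
    · intro h
      exact absurd (Finset.mem_univ i) h
  simp only [mul_pow]
  rw [Finset.prod_mul_distrib]
  have h5 : ∏ s : (Σ i, Fin (N i + 1)), c s.1 ^ d s = ∏ i, c i ^ b i := by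
    rw [Fintype.prod_sigma]
    refine Finset.prod_congr rfl fun i _ => ?_
    change ∏ j, c i ^ d ⟨i, j⟩ = c i ^ b i
    rw [Finset.prod_pow_eq_pow_sum, h3]
  rw [h5]
  ring

/-- conjugation commutes with the morphism -/
theorem cj_map {X : Set (PPt E N)} {f : PPt E N → PPt E N} {e t : ℕ}
    {G : Fin t → SIx N → MvPolynomial (SIx N) E} (hhom : ∀ s w, (G s w).IsHomogeneous e)
    (hprop : ∀ s, ∀ x ∈ X, ∃ c : E, ∀ w, eval (seg x) (G s w) = c * seg (f x) w)
    (hne : ∀ x ∈ X, ∃ s w, eval (seg x) (G s w) ≠ 0) (σ : E →+* E)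
    (hσ : ∀ s w d, σ ((G s w).coeff d) = (G s w).coeff d) {y : PPt E N} (hy : y ∈ X)
    (hy' : cj σ y ∈ X) : cj σ (f y) = f (cj σ y) := by
  obtain ⟨s, w, hw⟩ := hne y hy
  obtain ⟨c, hc⟩ := hprop s y hy
  obtain ⟨c', hc'⟩ := hprop s _ hy'
  obtain ⟨c₁, hc₁, h₁⟩ := seg_cj σ y
  obtain ⟨c₂, hc₂, h₂⟩ := seg_cj σ (f y)
  have hc0 : c ≠ 0 := by
    rintro rfl
    exact hw (by rw [hc, zero_mul])
  have key : ∀ w, c' * seg (f (cj σ y)) w = c₁ ^ e * (σ c * σ (seg (f y) w)) := by
    intro w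
    have e1 : seg (cj σ y) = fun w => c₁ * σ (seg y w) := funext h₁
    rw [← hc' w, e1, eval_scale _ e (hhom s w), ← map_eval_fix σ _ (hσ s w), hc w, map_mul]
  have hσc : σ c ≠ 0 := (map_ne_zero σ).2 hc0
  have hc'0 : c' ≠ 0 := by
    rintro rfl
    have h3 := key w
    rw [zero_mul] at h3
    have h4 : seg (f y) w ≠ 0 := by
      intro h5
      exact hw (by rw [hc, h5, mul_zero])
    exact mul_ne_zero (pow_ne_zero _ hc₁) (mul_ne_zero hσc ((map_ne_zero σ).2 h4)) h3.symm
  apply eq_of_seg _ _ (c₂ * c' / (c₁ ^ e * σ c))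
    (div_ne_zero (mul_ne_zero hc₂ hc'0) (mul_ne_zero (pow_ne_zero _ hc₁) hσc))
  intro w
  have h3 := key w
  have h4 : σ (seg (f y) w) = c' * seg (f (cj σ y)) w / (c₁ ^ e * σ c) := by
    rw [h3]
    field_simp
  rw [h₂ w, h4]
  ring

theorem cj_iter {X : Set (PPt E N)} {f : PPt E N → PPt E N} (hf : Set.MapsTo f X X) {e t : ℕ}
    {G : Fin t → SIx N → MvPolynomial (SIx N) E} (hhom : ∀ s w, (G s w).IsHomogeneous e)
    (hprop : ∀ s, ∀ x ∈ X, ∃ c : E, ∀ w, eval (seg x) (G s w) = c * seg (f x) w)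
    (hne : ∀ x ∈ X, ∃ s w, eval (seg x) (G s w) ≠ 0) (σ : E →+* E)
    (hσ : ∀ s w d, σ ((G s w).coeff d) = (G s w).coeff d) {y : PPt E N} (hy : y ∈ X)
    (hy' : cj σ y ∈ X) (n : ℕ) : cj σ (f^[n] y) = f^[n] (cj σ y) := by
  induction n with
  | zero => rfl
  | succ n ih =>
    rw [Function.iterate_succ_apply', Function.iterate_succ_apply', ← ih]
    apply cj_map hhom hprop hne σ hσ ((hf.iterate n) hy)
    rw [ih]
    exact (hf.iterate n) hy'

omit [Fintype ι] [DecidableEq ι] in
theorem ratio_cj (σ : E →+* E) (y : PPt E N) (i : ι) (j k : Fin (N i + 1)) :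
    ((cj σ y) i).rep j / ((cj σ y) i).rep k = σ ((y i).rep j / (y i).rep k) := by
  obtain ⟨c, hc0, hc⟩ := cj_rep σ y
  rw [hc, hc, map_div₀, mul_div_mul_left _ _ (hc0 i)]

theorem zclosed_finite {Z : Set (PPt E N)} (hZ : ZClosed Z) :
    ∃ S : Finset (MvPolynomial (Σ i, Fin (N i + 1)) E),
      (∀ F ∈ S, ∃ b : ι → ℕ, F.IsWeightedHomogeneous (fun s => Pi.single s.1 1) b) ∧
      Z = {x | ∀ F ∈ S, eval (fun s => (x s.1).rep s.2) F = 0} := by
  obtain ⟨S, hS, rfl⟩ := hZ
  have hfg : (Ideal.span S).FG := (isNoetherianRing_iff_ideal_fg _).1 inferInstance _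
  obtain ⟨S', hS', hspan⟩ := Submodule.fg_span_iff_fg_span_finset_subset S |>.1 hfg
  refine ⟨S', fun F hF => hS F (hS' hF), ?_⟩
  ext x
  constructor
  · intro hx F hF
    exact hx F (hS' hF)
  · intro hx F hF
    have h1 : Ideal.span (S' : Set (MvPolynomial (Σ i, Fin (N i + 1)) E)) ≤
        RingHom.ker (eval (fun s : (Σ i, Fin (N i + 1)) => (x s.1).rep s.2)) := by
      rw [Ideal.span_le]
      intro F hF
      exact hx F hF
    have h2 : F ∈ Ideal.span S := Ideal.subset_span hF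
    have h3 : F ∈ Ideal.span (S' : Set (MvPolynomial (Σ i, Fin (N i + 1)) E)) := by
      have h4 : Ideal.span S = Ideal.span (S' : Set (MvPolynomial (Σ i, Fin (N i + 1)) E)) := hspan
      rw [← h4]
      exact h2
    exact h1 h3

end Conj

theorem gal (X : Set (PPt E N)) (f : PPt E N → PPt E N) (hf : Set.MapsTo f X X)
    (hloc : LocallyByForms X f) (Z : Set (PPt E N)) (hZ : ZClosed Z) (hZX : Z ⊆ X)
    (a b : SIx N → E) :
    ∃ D₀ : ℕ, ∀ n M t : ℕ, ∀ y ∈ f^[n] '' Z, lin a y = t * lin b y →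
      {y' ∈ f^[n] '' Z | lin a y' = t * lin b y'}.encard ≤ M → DegLE (D₀ * M) y := by
  classical
  obtain ⟨e, t, G, hhom, hprop, hne⟩ := hloc
  obtain ⟨Q, hQ, hZQ⟩ := zclosed_finite hZ
  obtain ⟨S, hS⟩ : ∃ S : Set E, S = (⋃ p : Fin t × SIx N, (fun d => (G p.1 p.2).coeff d) ''
    ((G p.1 p.2).support : Set _)) ∪ ((⋃ F : Q, (fun d => (F : MvPolynomial (Σ i, Fin (N i + 1)) E).coeff d) ''
    ((F : MvPolynomial (Σ i, Fin (N i + 1)) E).support :
      Set ((Σ i, Fin (N i + 1)) →₀ ℕ))) ∪ (Set.range a ∪ Set.range b)) := ⟨_, rfl⟩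
  have hSfin : S.Finite := by
    rw [hS]
    refine Set.Finite.union (Set.finite_iUnion fun p => ?_)
      (Set.Finite.union (Set.finite_iUnion fun F => ?_)
        (Set.Finite.union (Set.finite_range _) (Set.finite_range _)))
    · exact (Finset.finite_toSet _).image _
    · exact (Finset.finite_toSet _).image _
  have : Finite S := hSfin
  obtain ⟨L, hL⟩ : ∃ L : IntermediateField ℚ E, L = IntermediateField.adjoin ℚ S := ⟨_, rfl⟩
  have hLfin : FiniteDimensional ℚ L := by
    rw [hL]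
    exact IntermediateField.finiteDimensional_adjoin fun y _ =>
      (Algebra.IsAlgebraic.isAlgebraic (R := ℚ) y).isIntegral
  have hSL : ∀ x ∈ S, x ∈ L := by
    intro x hx
    rw [hL]
    exact IntermediateField.subset_adjoin _ _ hx
  have hcoef : ∀ s w d, (G s w).coeff d ∈ L := by
    intro s w d
    by_cases hd : d ∈ (G s w).support
    · apply hSL
      rw [hS]
      exact Or.inl (Set.mem_iUnion.2 ⟨(s, w), d, hd, rfl⟩)
    · rw [MvPolynomial.notMem_support_iff.1 hd]
      exact zero_mem L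
  have hcoefQ : ∀ F ∈ Q, ∀ d, F.coeff d ∈ L := by
    intro F hF d
    by_cases hd : d ∈ F.support
    · apply hSL
      rw [hS]
      exact Or.inr (Or.inl (Set.mem_iUnion.2 ⟨⟨F, hF⟩, d, hd, rfl⟩))
    · rw [MvPolynomial.notMem_support_iff.1 hd]
      exact zero_mem L
  have haL : ∀ w, a w ∈ L := by
    intro w
    apply hSL
    rw [hS]
    exact Or.inr (Or.inr (Or.inl ⟨w, rfl⟩))
  have hbL : ∀ w, b w ∈ L := by
    intro w
    apply hSL
    rw [hS]
    exact Or.inr (Or.inr (Or.inr ⟨w, rfl⟩))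
  have hfix : ∀ (σ : E →ₐ[L] E), ∀ x ∈ L, σ x = x := fun σ x hx => σ.commutes ⟨x, hx⟩
  have hZcj : ∀ (σ : E →ₐ[L] E), ∀ z ∈ Z, cj (σ : E →+* E) z ∈ Z := by
    intro σ z hz
    rw [hZQ] at hz ⊢
    intro F hF
    obtain ⟨d, hd⟩ := hQ F hF
    obtain ⟨c, hc0, hc⟩ := cj_rep (σ : E →+* E) z
    have h1 : (fun s : (Σ i, Fin (N i + 1)) => ((cj (σ : E →+* E) z) s.1).rep s.2) =
        fun s => c s.1 * (σ : E →+* E) ((z s.1).rep s.2) := funext fun s => hc s.1 s.2
    rw [h1, eval_scale_multi F d hd, ← map_eval_fix (σ : E →+* E) F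
      (fun d => hfix σ _ (hcoefQ F hF d)) (fun s : (Σ i, Fin (N i + 1)) => (z s.1).rep s.2),
      hz F hF, map_zero, mul_zero]
  have hlin : ∀ (σ : E →ₐ[L] E) (a : SIx N → E), (∀ w, a w ∈ L) → ∀ (y : PPt E N) (c : E),
      (∀ w, seg (cj (σ : E →+* E) y) w = c * σ (seg y w)) →
      lin a (cj (σ : E →+* E) y) = c * σ (lin a y) := by
    intro σ a ha y c hc
    rw [lin, lin, map_sum, Finset.mul_sum]
    refine Finset.sum_congr rfl fun w _ => ?_
    rw [hc, map_mul, hfix σ _ (ha w)]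
    ring
  refine ⟨Module.finrank ℚ L, fun n M m y hy hyl hM => ?_⟩
  obtain ⟨z, hz, rfl⟩ := hy
  set y := f^[n] z with hydef
  have hT : ∀ σ : E →ₐ[L] E, cj (σ : E →+* E) y ∈
      {y' ∈ f^[n] '' Z | lin a y' = m * lin b y'} := by
    intro σ
    refine ⟨⟨cj (σ : E →+* E) z, hZcj σ z hz, ?_⟩, ?_⟩
    · exact (cj_iter hf hhom hprop hne (σ : E →+* E) (fun s w d => hfix σ _ (hcoef s w d))
        (hZX hz) (hZX (hZcj σ z hz)) n).symm
    · obtain ⟨c, hc0, hc⟩ := seg_cj (σ : E →+* E) y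
      rw [hlin σ a haL y c hc, hlin σ b hbL y c hc, hyl, map_mul, map_natCast]
      ring
  have hex : ∀ k, ∃ j, (y k).rep j ≠ 0 := fun k =>
    Function.ne_iff.1 (y k).rep_nonzero
  choose w₀ hw₀ using hex
  obtain ⟨R, hR⟩ : ∃ R : Set E, R = Set.range fun p : (Σ i, Fin (N i + 1)) =>
    (y p.1).rep p.2 / (y p.1).rep (w₀ p.1) := ⟨_, rfl⟩
  have hRfin : R.Finite := by
    rw [hR]
    exact Set.finite_range _
  have : Finite R := hRfin
  obtain ⟨F, hF⟩ : ∃ F : IntermediateField L E, F = IntermediateField.adjoin L R := ⟨_, rfl⟩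
  have halg : Algebra.IsAlgebraic L E := Algebra.IsAlgebraic.tower_top (K := ℚ) L
  have hFfin : FiniteDimensional L F := by
    rw [hF]
    exact IntermediateField.finiteDimensional_adjoin fun y _ =>
      (Algebra.IsAlgebraic.isAlgebraic (R := L) y).isIntegral
  have hclos : IsAlgClosure L E := ⟨inferInstance, halg⟩
  have hnorm : Normal L E := IsAlgClosure.normal L E
  have hinj : Function.Injective fun φ : F →ₐ[L] E => cj ((φ.liftNormal E : E →ₐ[L] E) : E →+* E) y := by
    intro φ₁ φ₂ h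
    apply IntermediateField.algHom_ext_of_eq_adjoin (↥L) hF
    intro x hx
    have h1 := AlgHom.liftNormal_commutes φ₁ E ⟨x, hF ▸ IntermediateField.subset_adjoin _ _ hx⟩
    have h2 := AlgHom.liftNormal_commutes φ₂ E ⟨x, hF ▸ IntermediateField.subset_adjoin _ _ hx⟩
    rw [hR] at hx
    obtain ⟨p, hp⟩ := hx
    have h3 := ratio_cj ((φ₁.liftNormal E : E →ₐ[L] E) : E →+* E) y p.1 p.2 (w₀ p.1)
    have h4 := ratio_cj ((φ₂.liftNormal E : E →ₐ[L] E) : E →+* E) y p.1 p.2 (w₀ p.1)
    simp only at h hp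
    rw [h, h4, hp] at h3
    exact (h1.symm.trans h3.symm).trans h2
  have hcard : (Module.finrank L F : ℕ∞) ≤ M := by
    have hsep : Algebra.IsSeparable L F := inferInstance
    rw [← AlgHom.card L F E, ← ENat.card_eq_coe_fintype_card]
    refine hinj.encard_range.trans (le_trans (Set.encard_le_encard ?_) hM)
    rintro _ ⟨φ, rfl⟩
    exact hT _
  have hcard' : Module.finrank L F ≤ M := by exact_mod_cast hcard
  have hfinQ : FiniteDimensional ℚ F := FiniteDimensional.trans ℚ L F
  let eq : F ≃ₗ[ℚ] (IntermediateField.restrictScalars ℚ F) :=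
    { toFun := fun x => ⟨x, x.2⟩
      invFun := fun x => ⟨x, x.2⟩
      map_add' := fun _ _ => rfl
      map_smul' := fun _ _ => rfl
      left_inv := fun _ => rfl
      right_inv := fun _ => rfl }
  refine ⟨IntermediateField.restrictScalars ℚ F, Module.Finite.equiv eq, ?_, fun i => ?_⟩
  · rw [← eq.finrank_eq, ← Module.finrank_mul_finrank ℚ L F]
    exact Nat.mul_le_mul_left _ hcard'
  · refine ⟨((y i).rep (w₀ i))⁻¹, inv_ne_zero (hw₀ i), fun j => ?_⟩
    rw [IntermediateField.mem_restrictScalars, hF]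
    apply IntermediateField.subset_adjoin
    rw [hR]
    exact ⟨⟨i, j⟩, div_eq_inv_mul _ _⟩

end Pool.Agent.KST
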