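import Pool.Agent.KST.Sdefs
import Pool.Agent.KST.Gal

/-!
# KST: definitions for the conclusion, second part
-/

open MvPolynomial
open scoped LinearAlgebra.Projectivization

namespace Pool.Agent.KST

open Pool.Agent.Helper90.KSC Pool.Agent.Helper63.SAND Pool.Agent.Helper63.WH Pool.Agent.PW
  Pool.Agent.LLC

variable {E ι : Type*} [Field E] [CharZero E] [Algebra.IsAlgebraic ℚ E] [Fintype ι]
  [DecidableEq ι] {N : ι → ℕ}

/-- The heights of the points of the curves `f^[n] '' Z` are bounded in terms of the height of the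
quotient `l_a / l_b` of two linear forms, outside of the zeros of `Φ`. -/
structure Pin (f : PPt E N → PPt E N) (Z : Set (PPt E N)) (a b : SIx N → E)
    (D : ℕ) (Φ : MvPolynomial (SIx N) E) (T : ℝ) : Prop where
  hom : Φ.IsHomogeneous D
  nn : 0 ≤ T
  le : ∀ n : ℕ, ∀ y ∈ f^[n] '' Z, eval (seg y) Φ ≠ 0 → lin b y ≠ 0 →
    absTotal y ≤ T * absHeight ![lin a y, lin b y] + T

/-- There is the inequality `Pin` for all `a` and almost all `b`. -/
def Pins (X : Set (PPt E N)) (f : PPt E N → PPt E N) (Z : Set (PPt E N)) : Prop :=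
  ∀ a : SIx N → E, (∃ x ∈ X, lin a x ≠ 0) →
    ∃ S : Finset (Submodule E (SIx N → E)), (∀ T ∈ S, T ≠ ⊤) ∧
      ∀ b : SIx N → E, (∀ T ∈ S, b ∉ T) → ∃ (D : ℕ) (Φ : MvPolynomial (SIx N) E) (T : ℝ),
        Pin f Z a b D Φ T ∧ ∃ x ∈ X, eval (seg x) Φ ≠ 0

/-- The quotient `l_b / l_a` is not constant on `Y`. -/
def Ncs (Y : Set (PPt E N)) (a b : SIx N → E) : Prop :=
  (∃ y ∈ Y, lin a y ≠ 0) ∧ ∀ c : E, ∃ y ∈ Y, lin b y ≠ c * lin a y

end Pool.Agent.KST
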