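import Pool.Agent.Helper63.SAND.Defs

/-!
# KST ZC: the number of the zeros of a form on a curve

PROOF.  Let `n = T.card`, `S q = formsOn a q` (the functions on `Ω` given by forms of degree `q`, of dimension `hil a q`).
(a) For `q ≥ n` the restriction `S q → (T → E)` is onto: for `y ∈ T` and `y' ∈ T`, `y' ≠ y`, the vectors `a y`, `a y'` are not
proportional and `a y' ≠ 0`, so there is a linear form `l` with `l (a y') = 0`, `l (a y) ≠ 0` (a `2 × 2` minor
`X w * a y' w' - X w' * a y' w`: if all of them vanish at `a y` then, with `a y' w' ≠ 0`, `a y = (a y w' / a y' w') • a y'`);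
multiply these `n - 1` linear forms and a power of a coordinate which is not zero at `a y`: the function `δ_y` up to a constant, times.
So the kernel `K q` of the restriction has dimension `hil a q - n`.
(b) `G ↦ F G` maps `S (q - k)` into `K q` for `q ≥ k`, and it is injective (`PrimeH`, `F` is not in `Van`): so
`hil a (q - k) ≤ hil a q - n`, i.e. `hil a (q - k) + n ≤ hil a q` for `q ≥ max n k`. (Formally: linear maps between the finite
dimensional spaces `formsOn a (q-k)` and `formsOn a q`; `W` is finite.)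
(c) By induction `hil a (q₀ + j k) ≥ j n` for `q₀ = n`, and `hil a (q₀ + j k) ≤ e (q₀ + j k) + 1`, so `j n ≤ e q₀ + e j k + 1` for all `j`, so
`n ≤ k e` (otherwise take `j = e q₀ + 2`).
-/

set_option autoImplicit false

open MvPolynomial

namespace Pool.Agent.KST

open Pool.Agent.Helper63.SAND

private theorem zc_finite {K : Type*} [Field K] {Ω W : Type*} [Finite W] (a : Ω → W → K) (k : ℕ) :
    FiniteDimensional K (formsOn a k) := by
  have h1 : homogeneousSubmodule W K k ≤ restrictTotalDegree W K k := by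
    intro P hP
    rw [mem_restrictTotalDegree]
    exact ((mem_homogeneousSubmodule k P).mp hP).totalDegree_le
  have h2 : FiniteDimensional K (homogeneousSubmodule W K k) :=
    Submodule.finiteDimensional_of_le h1
  unfold formsOn
  infer_instance

private theorem zc_mem {K : Type*} [Field K] {Ω W : Type*} {a : Ω → W → K} {k : ℕ}
    {g : Ω → K} : g ∈ formsOn a k ↔ ∃ P : MvPolynomial W K, P.IsHomogeneous k ∧
      ∀ x, g x = eval (a x) P := by
  constructor
  · rintro ⟨P, hP, rfl⟩
    refine ⟨P, hP, fun x => ?_⟩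
    simp [coe_aeval_eq_eval]
  · rintro ⟨P, hP, h⟩
    refine ⟨P, hP, ?_⟩
    funext x
    rw [h x]
    simp [coe_aeval_eq_eval]

/-- a form which vanishes at the other points -/
private theorem zc_delta {E Ω W : Type*} [Field E] (a : Ω → W → E)
    (hprop : ∀ y y' : Ω, y ≠ y' → ∀ c : E, ∃ w, a y w ≠ c * a y' w) (h0 : ∀ y, a y ≠ 0)
    (T : Finset Ω) (y : Ω) (hy : y ∈ T) (q : ℕ) (hq : T.card ≤ q) :
    ∃ g ∈ formsOn a q, g y = 1 ∧ ∀ y' ∈ T, y' ≠ y → g y' = 0 := by
  classical
  have hl : ∀ y' : Ω, ∃ l : MvPolynomial W E, l.IsHomogeneous 1 ∧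
      (y' ≠ y → eval (a y') l = 0 ∧ eval (a y) l ≠ 0) := by
    intro y'
    by_cases hyy : y' = y
    · exact ⟨0, isHomogeneous_zero _ _ _, fun h => absurd hyy h⟩
    obtain ⟨w', hw'⟩ := Function.ne_iff.1 (h0 y')
    have hw'0 : a y' w' ≠ 0 := hw'
    obtain ⟨w, hw⟩ := hprop y y' (Ne.symm hyy) (a y w' / a y' w')
    refine ⟨C (a y' w') * X w - C (a y' w) * X w', ?_, fun _ => ⟨?_, ?_⟩⟩
    · have e1 : (C (a y' w') * X w : MvPolynomial W E).IsHomogeneous 1 := by
        have := (isHomogeneous_C W (a y' w')).mul (isHomogeneous_X E w)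
        rwa [zero_add] at this
      have e2 : (C (a y' w) * X w' : MvPolynomial W E).IsHomogeneous 1 := by
        have := (isHomogeneous_C W (a y' w)).mul (isHomogeneous_X E w')
        rwa [zero_add] at this
      exact e1.sub e2
    · simp only [map_sub, map_mul, eval_C, eval_X]
      ring
    · simp only [map_sub, map_mul, eval_C, eval_X]
      intro h
      apply hw
      rw [div_mul_eq_mul_div, eq_div_iff hw'0]
      linear_combination h
  choose l hl1 hl2 using hl
  obtain ⟨w₀, hw₀⟩ := Function.ne_iff.1 (h0 y)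
  have hw₀0 : a y w₀ ≠ 0 := hw₀
  obtain ⟨P, hP⟩ : ∃ P : MvPolynomial W E, P = (∏ y' ∈ T.erase y, l y') *
    X w₀ ^ (q - (T.erase y).card) := ⟨_, rfl⟩
  have hcard : (T.erase y).card ≤ q := (Finset.card_erase_le).trans hq
  have hPh : P.IsHomogeneous q := by
    have e1 : (∏ y' ∈ T.erase y, l y').IsHomogeneous (∑ _y' ∈ T.erase y, 1) :=
      IsHomogeneous.prod _ _ _ fun y' _ => hl1 y'
    have e2 : (X w₀ ^ (q - (T.erase y).card) : MvPolynomial W E).IsHomogeneous
        (1 * (q - (T.erase y).card)) := (isHomogeneous_X E w₀).pow _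
    have e3 := e1.mul e2
    have e4 : (∑ _y' ∈ T.erase y, 1) + 1 * (q - (T.erase y).card) = q := by
      rw [Finset.sum_const, smul_eq_mul]
      omega
    rw [e4] at e3
    rwa [hP]
  have hPy : eval (a y) P ≠ 0 := by
    rw [hP, map_mul, map_prod, map_pow, eval_X]
    refine mul_ne_zero (Finset.prod_ne_zero_iff.2 fun y' hy' => ?_) (pow_ne_zero _ hw₀0)
    exact (hl2 y' (Finset.ne_of_mem_erase hy')).2
  have hPy' : ∀ y' ∈ T, y' ≠ y → eval (a y') P = 0 := by
    intro y' hy' hne
    rw [hP, map_mul, map_prod, Finset.prod_eq_zero (Finset.mem_erase.2 ⟨hne, hy'⟩)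
      (hl2 y' hne).1, zero_mul]
  refine ⟨fun x => (eval (a y) P)⁻¹ * eval (a x) P, ?_, inv_mul_cancel₀ hPy, fun y' hy' hne => ?_⟩
  · refine zc_mem.2 ⟨C (eval (a y) P)⁻¹ * P, ?_, fun x => ?_⟩
    · have := (isHomogeneous_C W (eval (a y) P)⁻¹).mul hPh
      rwa [zero_add] at this
    · rw [map_mul, eval_C]
  · beta_reduce
    rw [hPy' y' hy' hne, mul_zero]

private theorem zc_step {E Ω W : Type*} [Field E] [Finite W] (a : Ω → W → E) (ha : PrimeH a)
    (hprop : ∀ y y' : Ω, y ≠ y' → ∀ c : E, ∃ w, a y w ≠ c * a y' w) (h0 : ∀ y, a y ≠ 0)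
    (k : ℕ) (F : MvPolynomial W E)
    (hF : F.IsHomogeneous k) (hFV : ¬ Van a F) (T : Finset Ω) (hT : ∀ y ∈ T, eval (a y) F = 0)
    (q : ℕ) (hq : T.card ≤ q + k) : hil a q + T.card ≤ hil a (q + k) := by
  classical
  have hf1 := zc_finite a q
  have hf2 := zc_finite a (q + k)
  let r : (Ω → E) →ₗ[E] (T → E) := LinearMap.pi fun y => LinearMap.proj (y : Ω)
  have hr : ∀ (g : Ω → E) (y : T), r g y = g y := fun _ _ => rfl
  let rr : formsOn a (q + k) →ₗ[E] (T → E) := r.comp (formsOn a (q + k)).subtype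
  have hrr : ∀ (g : formsOn a (q + k)) (y : T), rr g y = g.1 y := fun _ _ => rfl
  have hsurj : Function.Surjective rr := by
    intro g
    have hd := fun y : T => zc_delta a hprop h0 T y y.2 (q + k) hq
    choose δ hδ1 hδ2 hδ3 using hd
    refine ⟨∑ y : T, g y • (⟨δ y, hδ1 y⟩ : formsOn a (q + k)), ?_⟩
    funext y'
    rw [hrr]
    rw [Submodule.coe_sum, Finset.sum_apply, Finset.sum_eq_single y']
    · change g y' * δ y' y' = g y'
      rw [hδ2, mul_one]
    · intro y _ hy
      change g y * δ y y' = 0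
      rw [hδ3 y y' y'.2 (fun h => hy (Subtype.ext h).symm), mul_zero]
    · intro h
      exact absurd (Finset.mem_univ _) h
  have hrank := LinearMap.finrank_range_add_finrank_ker rr
  rw [LinearMap.range_eq_top.2 hsurj, finrank_top, Module.finrank_fintype_fun_eq_card,
    Fintype.card_coe] at hrank
  -- multiplication by `F`
  have hmem : ∀ g : formsOn a q, (fun x => eval (a x) F * g.1 x) ∈ formsOn a (q + k) := by
    intro g
    obtain ⟨P, hP, hg⟩ := zc_mem.1 g.2
    refine zc_mem.2 ⟨F * P, ?_, fun x => ?_⟩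
    · have := hF.mul hP
      rwa [add_comm] at this
    · rw [map_mul, hg x]
  let m : formsOn a q →ₗ[E] formsOn a (q + k) :=
    { toFun := fun g => ⟨fun x => eval (a x) F * g.1 x, hmem g⟩
      map_add' := fun g g' => by
        apply Subtype.ext
        funext x
        change eval (a x) F * (g.1 x + g'.1 x) = eval (a x) F * g.1 x + eval (a x) F * g'.1 x
        ring
      map_smul' := fun c g => by
        apply Subtype.ext
        funext x
        change eval (a x) F * (c * g.1 x) = c * (eval (a x) F * g.1 x)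
        ring }
  have hm : ∀ (g : formsOn a q) (x : Ω), (m g).1 x = eval (a x) F * g.1 x := fun _ _ => rfl
  have hker : ∀ g, m g ∈ LinearMap.ker rr := by
    intro g
    rw [LinearMap.mem_ker]
    funext y
    rw [hrr, hm, hT y y.2, zero_mul]
    rfl
  have hinj : Function.Injective (LinearMap.codRestrict (LinearMap.ker rr) m hker) := by
    refine (injective_iff_map_eq_zero _).2 fun g hg => ?_
    have h1 : m g = 0 := congrArg Subtype.val hg
    obtain ⟨P, hP, hgP⟩ := zc_mem.1 g.2
    have h2 : Van a (F * P) := by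
      intro x
      have h3 : (m g).1 x = 0 := by rw [h1]; rfl
      rw [map_mul, ← hgP x, ← hm]
      exact h3
    rcases ha F P k q hF hP h2 with h3 | h3
    · exact absurd h3 hFV
    · apply Subtype.ext
      funext x
      rw [hgP x, h3 x]
      rfl
  have hle := LinearMap.finrank_le_finrank_of_injective hinj
  unfold hil
  omega

theorem zc {E Ω W : Type*} [Field E] [Finite W] (a : Ω → W → E) (ha : PrimeH a)
    (hprop : ∀ y y' : Ω, y ≠ y' → ∀ c : E, ∃ w, a y w ≠ c * a y' w) (h0 : ∀ y, a y ≠ 0)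
    (e : ℕ) (he : ∀ k, hil a k ≤ e * k + 1) (k : ℕ) (F : MvPolynomial W E)
    (hF : F.IsHomogeneous k) (hFV : ¬ Van a F) (T : Finset Ω) (hT : ∀ y ∈ T, eval (a y) F = 0) :
    T.card ≤ k * e := by
  set n := T.card with hn
  have key : ∀ j : ℕ, j * n ≤ hil a (n + j * k) := by
    intro j
    induction j with
    | zero => rw [zero_mul]; exact Nat.zero_le _
    | succ j ih =>
      have h1 := zc_step a ha hprop h0 k F hF hFV T hT (n + j * k) (by rw [← hn, add_assoc]; exact Nat.le_add_right _ _)
      have h2 : n + j * k + k = n + (j + 1) * k := by ring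
      rw [h2, ← hn] at h1
      calc (j + 1) * n = j * n + n := by ring
        _ ≤ hil a (n + j * k) + n := Nat.add_le_add_right ih _
        _ ≤ _ := h1
  by_contra hcon
  push Not at hcon
  have h1 := (key (e * n + 2)).trans (he _)
  have h2 : (e * n + 2) * (k * e + 1) ≤ (e * n + 2) * n := Nat.mul_le_mul_left _ hcon
  nlinarith

end Pool.Agent.KST
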