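import Pool.Agent.KST.Bza
import Pool.Agent.KST.Sdefs2
import Pool.Agent.KST.Zc
import Pool.Agent.LLX.Segx
import Pool.Agent.LLC.Few

/-!
# KST BZC: a linear form all of whose zeros on a curve are zeros of a form

`forms_pow`: the functions given by forms of degree `k` are spanned by the products of `k` coordinates
(`homogeneousSubmodule` is spanned by the monomials, or `homogeneousSubmodule_one_pow`), the map is
multiplicative.

`bad_s`: `a y = seg y` for `y : Y`, `V = formsOn a 1`, `V ^ k = formsOn a k`; `hdom` is `primeH_seg`.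
NULLSTELLENSATZ: if forms `F_1, ..., F_r` have no common zero `y ∈ Y` outside of the zeros of a form `H`
of degree `d ≥ 1` (i.e. for `y ∈ Y`: all `F_i (seg y) = 0` implies `H (seg y) = 0`) then `H ^ N` is in the
ideal `idl Y ⊔ (F_1, ..., F_r)` for some `N`: every zero `v` of this ideal in `E ^ W` is `0`, where `H` is `0`,
or (`clo_seg`) `v = c seg y` with `y ∈ Y`, `c ≠ 0`, so `H v = 0`
(`MvPolynomial.vanishingIdeal_zeroLocus_eq_radical`, see PW/Null.lean). Taking homogeneous
components: `H ^ N = ∑ F_i B_i` on `Y` with forms `B_i` of the right degrees.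
(1) `H = G`, `F_1 = L`: `G ^ N = L B` on `Y`, `B` of degree `N D - 1` (`N ≥ 1`: replace `N` by `N + 1`), so for
`F ∈ V ^ (k + 1)`: `G ^ N F = L (B F)`, `B F ∈ V ^ (k + N D)`.
(2) The zeros of `L` on `Y` are finitely many (`zc` for `k = 1`: every finite set of them has at most `e`
elements), `y_1, ..., y_r`; there is a linear form `z` with `z (seg y_i) ≠ 0` for all `i` (`E` is infinite: the
`z` with `z (seg y_i) = 0` form a proper subspace). `L` and `z` have no common zero on `Y`. So for
every coordinate `X w`: `X w ^ N_w = L B + z B'` on `Y`; a monomial of degree `k + 1 ≥ ∑ N_w + 1` is divisible by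
some `X w ^ N_w`. So `hz₂` of `nilp` holds with `k₂ = ∑ w, N_w`.
Apply `nilp`.
-/

open MvPolynomial
open scoped LinearAlgebra.Projectivization

namespace Pool.Agent.KST

open Pool.Agent.Helper90.KSC Pool.Agent.Helper63.SAND Pool.Agent.Helper63.WH Pool.Agent.PW
  Pool.Agent.LLX Pool.Agent.LLC

theorem forms_pow {E Ω W : Type*} [Field E] [Finite W] (a : Ω → W → E) (k : ℕ) :
    formsOn a k = formsOn a 1 ^ k := by
  classical
  have h : ∀ k, formsOn a k = (homogeneousSubmodule W E k).map
      (Pi.algHom E (fun _ : Ω => E) (fun x => aeval (a x))).toLinearMap := fun k => rfl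
  rw [h, h, ← homogeneousSubmodule_one_pow, Submodule.map_pow]

private theorem bz_finite {K : Type*} [Field K] {Ω W : Type*} [Finite W] (a : Ω → W → K) (k : ℕ) :
    FiniteDimensional K (formsOn a k) := by
  have h1 : homogeneousSubmodule W K k ≤ restrictTotalDegree W K k := by
    intro P hP
    rw [mem_restrictTotalDegree]
    exact ((mem_homogeneousSubmodule k P).mp hP).totalDegree_le
  have h2 : FiniteDimensional K (homogeneousSubmodule W K k) :=
    Submodule.finiteDimensional_of_le h1
  unfold formsOn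
  infer_instance

private theorem bz_mem {K : Type*} [Field K] {Ω W : Type*} {a : Ω → W → K} {k : ℕ}
    {g : Ω → K} : g ∈ formsOn a k ↔ ∃ P : MvPolynomial W K, P.IsHomogeneous k ∧
      ∀ x, g x = eval (a x) P := by
  constructor
  · rintro ⟨P, hP, rfl⟩
    refine ⟨P, hP, fun x => ?_⟩
    simp [coe_aeval_eq_eval]
  · rintro ⟨P, hP, h⟩
    refine ⟨P, hP, ?_⟩
    funext x
    rw [h x]
    simp [coe_aeval_eq_eval]

private theorem bz_comp {K : Type*} [Field K] {W : Type*} {F : MvPolynomial W K} {k : ℕ}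
    (hF : F.IsHomogeneous k) (j : ℕ) :
    homogeneousComponent j F = if j = k then F else 0 :=
  homogeneousComponent_of_mem (mem_homogeneousSubmodule _ _ |>.mpr hF)

private theorem bz_comp_mul {K : Type*} [Field K] {W : Type*} {l : MvPolynomial W K}
    (hl : l.IsHomogeneous 1) (B : MvPolynomial W K) (n : ℕ) :
    homogeneousComponent (n + 1) (B * l) = homogeneousComponent n B * l := by
  have h1 : B * l = ∑ i ∈ Finset.range (B.totalDegree + 1), homogeneousComponent i B * l := by
    rw [← Finset.sum_mul, sum_homogeneousComponent]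
  rw [h1, map_sum]
  have h2 : ∀ i ∈ Finset.range (B.totalDegree + 1),
      homogeneousComponent (n + 1) (homogeneousComponent i B * l) =
        if i = n then homogeneousComponent i B * l else 0 := by
    intro i _
    rw [bz_comp ((homogeneousComponent_isHomogeneous i B).mul hl)]
    by_cases h : i = n
    · rw [if_pos h, if_pos (by rw [h])]
    · rw [if_neg h, if_neg (by omega)]
  rw [Finset.sum_congr rfl h2, Finset.sum_ite_eq']
  split_ifs with h
  · rfl
  · rw [Finset.mem_range, not_lt] at h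
    rw [homogeneousComponent_eq_zero n B (by omega), zero_mul]

private theorem bz_smul {W K : Type*} [Field K] {F : MvPolynomial W K} {k : ℕ}
    (hF : F.IsHomogeneous k) (c : K) (v : W → K) : eval (c • v) F = c ^ k * eval v F := by
  rw [eval_eq, eval_eq, Finset.mul_sum]
  refine Finset.sum_congr rfl fun s hs => ?_
  have hsk : ∑ i ∈ s.support, s i = k := by
    have := hF (mem_support_iff.1 hs)
    rw [Finsupp.weight_apply] at this
    simpa [Finsupp.sum] using this
  simp only [Pi.smul_apply, smul_eq_mul, mul_pow, Finset.prod_mul_distrib,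
    Finset.prod_pow_eq_pow_sum, hsk]
  ring

private theorem bz_linP {W K : Type*} [Field K] [Fintype W] (l : W → K) :
    (linP l).IsHomogeneous 1 := by
  unfold linP
  refine IsHomogeneous.sum _ _ _ fun w _ => ?_
  have := (isHomogeneous_C W (l w)).mul (isHomogeneous_X K w)
  rwa [zero_add] at this

variable {E ι : Type*} [Field E] [CharZero E] [Algebra.IsAlgebraic ℚ E] [IsAlgClosed E]
  [Fintype ι] [DecidableEq ι] {N : ι → ℕ}

omit [CharZero E] [Algebra.IsAlgebraic ℚ E] [IsAlgClosed E] in
private theorem bz_lin (l : SIx N → E) (y : PPt E N) : eval (seg y) (linP l) = lin l y := by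
  unfold linP lin
  rw [map_sum]
  refine Finset.sum_congr rfl fun w _ => ?_
  rw [map_mul, eval_C, eval_X]

omit [CharZero E] [Algebra.IsAlgebraic ℚ E] in
/-- The Nullstellensatz for two linear forms. -/
private theorem bz_null (Y : Set (PPt E N)) (hY : ZClosed Y) (l₁ l₂ : MvPolynomial (SIx N) E)
    (h₁ : l₁.IsHomogeneous 1) (h₂ : l₂.IsHomogeneous 1) (H : MvPolynomial (SIx N) E) (d : ℕ)
    (hd : 1 ≤ d) (hH : H.IsHomogeneous d)
    (hz : ∀ y ∈ Y, eval (seg y) l₁ = 0 → eval (seg y) l₂ = 0 → eval (seg y) H = 0) :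
    ∃ (M : ℕ) (B₁ B₂ : MvPolynomial (SIx N) E), 1 ≤ M ∧ B₁.IsHomogeneous (M * d - 1) ∧
      B₂.IsHomogeneous (M * d - 1) ∧ ∀ y ∈ Y, eval (seg y) H ^ M =
        eval (seg y) l₁ * eval (seg y) B₁ + eval (seg y) l₂ * eval (seg y) B₂ := by
  set J : Ideal (MvPolynomial (SIx N) E) := idl Y ⊔ Ideal.span {l₁, l₂} with hJ
  have hidl : ∀ (P : MvPolynomial (SIx N) E) (k : ℕ), P.IsHomogeneous k →
      Van (fun x : Y => seg (x : PPt E N)) P → P ∈ idl Y := by
    intro P k hP hV j x hx
    rw [bz_comp hP]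
    split_ifs
    · exact hV ⟨x, hx⟩
    · exact map_zero _
  have hrad : H ∈ J.radical := by
    rw [← vanishingIdeal_zeroLocus_eq_radical (K := E), mem_vanishingIdeal_iff]
    intro v hv
    rw [mem_zeroLocus_iff] at hv
    have hv2 : ∀ G ∈ J, eval v G = 0 := fun G hG => by
      have := hv G hG
      rwa [aeval_eq_eval] at this
    rw [aeval_eq_eval]
    change eval v H = 0
    by_cases hv0 : v = 0
    · have h := bz_smul hH 0 v
      rw [zero_smul, zero_pow (by omega), zero_mul] at h
      rw [hv0]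
      exact h
    · obtain ⟨x, c, hc, hx⟩ := clo_seg Y hY v hv0 fun P k hP hV =>
        hv2 P (Ideal.mem_sup_left (hidl P k hP hV))
      have hvx : v = c • seg (x : PPt E N) := by
        funext w
        rw [hx w]
        rfl
      have e1 : eval v l₁ = 0 :=
        hv2 l₁ (Ideal.mem_sup_right (Ideal.subset_span (Set.mem_insert _ _)))
      have e2 : eval v l₂ = 0 :=
        hv2 l₂ (Ideal.mem_sup_right (Ideal.subset_span (Set.mem_insert_of_mem _ rfl)))
      rw [hvx, bz_smul h₁, pow_one] at e1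
      rw [hvx, bz_smul h₂, pow_one] at e2
      rw [hvx, bz_smul hH, hz x x.2 ((mul_eq_zero.1 e1).resolve_left hc)
        ((mul_eq_zero.1 e2).resolve_left hc), mul_zero]
  obtain ⟨M₀, hM₀⟩ := hrad
  have hM : H ^ (M₀ + 1) ∈ J := by
    rw [pow_succ]
    exact J.mul_mem_right _ hM₀
  obtain ⟨G₀, hG₀, K, hK, hGK⟩ := Submodule.mem_sup.1 hM
  obtain ⟨B₁, B₂, hB⟩ := Ideal.mem_span_pair.1 hK
  have hdeg : (M₀ + 1) * d - 1 + 1 = (M₀ + 1) * d := by
    have : 1 ≤ (M₀ + 1) * d := Nat.one_le_iff_ne_zero.2 (by positivity)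
    omega
  refine ⟨M₀ + 1, homogeneousComponent ((M₀ + 1) * d - 1) B₁,
    homogeneousComponent ((M₀ + 1) * d - 1) B₂, by omega, homogeneousComponent_isHomogeneous _ _,
    homogeneousComponent_isHomogeneous _ _, fun y hy => ?_⟩
  have hcomp := congrArg (homogeneousComponent ((M₀ + 1) * d - 1 + 1)) hGK
  rw [← hB, map_add, map_add, bz_comp_mul h₁, bz_comp_mul h₂,
    bz_comp (hH.pow (M₀ + 1)), if_pos (by rw [hdeg, mul_comm])] at hcomp
  have h3 := congrArg (eval (seg y)) hcomp
  rw [map_add, map_add, map_mul, map_mul, map_pow, hG₀ _ y hy, zero_add] at h3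
  rw [← h3]
  ring

theorem bad_s (Y : Set (PPt E N)) (hY : ZClosed Y) (hYi : Irred Y) (e : ℕ)
    (he : ∀ k, hil (fun y : Y => seg (y : PPt E N)) k ≤ e * k + 1) (l : SIx N → E)
    (hl : ∃ y ∈ Y, lin l y ≠ 0) (D : ℕ) (hD : 1 ≤ D) (G : MvPolynomial (SIx N) E)
    (hG : G.IsHomogeneous D) (hz : ∀ y ∈ Y, lin l y = 0 → eval (seg y) G = 0) :
    ∃ k₁, ∀ k, k₁ ≤ k → ∀ F ∈ formsOn (fun y : Y => seg (y : PPt E N)) 1 ^ (k + 1),
      ∃ F' ∈ formsOn (fun y : Y => seg (y : PPt E N)) 1 ^ (k + e * D),
        (fun y : Y => eval (seg (y : PPt E N)) G) ^ e * F = (fun y : Y => lin l y) * F' := by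
  classical
  obtain ⟨a, ha⟩ : ∃ a : Y → SIx N → E, a = fun y : Y => seg (y : PPt E N) := ⟨_, rfl⟩
  have hay : ∀ y : Y, a y = seg (y : PPt E N) := fun y => by rw [ha]
  rw [← ha] at he ⊢
  have hprime : PrimeH a := by rw [ha]; exact primeH_seg Y hYi
  -- the zeros of `l`
  have hfin : {y : Y | lin l (y : PPt E N) = 0}.Finite := by
    by_contra hinf
    obtain ⟨T, hT, hTc⟩ := Set.Infinite.exists_subset_card_eq hinf (1 * e + 1)
    have h := zc a hprime (fun y y' hyy c => by
        rw [hay, hay]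
        exact seg_ne _ _ (fun h => hyy (Subtype.ext h)) c)
      (fun y => by rw [hay]; exact seg_ne_zero _) e he 1 (linP l) (bz_linP l) (by
        intro hV
        obtain ⟨y, hy, hy0⟩ := hl
        have := hV ⟨y, hy⟩
        rw [hay, bz_lin] at this
        exact hy0 this) T (fun y hy => by
        rw [hay, bz_lin]
        exact hT hy)
    omega
  obtain ⟨z₀, hz₀⟩ : ∃ z₀ : SIx N → E, ∀ y ∈ Y, lin l y = 0 → lin z₀ y ≠ 0 := by
    obtain ⟨M, ⟨φ⟩⟩ := Finite.exists_equiv_fin {y : Y | lin l (y : PPt E N) = 0} (h := hfin)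
    obtain ⟨z₀, hz₀⟩ := avoid (fun i : Fin M => seg (((φ.symm i : {y : Y | lin l (y : PPt E N) = 0}) :
      Y) : PPt E N)) fun i => seg_ne_zero _
    refine ⟨z₀, fun y hy hly => ?_⟩
    have h := hz₀ (φ ⟨⟨y, hy⟩, hly⟩)
    rw [Equiv.symm_apply_apply] at h
    exact h
  -- the Nullstellensatz
  obtain ⟨M, B, _, hM, hB, _, hMB⟩ := bz_null Y hY (linP l) 0 (bz_linP l)
    (isHomogeneous_zero _ _ _) G D hD hG fun y hy h _ => hz y hy (by rw [← bz_lin]; exact h)
  have hX : ∀ w : SIx N, ∃ (M : ℕ) (B₁ B₂ : MvPolynomial (SIx N) E), 1 ≤ M ∧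
      B₁.IsHomogeneous (M * 1 - 1) ∧ B₂.IsHomogeneous (M * 1 - 1) ∧
      ∀ y ∈ Y, eval (seg y) (X w) ^ M =
        eval (seg y) (linP l) * eval (seg y) B₁ + eval (seg y) (linP z₀) * eval (seg y) B₂ :=
    fun w => bz_null Y hY (linP l) (linP z₀) (bz_linP l) (bz_linP z₀) (X w) 1 le_rfl
      (isHomogeneous_X _ _) fun y hy h h' => absurd (by rw [← bz_lin]; exact h')
        (hz₀ y hy (by rw [← bz_lin]; exact h))
  choose m B₁ B₂ hm hB₁ hB₂ hmB using hX
  have hmem : ∀ (k : ℕ) (F : Y → E), F ∈ formsOn a 1 ^ k ↔ ∃ P : MvPolynomial (SIx N) E,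
      P.IsHomogeneous k ∧ ∀ x, F x = eval (a x) P := fun k F => by
    rw [← forms_pow a k]
    exact bz_mem
  have hlinm : ∀ l' : SIx N → E, (fun y : Y => lin l' (y : PPt E N)) ∈ formsOn a 1 := fun l' =>
    bz_mem.2 ⟨linP l', bz_linP l', fun x => by rw [hay, bz_lin]⟩
  refine nilp (formsOn a 1) (by
      have := bz_finite a 1
      exact Module.Finite.iff_fg.1 this) ?_ e (fun k => ?_) (fun y : Y => lin l (y : PPt E N))
    (hlinm l) ?_ (fun y : Y => lin z₀ (y : PPt E N)) (hlinm z₀) (∑ w, m w) ?_ D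
    (fun y : Y => eval (seg (y : PPt E N)) G) ?_ M ?_
  · intro i j F F' hF hF' h0
    obtain ⟨P, hP, hFP⟩ := (hmem i F).1 hF
    obtain ⟨P', hP', hFP'⟩ := (hmem j F').1 hF'
    have h1 : Van a (P * P') := by
      intro x
      rw [map_mul, ← hFP, ← hFP']
      exact congrFun h0 x
    rcases hprime P P' i j hP hP' h1 with h2 | h2
    · left
      funext x
      rw [hFP]
      exact h2 x
    · right
      funext x
      rw [hFP']
      exact h2 x
  · rw [← forms_pow a k]
    exact he k
  · obtain ⟨y, hy, hy0⟩ := hl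
    intro h0
    exact hy0 (congrFun h0 ⟨y, hy⟩)
  · intro k hk F hF
    obtain ⟨P, hP, hFP⟩ := (hmem (k + 1) F).1 hF
    let S : Submodule E (Y → E) :=
      (formsOn a 1 ^ k).map (LinearMap.mulLeft E (fun y : Y => lin l (y : PPt E N))) ⊔
      (formsOn a 1 ^ k).map (LinearMap.mulLeft E (fun y : Y => lin z₀ (y : PPt E N)))
    have hFS : F ∈ S := by
      have h1 : F = ∑ s ∈ P.support, P.coeff s • (fun y : Y => eval (a y) (monomial s (1 : E))) := by
        funext y
        rw [hFP, Finset.sum_apply]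
        nth_rw 1 [P.as_sum]
        rw [map_sum]
        refine Finset.sum_congr rfl fun s _ => ?_
        simp only [Pi.smul_apply, smul_eq_mul, eval_monomial, one_mul]
      rw [h1]
      refine Submodule.sum_mem _ fun s hs => Submodule.smul_mem _ _ ?_
      have hsdeg : ∑ w, s w = k + 1 := by
        have h2 := hP (mem_support_iff.1 hs)
        rw [Finsupp.weight_apply] at h2
        rw [← h2, Finsupp.sum_fintype]
        · simp
        · simp
      obtain ⟨w, hw⟩ : ∃ w, m w ≤ s w := by
        by_contra hno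
        push Not at hno
        have h2 : ∑ w, s w ≤ ∑ w, m w := Finset.sum_le_sum fun w _ => (hno w).le
        omega
      obtain ⟨s', hs'⟩ : ∃ s' : SIx N →₀ ℕ, s = s' + Finsupp.single w (m w) := by
        refine ⟨s - Finsupp.single w (m w), ?_⟩
        ext w'
        simp only [Finsupp.coe_add, Finsupp.coe_tsub, Pi.add_apply, Pi.sub_apply]
        by_cases hww : w = w'
        · subst hww
          rw [Finsupp.single_eq_same]
          omega
        · rw [Finsupp.single_eq_of_ne (Ne.symm hww)]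
          omega
      have hs'deg : ∑ w', s' w' + m w = k + 1 := by
        rw [← hsdeg, hs']
        simp only [Finsupp.coe_add, Pi.add_apply, Finset.sum_add_distrib]
        congr 1
        rw [Finset.sum_eq_single w]
        · rw [Finsupp.single_eq_same]
        · intro w' _ hw'
          rw [Finsupp.single_eq_of_ne hw']
        · intro h
          exact absurd (Finset.mem_univ w) h
      have hmon : (monomial s' (1 : E)).IsHomogeneous (∑ w', s' w') := by
        refine isHomogeneous_monomial _ ?_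
        rw [Finsupp.degree_eq_sum]
      have hm1 : ∀ B' : MvPolynomial (SIx N) E, B'.IsHomogeneous (m w * 1 - 1) →
          (fun y : Y => eval (a y) (B' * monomial s' 1)) ∈ formsOn a 1 ^ k := by
        intro B' hB'
        refine (hmem k _).2 ⟨B' * monomial s' 1, ?_, fun _ => rfl⟩
        have h5 := hB'.mul hmon
        have h6 : m w * 1 - 1 + ∑ w', s' w' = k := by
          have := hm w
          omega
        rwa [h6] at h5
      refine Submodule.mem_sup.2 ⟨_, ⟨_, hm1 (B₁ w) (hB₁ w), rfl⟩, _,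
        ⟨_, hm1 (B₂ w) (hB₂ w), rfl⟩, ?_⟩
      funext y
      change lin l (y : PPt E N) * eval (a y) (B₁ w * monomial s' 1) +
        lin z₀ (y : PPt E N) * eval (a y) (B₂ w * monomial s' 1) = eval (a y) (monomial s 1)
      have h7 : (monomial s (1 : E)) = X w ^ m w * monomial s' 1 := by
        rw [hs', X_pow_eq_monomial, monomial_mul, one_mul, add_comm]
      rw [h7, map_mul, map_mul, map_mul, map_pow, hay, hmB w y y.2, bz_lin, bz_lin]
      ring
    obtain ⟨_, ⟨F₁, hF₁, rfl⟩, _, ⟨F₂, hF₂, rfl⟩, hsum⟩ := Submodule.mem_sup.1 hFS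
    exact ⟨F₁, hF₁, F₂, hF₂, hsum.symm⟩
  · exact (hmem D _).2 ⟨G, hG, fun x => by rw [hay]⟩
  · intro k F hF
    obtain ⟨P, hP, hFP⟩ := (hmem (k + 1) F).1 hF
    refine ⟨fun y => eval (a y) (B * P), (hmem _ _).2 ⟨B * P, ?_, fun _ => rfl⟩, ?_⟩
    · have h1 := hB.mul hP
      have h2 : M * D - 1 + (k + 1) = k + M * D := by
        have : 1 ≤ M * D := Nat.one_le_iff_ne_zero.2 (by positivity)
        omega
      rwa [h2] at h1
    · funext y
      have h1 := hMB y y.2
      rw [map_zero, zero_mul, add_zero, bz_lin] at h1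
      change eval (seg (y : PPt E N)) G ^ M * F y = lin l (y : PPt E N) * eval (a y) (B * P)
      rw [h1, hFP, map_mul, hay]
      ring

end Pool.Agent.KST
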