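import Pool.Agent.PW.Segl
import Pool.Agent.Helper90.KSC.Zar

/-!
# KST DEN: a dense orbit returns to an open set in bounded time

PROOF.  (a) CONTINUITY: for `V` closed, `{y ∈ X | f y ∈ V}` is the intersection of `X` with a closed set: for a form `F` of multidegree
`b` in the coordinates and a chart `s` (`LocallyByForms X f`: `G s w`, degree `e`) choose for every factor `i` and every index
`w₀ : SIx N` the polynomials `G s (update w₀ i j)`, `j`, as coordinates of the `i`-th factor of `f y` (`unseg`, `LLC/Segk.lean`); the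
closed set is the set of the zeros of all the polynomials `F((G s (update w₀ i j))_(i,j))`, `s`, `w₀` arbitrary, written in the
coordinates of `y` by substituting the products of coordinates for the Segre coordinates. (If this is already proved in the
library, use it: search for `ZCont`.) Finite intersections and finite unions of closed sets, `X` itself and points are closed.
(b) The sets `V_L = {y ∈ X | ∀ i < L, f^[i] y ∈ V}` are closed and decreasing in `L`; the polynomial ring in finitely many variables is
Noetherian, so the ideals of the polynomials vanishing on `V_L` (on the cones: at the representatives) stabilise, and a closed set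
is determined by the multihomogeneous polynomials vanishing on it; so there is `L ≥ 1` with `V_L = V_L'` for all `L' ≥ L`.
(c) If `f^[j + i] x ∈ V` for all `i < L` then `f^[j] x ∈ V_L`, so `f^[j+i] x ∈ V` for all `i ≥ 0`. The closed set
`V ∪ {x, f x, …, f^[j-1] x}` contains the orbit, so it contains `X` (`DenseOrbit`), so by irreducibility `X ⊆ V` (excluded) or
`X ⊆ {f^[k] x}` for some `k` (repeat the irreducibility for finite unions of points), which contradicts that the orbit is infinite.
-/

set_option autoImplicit false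

open MvPolynomial
open scoped LinearAlgebra.Projectivization

namespace Pool.Agent.KST

open Pool.Agent.Helper90.KSC Pool.Agent.Helper63.SAND

variable {E : Type*} [Field E] {ι : Type*} [Fintype ι] [DecidableEq ι] {N : ι → ℕ}

/-- A form of degree `e` at a multiple of a vector. -/
private theorem den_smul {K σ : Type*} [Field K] (P : MvPolynomial σ K) (e : ℕ)
    (hP : P.IsHomogeneous e) (c : K) (z : σ → K) :
    eval (fun s => c * z s) P = c ^ e * eval z P := by
  rw [eval_eq, eval_eq, Finset.mul_sum]
  refine Finset.sum_congr rfl fun d hd => ?_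
  have h1 : ∏ i ∈ d.support, (c * z i) ^ d i = c ^ e * ∏ i ∈ d.support, z i ^ d i := by
    have h2 : ∏ i ∈ d.support, (c * z i) ^ d i =
        (∏ i ∈ d.support, c ^ d i) * ∏ i ∈ d.support, z i ^ d i := by
      rw [← Finset.prod_mul_distrib]
      exact Finset.prod_congr rfl fun i _ => mul_pow _ _ _
    rw [h2, Finset.prod_pow_eq_pow_sum]
    have h3 : ∑ i ∈ d.support, d i = e := by
      have h4 := hP (mem_support_iff.1 hd)
      rw [← h4, Finsupp.weight_apply, Finsupp.sum]
      simp
    rw [h3]
  rw [h1]
  ring

/-- Continuity of a morphism. -/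
theorem zcont_of_locallyByForms (X : Set (PPt E N)) (hX : ZClosed X) (f : PPt E N → PPt E N)
    (hloc : LocallyByForms X f) : ZCont X f := by
  intro V hV
  obtain ⟨e, t, G, hG1, hG2, hG3⟩ := hloc
  refine ⟨PW.sub X (PW.idl {y | y ∈ X ∧ f y ∈ V}), ?_, ?_⟩
  · refine PW.sub_closed X hX _ fun F hF k => ?_
    intro k' y hy
    rw [homogeneousComponent_of_mem (homogeneousComponent_isHomogeneous k F)]
    split_ifs
    · exact hF k y hy
    · exact map_zero _
  · intro y hy
    constructor
    · rintro ⟨-, h2⟩
      obtain ⟨S, hS, rfl⟩ := hV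
      intro F hF
      by_contra hne
      obtain ⟨b, hb⟩ := hS F hF
      obtain ⟨k, P, hP1, hP2, hP3⟩ := PW.seglift F b hb (f y) hne
      obtain ⟨s, w, hsw⟩ := hG3 y hy
      have hev : ∀ (z : PPt E N) (c : E), (∀ w, eval (seg z) (G s w) = c * seg (f z) w) →
          eval (seg z) (aeval (G s) P) = c ^ k * eval (seg (f z)) P := by
        intro z c hc
        rw [← den_smul P k hP1]
        have h1 : (fun w => c * seg (f z) w) = fun w => eval (seg z) (G s w) := by
          funext w
          exact (hc w).symm
        rw [h1]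
        exact eval₂Hom_bind₁ (RingHom.id E) (seg z) (G s) P
      have hhom : (aeval (G s) P : MvPolynomial (SIx N) E).IsHomogeneous (e * k) :=
        hP1.aeval _ (hG1 s)
      have hmem : (aeval (G s) P : MvPolynomial (SIx N) E) ∈
          PW.idl {y | y ∈ X ∧ f y ∈ {x | ∀ F ∈ S, eval (fun s => (x s.1).rep s.2) F = 0}} := by
        intro k' z hz
        rw [homogeneousComponent_of_mem hhom]
        split_ifs
        · obtain ⟨c, hc⟩ := hG2 s z hz.1
          rw [hev z c hc, hP3 (f z) (hz.2 F hF), mul_zero]
        · exact map_zero _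
      have h3 := h2 _ hmem
      obtain ⟨c, hc⟩ := hG2 s y hy
      have hc0 : c ≠ 0 := by
        rintro rfl
        rw [hc w, zero_mul] at hsw
        exact hsw rfl
      rw [hev y c hc] at h3
      exact mul_ne_zero (pow_ne_zero k hc0) hP2 h3
    · intro hfy
      refine ⟨hy, fun F hF => ?_⟩
      rw [← sum_homogeneousComponent F, map_sum]
      exact Finset.sum_eq_zero fun k _ => hF k y ⟨hy, hfy⟩

/-- The polynomials which vanish at the representatives of the points of `Z`. -/
private noncomputable def vI (Z : Set (PPt E N)) : Ideal (MvPolynomial (Σ i, Fin (N i + 1)) E) where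
  carrier := {F | ∀ x ∈ Z, eval (fun s => (x s.1).rep s.2) F = 0}
  add_mem' {F G} hF hG x hx := by rw [map_add, hF x hx, hG x hx, add_zero]
  zero_mem' x _ := by simp
  smul_mem' F G hG x hx := by rw [smul_eq_mul, map_mul, hG x hx, mul_zero]

theorem den (X : Set (PPt E N)) (hX : ZClosed X) (hXi : Irred X) (f : PPt E N → PPt E N)
    (hf : Set.MapsTo f X X) (hloc : LocallyByForms X f) (x : PPt E N) (hx : x ∈ X)
    (hd : DenseOrbit X f x) (hinj : Function.Injective fun n => f^[n] x) (V : Set (PPt E N))
    (hV : ZClosed V) (hXV : ¬ X ⊆ V) :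
    ∃ L : ℕ, 1 ≤ L ∧ ∀ j : ℕ, ∃ i < L, f^[j + i] x ∉ V := by
  have hcont := zcont_of_locallyByForms X hX f hloc
  have hmem : ∀ n, f^[n] x ∈ X := by
    intro n
    induction n with
    | zero => exact hx
    | succ n ih =>
      rw [Function.iterate_succ_apply']
      exact hf ih
  -- closed sets of the points which are in `V` after `j` steps
  have h1 : ∀ j : ℕ, ∃ E', ZClosed E' ∧ ∀ y ∈ X, y ∈ E' ↔ f^[j] y ∈ V := by
    intro j
    induction j with
    | zero => exact ⟨V, hV, fun y _ => Iff.rfl⟩
    | succ j ih =>
      obtain ⟨E₁, hE₁, h2⟩ := ih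
      obtain ⟨E₂, hE₂, h3⟩ := hcont E₁ hE₁
      refine ⟨E₂, hE₂, fun y hy => ?_⟩
      rw [h3 y hy, h2 _ (hf hy), Function.iterate_succ_apply]
  choose F hF hF2 using h1
  let Z : ℕ → Set (PPt E N) := fun L => {y | y ∈ X ∧ ∀ i < L, f^[i] y ∈ V}
  have hZ : ∀ L L', L ≤ L' → Z L' ⊆ Z L := fun L L' h y hy =>
    ⟨hy.1, fun i hi => hy.2 i (lt_of_lt_of_le hi h)⟩
  let I : ℕ →o Submodule (MvPolynomial (Σ i, Fin (N i + 1)) E)
      (MvPolynomial (Σ i, Fin (N i + 1)) E) :=
    ⟨fun L => vI (Z L), fun L L' h P hP y hy => hP y (hZ L L' h hy)⟩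
  obtain ⟨n, hn⟩ := (monotone_stabilizes_iff_noetherian
    (R := MvPolynomial (Σ i, Fin (N i + 1)) E) (M := MvPolynomial (Σ i, Fin (N i + 1)) E)).2
    inferInstance I
  have hst : ∀ m, n ≤ m → vI (Z n) = vI (Z m) := hn
  refine ⟨n + 1, by omega, fun j => ?_⟩
  by_contra hcon
  push Not at hcon
  apply hXV
  apply tail_dense hmem hinj hXi hd hV (M := j)
  intro k hk
  obtain ⟨i, rfl⟩ := Nat.exists_eq_add_of_le hk
  have hyZ : f^[j] x ∈ Z n := by
    refine ⟨hmem j, fun i' hi' => ?_⟩
    rw [← Function.iterate_add_apply, add_comm]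
    exact hcon i' (by omega)
  have hyF : f^[j] x ∈ F i := by
    have hFi := hF i
    have hF2i := hF2 i
    obtain ⟨S, hS, hFS⟩ := hFi
    rw [hFS]
    intro P hP
    have h2 : P ∈ vI (Z (max n (i + 1))) := by
      intro y hy
      have h3 : y ∈ F i := (hF2i y hy.1).2 (hy.2 i (by omega))
      rw [hFS] at h3
      exact h3 P hP
    rw [← hst _ (le_max_left _ _)] at h2
    exact h2 _ hyZ
  have h4 := (hF2 i _ (hmem j)).1 hyF
  rwa [← Function.iterate_add_apply, add_comm] at h4

end Pool.Agent.KST
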