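import Pool.Agent.KST.Bzb
import Pool.Agent.KST.Bzc
import Pool.Agent.KST.Den

/-!
# KST BZ: almost all the values of a quotient of linear forms are taken

`closed_img`: `f^[n] '' Z = {y ∈ X | g^[n] y ∈ Z}`; `zcont_of_locallyByForms` (Den.lean) for `g`, `n`
times: the preimages in `X` of closed sets are the intersections of `X` with closed sets; the
intersection of closed sets is closed (union of the families of equations).
`irred_img'`: if `f^[n] '' Z ⊆ V₁ ∪ V₂` closed, the preimages of the `V_i` in `X` are `X ∩ V_i'`, and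
`Z ⊆ V₁' ∪ V₂'`.

`bz`: `R = E₁ * (E₁ * (D + 1)) + 1`. Let `n, a, b, G` be given, `Y = f^[n] '' Z`. A value `s` is bad if every
`y ∈ Y` with `lin a y = s * lin b y` satisfies `G(y) = 0`. Let `S` be a finite set of bad values; choose `w`
such that `seg y w` is not `0` for some `y ∈ Y`, `G' = G * X w`, of degree `D + 1`, not zero on `Y`
(`primeH_seg`). For `s ∈ S`: `l = a - s • b`, `lin l y = lin a y - s * lin b y` is not zero everywhere on `Y`
(if `lin a = s lin b` on `Y`: for `s = 0` this contradicts the first part of `Ncs`, for `s ≠ 0`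
`lin b = s⁻¹ lin a` contradicts the second). So `bad_s` applies (`e = E₁`, `hil` of `Bcv`), and `few_s` with
`V = formsOn a 1`, `la = lin a`, `lb = lin b` as functions on `Y` (`lb ≠ 0`: `Ncs` with `c = 0`;
`la ≠ c lb` as before): `S.card ≤ R` (`hil a k = finrank (formsOn a k)`, `forms_pow`). So the set of the
bad values is finite (every finite subset has at most `R` elements) and has at most `R` elements:
`Bad` is its `toFinset`.
-/

open MvPolynomial
open scoped LinearAlgebra.Projectivization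

namespace Pool.Agent.KST

open Pool.Agent.Helper90.KSC Pool.Agent.Helper63.SAND Pool.Agent.Helper63.WH Pool.Agent.PW
  Pool.Agent.LLX Pool.Agent.LLC

variable {E ι : Type*} [Field E] [Fintype ι] [DecidableEq ι] {N : ι → ℕ}

private theorem zcl_inter {E₁ E₂ : Set (PPt E N)} (h₁ : ZClosed E₁) (h₂ : ZClosed E₂) :
    ZClosed (E₁ ∩ E₂) := by
  classical
  obtain ⟨S₁, hS₁, rfl⟩ := h₁
  obtain ⟨S₂, hS₂, rfl⟩ := h₂
  refine ⟨S₁ ∪ S₂, ?_, ?_⟩
  · rintro F (hF | hF)
    · exact hS₁ F hF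
    · exact hS₂ F hF
  · ext x
    constructor
    · rintro ⟨h1, h2⟩ F (hF | hF)
      · exact h1 F hF
      · exact h2 F hF
    · intro h
      exact ⟨fun F hF => h F (Or.inl hF), fun F hF => h F (Or.inr hF)⟩

private theorem zcont_iter (X : Set (PPt E N)) (hX : ZClosed X) (f : PPt E N → PPt E N)
    (hf : Set.MapsTo f X X) (hlf : LocallyByForms X f) (V : Set (PPt E N)) (hV : ZClosed V)
    (n : ℕ) : ∃ V', ZClosed V' ∧ ∀ x ∈ X, x ∈ V' ↔ f^[n] x ∈ V := by
  have hcont := zcont_of_locallyByForms X hX f hlf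
  induction n with
  | zero => exact ⟨V, hV, fun x _ => Iff.rfl⟩
  | succ n ih =>
    obtain ⟨V₁, h1, h2⟩ := ih
    obtain ⟨V₂, h3, h4⟩ := hcont V₁ h1
    refine ⟨V₂, h3, fun x hx => ?_⟩
    rw [h4 x hx, h2 _ (hf hx), Function.iterate_succ_apply]

theorem closed_img (X : Set (PPt E N)) (hX : ZClosed X) (f g : PPt E N → PPt E N)
    (hf : Set.MapsTo f X X) (hg : Set.MapsTo g X X) (hfg : ∀ x ∈ X, f (g x) = x)
    (hgf : ∀ x ∈ X, g (f x) = x) (hlg : LocallyByForms X g) (Z : Set (PPt E N)) (hZX : Z ⊆ X)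
    (hZ : ZClosed Z) (n : ℕ) : ZClosed (f^[n] '' Z) := by
  have hinvf : ∀ x ∈ X, ∀ m : ℕ, g^[m] (f^[m] x) = x := by
    intro x hx m
    induction m generalizing x with
    | zero => rfl
    | succ m ih =>
      rw [Function.iterate_succ_apply, Function.iterate_succ_apply' f,
        hgf _ (hf.iterate m hx)]
      exact ih x hx
  have hinvg : ∀ x ∈ X, ∀ m : ℕ, f^[m] (g^[m] x) = x := by
    intro x hx m
    induction m generalizing x with
    | zero => rfl
    | succ m ih =>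
      rw [Function.iterate_succ_apply, Function.iterate_succ_apply' g,
        hfg _ (hg.iterate m hx)]
      exact ih x hx
  obtain ⟨V', h1, h2⟩ := zcont_iter X hX g hg hlg Z hZ n
  have h3 : f^[n] '' Z = X ∩ V' := by
    ext y
    constructor
    · rintro ⟨z, hz, rfl⟩
      have hm := hf.iterate n (hZX hz)
      refine ⟨hm, (h2 _ hm).2 ?_⟩
      rw [hinvf z (hZX hz) n]
      exact hz
    · rintro ⟨hy, hy'⟩
      exact ⟨g^[n] y, (h2 y hy).1 hy', hinvg y hy n⟩
  rw [h3]
  exact zcl_inter hX h1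

theorem irred_img' (X : Set (PPt E N)) (hX : ZClosed X) (f : PPt E N → PPt E N)
    (hf : Set.MapsTo f X X) (hlf : LocallyByForms X f) (Z : Set (PPt E N)) (hZX : Z ⊆ X)
    (hZi : Irred Z) (n : ℕ) : Irred (f^[n] '' Z) := by
  refine ⟨hZi.1.image _, fun V₁ V₂ h₁ h₂ hc => ?_⟩
  obtain ⟨V₁', h1, h1'⟩ := zcont_iter X hX f hf hlf V₁ h₁ n
  obtain ⟨V₂', h2, h2'⟩ := zcont_iter X hX f hf hlf V₂ h₂ n
  have h3 : Z ⊆ V₁' ∪ V₂' := by
    intro z hz
    rcases hc ⟨z, hz, rfl⟩ with h | h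
    · exact Or.inl ((h1' z (hZX hz)).2 h)
    · exact Or.inr ((h2' z (hZX hz)).2 h)
  rcases hZi.2 V₁' V₂' h1 h2 h3 with h | h
  · left
    rintro _ ⟨z, hz, rfl⟩
    exact (h1' z (hZX hz)).1 (h hz)
  · right
    rintro _ ⟨z, hz, rfl⟩
    exact (h2' z (hZX hz)).1 (h hz)

private theorem mem_forms {Ω W : Type*} (a : Ω → W → E) (k : ℕ) (F : Ω → E) :
    F ∈ formsOn a k ↔ ∃ P : MvPolynomial W E, P.IsHomogeneous k ∧ ∀ x, F x = eval (a x) P := by
  constructor
  · rintro ⟨P, hP, rfl⟩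
    refine ⟨P, hP, fun x => ?_⟩
    simp
  · rintro ⟨P, hP, h⟩
    refine ⟨P, hP, ?_⟩
    funext x
    rw [h x]
    simp

/-- The linear form with the coefficients `a`. -/
private theorem lin_form (a : SIx N → E) : ∃ P : MvPolynomial (SIx N) E, P.IsHomogeneous 1 ∧
    ∀ y : PPt E N, lin a y = eval (seg y) P := by
  refine ⟨∑ w, C (a w) * X w, ?_, fun y => ?_⟩
  · refine IsHomogeneous.sum _ _ _ fun w _ => ?_
    have h := (isHomogeneous_C (SIx N) (a w)).mul (isHomogeneous_X E w)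
    rwa [zero_add] at h
  · rw [lin, map_sum]
    refine Finset.sum_congr rfl fun w _ => ?_
    rw [map_mul, eval_C, eval_X]

variable [CharZero E] [Algebra.IsAlgebraic ℚ E] [IsAlgClosed E]

theorem bz (X : Set (PPt E N)) (e₀ : ℕ) (f g : PPt E N → PPt E N) (A B : Matrix ι ι ℤ)
    (h : Aut3 X e₀ f g A B) (Z : Set (PPt E N)) (e E₁ : ℕ) (hZ : Bcv X f g Z e E₁) (D : ℕ) :
    ∃ R : ℕ, ∀ (n : ℕ) (a b : SIx N → E) (G : MvPolynomial (SIx N) E),
      G.IsHomogeneous D → (∃ y ∈ f^[n] '' Z, eval (seg y) G ≠ 0) → Ncs (f^[n] '' Z) a b →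
      ∃ Bad : Finset E, Bad.card ≤ R ∧ ∀ s : E, s ∉ Bad →
        ∃ y ∈ f^[n] '' Z, lin a y = s * lin b y ∧ eval (seg y) G ≠ 0 := by
  classical
  refine ⟨E₁ * (E₁ * (D + 1)) + 1, fun n a b G hG hG0 hn => ?_⟩
  set Y : Set (PPt E N) := f^[n] '' Z with hYd
  have hY : ZClosed Y := closed_img X h.cl f g h.mf h.mg h.fg h.gf h.lg Z hZ.sub hZ.cl n
  have hYi : Irred Y := irred_img' X h.cl f h.mf h.lf Z hZ.sub hZ.irr n
  obtain ⟨y₀, hy₀, hGy₀⟩ := hG0
  obtain ⟨w₀, hw₀⟩ := Function.ne_iff.mp (seg_ne_zero y₀)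
  set G' : MvPolynomial (SIx N) E := G * MvPolynomial.X w₀ with hG'
  have hG'h : G'.IsHomogeneous (D + 1) := hG.mul (isHomogeneous_X E w₀)
  have hG'e : ∀ y : PPt E N, eval (seg y) G' = eval (seg y) G * seg y w₀ := by
    intro y
    rw [hG', map_mul, eval_X]
  have hG'0 : eval (seg y₀) G' ≠ 0 := by
    rw [hG'e]
    exact mul_ne_zero hGy₀ hw₀
  -- the algebra
  let av : Y → SIx N → E := fun y => seg (y : PPt E N)
  let V : Submodule E (Y → E) := formsOn av 1
  have hVk : ∀ k, V ^ k = formsOn av k := fun k => (forms_pow av k).symm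
  have hV : V.FG := by
    have : Module.Finite E V := formsOn_finite av 1
    exact Module.Finite.iff_fg.mp this
  have hdom : ∀ (i j : ℕ) (F F' : Y → E), F ∈ V ^ i → F' ∈ V ^ j → F * F' = 0 →
      F = 0 ∨ F' = 0 := by
    intro i j F F' hF hF' h0
    rw [hVk, mem_forms] at hF hF'
    obtain ⟨P, hP, hP'⟩ := hF
    obtain ⟨Q, hQ, hQ'⟩ := hF'
    have hv : Van av (P * Q) := by
      intro y
      rw [map_mul, ← hP', ← hQ']
      exact congrFun h0 y
    rcases primeH_seg Y hYi P Q i j hP hQ hv with h1 | h1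
    · left
      funext y
      rw [hP']
      exact h1 y
    · right
      funext y
      rw [hQ']
      exact h1 y
  have hfin : ∀ k, Module.finrank E (V ^ k : Submodule E (Y → E)) ≤ E₁ * k + 1 := by
    intro k
    rw [hVk]
    exact hZ.hil n k
  have hlin : ∀ c : SIx N → E, (fun y : Y => lin c (y : PPt E N)) ∈ V := by
    intro c
    obtain ⟨P, hP, hP'⟩ := lin_form (N := N) c
    exact (mem_forms _ _ _).2 ⟨P, hP, fun y => hP' y⟩
  let la : Y → E := fun y => lin a (y : PPt E N)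
  let lb : Y → E := fun y => lin b (y : PPt E N)
  obtain ⟨⟨y₁, hy₁, hay₁⟩, hnc⟩ := hn
  have hb0 : lb ≠ 0 := by
    intro h0
    obtain ⟨y, hy, hne⟩ := hnc 0
    apply hne
    rw [zero_mul]
    exact congrFun h0 ⟨y, hy⟩
  have hab : ∀ c : E, la ≠ c • lb := by
    intro c hc
    have hc' : ∀ y ∈ Y, lin a y = c * lin b y := fun y hy => congrFun hc ⟨y, hy⟩
    have hc0 : c ≠ 0 := by
      rintro rfl
      apply hay₁
      rw [hc' y₁ hy₁, zero_mul]
    obtain ⟨y, hy, hne⟩ := hnc c⁻¹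
    apply hne
    rw [hc' y hy, inv_mul_cancel_left₀ hc0]
  have hGV : (fun y : Y => eval (seg (y : PPt E N)) G') ∈ V ^ (D + 1) := by
    rw [hVk, mem_forms]
    exact ⟨G', hG'h, fun y => rfl⟩
  have hGV0 : (fun y : Y => eval (seg (y : PPt E N)) G') ≠ 0 := by
    intro h0
    exact hG'0 (congrFun h0 ⟨y₀, hy₀⟩)
  -- the bad values
  set bad : Set E := {s | ∀ y ∈ Y, lin a y = s * lin b y → eval (seg y) G = 0} with hbad
  have hcard : ∀ S : Finset E, (∀ s ∈ S, s ∈ bad) → S.card ≤ E₁ * (E₁ * (D + 1)) + 1 := by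
    intro S hS
    refine few_s V hV hdom E₁ hfin la lb (hlin a) (hlin b) hb0 hab (D + 1) _ hGV hGV0 S ?_
    intro s hs
    have hsl : ∀ y : PPt E N, lin (a - s • b) y = lin a y - s * lin b y := by
      intro y
      simp only [lin, Pi.sub_apply, Pi.smul_apply, smul_eq_mul, sub_mul, Finset.sum_sub_distrib,
        Finset.mul_sum, mul_assoc]
    have hl : ∃ y ∈ Y, lin (a - s • b) y ≠ 0 := by
      by_contra hcon
      push Not at hcon
      apply hab s
      funext y
      have h1 := hcon y y.2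
      rw [hsl, sub_eq_zero] at h1
      exact h1
    obtain ⟨k₁, hk₁⟩ := bad_s Y hY hYi E₁ (hZ.hil n) (a - s • b) hl (D + 1) (by omega) G' hG'h
      (fun y hy h0 => by
        rw [hsl, sub_eq_zero] at h0
        rw [hG'e, hS s hs y hy h0, zero_mul])
    refine ⟨k₁, fun k hk F hF => ?_⟩
    obtain ⟨F', hF', he⟩ := hk₁ k hk F hF
    refine ⟨F', hF', he.trans ?_⟩
    congr 1
    funext y
    exact hsl y
  have hbf : bad.Finite := by
    by_contra hinf
    obtain ⟨S, hS, hSc⟩ := Set.Infinite.exists_subset_card_eq hinf (E₁ * (E₁ * (D + 1)) + 1 + 1)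
    have h1 := hcard S (fun s hs => hS hs)
    omega
  refine ⟨hbf.toFinset, hcard _ fun s hs => (Set.Finite.mem_toFinset _).1 hs, fun s hs => ?_⟩
  rw [Set.Finite.mem_toFinset, hbad, Set.mem_ofPred_eq] at hs
  push Not at hs
  exact hs

end Pool.Agent.KST
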