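import Mathlib

/-!
# KST KRON: integer vectors with polynomially bounded orbit are periodic

PROOF.  Let `μ ∈ ℚ[X]` be the monic generator of the ideal of the `p` with `(aeval A p) v = 0` (`A`, `v`
over `ℚ`; the case `v = 0` is trivial). It divides the characteristic polynomial, so it has integer
coefficients (Gauss: monic divisor of a monic integer polynomial: `minpoly`-free argument: its roots are
algebraic integers; or `Polynomial.IsPrimitive...`/`IsIntegrallyClosed.eq_map_mul_C_of_dvd`), so it is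
the image of a monic `M ∈ ℤ[X]`.
Every complex root `z` of `M` has `‖z‖ ≤ 1`: `M = (X - z) q` over `ℂ`, `w = q(A) v ≠ 0` (`q` has smaller degree
than `μ`; the annihilator over `ℂ` of a rational vector is generated by `μ` too: or use that the vectors
`v, A v, …, A^(deg μ - 1) v` are linearly independent over `ℚ`, hence over `ℂ`), `A w = z w`, and
`A ^ m w = q(A) (A ^ m v)` is polynomially bounded in `m`, so `‖z‖ ≤ 1`.
`0` is not a root (`A w = 0` is impossible, `A B = 1`, so `B A = 1`). So the constant term is a nonzero integer,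
the product of the roots has modulus `≥ 1`, so all the roots have modulus `1`. Kronecker: all the roots are
roots of unity (`Polynomial.pow_eq_one_of_mahlerMeasure_eq_one` in `Mathlib.NumberTheory.MahlerMeasure`,
the Mahler measure is the product of the `max 1 ‖z‖`; or
`NumberField.Embeddings.pow_eq_one_of_norm_eq_one`). Let `n ≥ 1` with `z ^ n = 1` for all the roots. Then `M`
divides `(X ^ n - 1) ^ k` over `ℂ`, `k = card` of the roots (each `X - z` divides `X ^ n - 1`), so over `ℚ`, so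
`(A ^ n - 1) ^ k v = 0`. By `hs` for the integer vector `(A ^ n - 1) ^ (k - 2) v` and induction on `k`:
`(A ^ n - 1) v = 0`.
-/

set_option autoImplicit false

open Polynomial Filter Topology

namespace Pool.Agent.KST

variable {ι : Type*} [Fintype ι] [DecidableEq ι]

/-- a `ℚ`-linear functional of `ℂ` which is not zero at a given number -/
private theorem exists_func (c : ℂ) (hc : c ≠ 0) : ∃ φ : ℂ →ₗ[ℚ] ℚ, φ c ≠ 0 := by
  by_contra h
  push Not at h
  exact hc ((Module.forall_dual_apply_eq_zero_iff ℚ c).1 h)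

private theorem aeval_mulVec {R : Type*} [CommRing R] (B : Matrix ι ι R) (p : R[X]) (w : ι → R)
    (n : ℕ) (hn : p.natDegree < n) : (aeval B p).mulVec w =
      ∑ j ∈ Finset.range n, p.coeff j • (B ^ j).mulVec w := by
  rw [aeval_eq_sum_range' hn, Matrix.sum_mulVec]
  exact Finset.sum_congr rfl fun j _ => Matrix.smul_mulVec _ _ _

private theorem map_pow_mulVec (B : Matrix ι ι ℚ) (w : ι → ℚ) (m : ℕ) (i : ι) :
    ((B.map (algebraMap ℚ ℂ)) ^ m).mulVec (fun i => (w i : ℂ)) i = (((B ^ m).mulVec w i : ℚ) : ℂ) := by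
  rw [← Matrix.map_pow]
  simp only [Matrix.mulVec, dotProduct, Matrix.map_apply]
  push_cast
  rfl

/-- The complex polynomials which annihilate a rational vector are multiples of the rational
ones. -/
private theorem annih (B : Matrix ι ι ℚ) (w : ι → ℚ) (g : ℚ[X]) (hg : Irreducible g)
    (hgw : (aeval B g).mulVec w = 0) (hw : w ≠ 0) (p : ℂ[X])
    (hp : (aeval (B.map (algebraMap ℚ ℂ)) p).mulVec (fun i => (w i : ℂ)) = 0) (hp0 : p ≠ 0) :
    g.natDegree ≤ p.natDegree := by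
  obtain ⟨φ, hφ⟩ := exists_func p.leadingCoeff (leadingCoeff_ne_zero.2 hp0)
  obtain ⟨q, hq⟩ : ∃ q : ℚ[X], q = ∑ j ∈ Finset.range (p.natDegree + 1), C (φ (p.coeff j)) * X ^ j :=
    ⟨_, rfl⟩
  have hqc : ∀ j, q.coeff j = if j ∈ Finset.range (p.natDegree + 1) then φ (p.coeff j) else 0 := by
    intro j
    rw [hq, finsetSum_coeff]
    simp only [coeff_C_mul, coeff_X_pow, mul_ite, mul_one, mul_zero]
    rw [Finset.sum_ite_eq]
  have hqd : q.natDegree < p.natDegree + 1 := by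
    rw [Nat.lt_succ_iff, natDegree_le_iff_coeff_eq_zero]
    intro j hj
    rw [hqc, if_neg]
    rw [Finset.mem_range]
    omega
  have hq0 : q ≠ 0 := by
    intro h
    have h1 := hqc p.natDegree
    rw [h, coeff_zero, if_pos (Finset.mem_range.2 (Nat.lt_succ_self _))] at h1
    exact hφ h1.symm
  have hqw : (aeval B q).mulVec w = 0 := by
    rw [aeval_mulVec B q w _ hqd]
    rw [aeval_mulVec _ p _ _ (Nat.lt_succ_self _)] at hp
    funext i
    have h1 := congrFun hp i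
    simp only [Finset.sum_apply, Pi.smul_apply, Pi.zero_apply, smul_eq_mul] at h1 ⊢
    have h2 := congrArg φ h1
    rw [map_zero, map_sum] at h2
    rw [← h2]
    refine Finset.sum_congr rfl fun j hj => ?_
    rw [map_pow_mulVec, hqc, if_pos hj]
    have h3 : p.coeff j * (((B ^ j).mulVec w i : ℚ) : ℂ) = ((B ^ j).mulVec w i) • p.coeff j := by
      rw [Rat.smul_def, mul_comm]
    rw [h3, map_smul, smul_eq_mul, mul_comm]
  have hdvd : g ∣ q := by
    by_contra hnd
    have hcop : IsCoprime g q := (Irreducible.coprime_iff_not_dvd hg).2 hnd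
    obtain ⟨a, b, hab⟩ := hcop
    apply hw
    have h1 : (aeval B (a * g + b * q)).mulVec w = 0 := by
      rw [map_add, map_mul, map_mul, Matrix.add_mulVec, ← Matrix.mulVec_mulVec,
        ← Matrix.mulVec_mulVec, hgw, hqw, Matrix.mulVec_zero, Matrix.mulVec_zero, add_zero]
    rw [hab, map_one, Matrix.one_mulVec] at h1
    exact h1
  have h1 := natDegree_le_of_dvd hdvd hq0
  omega


private theorem cast_poly (B : Matrix ι ι ℚ) (p : ℚ[X]) (y : ι → ℚ) :
    (aeval (B.map (algebraMap ℚ ℂ)) (p.map (algebraMap ℚ ℂ))).mulVec (fun i => (y i : ℂ)) =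
      fun i => (((aeval B p).mulVec y i : ℚ) : ℂ) := by
  rw [aeval_mulVec _ _ _ (p.natDegree + 1) (by
    rw [natDegree_map]; exact Nat.lt_succ_self _),
    aeval_mulVec B p y (p.natDegree + 1) (Nat.lt_succ_self _)]
  funext i
  simp only [Finset.sum_apply, Pi.smul_apply, smul_eq_mul]
  push_cast
  refine Finset.sum_congr rfl fun j _ => ?_
  rw [map_pow_mulVec, coeff_map]
  rfl

/-- Vectors with polynomially bounded orbit. -/
private def PB (B : Matrix ι ι ℚ) (w : ι → ℚ) : Prop :=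
  ∃ C : ℕ, ∀ (m : ℕ) (i : ι), |(((B ^ m).mulVec w i : ℚ) : ℝ)| ≤ C * (1 + (m : ℝ)) ^ C

private theorem PB.mul {B : Matrix ι ι ℚ} {w : ι → ℚ} (h : PB B w) (M : Matrix ι ι ℚ)
    (hM : M * B = B * M) : PB B (M.mulVec w) := by
  obtain ⟨C, hC⟩ := h
  obtain ⟨K, hK⟩ := exists_nat_ge (∑ i, ∑ j, |(M i j : ℝ)| * C)
  refine ⟨max K C, fun m i => ?_⟩
  have hcomm : B ^ m * M = M * B ^ m := by
    have : Commute M B := hM
    exact (this.pow_right m).eq.symm
  rw [Matrix.mulVec_mulVec, hcomm, ← Matrix.mulVec_mulVec]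
  have h1 : (((M.mulVec ((B ^ m).mulVec w)) i : ℚ) : ℝ) =
      ∑ j, (M i j : ℝ) * (((B ^ m).mulVec w j : ℚ) : ℝ) := by
    simp only [Matrix.mulVec, dotProduct]
    push_cast
    rfl
  have hm : (1 : ℝ) ≤ 1 + m := by
    have : (0 : ℝ) ≤ m := Nat.cast_nonneg m
    linarith
  rw [h1]
  calc |∑ j, (M i j : ℝ) * (((B ^ m).mulVec w j : ℚ) : ℝ)|
      ≤ ∑ j, |(M i j : ℝ) * (((B ^ m).mulVec w j : ℚ) : ℝ)| := Finset.abs_sum_le_sum_abs _ _
    _ ≤ ∑ j, |(M i j : ℝ)| * C * (1 + (m : ℝ)) ^ C := by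
        refine Finset.sum_le_sum fun j _ => ?_
        rw [abs_mul, mul_assoc]
        exact mul_le_mul_of_nonneg_left (hC m j) (abs_nonneg _)
    _ = (∑ j, |(M i j : ℝ)| * C) * (1 + (m : ℝ)) ^ C := by rw [Finset.sum_mul]
    _ ≤ (∑ i, ∑ j, |(M i j : ℝ)| * C) * (1 + (m : ℝ)) ^ C := by
        refine mul_le_mul_of_nonneg_right ?_ (by positivity)
        exact Finset.single_le_sum (f := fun i => ∑ j, |(M i j : ℝ)| * C)
          (fun i _ => Finset.sum_nonneg fun j _ => by positivity) (Finset.mem_univ i)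
    _ ≤ K * (1 + (m : ℝ)) ^ C := mul_le_mul_of_nonneg_right hK (by positivity)
    _ ≤ (max K C : ℕ) * (1 + (m : ℝ)) ^ (max K C) := by
        refine mul_le_mul ?_ (pow_le_pow_right₀ hm (le_max_right _ _)) (by positivity)
          (by positivity)
        exact_mod_cast le_max_left K C

/-- The roots of an irreducible factor which occurs in a vector with polynomially bounded orbit
have absolute value at most one. -/
private theorem root_le (B B' : Matrix ι ι ℚ) (hBB : B' * B = 1) (g : ℚ[X]) (hg : Irreducible g)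
    (w : ι → ℚ) (hw : w ≠ 0) (hgw : (aeval B g).mulVec w = 0) (hPB : PB B w) (z : ℂ)
    (hz : aeval z g = 0) : ‖z‖ ≤ 1 ∧ z ≠ 0 := by
  obtain ⟨Bc, hBc⟩ : ∃ Bc : Matrix ι ι ℂ, Bc = B.map (algebraMap ℚ ℂ) := ⟨_, rfl⟩
  have hroot : (g.map (algebraMap ℚ ℂ)).IsRoot z := by
    rw [IsRoot, eval_map_algebraMap]
    exact hz
  obtain ⟨g₁, hg₁⟩ := dvd_iff_isRoot.2 hroot
  have hgm0 : g.map (algebraMap ℚ ℂ) ≠ 0 := by
    rw [Ne, Polynomial.map_eq_zero]
    exact hg.ne_zero
  have hg₁0 : g₁ ≠ 0 := by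
    intro h
    rw [h, mul_zero] at hg₁
    exact hgm0 hg₁
  have hdeg : g₁.natDegree < g.natDegree := by
    have h1 : (g.map (algebraMap ℚ ℂ)).natDegree = g.natDegree := natDegree_map _
    rw [hg₁, natDegree_mul (X_sub_C_ne_zero z) hg₁0, natDegree_X_sub_C] at h1
    omega
  obtain ⟨P, hP⟩ : ∃ P : Matrix ι ι ℂ, P = aeval Bc g₁ := ⟨_, rfl⟩
  obtain ⟨u, hu⟩ : ∃ u, u = P.mulVec (fun i => (w i : ℂ)) := ⟨_, rfl⟩
  have hu0 : u ≠ 0 := by
    intro h
    rw [hu, hP] at h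
    have := annih B w g hg hgw hw g₁ (by rw [← hBc]; exact h) hg₁0
    omega
  have hBu : Bc.mulVec u = z • u := by
    have h1 : (aeval Bc ((X - Polynomial.C z) * g₁)).mulVec (fun i => (w i : ℂ)) = 0 := by
      rw [← hg₁, hBc, cast_poly, hgw]
      funext i
      simp
    rw [map_mul, ← Matrix.mulVec_mulVec, ← hP, ← hu, map_sub, aeval_X, aeval_C,
      Algebra.algebraMap_eq_smul_one, Matrix.sub_mulVec, Matrix.smul_mulVec,
      Matrix.one_mulVec] at h1
    exact sub_eq_zero.1 h1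
  have hz0 : z ≠ 0 := by
    rintro rfl
    rw [zero_smul] at hBu
    apply hu0
    have h1 : (B'.map (algebraMap ℚ ℂ)).mulVec (Bc.mulVec u) = u := by
      rw [Matrix.mulVec_mulVec, hBc, ← Matrix.map_mul, hBB,
        Matrix.map_one _ (map_zero _) (map_one _), Matrix.one_mulVec]
    rw [← h1, hBu, Matrix.mulVec_zero]
  refine ⟨?_, hz0⟩
  by_contra hlt
  push Not at hlt
  have hBmu : ∀ m : ℕ, (Bc ^ m).mulVec u = z ^ m • u := by
    intro m
    induction m with
    | zero => rw [pow_zero, pow_zero, Matrix.one_mulVec, one_smul]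
    | succ m ih =>
      rw [pow_succ', ← Matrix.mulVec_mulVec, ih, Matrix.mulVec_smul, hBu, smul_smul, ← pow_succ]
  have hBmP : ∀ m : ℕ, (Bc ^ m).mulVec u =
      P.mulVec (fun i => (((B ^ m).mulVec w i : ℚ) : ℂ)) := by
    intro m
    have h1 : Bc ^ m * P = P * Bc ^ m := by
      rw [hP]
      have h2 : Bc ^ m = aeval Bc (X ^ m : ℂ[X]) := by rw [map_pow, aeval_X]
      rw [h2, ← map_mul, ← map_mul, mul_comm]
    rw [hu, Matrix.mulVec_mulVec, h1, ← Matrix.mulVec_mulVec]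
    congr 1
    funext i
    rw [hBc, map_pow_mulVec]
  obtain ⟨i₁, hi₁⟩ : ∃ i, u i ≠ 0 := by
    by_contra h
    push Not at h
    exact hu0 (funext h)
  obtain ⟨C, hC⟩ := hPB
  obtain ⟨K, hK⟩ : ∃ K : ℝ, K = ∑ j, ‖P i₁ j‖ := ⟨_, rfl⟩
  have hK0 : 0 ≤ K := by
    rw [hK]
    exact Finset.sum_nonneg fun _ _ => norm_nonneg _
  have hbd : ∀ m : ℕ, ‖z‖ ^ m * ‖u i₁‖ ≤ K * (C * (1 + (m : ℝ)) ^ C) := by
    intro m
    have h1 : ‖z‖ ^ m * ‖u i₁‖ = ‖P.mulVec (fun i => (((B ^ m).mulVec w i : ℚ) : ℂ)) i₁‖ := by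
      rw [← hBmP, hBmu, Pi.smul_apply, smul_eq_mul, norm_mul, norm_pow]
    rw [h1]
    calc ‖P.mulVec (fun i => (((B ^ m).mulVec w i : ℚ) : ℂ)) i₁‖
        ≤ ∑ j, ‖P i₁ j * (((B ^ m).mulVec w j : ℚ) : ℂ)‖ := by
          simp only [Matrix.mulVec, dotProduct]
          exact norm_sum_le _ _
      _ ≤ ∑ j, ‖P i₁ j‖ * (C * (1 + (m : ℝ)) ^ C) := by
          refine Finset.sum_le_sum fun j _ => ?_
          rw [norm_mul]
          refine mul_le_mul_of_nonneg_left ?_ (norm_nonneg _)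
          have h2 : ‖(((B ^ m).mulVec w j : ℚ) : ℂ)‖ = |(((B ^ m).mulVec w j : ℚ) : ℝ)| := by
            rw [Complex.norm_ratCast]
          rw [h2]
          exact hC m j
      _ = _ := by rw [← Finset.sum_mul, hK]
  have hlim : Tendsto (fun m : ℕ => K * C * ((m : ℝ) ^ C / ‖z‖ ^ m) * (2 : ℝ) ^ C) atTop
      (𝓝 (K * C * 0 * (2 : ℝ) ^ C)) :=
    ((tendsto_pow_const_div_const_pow_of_one_lt C hlt).const_mul _).mul_const _
  rw [mul_zero, zero_mul] at hlim
  have hz1 : 0 < ‖z‖ := norm_pos_iff.2 hz0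
  have hle : ‖u i₁‖ ≤ 0 := by
    refine ge_of_tendsto hlim ?_
    filter_upwards [eventually_ge_atTop 1] with m hm
    have hm1 : (1 : ℝ) ≤ m := by exact_mod_cast hm
    have h3 : (1 + (m : ℝ)) ^ C ≤ (2 : ℝ) ^ C * (m : ℝ) ^ C := by
      rw [← mul_pow]
      exact pow_le_pow_left₀ (by linarith) (by linarith) C
    have h4 := hbd m
    have h5 : ‖u i₁‖ = ‖z‖ ^ m * ‖u i₁‖ / ‖z‖ ^ m := by
      field_simp
    rw [h5, div_le_iff₀ (pow_pos hz1 m)]
    refine h4.trans ?_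
    have h6 : K * C * ((m : ℝ) ^ C / ‖z‖ ^ m) * (2 : ℝ) ^ C * ‖z‖ ^ m =
        K * (C * ((2 : ℝ) ^ C * (m : ℝ) ^ C)) := by
      field_simp
    rw [h6]
    exact mul_le_mul_of_nonneg_left (mul_le_mul_of_nonneg_left h3 (Nat.cast_nonneg C)) hK0
  exact hi₁ (norm_le_zero_iff.1 hle)

/-- An irreducible factor all of whose roots have absolute value at most one divides some
`X ^ n - 1`. -/
private theorem dvd_cyc (g : ℚ[X]) (hg : Irreducible g) (χ : ℤ[X]) (hχ : χ.Monic)
    (hgχ : g ∣ χ.map (Int.castRingHom ℚ)) (hz : ∀ z : ℂ, aeval z g = 0 → ‖z‖ ≤ 1 ∧ z ≠ 0) :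
    ∃ n : ℕ, 1 ≤ n ∧ g ∣ X ^ n - 1 := by
  have : Fact (Irreducible g) := ⟨hg⟩
  have : FiniteDimensional ℚ (AdjoinRoot g) :=
    PowerBasis.finite (AdjoinRoot.powerBasis hg.ne_zero)
  have : CharZero (AdjoinRoot g) :=
    charZero_of_injective_algebraMap (algebraMap ℚ (AdjoinRoot g)).injective
  have : NumberField (AdjoinRoot g) := { to_charZero := inferInstance, to_finiteDimensional := inferInstance }
  obtain ⟨x, hx⟩ : ∃ x, x = AdjoinRoot.root g := ⟨_, rfl⟩
  have hgx : aeval x g = 0 := by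
    rw [hx, aeval_def]
    exact AdjoinRoot.eval₂_root g
  have hφ : ∀ φ : AdjoinRoot g →+* ℂ, aeval (φ x) g = 0 := by
    intro φ
    have h1 : aeval (φ.toRatAlgHom x) g = φ.toRatAlgHom (aeval x g) :=
      (Polynomial.aeval_algHom_apply _ _ _)
    rw [hgx, map_zero] at h1
    exact h1
  have hx0 : x ≠ 0 := by
    intro h
    obtain ⟨φ⟩ : Nonempty (AdjoinRoot g →+* ℂ) := inferInstance
    have h1 := (hz (φ x) (hφ φ)).2
    rw [h, map_zero] at h1
    exact h1 rfl
  have hxi : IsIntegral ℤ x := by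
    refine ⟨χ, hχ, ?_⟩
    obtain ⟨q, hq⟩ := hgχ
    have h1 : aeval x (χ.map (Int.castRingHom ℚ)) = 0 := by
      rw [hq, map_mul, hgx, zero_mul]
    rw [aeval_def, eval₂_map] at h1
    have h2 : (algebraMap ℚ (AdjoinRoot g)).comp (Int.castRingHom ℚ) =
      algebraMap ℤ (AdjoinRoot g) := RingHom.ext_int _ _
    rw [h2] at h1
    exact h1
  obtain ⟨n, hn0, hn⟩ := NumberField.Embeddings.pow_eq_one_of_norm_le_one (AdjoinRoot g) ℂ hx0 hxi
    (fun φ => (hz (φ x) (hφ φ)).1)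
  refine ⟨n, hn0, ?_⟩
  rw [← AdjoinRoot.mk_eq_zero, map_sub, map_pow, AdjoinRoot.mk_X, ← hx, hn, map_one, sub_self]

private theorem pow_sub_dvd (B : Matrix ι ι ℚ) (a b : ℕ) :
    ∃ M : Matrix ι ι ℚ, M * B = B * M ∧ B ^ (a * b) - 1 = M * (B ^ a - 1) := by
  obtain ⟨q, hq⟩ : (X ^ a - 1 : ℚ[X]) ∣ X ^ (a * b) - 1 := by
    rw [pow_mul]
    exact sub_one_dvd_pow_sub_one _ _
  refine ⟨aeval B q, ?_, ?_⟩
  · have h1 : aeval B q * aeval B (X : ℚ[X]) = aeval B (X : ℚ[X]) * aeval B q := by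
      rw [← map_mul, ← map_mul, mul_comm]
    rwa [aeval_X] at h1
  · have h1 := congrArg (aeval B) hq
    rw [mul_comm (X ^ a - 1 : ℚ[X]) q, map_mul, map_sub, map_sub, map_pow, map_pow, map_one,
      aeval_X] at h1
    exact h1

private theorem kron_aux (B B' : Matrix ι ι ℚ) (hBB : B' * B = 1) (χ : ℤ[X]) (hχ : χ.Monic) :
    ∀ (n : ℕ) (p : ℚ[X]), p.natDegree ≤ n → p ≠ 0 → p ∣ χ.map (Int.castRingHom ℚ) →
      ∀ w : ι → ℚ, PB B w → (aeval B p).mulVec w = 0 →
        ∃ N k : ℕ, 1 ≤ N ∧ ((B ^ N - 1) ^ k).mulVec w = 0 := by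
  intro n
  induction n with
  | zero =>
    intro p hp hp0 _ w _ hpw
    refine ⟨1, 0, le_rfl, ?_⟩
    rw [Nat.le_zero] at hp
    rw [eq_C_of_natDegree_eq_zero hp] at hpw hp0
    rw [aeval_C, Algebra.algebraMap_eq_smul_one, Matrix.smul_mulVec, Matrix.one_mulVec] at hpw
    rw [pow_zero, Matrix.one_mulVec]
    rcases smul_eq_zero.1 hpw with h | h
    · exact absurd (by rw [h, C_0]) hp0
    · exact h
  | succ n ih =>
    intro p hp hp0 hpχ w hw hpw
    by_cases hpu : IsUnit p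
    · obtain ⟨c, hc, hcp⟩ := isUnit_iff.1 hpu
      rw [← hcp, aeval_C, Algebra.algebraMap_eq_smul_one, Matrix.smul_mulVec,
        Matrix.one_mulVec] at hpw
      refine ⟨1, 0, le_rfl, ?_⟩
      rw [pow_zero, Matrix.one_mulVec]
      rcases smul_eq_zero.1 hpw with h | h
      · exact absurd h hc.ne_zero
      · exact h
    obtain ⟨g, hg, q, rfl⟩ := WfDvdMonoid.exists_irreducible_factor hpu hp0
    have hgq : (aeval B g).mulVec ((aeval B q).mulVec w) = 0 := by
      rw [Matrix.mulVec_mulVec, ← map_mul]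
      exact hpw
    have hq0 : q ≠ 0 := right_ne_zero_of_mul hp0
    have hdeg : q.natDegree ≤ n := by
      rw [natDegree_mul hg.ne_zero hq0] at hp
      have := hg.natDegree_pos
      omega
    have hqχ : q ∣ χ.map (Int.castRingHom ℚ) := (Dvd.intro_left g rfl).trans hpχ
    have hgχ : g ∣ χ.map (Int.castRingHom ℚ) := (Dvd.intro q rfl).trans hpχ
    by_cases hq : (aeval B q).mulVec w = 0
    · exact ih q hdeg hq0 hqχ w hw hq
    have hcomm : ∀ p : ℚ[X], aeval B p * B = B * aeval B p := by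
      intro p
      have h1 : aeval B p * aeval B (X : ℚ[X]) = aeval B (X : ℚ[X]) * aeval B p := by
        rw [← map_mul, ← map_mul, mul_comm]
      rwa [aeval_X] at h1
    have hPq : PB B ((aeval B q).mulVec w) := hw.mul _ (hcomm q)
    obtain ⟨N₁, hN₁, r, hr⟩ := dvd_cyc g hg χ hχ hgχ
      (fun z hz => root_le B B' hBB g hg _ hq hgq hPq z hz)
    -- the vector `(B ^ N₁ - 1) w`
    have hBN : aeval B (X ^ N₁ - 1 : ℚ[X]) = B ^ N₁ - 1 := by
      rw [map_sub, map_pow, aeval_X, map_one]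
    have hw' : PB B ((B ^ N₁ - 1).mulVec w) := by
      rw [← hBN]
      exact hw.mul _ (hcomm _)
    have hqw' : (aeval B q).mulVec ((B ^ N₁ - 1).mulVec w) = 0 := by
      rw [← hBN, hr, Matrix.mulVec_mulVec, ← map_mul]
      have h1 : q * (g * r) = r * (g * q) := by ring
      rw [h1, map_mul, ← Matrix.mulVec_mulVec, hpw, Matrix.mulVec_zero]
    obtain ⟨N₂, k, hN₂, hk⟩ := ih q hdeg hq0 hqχ _ hw' hqw'
    obtain ⟨M₁, hM₁, hM₁'⟩ := pow_sub_dvd B N₁ N₂
    obtain ⟨M₂, hM₂, hM₂'⟩ := pow_sub_dvd B N₂ N₁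
    rw [mul_comm N₂ N₁] at hM₂'
    refine ⟨N₁ * N₂, k + 1, Nat.one_le_iff_ne_zero.2 (by positivity), ?_⟩
    have hc1 : Commute M₂ (B ^ N₂ - 1) := by
      have : Commute M₂ B := hM₂
      exact (this.pow_right N₂).sub_right (Commute.one_right _)
    have h2 : (B ^ (N₁ * N₂) - 1) ^ (k + 1) = M₂ ^ k * M₁ * ((B ^ N₂ - 1) ^ k * (B ^ N₁ - 1)) := by
      rw [pow_succ]
      nth_rewrite 1 [hM₂']
      rw [hM₁', hc1.mul_pow]
      have hc2 : Commute M₁ ((B ^ N₂ - 1) ^ k) := by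
        have h3 : Commute M₁ B := hM₁
        exact ((h3.pow_right N₂).sub_right (Commute.one_right _)).pow_right k
      calc M₂ ^ k * (B ^ N₂ - 1) ^ k * (M₁ * (B ^ N₁ - 1)) =
            M₂ ^ k * ((B ^ N₂ - 1) ^ k * M₁) * (B ^ N₁ - 1) := by noncomm_ring
        _ = M₂ ^ k * (M₁ * (B ^ N₂ - 1) ^ k) * (B ^ N₁ - 1) := by rw [hc2.eq]
        _ = _ := by noncomm_ring
    rw [Matrix.mulVec_mulVec] at hk
    rw [h2, ← Matrix.mulVec_mulVec, hk, Matrix.mulVec_zero]

theorem kron (A B : Matrix ι ι ℤ) (hAB : A * B = 1)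
    (hs : ∀ n : ℕ, 1 ≤ n → ∀ v : ι → ℤ, ((A ^ n - 1) ^ 2).mulVec v = 0 → (A ^ n - 1).mulVec v = 0)
    (v : ι → ℤ) (C : ℕ)
    (hC : ∀ (m : ℕ) (i : ι), |((A ^ m).mulVec v i : ℝ)| ≤ C * (1 + (m : ℝ)) ^ C) :
    ∃ s : ℕ, 1 ≤ s ∧ (A ^ s).mulVec v = v := by
  have hBA : B * A = 1 := by
    rw [mul_eq_one_comm]
    exact hAB
  obtain ⟨A', hA'⟩ : ∃ A' : Matrix ι ι ℚ, A' = A.map (Int.castRingHom ℚ) := ⟨_, rfl⟩
  have hcast : ∀ (M : Matrix ι ι ℤ) (y : ι → ℤ) (i : ι),
      (M.map (Int.castRingHom ℚ)).mulVec (fun j => (y j : ℚ)) i = ((M.mulVec y i : ℤ) : ℚ) := by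
    intro M y i
    simp only [Matrix.mulVec, dotProduct, Matrix.map_apply]
    push_cast
    rfl
  have hPB : PB A' (fun i => (v i : ℚ)) := by
    refine ⟨C, fun m i => ?_⟩
    rw [hA', ← Matrix.map_pow, hcast]
    have := hC m i
    push_cast
    exact this
  have hBB : B.map (Int.castRingHom ℚ) * A' = 1 := by
    rw [hA', ← Matrix.map_mul, hBA, Matrix.map_one _ (map_zero _) (map_one _)]
  have hchar : A.charpoly.map (Int.castRingHom ℚ) = A'.charpoly := by
    rw [hA', Matrix.charpoly_map]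
  obtain ⟨N, k, hN, hk⟩ := kron_aux A' _ hBB A.charpoly A.charpoly_monic _ A'.charpoly le_rfl
    A'.charpoly_monic.ne_zero (by rw [hchar]) _ hPB
    (by rw [Matrix.aeval_self_charpoly, Matrix.zero_mulVec])
  have hk' : ((A ^ N - 1) ^ k).mulVec v = 0 := by
    have h1 : (A' ^ N - 1) ^ k = ((A ^ N - 1) ^ k).map (Int.castRingHom ℚ) := by
      rw [Matrix.map_pow, Matrix.map_sub _ (fun a b => map_sub _ a b), Matrix.map_pow,
        Matrix.map_one _ (map_zero _) (map_one _), hA']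
    funext i
    have h2 := congrFun hk i
    rw [h1, hcast, Pi.zero_apply] at h2
    rw [Pi.zero_apply]
    exact_mod_cast h2
  have hred : ∀ k : ℕ, ((A ^ N - 1) ^ k).mulVec v = 0 → (A ^ N - 1).mulVec v = 0 := by
    intro k
    induction k with
    | zero =>
      intro h
      rw [pow_zero, Matrix.one_mulVec] at h
      rw [h, Matrix.mulVec_zero]
    | succ k ih =>
      intro h
      rcases k with _ | k
      · rwa [zero_add, pow_one] at h
      · apply ih
        rw [pow_succ', ← Matrix.mulVec_mulVec]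
        apply hs N hN
        rw [Matrix.mulVec_mulVec, ← pow_add, add_comm 2 k]
        exact h
  have h3 := hred k hk'
  refine ⟨N, hN, ?_⟩
  rw [Matrix.sub_mulVec, Matrix.one_mulVec, sub_eq_zero] at h3
  exact h3

end Pool.Agent.KST
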