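import Pool.Agent.KST.Sdefs
import Pool.Agent.KST.Kron
import Pool.Agent.LLC.Few

/-!
# KST DGB: the degrees of the iterates on a slow curve are bounded

Follow the proof of `slow_vec` (LLC/Few.lean) with `Q = idl Z`, `noeth`, `rank_finite`, `basis`,
`hil_limit`, uniqueness of dimension and degree (`few_unique` there is private: copy it): curve data
`K, ht, η` (`exists_curveData`) and `hd_core` for `(f, A)` and for `(g, B)`, with the same `ht, η, w₀`:
`Hd^f`, `Hd^g` with `Hd^f 0 = Hd^g 0 = v` (natural vectors), `(A ^ m) v = Hd^f m`, `(B ^ m) v = Hd^g m`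
(`A, B` act numerically: `LinActsBy.acts`). The slow curve: `RepBy Z f^[m] k` with
`k ≤ C (1 + m) ^ C`, so `∑ Hd^f m ≤ k e`, so `A ^ m v` is polynomially bounded, `kron`:
`A ^ s v = v`, `s ≥ 1`. Then `Hd^f` is periodic, and `B ^ s v = B ^ s A ^ s v = v` (`B A = 1`), so `Hd^g` is
periodic: both are bounded, and the last part of `hd_core` (`RepF` with the degree
`card * (e * ∑ Hd m + 1 + e * e)`; `RepF` for the family `ZQ` is `RepBy Z`: the points of `X` which
are zeros of `Q` are the points of `Z`, see `slow_vec`) gives `RepBy Z f^[m] D`, `RepBy Z g^[m] D` for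
all `m` for one `D` (`RepBy` is monotone in the degree: multiply by a power of a coordinate which
is not zero at the point where the forms are not all zero; also the product is not
identically zero at that point).
`hil`: `hil Z k ≤ e k + 1`: `FFHt.dim` for the span of the forms of degree `k` in `η` (its `ht` is
`≤ k e`: `hv_forms` or `mul`; the dimension is `hil Z k` because `F(η) = 0` iff `F ∈ Q` iff `F` vanishes on
`Z`). For `Z_n = f^[n] '' Z`: let `P w` be the forms of degree `D` for `f^[n]`; `F ↦ F(P)` maps forms of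
degree `k` to forms of degree `D k`; if `F(P)` vanishes on `Z` then for the points `y ∈ Z` with
`P(y) ≠ 0`, `F(seg (f^[n] y)) = 0`; also `{y ∈ Z | F(seg (f^[n] y)) = 0}` is closed in `Z` (it is the
set of the `y ∈ Z` where for all the charts `G` of `f^[n]` (`chart G n χ`, `chart_locF`)
`F(chart (y)) = 0`), so by the irreducibility of `Z` (`primeH_seg`: `F(chart) * P w₁` vanishes on `Z` for
every chart and every `w₁`) `F` vanishes on `Z_n`. So the map induces an injective linear map from the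
functions on `Z_n` to the functions on `Z`: `hil Z_n k ≤ hil Z (D k) ≤ e D k + 1`. `E₁ = max D (e D)`.
-/

open MvPolynomial Filter Topology
open scoped LinearAlgebra.Projectivization

namespace Pool.Agent.KST

open Pool.Agent.Helper90.KSC Pool.Agent.Helper63.SAND Pool.Agent.Helper63.WH Pool.Agent.PW
  Pool.Agent.LLX Pool.Agent.LLX.AS Pool.Agent.LLC

section aux

/-- dimension and degree are determined by the Hilbert function -/
private theorem few_lt {u : ℕ → ℝ} {d d' : ℕ} {e e' : ℝ}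
    (h : Tendsto (fun k : ℕ => u k * (d.factorial : ℝ) / (k : ℝ) ^ d) atTop (𝓝 e))
    (h' : Tendsto (fun k : ℕ => u k * (d'.factorial : ℝ) / (k : ℝ) ^ d') atTop (𝓝 e'))
    (he' : e' ≠ 0) : ¬ d < d' := by
  intro hlt
  apply he'
  have h1 : Tendsto (fun k : ℕ => (u k * (d.factorial : ℝ) / (k : ℝ) ^ d) *
      (((d'.factorial : ℝ) / (d.factorial : ℝ)) * (1 / (k : ℝ) ^ (d' - d)))) atTop
      (𝓝 (e * (((d'.factorial : ℝ) / (d.factorial : ℝ)) * 0))) := by
    refine h.mul (Tendsto.const_mul _ ?_)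
    have h2 : Tendsto (fun k : ℕ => ((k : ℝ) ^ (d' - d))) atTop atTop :=
      (tendsto_pow_atTop (by omega)).comp tendsto_natCast_atTop_atTop
    have h3 := h2.inv_tendsto_atTop
    simp only [one_div]
    exact h3
  rw [mul_zero, mul_zero] at h1
  refine tendsto_nhds_unique h' (h1.congr' ?_)
  filter_upwards [eventually_gt_atTop 0] with k hk
  have hk0 : (0 : ℝ) < k := by exact_mod_cast hk
  have hf : (d.factorial : ℝ) ≠ 0 := by exact_mod_cast (Nat.factorial_pos d).ne'
  have h2 : (k : ℝ) ^ d' = (k : ℝ) ^ d * (k : ℝ) ^ (d' - d) := by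
    rw [← pow_add]
    congr 1
    omega
  rw [h2]
  field_simp

private theorem few_unique {u : ℕ → ℝ} {d d' : ℕ} {e e' : ℝ}
    (h : Tendsto (fun k : ℕ => u k * (d.factorial : ℝ) / (k : ℝ) ^ d) atTop (𝓝 e))
    (h' : Tendsto (fun k : ℕ => u k * (d'.factorial : ℝ) / (k : ℝ) ^ d') atTop (𝓝 e'))
    (he : e ≠ 0) (he' : e' ≠ 0) : d = d' ∧ e = e' := by
  have h1 := few_lt h h' he'
  have h2 := few_lt h' h he
  have h3 : d = d' := by omega
  subst h3
  exact ⟨rfl, tendsto_nhds_unique h h'⟩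

private theorem fr_map_le {E V U U' : Type*} [Field E] [AddCommGroup V] [Module E V]
    [AddCommGroup U] [Module E U] [AddCommGroup U'] [Module E U'] (S : Submodule E V)
    (hS : S.FG) (f : V →ₗ[E] U) (g : V →ₗ[E] U') (h : ∀ x ∈ S, g x = 0 → f x = 0) :
    Module.finrank E (S.map f) ≤ Module.finrank E (S.map g) := by
  have hfin : Module.Finite E S := Module.Finite.iff_fg.2 hS
  have h1 := LinearMap.finrank_range_add_finrank_ker (f.domRestrict S)
  have h2 := LinearMap.finrank_range_add_finrank_ker (g.domRestrict S)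
  rw [LinearMap.range_domRestrict] at h1 h2
  have h3 : LinearMap.ker (g.domRestrict S) ≤ LinearMap.ker (f.domRestrict S) := by
    rintro ⟨x, hx⟩ hgx
    rw [LinearMap.mem_ker, LinearMap.domRestrict_apply] at hgx ⊢
    exact h x hx hgx
  have h4 := Submodule.finrank_mono h3
  omega

end aux

variable {E ι : Type*} [Field E] [CharZero E] [IsAlgClosed E]
  [Fintype ι] [DecidableEq ι] {N : ι → ℕ}

omit [CharZero E] [IsAlgClosed E] [DecidableEq ι] in
private theorem seg_ne0 (x : PPt E N) : seg x ≠ 0 := by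
  have h : ∀ i, ∃ j, (x i).rep j ≠ 0 := by
    intro i
    by_contra hcon
    push Not at hcon
    exact (x i).rep_nonzero (funext hcon)
  choose j hj using h
  intro h0
  exact (Finset.prod_ne_zero_iff.2 fun i _ => hj i) (congrFun h0 j)

omit [CharZero E] [IsAlgClosed E] in
private theorem pure_seg (x : PPt E N) : Pure (seg x) := by
  intro w w' i
  unfold seg
  rw [← Finset.prod_mul_distrib, ← Finset.prod_mul_distrib]
  refine Finset.prod_congr rfl fun j _ => ?_
  by_cases hj : j = i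
  · subst hj
    rw [Function.update_self, Function.update_self, mul_comm]
  · rw [Function.update_of_ne hj, Function.update_of_ne hj]

omit [CharZero E] [IsAlgClosed E] [DecidableEq ι] in
private theorem repBy_mono (Z : Set (PPt E N)) (φ : PPt E N → PPt E N) {k k' : ℕ} (hk : k ≤ k')
    (h : RepBy Z φ k) : RepBy Z φ k' := by
  obtain ⟨P, hP, ⟨x₁, hx₁, w₁, hw₁⟩, hPa⟩ := h
  obtain ⟨w₀, hw₀⟩ := Function.ne_iff.1 (seg_ne0 x₁)
  have hhom : ∀ w, (X w₀ ^ (k' - k) * P w).IsHomogeneous k' := by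
    intro w
    have h1 := ((isHomogeneous_X E w₀).pow (k' - k)).mul (hP w)
    have h2 : 1 * (k' - k) + k = k' := by omega
    rwa [h2] at h1
  refine ⟨fun w => X w₀ ^ (k' - k) * P w, hhom, ⟨x₁, hx₁, w₁, ?_⟩, fun x hx => ?_⟩
  · rw [map_mul, map_pow, eval_X]
    exact mul_ne_zero (pow_ne_zero _ hw₀) hw₁
  · obtain ⟨c, hc1⟩ := hPa x hx
    refine ⟨seg x w₀ ^ (k' - k) * c, fun w => ?_⟩
    rw [map_mul, map_pow, eval_X, hc1 w]
    ring

omit [CharZero E] [IsAlgClosed E] [Fintype ι] [DecidableEq ι] in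
private theorem eval_hom_smul {W : Type*} (F : MvPolynomial W E) (k : ℕ) (hF : F.IsHomogeneous k)
    (c : E) (a : W → E) : eval (fun w => c * a w) F = c ^ k * eval a F := by
  rw [eval_eq, eval_eq, Finset.mul_sum]
  refine Finset.sum_congr rfl fun d hd => ?_
  have h1 := hF (mem_support_iff.1 hd)
  rw [Finsupp.weight_apply, Finsupp.sum] at h1
  have h2 : ∑ w ∈ d.support, d w = k := by
    rw [← h1]
    simp
  simp only [mul_pow, Finset.prod_mul_distrib]
  rw [Finset.prod_pow_eq_pow_sum, h2]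
  ring

omit [CharZero E] [IsAlgClosed E] [Fintype ι] [DecidableEq ι] in
private theorem eval_bind {W W' : Type*} (P : W → MvPolynomial W' E) (a : W' → E)
    (Ψ : MvPolynomial W E) : eval a (bind₁ P Ψ) = eval (fun w => eval a (P w)) Ψ := by
  have h : aeval a (bind₁ P Ψ) = aeval (fun w => aeval a (P w)) Ψ := aeval_bind₁ a P Ψ
  simp only [aeval_eq_eval] at h
  exact h

omit [CharZero E] [IsAlgClosed E] in
/-- Hilbert function of the images of a curve. -/
theorem hil_img (X : Set (PPt E N)) (f : PPt E N → PPt E N) (hf : Set.MapsTo f X X)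
    (hlf : LocallyByForms X f) (Z : Set (PPt E N)) (hZX : Z ⊆ X) (hZi : Irred Z) (n D : ℕ)
    (hrep : RepBy Z f^[n] D) (k : ℕ) :
    hil (fun y : (f^[n] '' Z : Set (PPt E N)) => seg (y : PPt E N)) k ≤
      hil (fun y : Z => seg (y : PPt E N)) (D * k) := by
  classical
  obtain ⟨P, hP, ⟨x₁, hx₁, w₁, hw₁⟩, hPZ⟩ := hrep
  -- charts
  obtain ⟨e, t, G, hG1, hG2, hG3⟩ := hlf
  obtain ⟨a, ha⟩ : ∃ a : X → SIx N → E, a = fun x : X => seg (x : PPt E N) := ⟨_, rfl⟩
  obtain ⟨F, hF⟩ : ∃ F : X → X, F = fun x : X => ⟨f x, hf x.2⟩ := ⟨_, rfl⟩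
  have hFit : ∀ (m : ℕ) (x : X), ((F^[m] x : X) : PPt E N) = f^[m] x := by
    intro m
    induction m with
    | zero => intro x; rfl
    | succ m ih =>
      intro x
      rw [Function.iterate_succ_apply', Function.iterate_succ_apply', hF]
      show f _ = f _
      rw [← hF, ih]
  have hG : LocF a (fun x => a (F x)) e G := by
    subst ha hF
    refine ⟨hG1, fun s x => hG2 s x x.2, fun x => hG3 x x.2⟩
  have ha0 : ∀ x, a x ≠ 0 := by
    intro x
    rw [ha]
    exact seg_ne0 _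
  obtain ⟨hC1, hC2, hC3⟩ := chart_locF a ha0 F e G hG n
  have hkey : ∀ Ψ : MvPolynomial (SIx N) E, Ψ.IsHomogeneous k →
      (∀ y ∈ Z, eval (seg y) (bind₁ P Ψ) = 0) → ∀ y ∈ Z, eval (seg (f^[n] y)) Ψ = 0 := by
    intro Ψ hΨ hv y hy
    have hPv : ∀ y ∈ Z, ∀ w, eval (seg y) (P w) ≠ 0 → eval (seg (f^[n] y)) Ψ = 0 := by
      intro y hy w hw
      obtain ⟨c, hc⟩ := hPZ y hy
      have hc0 : c ≠ 0 := by
        intro h0
        apply hw
        rw [hc w, h0, zero_mul]
      have h1 := hv y hy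
      have h2 : eval (seg y) (bind₁ P Ψ) = eval (fun w => eval (seg y) (P w)) Ψ :=
        eval_bind _ _ _
      rw [h2] at h1
      have h3 : (fun w => eval (seg y) (P w)) = fun w => c * seg (f^[n] y) w := funext hc
      rw [h3, eval_hom_smul Ψ k hΨ] at h1
      exact (mul_eq_zero.1 h1).resolve_left (pow_ne_zero _ hc0)
    obtain ⟨χ, w₂, hw₂⟩ := hC3 ⟨y, hZX hy⟩
    obtain ⟨Φ, hΦ⟩ : ∃ Φ, Φ = bind₁ (chart G n χ) Ψ := ⟨_, rfl⟩
    have hΦh : Φ.IsHomogeneous (e ^ n * k) := by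
      rw [hΦ]
      exact hΨ.aeval (chart G n χ) (hC1 χ)
    have hΦv : ∀ y (hy : y ∈ Z), ∃ c : E, (∀ w, eval (seg y) (chart G n χ w) =
        c * seg (f^[n] y) w) ∧ eval (seg y) Φ = c ^ k * eval (seg (f^[n] y)) Ψ := by
      intro y hy
      obtain ⟨c, hc⟩ := hC2 χ ⟨y, hZX hy⟩
      have hc' : ∀ w, eval (seg y) (chart G n χ w) = c * seg (f^[n] y) w := by
        intro w
        have := hc w
        rw [ha] at this
        simp only [hFit] at this
        exact this
      refine ⟨c, hc', ?_⟩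
      have h2 : eval (seg y) (bind₁ (chart G n χ) Ψ) =
          eval (fun w => eval (seg y) (chart G n χ w)) Ψ := eval_bind _ _ _
      rw [hΦ, h2, ← eval_hom_smul Ψ k hΨ]
      congr 2
      exact funext hc'
    have hprod : Van (fun x : Z => seg (x : PPt E N)) (Φ * P w₁) := by
      intro x
      rw [map_mul]
      by_cases h0 : eval (seg (x : PPt E N)) (P w₁) = 0
      · rw [h0, mul_zero]
      · obtain ⟨c, -, hc⟩ := hΦv x x.2
        rw [hc, hPv x x.2 w₁ h0, mul_zero, zero_mul]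
    rcases primeH_seg Z hZi _ _ _ _ hΦh (hP w₁) hprod with h1 | h1
    · obtain ⟨c, hc1, hc2⟩ := hΦv y hy
      have hc0 : c ≠ 0 := by
        intro h0
        apply hw₂
        rw [ha]
        change eval (seg y) (chart G n χ w₂) = 0
        rw [hc1 w₂, h0, zero_mul]
      have h2 : eval (seg y) Φ = 0 := h1 ⟨y, hy⟩
      rw [hc2] at h2
      exact (mul_eq_zero.1 h2).resolve_left (pow_ne_zero _ hc0)
    · exact absurd (h1 ⟨x₁, hx₁⟩) hw₁
  -- compare the dimensions
  unfold hil formsOn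
  have hle1 : Module.finrank E ((homogeneousSubmodule (SIx N) E k).map
      (LinearMap.pi fun y : (f^[n] '' Z : Set (PPt E N)) =>
        (aeval (seg (y : PPt E N)) : MvPolynomial (SIx N) E →ₐ[E] E).toLinearMap)) ≤
      Module.finrank E ((homogeneousSubmodule (SIx N) E k).map
        ((LinearMap.pi fun y : Z => (aeval (seg (y : PPt E N)) :
          MvPolynomial (SIx N) E →ₐ[E] E).toLinearMap) ∘ₗ (bind₁ P).toLinearMap)) := by
    apply fr_map_le _ (homogeneousSubmodule_fg (SIx N) E k)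
    intro Ψ hΨ h0
    funext y
    obtain ⟨y, x, hx, rfl⟩ := y
    change aeval (seg (f^[n] x)) Ψ = 0
    rw [aeval_eq_eval]
    refine hkey Ψ hΨ (fun y hy => ?_) x hx
    have h1 := congrFun h0 ⟨y, hy⟩
    change aeval (seg y) (bind₁ P Ψ) = 0 at h1
    rw [aeval_eq_eval] at h1
    exact h1
  refine hle1.trans ?_
  have hfin : Module.Finite E ((homogeneousSubmodule (SIx N) E (D * k)).map
      (LinearMap.pi fun y : Z =>
        (aeval (seg (y : PPt E N)) : MvPolynomial (SIx N) E →ₐ[E] E).toLinearMap)) :=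
    Module.Finite.iff_fg.2 ((homogeneousSubmodule_fg (SIx N) E (D * k)).map _)
  apply Submodule.finrank_mono
  rw [Submodule.map_comp]
  apply Submodule.map_mono
  rintro _ ⟨Ψ, hΨ, rfl⟩
  have hΨ' : Ψ.IsHomogeneous k := hΨ
  exact hΨ'.aeval P hP

private theorem setup (Z : Set (PPt E N)) (hZi : Irred Z) (e : ℕ) (he : 1 ≤ e)
    (hdeg : HasDegree Z 1 e) : ∃ z : Fin 2 → MvPolynomial (SIx N) E,
      HP (idl Z) ∧ NN (idl Z) z ∧ RankLE (idl Z) z e ∧
      (∀ x ∈ Z, seg x ∈ Zeros (idl Z)) ∧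
      (∀ (F : MvPolynomial (SIx N) E) (k : ℕ), F.IsHomogeneous k →
        (∀ x ∈ Z, eval (seg x) F = 0) → F ∈ idl Z) ∧
      (∀ (F : MvPolynomial (SIx N) E) (k : ℕ), F.IsHomogeneous k →
      (Van (fun x : Z => seg (x : PPt E N)) F ↔ F ∈ idl Z)) := by
  classical
  obtain ⟨Q, hQdef⟩ : ∃ Q, Q = idl Z := ⟨_, rfl⟩
  have hQ : HP Q := by rw [hQdef]; exact idl_HP Z hZi
  obtain ⟨d₂, z, hz⟩ := noeth Q hQ
  obtain ⟨e₀, he₀⟩ := rank_finite Q hQ.prime z hz
  obtain ⟨e₂, he₂1, he₂2, he₂3, mb, hmb1, hmb2⟩ := basis Q hQ.prime z hz e₀ he₀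
  have hmem : ∀ (F : MvPolynomial (SIx N) E) (k : ℕ), F.IsHomogeneous k →
      (∀ x ∈ Z, eval (seg x) F = 0) → F ∈ Q := by
    intro F k hF h
    rw [hQdef]
    intro j x hx
    rw [homogeneousComponent_of_mem ((mem_homogeneousSubmodule _ _).2 hF)]
    split_ifs
    · exact h x hx
    · exact map_zero _
  have hzero : ∀ x ∈ Z, seg x ∈ Zeros Q := by
    intro x hx F hF
    rw [← sum_homogeneousComponent F, map_sum]
    refine Finset.sum_eq_zero fun k _ => ?_
    rw [hQdef] at hF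
    exact hF k x hx
  have hvanZ : ∀ (F : MvPolynomial (SIx N) E) (k : ℕ), F.IsHomogeneous k →
      (Van (fun x : Z => seg (x : PPt E N)) F ↔ F ∈ Q) := by
    intro F k hF
    constructor
    · intro h
      exact hmem F k hF fun x hx => h ⟨x, hx⟩
    · intro h x
      exact hzero x.1 x.2 F h
  have hdeg₂ := hil_limit Q hQ z hz e₂ he₂3 mb hmb2 hmb1 (fun x : Z => seg (x : PPt E N)) hvanZ
  obtain ⟨hdd, hee⟩ := few_unique hdeg hdeg₂ (by
    have h1 : e ≠ 0 := by omega
    exact_mod_cast h1) (by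
    have h1 : e₂ ≠ 0 := by omega
    exact_mod_cast h1)
  have hee' : e = e₂ := by exact_mod_cast hee
  subst hdd
  subst hee'
  rw [← hQdef]
  exact ⟨z, hQ, hz, he₂3, hzero, hmem, hvanZ⟩

theorem hil_curve (Z : Set (PPt E N)) (hZ : ZClosed Z) (hZi : Irred Z) (e : ℕ) (he : 1 ≤ e)
    (hdeg : HasDegree Z 1 e) (k : ℕ) : hil (fun y : Z => seg (y : PPt E N)) k ≤ e * k + 1 := by
  classical
  obtain ⟨z, hQ, hz, hr, hzero, hmem, hvan⟩ := setup Z hZi e he hdeg
  obtain ⟨K, _, _, ht, η, hη⟩ := exists_curveData (idl Z) hQ z hz e hr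
  have hηne : η ≠ 0 := eta_ne (idl Z) hQ e ht η hη
  obtain ⟨V, hV⟩ : ∃ V, V = Submodule.span E (Set.range η) := ⟨_, rfl⟩
  have hVfg : V.FG := by rw [hV]; exact Submodule.fg_span (Set.finite_range _)
  obtain ⟨w₀, hw₀⟩ := Function.ne_iff.1 hηne
  have hηV : ∀ w, η w ∈ V := fun w => by
    rw [hV]
    exact Submodule.subset_span (Set.mem_range_self w)
  have hVne : V ≠ ⊥ := fun h0 => hw₀ ((Submodule.mem_bot E).1 (h0 ▸ hηV w₀))
  have hVkne : V ^ k ≠ ⊥ := fun h0 =>
    pow_ne_zero k hw₀ ((Submodule.mem_bot E).1 (h0 ▸ Submodule.pow_mem_pow V (hηV w₀) k))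
  have hmon : ∀ (d : SIx N →₀ ℕ) (s : Finset (SIx N)),
      ∏ w ∈ s, η w ^ d w ∈ V ^ ∑ w ∈ s, d w := by
    intro d s
    induction s using Finset.induction_on with
    | empty =>
      rw [Finset.prod_empty, Finset.sum_empty, pow_zero]
      exact Submodule.one_le.1 le_rfl
    | insert w s hw ih =>
      rw [Finset.prod_insert hw, Finset.sum_insert hw, pow_add]
      exact Submodule.mul_mem_mul (Submodule.pow_mem_pow _ (hηV w) _) ih
  have hVk : (homogeneousSubmodule (SIx N) E k).map (aeval η).toLinearMap ≤ V ^ k := by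
    rintro _ ⟨F, hF, rfl⟩
    have hF' : F.IsHomogeneous k := hF
    change aeval η F ∈ V ^ k
    rw [aeval_def, eval₂_eq]
    refine Submodule.sum_mem _ fun d hd => ?_
    rw [← Algebra.smul_def]
    refine Submodule.smul_mem _ _ ?_
    have h1 := hF' (mem_support_iff.1 hd)
    rw [Finsupp.weight_apply, Finsupp.sum] at h1
    have h2 : ∑ w ∈ d.support, d w = k := by
      rw [← h1]
      simp
    have h3 := hmon d d.support
    rw [h2] at h3
    exact h3
  have h1 : hil (fun y : Z => seg (y : PPt E N)) k ≤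
      Module.finrank E ((homogeneousSubmodule (SIx N) E k).map (aeval η).toLinearMap) := by
    unfold hil formsOn
    apply fr_map_le _ (homogeneousSubmodule_fg (SIx N) E k)
    intro F hF h0
    have hF' : F.IsHomogeneous k := hF
    have h2 : F ∈ idl Z := (hη.mem F k hF').1 h0
    funext y
    change aeval (seg (y : PPt E N)) F = 0
    rw [aeval_eq_eval]
    exact (hvan F k hF').2 h2 y
  have hVkfg : (V ^ k).FG := hVfg.pow k
  have hfin : Module.Finite E (V ^ k : Submodule E K) := Module.Finite.iff_fg.2 hVkfg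
  have h2 := Submodule.finrank_mono hVk
  have h3 := hη.ffh.dim (V ^ k) hVkfg hVkne
  rw [ht_pow ht hη.ffh V hVfg hVne k] at h3
  have h4 : ht V ≤ e := by
    have := hη.deg
    rw [hv, ← hV] at this
    exact this
  calc hil (fun y : Z => seg (y : PPt E N)) k ≤ k * ht V + 1 := h1.trans (h2.trans h3)
    _ ≤ k * e + 1 := by gcongr
    _ = e * k + 1 := by rw [mul_comm]

theorem deg_bdd (X : Set (PPt E N)) (e₀ : ℕ) (f g : PPt E N → PPt E N) (A B : Matrix ι ι ℤ)
    (h : Aut3 X e₀ f g A B)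
    (hs : ∀ n : ℕ, 1 ≤ n → ∀ v : ι → ℤ,
      ((A ^ n - 1) ^ 2).mulVec v = 0 → (A ^ n - 1).mulVec v = 0)
    (Z : Set (PPt E N)) (hZX : Z ⊆ X) (hZ : ZClosed Z) (hZi : Irred Z) (e : ℕ) (he : 1 ≤ e)
    (hdeg : HasDegree Z 1 e) (C : ℕ) (hC : ∀ m : ℕ, ∃ k : ℕ, k ≤ C * (1 + m) ^ C ∧
      RepBy Z f^[m] k) : ∃ E₁ : ℕ, Bcv X f g Z e E₁ := by
  classical
  obtain ⟨z, hQ, hz, hr, hzero, hmem, hvan⟩ := setup Z hZi e he hdeg
  have hcont : Cont (fun x : X => seg (x : PPt E N)) (idl Z) := by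
    intro F j hF hFv
    exact hmem F j hF fun y hy => hFv ⟨y, hZX hy⟩
  have hcl : Clo (fun x : X => seg (x : PPt E N)) := clo_seg X h.cl
  obtain ⟨K, _, _, ht, η, hη⟩ := exists_curveData (idl Z) hQ z hz e hr
  obtain ⟨w₀, hw₀⟩ := hQ.rel
  have h0 : η w₀ ≠ 0 := by
    intro h
    exact hw₀ ((hη.mem (MvPolynomial.X w₀) 1 (isHomogeneous_X E w₀)).1 (by
      rw [aeval_X]; exact h))
  obtain ⟨Hf, hf0, hfe, hfA, hfrep, hfR⟩ := hd_core X h.cl f h.mf h.lf A h.af.acts (idl Z) hQ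
    hcont z hz e hr ht η hη w₀ h0
  obtain ⟨Hg, hg0, hge, hgA, hgrep, hgR⟩ := hd_core X h.cl g h.mg h.lg B h.ag.acts (idl Z) hQ
    hcont z hz e hr ht η hη w₀ h0
  have hHfg : ∀ i, Hg 0 i = Hf 0 i := fun i => by rw [hg0, hf0]
  -- the points of `X` which are zeros of the ideal are in `Z`
  have hZ1 : ∀ y : ZQ (fun x : X => seg (x : PPt E N)) (idl Z), ((y.1 : X) : PPt E N) ∈ Z := by
    intro y
    obtain ⟨S, hS1, hS2⟩ := hZ
    have hy : seg ((y.1 : X) : PPt E N) ∈ Zeros (idl Z) := y.2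
    have hiff : ∀ p : PPt E N, p ∈ Z ↔ ∀ G ∈ S,
        eval (fun s : Σ i, Fin (N i + 1) => (p s.1).rep s.2) G = 0 := by
      intro p
      conv_lhs => rw [hS2]
      rfl
    refine (hiff _).2 ?_
    intro G hG
    by_contra hGx
    obtain ⟨b, hb⟩ := hS1 G hG
    obtain ⟨j, F, hF1, hF2, hF3⟩ := seglift G b hb _ hGx
    apply hF2
    apply hy
    exact hmem F j hF1 fun y hy => hF3 y ((hiff y).1 hy G hG)
  have hvq : ∀ (F : MvPolynomial (SIx N) E) (k : ℕ), F.IsHomogeneous k →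
      (Van (fun y : ZQ (fun x : X => seg (x : PPt E N)) (idl Z) => seg (y.1 : PPt E N)) F ↔
        Van (fun x : Z => seg (x : PPt E N)) F) := by
    intro F k hF
    constructor
    · intro h1 x
      exact h1 ⟨⟨x, hZX x.2⟩, hzero x x.2⟩
    · intro h1 y
      exact h1 ⟨_, hZ1 y⟩
  have hconv : ∀ (φ : PPt E N → PPt E N) (d : ℕ),
      RepF (fun y : ZQ (fun x : X => seg (x : PPt E N)) (idl Z) => seg (y.1 : PPt E N))
        (fun y => seg (φ (y.1 : PPt E N))) d ↔ RepBy Z φ d := by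
    intro φ d
    constructor
    · rintro ⟨P, hP, ⟨w₁, hw₁⟩, hPa⟩
      refine ⟨P, hP, ?_, fun x hx => hPa ⟨⟨x, hZX hx⟩, hzero x hx⟩⟩
      by_contra hcon
      push Not at hcon
      exact hw₁ fun y => hcon _ (hZ1 y) w₁
    · rintro ⟨P, hP, ⟨x₁, hx₁, w₁, hw₁⟩, hPa⟩
      exact ⟨P, hP, ⟨w₁, fun hv => hw₁ (hv ⟨⟨x₁, hZX hx₁⟩, hzero x₁ hx₁⟩)⟩,
        fun y => hPa _ (hZ1 y)⟩
  -- the powers of the matrices
  have hpow : ∀ (M : Matrix ι ι ℤ) (H : ℕ → ι → ℕ),
      (∀ m i, (H (m + 1) i : ℤ) = ∑ j, M i j * (H m j : ℤ)) →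
      ∀ (m : ℕ) (i : ι), (M ^ m).mulVec (fun i => (H 0 i : ℤ)) i = (H m i : ℤ) := by
    intro M H hM m
    induction m with
    | zero => intro i; rw [pow_zero, Matrix.one_mulVec]
    | succ m ih =>
      intro i
      rw [pow_succ', ← Matrix.mulVec_mulVec, hM]
      simp only [Matrix.mulVec, dotProduct]
      refine Finset.sum_congr rfl fun j _ => ?_
      rw [← ih j]
      rfl
  obtain ⟨v, hv⟩ : ∃ v : ι → ℤ, v = fun i => (Hf 0 i : ℤ) := ⟨_, rfl⟩
  have hvf : ∀ m i, (A ^ m).mulVec v i = (Hf m i : ℤ) := by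
    rw [hv]
    exact hpow A Hf hfA
  have hvg : ∀ m i, (B ^ m).mulVec v i = (Hg m i : ℤ) := by
    have h1 : v = fun i => (Hg 0 i : ℤ) := by
      rw [hv]
      funext i
      rw [hHfg]
    rw [h1]
    exact hpow B Hg hgA
  have hper : ∃ s : ℕ, 1 ≤ s ∧ (A ^ s).mulVec v = v := by
    refine kron A B h.ab hs v (e * C) fun m i => ?_
    obtain ⟨k, hk, hrep⟩ := hC m
    have h1 : ∑ i, Hf m i ≤ k * e := hfrep m k ((hconv _ _).2 hrep)
    have h2 : Hf m i ≤ ∑ i, Hf m i :=
      Finset.single_le_sum (f := fun i => Hf m i) (fun _ _ => Nat.zero_le _) (Finset.mem_univ i)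
    have h3 : Hf m i ≤ e * C * (1 + m) ^ (e * C) := by
      calc Hf m i ≤ k * e := h2.trans h1
        _ ≤ C * (1 + m) ^ C * e := Nat.mul_le_mul_right _ hk
        _ = e * C * (1 + m) ^ C := by ring
        _ ≤ e * C * (1 + m) ^ (e * C) := by
          apply Nat.mul_le_mul_left
          exact Nat.pow_le_pow_right (by omega) (Nat.le_mul_of_pos_left C (by omega))
    have h4 : (((A ^ m).mulVec v i : ℤ) : ℝ) = (Hf m i : ℝ) := by
      rw [hvf]
      simp
    rw [h4, abs_of_nonneg (Nat.cast_nonneg _)]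
    exact_mod_cast h3
  obtain ⟨s, hs1, hsv⟩ := hper
  have hBA : B * A = 1 := by
    rw [mul_eq_one_comm]
    exact h.ab
  have hBs : (B ^ s).mulVec v = v := by
    have hcomm : Commute B A := by
      rw [Commute, SemiconjBy, hBA, h.ab]
    have h1 : B ^ s * A ^ s = 1 := by
      rw [← hcomm.mul_pow, hBA, one_pow]
    calc (B ^ s).mulVec v = (B ^ s).mulVec ((A ^ s).mulVec v) := by rw [hsv]
      _ = v := by rw [Matrix.mulVec_mulVec, h1, Matrix.one_mulVec]
  -- boundedness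
  have hbd : ∀ (M : Matrix ι ι ℤ) (H : ℕ → ι → ℕ), (∀ m i, (M ^ m).mulVec v i = (H m i : ℤ)) →
      (M ^ s).mulVec v = v → ∀ m, ∑ i, H m i ≤ ∑ r ∈ Finset.range s, ∑ i, H r i := by
    intro M H hM hMs m
    have h1 : ∀ q : ℕ, ((M ^ s) ^ q).mulVec v = v := by
      intro q
      induction q with
      | zero => rw [pow_zero, Matrix.one_mulVec]
      | succ q ih => rw [pow_succ, ← Matrix.mulVec_mulVec, hMs, ih]
    have h2 : ∀ i, H m i = H (m % s) i := by
      intro i
      have h3 : (M ^ m).mulVec v = (M ^ (m % s)).mulVec v := by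
        conv_lhs => rw [← Nat.mod_add_div m s]
        rw [pow_add, pow_mul, ← Matrix.mulVec_mulVec, h1]
      have h4 := congrFun h3 i
      rw [hM, hM] at h4
      exact_mod_cast h4
    rw [Finset.sum_congr rfl fun i _ => h2 i]
    exact Finset.single_le_sum (f := fun r => ∑ i, H r i) (fun _ _ => Nat.zero_le _)
      (Finset.mem_range.2 (Nat.mod_lt m (by omega)))
  obtain ⟨M, hM⟩ : ∃ M : ℕ, M = (∑ r ∈ Finset.range s, ∑ i, Hf r i) +
      ∑ r ∈ Finset.range s, ∑ i, Hg r i := ⟨_, rfl⟩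
  obtain ⟨D, hD⟩ : ∃ D : ℕ, D = Fintype.card (SIx N) * (e * M + 1 + e * e) := ⟨_, rfl⟩
  have hrf : ∀ n, RepBy Z f^[n] D := by
    intro n
    refine repBy_mono Z _ ?_ ((hconv _ _).1 (hfR n))
    rw [hD]
    apply Nat.mul_le_mul_left
    have h1 := hbd A Hf hvf hsv n
    have h2 : ∑ i, Hf n i ≤ M := by omega
    have h3 := Nat.mul_le_mul_left e h2
    omega
  have hrg : ∀ n, RepBy Z g^[n] D := by
    intro n
    refine repBy_mono Z _ ?_ ((hconv _ _).1 (hgR n))
    rw [hD]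
    apply Nat.mul_le_mul_left
    have h1 := hbd B Hg hvg hBs n
    have h2 : ∑ i, Hg n i ≤ M := by omega
    have h3 := Nat.mul_le_mul_left e h2
    omega
  have hDe : D ≤ e * D := Nat.le_mul_of_pos_left D (by omega)
  refine ⟨e * D, hZX, hZ, hZi, he, hdeg, fun n => repBy_mono Z _ hDe (hrf n),
    fun n => repBy_mono Z _ hDe (hrg n), fun n k => ?_⟩
  refine (hil_img X f h.mf h.lf Z hZX hZi n D (hrf n) k).trans ?_
  refine (hil_curve Z hZ hZi e he hdeg (D * k)).trans (le_of_eq ?_)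
  rw [mul_assoc]

end Pool.Agent.KST
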