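import Pool.Agent.KST.Sdefs

/-!
# KST DNS: dense orbits

`zc_forms`: replace `X w` by `∏ i, X ⟨i, w i⟩`; a form of degree `k` becomes multihomogeneous of
multidegree `fun _ => k` and its value at the representatives is the value at `seg y`.
`inf_of_deg`: if `Y` is finite then `hil k ≤ Y.ncard` for all `k` (`formsOn ≤ ⊤`, dimension of
`Y → E`), so the limit is `0 ≠ e` as `d ≥ 1`.
`inj_of_dense`: if `f^[a] x = f^[b] x`, `a < b`, then the orbit is contained in the finite set
`{f^[n] x | n < b}`, which is closed (`zclosed_finite`), so `X` is finite.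
`dn_of_dense`: `DenseOrbit` is `Dn` for `univ`. `dn_shift`: `tail_dense` (KSC/Zar) for the closed set
`V` and `M = j`.
`dn_union`: otherwise choose for every `c` a closed `V c` containing the points `f^[n] x`,
`n ∈ S ∩ P c`, with `¬ X ⊆ V c`. The finite union of the `V c` is closed (`zclosed_union`, induction) and
contains the points of `S`, so it contains `X`; `X` is irreducible (induction as `Irred.iUnion`).
`dn_avoid`: for a closed `V'` with `f^[n] x ∈ V'` for `n ∈ S`, `f^[n] x ∉ V`: `V ∪ V'` contains the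
points of `S`.
-/

open MvPolynomial Filter Topology
open scoped LinearAlgebra.Projectivization

namespace Pool.Agent.KST

open Pool.Agent.Helper90.KSC Pool.Agent.Helper63.SAND Pool.Agent.Helper63.WH Pool.Agent.PW
  Pool.Agent.LLC

variable {E ι : Type*} [Field E] [Fintype ι] [DecidableEq ι] {N : ι → ℕ}

theorem zc_forms {κ : Type*} (F : κ → MvPolynomial (SIx N) E) (k : κ → ℕ)
    (hF : ∀ i, (F i).IsHomogeneous (k i)) :
    ZClosed {y : PPt E N | ∀ i, eval (seg y) (F i) = 0} := by
  classical
  obtain ⟨g, hg⟩ : ∃ g : SIx N → MvPolynomial (Σ i, Fin (N i + 1)) E,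
      ∀ w, g w = ∏ i, X ⟨i, w i⟩ := ⟨_, fun _ => rfl⟩
  have hgh : ∀ w, IsWeightedHomogeneous
      (fun s : (Σ i, Fin (N i + 1)) => (Pi.single s.1 1 : ι → ℕ)) (g w) (fun _ => 1) := by
    intro w
    rw [hg]
    have h1 := IsWeightedHomogeneous.prod Finset.univ
      (fun i => (X ⟨i, w i⟩ : MvPolynomial (Σ i, Fin (N i + 1)) E))
      (fun i => (Pi.single i 1 : ι → ℕ))
      (w := fun s : (Σ i, Fin (N i + 1)) => (Pi.single s.1 1 : ι → ℕ))
      (fun i _ => isWeightedHomogeneous_X E _ (⟨i, w i⟩ : Σ i, Fin (N i + 1)))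
    have h2 : ∑ i : ι, (Pi.single i 1 : ι → ℕ) = fun _ => 1 := by
      funext j
      rw [Finset.sum_apply]
      simp [Pi.single_apply]
    rw [h2] at h1
    exact h1
  have hev : ∀ (y : PPt E N) (P : MvPolynomial (SIx N) E),
      eval (fun s => (y s.1).rep s.2) (bind₁ g P) = eval (seg y) P := by
    intro y P
    rw [← coe_aeval_eq_eval, ← coe_aeval_eq_eval]
    change aeval _ (bind₁ g P) = aeval _ P
    rw [aeval_bind₁]
    congr 2
    funext w
    rw [hg, map_prod]
    unfold seg
    refine Finset.prod_congr rfl fun i _ => ?_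
    rw [aeval_X]
  refine ⟨Set.range fun i => bind₁ g (F i), ?_, ?_⟩
  · rintro _ ⟨i, rfl⟩
    refine ⟨fun _ => k i, ?_⟩
    have h1 : bind₁ g (F i) = ∑ s ∈ (F i).support,
        C (coeff s (F i)) * ∏ w, g w ^ s w := by
      rw [bind₁, aeval_def, eval₂_eq']
      rfl
    change IsWeightedHomogeneous _ (bind₁ g (F i)) _
    rw [h1]
    refine IsWeightedHomogeneous.sum _ _ _ fun s hs => ?_
    have h2 := IsWeightedHomogeneous.prod Finset.univ (fun w => g w ^ s w)
      (fun w => s w • (fun _ => 1 : ι → ℕ))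
      (w := fun s : (Σ i, Fin (N i + 1)) => (Pi.single s.1 1 : ι → ℕ))
      (fun w _ => (hgh w).pow (s w))
    have h3 : ∑ w, s w = k i := by
      have h4 := hF i (mem_support_iff.1 hs)
      rw [Finsupp.weight_apply, Finsupp.sum_fintype _ _ (by simp)] at h4
      simpa using h4
    have h5 : ∑ w, s w • (fun _ => 1 : ι → ℕ) = fun _ => k i := by
      funext j
      rw [Finset.sum_apply]
      simp only [Pi.smul_apply, smul_eq_mul, mul_one]
      exact h3
    rw [h5] at h2
    exact h2.C_mul _
  · ext y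
    constructor
    · rintro h _ ⟨i, rfl⟩
      exact (hev y (F i)).trans (h i)
    · intro h i
      have h1 := h (bind₁ g (F i)) ⟨i, rfl⟩
      exact (hev y (F i)).symm.trans h1

theorem inf_of_deg (Y : Set (PPt E N)) (d e : ℕ) (hd : 1 ≤ d) (he : 1 ≤ e)
    (hdeg : HasDegree Y d e) : Y.Infinite := by
  intro hfin
  have : Finite Y := hfin
  have : Fintype Y := Fintype.ofFinite Y
  have hle : ∀ k, hil (fun x : Y => seg (x : PPt E N)) k ≤ Fintype.card Y := by
    intro k
    unfold hil
    refine (Submodule.finrank_le _).trans (le_of_eq ?_)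
    rw [Module.finrank_fintype_fun_eq_card]
  unfold HasDegree at hdeg
  have h0 : Tendsto (fun k : ℕ => (hil (fun x : Y => seg (x : PPt E N)) k : ℝ) *
      (d.factorial : ℝ) / (k : ℝ) ^ d) atTop (𝓝 0) := by
    refine squeeze_zero (g := fun k : ℕ => (Fintype.card Y : ℝ) * (d.factorial : ℝ) / (k : ℝ) ^ d)
      (fun k => by positivity) (fun k => ?_) ?_
    · refine div_le_div_of_nonneg_right ?_ (by positivity)
      exact mul_le_mul_of_nonneg_right (by exact_mod_cast hle k) (Nat.cast_nonneg _)
    · exact tendsto_const_nhds.div_atTop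
        ((tendsto_pow_atTop (by omega)).comp tendsto_natCast_atTop_atTop)
  have h1 := tendsto_nhds_unique hdeg h0
  have h2 : e = 0 := by exact_mod_cast h1
  omega

theorem inj_of_dense (X : Set (PPt E N)) (hinf : X.Infinite)
    (f : PPt E N → PPt E N) (x : PPt E N) (hd : DenseOrbit X f x) :
    Function.Injective fun n : ℕ => f^[n] x := by
  classical
  have key : ∀ a b : ℕ, a < b → f^[a] x = f^[b] x → False := by
    intro a b hab h
    have hmem : ∀ n, f^[n] x ∈ (fun n : ℕ => f^[n] x) '' (Set.Iio b) := by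
      intro n
      induction n using Nat.strong_induction_on with
      | _ n ih =>
        by_cases hn : n < b
        · exact ⟨n, hn, rfl⟩
        · have h1 : f^[n] x = f^[n - b + a] x := by
            have h2 : n = (n - b) + b := by omega
            conv_lhs => rw [h2]
            rw [Function.iterate_add_apply, Function.iterate_add_apply, h]
          rw [h1]
          exact ih _ (by omega)
    have hfin : ((fun n : ℕ => f^[n] x) '' (Set.Iio b)).Finite := (Set.finite_Iio b).image _
    exact hinf (hfin.subset (hd _ (zclosed_finite hfin) hmem))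
  intro a b hab
  rcases lt_trichotomy a b with h | h | h
  · exact (key a b h hab).elim
  · exact h
  · exact (key b a h hab.symm).elim

theorem dn_shift (X : Set (PPt E N)) (hX : Irred X) (hinf : X.Infinite)
    (f : PPt E N → PPt E N) (hf : Set.MapsTo f X X) (x : PPt E N) (hx : x ∈ X)
    (hd : DenseOrbit X f x) (j : ℕ) : Dn X f (f^[j] x) Set.univ := by
  intro V hV h
  refine tail_dense (fun n => hf.iterate n hx) (inj_of_dense X hinf f x hd) hX hd hV (M := j)
    fun n hn => ?_
  have h1 : n = (n - j) + j := by omega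
  rw [h1, Function.iterate_add_apply]
  exact h _ (Set.mem_univ _)

theorem dn_union (X : Set (PPt E N)) (hX : Irred X) (f : PPt E N → PPt E N) (x : PPt E N)
    (S : Set ℕ) (hS : Dn X f x S) {κ : Type*} [Finite κ] (P : κ → Set ℕ)
    (h : ∀ n ∈ S, ∃ c, n ∈ P c) : ∃ c, Dn X f x (S ∩ P c) := by
  classical
  by_contra hcon
  push Not at hcon
  have h1 : ∀ c, ∃ V, ZClosed V ∧ (∀ n ∈ S ∩ P c, f^[n] x ∈ V) ∧ ¬ X ⊆ V := by
    intro c
    have h2 := hcon c
    unfold Dn at h2
    push Not at h2
    exact h2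
  choose V hV1 hV2 hV3 using h1
  have h3 : ∀ T : Finset κ, ∃ W, ZClosed W ∧ (∀ c ∈ T, V c ⊆ W) ∧ ¬ X ⊆ W := by
    intro T
    induction T using Finset.induction_on with
    | empty =>
      refine ⟨∅, zclosed_empty, fun c hc => absurd hc (Finset.notMem_empty c), fun h => ?_⟩
      obtain ⟨y, hy⟩ := hX.1
      exact h hy
    | insert c T _ ih =>
      obtain ⟨W, hW1, hW2, hW3⟩ := ih
      refine ⟨W ∪ V c, zclosed_union hW1 (hV1 c), fun c' hc' => ?_, fun h => ?_⟩
      · rcases Finset.mem_insert.1 hc' with rfl | h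
        · exact Set.subset_union_right
        · exact (hW2 c' h).trans Set.subset_union_left
      · rcases hX.2 _ _ hW1 (hV1 c) h with h4 | h4
        · exact hW3 h4
        · exact hV3 c h4
  have : Fintype κ := Fintype.ofFinite κ
  obtain ⟨W, hW1, hW2, hW3⟩ := h3 Finset.univ
  apply hW3
  refine hS W hW1 fun n hn => ?_
  obtain ⟨c, hc⟩ := h n hn
  exact hW2 c (Finset.mem_univ c) (hV2 c n ⟨hn, hc⟩)

theorem dn_avoid (X : Set (PPt E N)) (hX : Irred X) (f : PPt E N → PPt E N) (x : PPt E N)
    (S : Set ℕ) (hS : Dn X f x S) (V : Set (PPt E N)) (hV : ZClosed V) (hXV : ¬ X ⊆ V) :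
    Dn X f x {n ∈ S | f^[n] x ∉ V} := by
  intro V' hV' h
  have h1 : X ⊆ V ∪ V' := by
    refine hS _ (zclosed_union hV hV') fun n hn => ?_
    by_cases hnV : f^[n] x ∈ V
    · exact Or.inl hnV
    · exact Or.inr (h n ⟨hn, hnV⟩)
  rcases hX.2 _ _ hV hV' h1 with h2 | h2
  · exact absurd h2 hXV
  · exact h2

end Pool.Agent.KST
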