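import Pool.Agent.PBK.North
import Pool.Agent.PBK.Multi
import Pool.Agent.KSF.Gal
import Pool.Agent.KSF.Hgt

/-!
# KST NORTH: Northcott's theorem for points of bounded degree

PROOF.  (a) NUMBERS: the set `S` of the `α : E` which lie in an intermediate field of degree `≤ D` over `ℚ` and with
`absHeight ![1, α] ≤ B` is finite. Let `m = minpoly ℚ α`, of degree `n ≤ D`, with the roots `α₁, …, α_n` in `E`
(`IsAlgClosed E`). Each `α_j = σ α` for an automorphism `σ` of `E` over `ℚ` (`minpoly` conjugates in an algebraically closed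
algebraic extension: `IsConjRoot`/`isConjRoot_iff_exists_algEquiv`, `E / ℚ` is normal), so
`absHeight ![1, α_j] = absHeight ![1, α]` (`KSF.absHeight_ringEquiv`). By `KSF.absHeight_prodlin` with `V = Fin 2`,
`y j = ![-α_j, 1]` the coefficients of `∏_j (C (-α_j) X 0 + X 1)` (homogenised `m`) have `absHeight ≤ n B + B'`, and they are
rational numbers (up to the signs they are the coefficients of `m`). By `PBK.north` with `K = ⊥` these vectors lie in finitely
many classes of proportional vectors; since one coefficient (of `X 1 ^ n`) is `1` there are finitely many vectors, so finitely many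
`m`, so finitely many `α`. (`absHeight ![-α, 1] = absHeight ![1, α]`: same up to a permutation and a sign: `absHeight_comp_le`,
`absHeight_lin`, or directly use the set with `![-α, 1]`.)
(b) POINTS: for `y` with `DegLE D y`, `absTotal y ≤ B`: for every `i`, `absHeight (y i).rep ≤ B` (`absHeight_nonneg`); choose `j₀`
with `(y i).rep j₀ ≠ 0`; the ratios `α_j = (y i).rep j / (y i).rep j₀` lie in the field `L` of `DegLE`, and
`absHeight ![1, α_j] = absHeight ![(y i).rep j₀, (y i).rep j] ≤ absHeight (y i).rep ≤ B` (`absHeight_smul`,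
`absHeight_comp_le`). So `y i` is one of the finitely many points `mk (α_j)_j`, `α_j ∈ S`, `α_{j₀} = 1`. `Set.Finite.pi'`.
-/

set_option autoImplicit false

open MvPolynomial
open scoped LinearAlgebra.Projectivization

namespace Pool.Agent.KST

open Pool.Agent.Helper90.KSC Pool.Agent.Helper63.SAND Pool.Agent.Helper63.WH

variable {E : Type*} [Field E] [CharZero E] [Algebra.IsAlgebraic ℚ E] [IsAlgClosed E]
  {ι : Type*} [Fintype ι]

private theorem nth_alg : IsAlgClosure ℚ E := ⟨inferInstance, inferInstance⟩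

/-- the product of the linear forms -/
private noncomputable def nF {n : ℕ} (a : Fin n → E) : MvPolynomial (Fin 2) E :=
  ∏ i, ∑ w, C ((![a i, 1] : Fin 2 → E) w) * X w

omit [CharZero E] [Algebra.IsAlgebraic ℚ E] [IsAlgClosed E] in
private theorem nF_eq {n : ℕ} (a : Fin n → E) : nF a = ∏ i, (C (a i) * X 0 + X 1) := by
  unfold nF
  refine Finset.prod_congr rfl fun i _ => ?_
  rw [Fin.sum_univ_two]
  simp

omit [CharZero E] [Algebra.IsAlgebraic ℚ E] [IsAlgClosed E] in
private theorem nF_hom {n : ℕ} (a : Fin n → E) : (nF a).IsHomogeneous n := by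
  have h1 : ∀ i ∈ (Finset.univ : Finset (Fin n)),
      (∑ w, C ((![a i, 1] : Fin 2 → E) w) * X w : MvPolynomial (Fin 2) E).IsHomogeneous
        ((fun _ => 1) i) := fun i _ =>
    IsHomogeneous.sum _ _ _ fun w _ => by
      have := (isHomogeneous_C (Fin 2) ((![a i, 1] : Fin 2 → E) w)).mul (isHomogeneous_X E w)
      simpa using this
  have h2 := IsHomogeneous.prod _ _ _ h1
  rw [Finset.sum_const, Finset.card_univ, Fintype.card_fin, smul_eq_mul, mul_one] at h2
  exact h2

/-- the form with given coefficients -/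
private noncomputable def PZ {n : ℕ} (z : KSF.CIx (Fin 2) n → E) : MvPolynomial (Fin 2) E :=
  ∑ k, monomial k.1 (z k)

omit [CharZero E] [Algebra.IsAlgebraic ℚ E] [IsAlgClosed E] in
private theorem PZ_coeff {n : ℕ} {P : MvPolynomial (Fin 2) E} (hP : P.IsHomogeneous n) :
    PZ (fun k : KSF.CIx (Fin 2) n => P.coeff k.1) = P := by
  classical
  refine MvPolynomial.ext _ _ fun d => ?_
  unfold PZ
  rw [coeff_sum]
  simp only [coeff_monomial]
  by_cases hd : d ∈ Finset.finsuppAntidiag (Finset.univ : Finset (Fin 2)) n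
  · rw [Finset.sum_eq_single (⟨d, hd⟩ : KSF.CIx (Fin 2) n)]
    · rw [if_pos rfl]
    · intro k _ hk
      rw [if_neg fun h => hk (Subtype.ext h)]
    · intro h
      exact absurd (Finset.mem_univ _) h
  · rw [Finset.sum_eq_zero]
    · by_contra h
      apply hd
      rw [Finset.mem_finsuppAntidiag]
      refine ⟨?_, Finset.subset_univ _⟩
      have h2 := hP (Ne.symm h)
      rw [Finsupp.weight_apply, Finsupp.sum] at h2
      simp only [Pi.one_apply, smul_eq_mul, mul_one] at h2
      rw [← h2]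
      symm
      refine Finset.sum_subset (Finset.subset_univ _) fun i _ hi => ?_
      exact Finsupp.notMem_support_iff.1 hi
    · intro k _
      rw [if_neg]
      rintro rfl
      exact hd k.2

omit [CharZero E] [Algebra.IsAlgebraic ℚ E] [IsAlgClosed E] in
private theorem PZ_smul {n : ℕ} (c : E) (z : KSF.CIx (Fin 2) n → E) (x : Fin 2 → E) :
    eval x (PZ (c • z)) = c * eval x (PZ z) := by
  unfold PZ
  rw [map_sum, map_sum, Finset.mul_sum]
  refine Finset.sum_congr rfl fun k _ => ?_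
  rw [Pi.smul_apply, smul_eq_mul, eval_monomial, eval_monomial, mul_assoc]

omit [CharZero E] [Algebra.IsAlgebraic ℚ E] [IsAlgClosed E] in
private theorem nF_eval {n : ℕ} (a : Fin n → E) (b : E) :
    eval (![1, -b] : Fin 2 → E) (nF a) = ∏ i, (a i - b) := by
  rw [nF_eq, map_prod]
  refine Finset.prod_congr rfl fun i _ => ?_
  simp [sub_eq_add_neg]

omit [CharZero E] [Algebra.IsAlgebraic ℚ E] [IsAlgClosed E] in
private theorem nF_eval1 {n : ℕ} (a : Fin n → E) :
    eval (![0, 1] : Fin 2 → E) (nF a) = 1 := by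
  rw [nF_eq, map_prod]
  refine Finset.prod_eq_one fun i _ => ?_
  simp

omit [CharZero E] [Algebra.IsAlgebraic ℚ E] [IsAlgClosed E] in
private theorem nF_fixed {n : ℕ} (a : Fin n → E) (σ : E →+* E)
    (h : (Finset.univ.val.map a).map σ = Finset.univ.val.map a) :
    MvPolynomial.map σ (nF a) = nF a := by
  have h1 : ∀ b : Fin n → E, nF b = ((Finset.univ.val.map b).map fun x : E =>
      (C x * X 0 + X 1 : MvPolynomial (Fin 2) E)).prod := by
    intro b
    rw [nF_eq, Multiset.map_map]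
    rfl
  have h2 : MvPolynomial.map σ (nF a) = nF (fun i => σ (a i)) := by
    rw [nF_eq, nF_eq, map_prod]
    refine Finset.prod_congr rfl fun i _ => ?_
    simp
  rw [h2, h1, h1]
  congr 2
  rw [← h, Multiset.map_map]
  rfl

private theorem nth_conj {α b : E} (hb : b ∈ (minpoly ℚ α).aroots E) :
    Pool.Agent.Helper63.WH.absHeight (![b, 1] : Fin 2 → E) =
      Pool.Agent.Helper63.WH.absHeight (![α, 1] : Fin 2 → E) := by
  have : IsAlgClosure ℚ E := nth_alg
  have hint : IsIntegral ℚ α := Algebra.IsIntegral.isIntegral α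
  have h1 : Polynomial.aeval b (minpoly ℚ α) = 0 := (Polynomial.mem_aroots.1 hb).2
  have h2 : IsConjRoot ℚ b α := by
    have h3 := minpoly.eq_of_irreducible_of_monic (minpoly.irreducible hint) h1
      (minpoly.monic hint)
    exact h3.symm
  obtain ⟨σ, hσ⟩ := isConjRoot_iff_exists_algEquiv.1 h2
  have h4 := KSF.absHeight_ringEquiv (σ : E ≃+* E) (![α, 1] : Fin 2 → E)
  rw [← h4]
  congr 1
  funext i
  fin_cases i
  · exact hσ.symm
  · exact (map_one σ).symm

private theorem nth_num (n : ℕ) (B : ℝ) : {α : E | (minpoly ℚ α).natDegree = n ∧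
    Pool.Agent.Helper63.WH.absHeight (![α, 1] : Fin 2 → E) ≤ B}.Finite := by
  classical
  have : IsAlgClosure ℚ E := nth_alg
  obtain ⟨B', hB'⟩ := KSF.absHeight_prodlin (E := E) (V := Fin 2) n
  obtain ⟨T, hT, -, hT2⟩ := PBK.north (E := E) (⊥ : IntermediateField ℚ E)
    (κ := KSF.CIx (Fin 2) n) (n * B + B')
  have hA : ∀ α : E, (minpoly ℚ α).natDegree = n →
      ∃ a : Fin n → E, Finset.univ.val.map a = (minpoly ℚ α).aroots E := by
    intro α hα
    have h1 : ((minpoly ℚ α).aroots E).card = n := by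
      have h2 := (IsAlgClosed.splits ((minpoly ℚ α).map (algebraMap ℚ E))).natDegree_eq_card_roots
      rw [Polynomial.natDegree_map, hα] at h2
      exact h2.symm
    obtain ⟨l, hl⟩ := Quot.exists_rep ((minpoly ℚ α).aroots E)
    have hl' : (l : Multiset E) = (minpoly ℚ α).aroots E := hl
    rw [← hl', Multiset.coe_card] at h1
    subst h1
    exact ⟨l.get, by rw [Fin.univ_val_map, List.ofFn_get, hl']⟩
  choose! A hA' using hA
  set Z : E → (KSF.CIx (Fin 2) n → E) := fun α k => (nF (A α)).coeff k.1 with hZ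
  have hPZ : ∀ α, PZ (Z α) = nF (A α) := fun α => PZ_coeff (nF_hom _)
  refine Set.Finite.of_finite_fibers Z ?_ ?_
  · refine (hT.image fun v => (eval (![0, 1] : Fin 2 → E) (PZ v))⁻¹ • v).subset ?_
    rintro _ ⟨α, ⟨hα, hαB⟩, rfl⟩
    have h1 : eval (![0, 1] : Fin 2 → E) (PZ (Z α)) = 1 := by rw [hPZ, nF_eval1]
    have hz0 : Z α ≠ 0 := by
      intro h0
      have h2 := PZ_smul (0 : E) (Z α) ![0, 1]
      rw [zero_smul, ← h0, h1, zero_mul] at h2
      exact one_ne_zero h2
    have hfix : ∀ k, (1 : E) * Z α k ∈ (⊥ : IntermediateField ℚ E) := by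
      intro k
      rw [one_mul, InfiniteGalois.mem_bot_iff_fixed]
      intro σ
      have h3 : MvPolynomial.map ((σ : E ≃+* E) : E →+* E) (nF (A α)) = nF (A α) := by
        apply nF_fixed
        rw [hA' α hα]
        have h4 := (IsAlgClosed.splits ((minpoly ℚ α).map (algebraMap ℚ E))).roots_map
          ((σ : E ≃+* E) : E →+* E)
        rw [Polynomial.map_map] at h4
        have h5 : (((σ : E ≃+* E) : E →+* E)).comp (algebraMap ℚ E) = algebraMap ℚ E :=
          Subsingleton.elim _ _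
        rw [h5] at h4
        exact h4.symm
      have h6 := congrArg (fun P => coeff k.1 P) h3
      simp only [coeff_map] at h6
      exact h6
    have hht : Pool.Agent.Helper63.WH.absHeight (Z α) ≤ n * B + B' := by
      refine (hB' (fun i => ![A α i, 1]) (fun i h => one_ne_zero (congrFun h 1))).trans ?_
      have h7 : ∀ i, Pool.Agent.Helper63.WH.absHeight (![A α i, 1] : Fin 2 → E) ≤ B := by
        intro i
        rw [nth_conj (α := α)]
        · exact hαB
        · rw [← hA' α hα]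
          exact Multiset.mem_map.2 ⟨i, Finset.mem_univ i, rfl⟩
      have h8 := Finset.sum_le_card_nsmul Finset.univ
        (fun i => Pool.Agent.Helper63.WH.absHeight (![A α i, 1] : Fin 2 → E)) B fun i _ => h7 i
      rw [Finset.card_univ, Fintype.card_fin, nsmul_eq_mul] at h8
      linarith
    obtain ⟨v, hv, c, hc, hcv⟩ := hT2 (Z α) hz0 ⟨1, one_ne_zero, hfix⟩ hht
    refine ⟨v, hv, ?_⟩
    rw [hcv, PZ_smul] at h1
    show (eval (![0, 1] : Fin 2 → E) (PZ v))⁻¹ • v = Z α
    rw [hcv, eq_inv_of_mul_eq_one_left h1]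
  · rintro _ ⟨α, ⟨hα, hαB⟩, rfl⟩
    refine (Set.finite_range (A α)).subset ?_
    rintro β ⟨⟨hβ, hβB⟩, hZβ⟩
    have hZβ' : Z β = Z α := hZβ
    have h1 : nF (A β) = nF (A α) := by rw [← hPZ, ← hPZ, hZβ']
    have h2 : β ∈ (minpoly ℚ β).aroots E := by
      rw [Polynomial.mem_aroots]
      exact ⟨minpoly.ne_zero (Algebra.IsIntegral.isIntegral β), minpoly.aeval ℚ β⟩
    rw [← hA' β hβ, Multiset.mem_map] at h2
    obtain ⟨i, -, hi⟩ := h2
    have h3 : eval (![1, -β] : Fin 2 → E) (nF (A β)) = 0 := by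
      rw [nF_eval]
      exact Finset.prod_eq_zero (Finset.mem_univ i) (by rw [hi, sub_self])
    rw [h1, nF_eval, Finset.prod_eq_zero_iff] at h3
    obtain ⟨j, -, hj⟩ := h3
    exact ⟨j, sub_eq_zero.1 hj⟩

theorem north (N : ι → ℕ) (D : ℕ) (B : ℝ) :
    {y : PPt E N | DegLE D y ∧ absTotal y ≤ B}.Finite := by
  classical
  set S : Set E := {α | (minpoly ℚ α).natDegree ≤ D ∧ absHeight (![α, 1] : Fin 2 → E) ≤ B} with hS
  have hSf : S.Finite := by
    have h1 : S ⊆ ⋃ n ∈ Set.Iic D, {α : E | (minpoly ℚ α).natDegree = n ∧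
        absHeight (![α, 1] : Fin 2 → E) ≤ B} := by
      rintro α ⟨h2, h3⟩
      simp only [Set.mem_iUnion, Set.mem_Iic]
      exact ⟨_, h2, rfl, h3⟩
    exact ((Set.finite_Iic D).biUnion fun n _ => nth_num n B).subset h1
  have hTi : ∀ i : ι, {p : ℙ E (Fin (N i + 1) → E) | ∃ (v : Fin (N i + 1) → E) (hv : v ≠ 0),
      (∀ j, v j ∈ S) ∧ p = Projectivization.mk E v hv}.Finite := by
    intro i
    have h1 : {v : Fin (N i + 1) → E | ∀ j, v j ∈ S}.Finite := Set.Finite.pi' fun _ => hSf
    have h2 : (⋃ v ∈ {v : Fin (N i + 1) → E | ∀ j, v j ∈ S},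
        {p : ℙ E (Fin (N i + 1) → E) | ∃ hv : v ≠ 0, p = Projectivization.mk E v hv}).Finite := by
      refine h1.biUnion fun v _ => Set.Subsingleton.finite ?_
      rintro p ⟨hv, rfl⟩ q ⟨hv', rfl⟩
      rfl
    refine h2.subset ?_
    rintro p ⟨v, hv, hvS, rfl⟩
    simp only [Set.mem_iUnion]
    exact ⟨v, hvS, hv, rfl⟩
  refine (Set.Finite.pi' hTi).subset ?_
  rintro y ⟨⟨L, hL, hLD, hLy⟩, hyB⟩ i
  have hx0 : (y i).rep ≠ 0 := Projectivization.rep_nonzero _
  obtain ⟨j₀, hj₀⟩ := Function.ne_iff.1 hx0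
  have hj₀' : (y i).rep j₀ ≠ 0 := hj₀
  obtain ⟨c, hc, hcL⟩ := hLy i
  have hB1 : absHeight (y i).rep ≤ B := by
    refine le_trans ?_ hyB
    exact Finset.single_le_sum (f := fun i => absHeight (y i).rep)
      (fun i _ => absHeight_nonneg _) (Finset.mem_univ i)
  have hv0 : ((y i).rep j₀)⁻¹ • (y i).rep ≠ 0 := smul_ne_zero (inv_ne_zero hj₀') hx0
  refine ⟨((y i).rep j₀)⁻¹ • (y i).rep, hv0, fun j => ⟨?_, ?_⟩, ?_⟩
  · have h1 : (((y i).rep j₀)⁻¹ • (y i).rep) j ∈ L := by
      have h2 : (((y i).rep j₀)⁻¹ • (y i).rep) j = (c * (y i).rep j) / (c * (y i).rep j₀) := by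
        rw [Pi.smul_apply, smul_eq_mul]
        field_simp
      rw [h2]
      exact L.div_mem (hcL j) (hcL j₀)
    have h3 : minpoly ℚ ((((y i).rep j₀)⁻¹ • (y i).rep) j) =
        minpoly ℚ (⟨_, h1⟩ : L) := (IntermediateField.minpoly_eq (⟨_, h1⟩ : L)).symm
    rw [h3]
    exact (minpoly.natDegree_le _).trans hLD
  · have h1 : (![(((y i).rep j₀)⁻¹ • (y i).rep) j, 1] : Fin 2 → E) =
        ((y i).rep j₀)⁻¹ • fun k : Fin 2 => (y i).rep ((![j, j₀] : Fin 2 → Fin (N i + 1)) k) := by
      funext k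
      fin_cases k
      · rfl
      · show (1 : E) = ((y i).rep j₀)⁻¹ * (y i).rep j₀
        rw [inv_mul_cancel₀ hj₀']
    rw [h1, absHeight_smul _ (inv_ne_zero hj₀')]
    exact (PBK.absHeight_comp_le _ _).trans hB1
  · conv_lhs => rw [← Projectivization.mk_rep (y i)]
    rw [Projectivization.mk_eq_mk_iff']
    refine ⟨(y i).rep j₀, ?_⟩
    rw [smul_smul, mul_inv_cancel₀ hj₀', one_smul]

end Pool.Agent.KST
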