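import Pool.Agent.KST.Sdefs2
import Pool.Agent.KST.Dns
import Pool.Agent.KST.North
import Pool.Agent.KST.Zc
import Pool.Agent.LLC.Segk
import Pool.Agent.PW.Segl

/-!
# KST ENDG: finitely many points on all the curves

Let `S₀ = {n | eval (seg (f^[n] x₀)) Φ ≠ 0 ∧ Ncs (f^[n] '' Z) a b}`, `Z_n = f^[n] '' Z`,
`lb = ∑ w, C (b w) * X w`, `G = Φ * lb`, a form of degree `D + 1`. Facts for `n ∈ S₀`: `Z_n` is irreducible
(`irred_img`), so `PrimeH (fun y : Z_n => seg y)` (`primeH_seg`); `x_n = f^[n] x₀ ∈ Z_n`; `Φ` is not zero at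
`x_n`, `lb` is not zero everywhere on `Z_n` (`Ncs` with `c = 0`), so `G` is not zero everywhere on
`Z_n`. `hbz` for the degree `D + 1` gives `R` such that for all but at most `R` natural numbers `s`
there is `y ∈ Z_n` with `lin a y = s * lin b y`, `G(y) ≠ 0`.
`k₀`: `hil X k₀ > E₁ k₀ + 1` (`HasDegree X 3 e₀`, `e₀ ≥ 1`: `hil X k / k ^ 3` has the limit `e₀ / 6 > 0`).
`M = k₀ E₁ + R + 1`, consider `s = 0, ..., M`, so at least `k₀ E₁ + 1` of them are good.
The points `y_s` of a good `s`: `absTotal y_s ≤ T absHeight ![lin a y, lin b y] + T` and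
`![s lin b y, lin b y] = lin b y • ![s, 1]`, so (`absHeight_smul`) it is
`≤ H₀ = T max_{s ≤ M} absHeight ![s, 1] + T`. `DegLE (D₀ E₁) y_s`: `gal` (for `X, f, Z, a, b`) with
`M := E₁`: the points of `Z_n` with `lin a y' = s lin b y'` are the zeros of the linear form
`∑ (a w - s b w) X w` on `Z_n`, which is not identically zero (if `lin a = s lin b` on `Z_n`: for
`s = 0` contradiction to the first part of `Ncs`, for `s ≠ 0` to the second with `c = s⁻¹`), so by `zc`
(`Ω = Z_n`, `hprop`, `h0` from the injectivity of `seg`, `k = 1`) every finite set of them has at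
most `E₁` elements. So `y_s ∈ FF := {y | DegLE (D₀ E₁) y ∧ absTotal y ≤ H₀}`, a finite set (`north`)
independent of `n`. The `y_s` for different `s` are different (`lin b y_s ≠ 0` because `G ≠ 0`,
`s = lin a y / lin b y`). So `FF ∩ Z_n` has more than `k₀ E₁` elements.
By `dn_union` (classes: the subsets `FF' = FF ∩ Z_n` of `FF`, a finite type) there is `FF' ⊆ FF` such
that `S₁ = {n ∈ S₀ | FF ∩ Z_n = FF'}` is dense. `S₁` is not empty (`X` is not contained in `∅`).
A form of degree `k₀` which vanishes on `FF'` vanishes on `Z_n` for all `n ∈ S₁` (`zc`: otherwise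
`card FF' ≤ k₀ E₁`), so at `x_n`, so on `X` (`Dn`, `zc_forms`). So restricting the forms of degree `k₀`
from `X` to `FF' ⊆ X` is injective, and `FF' ⊆ Z_n` for some `n`:
`hil X k₀ ≤ hil FF' k₀ ≤ hil Z_n k₀ ≤ E₁ k₀ + 1`. Contradiction.
-/

open MvPolynomial
open scoped LinearAlgebra.Projectivization

namespace Pool.Agent.KST

open Pool.Agent.Helper90.KSC Pool.Agent.Helper63.SAND Pool.Agent.Helper63.WH Pool.Agent.PW
  Pool.Agent.LLC

variable {E ι : Type*} [Field E] [CharZero E] [Algebra.IsAlgebraic ℚ E] [IsAlgClosed E]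
  [Fintype ι] [DecidableEq ι] {N : ι → ℕ}

private theorem eg_smul {K σ : Type*} [Field K] (P : MvPolynomial σ K) (e : ℕ)
    (hP : P.IsHomogeneous e) (c : K) (v : σ → K) :
    eval (fun w => c * v w) P = c ^ e * eval v P := by
  rw [eval_eq, eval_eq, Finset.mul_sum]
  refine Finset.sum_congr rfl fun s hs => ?_
  have hsk : ∑ i ∈ s.support, s i = e := by
    have := hP (mem_support_iff.1 hs)
    rw [Finsupp.weight_apply] at this
    simpa [Finsupp.sum] using this
  simp only [mul_pow, Finset.prod_mul_distrib]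
  rw [Finset.prod_pow_eq_pow_sum, hsk]
  ring

omit [CharZero E] [Algebra.IsAlgebraic ℚ E] [IsAlgClosed E] in
/-- Continuity of a morphism on a set which is not assumed to be closed. -/
private theorem eg_zcont (X : Set (PPt E N)) (f : PPt E N → PPt E N)
    (hloc : LocallyByForms X f) : ZCont X f := by
  intro V hV
  obtain ⟨e, t, G, hG1, hG2, hG3⟩ := hloc
  have huniv : ZClosed (Set.univ : Set (PPt E N)) :=
    ⟨∅, fun F hF => absurd hF (Set.notMem_empty F), by
      ext x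
      simp⟩
  refine ⟨PW.sub Set.univ (PW.idl {y | y ∈ X ∧ f y ∈ V}), ?_, ?_⟩
  · refine PW.sub_closed Set.univ huniv _ fun F hF k => ?_
    intro k' y hy
    rw [homogeneousComponent_of_mem (homogeneousComponent_isHomogeneous k F)]
    split_ifs
    · exact hF k y hy
    · exact map_zero _
  · intro y hy
    constructor
    · rintro ⟨-, h2⟩
      obtain ⟨S, hS, rfl⟩ := hV
      intro F hF
      by_contra hne
      obtain ⟨b, hb⟩ := hS F hF
      obtain ⟨k, P, hP1, hP2, hP3⟩ := PW.seglift F b hb (f y) hne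
      obtain ⟨s, w, hsw⟩ := hG3 y hy
      have hev : ∀ (z : PPt E N) (c : E), (∀ w, eval (seg z) (G s w) = c * seg (f z) w) →
          eval (seg z) (aeval (G s) P) = c ^ k * eval (seg (f z)) P := by
        intro z c hc
        rw [← eg_smul P k hP1]
        have h1 : (fun w => c * seg (f z) w) = fun w => eval (seg z) (G s w) := by
          funext w
          exact (hc w).symm
        rw [h1]
        exact eval₂Hom_bind₁ (RingHom.id E) (seg z) (G s) P
      have hhom : (aeval (G s) P : MvPolynomial (SIx N) E).IsHomogeneous (e * k) :=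
        hP1.aeval _ (hG1 s)
      have hmem : (aeval (G s) P : MvPolynomial (SIx N) E) ∈
          PW.idl {y | y ∈ X ∧ f y ∈ {x | ∀ F ∈ S, eval (fun s => (x s.1).rep s.2) F = 0}} := by
        intro k' z hz
        rw [homogeneousComponent_of_mem hhom]
        split_ifs
        · obtain ⟨c, hc⟩ := hG2 s z hz.1
          rw [hev z c hc, hP3 (f z) (hz.2 F hF), mul_zero]
        · exact map_zero _
      have h3 := h2 _ hmem
      obtain ⟨c, hc⟩ := hG2 s y hy
      have hc0 : c ≠ 0 := by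
        rintro rfl
        rw [hc w, zero_mul] at hsw
        exact hsw rfl
      rw [hev y c hc] at h3
      exact mul_ne_zero (pow_ne_zero k hc0) hP2 h3
    · intro hfy
      refine ⟨Set.mem_univ _, fun F hF => ?_⟩
      rw [← sum_homogeneousComponent F, map_sum]
      exact Finset.sum_eq_zero fun k _ => hF k y ⟨hy, hfy⟩

omit [CharZero E] [Algebra.IsAlgebraic ℚ E] [IsAlgClosed E] in
/-- The image of an irreducible set is irreducible (the preimages of closed sets in `X` are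
closed: see (a) in Den.lean, or `primeH_seg` and the charts of the iterates). -/
theorem irred_img (X : Set (PPt E N)) (f : PPt E N → PPt E N) (hf : Set.MapsTo f X X)
    (hlf : LocallyByForms X f) (Z : Set (PPt E N)) (hZX : Z ⊆ X) (hZi : Irred Z) (n : ℕ) :
    Irred (f^[n] '' Z) := by
  have hiter : ∀ n : ℕ, ∀ V : Set (PPt E N), ZClosed V →
      ∃ V', ZClosed V' ∧ ∀ x ∈ X, x ∈ V' ↔ f^[n] x ∈ V := by
    intro n
    induction n with
    | zero => exact fun V hV => ⟨V, hV, fun x _ => Iff.rfl⟩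
    | succ n ih =>
      intro V hV
      obtain ⟨V₁, h1, h1'⟩ := ih V hV
      obtain ⟨V₂, h2, h2'⟩ := eg_zcont X f hlf V₁ h1
      exact ⟨V₂, h2, fun x hx => by rw [h2' x hx, h1' _ (hf hx), Function.iterate_succ_apply]⟩
  refine ⟨hZi.1.image _, fun V₁ V₂ h₁ h₂ hc => ?_⟩
  obtain ⟨V₁', h1, h1'⟩ := hiter n V₁ h₁
  obtain ⟨V₂', h2, h2'⟩ := hiter n V₂ h₂
  have h3 : Z ⊆ V₁' ∪ V₂' := by
    intro z hz
    rcases hc ⟨z, hz, rfl⟩ with h | h
    · exact Or.inl ((h1' z (hZX hz)).2 h)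
    · exact Or.inr ((h2' z (hZX hz)).2 h)
  rcases hZi.2 V₁' V₂' h1 h2 h3 with h | h
  · left
    rintro _ ⟨z, hz, rfl⟩
    exact (h1' z (hZX hz)).1 (h hz)
  · right
    rintro _ ⟨z, hz, rfl⟩
    exact (h2' z (hZX hz)).1 (h hz)

/-- The values of a polynomial at the points, as a linear map. -/
private noncomputable def egv {K Ω W : Type*} [Field K] (a : Ω → W → K) :
    MvPolynomial W K →ₗ[K] (Ω → K) := LinearMap.pi fun x => (aeval (a x)).toLinearMap

private theorem eg_fin {K W : Type*} [Field K] [Finite W] (k : ℕ) :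
    FiniteDimensional K (homogeneousSubmodule W K k) := by
  have h1 : homogeneousSubmodule W K k ≤ restrictTotalDegree W K k := by
    intro P hP
    rw [mem_restrictTotalDegree]
    exact ((mem_homogeneousSubmodule k P).mp hP).totalDegree_le
  exact Submodule.finiteDimensional_of_le h1

private theorem eg_rank {K Ω W : Type*} [Field K] [Finite W] (a : Ω → W → K) (k : ℕ) :
    hil a k + Module.finrank K
      (LinearMap.ker ((egv a).domRestrict (homogeneousSubmodule W K k))) =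
      Module.finrank K (homogeneousSubmodule W K k) := by
  have := eg_fin (K := K) (W := W) k
  have h3 := LinearMap.finrank_range_add_finrank_ker
      ((egv a).domRestrict (homogeneousSubmodule W K k))
  rw [LinearMap.range_domRestrict] at h3
  exact h3

private theorem eg_hil_le {K Ω Ω' W : Type*} [Field K] [Finite W] (a : Ω → W → K)
    (a' : Ω' → W → K) (k : ℕ)
    (h : ∀ P : MvPolynomial W K, P.IsHomogeneous k → Van a' P → Van a P) :
    hil a k ≤ hil a' k := by
  have := eg_fin (K := K) (W := W) k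
  have h1 := eg_rank a k
  have h2 := eg_rank a' k
  have h3 : LinearMap.ker ((egv a').domRestrict (homogeneousSubmodule W K k)) ≤
      LinearMap.ker ((egv a).domRestrict (homogeneousSubmodule W K k)) := by
    intro P hP
    rw [LinearMap.mem_ker] at hP ⊢
    have h4 : Van a' (P : MvPolynomial W K) := by
      intro x
      have h5 := congrFun hP x
      rw [← coe_aeval_eq_eval]
      exact h5
    funext x
    have h6 := h P P.2 h4 x
    rw [← coe_aeval_eq_eval] at h6
    exact h6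
  have h4 := Submodule.finrank_mono h3
  omega

omit [CharZero E] [Algebra.IsAlgebraic ℚ E] [IsAlgClosed E] in
/-- The forms which vanish on a subset. -/
theorem hil_sub (Y Y' : Set (PPt E N)) (hY : Y' ⊆ Y) (k : ℕ) :
    hil (fun y : Y' => seg (y : PPt E N)) k ≤ hil (fun y : Y => seg (y : PPt E N)) k :=
  eg_hil_le _ _ k fun _ _ hV y => hV ⟨y, hY y.2⟩

omit [DecidableEq ι] [CharZero E] [Algebra.IsAlgebraic ℚ E] [IsAlgClosed E] in
/-- A large value of the Hilbert function of a threefold. -/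
private theorem eg_k0 (X : Set (PPt E N)) (e₀ : ℕ) (he : 1 ≤ e₀) (h : HasDegree X 3 e₀)
    (E₁ : ℕ) : ∃ k₀ : ℕ, E₁ * k₀ + 1 < hil (fun y : X => seg (y : PPt E N)) k₀ := by
  have he' : (1 : ℝ) ≤ e₀ := by exact_mod_cast he
  have h1 := Filter.Tendsto.eventually_const_lt (show (1 / 2 : ℝ) < e₀ by linarith) h
  obtain ⟨k, hk, hk2⟩ := (h1.and (Filter.eventually_ge_atTop (12 * (E₁ + 1)))).exists
  refine ⟨k, ?_⟩
  have hk3 : (12 * ((E₁ : ℝ) + 1)) ≤ k := by exact_mod_cast hk2
  have hE : (0 : ℝ) ≤ E₁ := Nat.cast_nonneg _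
  have hk4 : (1 : ℝ) ≤ k := by linarith
  have hk5 : (0 : ℝ) < (k : ℝ) ^ 3 := by positivity
  have h6 : ((Nat.factorial 3 : ℕ) : ℝ) = 6 := by norm_num [Nat.factorial]
  rw [h6, lt_div_iff₀ hk5] at hk
  have h7 : ((E₁ * k + 1 : ℕ) : ℝ) < (hil (fun y : X => seg (y : PPt E N)) k : ℝ) := by
    push_cast
    have h8 : (12 * ((E₁ : ℝ) + 1)) * k ^ 2 ≤ (k : ℝ) ^ 3 := by
      have := mul_le_mul_of_nonneg_right hk3 (by positivity : (0 : ℝ) ≤ (k : ℝ) ^ 2)
      nlinarith
    have h9 : (k : ℝ) ≤ (k : ℝ) ^ 2 := by nlinarith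
    have h10 : ((E₁ : ℝ) + 1) * k ≤ ((E₁ : ℝ) + 1) * k ^ 2 :=
      mul_le_mul_of_nonneg_left h9 (by linarith)
    nlinarith
  exact_mod_cast h7

omit [CharZero E] [Algebra.IsAlgebraic ℚ E] [IsAlgClosed E] in
private theorem eg_seg_inj (y y' : PPt E N) (c : E) (h : ∀ w, seg y w = c * seg y' w) :
    y = y' := by
  have hc : c ≠ 0 := by
    rintro rfl
    refine seg_ne_zero y ?_
    funext w
    rw [h w, zero_mul]
    rfl
  obtain ⟨w₀, hw₀⟩ := Function.ne_iff.1 (seg_ne_zero y)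
  funext i
  rw [← LLC.unseg_mk y (seg y) 1 one_ne_zero (fun w => (one_mul _).symm) w₀ hw₀ i,
    LLC.unseg_mk y' (seg y) c hc h w₀ hw₀ i]

omit [CharZero E] [Algebra.IsAlgebraic ℚ E] [IsAlgClosed E] in
private theorem eg_lin (a : SIx N → E) : ∃ P : MvPolynomial (SIx N) E, P.IsHomogeneous 1 ∧
    ∀ y : PPt E N, eval (seg y) P = lin a y := by
  refine ⟨∑ w, C (a w) * X w, ?_, fun y => ?_⟩
  · refine IsHomogeneous.sum _ _ _ fun w _ => ?_
    have h := (isHomogeneous_C (SIx N) (a w)).mul (isHomogeneous_X E w)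
    rwa [zero_add] at h
  · rw [lin, map_sum]
    refine Finset.sum_congr rfl fun w _ => ?_
    rw [map_mul, eval_C, eval_X]

omit [CharZero E] [Algebra.IsAlgebraic ℚ E] [IsAlgClosed E] in
private theorem eg_count (Y : Set (PPt E N)) (hP : PrimeH fun y : Y => seg (y : PPt E N))
    (E₁ : ℕ) (hh : ∀ k, hil (fun y : Y => seg (y : PPt E N)) k ≤ E₁ * k + 1) (D : ℕ)
    (G : MvPolynomial (SIx N) E) (hG : G.IsHomogeneous D) (hG0 : ∃ y ∈ Y, eval (seg y) G ≠ 0)
    (T : Finset (PPt E N)) (hT : ∀ y ∈ T, y ∈ Y ∧ eval (seg y) G = 0) : T.card ≤ D * E₁ := by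
  classical
  have h1 := zc (fun y : Y => seg (y : PPt E N)) hP (fun y y' hyy c => by
    by_contra hcon
    push Not at hcon
    exact hyy (Subtype.ext (eg_seg_inj _ _ c hcon))) (fun y => seg_ne_zero _) E₁ hh D G hG
    (by
      intro hV
      obtain ⟨y, hy, hGy⟩ := hG0
      exact hGy (hV ⟨y, hy⟩)) (T.subtype (· ∈ Y)) (by
      intro y hy
      rw [Finset.mem_subtype] at hy
      exact (hT _ hy).2)
  rw [Finset.card_subtype, Finset.filter_true_of_mem fun y hy => (hT y hy).1] at h1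
  exact h1

omit [CharZero E] [Algebra.IsAlgebraic ℚ E] [IsAlgClosed E] in
private theorem eg_encard (Y : Set (PPt E N)) (hP : PrimeH fun y : Y => seg (y : PPt E N))
    (E₁ : ℕ) (hh : ∀ k, hil (fun y : Y => seg (y : PPt E N)) k ≤ E₁ * k + 1)
    (a b : SIx N → E) (hn : Ncs Y a b) (s : E) :
    {y' ∈ Y | lin a y' = s * lin b y'}.encard ≤ E₁ := by
  classical
  obtain ⟨La, hLa, hLa'⟩ := eg_lin a
  obtain ⟨Lb, hLb, hLb'⟩ := eg_lin b
  have hG : (La - C s * Lb).IsHomogeneous 1 := by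
    have := (isHomogeneous_C (SIx N) s).mul hLb
    rw [zero_add] at this
    exact hLa.sub this
  have hGe : ∀ y : PPt E N, eval (seg y) (La - C s * Lb) = lin a y - s * lin b y := by
    intro y
    rw [map_sub, map_mul, eval_C, hLa', hLb']
  have hG0 : ∃ y ∈ Y, eval (seg y) (La - C s * Lb) ≠ 0 := by
    by_contra hcon
    push Not at hcon
    have h1 : ∀ y ∈ Y, lin a y = s * lin b y := fun y hy => by
      have := hcon y hy
      rw [hGe, sub_eq_zero] at this
      exact this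
    obtain ⟨⟨y₁, hy₁, hay₁⟩, h2⟩ := hn
    have hs : s ≠ 0 := by
      rintro rfl
      exact hay₁ (by rw [h1 y₁ hy₁, zero_mul])
    obtain ⟨y, hy, hne⟩ := h2 s⁻¹
    exact hne (by rw [h1 y hy, inv_mul_cancel_left₀ hs])
  by_contra hcon
  push Not at hcon
  have h3 : ((E₁ + 1 : ℕ) : ℕ∞) ≤ {y' ∈ Y | lin a y' = s * lin b y'}.encard := by
    rw [Nat.cast_add, Nat.cast_one]
    exact Order.add_one_le_of_lt hcon
  obtain ⟨t, ht, htc⟩ := Set.exists_subset_encard_eq h3
  have htf : t.Finite := Set.finite_of_encard_eq_coe htc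
  have h4 := eg_count Y hP E₁ hh 1 _ hG hG0 htf.toFinset fun y hy => by
    have h5 := ht ((Set.Finite.mem_toFinset htf).1 hy)
    exact ⟨h5.1, by rw [hGe, h5.2, sub_self]⟩
  rw [htf.encard_eq_coe_toFinset_card] at htc
  have h6 : htf.toFinset.card = E₁ + 1 := by exact_mod_cast htc
  omega

omit [Algebra.IsAlgebraic ℚ E] [IsAlgClosed E] in
private theorem eg_good (Y : Set (PPt E N)) (a b : SIx N → E) (Φ G : MvPolynomial (SIx N) E)
    (R M : ℕ) (hbz : ∃ Bad : Finset E, Bad.card ≤ R ∧ ∀ s : E, s ∉ Bad →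
        ∃ y ∈ Y, lin a y = s * lin b y ∧ eval (seg y) G ≠ 0)
    (hG : ∀ y : PPt E N, eval (seg y) G ≠ 0 → lin b y ≠ 0 ∧ eval (seg y) Φ ≠ 0) :
    ∃ T : Finset (PPt E N), M ≤ T.card + R ∧ ∀ y ∈ T, y ∈ Y ∧ ∃ s : ℕ, s < M ∧
      lin a y = s * lin b y ∧ lin b y ≠ 0 ∧ eval (seg y) Φ ≠ 0 := by
  classical
  obtain ⟨Bad, hBad, hB⟩ := hbz
  choose! y hy1 hy2 hy3 using hB
  refine ⟨((Finset.range M).filter fun s : ℕ => (s : E) ∉ Bad).image fun s : ℕ => y (s : E),
    ?_, ?_⟩
  · rw [Finset.card_image_of_injOn]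
    · have h1 : ((Finset.range M).filter fun s : ℕ => (s : E) ∈ Bad).card ≤ Bad.card := by
        refine Finset.card_le_card_of_injOn (fun s : ℕ => (s : E)) (fun s hs => ?_)
          (Nat.cast_injective.injOn)
        exact (Finset.mem_filter.1 hs).2
      have h2 := Finset.card_filter_add_card_filter_not (s := Finset.range M)
        (fun s : ℕ => (s : E) ∈ Bad)
      rw [Finset.card_range] at h2
      omega
    · intro s hs s' hs' h
      have h1 := (Finset.mem_filter.1 hs).2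
      have h2 := (Finset.mem_filter.1 hs').2
      have h3 := hy2 _ h1
      have h4 := hy2 _ h2
      have h : y (s : E) = y (s' : E) := h
      rw [← h] at h4
      have h5 := (hG _ (hy3 _ h1)).1
      exact_mod_cast mul_right_cancel₀ h5 (h3.symm.trans h4)
  · intro z hz
    obtain ⟨s, hs, rfl⟩ := Finset.mem_image.1 hz
    have h1 := (Finset.mem_filter.1 hs).2
    exact ⟨hy1 _ h1, s, Finset.mem_range.1 (Finset.mem_filter.1 hs).1, hy2 _ h1,
      (hG _ (hy3 _ h1)).1, (hG _ (hy3 _ h1)).2⟩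

theorem endg (X : Set (PPt E N)) (e₀ : ℕ) (f g : PPt E N → PPt E N) (A B : Matrix ι ι ℤ)
    (h : Aut3 X e₀ f g A B) (Z : Set (PPt E N)) (e E₁ : ℕ) (hZ : Bcv X f g Z e E₁)
    (x₀ : PPt E N) (hx₀ : x₀ ∈ Z) (a b : SIx N → E) (D : ℕ) (Φ : MvPolynomial (SIx N) E) (T : ℝ)
    (hP : Pin f Z a b D Φ T)
    (hd : Dn X f x₀ {n | eval (seg (f^[n] x₀)) Φ ≠ 0 ∧ Ncs (f^[n] '' Z) a b})
    (hbz : ∀ D : ℕ, ∃ R : ℕ, ∀ (n : ℕ) (a b : SIx N → E) (G : MvPolynomial (SIx N) E),
      G.IsHomogeneous D → (∃ y ∈ f^[n] '' Z, eval (seg y) G ≠ 0) → Ncs (f^[n] '' Z) a b →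
      ∃ Bad : Finset E, Bad.card ≤ R ∧ ∀ s : E, s ∉ Bad →
        ∃ y ∈ f^[n] '' Z, lin a y = s * lin b y ∧ eval (seg y) G ≠ 0) : False := by
  classical
  obtain ⟨Lb, hLb, hLb'⟩ := eg_lin b
  obtain ⟨R, hR⟩ := hbz (D + 1)
  obtain ⟨k₀, hk₀⟩ := eg_k0 X e₀ h.e1 h.deg E₁
  obtain ⟨D₀, hD₀⟩ := gal X f h.mf h.lf Z hZ.cl hZ.sub a b
  obtain ⟨M, hM⟩ : ∃ M, M = k₀ * E₁ + R + 1 := ⟨_, rfl⟩
  obtain ⟨H₀, hH₀⟩ : ∃ H₀ : ℝ, H₀ = ∑ s ∈ Finset.range M,
    (T * absHeight (![(s : E), 1] : Fin 2 → E) + T) := ⟨_, rfl⟩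
  have hprime : ∀ n, PrimeH fun y : (f^[n] '' Z : Set (PPt E N)) => seg (y : PPt E N) :=
    fun n => primeH_seg _ (irred_img X f h.mf h.lf Z hZ.sub hZ.irr n)
  have hfin := north (E := E) N (D₀ * E₁) H₀
  have key : ∀ n, eval (seg (f^[n] x₀)) Φ ≠ 0 → Ncs (f^[n] '' Z) a b →
      k₀ * E₁ + 1 ≤ (hfin.toFinset.filter fun y => y ∈ f^[n] '' Z).card := by
    intro n hΦ hn
    have hG0 : ∃ y ∈ f^[n] '' Z, eval (seg y) (Φ * Lb) ≠ 0 := by
      by_contra hcon
      push Not at hcon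
      rcases hprime n Φ Lb D 1 hP.hom hLb (fun y => hcon y y.2) with h1 | h1
      · exact hΦ (h1 ⟨_, x₀, hx₀, rfl⟩)
      · obtain ⟨y, hy, hby⟩ := hn.2 0
        apply hby
        rw [zero_mul, ← hLb']
        exact h1 ⟨y, hy⟩
    obtain ⟨S, hS1, hS2⟩ := eg_good (f^[n] '' Z) a b Φ (Φ * Lb) R M
      (hR n a b (Φ * Lb) (hP.hom.mul hLb) hG0 hn) (fun y hy => by
        rw [map_mul, hLb'] at hy
        exact ⟨right_ne_zero_of_mul hy, left_ne_zero_of_mul hy⟩)
    have hsub : S ⊆ hfin.toFinset.filter fun y => y ∈ f^[n] '' Z := by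
      intro y hy
      obtain ⟨hyZ, s, hs, hys, hby, hΦy⟩ := hS2 y hy
      rw [Finset.mem_filter, Set.Finite.mem_toFinset]
      refine ⟨⟨hD₀ n E₁ s y hyZ hys (eg_encard _ (hprime n) E₁ (hZ.hil n) a b hn _), ?_⟩, hyZ⟩
      refine (hP.le n y hyZ hΦy hby).trans ?_
      have h1 : (![lin a y, lin b y] : Fin 2 → E) = lin b y • ![(s : E), 1] := by
        funext i
        fin_cases i
        · change lin a y = lin b y * (s : E)
          rw [hys, mul_comm]
        · change lin b y = lin b y * 1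
          rw [mul_one]
      rw [h1, absHeight_smul _ hby, hH₀]
      refine Finset.single_le_sum (f := fun s : ℕ =>
        T * absHeight (![(s : E), 1] : Fin 2 → E) + T) (fun i _ => ?_) (Finset.mem_range.2 hs)
      exact add_nonneg (mul_nonneg hP.nn (absHeight_nonneg _)) hP.nn
    have := Finset.card_le_card hsub
    omega
  obtain ⟨c, hc⟩ := dn_union X h.irr f x₀ _ hd (κ := hfin.toFinset.powerset)
    (fun c => {n | (hfin.toFinset.filter fun y => y ∈ f^[n] '' Z) = c}) (fun n _ =>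
      ⟨⟨hfin.toFinset.filter fun y => y ∈ f^[n] '' Z,
        Finset.mem_powerset.2 (Finset.filter_subset _ _)⟩, rfl⟩)
  obtain ⟨n₁, hn₁⟩ : ∃ n₁, n₁ ∈ ({n | eval (seg (f^[n] x₀)) Φ ≠ 0 ∧ Ncs (f^[n] '' Z) a b} ∩
      {n | (hfin.toFinset.filter fun y => y ∈ f^[n] '' Z) = c} : Set ℕ) := by
    by_contra hcon
    push Not at hcon
    obtain ⟨x, hx⟩ := h.irr.1
    exact hc ∅ zclosed_empty (fun n hn => absurd hn (hcon n)) hx
  have hcZ : (c : Finset (PPt E N)) = hfin.toFinset.filter fun y => y ∈ f^[n₁] '' Z := hn₁.2.symm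
  have h1 : hil (fun y : X => seg (y : PPt E N)) k₀ ≤
      hil (fun y : ((c : Finset (PPt E N)) : Set (PPt E N)) => seg (y : PPt E N)) k₀ := by
    refine eg_hil_le _ _ k₀ fun P hPh hV => ?_
    have h2 : X ⊆ {y : PPt E N | ∀ _ : Unit, eval (seg y) P = 0} := by
      refine hc _ (zc_forms (fun _ : Unit => P) (fun _ => k₀) fun _ => hPh) fun n hn _ => ?_
      by_contra hne
      have h3 := eg_count (f^[n] '' Z) (hprime n) E₁ (hZ.hil n) k₀ P hPh
        ⟨_, ⟨x₀, hx₀, rfl⟩, hne⟩ c (fun y hy => ⟨?_, hV ⟨y, hy⟩⟩)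
      · have h4 := key n hn.1.1 hn.1.2
        have h5 : (hfin.toFinset.filter fun y => y ∈ f^[n] '' Z) = c := hn.2
        rw [h5] at h4
        omega
      · have h5 : (hfin.toFinset.filter fun y => y ∈ f^[n] '' Z) = c := hn.2
        rw [← h5] at hy
        exact (Finset.mem_filter.1 hy).2
    exact fun y => h2 y.2 ()
  have h2 := hil_sub (f^[n₁] '' Z) ((c : Finset (PPt E N)) : Set (PPt E N)) (fun y hy => by
    rw [hcZ] at hy
    exact (Finset.mem_filter.1 hy).2) k₀
  have h3 := hZ.hil n₁ k₀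
  omega

end Pool.Agent.KST
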