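import Pool.Agent.LLC.Grow

/-!
# KST EXA: the growth rate of a nonnegative perturbed orbit

PROOF.  Over `ℂ`, `B = A.map cast`, `X n = H n`. Let `ρ₁ < … < ρ_l` be the moduli `> 1` of the roots of the charpoly. For
a real `t ≥ 1` which is not a modulus of a root split the roots into `s_t` (modulus `< t`) and `s^t` (modulus `> t`);
`p = rts s_t`, `q = rts s^t` (`LLC/LinA`), coprime, `p q (B) = 0`. Let `Y n = p(B) (X n)`: `q(B) (Y n) = 0`,
`Y (n+1) = B (Y n) + e n`, `‖e n‖ ≤ K`.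
(i) DICHOTOMY at `t > 1`: either `‖Y n‖ ≤ K'` for all `n`, or there are `c > 0`, `n₀` with `‖Y n‖ ≥ c t ^ n` for `n ≥ n₀`. Proof:
let `ρ > t` be a lower bound of the moduli in `s^t`; by `lin_low`, `ρ ^ m ‖y‖ ≤ C (1+m)^C ‖B ^ m y‖` on the kernel of `q(B)`. Fix
`m` with `ρ ^ m > 2 C (1+m)^C t ^ m`. Then `‖Y (n+m)‖ ≥ ‖B ^ m (Y n)‖ - K_m ≥ 2 t ^ m ‖Y n‖ - K_m`. If `‖Y n₁‖ ≥ K_m` for
some `n₁` then (`2 t ^ m y - K_m ≥ t ^ m y` for `y ≥ K_m`, as `t ^ m ≥ 1`) `‖Y (n₁ + j m)‖ ≥ t ^ (j m) ‖Y n₁‖`, `j ≥ 0`; and for the `n`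
between: `Y (n₁ + (j+1) m)` is obtained from `Y n` by at most `m` steps, so `‖Y n‖ ≥ (‖Y (n₁+(j+1)m)‖ - K) / K`. Otherwise
`‖Y n‖ < K_m` for all `n`. (Take `K_m ≥ 1`.)
(ii) If `‖Y n‖ ≤ K'` then `X` grows at most like `C (1+n)^C t ^ n`: induction on the multiset `s_t` as in `grow_aux`/`step_small` of
`LLC/Grow.lean`: if `‖rts s (B) (X n)‖ ≤ C (1+n)^C t ^ n` and `‖X (n+1) - B (X n)‖ ≤ C (1+n)^C t ^ n`, all `‖z‖ ≤ t` on `s`, `t ≥ 1`, then
`‖X n‖ ≤ C' (1+n)^C' t ^ n` (`X (n+1) = z X n + Y' n`, divide by `t ^ n`).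
(iii) If for all `t > 1` close to `1` the bounded case holds, then `X` is subexponential (by (ii) for `t = 1 + ε` for small `ε`; for
larger `ε` it is weaker). Otherwise there is some root of modulus `> 1`; let `ρ_i` be the largest modulus `> 1` such that for all `t > 1`
in the open interval `(ρ_(i-1), ρ_i)` (`ρ_0 = 1`) the unbounded case holds; the alternative is monotone: if the bounded case
holds for `t` then it holds for `t' > t` (`p_t` divides `p_t'`); within an interval `p_t` is constant, so (i) holds for all `t` in the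
interval or for none. So for `t < ρ_i`, `t > ρ_(i-1)`: `‖X n‖ ≥ c t ^ n` for large `n` (`‖Y n‖ ≤ K ‖X n‖`), and for
`t > ρ_i`, `t < ρ_(i+1)`: `‖X n‖ ≤ C (1+n)^C t ^ n`. As `H ≥ 0`, `‖X n‖ ≤ ∑ H n i ≤ card ι ‖X n‖`; the `n`-th roots converge
to `ρ_i = ‖z‖` (squeeze: `c ^ (1/n) t → t`, `(C (1+n)^C) ^ (1/n) → 1`).
Equivalent and shorter: let `T` be the set of the `t > 1` such that `X n ≤ C (1+n)^C t ^ n` for some `C`; `ρ = inf T`; if `ρ ≤ 1`:
subexponential. If `ρ > 1`: `ρ` is the modulus of a root, otherwise `t` slightly smaller and `t'` slightly larger than `ρ` give the same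
polynomials, (i) at `t` contradicts ... (bounded for `t'` implies bounded for `t`, so `t ∈ T`).
-/

set_option autoImplicit false

open Polynomial Filter Topology

namespace Pool.Agent.KST

/-- Geometric bound. -/
def GB {V : Type*} [Norm V] (t : ℝ) (X : ℕ → V) : Prop := ∃ C : ℝ, ∀ n, ‖X n‖ ≤ C * t ^ n

theorem gb_step {V : Type*} [SeminormedAddCommGroup V] [NormedSpace ℂ V] {z : ℂ} {t : ℝ}
    (hz : ‖z‖ < t) {X Y : ℕ → V} (hX : ∀ n, X (n + 1) = z • X n + Y n) (hY : GB t Y) : GB t X := by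
  obtain ⟨C, hC⟩ := hY
  have ht : 0 < t := lt_of_le_of_lt (norm_nonneg _) hz
  have hd : 0 < t - ‖z‖ := by linarith
  refine ⟨max ‖X 0‖ (C / (t - ‖z‖)), fun n => ?_⟩
  set D := max ‖X 0‖ (C / (t - ‖z‖)) with hD
  induction n with
  | zero => simp [hD]
  | succ n ih =>
    have h1 : C ≤ D * (t - ‖z‖) := by
      rw [← div_le_iff₀ hd]
      exact le_max_right _ _
    have htn : 0 < t ^ n := pow_pos ht n
    calc ‖X (n + 1)‖ = ‖z • X n + Y n‖ := by rw [hX]
      _ ≤ ‖z‖ * ‖X n‖ + ‖Y n‖ := by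
          refine (norm_add_le _ _).trans (add_le_add ?_ le_rfl)
          exact norm_smul_le _ _
      _ ≤ ‖z‖ * (D * t ^ n) + C * t ^ n :=
          add_le_add (mul_le_mul_of_nonneg_left ih (norm_nonneg _)) (hC n)
      _ ≤ ‖z‖ * (D * t ^ n) + (D * (t - ‖z‖)) * t ^ n :=
          add_le_add le_rfl (mul_le_mul_of_nonneg_right h1 htn.le)
      _ = D * t ^ (n + 1) := by ring

theorem gb_add {V : Type*} [SeminormedAddCommGroup V] {t : ℝ} {X Y : ℕ → V} (hX : GB t X)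
    (hY : GB t Y) : GB t fun n => X n + Y n := by
  obtain ⟨C, hC⟩ := hX
  obtain ⟨D, hD⟩ := hY
  refine ⟨C + D, fun n => (norm_add_le _ _).trans ?_⟩
  rw [add_mul]
  exact add_le_add (hC n) (hD n)

theorem gb_mono {V : Type*} [SeminormedAddCommGroup V] {t t' : ℝ} (ht : 0 ≤ t) (htt : t ≤ t')
    {X : ℕ → V} (hX : GB t X) : GB t' X := by
  obtain ⟨C, hC⟩ := hX
  refine ⟨|C|, fun n => (hC n).trans ?_⟩
  calc C * t ^ n ≤ |C| * t ^ n := mul_le_mul_of_nonneg_right (le_abs_self C) (pow_nonneg ht n)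
    _ ≤ |C| * t' ^ n := mul_le_mul_of_nonneg_left (pow_le_pow_left₀ ht htt n) (abs_nonneg C)

theorem gb_of_bdd {V : Type*} [SeminormedAddCommGroup V] {t : ℝ} (ht : 1 ≤ t) {X : ℕ → V} {K : ℝ}
    (hX : ∀ n, ‖X n‖ ≤ K) : GB t X := by
  have hK : 0 ≤ K := (norm_nonneg _).trans (hX 0)
  refine ⟨K, fun n => (hX n).trans ?_⟩
  have h1 : 1 ≤ t ^ n := one_le_pow₀ ht
  nlinarith

/-- Exponentials compare. -/
theorem ev_lt {t a : ℝ} (ht : 0 ≤ t) (hta : t < a) (C : ℝ) : ∀ᶠ n : ℕ in atTop, C * t ^ n < a ^ n := by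
  have ha : 0 < a := lt_of_le_of_lt ht hta
  have h1 : Tendsto (fun n : ℕ => C * (t / a) ^ n) atTop (𝓝 (C * 0)) :=
    (tendsto_pow_atTop_nhds_zero_of_lt_one (div_nonneg ht ha.le) ((div_lt_one ha).2 hta)).const_mul _
  rw [mul_zero] at h1
  filter_upwards [h1.eventually (gt_mem_nhds (zero_lt_one (α := ℝ)))] with n hn
  have han : 0 < a ^ n := pow_pos ha n
  rw [div_pow, ← mul_div_assoc, div_lt_one han] at hn
  exact hn

theorem gap_above (s : Multiset ℂ) (ρ : ℝ) (h : ∀ z ∈ s, ρ < ‖z‖) :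
    ∃ ρ₂, ρ < ρ₂ ∧ ∀ z ∈ s, ρ₂ ≤ ‖z‖ := by
  induction s using Multiset.induction_on with
  | empty => exact ⟨ρ + 1, by linarith, fun z hz => absurd hz (Multiset.notMem_zero z)⟩
  | cons a s ih =>
    obtain ⟨ρ₂, h1, h2⟩ := ih fun z hz => h z (Multiset.mem_cons_of_mem hz)
    refine ⟨min ρ₂ ‖a‖, lt_min h1 (h a (Multiset.mem_cons_self a s)), fun z hz => ?_⟩
    rcases Multiset.mem_cons.1 hz with rfl | hz
    · exact min_le_right _ _
    · exact (min_le_left _ _).trans (h2 z hz)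

theorem gap_below (s : Multiset ℂ) {t : ℝ} (ht : 1 < t) :
    ∃ r, 1 < r ∧ r < t ∧ ∀ z ∈ s, ‖z‖ < t → ‖z‖ < r := by
  induction s using Multiset.induction_on with
  | empty => exact ⟨(1 + t) / 2, by linarith, by linarith, fun z hz => absurd hz (Multiset.notMem_zero z)⟩
  | cons a s ih =>
    obtain ⟨r, h1, h2, h3⟩ := ih
    by_cases ha : ‖a‖ < t
    · refine ⟨max r ((‖a‖ + t) / 2), lt_of_lt_of_le h1 (le_max_left _ _),
        max_lt h2 (by linarith), fun z hz hzt => ?_⟩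
      rcases Multiset.mem_cons.1 hz with rfl | hz
      · exact lt_of_lt_of_le (by linarith) (le_max_right _ _)
      · exact lt_of_lt_of_le (h3 z hz hzt) (le_max_left _ _)
    · refine ⟨r, h1, h2, fun z hz hzt => ?_⟩
      rcases Multiset.mem_cons.1 hz with rfl | hz
      · exact absurd hzt ha
      · exact h3 z hz hzt

variable {ι : Type*} [Fintype ι] [DecidableEq ι]

omit [DecidableEq ι] in
theorem mv_bound (M : Matrix ι ι ℂ) : ∃ K : ℝ, 0 ≤ K ∧ ∀ w, ‖M.mulVec w‖ ≤ K * ‖w‖ :=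
  ⟨‖LinearMap.toContinuousLinearMap M.mulVecLin‖, norm_nonneg _, fun w =>
    (LinearMap.toContinuousLinearMap M.mulVecLin).le_opNorm w⟩

omit [DecidableEq ι] in
theorem gb_mulVec (M : Matrix ι ι ℂ) {t : ℝ} {X : ℕ → ι → ℂ} (hX : GB t X) :
    GB t fun n => M.mulVec (X n) := by
  obtain ⟨K, hK0, hK⟩ := mv_bound M
  obtain ⟨C, hC⟩ := hX
  refine ⟨K * C, fun n => (hK _).trans ?_⟩
  rw [mul_assoc]
  exact mul_le_mul_of_nonneg_left (hC n) hK0

theorem gb_aux (B : Matrix ι ι ℂ) (s : Multiset ℂ) {t : ℝ} (hs : ∀ z ∈ s, ‖z‖ < t) :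
    ∀ X : ℕ → ι → ℂ, GB t (fun n => (aeval B (LLC.rts s)).mulVec (X n)) →
    GB t (fun n => X (n + 1) - B.mulVec (X n)) → GB t X := by
  induction s using Multiset.induction_on with
  | empty =>
    intro X h1 _
    have h2 : LLC.rts (0 : Multiset ℂ) = 1 := by simp [LLC.rts]
    simpa [h2] using h1
  | cons z s ih =>
    intro X h1 h2
    have hr : LLC.rts (z ::ₘ s) = LLC.rts s * (Polynomial.X - C z) := by
      unfold LLC.rts
      rw [Multiset.map_cons, Multiset.prod_cons, mul_comm]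
    obtain ⟨M, hM⟩ : ∃ M : Matrix ι ι ℂ, M = aeval B (Polynomial.X - C z) := ⟨_, rfl⟩
    have hM' : M = B - algebraMap ℂ (Matrix ι ι ℂ) z := by
      rw [hM, map_sub, aeval_X, aeval_C]
    have hMv : ∀ v, M.mulVec v = B.mulVec v - z • v := by
      intro v
      rw [hM', Matrix.sub_mulVec, Algebra.algebraMap_eq_smul_one, Matrix.smul_mulVec,
        Matrix.one_mulVec]
    have hcomm : B * M = M * B := by
      rw [hM', mul_sub, sub_mul, Algebra.commutes]
    have h4 : GB t fun n => M.mulVec (X n) := by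
      refine ih (fun y hy => hs y (Multiset.mem_cons_of_mem hy)) (fun n => M.mulVec (X n)) ?_ ?_
      · rw [hr] at h1
        simpa only [map_mul, ← hM, ← Matrix.mulVec_mulVec] using h1
      · have h5 := gb_mulVec M h2
        have h6 : (fun n => M.mulVec (X (n + 1) - B.mulVec (X n))) =
            fun n => M.mulVec (X (n + 1)) - B.mulVec (M.mulVec (X n)) := by
          funext n
          rw [Matrix.mulVec_sub, Matrix.mulVec_mulVec, Matrix.mulVec_mulVec, hcomm]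
        rwa [h6] at h5
    have h5 : ∀ n, X (n + 1) = z • X n + (M.mulVec (X n) + (X (n + 1) - B.mulVec (X n))) := by
      intro n
      rw [hMv]
      abel
    exact gb_step (hs z (Multiset.mem_cons_self z s)) h5 (gb_add h4 h2)

/-- Dichotomy. -/
theorem dicho (B : Matrix ι ι ℂ) (s : Multiset ℂ) {t : ℝ} (ht : 1 < t) (hs : ∀ z ∈ s, t < ‖z‖)
    (Y : ℕ → ι → ℂ) (hY : ∀ n, (aeval B (LLC.rts s)).mulVec (Y n) = 0) {K : ℝ}
    (hK : ∀ n, ‖Y (n + 1) - B.mulVec (Y n)‖ ≤ K) :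
    (∃ K' : ℝ, ∀ n, ‖Y n‖ ≤ K') ∨ ∃ c : ℝ, 0 < c ∧ ∃ n₀ : ℕ, ∀ n ≥ n₀, c * t ^ n ≤ ‖Y n‖ := by
  obtain ⟨ρ, hρt, hρ⟩ := gap_above s t hs
  have ht0 : 0 < t := by linarith
  have hρ0 : 0 < ρ := by linarith
  have hK0 : 0 ≤ K := (norm_nonneg _).trans (hK 0)
  obtain ⟨C, hC⟩ := LLC.lin_low B s ρ hρ0 hρ
  -- choice of `m`
  obtain ⟨m, hm1, hm⟩ : ∃ m : ℕ, 1 ≤ m ∧ 2 * (((C : ℝ) + 1) * (1 + m) ^ C) * t ^ m ≤ ρ ^ m := by
    have hσ : 1 < ρ / t := (one_lt_div ht0).2 hρt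
    have h1 : Tendsto (fun n : ℕ => (n : ℝ) ^ C / (ρ / t) ^ n) atTop (𝓝 0) :=
      tendsto_pow_const_div_const_pow_of_one_lt C hσ
    have h2 : Tendsto (fun n : ℕ => 2 * ((C : ℝ) + 1) * 2 ^ C * ((n : ℝ) ^ C / (ρ / t) ^ n)) atTop
        (𝓝 (2 * ((C : ℝ) + 1) * 2 ^ C * 0)) := h1.const_mul _
    rw [mul_zero] at h2
    obtain ⟨N, hN⟩ := eventually_atTop.1 (h2.eventually (gt_mem_nhds (zero_lt_one (α := ℝ))))
    refine ⟨max N 1, le_max_right _ _, ?_⟩
    have h3 := hN (max N 1) (le_max_left _ _)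
    have hn1 : (1 : ℝ) ≤ (max N 1 : ℕ) := by exact_mod_cast le_max_right N 1
    generalize max N 1 = n at h3 hn1
    have hσn : 0 < (ρ / t) ^ n := pow_pos (by linarith) n
    have htn : 0 < t ^ n := pow_pos ht0 n
    rw [← mul_div_assoc, div_lt_one hσn, div_pow, lt_div_iff₀ htn] at h3
    have h7 : (1 + (n : ℝ)) ^ C ≤ 2 ^ C * (n : ℝ) ^ C := by
      rw [← mul_pow]
      gcongr
      linarith
    have hC0 : (0 : ℝ) ≤ C := Nat.cast_nonneg C
    calc 2 * (((C : ℝ) + 1) * (1 + n) ^ C) * t ^ n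
        ≤ 2 * (((C : ℝ) + 1) * (2 ^ C * (n : ℝ) ^ C)) * t ^ n := by gcongr
      _ = 2 * ((C : ℝ) + 1) * 2 ^ C * (n : ℝ) ^ C * t ^ n := by ring
      _ ≤ ρ ^ n := h3.le
  have hker : ∀ v : ι → ℂ, (aeval B (LLC.rts s)).mulVec v = 0 →
      2 * t ^ m * ‖v‖ ≤ ‖(B ^ m).mulVec v‖ := by
    intro v hv
    have h1 := hC v hv m
    have hpos : (0 : ℝ) < ((C : ℝ) + 1) * (1 + m) ^ C := by positivity
    have h2 : (C : ℝ) * (1 + m) ^ C * ‖(B ^ m).mulVec v‖ ≤
        ((C : ℝ) + 1) * (1 + m) ^ C * ‖(B ^ m).mulVec v‖ := by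
      have : (0 : ℝ) ≤ (1 + (m : ℝ)) ^ C * ‖(B ^ m).mulVec v‖ := by positivity
      nlinarith
    have h3 := mul_le_mul_of_nonneg_right hm (norm_nonneg v)
    refine le_of_mul_le_mul_left ?_ hpos
    calc ((C : ℝ) + 1) * (1 + m) ^ C * (2 * t ^ m * ‖v‖)
        = 2 * (((C : ℝ) + 1) * (1 + m) ^ C) * t ^ m * ‖v‖ := by ring
      _ ≤ ρ ^ m * ‖v‖ := h3
      _ ≤ _ := h1.trans h2
  obtain ⟨b, hb0, hb⟩ := mv_bound B
  -- the error after `k` steps
  have herr : ∀ k : ℕ, ∃ Q : ℝ, 0 ≤ Q ∧ ∀ n, ‖Y (n + k) - (B ^ k).mulVec (Y n)‖ ≤ Q := by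
    intro k
    induction k with
    | zero => exact ⟨0, le_rfl, fun n => by simp⟩
    | succ k ih =>
      obtain ⟨Q, hQ0, hQ⟩ := ih
      refine ⟨K + b * Q, by positivity, fun n => ?_⟩
      have e1 : Y (n + (k + 1)) - (B ^ (k + 1)).mulVec (Y n) =
          (Y (n + k + 1) - B.mulVec (Y (n + k))) +
            B.mulVec (Y (n + k) - (B ^ k).mulVec (Y n)) := by
        rw [Matrix.mulVec_sub, Matrix.mulVec_mulVec, ← pow_succ', add_assoc n k 1]
        abel
      rw [e1]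
      exact (norm_add_le _ _).trans (add_le_add (hK _) ((hb _).trans
        (mul_le_mul_of_nonneg_left (hQ n) hb0)))
  obtain ⟨Q, hQ0, hQ⟩ := herr m
  have hstep : ∀ n, 2 * t ^ m * ‖Y n‖ - Q ≤ ‖Y (n + m)‖ := by
    intro n
    have h1 := hker _ (hY n)
    have h2 : ‖(B ^ m).mulVec (Y n)‖ ≤ ‖Y (n + m)‖ + Q := by
      have e1 : (B ^ m).mulVec (Y n) = Y (n + m) - (Y (n + m) - (B ^ m).mulVec (Y n)) := by abel
      rw [e1]
      exact (norm_sub_le _ _).trans (add_le_add le_rfl (hQ n))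
    linarith
  -- a bound for up to `m` steps
  have hup : ∀ k : ℕ, ∃ P R : ℝ, 0 < P ∧ 0 ≤ R ∧ ∀ j ≤ k, ∀ n, ‖Y (n + j)‖ ≤ P * ‖Y n‖ + R := by
    intro k
    induction k with
    | zero =>
      refine ⟨1, 0, one_pos, le_rfl, fun j hj n => ?_⟩
      rw [Nat.le_zero.1 hj]
      simp
    | succ k ih =>
      obtain ⟨P, R, hP, hR, h⟩ := ih
      refine ⟨P + b * P, R + (b * R + K), by positivity, by positivity, fun j hj n => ?_⟩
      have hn0 : 0 ≤ ‖Y n‖ := norm_nonneg _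
      rcases Nat.lt_or_ge k j with h1 | h1
      · have hjk : j = k + 1 := by omega
        subst hjk
        have h2 : ‖Y (n + (k + 1))‖ ≤ K + b * ‖Y (n + k)‖ := by
          have e1 : Y (n + (k + 1)) = (Y (n + k + 1) - B.mulVec (Y (n + k))) + B.mulVec (Y (n + k)) := by
            rw [← add_assoc n k 1]
            abel
          rw [e1]
          exact (norm_add_le _ _).trans (add_le_add (hK _) (hb _))
        have h3 := mul_le_mul_of_nonneg_left (h k le_rfl n) hb0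
        have h4 : 0 ≤ P * ‖Y n‖ := by positivity
        linarith
      · have h2 := h j h1 n
        have h4 : 0 ≤ b * P * ‖Y n‖ := by positivity
        have h5 : 0 ≤ b * R := by positivity
        linarith
  obtain ⟨P, R, hP, hR, hPR⟩ := hup m
  set Q' : ℝ := max Q 1 with hQ'
  have hQ'1 : 1 ≤ Q' := le_max_right _ _
  have hQQ' : Q ≤ Q' := le_max_left _ _
  have htm : 1 ≤ t ^ m := one_le_pow₀ ht.le
  by_cases h : ∃ n₁, m ≤ n₁ ∧ P * (Q' * t ^ m) + R ≤ ‖Y n₁‖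
  · right
    obtain ⟨n₁, hn₁, hbig⟩ := h
    refine ⟨(t ^ n₁)⁻¹, inv_pos.2 (pow_pos ht0 _), n₁ - m, ?_⟩
    have hmain : ∀ k : ℕ, Q' * t ^ k ≤ ‖Y (n₁ - m + k)‖ := by
      intro k
      induction k using Nat.strong_induction_on with
      | _ k ih =>
        rcases Nat.lt_or_ge k (m + 1) with h1 | h1
        · have h2 := hPR (m - k) (Nat.sub_le _ _) (n₁ - m + k)
          have e1 : n₁ - m + k + (m - k) = n₁ := by omega
          rw [e1] at h2
          have h3 : P * (Q' * t ^ m) ≤ P * ‖Y (n₁ - m + k)‖ := by linarith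
          have h4 := le_of_mul_le_mul_left h3 hP
          have h5 : t ^ k ≤ t ^ m := pow_le_pow_right₀ ht.le (by omega)
          exact (mul_le_mul_of_nonneg_left h5 (by linarith)).trans h4
        · have h2 := ih (k - m) (by omega)
          have h3 := hstep (n₁ - m + (k - m))
          have e1 : n₁ - m + (k - m) + m = n₁ - m + k := by omega
          rw [e1] at h3
          have e2 : t ^ k = t ^ m * t ^ (k - m) := by
            rw [← pow_add]
            congr 1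
            omega
          have h4 : 1 ≤ t ^ (k - m) := one_le_pow₀ ht.le
          have h5 : Q' ≤ t ^ m * ‖Y (n₁ - m + (k - m))‖ := by
            have h6 : Q' ≤ ‖Y (n₁ - m + (k - m))‖ := by nlinarith
            nlinarith [norm_nonneg (Y (n₁ - m + (k - m)))]
          have h6 : t ^ m * (Q' * t ^ (k - m)) ≤ t ^ m * ‖Y (n₁ - m + (k - m))‖ :=
            mul_le_mul_of_nonneg_left h2 (by positivity)
          rw [e2]
          linarith
    intro n hn
    have h1 := hmain (n - (n₁ - m))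
    have e1 : n₁ - m + (n - (n₁ - m)) = n := by omega
    rw [e1] at h1
    refine le_trans ?_ h1
    have h2 : t ^ n ≤ t ^ n₁ * t ^ (n - (n₁ - m)) := by
      rw [← pow_add]
      exact pow_le_pow_right₀ ht.le (by omega)
    have h3 : (t ^ n₁)⁻¹ * t ^ n ≤ t ^ (n - (n₁ - m)) := by
      rw [inv_mul_le_iff₀ (pow_pos ht0 _)]
      exact h2
    have h4 : 0 < t ^ (n - (n₁ - m)) := pow_pos ht0 _
    nlinarith
  · left
    push Not at h
    refine ⟨P * (Q' * t ^ m) + R + ∑ k ∈ Finset.range m, ‖Y k‖, fun n => ?_⟩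
    have h0 : 0 ≤ P * (Q' * t ^ m) + R := by positivity
    rcases Nat.lt_or_ge n m with h1 | h1
    · have h2 : ‖Y n‖ ≤ ∑ k ∈ Finset.range m, ‖Y k‖ :=
        Finset.single_le_sum (f := fun k => ‖Y k‖) (fun k _ => norm_nonneg _)
          (Finset.mem_range.2 h1)
      linarith
    · have h2 := h n h1
      have h3 : 0 ≤ ∑ k ∈ Finset.range m, ‖Y k‖ := Finset.sum_nonneg fun k _ => norm_nonneg _
      linarith

theorem dicho2 (B : Matrix ι ι ℂ) (S : Multiset ℂ) (hS : aeval B (LLC.rts S) = 0) {t : ℝ} (ht : 1 < t)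
    (hSt : ∀ z ∈ S, ‖z‖ ≠ t) (X : ℕ → ι → ℂ) {K : ℝ}
    (hK : ∀ n, ‖X (n + 1) - B.mulVec (X n)‖ ≤ K) :
    (∀ r, 1 < r → (∀ z ∈ S, ‖z‖ < t → ‖z‖ < r) → GB r X) ∨
      ∃ c : ℝ, 0 < c ∧ ∃ n₀ : ℕ, ∀ n ≥ n₀, c * t ^ n ≤ ‖X n‖ := by
  classical
  obtain ⟨S₁, hS₁⟩ : ∃ S₁, S₁ = S.filter (fun z => ‖z‖ < t) := ⟨_, rfl⟩
  obtain ⟨S₂, hS₂⟩ : ∃ S₂, S₂ = S.filter (fun z => ¬ ‖z‖ < t) := ⟨_, rfl⟩
  have hSS : S₁ + S₂ = S := by
    rw [hS₁, hS₂]
    exact Multiset.filter_add_not _ _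
  have hrts : LLC.rts S₂ * LLC.rts S₁ = LLC.rts S := by
    rw [← hSS, mul_comm]
    unfold LLC.rts
    rw [Multiset.map_add, Multiset.prod_add]
  obtain ⟨M, hM⟩ : ∃ M : Matrix ι ι ℂ, M = aeval B (LLC.rts S₁) := ⟨_, rfl⟩
  have hcomm : B * M = M * B := by
    have h1 : aeval B (Polynomial.X : ℂ[X]) * aeval B (LLC.rts S₁) = aeval B (LLC.rts S₁) * aeval B (Polynomial.X : ℂ[X]) := by
      rw [← map_mul, ← map_mul, mul_comm]
    rwa [aeval_X, ← hM] at h1
  obtain ⟨K₁, hK₁0, hK₁⟩ := mv_bound M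
  have hK0 : 0 ≤ K := (norm_nonneg _).trans (hK 0)
  have hYe : ∀ n, ‖M.mulVec (X (n + 1)) - B.mulVec (M.mulVec (X n))‖ ≤ K₁ * K := by
    intro n
    rw [Matrix.mulVec_mulVec, hcomm, ← Matrix.mulVec_mulVec, ← Matrix.mulVec_sub]
    exact (hK₁ _).trans (mul_le_mul_of_nonneg_left (hK n) hK₁0)
  have hY0 : ∀ n, (aeval B (LLC.rts S₂)).mulVec (M.mulVec (X n)) = 0 := by
    intro n
    rw [hM, Matrix.mulVec_mulVec, ← map_mul, hrts, hS, Matrix.zero_mulVec]
  have hs2 : ∀ z ∈ S₂, t < ‖z‖ := by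
    intro z hz
    rw [hS₂, Multiset.mem_filter] at hz
    exact lt_of_le_of_ne (not_lt.1 hz.2) (Ne.symm (hSt z hz.1))
  rcases dicho B S₂ ht hs2 (fun n => M.mulVec (X n)) hY0 hYe with ⟨K', hK'⟩ | ⟨c, hc, n₀, hn₀⟩
  · left
    intro r hr hzr
    refine gb_aux B S₁ (fun z hz => ?_) X ?_ ?_
    · rw [hS₁, Multiset.mem_filter] at hz
      exact hzr z hz.1 hz.2
    · rw [← hM]
      exact gb_of_bdd hr.le hK'
    · exact gb_of_bdd hr.le hK
  · right
    refine ⟨c / (K₁ + 1), by positivity, n₀, fun n hn => ?_⟩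
    have h1 := (hn₀ n hn).trans (hK₁ (X n))
    rw [div_mul_eq_mul_div, div_le_iff₀ (by positivity)]
    nlinarith [norm_nonneg (X n)]

theorem exa (A : Matrix ι ι ℤ) (b : ℝ) (H : ℕ → ι → ℝ) (hH0 : ∀ n i, 0 ≤ H n i)
    (hH : ∀ n i, |H (n + 1) i - ∑ j, (A i j : ℝ) * H n j| ≤ b) :
    (∀ ε : ℝ, 0 < ε → ∃ C : ℝ, ∀ n i, H n i ≤ C * (1 + ε) ^ n) ∨
      ∃ z ∈ (A.charpoly.map (Int.castRingHom ℂ)).roots, 1 < ‖z‖ ∧
        Tendsto (fun n : ℕ => (max (∑ i, H n i) 1) ^ ((1 : ℝ) / n)) atTop (𝓝 ‖z‖) := by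
  classical
  obtain ⟨B, hB⟩ : ∃ B : Matrix ι ι ℂ, B = A.map (Int.cast : ℤ → ℂ) := ⟨_, rfl⟩
  obtain ⟨S, hS⟩ : ∃ S, S = (A.charpoly.map (Int.castRingHom ℂ)).roots := ⟨_, rfl⟩
  have hchar : aeval B (LLC.rts S) = 0 := by
    have h0 : B = A.map (Int.castRingHom ℂ) := hB
    have h1 : A.charpoly.map (Int.castRingHom ℂ) = B.charpoly := by
      rw [h0, Matrix.charpoly_map]
    have h2 : LLC.rts S = B.charpoly := by
      rw [hS, h1]
      unfold LLC.rts
      exact ((IsAlgClosed.splits B.charpoly).eq_prod_roots_of_monic B.charpoly_monic).symm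
    rw [h2]
    exact Matrix.aeval_self_charpoly B
  rw [← hS]
  set X : ℕ → ι → ℂ := fun n i => (H n i : ℂ) with hX
  have hK : ∀ n, ‖X (n + 1) - B.mulVec (X n)‖ ≤ |b| := by
    intro n
    rw [pi_norm_le_iff_of_nonneg (abs_nonneg b)]
    intro i
    have h1 : (X (n + 1) - B.mulVec (X n)) i =
        ((H (n + 1) i - ∑ j, (A i j : ℝ) * H n j : ℝ) : ℂ) := by
      rw [Pi.sub_apply, hB]
      simp only [Matrix.mulVec, dotProduct, Matrix.map_apply, hX]
      push_cast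
      rfl
    rw [h1, Complex.norm_real, Real.norm_eq_abs]
    exact (hH n i).trans (le_abs_self b)
  have hHX : ∀ n i, H n i ≤ ‖X n‖ := by
    intro n i
    have h1 := norm_le_pi_norm (X n) i
    rw [hX, Complex.norm_real, Real.norm_eq_abs] at h1
    exact (le_abs_self _).trans h1
  have hXH : ∀ n, ‖X n‖ ≤ ∑ i, H n i := by
    intro n
    have h0 : 0 ≤ ∑ i, H n i := Finset.sum_nonneg fun i _ => hH0 n i
    rw [pi_norm_le_iff_of_nonneg h0]
    intro i
    rw [hX, Complex.norm_real, Real.norm_eq_abs, abs_of_nonneg (hH0 n i)]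
    exact Finset.single_le_sum (fun j _ => hH0 n j) (Finset.mem_univ i)
  by_cases hall : ∀ t : ℝ, 1 < t → GB t X
  · left
    intro ε hε
    obtain ⟨C, hC⟩ := hall (1 + ε) (by linarith)
    exact ⟨C, fun n i => (hHX n i).trans (hC n)⟩
  right
  push Not at hall
  obtain ⟨t₀, ht₀1, ht₀⟩ := hall
  let T : Set ℝ := {t | 1 < t ∧ GB t X}
  have hTup : ∀ t ∈ T, ∀ t', t ≤ t' → t' ∈ T := fun t ht t' htt =>
    ⟨lt_of_lt_of_le ht.1 htt, gb_mono (by linarith [ht.1]) htt ht.2⟩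
  have hTne : T.Nonempty := by
    obtain ⟨R, hR⟩ : ∃ R : ℝ, ∀ z ∈ S, ‖z‖ < R := by
      refine ⟨(S.map fun z => ‖z‖).sum + 1, fun z hz => ?_⟩
      have := Multiset.single_le_sum (s := S.map fun z => ‖z‖) (by
        intro x hx
        obtain ⟨z, -, rfl⟩ := Multiset.mem_map.1 hx
        exact norm_nonneg _) ‖z‖ (Multiset.mem_map_of_mem _ hz)
      linarith
    refine ⟨max R 2, lt_of_lt_of_le one_lt_two (le_max_right _ _), ?_⟩
    refine gb_aux B S (fun z hz => lt_of_lt_of_le (hR z hz) (le_max_left _ _)) X ?_ ?_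
    · refine ⟨0, fun n => ?_⟩
      show ‖(aeval B (LLC.rts S)).mulVec (X n)‖ ≤ _
      rw [hchar, Matrix.zero_mulVec, norm_zero, zero_mul]
    · exact gb_of_bdd ((le_max_right R 2).trans' one_le_two) hK
  have hTbd : ∀ t ∈ T, t₀ ≤ t := by
    intro t ht
    by_contra hlt
    push Not at hlt
    exact ht₀ (hTup t ht t₀ hlt.le).2
  have hTb : BddBelow T := ⟨t₀, hTbd⟩
  obtain ⟨ρ, hρ⟩ : ∃ ρ, ρ = sInf T := ⟨_, rfl⟩
  have hρ1 : 1 < ρ := by
    rw [hρ]
    exact lt_of_lt_of_le ht₀1 (le_csInf hTne hTbd)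
  have hTgt : ∀ t, ρ < t → t ∈ T := by
    intro t ht
    rw [hρ] at ht
    obtain ⟨t', ht', htt'⟩ := exists_lt_of_csInf_lt hTne ht
    exact hTup t' ht' t htt'.le
  have hTlt : ∀ t, 1 < t → t < ρ → ¬ GB t X := by
    intro t ht1 htρ h
    have : ρ ≤ t := by
      rw [hρ]
      exact csInf_le hTb ⟨ht1, h⟩
    linarith
  -- `ρ` is the modulus of a root
  have hroot : ∃ z ∈ S, ‖z‖ = ρ := by
    by_contra hno
    push Not at hno
    obtain ⟨ρ₂, hρ₂, hg⟩ := gap_above (S.filter fun z => ρ < ‖z‖) ρ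
      (fun z hz => (Multiset.mem_filter.1 hz).2)
    obtain ⟨r, hr1, hr2, hr3⟩ := gap_below S hρ1
    have hbig : ∀ z ∈ S, ‖z‖ < (ρ + ρ₂) / 2 → ‖z‖ < ρ := by
      intro z hz hzt
      rcases lt_trichotomy ‖z‖ ρ with h | h | h
      · exact h
      · exact absurd h (hno z hz)
      · have := hg z (Multiset.mem_filter.2 ⟨hz, h⟩)
        linarith
    have hne : ∀ z ∈ S, ‖z‖ ≠ (ρ + ρ₂) / 2 := by
      intro z hz h
      have h1 : ρ < ‖z‖ := by rw [h]; linarith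
      have := hg z (Multiset.mem_filter.2 ⟨hz, h1⟩)
      linarith
    rcases dicho2 B S hchar (t := (ρ + ρ₂) / 2) (by linarith) hne X hK with h | ⟨c, hc, n₀, hn₀⟩
    · exact hTlt r hr1 hr2 (h r hr1 fun z hz hzt => hr3 z hz (hbig z hz hzt))
    · obtain ⟨C, hC⟩ := (hTgt ((3 * ρ + ρ₂) / 4) (by linarith)).2
      have h1 := ev_lt (t := (3 * ρ + ρ₂) / 4) (a := (ρ + ρ₂) / 2) (by linarith) (by linarith) (C / c)
      obtain ⟨n, hn1, hn2⟩ := (h1.and (eventually_ge_atTop n₀)).exists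
      have h2 := (hn₀ n hn2).trans (hC n)
      have h3 : C * ((3 * ρ + ρ₂) / 4) ^ n < c * ((ρ + ρ₂) / 2) ^ n := by
        have := mul_lt_mul_of_pos_left hn1 hc
        calc C * ((3 * ρ + ρ₂) / 4) ^ n = c * (C / c * ((3 * ρ + ρ₂) / 4) ^ n) := by
              field_simp
          _ < _ := this
      linarith
  obtain ⟨z, hzS, hzρ⟩ := hroot
  refine ⟨z, hzS, by rw [hzρ]; exact hρ1, ?_⟩
  rw [hzρ, tendsto_order]
  constructor
  · intro a ha
    obtain ⟨r, hr1, hr2, hr3⟩ := gap_below S hρ1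
    obtain ⟨t, ht1, ht2⟩ := exists_between (max_lt ha (max_lt hr2 hρ1))
    have hta : a < t := lt_of_le_of_lt (le_max_left _ _) ht1
    have htr : r < t := lt_of_le_of_lt ((le_max_left _ _).trans (le_max_right _ _)) ht1
    have ht1' : 1 < t := by linarith
    have hne : ∀ z ∈ S, ‖z‖ ≠ t := by
      intro z hz h
      have := hr3 z hz (by rw [h]; exact ht2)
      linarith
    rcases dicho2 B S hchar ht1' hne X hK with h | ⟨c, hc, n₀, hn₀⟩
    · exact absurd (h r hr1 fun z hz hzt => hr3 z hz (hzt.trans ht2)) (hTlt r hr1 hr2)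
    · have h1 := ev_lt (t := max a 1) (a := t) (by positivity) (max_lt hta ht1') (1 / c)
      filter_upwards [h1, eventually_ge_atTop n₀, eventually_ge_atTop 1] with n hn1 hn2 hn3
      have hn0 : n ≠ 0 := by omega
      have h2 : (max a 1) ^ n < max (∑ i, H n i) 1 := by
        refine lt_of_lt_of_le ?_ (le_max_left _ _)
        refine lt_of_lt_of_le ?_ ((hn₀ n hn2).trans (hXH n))
        have := mul_lt_mul_of_pos_left hn1 hc
        calc (max a 1) ^ n = c * (1 / c * (max a 1) ^ n) := by field_simp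
          _ < _ := this
      have h3 : max a 1 < (max (∑ i, H n i) 1) ^ ((1 : ℝ) / n) := by
        have h4 := Real.rpow_lt_rpow (by positivity) h2
          (show (0 : ℝ) < (1 : ℝ) / n by positivity)
        rwa [one_div, Real.pow_rpow_inv_natCast (by positivity) hn0, ← one_div] at h4
      exact lt_of_le_of_lt (le_max_left _ _) h3
  · intro a ha
    obtain ⟨t, ht1, ht2⟩ := exists_between ha
    obtain ⟨C, hC⟩ := (hTgt t ht1).2
    have ht0 : 0 < t := by linarith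
    have h1 := ev_lt ht0.le ht2 (Fintype.card ι * |C| + 1)
    filter_upwards [h1, eventually_ge_atTop 1] with n hn1 hn3
    have hn0 : n ≠ 0 := by omega
    have htn : 1 ≤ t ^ n := one_le_pow₀ (by linarith)
    have h2 : max (∑ i, H n i) 1 < a ^ n := by
      refine lt_of_le_of_lt (max_le ?_ ?_) hn1
      · calc ∑ i, H n i ≤ ∑ _i : ι, |C| * t ^ n := by
              refine Finset.sum_le_sum fun i _ => (hHX n i).trans ((hC n).trans ?_)
              exact mul_le_mul_of_nonneg_right (le_abs_self C) (by positivity)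
          _ = Fintype.card ι * (|C| * t ^ n) := by
              rw [Finset.sum_const, Finset.card_univ, nsmul_eq_mul]
          _ ≤ _ := by nlinarith
      · have : (0 : ℝ) ≤ Fintype.card ι * |C| := by positivity
        nlinarith
    have ha0 : 0 ≤ a := by linarith
    have h4 := Real.rpow_lt_rpow (by positivity) h2 (show (0 : ℝ) < (1 : ℝ) / n by positivity)
    rwa [one_div, Real.pow_rpow_inv_natCast ha0 hn0, ← one_div] at h4

end Pool.Agent.KST
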