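import Pool.Agent.KST.Jdefs

/-!
# KST JKER: kernel vectors of small height

PROOF.  Let `M` have a nonzero kernel. Choose `k` maximal such that there are injective `I : Fin k → ρ`, `J : Fin k → κ` with
`det (M.submatrix I J) ≠ 0` (`k = 0` is allowed: the determinant of the empty matrix is `1`). If `J` were onto, then
`M.submatrix I J` would be invertible and `M p = 0` would give `p = 0`: so there is `j ∉ range J`. Put
`p j = det (M.submatrix I J)`, `p (J b) = - (adjugate (M.submatrix I J) *ᵥ (M (I ·) j)) b`, `p = 0` elsewhere. `p ≠ 0`. The rows `I a`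
of `M p` vanish (`M' * adj M' = det M'`). For any other row `i`: `det` of the `(k+1) × (k+1)` minor with the rows `I, i` and
the columns `J, j` is zero (maximality; if `i` is in the range of `I` it is clear), and the row `i` of `M p` is up to a sign this
determinant: or argue: the row `M i (J ·)` is a combination `∑_a t_a M (I a) (J ·)` (invertible `M'`), and
`M i j = ∑_a t_a M (I a) j`: otherwise the `(k+1)`-minor would be nonzero (subtract the combination from the last row: the
determinant is `± det M' * (M i j - ∑ t_a M (I a) j)`); so row `i` of `M p` is the combination of the rows `I a` of `M p`.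
HEIGHT. For fixed `k, I, J, j` all the entries of `p` are expressions `∑_{σ} ± ∏_{a : Fin k} M ...` (determinants of the matrix with
one column replaced, Cramer: `Matrix.cramer`), i.e. of the form of `multi` (`PBK/Multi.lean`) with `J = Fin k`, all
`A a = ` the vector `q ↦ M q.1 q.2` (it is not zero if `k ≥ 1`; if `k = 0` then `p = Pi.single j 1`, of height `0`): so
`absHeight p ≤ k * absHeight M + C`. There are finitely many `(k, I, J, j)`; take the maximum of the constants.
-/

set_option autoImplicit false

open MvPolynomial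

namespace Pool.Agent.KST

open Pool.Agent.Helper63.WH Pool.Agent.PBK

variable {E : Type*} [Field E] [CharZero E] [Algebra.IsAlgebraic ℚ E]

/-- The coefficients of the determinant as a polynomial in the entries of the matrix. -/
private noncomputable def dk {E : Type*} [Field E] {ρ κ : Type} [DecidableEq ρ] [DecidableEq κ]
    {k : ℕ} (I : Fin k → ρ) (K : Fin k → κ) (F : Fin k → ρ × κ) : E :=
  ∑ σ : Equiv.Perm (Fin k), ((Equiv.Perm.sign σ : ℤ) : E) *
    (if F = (fun a => (I (σ a), K a)) then 1 else 0)

private lemma det_dk {E : Type*} [Field E] {ρ κ : Type} [Fintype ρ] [Fintype κ] [DecidableEq ρ]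
    [DecidableEq κ] {k : ℕ} (M : Matrix ρ κ E) (I : Fin k → ρ) (K : Fin k → κ) :
    (M.submatrix I K).det = ∑ F : Fin k → ρ × κ, dk I K F * ∏ a, M (F a).1 (F a).2 := by
  simp only [dk, Finset.sum_mul]
  rw [Finset.sum_comm, Matrix.det_apply']
  refine Finset.sum_congr rfl fun σ _ => ?_
  simp only [mul_ite, mul_one, mul_zero, ite_mul, zero_mul, Finset.sum_ite_eq', Finset.mem_univ,
    if_true, Matrix.submatrix_apply]

private lemma exists_minor {E : Type*} [Field E] {ρ κ : Type} [Fintype ρ] [Fintype κ]
    (M : Matrix ρ κ E) : ∃ k ≤ Fintype.card κ,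
      (∃ (I : Fin k → ρ) (J : Fin k → κ), (M.submatrix I J).det ≠ 0) ∧
      ∀ (I : Fin (k + 1) → ρ) (J : Fin (k + 1) → κ), (M.submatrix I J).det = 0 := by
  classical
  have hex : ∃ k, ∀ (I : Fin (k + 1) → ρ) (J : Fin (k + 1) → κ), (M.submatrix I J).det = 0 := by
    refine ⟨Fintype.card κ, fun I J => ?_⟩
    have h1 : ¬ Function.Injective J := by
      intro h
      have := Fintype.card_le_of_injective J h
      rw [Fintype.card_fin] at this
      omega
    rw [Function.Injective] at h1
    push Not at h1
    obtain ⟨a, b, hab, hne⟩ := h1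
    exact Matrix.det_zero_of_column_eq hne fun i => by
      rw [Matrix.submatrix_apply, Matrix.submatrix_apply, hab]
  refine ⟨Nat.find hex, ?_, ?_, Nat.find_spec hex⟩
  · apply Nat.find_le
    intro I J
    have h1 : ¬ Function.Injective J := by
      intro h
      have := Fintype.card_le_of_injective J h
      rw [Fintype.card_fin] at this
      omega
    rw [Function.Injective] at h1
    push Not at h1
    obtain ⟨a, b, hab, hne⟩ := h1
    exact Matrix.det_zero_of_column_eq hne fun i => by
      rw [Matrix.submatrix_apply, Matrix.submatrix_apply, hab]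
  · rcases h : Nat.find hex with _ | m
    · exact ⟨Fin.elim0, Fin.elim0, by rw [Matrix.det_isEmpty]; exact one_ne_zero⟩
    · have h1 := Nat.find_min hex (m := m) (by omega)
      push Not at h1
      exact h1

/-- Cramer's rule for a kernel vector. -/
private lemma row_eq {E : Type*} [Field E] {ρ κ : Type} [Fintype κ] {k : ℕ} (M : Matrix ρ κ E)
    (I : Fin k → ρ) (J : Fin k → κ) (hd : (M.submatrix I J).det ≠ 0)
    (hmax : ∀ (I : Fin (k + 1) → ρ) (J : Fin (k + 1) → κ), (M.submatrix I J).det = 0)
    (i : ρ) (j : κ) :
    M i j * (M.submatrix I J).det =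
      ∑ b, M i (J b) * (M.submatrix I J).cramer (fun a => M (I a) j) b := by
  classical
  set A := M.submatrix I J with hA
  set B : Fin k → E := fun a => M (I a) j with hB
  let N : Matrix (Fin k ⊕ Fin 1) (Fin k ⊕ Fin 1) E :=
    M.submatrix (Sum.elim I fun _ => i) (Sum.elim J fun _ => j)
  have hN : N.det = 0 := by
    rw [← Matrix.det_submatrix_equiv_self (finSumFinEquiv (m := k) (n := 1)).symm N]
    exact hmax _ _
  obtain ⟨w, hw0, hw⟩ := Matrix.exists_mulVec_eq_zero_iff.2 hN
  set u : Fin k → E := fun b => w (Sum.inl b) with hu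
  set c : E := w (Sum.inr 0) with hc
  have h1 : ∀ a, A.mulVec u a + B a * c = 0 := by
    intro a
    have h := congrFun hw (Sum.inl a)
    simp only [Matrix.mulVec, dotProduct, Fintype.sum_sum_type, Fin.sum_univ_one,
      Pi.zero_apply] at h
    exact h
  have h2 : ∑ b, M i (J b) * u b + M i j * c = 0 := by
    have h := congrFun hw (Sum.inr 0)
    simp only [Matrix.mulVec, dotProduct, Fintype.sum_sum_type, Fin.sum_univ_one,
      Pi.zero_apply] at h
    exact h
  have hc0 : c ≠ 0 := by
    intro h
    apply hw0
    have hu0 : u = 0 := by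
      refine Matrix.eq_zero_of_mulVec_eq_zero hd (funext fun a => ?_)
      have := h1 a
      rwa [h, mul_zero, add_zero] at this
    funext x
    rcases x with b | b
    · exact congrFun hu0 b
    · rw [Subsingleton.elim b 0]
      exact h
  have hy : A.mulVec (A.cramer B) = A.det • B := Matrix.mulVec_cramer A B
  have hv : A.det • u + c • A.cramer B = 0 := by
    refine Matrix.eq_zero_of_mulVec_eq_zero hd ?_
    rw [Matrix.mulVec_add, Matrix.mulVec_smul, Matrix.mulVec_smul, hy]
    funext a
    have h := h1 a
    simp only [Pi.add_apply, Pi.smul_apply, smul_eq_mul, Pi.zero_apply]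
    have h' : A.mulVec u a = - (B a * c) := by linear_combination h
    rw [h']
    ring
  have hv' : ∀ b, c * A.cramer B b = - (A.det * u b) := by
    intro b
    have h := congrFun hv b
    simp only [Pi.add_apply, Pi.smul_apply, smul_eq_mul, Pi.zero_apply] at h
    linear_combination h
  apply mul_left_cancel₀ hc0
  have h3 : c * ∑ b, M i (J b) * A.cramer B b = - (A.det * ∑ b, M i (J b) * u b) := by
    rw [Finset.mul_sum, Finset.mul_sum, ← Finset.sum_neg_distrib]
    refine Finset.sum_congr rfl fun b _ => ?_
    calc c * (M i (J b) * A.cramer B b) = M i (J b) * (c * A.cramer B b) := by ring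
      _ = - (A.det * (M i (J b) * u b)) := by rw [hv' b]; ring
  rw [h3]
  linear_combination A.det * h2

theorem ker_ht (ρ κ : Type) [Fintype ρ] [Fintype κ] : ∃ B : ℝ, 0 ≤ B ∧
    ∀ M : Matrix ρ κ E, (∃ p : κ → E, p ≠ 0 ∧ M.mulVec p = 0) →
      ∃ p : κ → E, p ≠ 0 ∧ M.mulVec p = 0 ∧
        absHeight p ≤ B * (1 + absHeight fun q : ρ × κ => M q.1 q.2) := by
  classical
  let Θ := Σ k : Fin (Fintype.card κ + 1), ((Fin k → ρ) × (Fin k → κ) × κ)
  let coef : (θ : Θ) → κ → (Fin θ.1 → ρ × κ) → E := fun θ q F =>
    (if q = θ.2.2.2 then dk θ.2.1 θ.2.2.1 F else 0) -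
      ∑ b, if q = θ.2.2.1 b then dk θ.2.1 (Function.update θ.2.2.1 b θ.2.2.2) F else 0
  choose C hC0 hC using fun θ : Θ =>
    multi (E := E) (κ := κ) (J := Fin θ.1) (σ := fun _ => ρ × κ) (coef θ)
  have hCs : 0 ≤ ∑ θ, C θ := Finset.sum_nonneg fun θ _ => hC0 θ
  refine ⟨Fintype.card κ + ∑ θ, C θ, add_nonneg (Nat.cast_nonneg _) hCs, ?_⟩
  rintro M ⟨p₀, hp₀, hMp₀⟩
  obtain ⟨k, hk, ⟨I, J, hd⟩, hmax⟩ := exists_minor M
  -- `J` is injective
  have hJ : Function.Injective J := by
    intro a b hab
    by_contra hne
    exact hd (Matrix.det_zero_of_column_eq hne fun i => by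
      rw [Matrix.submatrix_apply, Matrix.submatrix_apply, hab])
  -- a column outside
  obtain ⟨j, hj⟩ : ∃ j, ∀ b, J b ≠ j := by
    by_contra hcon
    push Not at hcon
    apply hp₀
    have h1 : (fun b => p₀ (J b)) = 0 := by
      refine Matrix.eq_zero_of_mulVec_eq_zero hd (funext fun a => ?_)
      have h2 := congrFun hMp₀ (I a)
      simp only [Matrix.mulVec, dotProduct, Pi.zero_apply, Matrix.submatrix_apply] at h2 ⊢
      rw [← h2]
      exact (Equiv.ofBijective J ⟨hJ, hcon⟩).sum_comp (fun q => M (I a) q * p₀ q)
    funext q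
    obtain ⟨b, rfl⟩ := hcon q
    exact congrFun h1 b
  set A := M.submatrix I J with hA
  let p : κ → E := fun q => (if q = j then A.det else 0) -
    ∑ b, if q = J b then A.cramer (fun a => M (I a) j) b else 0
  refine ⟨p, ?_, ?_, ?_⟩
  · intro h
    have h1 : p j = A.det := by
      show (if j = j then A.det else 0) -
        ∑ b, (if j = J b then A.cramer (fun a => M (I a) j) b else 0) = A.det
      rw [if_pos rfl, Finset.sum_eq_zero, sub_zero]
      intro b _
      rw [if_neg (hj b).symm]
    rw [h] at h1
    exact hd h1.symm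
  · funext i
    have h1 := row_eq M I J hd hmax i j
    show ∑ q, M i q * ((if q = j then A.det else 0) -
      ∑ b, (if q = J b then A.cramer (fun a => M (I a) j) b else 0)) = 0
    simp only [mul_sub, Finset.sum_sub_distrib, mul_ite, mul_zero, Finset.sum_ite_eq',
      Finset.mem_univ, if_true, Finset.mul_sum]
    rw [Finset.sum_comm]
    simp only [Finset.sum_ite_eq', Finset.mem_univ, if_true]
    rw [h1, sub_self]
  · let θ : Θ := ⟨⟨k, Nat.lt_succ_of_le hk⟩, I, J, j⟩
    have hp : p = fun q => ∑ F : Fin k → ρ × κ, coef θ q F * ∏ a, M (F a).1 (F a).2 := by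
      funext q
      show (if q = j then A.det else 0) -
        ∑ b, (if q = J b then A.cramer (fun a => M (I a) j) b else 0) =
        ∑ F : Fin k → ρ × κ, ((if q = j then dk I J F else 0) -
          ∑ b, if q = J b then dk I (Function.update J b j) F else 0) * ∏ a, M (F a).1 (F a).2
      simp only [sub_mul, Finset.sum_sub_distrib, ite_mul, zero_mul, Finset.sum_mul]
      rw [Finset.sum_comm (s := (Finset.univ : Finset (Fin k → ρ × κ)))]
      congr 1
      · by_cases h : q = j
        · simp only [if_pos h]
          exact det_dk M I J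
        · simp only [if_neg h, Finset.sum_const_zero]
      · refine Finset.sum_congr rfl fun b _ => ?_
        by_cases h : q = J b
        · simp only [if_pos h]
          rw [← det_dk M I (Function.update J b j), Matrix.cramer_apply]
          congr 1
          ext a b'
          change A.updateCol b (fun a => M (I a) j) a b' = M (I a) (Function.update J b j b')
          by_cases hb : b' = b
          · subst hb
            rw [Matrix.updateCol_self, Function.update_self]
          · rw [Matrix.updateCol_ne hb, Function.update_of_ne hb]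
            rfl
        · simp only [if_neg h, Finset.sum_const_zero]
    have hM0 : ∀ _ : Fin k, (fun q : ρ × κ => M q.1 q.2) ≠ 0 := by
      intro a h
      apply hd
      have h1 : ∀ r q, M r q = 0 := fun r q => congrFun h (r, q)
      refine Matrix.det_eq_zero_of_row_eq_zero a fun b => ?_
      rw [hA, Matrix.submatrix_apply, h1]
    have h1 := hC θ (fun _ => fun q : ρ × κ => M q.1 q.2) hM0
    have h2 : absHeight p ≤ (k : ℝ) * absHeight (fun q : ρ × κ => M q.1 q.2) + C θ := by
      rw [hp]
      refine h1.trans (le_of_eq ?_)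
      rw [Finset.sum_const, Finset.card_univ, nsmul_eq_mul]
      congr 2
      exact_mod_cast Fintype.card_fin k
    have h3 : C θ ≤ ∑ θ, C θ := Finset.single_le_sum (fun θ _ => hC0 θ) (Finset.mem_univ θ)
    have hh : 0 ≤ absHeight (fun q : ρ × κ => M q.1 q.2) := absHeight_nonneg _
    have hk' : (k : ℝ) ≤ Fintype.card κ := by exact_mod_cast hk
    have h4 : (k : ℝ) * absHeight (fun q : ρ × κ => M q.1 q.2) ≤
        Fintype.card κ * absHeight (fun q : ρ × κ => M q.1 q.2) :=
      mul_le_mul_of_nonneg_right hk' hh
    have h5 : 0 ≤ (∑ θ, C θ) * absHeight (fun q : ρ × κ => M q.1 q.2) := mul_nonneg hCs hh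
    have h6 : (0 : ℝ) ≤ Fintype.card κ := Nat.cast_nonneg _
    linarith

end Pool.Agent.KST
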