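import Pool.Agent.KST.Jkru
import Pool.Agent.KST.Jker

/-!
# KST JINT: a map of bounded degree is determined by a jet, with control of the heights

PROOF.  `basis_mod V Q` gives `D`, `v`. Let `r ≥ 1` be such that `krull` holds with it for the finite dimensional space spanned by the
products of two elements of `V` (`V * V`; `krull` for `r` gives it for all larger `r`). Let `U` be the span of the finitely many
`v b * ∏ (X - C a)^α`, `α : MI W r`, and `I = Q ⊔ mx a ^ (r+1)`; `fams U I` gives `λ_i`, `i : Fin m`. For `c : W × MI W r → E` let `M c` be the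
matrix with the rows `(i, w, w')` and the columns `(w'', b)` and the entries
`∑ α, ((if w'' = w then c (w', α) else 0) - (if w'' = w' then c (w, α) else 0)) * λ_i (v b * ∏ (X - C a)^α)`.
For `p : W × Fin D → E` and `P' w = ∑ b, C (p (w, b)) * v b` the entry `(i, w, w')` of `M c *ᵥ p` is `λ_i (P' w * jt r a c w' - P' w' * jt r a c w)`.
(1) `M c` has a nonzero kernel: `P w - ∑ b, C (p⁰ (w, b)) * v b ∈ Q`, `p⁰ ≠ 0` as some `P w ∉ Q`, and the `λ_i` vanish on
`I ⊇ Q`, so `M c p⁰ = 0`.
(2) `ker_ht` gives `p ≠ 0` with `M c p = 0`, `absHeight p ≤ B (1 + absHeight (M c)) ≤ B' (1 + absHeight c)` (`absHeight_lin` in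
`PBK/Multi.lean`: the entries of `M c` are linear in `c` with fixed coefficients). Some `P' w ∉ Q` (property of `v`). All the
`P' w * jt w' - P' w' * jt w` are in `U` and killed by the `λ_i`, so they are in `I`.
(3) With `c (w₀, zi) ≠ 0`: `eval a (jt r a c w₀) = c (w₀, zi)` (all the other terms vanish at `a`). In `R ⧸ I`:
`jt w₀ * jt w₀ * (P' w * P w' - P' w' * P w) = (P' w * jt w₀) (P w' * jt w₀) - (P' w' * jt w₀) (P w * jt w₀)
= (P' w₀ * jt w) (P w₀ * jt w') - (P' w₀ * jt w') (P w₀ * jt w) = 0`, so `P' w * P w' - P' w' * P w ∈ I` by `cancel_at` (twice), and it is in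
`V * V`, so it is in `Q` (`krull`).
-/

set_option autoImplicit false

open MvPolynomial

namespace Pool.Agent.KST

open Pool.Agent.Helper63.WH Pool.Agent.PBK

variable {E : Type*} [Field E] [CharZero E] [Algebra.IsAlgebraic ℚ E] {W : Type} [Fintype W]

/-- the monomial with exponent `α` at `a` -/
private noncomputable def jmon (a : W → E) {r : ℕ} (α : MI W r) : MvPolynomial W E :=
  ∏ w', (X w' - C (a w')) ^ α.1 w'

omit [CharZero E] [Algebra.IsAlgebraic ℚ E] in
private lemma jt_eval (r : ℕ) (a : W → E) (c : W × MI W r → E) (w : W) :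
    eval a (jt r a c w) = c (w, zi W r) := by
  classical
  rw [jt, map_sum, Finset.sum_eq_single (zi W r)]
  · rw [map_mul, eval_C, map_prod, Finset.prod_eq_one, mul_one]
    intro w' _
    have h : (zi W r).1 w' = 0 := rfl
    rw [h, pow_zero, map_one]
  · intro α _ hα
    have h1 : ∃ w', α.1 w' ≠ 0 := by
      by_contra! hcon
      apply hα
      apply Subtype.ext
      ext w'
      exact hcon w'
    obtain ⟨w', hw'⟩ := h1
    rw [map_mul, map_prod, Finset.prod_eq_zero (Finset.mem_univ w'), mul_zero]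
    rw [map_pow, map_sub, eval_X, eval_C, sub_self, zero_pow hw']
  · intro h
    exact absurd (Finset.mem_univ _) h

omit [CharZero E] [Algebra.IsAlgebraic ℚ E] in
private lemma jt_mul (r : ℕ) (a : W → E) (c : W × MI W r → E) (w' : W) {D : ℕ}
    (v : Fin D → MvPolynomial W E) (q : Fin D → E) :
    (∑ b, C (q b) * v b) * jt r a c w' =
      ∑ b, ∑ α : MI W r, (q b * c (w', α)) • (v b * jmon a α) := by
  rw [jt, Finset.sum_mul_sum]
  refine Finset.sum_congr rfl fun b _ => Finset.sum_congr rfl fun α _ => ?_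
  rw [MvPolynomial.smul_eq_C_mul, C_mul, jmon]
  ring

/-- the coefficients of the matrix -/
private noncomputable def jL (a : W → E) (r : ℕ) {D n : ℕ} (v : Fin D → MvPolynomial W E)
    (ℓ : Fin n → MvPolynomial W E →ₗ[E] E) [DecidableEq W]
    (q : (Fin n × W × W) × (W × Fin D)) (x : W × MI W r) : E :=
  ((if q.2.1 = q.1.2.1 ∧ x.1 = q.1.2.2 then 1 else 0) -
    (if q.2.1 = q.1.2.2 ∧ x.1 = q.1.2.1 then 1 else 0)) * ℓ q.1.1 (v q.2.2 * jmon a x.2)

omit [CharZero E] [Algebra.IsAlgebraic ℚ E] in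
private lemma jM_mul (a : W → E) (r : ℕ) {D n : ℕ} (v : Fin D → MvPolynomial W E)
    (ℓ : Fin n → MvPolynomial W E →ₗ[E] E) [DecidableEq W] (c : W × MI W r → E)
    (p : W × Fin D → E) (i : Fin n) (w w' : W) :
    (Matrix.of fun (ρ : Fin n × W × W) (κ : W × Fin D) =>
      ∑ x, jL a r v ℓ (ρ, κ) x * c x).mulVec p (i, w, w') =
    ℓ i ((∑ b, C (p (w, b)) * v b) * jt r a c w' - (∑ b, C (p (w', b)) * v b) * jt r a c w) := by
  have h1 : ∀ u u' : W, ℓ i ((∑ b, C (p (u, b)) * v b) * jt r a c u') =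
      ∑ b, ∑ α : MI W r, (p (u, b) * c (u', α)) * ℓ i (v b * jmon a α) := by
    intro u u'
    rw [jt_mul, map_sum]
    refine Finset.sum_congr rfl fun b _ => ?_
    rw [map_sum]
    refine Finset.sum_congr rfl fun α _ => ?_
    rw [map_smul, smul_eq_mul]
  have h2 : ∀ u u' : W, ∑ x : W × Fin D, ∑ y : W × MI W r,
      (if x.1 = u ∧ y.1 = u' then (1 : E) else 0) * ℓ i (v x.2 * jmon a y.2) * c y * p x =
      ∑ b, ∑ α : MI W r, (p (u, b) * c (u', α)) * ℓ i (v b * jmon a α) := by
    intro u u'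
    rw [Fintype.sum_prod_type, Finset.sum_eq_single u]
    · refine Finset.sum_congr rfl fun b _ => ?_
      rw [Fintype.sum_prod_type, Finset.sum_eq_single u']
      · refine Finset.sum_congr rfl fun α _ => ?_
        rw [if_pos ⟨rfl, rfl⟩]
        ring
      · intro y _ hy
        refine Finset.sum_eq_zero fun α _ => ?_
        rw [if_neg (fun h => hy h.2)]
        ring
      · intro h
        exact absurd (Finset.mem_univ _) h
    · intro x _ hx
      refine Finset.sum_eq_zero fun b _ => Finset.sum_eq_zero fun y _ => ?_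
      rw [if_neg (fun h => hx h.1)]
      ring
    · intro h
      exact absurd (Finset.mem_univ _) h
  rw [map_sub, h1, h1, ← h2, ← h2, ← Finset.sum_sub_distrib, Matrix.mulVec, dotProduct]
  refine Finset.sum_congr rfl fun x _ => ?_
  rw [← Finset.sum_sub_distrib, Matrix.of_apply, Finset.sum_mul]
  refine Finset.sum_congr rfl fun y _ => ?_
  rw [jL]
  ring

theorem interp (Q : Ideal (MvPolynomial W E)) (hQ : Q.IsPrime) (a : W → E) (ha : Q ≤ mx a)
    (V : Submodule E (MvPolynomial W E)) [FiniteDimensional E V] :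
    ∃ (r D : ℕ) (v : Fin D → MvPolynomial W E) (B : ℝ), 1 ≤ r ∧ (∀ b, v b ∈ V) ∧ 0 ≤ B ∧
      ∀ (c : W × MI W r → E) (P : W → MvPolynomial W E), (∃ w, c (w, zi W r) ≠ 0) →
        (∀ w, P w ∈ V) → (∃ w, P w ∉ Q) →
        (∀ w w', P w * jt r a c w' - P w' * jt r a c w ∈ Q ⊔ mx a ^ (r + 1)) →
        ∃ p : W × Fin D → E, absHeight p ≤ B * (1 + absHeight c) ∧
          (∃ w, ∑ b, C (p (w, b)) * v b ∉ Q) ∧
          ∀ w w', (∑ b, C (p (w, b)) * v b) * P w' - (∑ b, C (p (w', b)) * v b) * P w ∈ Q := by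
  classical
  obtain ⟨D, v, hv, hvP, hvQ⟩ := basis_mod V Q
  have hVV : FiniteDimensional E (V * V : Submodule E (MvPolynomial W E)) := by
    have h1 : V.FG := (Submodule.fg_iff_finiteDimensional V).2 inferInstance
    exact (Submodule.fg_iff_finiteDimensional _).1 (h1.mul h1)
  obtain ⟨r₀, hr₀⟩ := krull Q hQ a ha (V * V)
  set r := max r₀ 1 with hr
  set I := Q ⊔ mx a ^ (r + 1) with hI
  have hII : I ≤ Q ⊔ mx a ^ (r₀ + 1) := by
    refine sup_le_sup_left (Ideal.pow_le_pow_right ?_) _
    have := le_max_left r₀ 1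
    omega
  set U : Submodule E (MvPolynomial W E) :=
    Submodule.span E (Set.range fun x : Fin D × MI W r => v x.1 * jmon a x.2) with hU
  have hUfin : FiniteDimensional E U := FiniteDimensional.span_of_finite E (Set.finite_range _)
  obtain ⟨n, ℓ, hℓI, hℓU⟩ := fams U I
  obtain ⟨B, hB, hker⟩ := ker_ht (E := E) (Fin n × W × W) (W × Fin D)
  obtain ⟨K, hK, hlin⟩ := absHeight_lin (jL a r v ℓ)
  refine ⟨r, D, v, B * (1 + K), le_max_right _ _, hv, mul_nonneg hB (by linarith), ?_⟩
  intro c P ⟨w₀, hw₀⟩ hPV ⟨w₁, hw₁⟩ hP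
  choose p₀ hp₀ using fun w => hvP (P w) (hPV w)
  set M : Matrix (Fin n × W × W) (W × Fin D) E :=
    Matrix.of fun ρ κ => ∑ x, jL a r v ℓ (ρ, κ) x * c x with hM
  have hQI : Q ≤ I := le_sup_left
  have hker1 : ∃ p : W × Fin D → E, p ≠ 0 ∧ M.mulVec p = 0 := by
    refine ⟨fun x => p₀ x.1 x.2, ?_, ?_⟩
    · intro h0
      have h1 : ∀ b, p₀ w₁ b = 0 := fun b => congrFun h0 (w₁, b)
      have h2 := hp₀ w₁
      simp only [h1, map_zero, zero_mul, Finset.sum_const_zero, sub_zero] at h2
      exact hw₁ h2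
    · funext ρ
      obtain ⟨i, w, w'⟩ := ρ
      rw [hM, jM_mul, Pi.zero_apply]
      apply hℓI
      have h1 := I.sub_mem (hP w w') (I.sub_mem (I.mul_mem_right (jt r a c w') (hQI (hp₀ w)))
        (I.mul_mem_right (jt r a c w) (hQI (hp₀ w'))))
      have h2 : P w * jt r a c w' - P w' * jt r a c w -
          ((P w - ∑ b, C (p₀ w b) * v b) * jt r a c w' -
            (P w' - ∑ b, C (p₀ w' b) * v b) * jt r a c w) =
          (∑ b, C (p₀ w b) * v b) * jt r a c w' - (∑ b, C (p₀ w' b) * v b) * jt r a c w := by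
        ring
      rw [h2] at h1
      exact h1
  obtain ⟨p, hp0, hpM, hpH⟩ := hker M hker1
  refine ⟨p, ?_, ?_, ?_⟩
  · have h1 := hlin c
    have h2 : absHeight (fun q : (Fin n × W × W) × (W × Fin D) => M q.1 q.2) ≤
        absHeight c + K := h1
    have h3 := absHeight_nonneg (E := E) c
    calc absHeight p ≤ B * (1 + absHeight fun q : (Fin n × W × W) × (W × Fin D) => M q.1 q.2) :=
          hpH
      _ ≤ B * (1 + (absHeight c + K)) := by gcongr
      _ ≤ B * ((1 + K) * (1 + absHeight c)) := by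
          apply mul_le_mul_of_nonneg_left _ hB
          nlinarith
      _ = B * (1 + K) * (1 + absHeight c) := by ring
  · by_contra! hcon
    apply hp0
    funext x
    obtain ⟨w, b⟩ := x
    exact congrFun (hvQ (fun b => p (w, b)) (hcon w)) b
  · have hkill : ∀ w w', (∑ b, C (p (w, b)) * v b) * jt r a c w' -
        (∑ b, C (p (w', b)) * v b) * jt r a c w ∈ I := by
      intro w w'
      apply hℓU
      · have h1 : ∀ u u' : W, (∑ b, C (p (u, b)) * v b) * jt r a c u' ∈ U := by
          intro u u'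
          rw [jt_mul]
          exact U.sum_mem fun b _ => U.sum_mem fun α _ =>
            U.smul_mem _ (Submodule.subset_span ⟨(b, α), rfl⟩)
        exact U.sub_mem (h1 w w') (h1 w' w)
      · intro i
        rw [← jM_mul a r v ℓ c p i w w']
        exact congrFun hpM (i, w, w')
    have hV' : ∀ w, ∑ b, C (p (w, b)) * v b ∈ V := by
      intro w
      refine V.sum_mem fun b _ => ?_
      rw [← MvPolynomial.smul_eq_C_mul]
      exact V.smul_mem _ (hv b)
    intro w w'
    apply hr₀
    · exact Submodule.sub_mem _ (Submodule.mul_mem_mul (hV' w) (hPV w'))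
        (Submodule.mul_mem_mul (hV' w') (hPV w))
    · apply hII
      have hJ : eval a (jt r a c w₀) ≠ 0 := by rwa [jt_eval]
      have hmx : mx a ^ (r + 1) ≤ I := le_sup_right
      apply cancel_at a I (r + 1) hmx _ _ hJ
      apply cancel_at a I (r + 1) hmx _ _ hJ
      set J := jt r a c w₀
      set F : W → MvPolynomial W E := fun w => ∑ b, C (p (w, b)) * v b
      have h1 : F w * J - F w₀ * jt r a c w ∈ I := hkill w w₀
      have h2 : F w' * J - F w₀ * jt r a c w' ∈ I := hkill w' w₀
      have h3 : P w * J - P w₀ * jt r a c w ∈ I := hP w w₀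
      have h4 : P w' * J - P w₀ * jt r a c w' ∈ I := hP w' w₀
      have h5 := I.sub_mem (I.sub_mem (I.add_mem (I.mul_mem_right (P w' * J) h1)
        (I.mul_mem_left (F w₀ * jt r a c w) h4)) (I.mul_mem_right (P w * J) h2))
        (I.mul_mem_left (F w₀ * jt r a c w') h3)
      have h6 : J * (J * (F w * P w' - F w' * P w)) =
          (F w * J - F w₀ * jt r a c w) * (P w' * J) +
          F w₀ * jt r a c w * (P w' * J - P w₀ * jt r a c w') -
          (F w' * J - F w₀ * jt r a c w') * (P w * J) -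
          F w₀ * jt r a c w' * (P w * J - P w₀ * jt r a c w) := by ring
      change J * (J * (F w * P w' - F w' * P w)) ∈ I
      rw [h6]
      exact h5

end Pool.Agent.KST
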