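import Pool.Agent.KST.Jkru

/-!
# KST JPROP: the value at a point of a map given by forms which may vanish there

PROOFS.  `loc_prop`: `P w₀ ∉ Q`: otherwise `P w₁ * J w₀ ∈ Q` (from `h w₁ w₀`), and `J w₀ ∉ Q` (as `Q ≤ mx a`, `eval a (J w₀) ≠ 0`), `P w₁ ∉ Q`.
Let `j` be minimal with `P w₀ ∉ Q ⊔ mx a ^ (j+1)` (`krull_exists`, `Nat.find`); so `P w₀ ∈ Q ⊔ mx a ^ j` (for `j = 0` the ideal is everything).
For every `w`: `J w₀ * P w = J w * P w₀ + (element of Q) ∈ Q ⊔ mx a ^ j`, so `P w ∈ Q ⊔ mx a ^ j` by `cancel_at`. Finally with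
`c = eval a (J w₀)`, `d = eval a (J w)`:
`C c * P w - C d * P w₀ = (P w * J w₀ - P w₀ * J w) - (J w₀ - C c) * P w + (J w - C d) * P w₀ ∈ Q ⊔ mx a ^ (j+1)` because
`J w₀ - C c`, `J w - C d ∈ mx a` and `mx a * (Q ⊔ mx a ^ j) ≤ Q ⊔ mx a ^ (j+1)`. Multiply by `C c⁻¹`.
`jeval`: `r` from `krull` for `V`; for every `j ≤ r` take the family of `fams V (Q ⊔ mx a ^ (j+1))`; all together a finite family
`ℓ`. Given `P`, `J` take `w₀` with `eval a (J w₀) ≠ 0` and `j` from `loc_prop`. `j ≤ r`: otherwise all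
`P w ∈ Q ⊔ mx a ^ j ≤ Q ⊔ mx a ^ (r+1)` are in `Q`. So there is a functional `ℓ b` of the family of `j` with `ℓ b (P w₀) ≠ 0`, and
`ℓ b (P w) = (eval a (J w) / eval a (J w₀)) * ℓ b (P w₀)`.
-/

set_option autoImplicit false

open MvPolynomial

namespace Pool.Agent.KST

variable {E : Type*} [Field E] {W : Type} [Finite W]

theorem loc_prop (Q : Ideal (MvPolynomial W E)) (hQ : Q.IsPrime) (a : W → E) (ha : Q ≤ mx a)
    (P J : W → MvPolynomial W E) (h : ∀ w w', P w * J w' - P w' * J w ∈ Q) (w₁ : W)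
    (hP : P w₁ ∉ Q) (w₀ : W) (hJ : eval a (J w₀) ≠ 0) :
    ∃ j : ℕ, P w₀ ∉ Q ⊔ mx a ^ (j + 1) ∧ (∀ w, P w ∈ Q ⊔ mx a ^ j) ∧
      ∀ w, P w - C (eval a (J w) / eval a (J w₀)) * P w₀ ∈ Q ⊔ mx a ^ (j + 1) := by
  classical
  have hJQ : J w₀ ∉ Q := fun hq => hJ (by
    have := ha hq
    rwa [mx, RingHom.mem_ker] at this)
  have hP0 : P w₀ ∉ Q := by
    intro hq
    have h1 : P w₁ * J w₀ ∈ Q := by
      have h2 := h w₁ w₀
      have h3 : P w₀ * J w₁ ∈ Q := Q.mul_mem_right _ hq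
      have := Q.add_mem h2 h3
      simpa using this
    rcases hQ.mem_or_mem h1 with h4 | h4
    · exact hP h4
    · exact hJQ h4
  have hex := krull_exists Q hQ a ha (P w₀) hP0
  set j := Nat.find hex with hj
  have hj1 : P w₀ ∉ Q ⊔ mx a ^ (j + 1) := Nat.find_spec hex
  have hj0 : P w₀ ∈ Q ⊔ mx a ^ j := by
    rcases Nat.eq_zero_or_pos j with h0 | h0
    · rw [h0, pow_zero, Ideal.one_eq_top, sup_top_eq]
      exact Submodule.mem_top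
    · obtain ⟨k, hk⟩ : ∃ k, j = k + 1 := ⟨j - 1, by omega⟩
      have := Nat.find_min hex (m := k) (by omega)
      rw [not_not] at this
      rw [hk]
      exact this
  have hall : ∀ w, P w ∈ Q ⊔ mx a ^ j := by
    intro w
    refine cancel_at a (Q ⊔ mx a ^ j) j le_sup_right (J w₀) (P w) hJ ?_
    have h2 : P w * J w₀ - P w₀ * J w ∈ Q ⊔ mx a ^ j := (le_sup_left : Q ≤ Q ⊔ mx a ^ j) (h w w₀)
    have h3 : P w₀ * J w ∈ Q ⊔ mx a ^ j := Ideal.mul_mem_right _ _ hj0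
    have h4 := Ideal.add_mem _ h2 h3
    have h5 : P w * J w₀ - P w₀ * J w + P w₀ * J w = J w₀ * P w := by ring
    rwa [h5] at h4
  refine ⟨j, hj1, hall, ?_⟩
  intro w
  have hstep : ∀ G F : MvPolynomial W E, G ∈ mx a → F ∈ Q ⊔ mx a ^ j →
      G * F ∈ Q ⊔ mx a ^ (j + 1) := by
    intro G F hG hF
    obtain ⟨q, hq, m, hm, rfl⟩ := Submodule.mem_sup.1 hF
    rw [mul_add]
    refine Ideal.add_mem _ ?_ ?_
    · exact (le_sup_left : Q ≤ Q ⊔ mx a ^ (j + 1)) (Q.mul_mem_left _ hq)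
    · refine (le_sup_right : mx a ^ (j + 1) ≤ Q ⊔ mx a ^ (j + 1)) ?_
      rw [pow_succ']
      exact Ideal.mul_mem_mul hG hm
  have hmx : ∀ F : MvPolynomial W E, F - C (eval a F) ∈ mx a := by
    intro F
    rw [mx, RingHom.mem_ker]
    simp
  have h1 : P w * J w₀ - P w₀ * J w ∈ Q ⊔ mx a ^ (j + 1) :=
    (le_sup_left : Q ≤ Q ⊔ mx a ^ (j + 1)) (h w w₀)
  have h2 := hstep _ _ (hmx (J w₀)) (hall w)
  have h3 := hstep _ _ (hmx (J w)) (hall w₀)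
  have h4 := Ideal.add_mem _ (Ideal.sub_mem _ h1 h2) h3
  have h5 := Ideal.mul_mem_left _ (C (eval a (J w₀))⁻¹) h4
  have h6 : C (eval a (J w₀))⁻¹ * (P w * J w₀ - P w₀ * J w -
      (J w₀ - C (eval a (J w₀))) * P w + (J w - C (eval a (J w))) * P w₀) =
      P w - C (eval a (J w) / eval a (J w₀)) * P w₀ := by
    have h7 : C (eval a (J w₀))⁻¹ * C (eval a (J w₀)) = (1 : MvPolynomial W E) := by
      rw [← C_mul, inv_mul_cancel₀ hJ, C_1]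
    have h8 : (C (eval a (J w) / eval a (J w₀)) : MvPolynomial W E) =
        C (eval a (J w₀))⁻¹ * C (eval a (J w)) := by
      rw [← C_mul, div_eq_inv_mul]
    rw [h8]
    linear_combination (P w) * h7
  rwa [h6] at h5

theorem jeval (Q : Ideal (MvPolynomial W E)) (hQ : Q.IsPrime) (a : W → E) (ha : Q ≤ mx a)
    (V : Submodule E (MvPolynomial W E)) [FiniteDimensional E V] :
    ∃ (n : ℕ) (ℓ : Fin n → MvPolynomial W E →ₗ[E] E), ∀ P J : W → MvPolynomial W E,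
      (∀ w, P w ∈ V) → (∃ w, P w ∉ Q) → (∀ w w', P w * J w' - P w' * J w ∈ Q) →
      (∃ w, eval a (J w) ≠ 0) →
      ∃ (b : Fin n) (c : E), c ≠ 0 ∧ ∀ w, ℓ b (P w) = c * eval a (J w) := by
  classical
  obtain ⟨r, hr⟩ := krull Q hQ a ha V
  choose n ℓ hℓ0 hℓ1 using fun j : Fin (r + 1) => fams V (Q ⊔ mx a ^ ((j : ℕ) + 1))
  let e := Fintype.equivFin (Σ j : Fin (r + 1), Fin (n j))
  let F : (Σ j : Fin (r + 1), Fin (n j)) → MvPolynomial W E →ₗ[E] E := fun x => ℓ x.1 x.2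
  refine ⟨Fintype.card (Σ j : Fin (r + 1), Fin (n j)), fun b => F (e.symm b), ?_⟩
  intro P J hPV hP1 h hJ1
  obtain ⟨w₁, hw₁⟩ := hP1
  obtain ⟨w₀, hw₀⟩ := hJ1
  obtain ⟨j, hj1, hj2, hj3⟩ := loc_prop Q hQ a ha P J h w₁ hw₁ w₀ hw₀
  have hjr : j < r + 1 := by
    by_contra hlt
    have hle : Q ⊔ mx a ^ j ≤ Q ⊔ mx a ^ (r + 1) :=
      sup_le_sup_left (Ideal.pow_le_pow_right (by omega)) _
    exact hw₁ (hr _ (hPV w₁) (hle (hj2 w₁)))
  have hb : ∃ b : Fin (n ⟨j, hjr⟩), ℓ ⟨j, hjr⟩ b (P w₀) ≠ 0 := by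
    by_contra hcon
    push Not at hcon
    exact hj1 (hℓ1 ⟨j, hjr⟩ (P w₀) (hPV w₀) hcon)
  obtain ⟨b, hb⟩ := hb
  refine ⟨e ⟨⟨j, hjr⟩, b⟩, ℓ ⟨j, hjr⟩ b (P w₀) / eval a (J w₀), div_ne_zero hb hw₀, ?_⟩
  intro w
  have hs : e.symm (e ⟨⟨j, hjr⟩, b⟩) = ⟨⟨j, hjr⟩, b⟩ := e.symm_apply_apply _
  have h1 := hℓ0 ⟨j, hjr⟩ b _ (hj3 w)
  have h2 : C (eval a (J w) / eval a (J w₀)) * P w₀ =
      (eval a (J w) / eval a (J w₀)) • P w₀ := by rw [MvPolynomial.C_mul']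
  rw [h2, map_sub, map_smul, smul_eq_mul, sub_eq_zero] at h1
  change F (e.symm (e ⟨⟨j, hjr⟩, b⟩)) (P w) = _
  rw [hs]
  change ℓ ⟨j, hjr⟩ b (P w) = _
  rw [h1]
  ring

end Pool.Agent.KST
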