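import Pool.Agent.KST.Jorb
import Pool.Agent.KST.Jprop
import Pool.Agent.KST.Jint
import Pool.Agent.PW.Null
import Pool.Agent.Helper63.WH.Abnd

/-!
# KST FLAT: the heights of all the orbits in a slow subvariety

PROOF.  `W = SIx N`, `Q = idl Z`, prime and homogeneous (`idl_HP`). `G t`, degree `e`, from `LocallyByForms X f`. Let
`xn n = seg (f^[n] x₀)` divided by one of its nonzero coordinates; choose `s n` with `eval (xn n) (G (s n) w) ≠ 0` for some `w`, so
`eval (xn n) (G (s n) w) = l n * xn (n+1) w`, `l n ≠ 0`. `a = xn 0`; `Q ≤ mx a` (forms vanishing on `Z` vanish at multiples of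
`seg x₀`; a polynomial in `Q` is the sum of its homogeneous components, which vanish).
`V` = the forms of degree `k₀`. For every `n` there are forms `P w ∈ V`, not all in `Q`, which represent `f^[n]` on `Z`: multiply
the forms of degree `k ≤ k₀` of `RepBy Z f^[n] k` by the power `k₀ - k` of a coordinate which is not in `Q` (`(idl_HP ..).rel`).
`interp` for `Q, a, V` gives `r, D, v, B`; `jorb` for `r` gives for every `n` the vector `c` and `μ`. The polynomials
`J w = C μ * chart G n (fun i => s i) w` represent `f^[n]` on `Z` too (`chart_locF` in `Helper63/SAND/Iter.lean`), so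
`P w * J w' - P w' * J w` is homogeneous and vanishes on `Z`, so it is in `Q`; hence
`P w * jt r a c w' - P w' * jt r a c w ∈ Q ⊔ mx a ^ (r+1)`. So `interp` gives `p` with
`absHeight p ≤ B (1 + absHeight c) ≤ B' ∑_{j ≤ n} (1 + absTotal (f^[j] x₀))` (`absHeight (xn j) = absTotal (f^[j] x₀)`: `absHeight_smul`,
`absHeight_seg`), `P' w = ∑ b, C (p (w, b)) * v b`, and `P' w * P w' - P' w' * P w ∈ Q`.
Let `y ∈ Z`. `jeval` for `Q`, `a_y = seg y`, `V` gives `ℓ b`. For `n` choose by `chart_locF` a chart `J_y` of `f^[n]` with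
`eval (seg y) (J_y w) ≠ 0` for some `w`. `P w * J_y w' - P w' * J_y w ∈ Q` as above, so with `P w₁ ∉ Q`:
`P w₁ * P w₁ * (P' w * J_y w' - P' w' * J_y w) ∈ Q` (replace `P w₁ * P' w` by `P' w₁ * P w` modulo `Q`, and then `P w * J_y w' - P w' * J_y w ∈ Q`:
`P w₁ * (P' w * J_y w' - P' w' * J_y w) = P' w₁ * (P w * J_y w' - P w' * J_y w)` modulo `Q`), so `P' w * J_y w' - P' w' * J_y w ∈ Q`. By `jeval`
`ℓ b (P' w) = c * eval (seg y) (J_y w) = c' * seg (f^[n] y) w`, `c' ≠ 0`. So `absTotal (f^[n] y) = absHeight (fun w => ℓ b (P' w)) =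
absHeight (fun w => ∑ b', ℓ b (v b') * p (w, b')) ≤ absHeight p + C_b` (`absHeight_lin`), and `C' = max_b C_b`.
-/

set_option autoImplicit false

open MvPolynomial
open scoped LinearAlgebra.Projectivization

namespace Pool.Agent.KST

open Pool.Agent.Helper90.KSC Pool.Agent.Helper63.SAND Pool.Agent.Helper63.WH Pool.Agent.PBK
  Pool.Agent.PW

section

variable {E : Type*} [Field E]

private theorem ev_smul {W : Type*} {F : MvPolynomial W E} {k : ℕ} (hF : F.IsHomogeneous k)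
    (c : E) (v : W → E) : eval (c • v) F = c ^ k * eval v F := by
  rw [eval_eq, eval_eq, Finset.mul_sum]
  refine Finset.sum_congr rfl fun s hs => ?_
  have hsk : ∑ i ∈ s.support, s i = k := by
    have := hF (mem_support_iff.1 hs)
    rw [Finsupp.weight_apply] at this
    simpa [Finsupp.sum] using this
  simp only [Pi.smul_apply, smul_eq_mul, mul_pow, Finset.prod_mul_distrib]
  rw [Finset.prod_pow_eq_pow_sum, hsk]
  ring

variable {ι : Type*} [Fintype ι] {N : ι → ℕ}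

private theorem mem_idl {Z : Set (PPt E N)} {F : MvPolynomial (SIx N) E} {k : ℕ}
    (hF : F.IsHomogeneous k) (h : ∀ x ∈ Z, eval (seg x) F = 0) : F ∈ idl Z := by
  intro j x hx
  rw [homogeneousComponent_of_mem ((mem_homogeneousSubmodule _ _).2 hF)]
  split_ifs
  · exact h x hx
  · exact map_zero _

private theorem eval_idl {Z : Set (PPt E N)} {F : MvPolynomial (SIx N) E} (hF : F ∈ idl Z)
    {x : PPt E N} (hx : x ∈ Z) (c : E) : eval (c • seg x) F = 0 := by
  rw [← sum_homogeneousComponent F, map_sum]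
  refine Finset.sum_eq_zero fun k _ => ?_
  rw [ev_smul (homogeneousComponent_isHomogeneous k F), hF k x hx, mul_zero]

/-- Two families of forms which represent the same map on `Z` are proportional modulo the
ideal of `Z`. -/
private theorem minors {Z : Set (PPt E N)} (g : PPt E N → PPt E N)
    {P J : SIx N → MvPolynomial (SIx N) E} {k m : ℕ} (hP : ∀ w, (P w).IsHomogeneous k)
    (hJ : ∀ w, (J w).IsHomogeneous m)
    (h1 : ∀ z ∈ Z, ∃ c : E, ∀ w, eval (seg z) (P w) = c * seg (g z) w)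
    (h2 : ∀ z ∈ Z, ∃ c : E, ∀ w, eval (seg z) (J w) = c * seg (g z) w) (w w' : SIx N) :
    P w * J w' - P w' * J w ∈ idl Z := by
  refine mem_idl (k := k + m) (((hP w).mul (hJ w')).sub ((hP w').mul (hJ w))) fun z hz => ?_
  obtain ⟨c, hc⟩ := h1 z hz
  obtain ⟨d, hd⟩ := h2 z hz
  rw [map_sub, map_mul, map_mul, hc, hc, hd, hd]
  ring

/-- Forms of the exact degree `k₀`. -/
private theorem rep_exact {Z : Set (PPt E N)} (hHP : HP (idl Z)) (g : PPt E N → PPt E N) {k k₀ : ℕ}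
    (hk : k ≤ k₀) (h : RepBy Z g k) : ∃ P : SIx N → MvPolynomial (SIx N) E,
      (∀ w, (P w).IsHomogeneous k₀) ∧ (∃ w, P w ∉ idl Z) ∧
      ∀ z ∈ Z, ∃ c : E, ∀ w, eval (seg z) (P w) = c * seg (g z) w := by
  obtain ⟨P, hP1, ⟨x, hx, w, hw⟩, hP2⟩ := h
  obtain ⟨w₂, hw₂⟩ := hHP.rel
  refine ⟨fun w => X w₂ ^ (k₀ - k) * P w, fun w => ?_, ⟨w, ?_⟩, fun z hz => ?_⟩
  · have h1 := ((isHomogeneous_X E w₂).pow (k₀ - k)).mul (hP1 w)
    have h2 : 1 * (k₀ - k) + k = k₀ := by omega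
    rwa [h2] at h1
  · intro hmem
    rcases hHP.prime.mem_or_mem hmem with h1 | h1
    · exact hw₂ (hHP.prime.mem_of_pow_mem _ h1)
    · have h2 := eval_idl h1 hx 1
      rw [one_smul] at h2
      exact hw h2
  · obtain ⟨c, hc⟩ := hP2 z hz
    refine ⟨seg z w₂ ^ (k₀ - k) * c, fun w => ?_⟩
    rw [map_mul, map_pow, eval_X, hc]
    ring

end

variable {E : Type*} [Field E] [CharZero E] [Algebra.IsAlgebraic ℚ E] {ι : Type} [Fintype ι]
  [DecidableEq ι] {N : ι → ℕ}

theorem flat (X : Set (PPt E N)) (f : PPt E N → PPt E N) (hf : Set.MapsTo f X X)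
    (hloc : LocallyByForms X f) (Z : Set (PPt E N)) (hZX : Z ⊆ X) (hZi : Irred Z) (k₀ : ℕ)
    (hk : ∀ n : ℕ, ∃ k ≤ k₀, RepBy Z f^[n] k) (x₀ : PPt E N) (hx₀ : x₀ ∈ Z) :
    ∃ B : ℝ, 0 ≤ B ∧ ∀ y ∈ Z, ∃ B' : ℝ, ∀ n : ℕ,
      absTotal (f^[n] y) ≤ B * ∑ j ∈ Finset.range (n + 1), (1 + absTotal (f^[j] x₀)) + B' := by
  classical
  obtain ⟨e, t, G, hhom, hprop, hne⟩ := id hloc
  have hHP := idl_HP Z hZi
  have hQp : (idl Z).IsPrime := hHP.prime
  -- charts
  have hX : ∀ n, ∀ y ∈ X, f^[n] y ∈ X := fun n y hy => (hf.iterate n) hy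
  obtain ⟨F, hFdef⟩ : ∃ F : X → X, F = fun x => ⟨f x, hf x.2⟩ := ⟨_, rfl⟩
  have hF : ∀ n (x : X), ((F^[n] x : X) : PPt E N) = f^[n] x := by
    intro n x
    induction n with
    | zero => rfl
    | succ n ih =>
      rw [Function.iterate_succ_apply', Function.iterate_succ_apply', ← ih, hFdef]
  have hLF : LocF (fun x : X => seg (x : PPt E N)) (fun x : X => seg (F x : PPt E N)) e G := by
    refine ⟨hhom, fun s x => ?_, fun x => hne x x.2⟩
    obtain ⟨c, hc⟩ := hprop s x x.2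
    refine ⟨c, fun w => ?_⟩
    rw [hc w, hFdef]
  have hch := fun n => chart_locF (fun x : X => seg (x : PPt E N)) (fun x => seg_ne_zero _) F e G
    hLF n
  have hchr : ∀ (n : ℕ) (τ : Fin n → Fin t), ∀ z ∈ Z, ∃ c : E, ∀ w,
      eval (seg z) (chart G n τ w) = c * seg (f^[n] z) w := by
    intro n τ z hz
    obtain ⟨c, hc⟩ := (hch n).2.1 τ ⟨z, hZX hz⟩
    refine ⟨c, fun w => (hc w).trans ?_⟩
    exact congrArg (fun u => c * seg u w) (hF n ⟨z, hZX hz⟩)
  -- orbit
  have hw : ∀ n, ∃ w, seg (f^[n] x₀) w ≠ 0 := fun n => Function.ne_iff.1 (seg_ne_zero _)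
  choose w₀ hw₀ using hw
  obtain ⟨xn, hxn⟩ : ∃ xn : ℕ → SIx N → E,
    xn = fun n => (seg (f^[n] x₀) (w₀ n))⁻¹ • seg (f^[n] x₀) := ⟨_, rfl⟩
  have hxn1 : ∀ n, ∃ w, xn n w = 1 := fun n => ⟨w₀ n, by
    rw [hxn]
    exact inv_mul_cancel₀ (hw₀ n)⟩
  have hxnh : ∀ n, absHeight (xn n) = absTotal (f^[n] x₀) := by
    intro n
    rw [hxn]
    exact (absHeight_smul _ (inv_ne_zero (hw₀ n)) _).trans (absHeight_seg _)
  have hstep : ∀ n, ∃ (s : Fin t) (l : E), l ≠ 0 ∧
      ∀ w, eval (xn n) (G s w) = l * xn (n + 1) w := by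
    intro n
    obtain ⟨s, w, hsw⟩ := hne _ (hX n x₀ (hZX hx₀))
    obtain ⟨c, hc⟩ := hprop s _ (hX n x₀ (hZX hx₀))
    have hc0 : c ≠ 0 := by
      rintro rfl
      exact hsw (by rw [hc, zero_mul])
    refine ⟨s, (seg (f^[n] x₀) (w₀ n))⁻¹ ^ e * c * seg (f^[n + 1] x₀) (w₀ (n + 1)), ?_,
      fun w' => ?_⟩
    · exact mul_ne_zero (mul_ne_zero (pow_ne_zero _ (inv_ne_zero (hw₀ n))) hc0) (hw₀ (n + 1))
    · rw [hxn]
      simp only []
      rw [ev_smul (hhom s w'), hc, ← Function.iterate_succ_apply' f n x₀, Pi.smul_apply,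
        smul_eq_mul]
      have := hw₀ (n + 1)
      field_simp
  choose s l hl hs using hstep
  have ha : idl Z ≤ mx (xn 0) := by
    intro P hP
    rw [mx, RingHom.mem_ker, hxn]
    exact eval_idl hP hx₀ _
  have : FiniteDimensional E (homogeneousSubmodule (SIx N) E k₀) :=
    Module.Finite.iff_fg.mpr (homogeneousSubmodule_fg _ _ k₀)
  obtain ⟨r, D, v, B₁, hr, hv, hB₁, hint⟩ := interp (idl Z) hQp (xn 0) ha
    (homogeneousSubmodule (SIx N) E k₀)
  obtain ⟨B₂, hB₂, horb⟩ := jorb G e hhom r hr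
  obtain ⟨S, hS⟩ : ∃ S : ℕ → ℝ, S = fun n => ∑ j ∈ Finset.range (n + 1),
    (1 + absTotal (f^[j] x₀)) := ⟨_, rfl⟩
  have hnn : ∀ y : PPt E N, 0 ≤ absTotal y := fun y => by
    rw [← absHeight_seg]
    exact absHeight_nonneg _
  have hS1 : ∀ n, 1 ≤ S n := by
    intro n
    rw [hS]
    have h1 : (1 : ℝ) + absTotal (f^[0] x₀) ≤ ∑ j ∈ Finset.range (n + 1),
        (1 + absTotal (f^[j] x₀)) := by
      refine Finset.single_le_sum (f := fun j => 1 + absTotal (f^[j] x₀)) (fun j _ => ?_)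
        (Finset.mem_range.2 (Nat.succ_pos n))
      have := hnn (f^[j] x₀)
      linarith
    have h2 := hnn (f^[0] x₀)
    linarith
  -- the small representation
  have key : ∀ n, ∃ (P : SIx N → MvPolynomial (SIx N) E) (p : SIx N × Fin D → E),
      (∀ w, (P w).IsHomogeneous k₀) ∧ (∃ w, P w ∉ idl Z) ∧
      (∀ z ∈ Z, ∃ c : E, ∀ w, eval (seg z) (P w) = c * seg (f^[n] z) w) ∧
      absHeight p ≤ B₁ * (1 + B₂ * S n) ∧ (∃ w, ∑ b, C (p (w, b)) * v b ∉ idl Z) ∧
      ∀ w w', (∑ b, C (p (w, b)) * v b) * P w' - (∑ b, C (p (w', b)) * v b) * P w ∈ idl Z := by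
    intro n
    obtain ⟨k, hkk, hrep⟩ := hk n
    obtain ⟨P, hP1, hP2, hP3⟩ := rep_exact hHP f^[n] hkk hrep
    obtain ⟨c, μ, hμ, hc0, hcj, hch'⟩ := horb xn s l hxn1 hl hs n
    have hcne : ∃ w, c (w, zi (SIx N) r) ≠ 0 := by
      obtain ⟨w, hw⟩ := hxn1 n
      exact ⟨w, by rw [hc0, hw]; exact one_ne_zero⟩
    have hJr : ∀ z ∈ Z, ∃ c : E, ∀ w, eval (seg z) (C μ * chart G n (fun i => s i) w) =
        c * seg (f^[n] z) w := by
      intro z hz
      obtain ⟨c, hc⟩ := hchr n (fun i => s i) z hz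
      refine ⟨μ * c, fun w => ?_⟩
      rw [map_mul, eval_C, hc]
      ring
    have hJh : ∀ w, (C μ * chart G n (fun i => s i) w : MvPolynomial (SIx N) E).IsHomogeneous
        (e ^ n) := by
      intro w
      have h1 := (isHomogeneous_C (SIx N) μ).mul ((hch n).1 (fun i => s i) w)
      rwa [zero_add] at h1
    have hmin := minors f^[n] hP1 hJh hP3 hJr
    obtain ⟨p, hp1, hp2, hp3⟩ := hint c P hcne
      (fun w => (mem_homogeneousSubmodule _ _).2 (hP1 w)) hP2 (fun w w' => by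
        have h1 : P w * jt r (xn 0) c w' - P w' * jt r (xn 0) c w =
            (P w * (C μ * chart G n (fun i => s i) w') -
              P w' * (C μ * chart G n (fun i => s i) w)) -
            (P w * (C μ * chart G n (fun i => s i) w' - jt r (xn 0) c w') -
              P w' * (C μ * chart G n (fun i => s i) w - jt r (xn 0) c w)) := by ring
        rw [h1]
        refine Ideal.sub_mem _ (Ideal.mem_sup_left (hmin w w')) (Ideal.mem_sup_right ?_)
        exact Ideal.sub_mem _ (Ideal.mul_mem_left _ _ (hcj w')) (Ideal.mul_mem_left _ _ (hcj w)))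
    refine ⟨P, p, hP1, hP2, hP3, hp1.trans ?_, hp2, hp3⟩
    refine mul_le_mul_of_nonneg_left ?_ hB₁
    have h2 : ∑ j ∈ Finset.range (n + 1), (1 + absHeight (xn j)) = S n := by
      rw [hS]
      exact Finset.sum_congr rfl fun j _ => by rw [hxnh]
    rw [h2] at hch'
    linarith
  refine ⟨B₁ * (1 + B₂), by positivity, fun y hy => ?_⟩
  have hay : idl Z ≤ mx (seg y) := by
    intro P hP
    rw [mx, RingHom.mem_ker]
    have := eval_idl hP hy 1
    rwa [one_smul] at this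
  obtain ⟨m, ℓ, hℓ⟩ := jeval (idl Z) hQp (seg y) hay (homogeneousSubmodule (SIx N) E k₀)
  have hlin := fun b : Fin m => absHeight_lin (E := E) (κ := SIx N) (κ' := SIx N × Fin D)
    fun w i => if i.1 = w then ℓ b (v i.2) else 0
  choose Cb hCb0 hCb using hlin
  refine ⟨∑ b, Cb b, fun n => ?_⟩
  obtain ⟨P, p, hP1, hP2, hP3, hp1, hp2, hp3⟩ := key n
  obtain ⟨P', hP'⟩ : ∃ P' : SIx N → MvPolynomial (SIx N) E,
    P' = fun w => ∑ b, C (p (w, b)) * v b := ⟨_, rfl⟩
  have hP'V : ∀ w, P' w ∈ homogeneousSubmodule (SIx N) E k₀ := by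
    intro w
    rw [hP']
    refine Submodule.sum_mem _ fun b _ => ?_
    rw [← smul_eq_C_mul]
    exact Submodule.smul_mem _ _ (hv b)
  obtain ⟨τ, w₃, hw₃⟩ := (hch n).2.2 ⟨y, hZX hy⟩
  have hmin := minors f^[n] hP1 (fun w => (hch n).1 τ w) hP3 (hchr n τ)
  obtain ⟨w₁, hw₁⟩ := hP2
  have hmin' : ∀ w w', P' w * chart G n τ w' - P' w' * chart G n τ w ∈ idl Z := by
    intro w w'
    have h1 : P w₁ * (P' w * chart G n τ w' - P' w' * chart G n τ w) =
        (P' w * P w₁ - P' w₁ * P w) * chart G n τ w' -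
        (P' w' * P w₁ - P' w₁ * P w') * chart G n τ w +
        P' w₁ * (P w * chart G n τ w' - P w' * chart G n τ w) := by ring
    have h2 : ∀ w w', P' w * P w' - P' w' * P w ∈ idl Z := fun w w' => by
      rw [hP']
      exact hp3 w w'
    have h3 : P w₁ * (P' w * chart G n τ w' - P' w' * chart G n τ w) ∈ idl Z := by
      rw [h1]
      exact Ideal.add_mem _ (Ideal.sub_mem _ (Ideal.mul_mem_right _ _ (h2 w w₁))
        (Ideal.mul_mem_right _ _ (h2 w' w₁))) (Ideal.mul_mem_left _ _ (hmin w w'))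
    exact (hQp.mem_or_mem h3).resolve_left hw₁
  obtain ⟨b, c, hc, hbc⟩ := hℓ P' (chart G n τ) hP'V (by rw [hP']; exact hp2) hmin' ⟨w₃, hw₃⟩
  obtain ⟨d, hd⟩ := hchr n τ y hy
  have hd0 : d ≠ 0 := by
    rintro rfl
    exact hw₃ (by
      show eval (seg y) (chart G n τ w₃) = 0
      rw [hd, zero_mul])
  have h1 : (fun w => ℓ b (P' w)) = (c * d) • seg (f^[n] y) := by
    funext w
    rw [hbc, hd, Pi.smul_apply, smul_eq_mul]
    ring
  have h2 : absTotal (f^[n] y) = absHeight (fun w => ℓ b (P' w)) := by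
    rw [h1, absHeight_smul _ (mul_ne_zero hc hd0), absHeight_seg]
  have h3 : (fun w => ℓ b (P' w)) = fun w => ∑ i : SIx N × Fin D,
      (if i.1 = w then ℓ b (v i.2) else 0) * p i := by
    funext w
    rw [hP', map_sum, Fintype.sum_prod_type, Finset.sum_eq_single w]
    · refine Finset.sum_congr rfl fun b' _ => ?_
      rw [if_pos rfl, ← smul_eq_C_mul, map_smul, smul_eq_mul, mul_comm]
    · intro w' _ hw'
      refine Finset.sum_eq_zero fun b' _ => ?_
      rw [if_neg hw', zero_mul]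
    · intro h
      exact absurd (Finset.mem_univ w) h
  have h4 := hCb b p
  rw [← h3, ← h2] at h4
  have h5 : Cb b ≤ ∑ b, Cb b :=
    Finset.single_le_sum (f := Cb) (fun b _ => hCb0 b) (Finset.mem_univ b)
  have h6 : B₁ * (1 + B₂ * S n) ≤ B₁ * (1 + B₂) * S n := by
    have h7 := hS1 n
    have h8 : 1 + B₂ * S n ≤ (1 + B₂) * S n := by nlinarith
    calc B₁ * (1 + B₂ * S n) ≤ B₁ * ((1 + B₂) * S n) := mul_le_mul_of_nonneg_left h8 hB₁
      _ = _ := by ring
  have h9 : S n = ∑ j ∈ Finset.range (n + 1), (1 + absTotal (f^[j] x₀)) := by rw [hS]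
  rw [← h9]
  linarith

end Pool.Agent.KST
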