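import Pool.Agent.LLC.Lacts

/-!
# KST LG: linear action of the inverse

PROOF.  `B A = 1` too (`Matrix.mul_eq_one_comm`). The graph of `g` is the graph of `f` with the two blocks exchanged: for `y ∈ X`,
`pair y (g y) = swap (pair (g y) (f (g y)))`, `f (g y) = y`. (a) `Generated (graph X f) (Sum.elim u v)` implies
`Generated (graph X g) (Sum.elim v u)` for all `u v : ι → ℤ`: transport the data `b, d, t, L` by `Sum.swap`:
`mono b (swap x) w = mono (b ∘ Sum.swap) x w'` for the corresponding index `w'` (reindex the product over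
`Σ i, Fin (b i)`; the types `Mono (Sum.elim N N) b` have to be transported along
`Sum.elim N N (Sum.swap s) = Sum.elim N N s`: prove a general lemma: for an equivalence `e : κ ≃ κ'`, `N' : κ' → ℕ`,
`Generated Y c` for `Y ⊆ PPt K N'` and `Y' = {x ∘ e}` the set in `PPt K (N' ∘ e)`: `Generated Y' (c ∘ e)`.)
(b) sums: `lacts_gen_add` (private in `LLC/Lacts.lean`: copy it with its auxiliary definitions), multiples by natural numbers
(induction; `Generated Y 0` holds: `b = d = 0`, `t = 1`, `L = 1`), so integer combinations of classes `c i` for which both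
`Generated Y (c i)` and `Generated Y (-c i)` hold again have both properties.
(c) `∑_j B i j • (swap of Sum.elim (-A j ·) (e_j)) = ∑_j B i j • Sum.elim (e_j) (-A j ·) = Sum.elim (B i ·) (-(B A) i ·)
= Sum.elim (B i ·) (-e_i) = - Sum.elim (-B i ·) (e_i)`.
-/

set_option autoImplicit false

open scoped LinearAlgebra.Projectivization

namespace Pool.Agent.KST

open Pool.Agent.Helper90.KSC Pool.Agent.LLC

variable {K : Type*} [Field K] {ι : Type*} [Fintype ι] [DecidableEq ι] {N : ι → ℕ}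

omit [DecidableEq ι] in
private theorem lg_mono_ne_zero (b : ι → ℕ) (x : PPt K N) : mono b x ≠ 0 := by
  have h : ∀ t : (Σ i, Fin (b i)), ∃ j, (x t.1).rep j ≠ 0 := by
    intro t
    exact Function.ne_iff.mp (x t.1).rep_nonzero
  choose w hw using h
  refine Function.ne_iff.mpr ⟨w, ?_⟩
  unfold mono
  exact Finset.prod_ne_zero_iff.mpr fun t _ => hw t

/-- Splitting the monomials of multidegree `b₁ + b₂`. -/
private def lgSpl (b₁ b₂ : ι → ℕ) :
    Mono N (fun i => b₁ i + b₂ i) ≃ Mono N b₁ × Mono N b₂ where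
  toFun w := (fun t => w ⟨t.1, Fin.castAdd _ t.2⟩, fun t => w ⟨t.1, Fin.natAdd _ t.2⟩)
  invFun u := fun t => Fin.addCases (motive := fun _ => Fin (N t.1 + 1))
    (fun a => u.1 ⟨t.1, a⟩) (fun a => u.2 ⟨t.1, a⟩) t.2
  left_inv w := by
    funext t
    obtain ⟨i, a⟩ := t
    induction a using Fin.addCases with
    | left a => simp
    | right a => simp
  right_inv u := by
    obtain ⟨u, v⟩ := u
    ext t <;> simp

omit [DecidableEq ι] in
private theorem lg_mono_add (b₁ b₂ : ι → ℕ) (x : PPt K N) (w : Mono N (fun i => b₁ i + b₂ i)) :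
    mono (fun i => b₁ i + b₂ i) x w =
      mono b₁ x (lgSpl b₁ b₂ w).1 * mono b₂ x (lgSpl b₁ b₂ w).2 := by
  unfold mono
  rw [Fintype.prod_sigma, Fintype.prod_sigma, Fintype.prod_sigma, ← Finset.prod_mul_distrib]
  apply Finset.prod_congr rfl
  intro i _
  rw [Fin.prod_univ_add]
  rfl

private theorem lg_gen_add (Y : Set (PPt K N)) (c₁ c₂ : ι → ℤ) (h₁ : Generated Y c₁)
    (h₂ : Generated Y c₂) : Generated Y (fun i => c₁ i + c₂ i) := by
  obtain ⟨b₁, d₁, hb₁, t₁, L₁, H₁⟩ := h₁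
  obtain ⟨b₂, d₂, hb₂, t₂, L₂, H₂⟩ := h₂
  refine ⟨fun i => b₁ i + b₂ i, fun i => d₁ i + d₂ i, fun i => ?_, t₁ * t₂, fun p u =>
    L₁ ((finProdFinEquiv.symm p.1).1, (lgSpl d₁ d₂ p.2).1) (lgSpl b₁ b₂ u).1 *
    L₂ ((finProdFinEquiv.symm p.1).2, (lgSpl d₁ d₂ p.2).2) (lgSpl b₁ b₂ u).2, ?_⟩
  · push_cast
    rw [hb₁, hb₂]
    ring
  intro x hx
  obtain ⟨z₁, hz₁, e₁⟩ := H₁ x hx
  obtain ⟨z₂, hz₂, e₂⟩ := H₂ x hx
  refine ⟨fun p => z₁ (finProdFinEquiv.symm p).1 * z₂ (finProdFinEquiv.symm p).2, ?_, ?_⟩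
  · obtain ⟨p₁, hp₁⟩ := Function.ne_iff.mp hz₁
    obtain ⟨p₂, hp₂⟩ := Function.ne_iff.mp hz₂
    refine Function.ne_iff.mpr ⟨finProdFinEquiv (p₁, p₂), ?_⟩
    rw [Equiv.symm_apply_apply]
    exact mul_ne_zero hp₁ hp₂
  · rintro ⟨p, w⟩
    obtain ⟨q, rfl⟩ := finProdFinEquiv.surjective p
    obtain ⟨q₁, q₂⟩ := q
    have f₁ := e₁ (q₁, (lgSpl d₁ d₂ w).1)
    have f₂ := e₂ (q₂, (lgSpl d₁ d₂ w).2)
    simp only [Equiv.symm_apply_apply]
    rw [lg_mono_add]
    have h3 : ∑ u, L₁ (q₁, (lgSpl d₁ d₂ w).1) (lgSpl b₁ b₂ u).1 *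
        L₂ (q₂, (lgSpl d₁ d₂ w).2) (lgSpl b₁ b₂ u).2 *
        mono (fun i => b₁ i + b₂ i) x u =
        ∑ v : Mono N b₁ × Mono N b₂, (L₁ (q₁, (lgSpl d₁ d₂ w).1) v.1 * mono b₁ x v.1) *
          (L₂ (q₂, (lgSpl d₁ d₂ w).2) v.2 * mono b₂ x v.2) := by
      refine Fintype.sum_equiv (lgSpl b₁ b₂) _ _ fun u => ?_
      rw [lg_mono_add]
      ring
    rw [h3, Fintype.sum_prod_type]
    dsimp only at f₁ f₂ ⊢
    rw [← Finset.sum_mul_sum, ← f₁, ← f₂]
    ring

private theorem lg_gen_nat (Y : Set (PPt K N)) (b : ι → ℕ) :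
    Generated Y (fun i => (b i : ℤ)) := by
  classical
  refine ⟨b, fun _ => 0, fun i => by simp, Fintype.card (Mono N b), fun p u =>
    if u = (Fintype.equivFin (Mono N b)).symm p.1 then 1 else 0, ?_⟩
  intro x hx
  refine ⟨fun p => mono b x ((Fintype.equivFin (Mono N b)).symm p), ?_, ?_⟩
  · obtain ⟨w, hw⟩ := Function.ne_iff.mp (lg_mono_ne_zero b x)
    refine Function.ne_iff.mpr ⟨Fintype.equivFin (Mono N b) w, ?_⟩
    rw [Equiv.symm_apply_apply]
    exact hw
  · rintro ⟨p, w⟩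
    have h1 : mono (fun _ : ι => 0) x w = 1 := by
      unfold mono
      rw [Fintype.prod_sigma]
      simp
    rw [h1, mul_one, Finset.sum_eq_single ((Fintype.equivFin (Mono N b)).symm p)]
    · simp
    · intro u _ hu
      dsimp only
      rw [if_neg hu, zero_mul]
    · intro h
      exact absurd (Finset.mem_univ _) h

section transport

variable {κ κ' : Type*} [Fintype κ] [Fintype κ'] {M : κ → ℕ} {M' : κ' → ℕ}

/-- Reindexing of monomials. -/
private def lgTh (e : κ' ≃ κ) (hM : ∀ i, M' i = M (e i)) (b : κ → ℕ) :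
    Mono M' (fun i => b (e i)) ≃ Mono M b :=
  (Equiv.piCongrRight fun t : (Σ i, Fin (b (e i))) =>
    finCongr (by rw [hM] : M' t.1 + 1 = M (e t.1) + 1)).trans
    (Equiv.piCongrLeft (fun s : (Σ k, Fin (b k)) => Fin (M s.1 + 1))
      (Equiv.sigmaCongrLeft (β := fun k => Fin (b k)) e))

private theorem lgTh_apply (e : κ' ≃ κ) (hM : ∀ i, M' i = M (e i)) (b : κ → ℕ)
    (w : Mono M' (fun i => b (e i))) (t : Σ i, Fin (b (e i))) :
    lgTh e hM b w ⟨e t.1, t.2⟩ = Fin.cast (by rw [hM]) (w t) := by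
  unfold lgTh
  exact Equiv.piCongrLeft_apply_apply (fun s : (Σ k, Fin (b k)) => Fin (M s.1 + 1))
    (Equiv.sigmaCongrLeft (β := fun k => Fin (b k)) e) _ t

private theorem lg_mono_tr (e : κ' ≃ κ) (hM : ∀ i, M' i = M (e i)) (b : κ → ℕ)
    (y' : PPt K M') (y : PPt K M)
    (hy : ∀ i (j : Fin (M' i + 1)), (y' i).rep j = (y (e i)).rep (Fin.cast (by rw [hM]) j))
    (w : Mono M' (fun i => b (e i))) :
    mono (fun i => b (e i)) y' w = mono b y (lgTh e hM b w) := by
  unfold mono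
  rw [← Equiv.prod_comp (Equiv.sigmaCongrLeft (β := fun k => Fin (b k)) e)]
  refine Finset.prod_congr rfl fun t _ => ?_
  rw [hy]
  exact congrArg _ (lgTh_apply e hM b w t).symm

private theorem lg_transport [DecidableEq κ] [DecidableEq κ'] (e : κ' ≃ κ) (hM : ∀ i, M' i = M (e i)) (Y : Set (PPt K M))
    (Y' : Set (PPt K M'))
    (hY : ∀ y' ∈ Y', ∃ y ∈ Y, ∀ i (j : Fin (M' i + 1)),
      (y' i).rep j = (y (e i)).rep (Fin.cast (by rw [hM]) j))
    (c : κ → ℤ) (h : Generated Y c) : Generated Y' (fun i => c (e i)) := by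
  obtain ⟨b, d, hb, t, L, H⟩ := h
  refine ⟨fun i => b (e i), fun i => d (e i), fun i => hb (e i), t, fun p u =>
    L (p.1, lgTh e hM d p.2) (lgTh e hM b u), ?_⟩
  intro y' hy'
  obtain ⟨y, hyY, hy⟩ := hY y' hy'
  obtain ⟨z, hz, hzz⟩ := H y hyY
  refine ⟨z, hz, ?_⟩
  rintro ⟨p, w⟩
  have h1 := hzz (p, lgTh e hM d w)
  dsimp only at h1 ⊢
  rw [lg_mono_tr e hM d y' y hy w, h1, ← Equiv.sum_comp (lgTh e hM b)]
  refine Finset.sum_congr rfl fun u _ => ?_
  rw [lg_mono_tr e hM b y' y hy u]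

end transport

/-- The classes `c` such that `c` and `-c` are generated. -/
private def lgH (Y : Set (PPt K N)) : AddSubgroup (ι → ℤ) where
  carrier := {c | Generated Y c ∧ Generated Y (-c)}
  zero_mem' := by
    have h := lg_gen_nat Y (fun _ : ι => 0)
    have h1 : (fun i : ι => (((fun _ : ι => 0) i : ℕ) : ℤ)) = 0 := by
      funext i
      simp
    rw [h1] at h
    exact ⟨h, by rw [neg_zero]; exact h⟩
  add_mem' := by
    rintro a b ⟨ha, ha'⟩ ⟨hb, hb'⟩
    refine ⟨lg_gen_add Y a b ha hb, ?_⟩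
    have h := lg_gen_add Y _ _ ha' hb'
    have h1 : -(a + b) = fun i => (-a) i + (-b) i := by
      funext i
      simp only [Pi.neg_apply, Pi.add_apply]
      ring
    rw [h1]
    exact h
  neg_mem' := by
    rintro a ⟨ha, ha'⟩
    exact ⟨ha', by rw [neg_neg]; exact ha⟩

theorem lin_inv (X : Set (PPt K N)) (f g : PPt K N → PPt K N) (hf : Set.MapsTo f X X)
    (hg : Set.MapsTo g X X) (hfg : ∀ x ∈ X, f (g x) = x) (hgf : ∀ x ∈ X, g (f x) = x)
    (A B : Matrix ι ι ℤ) (hAB : A * B = 1) (hA : LinActsBy X f A) : LinActsBy X g B := by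
  have hBA : B * A = 1 := mul_eq_one_comm.1 hAB
  have htr : ∀ c : ι ⊕ ι → ℤ, Generated (graph X f) c →
      Generated (graph X g) (fun s => c (Equiv.sumComm ι ι s)) := by
    intro c hc
    refine lg_transport (M := Sum.elim N N) (M' := Sum.elim N N) (Equiv.sumComm ι ι) ?_
      (graph X f) (graph X g) ?_ c hc
    · rintro (i | i) <;> rfl
    · rintro _ ⟨x, hx, rfl⟩
      refine ⟨pair (g x) (f (g x)), ⟨g x, hg hx, rfl⟩, ?_⟩
      rintro (i | i) j
      · have h1 : (pair (g x) (f (g x)) : PPt K (Sum.elim N N)) (Equiv.sumComm ι ι (Sum.inl i)) =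
            x i := by
          show f (g x) i = x i
          rw [hfg x hx]
        exact congrArg (fun q : ℙ K (Fin (N i + 1) → K) => q.rep j) h1.symm
      · rfl
  have hs : ∀ j, (fun s => Sum.elim (fun k => -A j k) (Pi.single j (1 : ℤ)) (Equiv.sumComm ι ι s)) ∈
      lgH (graph X g) := by
    intro j
    exact ⟨htr _ (hA j).1, htr _ (hA j).2⟩
  intro i
  have h1 : -(∑ j, B i j • fun s : ι ⊕ ι =>
      Sum.elim (fun k => -A j k) (Pi.single j (1 : ℤ)) (Equiv.sumComm ι ι s)) ∈ lgH (graph X g) :=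
    AddSubgroup.neg_mem _ (AddSubgroup.sum_mem _ fun j _ => AddSubgroup.zsmul_mem _ (hs j) _)
  have h2 : -(∑ j, B i j • fun s : ι ⊕ ι =>
      Sum.elim (fun k => -A j k) (Pi.single j (1 : ℤ)) (Equiv.sumComm ι ι s)) =
      Sum.elim (fun j => -B i j) (Pi.single i 1) := by
    funext s
    rw [Pi.neg_apply, Finset.sum_apply]
    rcases s with k | k
    · simp [Pi.single_apply]
    · have h3 : (∑ j, B i j * A j k) = if i = k then 1 else 0 := by
        have := congrFun (congrFun hBA i) k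
        rw [Matrix.mul_apply, Matrix.one_apply] at this
        exact this
      simp only [Pi.smul_apply, smul_eq_mul, Equiv.sumComm_apply, Sum.swap_inr, Sum.elim_inl,
        Sum.elim_inr, mul_neg, Finset.sum_neg_distrib, neg_neg]
      rw [h3, Pi.single_apply]
      simp only [eq_comm]
  rw [h2] at h1
  exact h1

end Pool.Agent.KST
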