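import Pool.Agent.KST.Sdefs2
import Pool.Agent.KST.Dns
import Pool.Agent.LLC.Segk

/-!
# KST PRS: a pair of linear forms which is not constant on the curves

`ncs_exists`: suppose that there is no such pair. Choose a coordinate `w` such that `a = Pi.single w 1`
(`lin a y = seg y w`) is not zero everywhere on `Y` (`seg` is never `0`). For every `j` the pair `(a, b j)`
is constant: there is `c j` with `lin (b j) y = c j * lin a y` on `Y`. As the `b j` are a basis, every
linear form is on `Y` a multiple of `lin a`, so `seg y w' = c' w' * seg y w` for all `y ∈ Y` and all `w'`.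
So `seg y w ≠ 0` for all `y ∈ Y` and all the vectors `seg y`, `y ∈ Y`, are proportional, so all the
points of `Y` are equal (two points with proportional Segre coordinates are equal; see
`seg_unseg`/`LLC/Segk.lean` or prove it: compare the coordinates `update w₀ i j`), contradiction.

`prs`: for every `w : SIx N` for which `a_w = Pi.single w 1` satisfies `∃ x ∈ X, lin a_w x ≠ 0` let `S w` be
the finite set of proper subspaces from `hP`. There is a basis `b_w` of `SIx N → E` outside of the
union of the `T ∈ S w` (`basis_avoid`: `E` is infinite; choose the vectors one by one outside of the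
finitely many proper subspaces `T` and the span of the previous ones:
`Subspace.exists_eq_top_of_iUnion_eq_univ` or similar). `hP` gives `D`, `Φ w j`, `T w j` for every `j`.
`V` = the union over `w, j` of the zero sets of the `Φ w j` (`zc_forms`, finite union), it does not
contain `X` (irreducible). By `dn_avoid` the `n` with `f^[n] x₀ ∉ V` are dense. For every such `n` apply
`ncs_exists` to `Y = f^[n] '' Z` and the bases `b_w` (for the `w` with `lin a_w` not zero on `Y ⊆ X`; for the
others any basis): there is a pair `(w, j)` with `Ncs`. `Y` has two points since `f^[n]` is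
injective on `X` (`g`), `Z` has two points (infinite: `inf_of_deg`). `dn_union` over the finitely many
pairs gives one pair `(w, j)`.
-/

open MvPolynomial
open scoped LinearAlgebra.Projectivization

namespace Pool.Agent.KST

open Pool.Agent.Helper90.KSC Pool.Agent.Helper63.SAND Pool.Agent.Helper63.WH Pool.Agent.PW
  Pool.Agent.LLC

variable {E ι : Type*} [Field E] [CharZero E] [Algebra.IsAlgebraic ℚ E]
  [Fintype ι] [DecidableEq ι] {N : ι → ℕ}

/-- Finitely many proper subspaces do not contain all the vectors of all the bases. -/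
theorem basis_avoid {F V : Type*} [Field F] [Infinite F] [AddCommGroup V] [Module F V]
    [Module.Finite F V] (S : Finset (Submodule F V)) (hS : ∀ T ∈ S, T ≠ ⊤) :
    ∃ (m : ℕ) (b : Fin m → V), Submodule.span F (Set.range b) = ⊤ ∧ ∀ j, ∀ T ∈ S, b j ∉ T := by
  classical
  obtain ⟨U, hU⟩ : ∃ U : Set V, U = {v | ∀ T ∈ S, v ∉ T} := ⟨_, rfl⟩
  have hspan : Submodule.span F U = ⊤ := by
    by_contra hne
    obtain ⟨x, hx⟩ := Submodule.exists_forall_notMem_of_forall_ne_top
      (fun T : (insert (Submodule.span F U) S : Finset (Submodule F V)) =>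
        (T : Submodule F V)) (by
        rintro ⟨T, hT⟩
        rcases Finset.mem_insert.1 hT with rfl | hT
        · exact hne
        · exact hS T hT)
    have h1 : x ∈ U := by
      rw [hU]
      exact fun T hT => hx ⟨T, Finset.mem_insert_of_mem hT⟩
    exact hx ⟨_, Finset.mem_insert_self _ _⟩ (Submodule.subset_span h1)
  obtain ⟨s, hsU, hs⟩ := (Submodule.fg_span_iff_fg_span_finset_subset U).1 (by
    rw [hspan]
    exact Module.Finite.fg_top)
  refine ⟨s.card, fun j => (s.equivFin.symm j : V), ?_, fun j T hT => ?_⟩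
  · have h2 : Set.range (fun j => (s.equivFin.symm j : V)) = s := by
      ext v
      constructor
      · rintro ⟨j, rfl⟩
        exact (s.equivFin.symm j).2
      · intro hv
        exact ⟨s.equivFin ⟨v, hv⟩, congrArg Subtype.val (Equiv.symm_apply_apply s.equivFin ⟨v, hv⟩)⟩
    rw [h2, ← hs, hspan]
  · have h3 : (s.equivFin.symm j : V) ∈ U := hsU (s.equivFin.symm j).2
    rw [hU] at h3
    exact h3 T hT

omit [CharZero E] [Algebra.IsAlgebraic ℚ E] in
private theorem prs_seg_inj (y y' : PPt E N) (c : E) (h : ∀ w, seg y w = c * seg y' w) :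
    y = y' := by
  have hc : c ≠ 0 := by
    rintro rfl
    refine seg_ne_zero y ?_
    funext w
    rw [h w, zero_mul]
    rfl
  obtain ⟨w₀, hw₀⟩ := Function.ne_iff.1 (seg_ne_zero y)
  funext i
  rw [← LLC.unseg_mk y (seg y) 1 one_ne_zero (fun w => (one_mul _).symm) w₀ hw₀ i,
    LLC.unseg_mk y' (seg y) c hc h w₀ hw₀ i]

omit [CharZero E] [Algebra.IsAlgebraic ℚ E] in
private theorem prs_lin_single (w : SIx N) (y : PPt E N) :
    lin (Pi.single w 1) y = seg y w := by
  rw [lin, Finset.sum_eq_single w]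
  · rw [Pi.single_eq_same, one_mul]
  · intro w' _ hw'
    rw [Pi.single_eq_of_ne hw', zero_mul]
  · intro h
    exact absurd (Finset.mem_univ _) h

theorem ncs_exists (Y : Set (PPt E N)) (hY : ∃ y ∈ Y, ∃ y' ∈ Y, y ≠ y') (m : SIx N → ℕ)
    (b : ∀ w : SIx N, Fin (m w) → SIx N → E)
    (hb : ∀ w, (∃ y ∈ Y, lin (Pi.single w 1) y ≠ 0) →
      Submodule.span E (Set.range (b w)) = ⊤) :
    ∃ (w : SIx N) (j : Fin (m w)), Ncs Y (Pi.single w 1) (b w j) := by
  obtain ⟨y₀, hy₀, y₁, hy₁, hne⟩ := hY
  obtain ⟨w, hw⟩ := Function.ne_iff.1 (seg_ne_zero y₀)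
  have hw' : ∃ y ∈ Y, lin (Pi.single w 1) y ≠ 0 := ⟨y₀, hy₀, by rw [prs_lin_single]; exact hw⟩
  by_contra hcon
  push Not at hcon
  have h1 : ∀ j : Fin (m w), ∃ c : E, ∀ y ∈ Y, lin (b w j) y = c * seg y w := by
    intro j
    by_contra h2
    push Not at h2
    refine hcon w j ⟨hw', fun c => ?_⟩
    obtain ⟨y, hy, h3⟩ := h2 c
    exact ⟨y, hy, by rw [prs_lin_single]; exact h3⟩
  have h4 : ∀ v : SIx N → E, ∃ c : E, ∀ y ∈ Y, lin v y = c * seg y w := by
    intro v
    have hv : v ∈ Submodule.span E (Set.range (b w)) := by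
      rw [hb w hw']
      exact Submodule.mem_top
    induction hv using Submodule.span_induction with
    | mem x hx =>
      obtain ⟨j, rfl⟩ := hx
      exact h1 j
    | zero => exact ⟨0, fun y _ => by simp [lin]⟩
    | add x x' _ _ hx hx' =>
      obtain ⟨c, hc⟩ := hx
      obtain ⟨c', hc'⟩ := hx'
      refine ⟨c + c', fun y hy => ?_⟩
      have h5 : lin (x + x') y = lin x y + lin x' y := by
        simp only [lin, Pi.add_apply, add_mul, Finset.sum_add_distrib]
      rw [h5, hc y hy, hc' y hy]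
      ring
    | smul r x _ hx =>
      obtain ⟨c, hc⟩ := hx
      refine ⟨r * c, fun y hy => ?_⟩
      have h5 : lin (r • x) y = r * lin x y := by
        simp only [lin, Pi.smul_apply, smul_eq_mul, Finset.mul_sum, mul_assoc]
      rw [h5, hc y hy]
      ring
  have h6 : ∀ w', ∃ c : E, ∀ y ∈ Y, seg y w' = c * seg y w := by
    intro w'
    obtain ⟨c, hc⟩ := h4 (Pi.single w' 1)
    exact ⟨c, fun y hy => by rw [← hc y hy, prs_lin_single]⟩
  choose c hc using h6
  have h7 : seg y₁ w ≠ 0 := by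
    intro h8
    refine seg_ne_zero y₁ ?_
    funext w'
    rw [hc w' y₁ hy₁, h8, mul_zero]
    rfl
  refine hne (prs_seg_inj y₀ y₁ (seg y₀ w / seg y₁ w) fun w' => ?_)
  rw [hc w' y₀ hy₀, hc w' y₁ hy₁]
  field_simp

theorem prs (X : Set (PPt E N)) (e₀ : ℕ) (f g : PPt E N → PPt E N) (A B : Matrix ι ι ℤ)
    (h : Aut3 X e₀ f g A B) (Z : Set (PPt E N)) (hZX : Z ⊆ X) (hinf : Z.Infinite)
    (hP : Pins X f Z) (x₀ : PPt E N) (hx₀ : x₀ ∈ Z) (hd : Dn X f x₀ Set.univ) :
    ∃ (a b : SIx N → E) (D : ℕ) (Φ : MvPolynomial (SIx N) E) (T : ℝ), Pin f Z a b D Φ T ∧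
      Dn X f x₀ {n | eval (seg (f^[n] x₀)) Φ ≠ 0 ∧ Ncs (f^[n] '' Z) a b} := by
  classical
  have h1 : ∀ w : SIx N, ∃ (m : ℕ) (b : Fin m → SIx N → E) (D : Fin m → ℕ)
      (Φ : Fin m → MvPolynomial (SIx N) E) (T : Fin m → ℝ),
      ((∃ x ∈ X, lin (Pi.single w 1 : SIx N → E) x ≠ 0) →
        Submodule.span E (Set.range b) = ⊤) ∧
      ∀ j, Pin f Z (Pi.single w 1) (b j) (D j) (Φ j) (T j) ∧
        ∃ x ∈ X, eval (seg x) (Φ j) ≠ 0 := by
    intro w
    by_cases hw : ∃ x ∈ X, lin (Pi.single w 1 : SIx N → E) x ≠ 0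
    · obtain ⟨S, hS, hSb⟩ := hP _ hw
      obtain ⟨m, b, hb, hbS⟩ := basis_avoid S hS
      choose D Φ T hDΦ using fun j => hSb (b j) (hbS j)
      exact ⟨m, b, D, Φ, T, fun _ => hb, hDΦ⟩
    · exact ⟨0, Fin.elim0, Fin.elim0, Fin.elim0, Fin.elim0, fun h => absurd h hw,
        fun j => j.elim0⟩
  choose m b D Φ T hspan hpin using h1
  have h2 : ∀ s : Finset (Σ w : SIx N, Fin (m w)),
      Dn X f x₀ {n | ∀ p ∈ s, eval (seg (f^[n] x₀)) (Φ p.1 p.2) ≠ 0} := by
    intro s
    induction s using Finset.induction_on with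
    | empty =>
      intro V hV hn
      exact hd V hV fun n _ => hn n fun p hp => absurd hp (Finset.notMem_empty p)
    | insert p s hp ih =>
      have h3 := dn_avoid X h.irr f x₀ _ ih {y | ∀ _ : Unit, eval (seg y) (Φ p.1 p.2) = 0}
        (zc_forms (fun _ : Unit => Φ p.1 p.2) (fun _ => D p.1 p.2)
          fun _ => (hpin p.1 p.2).1.hom) (by
          intro hsub
          obtain ⟨x, hx, hne⟩ := (hpin p.1 p.2).2
          exact hne (hsub hx ()))
      intro V hV hn
      refine h3 V hV fun n hn' => hn n fun q hq => ?_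
      rcases Finset.mem_insert.1 hq with rfl | hq
      · intro h4
        exact hn'.2 fun _ => h4
      · exact hn'.1 q hq
  obtain ⟨z₁, hz₁, z₂, hz₂, hz⟩ := hinf.nontrivial
  have hinj : ∀ n, ∀ x ∈ X, g^[n] (f^[n] x) = x := by
    intro n
    induction n with
    | zero => exact fun x _ => rfl
    | succ n ih =>
      intro x hx
      rw [Function.iterate_succ_apply, Function.iterate_succ_apply' f,
        h.gf _ (h.mf.iterate n hx), ih x hx]
  obtain ⟨p, hp⟩ := dn_union X h.irr f x₀ _ (h2 Finset.univ)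
    (fun p : (Σ w : SIx N, Fin (m w)) =>
      {n | Ncs (f^[n] '' Z) (Pi.single p.1 1) (b p.1 p.2)}) (by
      intro n _
      obtain ⟨w, j, hwj⟩ := ncs_exists (f^[n] '' Z)
        ⟨_, ⟨z₁, hz₁, rfl⟩, _, ⟨z₂, hz₂, rfl⟩, fun h5 => hz (by
          rw [← hinj n z₁ (hZX hz₁), h5, hinj n z₂ (hZX hz₂)])⟩ m b (by
          rintro w ⟨y, ⟨z, hz, rfl⟩, hy⟩
          exact hspan w ⟨_, h.mf.iterate n (hZX hz), hy⟩)
      exact ⟨⟨w, j⟩, hwj⟩)
  refine ⟨_, _, _, _, _, (hpin p.1 p.2).1, fun V hV hn => hp V hV fun n hn' => hn n ⟨?_, hn'.2⟩⟩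
  exact hn'.1 p (Finset.mem_univ _)

end Pool.Agent.KST
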