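import Pool.Agent.KST.Exa

/-!
# KST REG: regular growth of a perturbed linear recursion

Notation and tools as in Exa.lean (`dicho`, `gb_aux`, `lin_low`, `lin_up` in LLC/LinA). Over `ℂ`,
`B = A.map cast`, `X n = (H n)`, `‖X (n+1) - B (X n)‖ ≤ |b|`; `S` = the roots, split into `S₁`: modulus `< a`,
`S₂`: modulus `= a`, `S₃`: modulus `> a`; `p_i = rts S_i`, pairwise coprime, `p₁ p₂ p₃ (B) = 0`; Bezout
gives polynomials `Q₁ + Q₂ + Q₃ = 1` with `p_i Q_i` divisible by `p₁ p₂ p₃`. Let `Y_i n = Q_i(B) (X n)`: `p_i(B) (Y_i n) = 0`,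
`‖Y_i (n+1) - B (Y_i n)‖ ≤ K`.
`Y₃` is bounded: `dicho` with `t > a` less than the moduli of `S₃`; the second alternative `c t ^ n ≤ ‖Y₃ n‖ ≤
K' ‖X n‖` contradicts `hlim` (`‖X n‖ ≤ ∑ H n i ≤ a' ^ n` for large `n`, `a < a' < t`).
`Y₁`: `‖Y₁ n‖ ≤ C r ^ n` for some `r < a`, `1 < r` (`gb_aux`).
`‖X n‖ ≥ a' ^ n / card ι` for large `n`, for every `a' < a`, so `‖Y₁ n‖ + ‖Y₃ n‖ ≤ ‖X n‖ / 2` for large `n`, and
`‖X n‖ ≤ 2 ‖Y₂ n‖`, `‖Y₂ n‖ ≤ K' ‖X n‖`, and `‖Y₂ n‖ → ∞`.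
`Y₂ (n + m) = B ^ m (Y₂ n) + e`, `‖e‖ ≤ C_m` (constant depending on `m`). `lin_low` with `ρ = a`:
`a ^ m ‖Y₂ n‖ ≤ C (1 + m) ^ C ‖B ^ m (Y₂ n)‖ ≤ C (1 + m) ^ C (‖Y₂ (n + m)‖ + C_m)`, and for `n` large (depending on `m`)
`C (1 + m) ^ C C_m ≤ a ^ m ‖Y₂ n‖ / 2`; so `a ^ m ‖Y₂ n‖ ≤ 2 C (1 + m) ^ C ‖Y₂ (n + m)‖`. `lin_up` with `r = a` (`a ≥ 1`):
`‖Y₂ (n + m)‖ ≤ C (1 + m) ^ C a ^ m ‖Y₂ n‖ + C_m ≤ 2 C (1 + m) ^ C a ^ m ‖Y₂ n‖` for `n` large (`C ≥ 1`). Finally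
`‖X n‖ ≤ ∑ i, H n i ≤ card ι ‖X n‖`.
-/

open Filter Topology

namespace Pool.Agent.KST

variable {ι : Type*} [Fintype ι] [DecidableEq ι]

omit [DecidableEq ι] in
private theorem reg_split (M : Matrix ι ι ℂ) : ∃ K : ℝ, 0 ≤ K ∧ ∀ v : ι → ℂ, ∃ u : ι → ℂ,
    M.mulVec u = 0 ∧ ‖v - u‖ ≤ K * ‖M.mulVec v‖ := by
  obtain ⟨f, hf⟩ : ∃ f : (ι → ℂ) →ₗ[ℂ] (ι → ℂ), f = M.mulVecLin := ⟨_, rfl⟩
  have hfM : ∀ w, f w = M.mulVec w := fun w => by rw [hf]; rfl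
  obtain ⟨g, hg⟩ := f.rangeRestrict.exists_rightInverse_of_surjective f.range_rangeRestrict
  refine ⟨‖LinearMap.toContinuousLinearMap g‖, (LinearMap.toContinuousLinearMap g).opNorm_nonneg, fun v =>
    ⟨v - g (f.rangeRestrict v), ?_, ?_⟩⟩
  · have h1 : f.rangeRestrict (g (f.rangeRestrict v)) = f.rangeRestrict v :=
      LinearMap.congr_fun hg (f.rangeRestrict v)
    have h2 : f (g (f.rangeRestrict v)) = f v := congrArg Subtype.val h1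
    have h3 : M.mulVec (v - g (f.rangeRestrict v)) = f v - f (g (f.rangeRestrict v)) := by
      rw [← map_sub, hfM]
    rw [h3, h2, sub_self]
  · rw [sub_sub_cancel]
    have h4 := (LinearMap.toContinuousLinearMap g).le_opNorm (f.rangeRestrict v)
    have h5 : ‖f.rangeRestrict v‖ = ‖M.mulVec v‖ := by
      show ‖f v‖ = _
      rw [hfM]
    rw [h5] at h4
    exact h4

private theorem reg_err (B : Matrix ι ι ℂ) (X : ℕ → ι → ℂ) (K : ℝ)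
    (hK : ∀ n, ‖X (n + 1) - B.mulVec (X n)‖ ≤ K) (k : ℕ) :
    ∃ Q : ℝ, 0 ≤ Q ∧ ∀ n, ‖X (n + k) - (B ^ k).mulVec (X n)‖ ≤ Q := by
  have hK0 : 0 ≤ K := (norm_nonneg _).trans (hK 0)
  obtain ⟨b, hb0, hb⟩ := mv_bound B
  induction k with
  | zero => exact ⟨0, le_rfl, fun n => by simp⟩
  | succ k ih =>
    obtain ⟨Q, hQ0, hQ⟩ := ih
    refine ⟨K + b * Q, by positivity, fun n => ?_⟩
    have e1 : X (n + (k + 1)) - (B ^ (k + 1)).mulVec (X n) =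
        (X (n + k + 1) - B.mulVec (X (n + k))) +
          B.mulVec (X (n + k) - (B ^ k).mulVec (X n)) := by
      rw [Matrix.mulVec_sub, Matrix.mulVec_mulVec, ← pow_succ', add_assoc n k 1]
      abel
    rw [e1]
    exact (norm_add_le _ _).trans (add_le_add (hK _) ((hb _).trans
      (mul_le_mul_of_nonneg_left (hQ n) hb0)))

private theorem reg_arith {C C' : ℕ} (h : C ≤ C') {D : ℝ} (hD : D ≤ C') (m : ℕ) :
    D * (1 + (m : ℝ)) ^ C ≤ C' * (1 + (m : ℝ)) ^ C' := by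
  have h1 : (1 : ℝ) ≤ 1 + m := by
    have : (0 : ℝ) ≤ m := Nat.cast_nonneg m
    linarith
  exact mul_le_mul hD (pow_le_pow_right₀ h1 h) (by positivity) (Nat.cast_nonneg _)

private theorem reg_core (B : Matrix ι ι ℂ) (s : Multiset ℂ) (a : ℝ) (ha : 1 ≤ a) (hs : ∀ z ∈ s, ‖z‖ = a)
    (X : ℕ → ι → ℂ) (K : ℝ) (hK : ∀ n, ‖X (n + 1) - B.mulVec (X n)‖ ≤ K) (r : ℝ) (hr : 1 ≤ r)
    (hW : GB r fun n => (Polynomial.aeval B (LLC.rts s)).mulVec (X n))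
    (hgrow : ∀ E : ℝ, ∀ᶠ n : ℕ in atTop, E * r ^ n ≤ ‖X n‖) :
    ∃ C : ℕ, ∀ m : ℕ, ∃ n₀ : ℕ, ∀ n, n₀ ≤ n →
      a ^ m * ‖X n‖ ≤ C * (1 + (m : ℝ)) ^ C * ‖X (n + m)‖ ∧
      ‖X (n + m)‖ ≤ C * (1 + (m : ℝ)) ^ C * a ^ m * ‖X n‖ := by
  obtain ⟨C₁, hC₁⟩ := LLC.lin_low B s a (by linarith) (fun z hz => (hs z hz).ge)
  obtain ⟨C₂, hC₂⟩ := LLC.lin_up B s a ha (fun z hz => (hs z hz).le)
  obtain ⟨K', hK'0, hK'⟩ := reg_split (Polynomial.aeval B (LLC.rts s))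
  obtain ⟨c, hc⟩ := hW
  refine ⟨2 * C₁ + C₂ + 1, fun m => ?_⟩
  obtain ⟨Q, hQ0, hQ⟩ := reg_err B X K hK m
  obtain ⟨P, hP0, hP⟩ := mv_bound (B ^ m)
  obtain ⟨D, hD⟩ : ∃ D : ℝ, D = K' * |c| := ⟨_, rfl⟩
  have hD0 : 0 ≤ D := by rw [hD]; positivity
  obtain ⟨G₁, hG₁⟩ : ∃ G : ℝ, G = C₁ * (1 + (m : ℝ)) ^ C₁ := ⟨_, rfl⟩
  obtain ⟨G₂, hG₂⟩ : ∃ G : ℝ, G = C₂ * (1 + (m : ℝ)) ^ C₂ := ⟨_, rfl⟩
  have hG₁0 : 0 ≤ G₁ := by rw [hG₁]; positivity
  have hG₂0 : 0 ≤ G₂ := by rw [hG₂]; positivity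
  obtain ⟨n₀, hn₀⟩ := eventually_atTop.1 ((hgrow (2 * (G₁ * (Q + P * D) + a ^ m * D))).and
    (hgrow (G₂ * a ^ m * D + (Q + P * D))))
  refine ⟨n₀, fun n hn => ?_⟩
  obtain ⟨hE1, hE2⟩ := hn₀ n hn
  obtain ⟨u, hu0, hu⟩ := hK' (X n)
  obtain ⟨R, hR⟩ : ∃ R : ℝ, R = r ^ n := ⟨_, rfl⟩
  have hR1 : 1 ≤ R := by rw [hR]; exact one_le_pow₀ hr
  rw [← hR] at hE1 hE2
  have hcn := hc n
  rw [← hR] at hcn
  have ham : 1 ≤ a ^ m := one_le_pow₀ ha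
  have hu1 : ‖X n - u‖ ≤ D * R := by
    refine hu.trans ?_
    rw [hD, mul_assoc]
    refine mul_le_mul_of_nonneg_left (hcn.trans ?_) hK'0
    exact mul_le_mul_of_nonneg_right (le_abs_self c) (by linarith)
  have hlow := hC₁ u hu0 m
  have hup := hC₂ u hu0 m
  rw [← hG₁] at hlow
  rw [← hG₂] at hup
  have e1 : ‖X n‖ ≤ ‖u‖ + D * R := by
    have h1 : X n = u + (X n - u) := by abel
    calc ‖X n‖ = ‖u + (X n - u)‖ := by rw [← h1]
      _ ≤ ‖u‖ + ‖X n - u‖ := norm_add_le _ _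
      _ ≤ _ := by linarith
  have e2 : ‖u‖ ≤ ‖X n‖ + D * R := by
    have h1 : u = X n - (X n - u) := by abel
    calc ‖u‖ = ‖X n - (X n - u)‖ := by rw [← h1]
      _ ≤ ‖X n‖ + ‖X n - u‖ := norm_sub_le _ _
      _ ≤ _ := by linarith
  have e3 : ‖(B ^ m).mulVec (X n - u)‖ ≤ P * (D * R) :=
    (hP _).trans (mul_le_mul_of_nonneg_left hu1 hP0)
  have e4 : ‖(B ^ m).mulVec u‖ ≤ ‖X (n + m)‖ + (Q + P * D) * R := by
    have h1 : (B ^ m).mulVec u = X (n + m) - (X (n + m) - (B ^ m).mulVec (X n)) -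
        (B ^ m).mulVec (X n - u) := by
      rw [Matrix.mulVec_sub]; abel
    rw [h1]
    refine (norm_sub_le _ _).trans ?_
    have h2 := norm_sub_le (X (n + m)) (X (n + m) - (B ^ m).mulVec (X n))
    have h3 := hQ n
    nlinarith
  have e5 : ‖X (n + m)‖ ≤ ‖(B ^ m).mulVec u‖ + (Q + P * D) * R := by
    have h1 : X (n + m) = (B ^ m).mulVec u + (X (n + m) - (B ^ m).mulVec (X n)) +
        (B ^ m).mulVec (X n - u) := by
      rw [Matrix.mulVec_sub]; abel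
    have h4 : ‖X (n + m)‖ = ‖(B ^ m).mulVec u + (X (n + m) - (B ^ m).mulVec (X n)) +
        (B ^ m).mulVec (X n - u)‖ := by rw [← h1]
    rw [h4]
    refine (norm_add_le _ _).trans ?_
    have h2 := norm_add_le ((B ^ m).mulVec u) (X (n + m) - (B ^ m).mulVec (X n))
    have h3 := hQ n
    nlinarith
  have hX0 : 0 ≤ ‖X n‖ := norm_nonneg _
  have hXm0 : 0 ≤ ‖X (n + m)‖ := norm_nonneg _
  have hXa : ‖X n‖ ≤ a ^ m * ‖X n‖ := by nlinarith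
  constructor
  · have h1 : a ^ m * ‖X n‖ ≤ a ^ m * ‖u‖ + a ^ m * (D * R) := by
      rw [← mul_add]
      exact mul_le_mul_of_nonneg_left e1 (by linarith)
    have h2 : G₁ * ‖(B ^ m).mulVec u‖ ≤ G₁ * (‖X (n + m)‖ + (Q + P * D) * R) :=
      mul_le_mul_of_nonneg_left e4 hG₁0
    have h3 : a ^ m * ‖X n‖ ≤ 2 * G₁ * ‖X (n + m)‖ := by nlinarith
    refine h3.trans (mul_le_mul_of_nonneg_right ?_ hXm0)
    rw [hG₁, ← mul_assoc]
    refine reg_arith (by omega) ?_ m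
    push_cast
    have : (0 : ℝ) ≤ C₂ := Nat.cast_nonneg _
    linarith
  · have h2 : G₂ * a ^ m * ‖u‖ ≤ G₂ * a ^ m * (‖X n‖ + D * R) :=
      mul_le_mul_of_nonneg_left e2 (by positivity)
    have h3 : ‖X (n + m)‖ ≤ (G₂ + 1) * (a ^ m * ‖X n‖) := by nlinarith
    refine h3.trans ?_
    rw [mul_assoc _ (a ^ m) ‖X n‖]
    refine mul_le_mul_of_nonneg_right ?_ (by positivity)
    have h5 : G₂ + 1 ≤ ((C₂ : ℝ) + 1) * (1 + (m : ℝ)) ^ C₂ := by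
      have h6 : (1 : ℝ) ≤ (1 + (m : ℝ)) ^ C₂ := one_le_pow₀ (by
        have : (0 : ℝ) ≤ m := Nat.cast_nonneg m
        linarith)
      rw [hG₂]; linarith
    refine h5.trans (reg_arith (by omega) ?_ m)
    push_cast
    have : (0 : ℝ) ≤ C₁ := Nat.cast_nonneg _
    linarith

private theorem rts_add (s s' : Multiset ℂ) : LLC.rts (s + s') = LLC.rts s * LLC.rts s' := by
  unfold LLC.rts
  rw [Multiset.map_add, Multiset.prod_add]

private theorem reg_comm (B : Matrix ι ι ℂ) (q : Polynomial ℂ) (v : ι → ℂ) :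
    (Polynomial.aeval B q).mulVec (B.mulVec v) = B.mulVec ((Polynomial.aeval B q).mulVec v) := by
  have h1 : Polynomial.aeval B (Polynomial.X : Polynomial ℂ) * Polynomial.aeval B q =
      Polynomial.aeval B q * Polynomial.aeval B (Polynomial.X : Polynomial ℂ) := by
    rw [← map_mul, ← map_mul, mul_comm]
  rw [Polynomial.aeval_X] at h1
  rw [Matrix.mulVec_mulVec, Matrix.mulVec_mulVec, h1]

theorem reg (A : Matrix ι ι ℤ) (b : ℝ) (H : ℕ → ι → ℝ) (hH0 : ∀ n i, 0 ≤ H n i)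
    (hH : ∀ n i, |H (n + 1) i - ∑ j, (A i j : ℝ) * H n j| ≤ b) (a : ℝ) (ha : 1 < a)
    (hlim : Tendsto (fun n : ℕ => (max (∑ i, H n i) 1) ^ ((1 : ℝ) / n)) atTop (𝓝 a)) :
    ∃ C : ℕ, ∀ m : ℕ, ∃ n₀ : ℕ, ∀ n, n₀ ≤ n →
      a ^ m * ∑ i, H n i ≤ C * (1 + (m : ℝ)) ^ C * ∑ i, H (n + m) i ∧
      ∑ i, H (n + m) i ≤ C * (1 + (m : ℝ)) ^ C * a ^ m * ∑ i, H n i := by
  classical
  obtain ⟨B, hB⟩ : ∃ B : Matrix ι ι ℂ, B = A.map (Int.cast : ℤ → ℂ) := ⟨_, rfl⟩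
  obtain ⟨S, hS⟩ : ∃ S, S = (A.charpoly.map (Int.castRingHom ℂ)).roots := ⟨_, rfl⟩
  have hchar : Polynomial.aeval B (LLC.rts S) = 0 := by
    have h0 : B = A.map (Int.castRingHom ℂ) := hB
    have h1 : A.charpoly.map (Int.castRingHom ℂ) = B.charpoly := by
      rw [h0, Matrix.charpoly_map]
    have h2 : LLC.rts S = B.charpoly := by
      rw [hS, h1]
      unfold LLC.rts
      exact ((IsAlgClosed.splits B.charpoly).eq_prod_roots_of_monic B.charpoly_monic).symm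
    rw [h2]
    exact Matrix.aeval_self_charpoly B
  set X : ℕ → ι → ℂ := fun n i => (H n i : ℂ) with hX
  have hK : ∀ n, ‖X (n + 1) - B.mulVec (X n)‖ ≤ |b| := by
    intro n
    rw [pi_norm_le_iff_of_nonneg (abs_nonneg b)]
    intro i
    have h1 : (X (n + 1) - B.mulVec (X n)) i =
        ((H (n + 1) i - ∑ j, (A i j : ℝ) * H n j : ℝ) : ℂ) := by
      rw [Pi.sub_apply, hB]
      simp only [Matrix.mulVec, dotProduct, Matrix.map_apply, hX]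
      push_cast
      rfl
    rw [h1, Complex.norm_real, Real.norm_eq_abs]
    exact (hH n i).trans (le_abs_self b)
  have hHX : ∀ n i, H n i ≤ ‖X n‖ := by
    intro n i
    have h1 := norm_le_pi_norm (X n) i
    rw [hX, Complex.norm_real, Real.norm_eq_abs] at h1
    exact (le_abs_self _).trans h1
  have hXH : ∀ n, ‖X n‖ ≤ ∑ i, H n i := by
    intro n
    have h0 : 0 ≤ ∑ i, H n i := Finset.sum_nonneg fun i _ => hH0 n i
    rw [pi_norm_le_iff_of_nonneg h0]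
    intro i
    rw [hX, Complex.norm_real, Real.norm_eq_abs, abs_of_nonneg (hH0 n i)]
    exact Finset.single_le_sum (fun j _ => hH0 n j) (Finset.mem_univ i)
  have hHc : ∀ n, ∑ i, H n i ≤ ((Fintype.card ι : ℝ) + 1) * ‖X n‖ := by
    intro n
    have h0 : 0 ≤ ‖X n‖ := norm_nonneg _
    calc ∑ i, H n i ≤ ∑ _i : ι, ‖X n‖ := Finset.sum_le_sum fun i _ => hHX n i
      _ = Fintype.card ι * ‖X n‖ := by rw [Finset.sum_const, Finset.card_univ, nsmul_eq_mul]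
      _ ≤ _ := by nlinarith
  have hXH0 : ∀ n, 0 ≤ ‖X n‖ := fun n => norm_nonneg _
  -- growth from above
  have hup : ∀ t, a < t → ∀ᶠ n : ℕ in atTop, ‖X n‖ ≤ t ^ n := by
    intro t ht
    have ht0 : 0 ≤ t := by linarith
    filter_upwards [hlim.eventually (gt_mem_nhds ht), eventually_ge_atTop 1] with n hn1 hn2
    have hn0 : n ≠ 0 := by omega
    have hm0 : 0 ≤ max (∑ i, H n i) 1 := le_trans zero_le_one (le_max_right _ _)
    have h1 := pow_le_pow_left₀ (Real.rpow_nonneg hm0 _) hn1.le n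
    rw [one_div, Real.rpow_inv_natCast_pow hm0 hn0] at h1
    exact (hXH n).trans ((le_max_left _ _).trans h1)
  -- growth from below
  have hlow : ∀ t, 1 < t → t < a → ∀ᶠ n : ℕ in atTop, t ^ n ≤ ∑ i, H n i := by
    intro t ht1 hta
    have ht0 : 0 ≤ t := by linarith
    filter_upwards [hlim.eventually (lt_mem_nhds hta), eventually_ge_atTop 1] with n hn1 hn2
    have hn0 : n ≠ 0 := by omega
    have hm0 : 0 ≤ max (∑ i, H n i) 1 := le_trans zero_le_one (le_max_right _ _)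
    have h1 := pow_le_pow_left₀ ht0 hn1.le n
    rw [one_div, Real.rpow_inv_natCast_pow hm0 hn0] at h1
    have h2 : 1 < t ^ n := one_lt_pow₀ ht1 hn0
    rcases le_max_iff.1 h1 with h3 | h3
    · exact h3
    · linarith
  -- the roots of modulus `> a`
  obtain ⟨S₃, hS₃⟩ : ∃ S₃, S₃ = S.filter (fun z => a < ‖z‖) := ⟨_, rfl⟩
  obtain ⟨S₀, hS₀⟩ : ∃ S₀, S₀ = S.filter (fun z => ¬ a < ‖z‖) := ⟨_, rfl⟩
  have hSS : S₃ + S₀ = S := by
    rw [hS₃, hS₀]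
    exact Multiset.filter_add_not _ _
  obtain ⟨S₁, hS₁⟩ : ∃ S₁, S₁ = S₀.filter (fun z => ‖z‖ < a) := ⟨_, rfl⟩
  obtain ⟨S₂, hS₂⟩ : ∃ S₂, S₂ = S₀.filter (fun z => ¬ ‖z‖ < a) := ⟨_, rfl⟩
  have hSS' : S₁ + S₂ = S₀ := by
    rw [hS₁, hS₂]
    exact Multiset.filter_add_not _ _
  have herr : ∀ q : Polynomial ℂ, ∃ K : ℝ, ∀ n, ‖(Polynomial.aeval B q).mulVec (X (n + 1)) -
      B.mulVec ((Polynomial.aeval B q).mulVec (X n))‖ ≤ K := by
    intro q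
    obtain ⟨K₁, hK₁0, hK₁⟩ := mv_bound (Polynomial.aeval B q)
    refine ⟨K₁ * |b|, fun n => ?_⟩
    rw [← reg_comm, ← Matrix.mulVec_sub]
    exact (hK₁ _).trans (mul_le_mul_of_nonneg_left (hK n) hK₁0)
  have hbdd : ∃ K' : ℝ, ∀ n, ‖(Polynomial.aeval B (LLC.rts S₀)).mulVec (X n)‖ ≤ K' := by
    obtain ⟨ρ, hρa, hρ⟩ := gap_above S₃ a (fun z hz => by
      rw [hS₃] at hz
      exact (Multiset.mem_filter.1 hz).2)
    obtain ⟨K₀, hK₀⟩ := herr (LLC.rts S₀)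
    obtain ⟨K₁, hK₁0, hK₁⟩ := mv_bound (Polynomial.aeval B (LLC.rts S₀))
    have hY0 : ∀ n, (Polynomial.aeval B (LLC.rts S₃)).mulVec
        ((Polynomial.aeval B (LLC.rts S₀)).mulVec (X n)) = 0 := by
      intro n
      rw [Matrix.mulVec_mulVec, ← map_mul, ← rts_add, hSS, hchar, Matrix.zero_mulVec]
    rcases dicho B S₃ (t := (a + ρ) / 2) (by linarith) (fun z hz => by
      have := hρ z hz
      linarith) (fun n => (Polynomial.aeval B (LLC.rts S₀)).mulVec (X n)) hY0 hK₀ with h | ⟨c, hc, n₀, hn₀⟩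
    · exact h
    · exfalso
      have h1 := hup ((3 * a + ρ) / 4) (by linarith)
      have h2 := ev_lt (t := (3 * a + ρ) / 4) (a := (a + ρ) / 2) (by linarith) (by linarith) (K₁ / c)
      obtain ⟨n, ⟨hn1, hn2⟩, hn3⟩ := ((h1.and h2).and (eventually_ge_atTop n₀)).exists
      have h3 := hn₀ n hn3
      have h4 := hK₁ (X n)
      have h5 : K₁ * ‖X n‖ ≤ K₁ * ((3 * a + ρ) / 4) ^ n := mul_le_mul_of_nonneg_left hn1 hK₁0
      have h6 : K₁ * ((3 * a + ρ) / 4) ^ n < c * ((a + ρ) / 2) ^ n := by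
        have := mul_lt_mul_of_pos_left hn2 hc
        calc K₁ * ((3 * a + ρ) / 4) ^ n = c * (K₁ / c * ((3 * a + ρ) / 4) ^ n) := by
              field_simp
          _ < _ := this
      have h7 := h3.trans (h4.trans h5)
      linarith
  obtain ⟨r, hr1, hra, hr⟩ := gap_below S₀ ha
  have hW : GB r fun n => (Polynomial.aeval B (LLC.rts S₂)).mulVec (X n) := by
    obtain ⟨K', hK'⟩ := hbdd
    obtain ⟨K₂, hK₂⟩ := herr (LLC.rts S₂)
    refine gb_aux B S₁ (fun z hz => ?_) _ ?_ ?_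
    · rw [hS₁, Multiset.mem_filter] at hz
      exact hr z hz.1 hz.2
    · have e1 : (fun n => (Polynomial.aeval B (LLC.rts S₁)).mulVec
          ((Polynomial.aeval B (LLC.rts S₂)).mulVec (X n))) =
          fun n => (Polynomial.aeval B (LLC.rts S₀)).mulVec (X n) := by
        funext n
        rw [Matrix.mulVec_mulVec, ← map_mul, ← rts_add, hSS']
      rw [e1]
      exact gb_of_bdd hr1.le hK'
    · exact gb_of_bdd hr1.le hK₂
  have hgrow : ∀ E : ℝ, ∀ᶠ n : ℕ in atTop, E * r ^ n ≤ ‖X n‖ := by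
    intro E
    have hN : (0 : ℝ) < (Fintype.card ι : ℝ) + 1 := by positivity
    filter_upwards [hlow ((r + a) / 2) (by linarith) (by linarith),
      ev_lt (t := r) (a := (r + a) / 2) (by linarith) (by linarith) (((Fintype.card ι : ℝ) + 1) * E)]
      with n hn1 hn2
    have h1 := hHc n
    refine le_of_mul_le_mul_left ?_ hN
    rw [← mul_assoc]
    linarith
  obtain ⟨C, hC⟩ := reg_core B S₂ a ha.le (fun z hz => by
    rw [hS₂, Multiset.mem_filter, hS₀, Multiset.mem_filter] at hz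
    exact le_antisymm (not_lt.1 hz.1.2) (not_lt.1 hz.2)) X |b| hK r hr1.le hW hgrow
  refine ⟨(Fintype.card ι + 1) * C, fun m => ?_⟩
  obtain ⟨n₀, hn₀⟩ := hC m
  refine ⟨n₀, fun n hn => ?_⟩
  obtain ⟨h1, h2⟩ := hn₀ n hn
  have hN : (0 : ℝ) < (Fintype.card ι : ℝ) + 1 := by positivity
  have ham : 0 ≤ a ^ m := by positivity
  have hle : C ≤ (Fintype.card ι + 1) * C := Nat.le_mul_of_pos_left _ (Nat.succ_pos _)
  have h3 := reg_arith hle (D := ((Fintype.card ι : ℝ) + 1) * C) (by push_cast; exact le_rfl) m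
  have hs0 : ∀ n, 0 ≤ ∑ i, H n i := fun n => Finset.sum_nonneg fun i _ => hH0 n i
  constructor
  · calc a ^ m * ∑ i, H n i ≤ a ^ m * (((Fintype.card ι : ℝ) + 1) * ‖X n‖) :=
          mul_le_mul_of_nonneg_left (hHc n) ham
      _ = ((Fintype.card ι : ℝ) + 1) * (a ^ m * ‖X n‖) := by ring
      _ ≤ ((Fintype.card ι : ℝ) + 1) * (C * (1 + (m : ℝ)) ^ C * ‖X (n + m)‖) :=
          mul_le_mul_of_nonneg_left h1 hN.le
      _ = (((Fintype.card ι : ℝ) + 1) * C * (1 + (m : ℝ)) ^ C) * ‖X (n + m)‖ := by ring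
      _ ≤ (((Fintype.card ι : ℝ) + 1) * C * (1 + (m : ℝ)) ^ C) * ∑ i, H (n + m) i :=
          mul_le_mul_of_nonneg_left (hXH _) (by positivity)
      _ ≤ _ := mul_le_mul_of_nonneg_right h3 (hs0 _)
  · calc ∑ i, H (n + m) i ≤ ((Fintype.card ι : ℝ) + 1) * ‖X (n + m)‖ := hHc _
      _ ≤ ((Fintype.card ι : ℝ) + 1) * (C * (1 + (m : ℝ)) ^ C * a ^ m * ‖X n‖) :=
          mul_le_mul_of_nonneg_left h2 hN.le
      _ = (((Fintype.card ι : ℝ) + 1) * C * (1 + (m : ℝ)) ^ C) * (a ^ m * ‖X n‖) := by ring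
      _ ≤ (((Fintype.card ι : ℝ) + 1) * C * (1 + (m : ℝ)) ^ C) * (a ^ m * ∑ i, H n i) :=
          mul_le_mul_of_nonneg_left (mul_le_mul_of_nonneg_left (hXH _) ham) (by positivity)
      _ ≤ (((Fintype.card ι + 1) * C : ℕ) * (1 + (m : ℝ)) ^ ((Fintype.card ι + 1) * C)) *
          (a ^ m * ∑ i, H n i) := mul_le_mul_of_nonneg_right h3 (mul_nonneg ham (hs0 _))
      _ = _ := by ring

end Pool.Agent.KST
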