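import Pool.Agent.KST.Defs

/-!
# KST: definitions for the conclusion
-/

open MvPolynomial
open scoped LinearAlgebra.Projectivization

namespace Pool.Agent.KST

open Pool.Agent.Helper90.KSC Pool.Agent.Helper63.SAND Pool.Agent.Helper63.WH Pool.Agent.PW
  Pool.Agent.LLC

variable {E ι : Type*} [Field E] [Fintype ι] [DecidableEq ι] {N : ι → ℕ}

/-- An automorphism `f` of a threefold `X`, its inverse `g`, and their actions on the classes. -/
structure Aut3 (X : Set (PPt E N)) (e₀ : ℕ) (f g : PPt E N → PPt E N) (A B : Matrix ι ι ℤ) :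
    Prop where
  cl : ZClosed X
  irr : Irred X
  e1 : 1 ≤ e₀
  deg : HasDegree X 3 e₀
  mf : Set.MapsTo f X X
  mg : Set.MapsTo g X X
  fg : ∀ x ∈ X, f (g x) = x
  gf : ∀ x ∈ X, g (f x) = x
  lf : LocallyByForms X f
  lg : LocallyByForms X g
  af : LinActsBy X f A
  ag : LinActsBy X g B
  ab : A * B = 1

/-- A curve `Z` in `X` on which all the iterates of `f` and `g` are given by forms of degree
`E₁`. -/
structure Bcv (X : Set (PPt E N)) (f g : PPt E N → PPt E N) (Z : Set (PPt E N)) (e E₁ : ℕ) :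
    Prop where
  sub : Z ⊆ X
  cl : ZClosed Z
  irr : Irred Z
  e1 : 1 ≤ e
  deg : HasDegree Z 1 e
  rf : ∀ n, RepBy Z f^[n] E₁
  rg : ∀ n, RepBy Z g^[n] E₁
  hil : ∀ n k, hil (fun y : (f^[n] '' Z : Set (PPt E N)) => seg (y : PPt E N)) k ≤ E₁ * k + 1

/-- The points `f^[n] x`, `n ∈ S`, are dense in `X`. -/
def Dn (X : Set (PPt E N)) (f : PPt E N → PPt E N) (x : PPt E N) (S : Set ℕ) : Prop :=
  ∀ V, ZClosed V → (∀ n ∈ S, f^[n] x ∈ V) → X ⊆ V

end Pool.Agent.KST
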