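import Pool.Agent.LLC.LinA

/-!
# KST SPEC: a simple dominating eigenvalue

PROOF.  Over `ℂ`, `B = A.map cast`, `q = rts s` (`LLC/LinA`: `rts s = ∏ (X - z)`), charpoly `= (X - d) q`.
`d` is not in `s` (`‖d‖ = d > r`), so `q(d) ≠ 0`; `P' = q(d)⁻¹ q(B)`. By Cayley-Hamilton `(B - d) q(B) = 0`, so
`B P' = d P' = P' B`, `p(B) P' = p(d) P'` for all polynomials `p`, so `P' P' = P'` and
`q(B) (1 - P') = q(B) - q(d) P' = 0`. The columns `w` of `1 - P'` satisfy `q(B) w = 0`, so by `lin_up` (for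
`r₀ < r` with `‖z‖ ≤ r₀` on `s`; it is stated for `r ≥ 1`: apply it to the matrix `B / r₀`, or if `r₀ ≥ 1`
directly; a polynomial factor `C (1+n)^C (r₀ / r)^n` is bounded) `‖B ^ n w‖ ≤ C r ^ n`. (For a small `r₀`: `lin_up` for the
complex matrix `t B`, `t = 1 / r₀`, with the roots `t z`: `rts` of `t z` at `t B` is `t ^ card s * rts s (B)`.) Hence
`B ^ n - d ^ n P' = B ^ n (1 - P')` has entries of modulus `≤ C r ^ n`. `P'` is real: `P' i j` is the limit of the real
numbers `(A ^ n) i j / d ^ n` (`r < d`). Let `P` be the matrix of the real parts.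
-/

set_option autoImplicit false

open Polynomial

namespace Pool.Agent.KST

variable {ι : Type*} [Fintype ι] [DecidableEq ι]

private theorem spec_cons (B : Matrix ι ι ℂ) (s : Multiset ℂ) (z : ℂ) (v : ι → ℂ) :
    (aeval B (LLC.rts (z ::ₘ s))).mulVec v =
      (aeval B (LLC.rts s)).mulVec (B.mulVec v - z • v) := by
  have h1 : LLC.rts (z ::ₘ s) = LLC.rts s * (X - C z) := by
    rw [LLC.rts, Multiset.map_cons, Multiset.prod_cons, mul_comm, LLC.rts]
  have h2 : (aeval B (X - C z)).mulVec v = B.mulVec v - z • v := by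
    rw [map_sub, aeval_X, aeval_C, Matrix.sub_mulVec, Algebra.algebraMap_eq_smul_one,
      Matrix.smul_mulVec, Matrix.one_mulVec]
  rw [h1, map_mul, ← Matrix.mulVec_mulVec, h2]

/-- vectors killed by a polynomial with roots of modulus `< r` grow at most like `r ^ n` -/
private theorem spec_up (B : Matrix ι ι ℂ) (r : ℝ) (hr : 0 < r) (s : Multiset ℂ) :
    (∀ z ∈ s, ‖z‖ < r) → ∀ v : ι → ℂ, (aeval B (LLC.rts s)).mulVec v = 0 →
      ∃ K : ℝ, 0 ≤ K ∧ ∀ n : ℕ, ‖(B ^ n).mulVec v‖ ≤ K * r ^ n := by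
  induction s using Multiset.induction_on with
  | empty =>
    intro _ v hv
    have h1 : LLC.rts (0 : Multiset ℂ) = 1 := by
      rw [LLC.rts, Multiset.map_zero, Multiset.prod_zero]
    rw [h1, map_one, Matrix.one_mulVec] at hv
    refine ⟨0, le_rfl, fun n => ?_⟩
    rw [hv, Matrix.mulVec_zero, norm_zero, zero_mul]
  | cons z s ih =>
    intro hs v hv
    have hz : ‖z‖ < r := hs z (Multiset.mem_cons_self z s)
    rw [spec_cons] at hv
    obtain ⟨K, hK, hb⟩ := ih (fun y hy => hs y (Multiset.mem_cons_of_mem hy)) _ hv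
    set w := B.mulVec v - z • v with hw
    have hBv : B.mulVec v = w + z • v := by rw [hw]; abel
    have hd : 0 < r - ‖z‖ := by linarith
    refine ⟨max ‖v‖ (K / (r - ‖z‖)), le_max_of_le_left (norm_nonneg _), fun n => ?_⟩
    set M := max ‖v‖ (K / (r - ‖z‖)) with hM
    have hKM : K ≤ M * (r - ‖z‖) := by
      rw [← div_le_iff₀ hd]
      exact le_max_right _ _
    induction n with
    | zero =>
      rw [pow_zero, pow_zero, Matrix.one_mulVec, mul_one]
      exact le_max_left _ _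
    | succ n ihn =>
      have e1 : (B ^ (n + 1)).mulVec v = (B ^ n).mulVec w + z • (B ^ n).mulVec v := by
        rw [pow_succ, ← Matrix.mulVec_mulVec, hBv, Matrix.mulVec_add, Matrix.mulVec_smul]
      have hrn : 0 ≤ r ^ n := by positivity
      calc ‖(B ^ (n + 1)).mulVec v‖ ≤ ‖(B ^ n).mulVec w‖ + ‖z • (B ^ n).mulVec v‖ := by
            rw [e1]; exact norm_add_le _ _
        _ ≤ K * r ^ n + ‖z‖ * (M * r ^ n) := by
            rw [norm_smul]
            exact add_le_add (hb n) (mul_le_mul_of_nonneg_left ihn (norm_nonneg _))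
        _ ≤ M * (r - ‖z‖) * r ^ n + ‖z‖ * (M * r ^ n) := by
            have := mul_le_mul_of_nonneg_right hKM hrn
            linarith
        _ = M * r ^ (n + 1) := by ring

theorem spec (A : Matrix ι ι ℤ) (d : ℝ) (s : Multiset ℂ)
    (hA : (A.charpoly.map (Int.castRingHom ℂ)).roots = (d : ℂ) ::ₘ s) (r : ℝ) (hr0 : 0 < r)
    (hr : ∀ z ∈ s, ‖z‖ < r) (hr1 : r < d) :
    ∃ (P : Matrix ι ι ℝ) (C : ℝ), 0 ≤ C ∧
      (∀ (n : ℕ) (i j : ι), |(((A ^ n) i j : ℤ) : ℝ) - d ^ n * P i j| ≤ C * r ^ n) ∧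
      P * A.map (Int.cast : ℤ → ℝ) = d • P ∧ A.map (Int.cast : ℤ → ℝ) * P = d • P := by
  set B : Matrix ι ι ℂ := A.map (Int.castRingHom ℂ) with hB
  have hBij : ∀ i j, B i j = ((A i j : ℤ) : ℂ) := fun i j => rfl
  set Q : Matrix ι ι ℂ := aeval B (LLC.rts s) with hQ
  set q : ℂ := eval (d : ℂ) (LLC.rts s) with hq
  have hq0 : q ≠ 0 := by
    rw [hq, LLC.rts, eval_multiset_prod, Multiset.map_map]
    refine Multiset.prod_ne_zero fun h0 => ?_
    obtain ⟨z, hz, hz0⟩ := Multiset.mem_map.1 h0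
    simp only [Function.comp_apply, eval_sub, eval_X, eval_C] at hz0
    have h1 : (d : ℂ) = z := sub_eq_zero.1 hz0
    have h2 := hr z hz
    rw [← h1, Complex.norm_real, Real.norm_of_nonneg (by linarith)] at h2
    linarith
  have hCH : (B - (d : ℂ) • (1 : Matrix ι ι ℂ)) * Q = 0 := by
    have h1 : aeval B (A.charpoly.map (Int.castRingHom ℂ)) = 0 := by
      rw [← Matrix.charpoly_map]
      exact Matrix.aeval_self_charpoly _
    have h2 : (A.charpoly.map (Int.castRingHom ℂ)) = (X - C (d : ℂ)) * LLC.rts s := by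
      have h3 := (IsAlgClosed.splits (A.charpoly.map (Int.castRingHom ℂ))).eq_prod_roots_of_monic
        (A.charpoly_monic.map _)
      rw [hA, Multiset.map_cons, Multiset.prod_cons] at h3
      exact h3
    rw [h2, map_mul, map_sub, aeval_X, aeval_C, Algebra.algebraMap_eq_smul_one] at h1
    exact h1
  have hcomm : Q * B = B * Q := by
    have h1 : aeval B (LLC.rts s) * aeval B (X : ℂ[X]) =
        aeval B (X : ℂ[X]) * aeval B (LLC.rts s) := by
      rw [← map_mul, ← map_mul, mul_comm]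
    rwa [aeval_X] at h1
  have hBQ : B * Q = (d : ℂ) • Q := by
    rw [Matrix.sub_mul, Matrix.smul_mul, Matrix.one_mul] at hCH
    exact sub_eq_zero.1 hCH
  have hQQ : Q * Q = q • Q := by
    obtain ⟨u, hu⟩ := X_sub_C_dvd_sub_C_eval (a := (d : ℂ)) (p := LLC.rts s)
    have h1 := congrArg (aeval B) hu
    rw [map_sub, map_mul, map_sub, aeval_X, aeval_C, aeval_C, Algebra.algebraMap_eq_smul_one,
      Algebra.algebraMap_eq_smul_one, ← hQ, ← hq] at h1
    have h2 : (B - (d : ℂ) • (1 : Matrix ι ι ℂ)) * aeval B u =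
        aeval B u * (B - (d : ℂ) • (1 : Matrix ι ι ℂ)) := by
      have h3 : aeval B (X - C (d : ℂ)) * aeval B u = aeval B u * aeval B (X - C (d : ℂ)) := by
        rw [← map_mul, ← map_mul, mul_comm]
      rwa [map_sub, aeval_X, aeval_C, Algebra.algebraMap_eq_smul_one] at h3
    rw [h2] at h1
    have h4 : (Q - q • (1 : Matrix ι ι ℂ)) * Q =
        aeval B u * (B - (d : ℂ) • (1 : Matrix ι ι ℂ)) * Q := by rw [h1]
    rw [Matrix.mul_assoc, hCH, Matrix.mul_zero, Matrix.sub_mul, Matrix.smul_mul,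
      Matrix.one_mul] at h4
    exact sub_eq_zero.1 h4
  set P' : Matrix ι ι ℂ := q⁻¹ • Q with hP'
  have hBP : B * P' = (d : ℂ) • P' := by
    rw [hP', Matrix.mul_smul, hBQ, smul_comm]
  have hPB : P' * B = (d : ℂ) • P' := by
    rw [hP', Matrix.smul_mul, hcomm, hBQ, smul_comm]
  have hBnP : ∀ n : ℕ, B ^ n * P' = (d : ℂ) ^ n • P' := by
    intro n
    induction n with
    | zero => rw [pow_zero, pow_zero, Matrix.one_mul, one_smul]
    | succ n ih =>
      rw [pow_succ, Matrix.mul_assoc, hBP, Matrix.mul_smul, ih, smul_smul, pow_succ, mul_comm]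
  have hQ1 : Q * (1 - P') = 0 := by
    rw [Matrix.mul_sub, Matrix.mul_one, hP', Matrix.mul_smul, hQQ, smul_smul,
      inv_mul_cancel₀ hq0, one_smul, sub_self]
  have hcol : ∀ j : ι, ∃ K : ℝ, 0 ≤ K ∧ ∀ n : ℕ,
      ‖(B ^ n).mulVec (fun i => (1 - P') i j)‖ ≤ K * r ^ n := by
    intro j
    refine spec_up B r hr0 s hr _ ?_
    funext i
    exact congrFun (congrFun hQ1 i) j
  choose K hK0 hK using hcol
  have hpow : ∀ (n : ℕ) (i j : ι), (B ^ n) i j = (((A ^ n) i j : ℤ) : ℂ) := by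
    intro n i j
    have h1 : B ^ n = (A ^ n).map (Int.castRingHom ℂ) := by
      have h2 := map_pow (Int.castRingHom ℂ).mapMatrix A n
      simp only [RingHom.mapMatrix_apply] at h2
      exact h2.symm
    rw [h1]
    rfl
  refine ⟨P'.map Complex.re, ∑ j, K j, Finset.sum_nonneg fun j _ => hK0 j, ?_, ?_, ?_⟩
  · intro n i j
    have h1 : (B ^ n).mulVec (fun i => (1 - P') i j) i = (B ^ n) i j - (d : ℂ) ^ n * P' i j := by
      have h2 : (B ^ n).mulVec (fun i => (1 - P') i j) i = (B ^ n * (1 - P')) i j := rfl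
      rw [h2, Matrix.mul_sub, Matrix.mul_one, hBnP, Matrix.sub_apply, Matrix.smul_apply,
        smul_eq_mul]
    have h3 : ‖(B ^ n) i j - (d : ℂ) ^ n * P' i j‖ ≤ K j * r ^ n := by
      rw [← h1]
      exact (norm_le_pi_norm _ i).trans (hK j n)
    rw [Matrix.map_apply]
    have h4 : (((A ^ n) i j : ℤ) : ℝ) - d ^ n * (P' i j).re =
        ((B ^ n) i j - (d : ℂ) ^ n * P' i j).re := by
      rw [hpow, Complex.sub_re, ← Complex.ofReal_pow, Complex.re_ofReal_mul, Complex.intCast_re]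
    rw [h4]
    refine (Complex.abs_re_le_norm _).trans (h3.trans ?_)
    refine mul_le_mul_of_nonneg_right ?_ (by positivity)
    exact Finset.single_le_sum (f := K) (fun j _ => hK0 j) (Finset.mem_univ j)
  · ext i j
    have h1 := congrArg Complex.re (congrFun (congrFun hPB i) j)
    rw [Matrix.mul_apply, Matrix.smul_apply, smul_eq_mul, Complex.re_ofReal_mul,
      Complex.re_sum] at h1
    rw [Matrix.mul_apply, Matrix.smul_apply, smul_eq_mul, Matrix.map_apply, ← h1]
    refine Finset.sum_congr rfl fun k _ => ?_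
    rw [hBij, ← Complex.ofReal_intCast, Complex.re_mul_ofReal]
    rfl
  · ext i j
    have h1 := congrArg Complex.re (congrFun (congrFun hBP i) j)
    rw [Matrix.mul_apply, Matrix.smul_apply, smul_eq_mul, Complex.re_ofReal_mul,
      Complex.re_sum] at h1
    rw [Matrix.mul_apply, Matrix.smul_apply, smul_eq_mul, Matrix.map_apply, ← h1]
    refine Finset.sum_congr rfl fun k _ => ?_
    rw [hBij, ← Complex.ofReal_intCast, Complex.re_ofReal_mul]
    rfl

end Pool.Agent.KST
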