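import Pool.Agent.KST.Wth
import Pool.Agent.KST.Reg
import Pool.Agent.KST.Sdefs
import Pool.Agent.KST.Dns
import Pool.Agent.KST.Spec

/-!
# KST WFIN: no arithmetic degrees between one and the dynamical degree

Choose `r₁` with `1 ≤ r₁ < δ`, `‖z‖ < r₁` for all `z ∈ s + s'`, `spec` for `A` and `B` (the constants: take the
maximum), `w_num` for `d = δ`: `t, κ, n₀`. Let `H n i = absHeight ((f^[n] x) i).rep`, `h n = ∑ i, H n i =
absTotal (f^[n] x)`; it satisfies the recursion up to `b` (`lbnd`), and `hlim` is `AbsArithDegree f x a`. `reg`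
gives `C`. For `k ≤ m`, `n₀ ≤ m` choose naturals `p ≥ 1`, `q` with
`δ ^ k / δ ^ m ≤ q / p ≤ 2 (δ ^ k / δ ^ m)` (`p` large with `p δ ^ k / δ ^ m ≥ 1`, `q = ⌈p δ ^ k / δ ^ m⌉`). `wth` gives
`Φ`, `C'`. There are arbitrarily large `n` with `Φ (f^[n] x) ≠ 0` (otherwise by `tail_dense` and `zc_forms`
`X ⊆ {Φ = 0}`). For such an `n`, large: `κ h (n + k) ≤ 2 h n + 2 (δ ^ k / δ ^ m) h (n + m) + C'`, and by `reg`
(for `k` and for `m`): `a ^ k h n ≤ C (1 + k) ^ C h (n + k)`, `h (n + m) ≤ C (1 + m) ^ C a ^ m h n`. As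
`h n → ∞` (`a > 1`), `C' ≤ h n` for `n` large; divide by `h n > 0`:
`κ a ^ k ≤ C (1 + k) ^ C (3 + 2 δ ^ k C (1 + m) ^ C (a / δ) ^ m)`. Let `m → ∞` (`a < δ`):
`κ a ^ k ≤ 3 C (1 + k) ^ C` for all `k`. This is false for `k` large (`a > 1`).
-/

open MvPolynomial Filter Topology
open scoped LinearAlgebra.Projectivization

namespace Pool.Agent.KST

open Pool.Agent.Helper90.KSC Pool.Agent.Helper63.SAND Pool.Agent.Helper63.WH Pool.Agent.PW
  Pool.Agent.LLC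

variable {E ι : Type*} [Field E] [CharZero E] [Algebra.IsAlgebraic ℚ E] [IsAlgClosed E]
  [Fintype ι] [DecidableEq ι] {N : ι → ℕ}

omit [Fintype ι] [DecidableEq ι] [CharZero E] [Algebra.IsAlgebraic ℚ E] [IsAlgClosed E] in
private theorem exists_r (δ : ℝ) (hδ : 1 < δ) (s : Multiset ℂ) (hs : ∀ z ∈ s, ‖z‖ < δ) :
    ∃ r : ℝ, 1 ≤ r ∧ r < δ ∧ ∀ z ∈ s, ‖z‖ < r := by
  obtain ⟨r₀, h1, h2⟩ : ∃ r : ℝ, 1 < r ∧ r < δ := ⟨(1 + δ) / 2, by linarith, by linarith⟩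
  induction s using Multiset.induction_on with
  | empty => exact ⟨r₀, h1.le, h2, fun z hz => absurd hz (Multiset.notMem_zero z)⟩
  | cons z s ih =>
    obtain ⟨r, hr1, hr2, hr3⟩ := ih fun w hw => hs w (Multiset.mem_cons_of_mem hw)
    have hz := hs z (Multiset.mem_cons_self z s)
    obtain ⟨r', hr'1, hr'2⟩ := exists_between (max_lt hr2 hz)
    refine ⟨r', hr1.trans ((le_max_left _ _).trans hr'1.le), hr'2, fun w hw => ?_⟩
    rcases Multiset.mem_cons.1 hw with rfl | hw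
    · exact (le_max_right _ _).trans_lt hr'1
    · exact (hr3 w hw).trans ((le_max_left _ _).trans_lt hr'1)

omit [Fintype ι] [DecidableEq ι] [CharZero E] [Algebra.IsAlgebraic ℚ E] [IsAlgClosed E] in
private theorem tends_u (C : ℕ) (r : ℝ) (hr0 : 0 < r) (hr1 : r < 1) :
    Tendsto (fun m : ℕ => (1 + (m : ℝ)) ^ C * r ^ m) atTop (𝓝 0) := by
  have h1 := (tendsto_pow_const_mul_const_pow_of_abs_lt_one C
    (show |r| < 1 by rw [abs_of_pos hr0]; exact hr1)).comp (tendsto_add_atTop_nat 1)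
  have h2 := h1.const_mul r⁻¹
  rw [mul_zero] at h2
  refine h2.congr fun m => ?_
  simp only [Function.comp_apply]
  push_cast
  rw [pow_succ]
  field_simp
  rw [add_comm]

theorem w_fin (X : Set (PPt E N)) (e₀ : ℕ) (f g : PPt E N → PPt E N) (A B : Matrix ι ι ℤ)
    (h : Aut3 X e₀ f g A B) (δ : ℝ) (hδ : 1 < δ) (s s' : Multiset ℂ)
    (hA : (A.charpoly.map (Int.castRingHom ℂ)).roots = (δ : ℂ) ::ₘ s) (hAs : ∀ z ∈ s, ‖z‖ < δ)
    (hB : (B.charpoly.map (Int.castRingHom ℂ)).roots = (δ : ℂ) ::ₘ s') (hBs : ∀ z ∈ s', ‖z‖ < δ)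
    (hG : Gr3 X f A δ) (x : PPt E N) (hx : x ∈ X)
    (hd : DenseOrbit X f x) (a : ℝ) (ha : 1 < a) (haδ : a < δ) (hax : AbsArithDegree f x a) :
    False := by
  classical
  obtain ⟨r₁, h1, hr₁, hrs⟩ := exists_r δ hδ (s + s') (by
    intro z hz
    rcases Multiset.mem_add.1 hz with hz | hz
    · exact hAs z hz
    · exact hBs z hz)
  obtain ⟨P, CA, hCA, hPA, -, -⟩ := spec A δ s hA r₁ (by linarith)
    (fun z hz => hrs z (Multiset.mem_add.2 (Or.inl hz))) hr₁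
  obtain ⟨P', CB, hCB, hPB, -, -⟩ := spec B δ s' hB r₁ (by linarith)
    (fun z hz => hrs z (Multiset.mem_add.2 (Or.inr hz))) hr₁
  have hr₁0 : 0 < r₁ := by linarith
  have hδ0 : 0 < δ := by linarith
  have ha0 : 0 < a := by linarith
  obtain ⟨t, hcub, κ, hκ, n₀, hcond⟩ := w_num X h.cl h.irr e₀ h.e1 h.deg f g h.mf h.mg h.fg h.gf
    h.lf h.lg A B h.af h.ab δ r₁ (max CA CB) hδ h1 hr₁ P P'
    (fun n i j => (hPA n i j).trans
      (mul_le_mul_of_nonneg_right (le_max_left _ _) (pow_nonneg hr₁0.le n)))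
    (fun n i j => (hPB n i j).trans
      (mul_le_mul_of_nonneg_right (le_max_right _ _) (pow_nonneg hr₁0.le n)))
    hG
  -- the heights of the orbit
  obtain ⟨b, hb⟩ := lbnd h.af
  obtain ⟨H, hH⟩ : ∃ H : ℕ → ι → ℝ, H = fun n i => absHeight ((f^[n] x) i).rep := ⟨_, rfl⟩
  have hHs : ∀ n, ∑ i, H n i = absTotal (f^[n] x) := by
    intro n
    rw [hH]
    rfl
  have hH0 : ∀ n i, 0 ≤ H n i := by
    intro n i
    rw [hH]
    exact absHeight_nonneg _
  have hmem : ∀ n, f^[n] x ∈ X := fun n => h.mf.iterate n hx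
  have hHrec : ∀ n i, |H (n + 1) i - ∑ j, (A i j : ℝ) * H n j| ≤ b := by
    intro n i
    rw [hH]
    have h2 := hb _ (hmem n) i
    simp only [Function.iterate_succ_apply'] at h2 ⊢
    exact h2
  have hinf : ∀ B : ℝ, ∃ M, ∀ n ≥ M, B ≤ ∑ i, H n i := by
    intro B
    obtain ⟨s, hs1, hs2⟩ : ∃ s : ℝ, 1 < s ∧ s < a := ⟨(1 + a) / 2, by linarith, by linarith⟩
    have h1 := (hax.eventually_const_lt hs2).and
      (((tendsto_pow_atTop_atTop_of_one_lt hs1).eventually_ge_atTop (max B 2)).and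
        (eventually_gt_atTop 0))
    obtain ⟨M, hM⟩ := eventually_atTop.mp h1
    refine ⟨M, fun n hn => ?_⟩
    obtain ⟨e1, e2, e3⟩ := hM n hn
    rw [hHs]
    have h0 : (0 : ℝ) ≤ max (absTotal (f^[n] x)) 1 := le_max_of_le_right zero_le_one
    have e4 : s ^ n ≤ max (absTotal (f^[n] x)) 1 := by
      calc s ^ n ≤ ((max (absTotal (f^[n] x)) 1) ^ ((1 : ℝ) / n)) ^ n :=
            pow_le_pow_left₀ (by linarith) e1.le n
        _ = max (absTotal (f^[n] x)) 1 := by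
            rw [one_div, Real.rpow_inv_natCast_pow h0 e3.ne']
    have e5 : max B 2 ≤ max (absTotal (f^[n] x)) 1 := e2.trans e4
    have e6 : 2 ≤ max (absTotal (f^[n] x)) 1 := (le_max_right _ _).trans e5
    have e7 : max (absTotal (f^[n] x)) 1 = absTotal (f^[n] x) := by
      rcases le_total (absTotal (f^[n] x)) 1 with h2 | h2
      · rw [max_eq_right h2] at e6
        norm_num at e6
      · exact max_eq_left h2
    rw [e7] at e5
    exact (le_max_left _ _).trans e5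
  have hlim : Tendsto (fun n : ℕ => (max (∑ i, H n i) 1) ^ ((1 : ℝ) / n)) atTop (𝓝 a) := by
    simp only [hHs]
    exact hax
  obtain ⟨c, hc⟩ := reg A b H hH0 hHrec a ha hlim
  have hinj := inj_of_dense X (inf_of_deg X 3 e₀ (by norm_num) h.e1 h.deg) f x hd
  -- the main inequality
  have key : ∀ k m : ℕ, k ≤ m → n₀ ≤ m → κ * a ^ k ≤ c * (1 + (k : ℝ)) ^ c *
      (3 + 2 * δ ^ k * c * ((1 + (m : ℝ)) ^ c * (a / δ) ^ m)) := by
    intro k m hkm hm
    obtain ⟨ρ, hρ⟩ : ∃ ρ : ℝ, ρ = δ ^ k / δ ^ m := ⟨_, rfl⟩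
    have hρ0 : 0 < ρ := by rw [hρ]; positivity
    obtain ⟨p, hp⟩ := exists_nat_gt (1 / ρ)
    have hpρ : 1 < p * ρ := by
      rw [div_lt_iff₀ hρ0] at hp
      exact hp
    have hp0 : (0 : ℝ) < p := by
      by_contra hcon
      have h2 : (p : ℝ) * ρ ≤ 0 := mul_nonpos_of_nonpos_of_nonneg (not_lt.1 hcon) hρ0.le
      linarith
    have hp1 : 1 ≤ p := by
      have h2 : 0 < p := by exact_mod_cast hp0
      omega
    obtain ⟨q, hq⟩ : ∃ q : ℕ, q = ⌈(p : ℝ) * ρ⌉₊ := ⟨_, rfl⟩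
    have hq1 : (p : ℝ) * ρ ≤ q := by rw [hq]; exact Nat.le_ceil _
    have hq2 : (q : ℝ) < p * ρ + 1 := by
      rw [hq]
      exact Nat.ceil_lt_add_one (by linarith)
    have hτ1 : ρ ≤ (q : ℝ) / p := by
      rw [le_div_iff₀ hp0, mul_comm]
      exact hq1
    have hτ2 : (q : ℝ) / p ≤ 2 * ρ := by
      rw [div_le_iff₀ hp0]
      linarith
    have hcm := hcond k m hkm hm ((q : ℝ) / p) (by rw [← hρ]; exact hτ1) (by rw [← hρ]; exact hτ2)
    obtain ⟨D, Φ, C', hΦ, ⟨x₁, hx₁, hΦx₁⟩, hmain⟩ := wth X h.irr f h.mf h.lf A h.af t hcub κ hκ k m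
      hkm p q hp1 hcm
    obtain ⟨n₁, hn₁⟩ := hc k
    obtain ⟨n₂, hn₂⟩ := hc m
    obtain ⟨n₃, hn₃⟩ := hinf (max C' 1)
    -- a large `n` with `Φ (f^[n] x) ≠ 0`
    obtain ⟨n, hn, hΦn⟩ : ∃ n, n ≥ max n₁ (max n₂ n₃) ∧ eval (seg (f^[n] x)) Φ ≠ 0 := by
      by_contra hcon
      push Not at hcon
      have hcl := zc_forms (fun _ : Unit => Φ) (fun _ => D) (fun _ => hΦ)
      have h2 := tail_dense hmem hinj h.irr hd hcl (M := max n₁ (max n₂ n₃))
        (fun n hn _ => hcon n hn)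
      exact hΦx₁ (h2 hx₁ ())
    have e1 : n₁ ≤ n := le_trans (le_max_left _ _) hn
    have e2 : n₂ ≤ n := le_trans ((le_max_left _ _).trans (le_max_right _ _)) hn
    have e3 : n₃ ≤ n := le_trans ((le_max_right _ _).trans (le_max_right _ _)) hn
    have f1 := (hn₁ n e1).1
    have f2 := (hn₂ n e2).2
    have f3 := hn₃ n e3
    have f4 := hmain _ (hmem n) hΦn
    rw [← Function.iterate_add_apply, ← Function.iterate_add_apply, ← hHs, ← hHs, ← hHs,
      add_comm k n, add_comm m n] at f4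
    obtain ⟨S, hS⟩ : ∃ S, S = ∑ i, H n i := ⟨_, rfl⟩
    obtain ⟨Sk, hSk⟩ : ∃ S, S = ∑ i, H (n + k) i := ⟨_, rfl⟩
    obtain ⟨Sm, hSm⟩ : ∃ S, S = ∑ i, H (n + m) i := ⟨_, rfl⟩
    rw [← hS, ← hSk] at f1
    rw [← hS, ← hSm] at f2
    rw [← hS] at f3
    rw [← hS, ← hSk, ← hSm] at f4
    have hS1 : 1 ≤ S := (le_max_right _ _).trans f3
    have hSC : C' ≤ S := (le_max_left _ _).trans f3
    have hSm0 : 0 ≤ Sm := by
      rw [hSm]
      exact Finset.sum_nonneg fun i _ => hH0 _ i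
    have g1 : κ * Sk ≤ 3 * S + 2 * ρ * Sm := by
      have g2 : (q : ℝ) / p * Sm ≤ 2 * ρ * Sm := mul_le_mul_of_nonneg_right hτ2 hSm0
      linarith
    have g3 : κ * Sk ≤ S * (3 + 2 * ρ * (c * (1 + (m : ℝ)) ^ c * a ^ m)) := by
      have g4 : 2 * ρ * Sm ≤ 2 * ρ * (c * (1 + (m : ℝ)) ^ c * a ^ m * S) :=
        mul_le_mul_of_nonneg_left f2 (by positivity)
      calc κ * Sk ≤ 3 * S + 2 * ρ * Sm := g1
        _ ≤ 3 * S + 2 * ρ * (c * (1 + (m : ℝ)) ^ c * a ^ m * S) := by linarith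
        _ = _ := by ring
    have g5 : κ * a ^ k * S ≤ c * (1 + (k : ℝ)) ^ c *
        (3 + 2 * ρ * (c * (1 + (m : ℝ)) ^ c * a ^ m)) * S := by
      calc κ * a ^ k * S = κ * (a ^ k * S) := by ring
        _ ≤ κ * (c * (1 + (k : ℝ)) ^ c * Sk) := mul_le_mul_of_nonneg_left f1 hκ.le
        _ = c * (1 + (k : ℝ)) ^ c * (κ * Sk) := by ring
        _ ≤ c * (1 + (k : ℝ)) ^ c * (S * (3 + 2 * ρ * (c * (1 + (m : ℝ)) ^ c * a ^ m))) :=
          mul_le_mul_of_nonneg_left g3 (by positivity)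
        _ = _ := by ring
    have g6 := le_of_mul_le_mul_right g5 (by linarith)
    refine g6.trans (le_of_eq ?_)
    rw [hρ, div_pow]
    ring
  -- the limit `m → ∞`
  have key2 : ∀ k : ℕ, κ * a ^ k ≤ c * (1 + (k : ℝ)) ^ c * 3 := by
    intro k
    have h2 := tends_u c (a / δ) (by positivity) (by rw [div_lt_one hδ0]; exact haδ)
    have h3 : Tendsto (fun m : ℕ => (c : ℝ) * (1 + (k : ℝ)) ^ c *
        (3 + 2 * δ ^ k * c * ((1 + (m : ℝ)) ^ c * (a / δ) ^ m))) atTop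
        (𝓝 (c * (1 + (k : ℝ)) ^ c * (3 + 2 * δ ^ k * c * 0))) :=
      (tendsto_const_nhds.add (h2.const_mul _)).const_mul _
    rw [mul_zero, add_zero] at h3
    refine ge_of_tendsto h3 ?_
    filter_upwards [eventually_ge_atTop (max k n₀)] with m hm
    exact key k m ((le_max_left _ _).trans hm) ((le_max_right _ _).trans hm)
  -- the limit `k → ∞`
  have h2 := (tends_u c a⁻¹ (by positivity) (inv_lt_one_of_one_lt₀ ha)).const_mul (3 * (c : ℝ))
  rw [mul_zero] at h2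
  have h3 : κ ≤ 0 := by
    refine ge_of_tendsto' h2 fun k => ?_
    have h4 := key2 k
    have h5 : (0 : ℝ) < a ^ k := by positivity
    rw [inv_pow]
    calc κ = κ * a ^ k * (a ^ k)⁻¹ := by field_simp
      _ ≤ c * (1 + (k : ℝ)) ^ c * 3 * (a ^ k)⁻¹ :=
        mul_le_mul_of_nonneg_right h4 (by positivity)
      _ = _ := by ring
  linarith

end Pool.Agent.KST
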