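import Pool.Agent.KST.Slp
import Pool.Agent.KST.Dgb
import Pool.Agent.KST.Flat
import Pool.Agent.KST.Bsl
import Pool.Agent.KST.Prs
import Pool.Agent.KST.Endg
import Pool.Agent.KST.Bz
import Pool.Agent.KST.Exa
import Pool.Agent.KST.Lg
import Pool.Agent.KST.Wfin

/-!
# KST: the theorem

Automorphisms of threefolds.
-/

set_option autoImplicit false

open MvPolynomial Filter Topology
open scoped LinearAlgebra.Projectivization

namespace Pool.Agent.KST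

open Pool.Agent.Helper90.KSC Pool.Agent.Helper63.SAND Pool.Agent.Helper63.WH Pool.Agent.PW
  Pool.Agent.LLX Pool.Agent.LLC

variable {E : Type*} [Field E] [CharZero E] [Algebra.IsAlgebraic ℚ E] [IsAlgClosed E]
  {ι : Type} [Fintype ι] [DecidableEq ι] {N : ι → ℕ}

/-- The dynamical degrees of `f` and of its inverse are related: `δ₁ < δ₂`, or `δ₁ = δ₂` is a
simple dominating eigenvalue of both matrices and the growth rate of the degrees of `f`. -/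
def DynCase (X : Set (PPt E N)) (f : PPt E N → PPt E N) (A B : Matrix ι ι ℤ) (δ₁ δ₂ : ℝ) : Prop :=
  δ₁ < δ₂ ∨ (δ₁ = δ₂ ∧
    (∃ s : Multiset ℂ, (A.charpoly.map (Int.castRingHom ℂ)).roots = (δ₁ : ℂ) ::ₘ s ∧
      ∀ z ∈ s, ‖z‖ < δ₁) ∧
    (∃ s : Multiset ℂ, (B.charpoly.map (Int.castRingHom ℂ)).roots = (δ₁ : ℂ) ::ₘ s ∧
      ∀ z ∈ s, ‖z‖ < δ₁) ∧
    Gr3 X f A δ₁)

/-- A dense orbit does not have arithmetic degree one. -/
theorem not_one (X : Set (PPt E N)) (e₀ : ℕ) (f g : PPt E N → PPt E N) (A B : Matrix ι ι ℤ)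
    (h : Aut3 X e₀ f g A B) (hsm : SmoothDim X 3)
    (hs : ∀ n : ℕ, 1 ≤ n → ∀ v : ι → ℤ,
      ((A ^ n - 1) ^ 2).mulVec v = 0 → (A ^ n - 1).mulVec v = 0)
    (r₀ m₁ : ℕ) (hr₀ : 1 ≤ r₀)
    (Gc : (Fin 4 → SIx N) × (Fin m₁ → SIx N) → MvPolynomial (SIx N) E)
    (hGc : AntiCan (fun x : X => seg (x : PPt E N)) 3 r₀ m₁ Gc)
    (hG0 : ∃ I, ∃ x ∈ X, eval (seg x) (Gc I) ≠ 0) (δ₁ δ₂ : ℝ) (hδ₁ : 1 < δ₁)
    (hAr : ∀ z ∈ (A.charpoly.map (Int.castRingHom ℂ)).roots, ‖z‖ ≤ δ₁)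
    (hG' : Gr3 X g B δ₂)
    (hcase : DynCase X f A B δ₁ δ₂) (x : PPt E N) (hx : x ∈ X) (hd : DenseOrbit X f x) :
    ¬ AbsArithDegree f x 1 := by
  intro ha
  have hXinf : X.Infinite := inf_of_deg X 3 e₀ (by norm_num) h.e1 h.deg
  obtain ⟨j, Z, hZX, hZc, hZi, hxZ, ⟨e, he1, hdeg⟩, C, hC⟩ :=
    slow_pt X e₀ f g A B h hsm r₀ m₁ hr₀ Gc hGc hG0 x hx ha hd
  obtain ⟨E₁, hZ⟩ := deg_bdd X e₀ f g A B h hs Z hZX hZc hZi e he1 hdeg C hC
  obtain ⟨x₀, hx₀⟩ : ∃ x₀, x₀ = f^[j] x := ⟨_, rfl⟩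
  rw [← hx₀] at hxZ
  have ha₀ : AbsArithDegree f x₀ 1 := by
    rw [hx₀]
    exact arith_shift f x ha j
  have hdn : Dn X f x₀ Set.univ := by
    rw [hx₀]
    exact dn_shift X h.irr hXinf f h.mf x hx hd j
  obtain ⟨B₁, hB₁, hfl⟩ := flat X f h.mf h.lf Z hZX hZi E₁ (fun n => ⟨E₁, le_rfl, hZ.rf n⟩) x₀ hxZ
  obtain ⟨B₂, hB₂, hgl⟩ := flat X g h.mg h.lg Z hZX hZi E₁ (fun n => ⟨E₁, le_rfl, hZ.rg n⟩) x₀ hxZ
  have hnn : ∀ (F : PPt E N → PPt E N) (n : ℕ),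
      0 ≤ ∑ j ∈ Finset.range (n + 1), (1 + absTotal (F^[j] x₀)) := by
    intro F n
    refine Finset.sum_nonneg fun j _ => ?_
    have : 0 ≤ absTotal (F^[j] x₀) := Finset.sum_nonneg fun i _ => absHeight_nonneg _
    linarith
  have hpins : Pins X f Z := by
    rcases hcase with hlt | ⟨heq, ⟨s, hA, hAs⟩, ⟨s', hB, hBs⟩, hG⟩
    · exact bsl_lt X e₀ f g A B h δ₁ δ₂ hδ₁ hlt hAr hG' Z hZX x₀ hxZ ha₀ B₁ hB₁ hfl
    · subst heq
      refine bsl_eq X e₀ f g A B h δ₁ hδ₁ s s' hA hAs hB hBs hG hG' Z hZX x₀ hxZ ha₀ (max B₁ B₂)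
        (le_max_of_le_left hB₁) ?_ ?_
      · intro y hy
        obtain ⟨c, hc⟩ := hfl y hy
        exact ⟨c, fun n => (hc n).trans (by
          have := mul_le_mul_of_nonneg_right (le_max_left B₁ B₂) (hnn f n)
          linarith)⟩
      · intro y hy
        obtain ⟨c, hc⟩ := hgl y hy
        exact ⟨c, fun n => (hc n).trans (by
          have := mul_le_mul_of_nonneg_right (le_max_right B₁ B₂) (hnn g n)
          linarith)⟩
  obtain ⟨a, b, D, Φ, T, hP, hd₁⟩ := prs X e₀ f g A B h Z hZX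
    (inf_of_deg Z 1 e le_rfl he1 hdeg) hpins x₀ hxZ hdn
  exact endg X e₀ f g A B h Z e E₁ hZ x₀ hxZ a b D Φ T hP hd₁
    (fun D => bz X e₀ f g A B h Z e E₁ hZ D)

/-- The Kawaguchi-Silverman conjecture for automorphisms of threefolds. -/
theorem main3 (X : Set (PPt E N)) (hX : ZClosed X) (hXi : Irred X) (e₀ : ℕ) (he₀ : 1 ≤ e₀)
    (hdeg : HasDegree X 3 e₀) (hsm : SmoothDim X 3) (f g : PPt E N → PPt E N)
    (hf : Set.MapsTo f X X) (hg : Set.MapsTo g X X) (hfg : ∀ x ∈ X, f (g x) = x)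
    (hgf : ∀ x ∈ X, g (f x) = x) (hlf : LocallyByForms X f) (hlg : LocallyByForms X g)
    (A B : Matrix ι ι ℤ) (hAB : A * B = 1) (hA : LinActsBy X f A)
    (hs : ∀ n : ℕ, 1 ≤ n → ∀ v : ι → ℤ,
      ((A ^ n - 1) ^ 2).mulVec v = 0 → (A ^ n - 1).mulVec v = 0)
    (r₀ m₁ : ℕ) (hr₀ : 1 ≤ r₀)
    (Gc : (Fin 4 → SIx N) × (Fin m₁ → SIx N) → MvPolynomial (SIx N) E)
    (hGc : AntiCan (fun x : X => seg (x : PPt E N)) 3 r₀ m₁ Gc)
    (hG0 : ∃ I, ∃ x ∈ X, eval (seg x) (Gc I) ≠ 0) (δ₁ δ₂ : ℝ) (hδ₁ : 1 < δ₁)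
    (hAr : ∀ z ∈ (A.charpoly.map (Int.castRingHom ℂ)).roots, ‖z‖ ≤ δ₁)
    (hG' : Gr3 X g B δ₂)
    (hcase : DynCase X f A B δ₁ δ₂) (x : PPt E N) (hx : x ∈ X) (hd : DenseOrbit X f x) :
    ∃ z ∈ (A.charpoly.map (Int.castRingHom ℂ)).roots, 1 < ‖z‖ ∧ AbsArithDegree f x ‖z‖ ∧
      (δ₁ = δ₂ → ‖z‖ = δ₁) := by
  have h : Aut3 X e₀ f g A B :=
    ⟨hX, hXi, he₀, hdeg, hf, hg, hfg, hgf, hlf, hlg, hA,
      lin_inv X f g hf hg hfg hgf A B hAB hA, hAB⟩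
  have hone := not_one X e₀ f g A B h hsm hs r₀ m₁ hr₀ Gc hGc hG0 δ₁ δ₂ hδ₁ hAr hG'
    hcase x hx hd
  obtain ⟨b, hb⟩ := lbnd hA
  have hmem : ∀ n, f^[n] x ∈ X := fun n => (hf.iterate n) hx
  have hnn : ∀ n i, 0 ≤ absHeight ((f^[n] x) i).rep := fun n i => absHeight_nonneg _
  have hrec : ∀ n i, |absHeight ((f^[n + 1] x) i).rep -
      ∑ j, (A i j : ℝ) * absHeight ((f^[n] x) j).rep| ≤ b := by
    intro n i
    have h1 := hb _ (hmem n) i
    rw [Function.iterate_succ_apply']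
    exact h1
  rcases exa A b (fun n i => absHeight ((f^[n] x) i).rep) hnn hrec with hsub | ⟨z, hz, hz1, hzl⟩
  · exfalso
    apply hone
    unfold AbsArithDegree
    rw [tendsto_order]
    constructor
    · intro a ha
      filter_upwards [] with n
      have h1 : (1 : ℝ) ≤ max (absTotal (f^[n] x)) 1 := le_max_right _ _
      have h2 : (1 : ℝ) ≤ (max (absTotal (f^[n] x)) 1) ^ ((1 : ℝ) / n) :=
        Real.one_le_rpow h1 (by positivity)
      linarith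
    · intro a ha
      obtain ⟨ε, hε⟩ : ∃ ε : ℝ, ε = (a - 1) / 2 := ⟨_, rfl⟩
      have hε0 : 0 < ε := by rw [hε]; linarith
      obtain ⟨K, hK⟩ := hsub ε hε0
      obtain ⟨K', hK'⟩ : ∃ K' : ℝ, K' = max 1 (Fintype.card ι * |K|) := ⟨_, rfl⟩
      have hK'1 : 1 ≤ K' := by rw [hK']; exact le_max_left _ _
      have h1 : ∀ n : ℕ, max (absTotal (f^[n] x)) 1 ≤ K' * (1 + ε) ^ n := by
        intro n
        have h2 : (1 : ℝ) ≤ (1 + ε) ^ n := one_le_pow₀ (by linarith)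
        apply max_le
        · unfold absTotal
          calc ∑ i, absHeight ((f^[n] x) i).rep ≤ ∑ _i : ι, |K| * (1 + ε) ^ n :=
                Finset.sum_le_sum fun i _ => (hK n i).trans
                  (mul_le_mul_of_nonneg_right (le_abs_self K) (by linarith))
            _ = Fintype.card ι * |K| * (1 + ε) ^ n := by
                rw [Finset.sum_const, Finset.card_univ, nsmul_eq_mul, mul_assoc]
            _ ≤ K' * (1 + ε) ^ n := by
                refine mul_le_mul_of_nonneg_right ?_ (by linarith)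
                rw [hK']
                exact le_max_right _ _
        · nlinarith
      have h3 : Tendsto (fun n : ℕ => K' ^ ((1 : ℝ) / n) * (1 + ε)) atTop (𝓝 (1 * (1 + ε))) := by
        refine Tendsto.mul_const _ ?_
        have h4 : Tendsto (fun n : ℕ => (1 : ℝ) / n) atTop (𝓝 0) :=
          tendsto_const_div_atTop_nhds_zero_nat 1
        have h5 : Tendsto (fun n : ℕ => K' ^ ((1 : ℝ) / n)) atTop (𝓝 (K' ^ (0 : ℝ))) :=
          tendsto_const_nhds.rpow h4 (Or.inl (by positivity))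
        rwa [Real.rpow_zero] at h5
      have h4 : ∀ᶠ n : ℕ in atTop, K' ^ ((1 : ℝ) / n) * (1 + ε) < a :=
        (tendsto_order.1 h3).2 _ (by rw [hε]; linarith)
      filter_upwards [h4, eventually_gt_atTop 0] with n hn hn0
      refine lt_of_le_of_lt ?_ hn
      have hn0' : (0 : ℝ) < n := by exact_mod_cast hn0
      have h5 : (0 : ℝ) ≤ max (absTotal (f^[n] x)) 1 := le_trans zero_le_one (le_max_right _ _)
      calc (max (absTotal (f^[n] x)) 1) ^ ((1 : ℝ) / n) ≤ (K' * (1 + ε) ^ n) ^ ((1 : ℝ) / n) :=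
            Real.rpow_le_rpow h5 (h1 n) (by positivity)
        _ = K' ^ ((1 : ℝ) / n) * (1 + ε) := by
            rw [Real.mul_rpow (by positivity) (by positivity), ← Real.rpow_natCast (1 + ε) n,
              ← Real.rpow_mul (by positivity), mul_one_div_cancel hn0'.ne', Real.rpow_one]
  · refine ⟨z, hz, hz1, hzl, fun heq => ?_⟩
    rcases hcase with hlt | ⟨-, ⟨s, hAe, hAs⟩, ⟨s', hB, hBs⟩, hG⟩
    · linarith
    · rcases lt_or_eq_of_le (hAr z hz) with h1 | h1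
      · exact (w_fin X e₀ f g A B h δ₁ hδ₁ s s' hAe hAs hB hBs hG x hx hd ‖z‖ hz1 h1 hzl).elim
      · exact h1

end Pool.Agent.KST
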