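import Pool.Agent.KST.Kta

/-!
# KST KTB: inequalities between intersection numbers

`q_nonneg`: by `pen`, `finrank (Wt T c) = T D c + hm L c`, `D c = hm L c - hm L (c - h₀)`, for
`c ≥ c₁`. Multiplication by a nonzero element of `Rm L b` is injective from `Wt T c` to
`Wt T (c + b)`, so `T D c + hm c ≤ T D (c + b) + hm (c + b)` for all `T`, hence `D c ≤ D (c + b)`. Take
`c = s g + c₂`, `s → ∞`: by `c₃` (`a = h₀`, `a' = b`)
`D (c + b) - D c = Dl b (Dl h₀ (hm L)) (c - h₀) = s Tri t g h₀ b + O(1)`. So `Tri t g b h₀ ≥ 0`.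

`kt`: `kt_F` with `β` any nonzero element of `Rm L b` gives `c₂`, and arbitrarily large `k` with
`j ≥ m' k - 1`, `T`, `F♯`. `mor_mono` for `d ≥ c₁` and all `t'`, with `pen`
(`m = card σ`): `t' D (d + m j b) + hm (..) ≤ (t' + T) D (d + (m - 1) j b + k a + c₂) + hm (..)`. Let
`t' → ∞`: `D (d + m j b) ≤ D (d + (m - 1) j b + k a + c₂)`. Let `d = s g + c₁ + h₀`, `s → ∞`. By `c₃`,
for fixed `u`: `D (d + u) - D d = Dl u (Dl h₀ (hm L)) (d - h₀) = s Tri t g h₀ u + O(1)`. So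
`Q(g, m j b) ≤ Q(g, (m - 1) j b + k a + c₂)`, i.e. `j Q(g,b) ≤ k Q(g,a) + Q(g,c₂)`
(`m ≥ 1` because `Rm L b ≠ 0`). With `j ≥ m' k - 1` and `Q(g,b) ≥ 0`:
`(m' k - 1) Q(g,b) ≤ k Q(g,a) + Q(g,c₂)`; divide by `k → ∞`.

`rkt`: all the numbers are `≥ 0` (`q_nonneg`). Let `q = Q(a,b)`, `p = Q(b,b)`, `A = Q(a,a)`,
`M = card σ ≥ 1`. We may assume `A > 0`. By `kt`, for every `m' ≥ 0` with
`M (2 m' q + m' ^ 2 p) < A`: `m' Q(g,b) ≤ Q(g,a)` for all `g`, in particular `m' p ≤ q` (`g = b`; and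
`Q(b,a) = Q(a,b)`). If `q = 0`: then `m' p ≤ 0` for some `m' > 0`, so `p = 0`, so all `m'` are allowed
and `Q(g,b) = 0`, and the claim `A Q(b,g) ≤ 3 M q Q(a,g)` holds. If `q > 0` let
`m' = A / (3 M q)`. For `0 ≤ m'' < m'`: either `M (2 m'' q + m'' ^ 2 p) < A`, or let `m₀ ≤ m''` be
such that `M (2 m₀ q + m₀ ^ 2 p) = A` (intermediate value); for all smaller numbers `μ` the
condition is satisfied, so `μ p ≤ q`, and `m₀ p ≤ q`; so `A ≤ M (2 m₀ q + m₀ q) = 3 M m₀ q`,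
`m₀ ≥ m' > m''`: contradiction. So `m'' Q(g,b) ≤ Q(g,a)` for all `m'' < m'`, hence for `m'`.
-/

open MvPolynomial

namespace Pool.Agent.KST

variable {E 𝒜 B σ : Type*} [Field E] [CommRing 𝒜] [Algebra E 𝒜] [Fintype B] [DecidableEq B]
  [Fintype σ]

private theorem kb_arch {x x' y y' : ℤ} (h : ∀ T : ℕ, (T : ℤ) * x + y ≤ T * x' + y') : x ≤ x' := by
  by_contra hc
  push Not at hc
  have h1 := h (y' - y).natAbs.succ
  have h2 : (((y' - y).natAbs.succ : ℕ) : ℤ) = |y' - y| + 1 := by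
    rw [Nat.succ_eq_add_one]
    push_cast
    rfl
  rw [h2] at h1
  have h3 := le_abs_self (y' - y)
  nlinarith [abs_nonneg (y' - y)]

private theorem kb_arch_real {x K : ℝ} (h : ∀ s : ℕ, (s : ℝ) * x ≤ K) : x ≤ 0 := by
  by_contra hc
  push Not at hc
  obtain ⟨s, hs⟩ := exists_nat_gt (K / x)
  rw [div_lt_iff₀ hc] at hs
  linarith [h s]

omit [DecidableEq B] in
private theorem kb_add₂ (t : B → B → B → ℝ) (u v v' w : B → ℝ) :
    Tri t u (v + v') w = Tri t u v w + Tri t u v' w := by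
  unfold Tri
  simp only [← Finset.sum_add_distrib]
  refine Finset.sum_congr rfl fun i _ => Finset.sum_congr rfl fun j _ =>
    Finset.sum_congr rfl fun k _ => ?_
  simp only [Pi.add_apply]
  ring

omit [DecidableEq B] in
private theorem kb_smul₂ (t : B → B → B → ℝ) (r : ℝ) (u v w : B → ℝ) :
    Tri t u (r • v) w = r * Tri t u v w := by
  unfold Tri
  simp only [Finset.mul_sum]
  refine Finset.sum_congr rfl fun i _ => Finset.sum_congr rfl fun j _ =>
    Finset.sum_congr rfl fun k _ => ?_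
  simp only [Pi.smul_apply, smul_eq_mul]
  ring

omit [Fintype B] [DecidableEq B] in
private theorem kb_rv_add (u v : B → ℕ) : rv (u + v) = rv u + rv v := by
  funext i
  simp [rv]

omit [Fintype B] [DecidableEq B] in
private theorem kb_rv_smul (k : ℕ) (u : B → ℕ) : rv (k • u) = (k : ℝ) • rv u := by
  funext i
  simp [rv]

/-- comparison of the leading terms -/
private theorem kb_key (h : (B → ℕ) → ℤ) (t : B → B → B → ℝ) (ht : Cub h t) (h₀ c₁ : B → ℕ)
    (u₁ u₂ g : B → ℕ)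
    (H : ∀ d, c₁ ≤ d → h (d + u₁) - h (d + u₁ - h₀) ≤ h (d + u₂) - h (d + u₂ - h₀)) :
    Tri t (rv g) (rv u₁) (rv h₀) ≤ Tri t (rv g) (rv u₂) (rv h₀) := by
  obtain ⟨C₁, a₁, h₁⟩ := ht.c₃ h₀ u₁
  obtain ⟨C₂, a₂, h₂⟩ := ht.c₃ h₀ u₂
  set r : B → ℕ := c₁ + a₁ + a₂ with hr
  have key : ∀ s : ℕ, (s : ℝ) * (Tri t (rv g) (rv u₁) (rv h₀) - Tri t (rv g) (rv u₂) (rv h₀)) ≤
      C₁ + C₂ + Tri t (rv r) (rv u₂) (rv h₀) - Tri t (rv r) (rv u₁) (rv h₀) := by
    intro s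
    set e : B → ℕ := s • g + r with he
    have e1 : a₁ ≤ e := by
      intro i
      simp only [he, hr, Pi.add_apply]
      omega
    have e2 : a₂ ≤ e := by
      intro i
      simp only [he, hr, Pi.add_apply]
      omega
    have e3 : c₁ ≤ e + h₀ := by
      intro i
      simp only [he, hr, Pi.add_apply]
      omega
    have f1 := h₁ e e1
    have f2 := h₂ e e2
    have f3 := H (e + h₀) e3
    have g1 : e + h₀ + u₁ - h₀ = e + u₁ := by
      funext i
      simp only [Pi.add_apply, Pi.sub_apply]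
      omega
    have g2 : e + h₀ + u₂ - h₀ = e + u₂ := by
      funext i
      simp only [Pi.add_apply, Pi.sub_apply]
      omega
    have g3 : e + h₀ + u₁ = e + u₁ + h₀ := by rw [add_right_comm]
    have g4 : e + h₀ + u₂ = e + u₂ + h₀ := by rw [add_right_comm]
    rw [g1, g2, g3, g4] at f3
    have k1 : Dl u₁ (Dl h₀ h) e = (h (e + u₁ + h₀) - h (e + u₁)) - (h (e + h₀) - h e) := rfl
    have k2 : Dl u₂ (Dl h₀ h) e = (h (e + u₂ + h₀) - h (e + u₂)) - (h (e + h₀) - h e) := rfl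
    have k3 : ((Dl u₁ (Dl h₀ h) e : ℤ) : ℝ) ≤ ((Dl u₂ (Dl h₀ h) e : ℤ) : ℝ) := by
      exact_mod_cast (by rw [k1, k2]; linarith)
    have t1 : Tri t (rv e) (rv h₀) (rv u₁) =
        s * Tri t (rv g) (rv u₁) (rv h₀) + Tri t (rv r) (rv u₁) (rv h₀) := by
      rw [he, kb_rv_add, kb_rv_smul, tri_add₁, tri_smul₁, tri_swap₂ t ht.s₂ (rv g),
        tri_swap₂ t ht.s₂ (rv r)]
    have t2 : Tri t (rv e) (rv h₀) (rv u₂) =
        s * Tri t (rv g) (rv u₂) (rv h₀) + Tri t (rv r) (rv u₂) (rv h₀) := by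
      rw [he, kb_rv_add, kb_rv_smul, tri_add₁, tri_smul₁, tri_swap₂ t ht.s₂ (rv g),
        tri_swap₂ t ht.s₂ (rv r)]
    rw [t1] at f1
    rw [t2] at f2
    have m1 := (abs_le.mp f1).1
    have m2 := (abs_le.mp f2).2
    rw [mul_sub]
    linarith
  have := kb_arch_real key
  linarith

omit [DecidableEq B] in
/-- multiplication by a nonzero element -/
private theorem kb_rank [Nontrivial 𝒜] (L : B → Submodule E 𝒜) (hL : Irm L) (h₀ : B → ℕ) (P P' : 𝒜)
    (hP : P ∈ Rm L h₀) (hP' : P' ∈ Rm L h₀) (T : ℕ) (c b : B → ℕ) :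
    Module.finrank E (Wt L P P' T c) ≤ Module.finrank E (Wt L P P' T (c + b)) := by
  obtain ⟨β, hβ, hβ0⟩ := rm_ne L hL b
  have hfg := wt_fg L hL.fg P P' T (c + b)
  haveI : Module.Finite E (Wt L P P' T (c + b)) := Module.Finite.iff_fg.mpr hfg
  refine LinearMap.finrank_le_finrank_of_injective
    (f := (LinearMap.mulLeft E β).restrict (p := Wt L P P' T c) (q := Wt L P P' T (c + b))
      (fun F hF => wt_mul_mem L P P' hF hβ)) ?_
  rw [injective_iff_map_eq_zero]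
  rintro ⟨F, hF⟩ h
  have h1 : β * F = 0 := by
    have := congrArg Subtype.val h
    exact this
  have h2 := wt_le L h₀ P P' hP hP' T c hF
  rcases hL.mul b _ β F hβ h2 h1 with h3 | h3
  · exact absurd h3 hβ0
  · exact Subtype.ext h3

private theorem kb_D (L : B → Submodule E 𝒜) (hL : Irm L) (h₀ : B → ℕ) (P P' : 𝒜)
    (hP : P ∈ Rm L h₀) (hP' : P' ∈ Rm L h₀) (h0 : P ≠ 0) (c₁ : B → ℕ) (hnz : NZ L h₀ P P' c₁)
    {c c' : B → ℕ} (hc : c₁ ≤ c) (hc' : c₁ ≤ c') (T₀ : ℕ)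
    (H : ∀ T : ℕ, Module.finrank E (Wt L P P' T c) ≤ Module.finrank E (Wt L P P' (T + T₀) c')) :
    hm L c - hm L (c - h₀) ≤ hm L c' - hm L (c' - h₀) := by
  refine kb_arch (y := hm L c) (y' := T₀ * (hm L c' - hm L (c' - h₀)) + hm L c') fun T => ?_
  have h1 : (Module.finrank E (Wt L P P' T c) : ℤ) ≤ Module.finrank E (Wt L P P' (T + T₀) c') := by
    exact_mod_cast H T
  rw [pen L hL h₀ P P' hP hP' h0 c₁ hnz T c hc, pen L hL h₀ P P' hP hP' h0 c₁ hnz (T + T₀) c' hc']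
    at h1
  push_cast at h1
  linarith

theorem q_nonneg (L : B → Submodule E 𝒜) (hL : Irm L) (t : B → B → B → ℝ) (ht : Cub (hm L) t)
    (h₀ : B → ℕ) (P P' : 𝒜) (hP : P ∈ Rm L h₀) (hP' : P' ∈ Rm L h₀) (h0 : P ≠ 0)
    (c₁ : B → ℕ) (hnz : NZ L h₀ P P' c₁) (g b : B → ℕ) : 0 ≤ Tri t (rv g) (rv b) (rv h₀) := by
  have h1 := kb_key (hm L) t ht h₀ c₁ 0 b g fun d hd => by
    refine kb_D L hL h₀ P P' hP hP' h0 c₁ hnz (by rw [add_zero]; exact hd)
      (le_trans hd (by intro i; simp)) 0 fun T => ?_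
    rw [add_zero, add_zero]
    have hnt : Nontrivial 𝒜 := ⟨P, 0, h0⟩
    exact kb_rank L hL h₀ P P' hP hP' T d b
  have h2 : rv (0 : B → ℕ) = (0 : ℝ) • rv (0 : B → ℕ) := by
    funext i
    simp [rv]
  rw [h2, kb_smul₂, zero_mul] at h1
  exact h1

theorem kt (L : B → Submodule E 𝒜) (hL : Irm L) (t : B → B → B → ℝ) (ht : Cub (hm L) t)
    (h₀ : B → ℕ) (P P' : 𝒜) (hP : P ∈ Rm L h₀) (hP' : P' ∈ Rm L h₀) (h0 : P ≠ 0)
    (c₁ : B → ℕ) (hnz : NZ L h₀ P P' c₁) (b : B → ℕ) (X : σ → 𝒜)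
    (hX : Submodule.span E (Set.range X) = Rm L b) (a g : B → ℕ) (m' : ℝ) (hm' : 0 ≤ m')
    (hcond : Fintype.card σ * (2 * m' * Tri t (rv a) (rv b) (rv h₀) +
      m' ^ 2 * Tri t (rv b) (rv b) (rv h₀)) < Tri t (rv a) (rv a) (rv h₀)) :
    m' * Tri t (rv g) (rv b) (rv h₀) ≤ Tri t (rv g) (rv a) (rv h₀) := by
  have hnt : Nontrivial 𝒜 := ⟨P, 0, h0⟩
  obtain ⟨β, hβ, hβ0⟩ := rm_ne L hL b
  have hXm : ∀ w, X w ∈ Rm L b := fun w => by
    rw [← hX]
    exact Submodule.subset_span ⟨w, rfl⟩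
  have hm1 : 1 ≤ Fintype.card σ := by
    rw [Nat.one_le_iff_ne_zero]
    intro hz
    haveI : IsEmpty σ := Fintype.card_eq_zero_iff.mp hz
    rw [← hX, Set.range_eq_empty, Submodule.span_empty] at hβ
    exact hβ0 ((Submodule.mem_bot E).mp hβ)
  obtain ⟨c₂, hc₂, hk⟩ := kt_F L hL t ht h₀ P P' hP hP' h0 c₁ hnz b X hXm β hβ hβ0 a m' hm' hcond
  have hQb := q_nonneg L hL t ht h₀ P P' hP hP' h0 c₁ hnz g b
  by_contra hcon
  push Not at hcon
  set x := m' * Tri t (rv g) (rv b) (rv h₀) - Tri t (rv g) (rv a) (rv h₀) with hx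
  have hx0 : 0 < x := by rw [hx]; linarith
  obtain ⟨K, hK⟩ := exists_nat_gt ((Tri t (rv g) (rv c₂) (rv h₀) +
    Tri t (rv g) (rv b) (rv h₀)) / x)
  rw [div_lt_iff₀ hx0] at hK
  obtain ⟨k, hKk, T, j, hj, F, hF, hF0, hFX⟩ := hk K
  have h1 := kb_key (hm L) t ht h₀ c₁ ((Fintype.card σ * j) • b)
    (((Fintype.card σ - 1) * j) • b + (k • a + c₂)) g fun d hd => by
      refine kb_D L hL h₀ P P' hP hP' h0 c₁ hnz (le_trans hd (by intro i; simp))
        (le_trans hd (by intro i; simp)) T fun T' => ?_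
      have := mor_mono L hL h₀ P P' hP hP' b X hX β hβ hβ0 T j (k • a + c₂) F hF hF0 hFX T' d
      rw [add_assoc d] at this
      exact this
  rw [kb_rv_add, kb_rv_add, kb_rv_smul, kb_rv_smul, kb_rv_smul, kb_add₂, kb_add₂, kb_smul₂,
    kb_smul₂, kb_smul₂] at h1
  have h2 : (((Fintype.card σ - 1) * j : ℕ) : ℝ) = ((Fintype.card σ : ℝ) - 1) * j := by
    rw [Nat.cast_mul, Nat.cast_sub hm1, Nat.cast_one]
  rw [h2] at h1
  push_cast at h1
  have h3 : (K : ℝ) ≤ k := by exact_mod_cast hKk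
  have h4 := mul_le_mul_of_nonneg_right hj hQb
  have h5 := mul_le_mul_of_nonneg_right h3 hx0.le
  have h6 : (k : ℝ) * x = k * m' * Tri t (rv g) (rv b) (rv h₀) -
      k * Tri t (rv g) (rv a) (rv h₀) := by rw [hx]; ring
  nlinarith

theorem rkt (L : B → Submodule E 𝒜) (hL : Irm L) (t : B → B → B → ℝ) (ht : Cub (hm L) t)
    (h₀ : B → ℕ) (P P' : 𝒜) (hP : P ∈ Rm L h₀) (hP' : P' ∈ Rm L h₀) (h0 : P ≠ 0)
    (c₁ : B → ℕ) (hnz : NZ L h₀ P P' c₁) (b : B → ℕ) (X : σ → 𝒜)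
    (hX : Submodule.span E (Set.range X) = Rm L b) (a g : B → ℕ) :
    Tri t (rv a) (rv a) (rv h₀) * Tri t (rv b) (rv g) (rv h₀) ≤
      3 * Fintype.card σ * Tri t (rv a) (rv b) (rv h₀) * Tri t (rv a) (rv g) (rv h₀) := by
  have hn := fun g b => q_nonneg L hL t ht h₀ P P' hP hP' h0 c₁ hnz g b
  have hk := fun g m' hm' hc => kt L hL t ht h₀ P P' hP hP' h0 c₁ hnz b X hX a g m' hm' hc
  rw [tri_swap₁ t ht.s₁ (rv b) (rv g), tri_swap₁ t ht.s₁ (rv a) (rv g)]
  have hkb := hk b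
  rw [tri_swap₁ t ht.s₁ (rv b) (rv a)] at hkb
  have hkg := hk g
  have n1 := hn a a
  have n2 := hn g b
  have n3 := hn a b
  have n4 := hn g a
  have n5 := hn b b
  set A := Tri t (rv a) (rv a) (rv h₀)
  set x := Tri t (rv g) (rv b) (rv h₀)
  set y := Tri t (rv g) (rv a) (rv h₀)
  set q := Tri t (rv a) (rv b) (rv h₀)
  set p := Tri t (rv b) (rv b) (rv h₀)
  set M : ℝ := (Fintype.card σ : ℝ)
  have hM : 0 ≤ M := Nat.cast_nonneg _
  -- all smaller numbers are allowed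
  have hall : ∀ m : ℝ, 0 ≤ m → 3 * M * q * m < A → m * x ≤ y := by
    intro m hm0 hm
    have hmp : m * p ≤ q := by
      by_contra hcon
      push Not at hcon
      have hp : 0 < p := by
        rcases n5.eq_or_lt with h | h
        · rw [← h, mul_zero] at hcon
          linarith
        · exact h
      have hq : q / p < m := by rw [div_lt_iff₀ hp]; exact hcon
      have hf : M * (2 * (q / p) * q + (q / p) ^ 2 * p) < A := by
        have e : M * (2 * (q / p) * q + (q / p) ^ 2 * p) = 3 * M * q * (q / p) := by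
          field_simp
          ring
        rw [e]
        have : 3 * M * q * (q / p) ≤ 3 * M * q * m :=
          mul_le_mul_of_nonneg_left hq.le (by positivity)
        linarith
      have hc : ContinuousAt (fun μ : ℝ => M * (2 * μ * q + μ ^ 2 * p)) (q / p) := by fun_prop
      have hev : ∀ᶠ μ in nhdsWithin (q / p) (Set.Ioi (q / p)),
          M * (2 * μ * q + μ ^ 2 * p) < A :=
        (hc.tendsto.eventually (gt_mem_nhds hf)).filter_mono nhdsWithin_le_nhds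
      obtain ⟨μ, hμ, hμ2⟩ := (hev.and self_mem_nhdsWithin).exists
      have hμ3 : q / p < μ := hμ2
      have hμ0 : 0 ≤ μ := le_trans (by positivity) hμ3.le
      have := hkb μ hμ0 hμ
      rw [div_lt_iff₀ hp] at hμ3
      linarith
    refine hkg m hm0 ?_
    have : M * (2 * m * q + m ^ 2 * p) ≤ 3 * M * q * m := by
      have h1 := mul_le_mul_of_nonneg_left hmp (mul_nonneg hM hm0)
      nlinarith
    linarith
  by_contra hcon
  push Not at hcon
  have hx : 0 < x := by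
    rcases n2.eq_or_lt with h | h
    · rw [← h, mul_zero] at hcon
      have : 0 ≤ 3 * M * q * y := by positivity
      linarith
    · exact h
  have hf : 3 * M * q * (y / x) < A := by
    rw [mul_div_assoc', div_lt_iff₀ hx]
    exact hcon
  have hc : ContinuousAt (fun μ : ℝ => 3 * M * q * μ) (y / x) := by fun_prop
  have hev : ∀ᶠ μ in nhdsWithin (y / x) (Set.Ioi (y / x)), 3 * M * q * μ < A :=
    (hc.tendsto.eventually (gt_mem_nhds hf)).filter_mono nhdsWithin_le_nhds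
  obtain ⟨μ, hμ, hμ2⟩ := (hev.and self_mem_nhdsWithin).exists
  have hμ3 : y / x < μ := hμ2
  have hμ0 : 0 ≤ μ := le_trans (by positivity) hμ3.le
  have h1 := hall μ hμ0 hμ
  rw [div_lt_iff₀ hx] at hμ3
  linarith

end Pool.Agent.KST
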