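import Mathlib

/-!
# KST BZA: a bound for the nilpotency index

`V ^ i` are the elements of degree `i` of a graded domain of dimension two, of degree at most `e`.
For `j k : ℕ` let `N j k` be the subspace of the `F ∈ V ^ (k + 1)` such that `G ^ j * F ∈ L * V ^ (k + j * D)`,
and `ν j k = finrank (V ^ (k + 1)) - finrank (N j k)`, the dimension of the quotient.
(a) `N j k ≤ N (j + 1) k` (multiply by `G`), so `ν (j + 1) k ≤ ν j k`. `L * V ^ k ⊆ N j k`.
(b) For `k ≥ k₂`: `ν j (k + 1) ≤ ν j k`: multiplication by `z` maps `N j k` into `N j (k + 1)`, and the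
induced map `V ^ (k + 1) / N j k → V ^ (k + 2) / N j (k + 1)` is onto by `hz₂` (at `k + 1`: `F = L F₁ + z F₂` with
`F₁, F₂ ∈ V ^ (k + 1)`, `L F₁ ∈ N j (k + 1)`). So `k ↦ ν j k` is eventually constant, `= c j`, and
`c (j + 1) ≤ c j`.
(c) `c 0 ≤ e`: `N 0 k = L * V ^ k`, of dimension `finrank (V ^ k)` (multiplication by `L` is injective on
`V ^ k` by `hdom`), so `ν 0 k = finrank (V ^ (k + 1)) - finrank (V ^ k) = c 0` for `k ≥ k₃`, so
`c 0 * n ≤ finrank (V ^ (k₃ + n)) ≤ e (k₃ + n) + 1` for all `n`, so `c 0 ≤ e`.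
(d) There is `j ≤ e` with `c j = c (j + 1)` (otherwise `c 0 > c 1 > ... > c (e + 1) ≥ 0` and `c 0 ≥ e + 1`).
So `N j k = N (j + 1) k` for all `k ≥ k₄`. Claim: `N j k = V ^ (k + 1)` for `k ≥ k₄`. Let `F ∈ V ^ (k + 1)`; show
`G ^ i F ∈ L V ^ (k + i D)` for `i = max N j, ..., j` by descending induction: for `i = N` it is `hN` (and so
for larger `i`); if it holds for `i + 1 > j`, then `G ^ (i - j) F ∈ V ^ (k + (i - j) D + 1)` is in
`N (j + 1) (k + (i - j) D) = N j (k + (i - j) D)`, i.e. `G ^ i F ∈ L V ^ (k + i D)`.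
(e) `N e k ≥ N j k` by (a).
-/

namespace Pool.Agent.KST

private lemma ev_const {f : ℕ → ℕ} {a : ℕ} (h : ∀ k, a ≤ k → f (k + 1) ≤ f k) :
    ∃ c K, ∀ k, K ≤ k → f k = c := by
  have hne : {n | ∃ k, a ≤ k ∧ f k = n}.Nonempty := ⟨f a, a, le_rfl, rfl⟩
  obtain ⟨K, hK, hK'⟩ := Nat.sInf_mem hne
  refine ⟨f K, K, fun k hk => ?_⟩
  have h1 : ∀ n, f (K + n) ≤ f K := by
    intro n
    induction n with
    | zero => exact le_rfl
    | succ n ih => exact (h (K + n) (by omega)).trans ih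
  obtain ⟨n, rfl⟩ := Nat.exists_eq_add_of_le hk
  exact le_antisymm (h1 n) (hK'.le.trans (Nat.sInf_le ⟨K + n, by omega, rfl⟩))

private lemma pigeon {c : ℕ → ℕ} {e : ℕ} (h : ∀ j, c (j + 1) ≤ c j) (h0 : c 0 ≤ e) :
    ∃ j ≤ e, c j = c (j + 1) := by
  by_contra hcon
  push Not at hcon
  have h1 : ∀ j, j ≤ e + 1 → c j + j ≤ c 0 := by
    intro j
    induction j with
    | zero => intro _; simp
    | succ j ih =>
      intro hj
      have h2 := ih (by omega)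
      have h3 := hcon j (by omega)
      have h4 := h j
      omega
  have h5 := h1 (e + 1) le_rfl
  omega

section

variable {E 𝒜 : Type*} [Field E] [CommRing 𝒜] [Algebra E 𝒜]

private def Nn (V : Submodule E 𝒜) (L G : 𝒜) (D j k : ℕ) :
    Submodule E (V ^ (k + 1) : Submodule E 𝒜) :=
  (((V ^ (k + j * D) : Submodule E 𝒜).map (LinearMap.mulLeft E L)).comap
    (LinearMap.mulLeft E (G ^ j))).comap (V ^ (k + 1) : Submodule E 𝒜).subtype

private lemma mem_Nn {V : Submodule E 𝒜} {L G : 𝒜} {D j k : ℕ}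
    {F : (V ^ (k + 1) : Submodule E 𝒜)} :
    F ∈ Nn V L G D j k ↔ ∃ F' ∈ V ^ (k + j * D), G ^ j * (F : 𝒜) = L * F' := by
  simp only [Nn, Submodule.mem_comap, Submodule.mem_map, LinearMap.mulLeft_apply,
    Submodule.subtype_apply]
  constructor
  · rintro ⟨F', h, h'⟩
    exact ⟨F', h, h'.symm⟩
  · rintro ⟨F', h, h'⟩
    exact ⟨F', h, h'.symm⟩

private lemma Nn_mono {V : Submodule E 𝒜} {L G : 𝒜} {D : ℕ} (hG : G ∈ V ^ D) (j k : ℕ) :
    Nn V L G D j k ≤ Nn V L G D (j + 1) k := by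
  intro F hF
  obtain ⟨F', h, h'⟩ := mem_Nn.1 hF
  refine mem_Nn.2 ⟨G * F', ?_, ?_⟩
  · have h1 : k + (j + 1) * D = D + (k + j * D) := by ring
    rw [h1, pow_add]
    exact Submodule.mul_mem_mul hG h
  · rw [pow_succ', mul_assoc, h']
    ring

/-- multiplication by `z` from degree `k + 1` to degree `k + 2` -/
private def mz (V : Submodule E 𝒜) (z : 𝒜) (hz : z ∈ V) (k : ℕ) :
    (V ^ (k + 1) : Submodule E 𝒜) →ₗ[E] (V ^ (k + 1 + 1) : Submodule E 𝒜) :=
  (LinearMap.mulLeft E z).restrict (fun x hx => by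
    rw [LinearMap.mulLeft_apply, pow_succ']
    exact Submodule.mul_mem_mul hz hx)

private lemma nu_step {V : Submodule E 𝒜} (hV : V.FG) {L G : 𝒜} {D : ℕ} (hG : G ∈ V ^ D)
    {z : 𝒜} (hz : z ∈ V) (j k : ℕ)
    (h : ∀ F ∈ V ^ (k + 1 + 1), ∃ F₁ ∈ V ^ (k + 1), ∃ F₂ ∈ V ^ (k + 1), F = L * F₁ + z * F₂) :
    Module.finrank E ((V ^ (k + 1 + 1) : Submodule E 𝒜) ⧸ Nn V L G D j (k + 1)) ≤
      Module.finrank E ((V ^ (k + 1) : Submodule E 𝒜) ⧸ Nn V L G D j k) := by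
  have hfd : ∀ n, FiniteDimensional E (V ^ n : Submodule E 𝒜) := fun n =>
    Module.Finite.iff_fg.2 (hV.pow n)
  have hf := hfd (k + 1)
  have hle : Nn V L G D j k ≤ (Nn V L G D j (k + 1)).comap (mz V z hz k) := by
    intro F hF
    obtain ⟨F', h1, h2⟩ := mem_Nn.1 hF
    rw [Submodule.mem_comap]
    refine mem_Nn.2 ⟨z * F', ?_, ?_⟩
    · have h3 : k + 1 + j * D = 1 + (k + j * D) := by ring
      rw [h3, pow_add, pow_one]
      exact Submodule.mul_mem_mul hz h1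
    · have h3 : ((mz V z hz k F : (V ^ (k + 1 + 1) : Submodule E 𝒜)) : 𝒜) = z * F := rfl
      rw [h3, mul_left_comm, h2]
      ring
  have hsurj : Function.Surjective (Submodule.mapQ _ _ (mz V z hz k) hle) := by
    intro y
    obtain ⟨F, rfl⟩ := Submodule.mkQ_surjective _ y
    obtain ⟨F₁, h1, F₂, h2, h3⟩ := h F F.2
    refine ⟨Submodule.Quotient.mk ⟨F₂, h2⟩, ?_⟩
    rw [Submodule.mapQ_apply, Submodule.mkQ_apply, Submodule.Quotient.eq]
    refine mem_Nn.2 ⟨-(G ^ j * F₁), ?_, ?_⟩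
    · refine Submodule.neg_mem _ ?_
      have h4 : k + 1 + j * D = D * j + (k + 1) := by ring
      rw [h4, pow_add, pow_mul]
      exact Submodule.mul_mem_mul (Submodule.pow_mem_pow _ hG j) h1
    · have h5 : ((mz V z hz k ⟨F₂, h2⟩ - F : (V ^ (k + 1 + 1) : Submodule E 𝒜)) : 𝒜) =
        z * F₂ - F := rfl
      rw [h5, h3]
      ring
  exact LinearMap.finrank_le_finrank_of_surjective hsurj

private lemma finrank_zero {V : Submodule E 𝒜} (hV : V.FG)
    (hdom : ∀ (i j : ℕ) (F G : 𝒜), F ∈ V ^ i → G ∈ V ^ j → F * G = 0 → F = 0 ∨ G = 0)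
    {L : 𝒜} (hL : L ∈ V) (hL0 : L ≠ 0) (G : 𝒜) (D k : ℕ) :
    Module.finrank E (V ^ (k + 1) : Submodule E 𝒜) = Module.finrank E (V ^ k : Submodule E 𝒜) +
      Module.finrank E ((V ^ (k + 1) : Submodule E 𝒜) ⧸ Nn V L G D 0 k) := by
  have hfd : ∀ n, FiniteDimensional E (V ^ n : Submodule E 𝒜) := fun n =>
    Module.Finite.iff_fg.2 (hV.pow n)
  have hf := hfd (k + 1)
  rw [← Submodule.finrank_quotient_add_finrank (Nn V L G D 0 k), add_comm]
  congr 1
  obtain ⟨f, hf⟩ : ∃ f : (V ^ k : Submodule E 𝒜) →ₗ[E] (V ^ (k + 1) : Submodule E 𝒜),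
      ∀ x, (f x : 𝒜) = L * x :=
    ⟨(LinearMap.mulLeft E L).restrict (fun x hx => by
      rw [LinearMap.mulLeft_apply, pow_succ']
      exact Submodule.mul_mem_mul hL hx), fun x => rfl⟩
  have hinj : Function.Injective f := by
    rw [← LinearMap.ker_eq_bot, LinearMap.ker_eq_bot']
    intro x hx
    have h1 := hf x
    rw [hx] at h1
    rcases hdom 1 k L x (by rwa [pow_one]) x.2 h1.symm with h2 | h2
    · exact absurd h2 hL0
    · exact Subtype.ext h2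
  have hr : LinearMap.range f = Nn V L G D 0 k := by
    ext F
    rw [mem_Nn, LinearMap.mem_range]
    constructor
    · rintro ⟨x, rfl⟩
      refine ⟨x, by simp, by rw [hf, pow_zero, one_mul]⟩
    · rintro ⟨F', h1, h2⟩
      refine ⟨⟨F', by simpa using h1⟩, Subtype.ext ?_⟩
      rw [hf]
      rw [pow_zero, one_mul] at h2
      exact h2.symm
  rw [← hr]
  exact (LinearMap.finrank_range_of_inj hinj)

end

theorem nilp {E 𝒜 : Type*} [Field E] [CommRing 𝒜] [Algebra E 𝒜] (V : Submodule E 𝒜) (hV : V.FG)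
    (hdom : ∀ (i j : ℕ) (F G : 𝒜), F ∈ V ^ i → G ∈ V ^ j → F * G = 0 → F = 0 ∨ G = 0) (e : ℕ)
    (he : ∀ k, Module.finrank E (V ^ k : Submodule E 𝒜) ≤ e * k + 1) (L : 𝒜) (hL : L ∈ V)
    (hL0 : L ≠ 0) (z : 𝒜) (hz : z ∈ V) (k₂ : ℕ)
    (hz₂ : ∀ k, k₂ ≤ k → ∀ F ∈ V ^ (k + 1), ∃ F₁ ∈ V ^ k, ∃ F₂ ∈ V ^ k, F = L * F₁ + z * F₂)
    (D : ℕ) (G : 𝒜) (hG : G ∈ V ^ D) (N : ℕ)
    (hN : ∀ k, ∀ F ∈ V ^ (k + 1), ∃ F' ∈ V ^ (k + N * D), G ^ N * F = L * F') :
    ∃ k₁, ∀ k, k₁ ≤ k → ∀ F ∈ V ^ (k + 1), ∃ F' ∈ V ^ (k + e * D), G ^ e * F = L * F' := by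
  have hfd : ∀ n, FiniteDimensional E (V ^ n : Submodule E 𝒜) := fun n =>
    Module.Finite.iff_fg.2 (hV.pow n)
  -- the eventual values
  have hev : ∀ j, ∃ c K, ∀ k, K ≤ k →
      Module.finrank E ((V ^ (k + 1) : Submodule E 𝒜) ⧸ Nn V L G D j k) = c := fun j =>
    ev_const (a := k₂) fun k hk => nu_step hV hG hz j k fun F hF => hz₂ (k + 1) (by omega) F hF
  choose c K hK using hev
  have hc1 : ∀ j, c (j + 1) ≤ c j := by
    intro j
    have h1 := hK j (max (K j) (K (j + 1))) (le_max_left _ _)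
    have h2 := hK (j + 1) (max (K j) (K (j + 1))) (le_max_right _ _)
    rw [← h1, ← h2]
    have := hfd (max (K j) (K (j + 1)) + 1)
    have h3 := Submodule.finrank_mono (Nn_mono hG j (max (K j) (K (j + 1))) : Nn V L G D _ _ ≤ _)
    have h4 := Submodule.finrank_quotient_add_finrank (Nn V L G D j (max (K j) (K (j + 1))))
    have h5 := Submodule.finrank_quotient_add_finrank (Nn V L G D (j + 1) (max (K j) (K (j + 1))))
    omega
  have hc0 : c 0 ≤ e := by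
    by_contra hcon
    have h1 : ∀ n, n * c 0 ≤ Module.finrank E (V ^ (K 0 + n) : Submodule E 𝒜) := by
      intro n
      induction n with
      | zero => simp
      | succ n ih =>
        have h2 := finrank_zero hV hdom hL hL0 G D (K 0 + n)
        rw [hK 0 (K 0 + n) (by omega)] at h2
        rw [← add_assoc, h2, add_mul, one_mul]
        omega
    have h2 := h1 (e * K 0 + 2)
    have h3 := he (K 0 + (e * K 0 + 2))
    have h4 : (e * K 0 + 2) * (e + 1) ≤ (e * K 0 + 2) * c 0 := Nat.mul_le_mul_left _ (by omega)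
    nlinarith
  obtain ⟨j, hj, hjc⟩ := pigeon hc1 hc0
  refine ⟨max (K j) (K (j + 1)), ?_⟩
  have hNN : ∀ k, max (K j) (K (j + 1)) ≤ k → Nn V L G D j k = Nn V L G D (j + 1) k := by
    intro k hk
    have := hfd (k + 1)
    refine Submodule.eq_of_le_of_finrank_eq (Nn_mono hG j k) ?_
    have h1 := hK j k (by omega)
    have h2 := hK (j + 1) k (by omega)
    have h4 := Submodule.finrank_quotient_add_finrank (Nn V L G D j k)
    have h5 := Submodule.finrank_quotient_add_finrank (Nn V L G D (j + 1) k)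
    omega
  obtain ⟨M, hM⟩ : ∃ M, M = max (K j) (K (j + 1)) := ⟨_, rfl⟩
  rw [← hM] at hNN ⊢
  have hup : ∀ i, (∀ k, M ≤ k → ∀ F ∈ V ^ (k + 1), ∃ F' ∈ V ^ (k + i * D), G ^ i * F = L * F') →
      ∀ k, M ≤ k → ∀ F ∈ V ^ (k + 1), ∃ F' ∈ V ^ (k + (i + 1) * D), G ^ (i + 1) * F = L * F' := by
    intro i hi k hk F hF
    exact mem_Nn.1 (Nn_mono hG i k (mem_Nn.2 (hi k hk F hF) : (⟨F, hF⟩ :
      (V ^ (k + 1) : Submodule E 𝒜)) ∈ Nn V L G D i k))
  have hups : ∀ i n, (∀ k, M ≤ k → ∀ F ∈ V ^ (k + 1), ∃ F' ∈ V ^ (k + i * D), G ^ i * F = L * F') →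
      ∀ k, M ≤ k → ∀ F ∈ V ^ (k + 1), ∃ F' ∈ V ^ (k + (i + n) * D), G ^ (i + n) * F = L * F' := by
    intro i n hi
    induction n with
    | zero => exact hi
    | succ n ih => exact hup (i + n) ih
  have hdown : ∀ i, j ≤ i →
      (∀ k, M ≤ k → ∀ F ∈ V ^ (k + 1), ∃ F' ∈ V ^ (k + (i + 1) * D), G ^ (i + 1) * F = L * F') →
      ∀ k, M ≤ k → ∀ F ∈ V ^ (k + 1), ∃ F' ∈ V ^ (k + i * D), G ^ i * F = L * F' := by
    intro i hji hi k hk F hF
    obtain ⟨n, rfl⟩ := Nat.exists_eq_add_of_le hji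
    have hF' : G ^ n * F ∈ V ^ (k + n * D + 1) := by
      have h1 : k + n * D + 1 = D * n + (k + 1) := by ring
      rw [h1, pow_add, pow_mul]
      exact Submodule.mul_mem_mul (Submodule.pow_mem_pow _ hG n) hF
    obtain ⟨F', h1, h2⟩ := hi k hk F hF
    have h3 : (⟨G ^ n * F, hF'⟩ : (V ^ (k + n * D + 1) : Submodule E 𝒜)) ∈
        Nn V L G D (j + 1) (k + n * D) := by
      refine mem_Nn.2 ⟨F', ?_, ?_⟩
      · have h4 : k + n * D + (j + 1) * D = k + (j + n + 1) * D := by ring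
        rwa [h4]
      · rw [← h2, ← mul_assoc, ← pow_add]
        congr 2
        ring
    rw [← hNN _ (by omega)] at h3
    obtain ⟨F'', h5, h6⟩ := mem_Nn.1 h3
    refine ⟨F'', ?_, ?_⟩
    · have h4 : k + (j + n) * D = k + n * D + j * D := by ring
      rwa [h4]
    · rw [← h6, ← mul_assoc, ← pow_add]
  have hdowns : ∀ n,
      (∀ k, M ≤ k → ∀ F ∈ V ^ (k + 1), ∃ F' ∈ V ^ (k + (j + n) * D), G ^ (j + n) * F = L * F') →
      ∀ k, M ≤ k → ∀ F ∈ V ^ (k + 1), ∃ F' ∈ V ^ (k + j * D), G ^ j * F = L * F' := by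
    intro n
    induction n with
    | zero => exact fun h => h
    | succ n ih => exact fun h => ih (hdown (j + n) (by omega) h)
  have hj' : ∀ k, M ≤ k → ∀ F ∈ V ^ (k + 1), ∃ F' ∈ V ^ (k + j * D), G ^ j * F = L * F' := by
    refine hdowns N ?_
    have := hups N j (fun k _ F hF => hN k F hF)
    rwa [add_comm N j] at this
  obtain ⟨n, rfl⟩ := Nat.exists_eq_add_of_le hj
  exact hups j n hj'

end Pool.Agent.KST
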