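import Mathlib

/-!
# KST BZB: few divisors of a power in a pencil

`grow_pencil`: let `U ≤ V ^ k`, `U ≠ ⊥`. Multiplication by `lb` is injective on `U` (`hdom`). If
`finrank (la U + lb U) ≤ finrank U` then `la U ≤ lb U`, so there is a linear map `φ : U → U` with
`la u = lb φ(u)` (choose on a basis / use the equivalence `U ≃ lb U`); `E` is algebraically closed, so `φ`
has an eigenvector `φ(u) = c u`, `u ≠ 0`, and `(la - c lb) u = 0`, so `la = c lb` by `hdom`:
contradiction. (The product `span {la, lb} * U` is `la U + lb U`.)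

`few_s`: let `S = {s_1, ..., s_M}`, `M ≥ 1`, `L_j = la - s_j • lb`, `Π = ∏_j L_j ∈ V ^ M`, and `k` so large that
the hypothesis holds for all `s ∈ S`. `B_M := span {la, lb} ^ (M - 1)` is spanned by the products
`Π_j = ∏_{i ≠ j} L_i` (`part_frac`: by induction on the finset: for `s ≠ s'`, `la` and `lb` are linear
combinations of `L_s` and `L_{s'}`; or for `M = 1` it is clear, and
`span {la, lb} ^ M = span {la, lb} * span {la, lb} ^ (M - 1)`: `L_s * Π_j` for a new `s` is one of the
products for `insert s S` (with the index `j`), and `la`, `lb` are combinations of `L_s` and of `L_j` for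
`j` fixed: `L_j Π_j = Π_S`, the product with the index `s`). So for
`F ∈ V ^ (k + 1)`: `G ^ e * (Π_j F) = Π_j L_j F' = Π F'` with `F' ∈ V ^ (k + e D)`. Hence
`G ^ e * (B_M * V ^ (k + 1)) ⊆ Π * V ^ (k + e D)`, and multiplication by `G ^ e` and by `Π` is injective:
`finrank (B_M * V ^ (k + 1)) ≤ h (k + e D)`, `h k = finrank (V ^ k)`. By `grow_pencil` (`M - 1` times)
`h (k + 1) + M - 1 ≤ h (k + e D)` for all large `k`. If `e D = 0` then `h k ≤ h (k + 1)` (multiplication by
`lb`) gives `M ≤ 1`. If `q = e D - 1 ≥ 0`: `h (k₁ + 1 + i q) ≥ i (M - 1)` for all `i` by induction, and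
`h (k₁ + 1 + i q) ≤ e (k₁ + 1 + i q) + 1`, so `M - 1 ≤ e q` (let `i` be large), `M ≤ e (e D) + 1`.
-/

namespace Pool.Agent.KST

section Bzb

variable {E 𝒜 : Type*} [Field E] [CommRing 𝒜] [Algebra E 𝒜]

theorem bzb_finrank_mul (V : Submodule E 𝒜)
    (hdom : ∀ (i j : ℕ) (F G : 𝒜), F ∈ V ^ i → G ∈ V ^ j → F * G = 0 → F = 0 ∨ G = 0)
    {i j : ℕ} {x : 𝒜} (hx : x ∈ V ^ i) (hx0 : x ≠ 0) (U : Submodule E 𝒜) (hU : U ≤ V ^ j) :
    Module.finrank E (U.map (LinearMap.mulLeft E x)) = Module.finrank E U := by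
  rw [← LinearMap.range_domRestrict]
  refine LinearMap.finrank_range_of_inj ?_
  rw [injective_iff_map_eq_zero]
  rintro ⟨u, hu⟩ h
  rw [LinearMap.domRestrict_apply, LinearMap.mulLeft_apply] at h
  rcases hdom i j x u hx (hU hu) h with h | h
  · exact absurd h hx0
  · exact Subtype.ext h

theorem bzb_fg_of_le (V : Submodule E 𝒜) (hV : V.FG) {j : ℕ} (U : Submodule E 𝒜)
    (hU : U ≤ V ^ j) : Module.Finite E U := by
  have h1 : (V ^ j).FG := Submodule.FG.pow hV j
  have : Module.Finite E (V ^ j : Submodule E 𝒜) := Module.Finite.iff_fg.mpr h1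
  exact Submodule.finiteDimensional_of_le hU

theorem bzb_pencil_le (V : Submodule E 𝒜) {la lb : 𝒜} (hla : la ∈ V) (hlb : lb ∈ V) :
    Submodule.span E {la, lb} ≤ V := by
  rw [Submodule.span_le]
  rintro x (rfl | rfl)
  · exact hla
  · exact hlb

/-- The products of all but one of the `la - s • lb` span the forms of degree `card S - 1`. -/
theorem bzb_part_frac (la lb : 𝒜) (S : Finset E) [DecidableEq E] (hS : S.Nonempty) :
    Submodule.span E {la, lb} ^ (S.card - 1) ≤
      Submodule.span E ((fun j => ∏ i ∈ S.erase j, (la - i • lb)) '' (S : Set E)) := by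
  induction hS using Finset.Nonempty.cons_induction with
  | singleton a =>
    rw [Finset.card_singleton, Nat.sub_self, pow_zero, Submodule.one_le]
    refine Submodule.subset_span ⟨a, by simp, ?_⟩
    simp
  | cons s S hs hne ih =>
    have hcard : (Finset.cons s S hs).card - 1 = (S.card - 1) + 1 := by
      rw [Finset.card_cons]
      have := hne.card_pos
      omega
    rw [hcard, pow_succ]
    refine (mul_le_mul' ih le_rfl).trans ?_
    rw [Submodule.span_mul_span, Submodule.span_le]
    set M := Submodule.span E ((fun j => ∏ i ∈ (Finset.cons s S hs).erase j, (la - i • lb)) ''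
      ((Finset.cons s S hs : Finset E) : Set E)) with hM
    rintro _ ⟨_, ⟨j, hj, rfl⟩, y, hy, rfl⟩
    have hjs : j ≠ s := fun h => hs (h ▸ hj)
    have h1 : (∏ i ∈ S.erase j, (la - i • lb)) * (la - s • lb) ∈ M := by
      refine Submodule.subset_span ⟨j, by
        rw [Finset.mem_coe]
        exact Finset.mem_cons_of_mem hj, ?_⟩
      have e : (Finset.cons s S hs).erase j = Finset.cons s (S.erase j)
          (fun h => hs (Finset.mem_of_mem_erase h)) := by
        rw [Finset.cons_eq_insert, Finset.cons_eq_insert, Finset.erase_insert_of_ne hjs.symm]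
      change ∏ i ∈ (Finset.cons s S hs).erase j, (la - i • lb) = _
      rw [e, Finset.prod_cons, mul_comm]
    have h2 : (∏ i ∈ S.erase j, (la - i • lb)) * (la - j • lb) ∈ M := by
      refine Submodule.subset_span ⟨s, by
        rw [Finset.mem_coe]
        exact Finset.mem_cons_self s S, ?_⟩
      have e : (Finset.cons s S hs).erase s = S := by
        rw [Finset.cons_eq_insert, Finset.erase_insert hs]
      change ∏ i ∈ (Finset.cons s S hs).erase s, (la - i • lb) = _
      rw [e, Finset.prod_erase_mul S _ hj]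
    have hlb : (∏ i ∈ S.erase j, (la - i • lb)) * lb ∈ M := by
      have h3 := M.smul_mem (j - s)⁻¹ (M.sub_mem h1 h2)
      have e : (j - s)⁻¹ • ((∏ i ∈ S.erase j, (la - i • lb)) * (la - s • lb) -
          (∏ i ∈ S.erase j, (la - i • lb)) * (la - j • lb)) =
          (∏ i ∈ S.erase j, (la - i • lb)) * lb := by
        rw [← mul_sub, sub_sub_sub_cancel_left, ← sub_smul, mul_smul_comm, smul_smul,
          inv_mul_cancel₀ (sub_ne_zero.mpr hjs), one_smul]
      rwa [e] at h3
    have hla : (∏ i ∈ S.erase j, (la - i • lb)) * la ∈ M := by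
      have h3 := M.add_mem h1 (M.smul_mem s hlb)
      have e : (∏ i ∈ S.erase j, (la - i • lb)) * (la - s • lb) +
          s • ((∏ i ∈ S.erase j, (la - i • lb)) * lb) =
          (∏ i ∈ S.erase j, (la - i • lb)) * la := by
        rw [← mul_smul_comm, ← mul_add, sub_add_cancel]
      rwa [e] at h3
    rcases hy with rfl | rfl
    · exact hla
    · exact hlb

end Bzb

theorem grow_pencil {E 𝒜 : Type*} [Field E] [IsAlgClosed E] [CommRing 𝒜] [Algebra E 𝒜]
    (V : Submodule E 𝒜) (hV : V.FG)
    (hdom : ∀ (i j : ℕ) (F G : 𝒜), F ∈ V ^ i → G ∈ V ^ j → F * G = 0 → F = 0 ∨ G = 0)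
    (la lb : 𝒜) (hla : la ∈ V) (hlb : lb ∈ V) (hb0 : lb ≠ 0) (hab : ∀ c : E, la ≠ c • lb)
    (k : ℕ) (U : Submodule E 𝒜) (hU : U ≤ V ^ k) (hU0 : U ≠ ⊥) :
    Module.finrank E U + 1 ≤ Module.finrank E (Submodule.span E {la, lb} * U : Submodule E 𝒜) := by
  by_contra hcon
  have hle : Module.finrank E (Submodule.span E {la, lb} * U : Submodule E 𝒜) ≤
      Module.finrank E U := by omega
  have hlb1 : lb ∈ V ^ 1 := by rwa [pow_one]
  have hla1 : la ∈ V ^ 1 := by rwa [pow_one]
  have hWle : Submodule.span E {la, lb} * U ≤ V ^ (1 + k) := by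
    rw [pow_add, pow_one]
    exact mul_le_mul' (bzb_pencil_le V hla hlb) hU
  have hfW := bzb_fg_of_le V hV _ hWle
  have hfU := bzb_fg_of_le V hV _ hU
  have hbU : U.map (LinearMap.mulLeft E lb) ≤ Submodule.span E {la, lb} * U := by
    rw [Submodule.map_le_iff_le_comap]
    intro u hu
    exact Submodule.mul_mem_mul (Submodule.subset_span (by simp)) hu
  have haU : ∀ u ∈ U, la * u ∈ Submodule.span E {la, lb} * U := fun u hu =>
    Submodule.mul_mem_mul (Submodule.subset_span (by simp)) hu
  have heq := Submodule.eq_of_le_of_finrank_le hbU (by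
    rw [bzb_finrank_mul V hdom hlb1 hb0 U hU]
    exact hle)
  rw [← heq] at haU
  have hinj : Function.Injective ((LinearMap.mulLeft E lb).domRestrict U) := by
    rw [injective_iff_map_eq_zero]
    rintro ⟨u, hu⟩ h
    rw [LinearMap.domRestrict_apply, LinearMap.mulLeft_apply] at h
    rcases hdom 1 k lb u hlb1 (hU hu) h with h | h
    · exact absurd h hb0
    · exact Subtype.ext h
  have hex : ∀ u : U, (LinearMap.mulLeft E la).domRestrict U u ∈
      LinearMap.range ((LinearMap.mulLeft E lb).domRestrict U) := by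
    intro u
    rw [LinearMap.range_domRestrict]
    exact haU u u.2
  set φ : Module.End E U := (LinearEquiv.ofInjective _ hinj).symm.toLinearMap ∘ₗ
    (((LinearMap.mulLeft E la).domRestrict U).codRestrict _ hex) with hφ
  have hφ' : ∀ u : U, lb * (φ u : 𝒜) = la * (u : 𝒜) := by
    intro u
    have h1 := congrArg Subtype.val
      ((LinearEquiv.ofInjective _ hinj).apply_symm_apply
        (((LinearMap.mulLeft E la).domRestrict U).codRestrict _ hex u))
    exact h1
  have hnt : Nontrivial U := Submodule.nontrivial_iff_ne_bot.mpr hU0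
  obtain ⟨c, hc⟩ := Module.End.exists_eigenvalue φ
  obtain ⟨u, hu⟩ := hc.exists_hasEigenvector
  have h1 : (la - c • lb) * (u : 𝒜) = 0 := by
    rw [sub_mul, ← hφ' u, hu.apply_eq_smul, SetLike.val_smul, mul_smul_comm, smul_mul_assoc,
      sub_self]
  rcases hdom 1 k _ _ (by
    rw [pow_one]
    exact V.sub_mem hla (V.smul_mem c hlb)) (hU u.2) h1 with h2 | h2
  · exact hab c (sub_eq_zero.mp h2)
  · exact hu.2 (Subtype.ext h2)

theorem few_s {E 𝒜 : Type*} [Field E] [IsAlgClosed E] [CommRing 𝒜] [Algebra E 𝒜]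
    (V : Submodule E 𝒜) (hV : V.FG)
    (hdom : ∀ (i j : ℕ) (F G : 𝒜), F ∈ V ^ i → G ∈ V ^ j → F * G = 0 → F = 0 ∨ G = 0) (e : ℕ)
    (he : ∀ k, Module.finrank E (V ^ k : Submodule E 𝒜) ≤ e * k + 1)
    (la lb : 𝒜) (hla : la ∈ V) (hlb : lb ∈ V) (hb0 : lb ≠ 0) (hab : ∀ c : E, la ≠ c • lb)
    (D : ℕ) (G : 𝒜) (hG : G ∈ V ^ D) (hG0 : G ≠ 0) (S : Finset E)
    (hS : ∀ s ∈ S, ∃ k₁, ∀ k, k₁ ≤ k → ∀ F ∈ V ^ (k + 1), ∃ F' ∈ V ^ (k + e * D),
      G ^ e * F = (la - s • lb) * F') : S.card ≤ e * (e * D) + 1 := by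
  classical
  rcases S.eq_empty_or_nonempty with rfl | hne
  · simp
  -- a common bound
  choose! k₁ hk₁ using hS
  obtain ⟨K, hK⟩ : ∃ K, ∀ s ∈ S, k₁ s ≤ K := ⟨S.sup k₁, fun s hs => Finset.le_sup hs⟩
  have hLne : ∀ s : E, la - s • lb ≠ 0 := fun s h => hab s (sub_eq_zero.mp h)
  have hLV : ∀ s : E, la - s • lb ∈ V := fun s => V.sub_mem hla (V.smul_mem s hlb)
  have hone : (1 : 𝒜) ∈ V ^ 0 := by
    rw [pow_zero]
    exact Submodule.one_le.mp le_rfl
  have h10 : (1 : 𝒜) ≠ 0 := by
    intro h
    exact hb0 (by rw [← one_mul lb, h, zero_mul])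
  -- the products
  have hprod : ∀ T : Finset E, ∏ s ∈ T, (la - s • lb) ∈ V ^ T.card ∧
      ∏ s ∈ T, (la - s • lb) ≠ 0 := by
    intro T
    induction T using Finset.induction_on with
    | empty =>
      rw [Finset.prod_empty, Finset.card_empty]
      exact ⟨hone, h10⟩
    | insert s T hs ih =>
      rw [Finset.prod_insert hs, Finset.card_insert_of_notMem hs, pow_succ']
      refine ⟨Submodule.mul_mem_mul (hLV s) ih.1, fun h => ?_⟩
      rcases hdom 1 T.card _ _ (by
        rw [pow_one]
        exact hLV s) ih.1 h with h | h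
      · exact hLne s h
      · exact ih.2 h
  have hpow : ∀ n : ℕ, ∀ x : 𝒜, ∀ d : ℕ, x ∈ V ^ d → x ≠ 0 → x ^ n ∈ V ^ (d * n) ∧ x ^ n ≠ 0 := by
    intro n x d hx hx0
    induction n with
    | zero =>
      rw [pow_zero, Nat.mul_zero]
      exact ⟨hone, h10⟩
    | succ n ih =>
      rw [pow_succ, Nat.mul_succ, pow_add]
      refine ⟨Submodule.mul_mem_mul ih.1 hx, fun h => ?_⟩
      rcases hdom _ _ _ _ ih.1 hx h with h | h
      · exact ih.2 h
      · exact hx0 h
  obtain ⟨hGe, hGe0⟩ := hpow e G D hG hG0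
  obtain ⟨hPi, hPi0⟩ := hprod S
  -- growth
  have hgrow : ∀ (n k : ℕ), Module.finrank E (V ^ k : Submodule E 𝒜) + n ≤
      Module.finrank E (Submodule.span E {la, lb} ^ n * V ^ k : Submodule E 𝒜) ∧
      Submodule.span E {la, lb} ^ n * V ^ k ≤ V ^ (n + k) ∧
      Submodule.span E {la, lb} ^ n * V ^ k ≠ ⊥ := by
    intro n k
    induction n with
    | zero =>
      rw [pow_zero, one_mul, zero_add]
      refine ⟨le_rfl, le_rfl, ?_⟩
      rw [Submodule.ne_bot_iff]
      have := hpow k lb 1 (by rwa [pow_one]) hb0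
      rw [one_mul] at this
      exact ⟨lb ^ k, this.1, this.2⟩
    | succ n ih =>
      obtain ⟨ih1, ih2, ih3⟩ := ih
      have e1 : Submodule.span E {la, lb} ^ (n + 1) * V ^ k =
          Submodule.span E {la, lb} * (Submodule.span E {la, lb} ^ n * V ^ k) := by
        rw [pow_succ', mul_assoc]
      rw [e1]
      have h := grow_pencil V hV hdom la lb hla hlb hb0 hab (n + k)
        (Submodule.span E {la, lb} ^ n * V ^ k) ih2 ih3
      refine ⟨by omega, ?_, fun h0 => ?_⟩
      · have e2 : n + 1 + k = 1 + (n + k) := by omega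
        rw [e2, pow_add, pow_one]
        exact mul_le_mul' (bzb_pencil_le V hla hlb) ih2
      · rw [h0, finrank_bot] at h
        omega
  -- the main inequality
  have hmain : ∀ k, K ≤ k → Module.finrank E (V ^ (k + 1) : Submodule E 𝒜) + (S.card - 1) ≤
      Module.finrank E (V ^ (k + e * D) : Submodule E 𝒜) := by
    intro k hk
    refine (hgrow (S.card - 1) (k + 1)).1.trans ?_
    have hB := (hgrow (S.card - 1) (k + 1)).2.1
    rw [← bzb_finrank_mul V hdom hGe hGe0 _ hB,
      ← bzb_finrank_mul V hdom hPi hPi0 (V ^ (k + e * D)) le_rfl]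
    have hfin : Module.Finite E ((V ^ (k + e * D)).map
        (LinearMap.mulLeft E (∏ s ∈ S, (la - s • lb)))) := by
      have h1 : (V ^ (k + e * D)).FG := Submodule.FG.pow hV _
      exact Module.Finite.iff_fg.mpr (h1.map _)
    refine Submodule.finrank_mono ?_
    rw [Submodule.map_le_iff_le_comap]
    refine (mul_le_mul' (bzb_part_frac la lb S hne) le_rfl).trans ?_
    rw [Submodule.mul_le]
    intro m hm F hF
    rw [Submodule.mem_comap, LinearMap.mulLeft_apply]
    refine Submodule.span_induction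
      (p := fun m _ => G ^ e * (m * F) ∈ (V ^ (k + e * D)).map
        (LinearMap.mulLeft E (∏ s ∈ S, (la - s • lb)))) ?_ ?_ ?_ ?_ hm
    · rintro _ ⟨j, hj, rfl⟩
      obtain ⟨F', hF', h⟩ := hk₁ j hj k ((hK j hj).trans hk) F hF
      refine ⟨F', hF', ?_⟩
      change (∏ s ∈ S, (la - s • lb)) * F' = G ^ e * ((∏ i ∈ S.erase j, (la - i • lb)) * F)
      rw [mul_left_comm, h, ← mul_assoc, Finset.prod_erase_mul S _ hj]
    · rw [zero_mul, mul_zero]
      exact Submodule.zero_mem _
    · intro x y _ _ hx hy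
      rw [add_mul, mul_add]
      exact Submodule.add_mem _ hx hy
    · intro a x _ hx
      rw [smul_mul_assoc, mul_smul_comm]
      exact Submodule.smul_mem _ a hx
  have hcard := hne.card_pos
  rcases Nat.eq_zero_or_pos (e * D) with h0 | hpos
  · -- the degenerate case
    have h1 := hmain K le_rfl
    rw [h0, add_zero] at h1
    have h2 : Module.finrank E (V ^ K : Submodule E 𝒜) ≤
        Module.finrank E (V ^ (K + 1) : Submodule E 𝒜) := by
      rw [← bzb_finrank_mul V hdom (i := 1) (x := lb) (by rwa [pow_one]) hb0 (V ^ K) le_rfl]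
      have h3 : (V ^ (K + 1)).FG := Submodule.FG.pow hV _
      have : Module.Finite E (V ^ (K + 1) : Submodule E 𝒜) := Module.Finite.iff_fg.mpr h3
      refine Submodule.finrank_mono ?_
      rw [Submodule.map_le_iff_le_comap]
      intro x hx
      rw [Submodule.mem_comap, LinearMap.mulLeft_apply, pow_succ']
      exact Submodule.mul_mem_mul hlb hx
    omega
  · obtain ⟨q, hq⟩ : ∃ q, e * D = q + 1 := ⟨e * D - 1, by omega⟩
    have hind : ∀ i : ℕ, i * (S.card - 1) ≤
        Module.finrank E (V ^ (K + 1 + i * q) : Submodule E 𝒜) := by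
      intro i
      induction i with
      | zero => simp
      | succ i ih =>
        have h1 := hmain (K + i * q) (by omega)
        have e1 : K + i * q + e * D = K + 1 + (i + 1) * q := by
          rw [hq]
          ring
        have e2 : K + i * q + 1 = K + 1 + i * q := by ring
        rw [e1, e2] at h1
        have e3 : (i + 1) * (S.card - 1) = i * (S.card - 1) + (S.card - 1) := by ring
        omega
    have hfinal : S.card - 1 ≤ e * q := by
      by_contra hcon
      have h1 := (hind (e * (K + 1) + 2)).trans (he _)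
      have h2 : (e * (K + 1) + 2) * (e * q + 1) ≤ (e * (K + 1) + 2) * (S.card - 1) :=
        Nat.mul_le_mul_left _ (by omega)
      have h3 := h2.trans h1
      have e4 : (e * (K + 1) + 2) * (e * q + 1) =
          e * (K + 1 + (e * (K + 1) + 2) * q) + 1 + 1 := by ring
      rw [e4] at h3
      omega
    rw [hq]
    have : e * (q + 1) = e * q + e := by ring
    omega

end Pool.Agent.KST
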