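import Pool.Agent.LLC.Deg1

/-!
# KST: definitions

Automorphisms of threefolds.
-/

open MvPolynomial Filter Topology
open scoped LinearAlgebra.Projectivization

namespace Pool.Agent.KST

open Pool.Agent.Helper90.KSC Pool.Agent.Helper63.SAND Pool.Agent.Helper63.WH

/-! ### Products of finite dimensional subspaces -/

section Alg

variable {E 𝒜 B : Type*} [Field E] [CommRing 𝒜] [Algebra E 𝒜] [Fintype B]

/-- The space spanned by the products of `c b` elements of the space `L b`, for all `b`. -/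
noncomputable def Rm (L : B → Submodule E 𝒜) (c : B → ℕ) : Submodule E 𝒜 := ∏ b, L b ^ c b

/-- The multigraded Hilbert function. -/
noncomputable def hm (L : B → Submodule E 𝒜) (c : B → ℕ) : ℤ := Module.finrank E (Rm L c)

/-- The spaces `L b` are finite dimensional, not zero, and there are no zero divisors among the
elements of the products. -/
structure Irm (L : B → Submodule E 𝒜) : Prop where
  fg : ∀ b, (L b).FG
  ne : ∀ b, L b ≠ ⊥
  mul : ∀ (c c' : B → ℕ) (F G : 𝒜), F ∈ Rm L c → G ∈ Rm L c' → F * G = 0 → F = 0 ∨ G = 0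

/-- `P'` is not a zero divisor modulo `P` in large degrees; `P`, `P'` have degree `h₀`. -/
def NZ (L : B → Submodule E 𝒜) (h₀ : B → ℕ) (P P' : 𝒜) (c₁ : B → ℕ) : Prop :=
  h₀ ≤ c₁ ∧ ∀ c, c₁ ≤ c → ∀ F ∈ Rm L c, (∃ G ∈ Rm L c, P' * F = P * G) →
    ∃ G ∈ Rm L (c - h₀), F = P * G

/-- The `t`-th power of the pencil spanned by `P`, `P'`, times the space of degree `c`. -/
noncomputable def Wt (L : B → Submodule E 𝒜) (P P' : 𝒜) (t : ℕ) (c : B → ℕ) : Submodule E 𝒜 :=
  Submodule.span E {P, P'} ^ t * Rm L c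

end Alg

/-! ### Eventually polynomial functions -/

section Ev

variable {B : Type*}

/-- The difference in the direction `a`. -/
def Dl (a : B → ℕ) (h : (B → ℕ) → ℤ) : (B → ℕ) → ℤ := fun c => h (c + a) - h c

/-- `h` is, for large arguments, a polynomial of degree less than `d`: all the differences of order
`d` are eventually zero. -/
def EvP [DecidableEq B] : ℕ → ((B → ℕ) → ℤ) → Prop
  | 0, h => ∃ c₀ : B → ℕ, ∀ c, c₀ ≤ c → h c = 0
  | d + 1, h => ∀ b, EvP d (Dl (Pi.single b 1) h)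

/-- The trilinear form with the coefficients `t`. -/
def Tri [Fintype B] (t : B → B → B → ℝ) (u v w : B → ℝ) : ℝ :=
  ∑ i, ∑ j, ∑ k, t i j k * u i * v j * w k

/-- The real vector with the coordinates `c`. -/
abbrev rv (c : B → ℕ) : B → ℝ := fun b => (c b : ℝ)

/-- The leading term of `h` is `t / 6`, a symmetric trilinear form. -/
structure Cub [Fintype B] (h : (B → ℕ) → ℤ) (t : B → B → B → ℝ) : Prop where
  s₁ : ∀ i j k, t i j k = t j i k
  s₂ : ∀ i j k, t i j k = t i k j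
  c₁ : ∃ (C : ℝ) (c₀ : B → ℕ), ∀ c, c₀ ≤ c →
    |6 * (h c : ℝ) - Tri t (rv c) (rv c) (rv c)| ≤ C * (1 + ∑ b, (c b : ℝ)) ^ 2
  c₂ : ∀ a : B → ℕ, ∃ (C : ℝ) (c₀ : B → ℕ), ∀ c, c₀ ≤ c →
    |2 * ((Dl a h c : ℤ) : ℝ) - Tri t (rv c) (rv c) (rv a)| ≤ C * (1 + ∑ b, (c b : ℝ))
  c₃ : ∀ a a' : B → ℕ, ∃ (C : ℝ) (c₀ : B → ℕ), ∀ c, c₀ ≤ c →
    |((Dl a' (Dl a h) c : ℤ) : ℝ) - Tri t (rv c) (rv a) (rv a')| ≤ C

end Ev

/-! ### The graph rings -/

section Graph

variable {E ι : Type*} [Field E] {N : ι → ℕ}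

/-- The coordinates of the iterates of the points of `Y`, as functions on `Y`. -/
noncomputable def cf (Y : Set (PPt E N)) (f : PPt E N → PPt E N) (n : ℕ) (b : Fin (n + 1) × ι)
    (k : Fin (N b.2 + 1)) : Y → E := fun y => ((f^[b.1] (y : PPt E N)) b.2).rep k

/-- The spaces spanned by the coordinates of the iterates. -/
noncomputable def Lf (Y : Set (PPt E N)) (f : PPt E N → PPt E N) (n : ℕ)
    (b : Fin (n + 1) × ι) : Submodule E (Y → E) := Submodule.span E (Set.range (cf Y f n b))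

/-- The degree `v` in the block `j`. -/
def bk {n : ℕ} [DecidableEq ι] (j : Fin (n + 1)) (v : ι → ℕ) : Fin (n + 1) × ι → ℕ :=
  fun b => if b.1 = j then v b.2 else 0

/-- The class of the degree `c`: the sum of the pull backs of the classes of the blocks. -/
def cls [Fintype ι] [DecidableEq ι] (A : Matrix ι ι ℤ) {n : ℕ} (c : Fin (n + 1) × ι → ℝ) :
    ι → ℝ :=
  fun i => ∑ b : Fin (n + 1) × ι, c b * (((A ^ (b.1 : ℕ)) b.2 i : ℤ) : ℝ)

/-- The pull back of the trilinear form `t` to the degrees. -/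
def pt [Fintype ι] [DecidableEq ι] (A : Matrix ι ι ℤ) (t : ι → ι → ι → ℝ) (n : ℕ)
    (b b' b'' : Fin (n + 1) × ι) : ℝ :=
  Tri t (cls A (Pi.single b 1)) (cls A (Pi.single b' 1)) (cls A (Pi.single b'' 1))

/-- The class of the pull back of `O(1, ..., 1)` by the `k`-th iterate. -/
def om [Fintype ι] [DecidableEq ι] (A : Matrix ι ι ℤ) (k : ℕ) : ι → ℝ :=
  fun i => ∑ j, (((A ^ k) j i : ℤ) : ℝ)

end Graph

end Pool.Agent.KST
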