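import Pool.Agent.KST.Ev

/-!
# KST: definitions, multigraded polynomial rings
-/

open MvPolynomial

namespace Pool.Agent.KST

variable {E B : Type*} [Field E] [DecidableEq B] {V : B → Type*}

/-- The multidegrees of the variables. -/
def wgt (s : Σ b, V b) : B → ℕ := Pi.single s.1 1

/-- The multihomogeneous polynomials of multidegree `c`. -/
noncomputable def Sc (E : Type*) [Field E] (V : B → Type*) (c : B → ℕ) :
    Submodule E (MvPolynomial (Σ b, V b) E) := weightedHomogeneousSubmodule E wgt c

/-- Multihomogeneous ideals. -/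
def MH (I : Ideal (MvPolynomial (Σ b, V b) E)) : Prop :=
  ∀ F ∈ I, ∀ c, weightedHomogeneousComponent wgt c F ∈ I

/-- The Hilbert function of the quotient by `I`. -/
noncomputable def hI (I : Ideal (MvPolynomial (Σ b, V b) E)) (c : B → ℕ) : ℤ :=
  Module.finrank E ((Sc E V c).map (Ideal.Quotient.mkₐ E I).toLinearMap)

end Pool.Agent.KST
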