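import Pool.Agent.KST.Defs

/-!
# KST EV: calculus of eventually polynomial functions

`B` is finite, so the bounds `c₀` for the finitely many directions `b` have a common upper bound
(`Finset.univ.sup` or their sum). All the statements are proved by induction on `d`, for all `h`,
using `Dl b (h + h') = Dl b h + Dl b h'`, `Dl b (fun c => h (c + a)) = fun c => Dl b h (c + a)`,
`Dl b (Dl b' h) = Dl b' (Dl b h)`.
`EvP.dl`: induction on `∑ b, a b`: `Dl (a + single b 1) h c = Dl a h c + Dl (single b 1) h (c + a)`.
`EvP.unshift`: for `d = 0` take `c₀ + a`.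
-/

namespace Pool.Agent.KST

variable {B : Type*} [Fintype B] [DecidableEq B] {d : ℕ} {h h' : (B → ℕ) → ℤ}

omit [Fintype B] [DecidableEq B] in
private lemma dl_shift (e a : B → ℕ) (h : (B → ℕ) → ℤ) :
    Dl e (fun c => h (c + a)) = fun c => Dl e h (c + a) := by
  funext c
  unfold Dl
  rw [add_right_comm]

theorem EvP.succ (H : EvP d h) : EvP (d + 1) h := by
  induction d generalizing h with
  | zero =>
    obtain ⟨c₀, hc⟩ := H
    intro b
    refine ⟨c₀, fun c hcc => ?_⟩
    unfold Dl
    rw [hc c hcc, hc (c + Pi.single b 1) (hcc.trans (le_add_of_nonneg_right (zero_le))), sub_zero]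
  | succ d ih =>
    intro b
    exact ih (H b)

theorem EvP.mono {d' : ℕ} (hd : d ≤ d') (H : EvP d h) : EvP d' h := by
  induction d', hd using Nat.le_induction with
  | base => exact H
  | succ d' _ ih => exact ih.succ

theorem EvP.add (H : EvP d h) (H' : EvP d h') : EvP d (fun c => h c + h' c) := by
  induction d generalizing h h' with
  | zero =>
    obtain ⟨c₀, hc⟩ := H
    obtain ⟨c₁, hc'⟩ := H'
    refine ⟨c₀ ⊔ c₁, fun c hcc => ?_⟩
    change h c + h' c = 0
    rw [hc c (le_sup_left.trans hcc), hc' c (le_sup_right.trans hcc), add_zero]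
  | succ d ih =>
    intro b
    have h1 : Dl (Pi.single b 1) (fun c => h c + h' c) =
        fun c => Dl (Pi.single b 1) h c + Dl (Pi.single b 1) h' c := by
      funext c
      unfold Dl
      ring
    rw [h1]
    exact ih (H b) (H' b)

theorem EvP.sub (H : EvP d h) (H' : EvP d h') : EvP d (fun c => h c - h' c) := by
  induction d generalizing h h' with
  | zero =>
    obtain ⟨c₀, hc⟩ := H
    obtain ⟨c₁, hc'⟩ := H'
    refine ⟨c₀ ⊔ c₁, fun c hcc => ?_⟩
    change h c - h' c = 0
    rw [hc c (le_sup_left.trans hcc), hc' c (le_sup_right.trans hcc), sub_zero]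
  | succ d ih =>
    intro b
    have h1 : Dl (Pi.single b 1) (fun c => h c - h' c) =
        fun c => Dl (Pi.single b 1) h c - Dl (Pi.single b 1) h' c := by
      funext c
      unfold Dl
      ring
    rw [h1]
    exact ih (H b) (H' b)

theorem EvP.shift (a : B → ℕ) (H : EvP d h) : EvP d (fun c => h (c + a)) := by
  induction d generalizing h with
  | zero =>
    obtain ⟨c₀, hc⟩ := H
    refine ⟨c₀, fun c hcc => ?_⟩
    exact hc (c + a) (hcc.trans (le_add_of_nonneg_right zero_le))
  | succ d ih =>
    intro b
    rw [dl_shift]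
    exact ih (H b)

theorem EvP.unshift (a : B → ℕ) (H : EvP d (fun c => h (c + a))) : EvP d h := by
  induction d generalizing h with
  | zero =>
    obtain ⟨c₀, hc⟩ := H
    refine ⟨c₀ + a, fun c hcc => ?_⟩
    have h1 : a ≤ c := le_trans (le_add_of_nonneg_left zero_le) hcc
    have h2 : c - a + a = c := tsub_add_cancel_of_le h1
    rw [← h2]
    exact hc (c - a) (le_tsub_of_add_le_right hcc)
  | succ d ih =>
    intro b
    have h1 := H b
    rw [dl_shift] at h1
    exact ih h1

theorem EvP.congr (c₀ : B → ℕ) (hc : ∀ c, c₀ ≤ c → h c = h' c) (H : EvP d h) : EvP d h' := by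
  induction d generalizing h h' with
  | zero =>
    obtain ⟨c₁, hc'⟩ := H
    refine ⟨c₀ ⊔ c₁, fun c hcc => ?_⟩
    rw [← hc c (le_sup_left.trans hcc)]
    exact hc' c (le_sup_right.trans hcc)
  | succ d ih =>
    intro b
    refine ih (h := Dl (Pi.single b 1) h) (fun c hcc => ?_) (H b)
    unfold Dl
    rw [hc c hcc, hc (c + Pi.single b 1) (hcc.trans (le_add_of_nonneg_right zero_le))]

theorem EvP.dl (a : B → ℕ) (H : EvP (d + 1) h) : EvP d (Dl a h) := by
  have key : ∀ n : ℕ, ∀ a : B → ℕ, ∑ b, a b = n → EvP d (Dl a h) := by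
    intro n
    induction n with
    | zero =>
      intro a ha
      have ha0 : a = 0 := by
        funext b
        exact (Finset.sum_eq_zero_iff.1 ha) b (Finset.mem_univ b)
      refine EvP.mono (Nat.zero_le d) ⟨0, fun c _ => ?_⟩
      unfold Dl
      rw [ha0, add_zero, sub_self]
    | succ n ih =>
      intro a ha
      obtain ⟨b, -, hb⟩ : ∃ b ∈ Finset.univ, a b ≠ 0 := by
        by_contra hcon
        push Not at hcon
        rw [Finset.sum_eq_zero hcon] at ha
        omega
      set a' : B → ℕ := a - Pi.single b 1 with ha'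
      have hle : (Pi.single b 1 : B → ℕ) ≤ a := by
        intro b'
        by_cases hbb : b' = b
        · subst hbb
          rw [Pi.single_eq_same]
          exact Nat.one_le_iff_ne_zero.2 hb
        · rw [Pi.single_eq_of_ne hbb]
          exact Nat.zero_le _
      have haa : a' + Pi.single b 1 = a := tsub_add_cancel_of_le hle
      have hsum : ∑ b, a' b = n := by
        have h1 : ∑ b', (a' b' + (Pi.single b 1 : B → ℕ) b') = n + 1 := by
          rw [← ha]
          exact Finset.sum_congr rfl fun b' _ => congrFun haa b'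
        rw [Finset.sum_add_distrib, Finset.sum_pi_single'] at h1
        simpa using h1
      have h1 : Dl a h = fun c => Dl (Pi.single b 1) h (c + a') + Dl a' h c := by
        funext c
        unfold Dl
        rw [← haa, add_assoc]
        ring
      rw [h1]
      exact EvP.add (EvP.shift a' (H b)) (ih a' hsum)
  exact key _ a rfl

theorem EvP.const (k : ℤ) : EvP 1 (fun _ : B → ℕ => k) := by
  intro b
  refine ⟨0, fun c _ => ?_⟩
  unfold Dl
  exact sub_self k

end Pool.Agent.KST
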