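import Pool.Agent.KST.Rmb

/-!
# KST FORMS: the forms in the Segre coordinates of one block

`Rm (Lf Y f n) (bk j (fun _ => k))` is the product over `i` of the `k`-th powers of the span of the
coordinates of the `i`-th factor of `f^[j] y`, that is the `k`-th power of the product over `i` of
these spans, and the product over `i` of the spans of the functions `y ↦ ((f^[j] y) i).rep r` is
spanned by the products `∏ i, ((f^[j] y) i).rep (w i) = seg (f^[j] y) w`, `w : SIx N`
(`Submodule.span_mul_span`, induction over a finset, or `Finset.prod_univ_sum`). The `k`-th power of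
the span of the functions `seg w` is the space of the values of the forms of degree `k`.
-/

open MvPolynomial
open scoped LinearAlgebra.Projectivization

namespace Pool.Agent.KST

open Pool.Agent.Helper90.KSC Pool.Agent.Helper63.SAND

variable {E ι : Type*} [Field E] [Fintype ι] [DecidableEq ι] {N : ι → ℕ}

/-- The Segre coordinates of `f^[j] y`, as functions on `Y`. -/
noncomputable def sg (Y : Set (PPt E N)) (f : PPt E N → PPt E N) (j : ℕ) (w : SIx N) : Y → E :=
  fun y => seg (f^[j] (y : PPt E N)) w

theorem bk_one (Y : Set (PPt E N)) (f : PPt E N → PPt E N) (n : ℕ) (j : Fin (n + 1)) :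
    Rm (Lf Y f n) (bk j (fun _ => 1)) = Submodule.span E (Set.range (sg Y f j)) := by
  have h1 : Rm (Lf Y f n) (bk j (fun _ => 1)) = ∏ i : ι, Lf Y f n (j, i) := by
    unfold Rm
    rw [Fintype.prod_prod_type, Finset.prod_eq_single j]
    · refine Finset.prod_congr rfl fun i _ => ?_
      unfold bk
      rw [if_pos rfl, pow_one]
    · intro b _ hb
      refine Finset.prod_eq_one fun i _ => ?_
      unfold bk
      rw [if_neg hb, pow_zero]
    · intro h
      exact absurd (Finset.mem_univ j) h
  rw [h1]
  unfold Lf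
  rw [Submodule.prod_span]
  congr 1
  ext F
  rw [Set.mem_fintype_prod]
  constructor
  · rintro ⟨g, hg, rfl⟩
    choose w hw using hg
    refine ⟨w, ?_⟩
    funext y
    rw [Finset.prod_apply]
    unfold sg seg
    refine Finset.prod_congr rfl fun i _ => ?_
    rw [← hw i]
    rfl
  · rintro ⟨w, rfl⟩
    refine ⟨fun i => cf Y f n (j, i) (w i), fun i => ⟨w i, rfl⟩, ?_⟩
    funext y
    rw [Finset.prod_apply]
    rfl

theorem forms_block (Y : Set (PPt E N)) (f : PPt E N → PPt E N) (n : ℕ) (j : Fin (n + 1))
    (k : ℕ) (F : Y → E) : F ∈ Rm (Lf Y f n) (bk j (fun _ => k)) ↔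
      ∃ P : MvPolynomial (SIx N) E, P.IsHomogeneous k ∧
        ∀ y : Y, F y = eval (seg (f^[j] (y : PPt E N))) P := by
  have h1 : (bk j (fun _ => k) : Fin (n + 1) × ι → ℕ) = k • bk j (fun _ => 1) := by
    funext b
    unfold bk
    rw [Pi.smul_apply]
    split_ifs
    · simp
    · simp
  obtain ⟨φ, hφ⟩ : ∃ φ : MvPolynomial (SIx N) E →ₐ[E] (Y → E), φ = aeval (sg Y f j) := ⟨_, rfl⟩
  have h2 : Rm (Lf Y f n) (bk j (fun _ => k)) =
      (homogeneousSubmodule (SIx N) E k).map φ.toLinearMap := by
    rw [h1, rm_smul, bk_one, ← homogeneousSubmodule_one_pow, Submodule.map_pow,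
      homogeneousSubmodule_one_eq_span_X, Submodule.map_span, ← Set.range_comp]
    congr 3
    funext w
    rw [Function.comp_apply, AlgHom.toLinearMap_apply, hφ, aeval_X]
  have h3 : ∀ (P : MvPolynomial (SIx N) E) (y : Y),
      φ P y = eval (seg (f^[j] (y : PPt E N))) P := by
    intro P y
    have h4 : ((Pi.evalAlgHom E (fun _ : Y => E) y).comp φ) = aeval (seg (f^[j] (y : PPt E N))) := by
      apply MvPolynomial.algHom_ext
      intro w
      rw [AlgHom.comp_apply, hφ, aeval_X, aeval_X]
      rfl
    have h5 := congrArg (fun ψ : MvPolynomial (SIx N) E →ₐ[E] E => ψ P) h4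
    simp only [AlgHom.comp_apply] at h5
    exact h5
  rw [h2, Submodule.mem_map]
  constructor
  · rintro ⟨P, hP, rfl⟩
    exact ⟨P, (mem_homogeneousSubmodule _ _).1 hP, fun y => h3 P y⟩
  · rintro ⟨P, hP, hF⟩
    refine ⟨P, (mem_homogeneousSubmodule _ _).2 hP, ?_⟩
    funext y
    rw [AlgHom.toLinearMap_apply, h3, hF]

/-- In the block `0` the Hilbert function is the one of `Y`. -/
theorem hm_block_zero (Y : Set (PPt E N)) (f : PPt E N → PPt E N) (n k : ℕ) :
    hm (Lf Y f n) (bk 0 (fun _ => k)) = hil (fun y : Y => seg (y : PPt E N)) k := by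
  have h1 : Rm (Lf Y f n) (bk 0 (fun _ => k)) = formsOn (fun y : Y => seg (y : PPt E N)) k := by
    ext F
    rw [forms_block]
    unfold formsOn
    rw [Submodule.mem_map]
    constructor
    · rintro ⟨P, hP, hF⟩
      refine ⟨P, (mem_homogeneousSubmodule _ _).2 hP, ?_⟩
      funext y
      rw [hF y]
      simp
    · rintro ⟨P, hP, rfl⟩
      refine ⟨P, (mem_homogeneousSubmodule _ _).1 hP, fun y => ?_⟩
      simp
  unfold hm hil
  rw [h1]

end Pool.Agent.KST
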