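import Pool.Agent.KST.Mha

/-!
# KST SAT: forms which are not zero divisors in large degrees

Let `J' = {F | ∃ k : B → ℕ, ∀ G ∈ Sc k, G * F ∈ J}`. It is an ideal (sum: use `k + k'` and
`sc_split`; multiples are clear), it contains `J`, it is multihomogeneous (for `G ∈ Sc k` the product
of `G` and a component of `F` is a component of `G F`).
(a) `J'` is finitely generated; taking components (finitely many, in `J'`) it is generated by
multihomogeneous `g_i ∈ Sc d_i`, with `Sc k_i * g_i ⊆ J`. Let `c₁ ≥ d_i + k_i` for all `i`. If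
`c ≥ c₁` and `F ∈ Sc c ∩ J'` then `F = ∑ a_i g_i` with `a_i ∈ Sc (c - d_i)`, and `c - d_i ≥ k_i`, so
`a_i` is a sum of products of elements of `Sc k_i` and `Sc (c - d_i - k_i)` (`sc_split`): `F ∈ J`.
(b) Let `𝒫` be the finite set of the associated primes of `S / J'` (`associatedPrimes.finite`,
Noetherian). Every `𝔭 ∈ 𝒫` contains `J'`. Suppose that `Sc h₀ ⊆ 𝔭`; `𝔭 = (J' : G)` with `G ∉ J'`. So
`Sc h₀ * G ⊆ J'`. `Sc h₀` is finite dimensional, so there is a common `k` with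
`Sc k * Sc h₀ * G ⊆ J`, i.e. `Sc (k + h₀) * G ⊆ J`, `G ∈ J'`: contradiction.
(c) If `p' ∈ Sc h₀` is in no `𝔭 ∈ 𝒫` it is not a zero divisor on `S / J'`
(`biUnion_associatedPrimes_eq_zero_divisors` or similar). For `c ≥ c₁`, `F ∈ Sc c`, `p' F ∈ J ⊆ J'`
gives `F ∈ J'`, so `F ∈ J` by (a). (If `J' = ⊤`, `𝒫 = ∅`, fine.)
-/

open MvPolynomial

namespace Pool.Agent.KST

variable {E B : Type*} [Field E] [DecidableEq B] [Fintype B] {V : B → Type*} [∀ b, Fintype (V b)]

theorem sat_up (J : Ideal (MvPolynomial (Σ b, V b) E)) (F : MvPolynomial (Σ b, V b) E)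
    {k k' : B → ℕ} (h : ∀ G ∈ Sc E V k, G * F ∈ J) (hk : k ≤ k') :
    ∀ G ∈ Sc E V k', G * F ∈ J := by
  intro G hG
  rw [← add_tsub_cancel_of_le hk, sc_split] at hG
  refine Submodule.mul_induction_on hG ?_ ?_
  · intro m hm n hn
    have := J.mul_mem_left n (h m hm)
    have e : m * n * F = n * (m * F) := by ring
    rwa [e]
  · intro x y hx hy
    rw [add_mul]
    exact J.add_mem hx hy

/-- The elements which are multiplied into `J` by all the forms of some degree. -/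
def satI (J : Ideal (MvPolynomial (Σ b, V b) E)) : Ideal (MvPolynomial (Σ b, V b) E) where
  carrier := {F | ∃ k : B → ℕ, ∀ G ∈ Sc E V k, G * F ∈ J}
  add_mem' := by
    rintro F F' ⟨k, hk⟩ ⟨k', hk'⟩
    refine ⟨k + k', fun G hG => ?_⟩
    rw [mul_add]
    exact J.add_mem (sat_up J F hk (le_self_add) G hG) (sat_up J F' hk' (le_add_self) G hG)
  zero_mem' := ⟨0, fun G _ => by
    rw [mul_zero]
    exact J.zero_mem⟩
  smul_mem' := by
    rintro c F ⟨k, hk⟩
    refine ⟨k, fun G hG => ?_⟩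
    rw [smul_eq_mul, mul_left_comm]
    exact J.mul_mem_left c (hk G hG)

theorem mem_satI (J : Ideal (MvPolynomial (Σ b, V b) E)) (F : MvPolynomial (Σ b, V b) E) :
    F ∈ satI J ↔ ∃ k : B → ℕ, ∀ G ∈ Sc E V k, G * F ∈ J := Iff.rfl

theorem le_satI (J : Ideal (MvPolynomial (Σ b, V b) E)) : J ≤ satI J :=
  fun _ hF => ⟨0, fun G _ => J.mul_mem_left G hF⟩

theorem mh_satI {J : Ideal (MvPolynomial (Σ b, V b) E)} (hJ : MH J) : MH (satI J) := by
  rintro F ⟨k, hk⟩ c
  refine ⟨k, fun G hG => ?_⟩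
  have h := mh_colon hJ G hG F (by
    rw [Ideal.mem_colon_span_singleton, mul_comm]
    exact hk G hG) c
  rw [Ideal.mem_colon_span_singleton, mul_comm] at h
  exact h

/-- The degree which multiplies into `J` can be chosen uniformly. -/
theorem satI_unif (J : Ideal (MvPolynomial (Σ b, V b) E)) :
    ∃ K : B → ℕ, ∀ F ∈ satI J, ∀ G ∈ Sc E V K, G * F ∈ J := by
  obtain ⟨s, hs⟩ := (isNoetherianRing_iff_ideal_fg _).mp inferInstance (satI J)
  have hs' : ∀ g ∈ s, g ∈ satI J := fun g hg => hs ▸ Ideal.subset_span hg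
  have hex : ∀ g : MvPolynomial (Σ b, V b) E, ∃ k : B → ℕ, g ∈ satI J →
      ∀ G ∈ Sc E V k, G * g ∈ J := by
    intro g
    by_cases hg : g ∈ satI J
    · obtain ⟨k, hk⟩ := (mem_satI J g).mp hg
      exact ⟨k, fun _ => hk⟩
    · exact ⟨0, fun h => absurd h hg⟩
  choose k hk using hex
  refine ⟨∑ g ∈ s, k g, fun F hF => ?_⟩
  rw [← hs] at hF
  refine Submodule.span_induction ?_ ?_ ?_ ?_ hF
  · intro g hg
    exact sat_up J g (hk g (hs' g hg)) (Finset.single_le_sum (fun _ _ => zero_le) hg)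
  · intro G _
    rw [mul_zero]
    exact J.zero_mem
  · intro x y _ _ hx hy G hG
    rw [mul_add]
    exact J.add_mem (hx G hG) (hy G hG)
  · intro a x _ hx G hG
    rw [smul_eq_mul, mul_left_comm]
    exact J.mul_mem_left a (hx G hG)

/-- In large degrees, the forms of the ideal generated by `J` and finitely many forms of `satI J`
are in `J`. -/
theorem satI_bound {J : Ideal (MvPolynomial (Σ b, V b) E)} (hJ : MH J) {K : B → ℕ}
    (hK : ∀ F ∈ satI J, ∀ G ∈ Sc E V K, G * F ∈ J)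
    (d : MvPolynomial (Σ b, V b) E → B → ℕ) (D : B → ℕ)
    (T : Finset (MvPolynomial (Σ b, V b) E)) :
    (∀ t ∈ T, t ∈ satI J ∧ t ∈ Sc E V (d t) ∧ d t ≤ D) →
    ∀ c, D + K ≤ c → ∀ F ∈ Sc E V c,
      F ∈ J ⊔ Ideal.span (T : Set (MvPolynomial (Σ b, V b) E)) → F ∈ J := by
  classical
  refine Finset.induction_on T ?_ ?_
  · intro _ c _ F _ h
    simpa using h
  · intro g T hg ih hT c hc F hF h
    have hT' : ∀ t ∈ T, t ∈ satI J ∧ t ∈ Sc E V (d t) ∧ d t ≤ D :=
      fun t ht => hT t (Finset.mem_insert_of_mem ht)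
    obtain ⟨hg1, hg2, hg3⟩ := hT g (Finset.mem_insert_self g T)
    have hdc : d g ≤ c := hg3.trans (le_self_add.trans hc)
    have hcc : (c - d g) + d g = c := tsub_add_cancel_of_le hdc
    have hMT : MH (Ideal.span (T : Set (MvPolynomial (Σ b, V b) E))) := by
      have := mh_span (fun t : T => (t : MvPolynomial (Σ b, V b) E)) (fun t => d t)
        (fun t => (hT' t t.2).2.1)
      rwa [Subtype.range_coe_subtype] at this
    have hI := mh_sup hJ hMT
    rw [Finset.coe_insert, Set.insert_eq, Ideal.span_union, sup_comm (Ideal.span {g}),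
      ← sup_assoc] at h
    obtain ⟨G, hG, hFG⟩ := mh_mem_sup hI g hg2 F (by rwa [hcc]) h
    have hKd : K ≤ c - d g := by
      refine le_tsub_of_add_le_left ?_
      exact (add_le_add_left hg3 K).trans hc
    have hgG : G * g ∈ J := sat_up J g (hK g hg1) hKd G hG
    have hgGc : g * G ∈ Sc E V c := by
      have := sc_mul hG hg2
      rwa [hcc, mul_comm] at this
    have h1 := ih hT' c hc (F - g * G) (Submodule.sub_mem _ hF hgGc) hFG
    have h2 := J.add_mem h1 hgG
    have e : F - g * G + G * g = F := by ring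
    rwa [e] at h2

/-- In large degrees, `J` and `satI J` have the same forms. -/
theorem satI_large {J : Ideal (MvPolynomial (Σ b, V b) E)} (hJ : MH J) :
    ∃ c₁ : B → ℕ, ∀ c, c₁ ≤ c → ∀ F ∈ Sc E V c, F ∈ satI J → F ∈ J := by
  classical
  obtain ⟨K, hK⟩ := satI_unif J
  obtain ⟨s, hs⟩ := (isNoetherianRing_iff_ideal_fg _).mp inferInstance (satI J)
  have hs' : ∀ g ∈ s, g ∈ satI J := fun g hg => hs ▸ Ideal.subset_span hg
  set W : MvPolynomial (Σ b, V b) E → Finset (MvPolynomial (Σ b, V b) E) := fun g =>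
    (weightedHomogeneousComponent_finsupp (w := (wgt : (Σ b, V b) → B → ℕ)) g).toFinset.image
      (fun c => weightedHomogeneousComponent wgt c g) with hW
  set T := s.biUnion W with hT
  have hT1 : ∀ t ∈ T, ∃ c : B → ℕ, t ∈ satI J ∧ t ∈ Sc E V c := by
    intro t ht
    obtain ⟨g, hg, hgt⟩ := Finset.mem_biUnion.mp ht
    obtain ⟨c, _, rfl⟩ := Finset.mem_image.mp hgt
    exact ⟨c, mh_satI hJ g (hs' g hg) c, weightedHomogeneousComponent_mem wgt g c⟩
  have hT2 : ∀ t : MvPolynomial (Σ b, V b) E, ∃ c : B → ℕ, t ∈ T →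
      t ∈ satI J ∧ t ∈ Sc E V c := by
    intro t
    by_cases ht : t ∈ T
    · obtain ⟨c, hc⟩ := hT1 t ht
      exact ⟨c, fun _ => hc⟩
    · exact ⟨0, fun h => absurd h ht⟩
  choose d hd using hT2
  refine ⟨(∑ t ∈ T, d t) + K, fun c hc F hF hFJ => ?_⟩
  refine satI_bound hJ hK d (∑ t ∈ T, d t) T (fun t ht => ⟨(hd t ht).1, (hd t ht).2,
    Finset.single_le_sum (f := d) (fun _ _ => zero_le) ht⟩) c hc F hF ?_
  refine (le_sup_right : Ideal.span (T : Set (MvPolynomial (Σ b, V b) E)) ≤ _) ?_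
  have hle : satI J ≤ Ideal.span (T : Set (MvPolynomial (Σ b, V b) E)) := by
    rw [← hs, Ideal.span_le]
    intro g hg
    have hsum := sum_weightedHomogeneousComponent (wgt : (Σ b, V b) → B → ℕ) g
    rw [finsum_eq_sum _ (weightedHomogeneousComponent_finsupp g)] at hsum
    rw [← hsum]
    refine Ideal.sum_mem _ (fun c hc => Ideal.subset_span ?_)
    rw [Finset.mem_coe, hT]
    exact Finset.mem_biUnion.mpr ⟨g, hg, Finset.mem_image.mpr ⟨c, hc, rfl⟩⟩
  exact hle hFJ

theorem sat (J : Ideal (MvPolynomial (Σ b, V b) E)) (hJ : MH J) (h₀ : B → ℕ) :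
    ∃ (S : Finset (Ideal (MvPolynomial (Σ b, V b) E))) (c₁ : B → ℕ),
      (∀ 𝔭 ∈ S, J ≤ 𝔭 ∧ ¬ ∀ F ∈ Sc E V h₀, F ∈ 𝔭) ∧
      ∀ p' ∈ Sc E V h₀, (∀ 𝔭 ∈ S, p' ∉ 𝔭) → ∀ c, c₁ ≤ c → ∀ F ∈ Sc E V c,
        p' * F ∈ J → F ∈ J := by
  classical
  obtain ⟨K, hK⟩ := satI_unif J
  obtain ⟨c₁, hc₁⟩ := satI_large hJ
  have hfin := associatedPrimes.finite (MvPolynomial (Σ b, V b) E)
    (MvPolynomial (Σ b, V b) E ⧸ satI J)
  refine ⟨hfin.toFinset, c₁, ?_, ?_⟩
  · intro 𝔭 h𝔭
    rw [Set.Finite.mem_toFinset, AssociatedPrimes.mem_iff, isAssociatedPrime_iff] at h𝔭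
    obtain ⟨hprime, x, hx⟩ := h𝔭
    obtain ⟨G, rfl⟩ := Ideal.Quotient.mk_surjective x
    have hmem : ∀ F : MvPolynomial (Σ b, V b) E, F ∈ 𝔭 ↔ F * G ∈ satI J := by
      intro F
      rw [hx, Submodule.mem_colon_singleton, Submodule.mem_bot, ← Ideal.Quotient.eq_zero_iff_mem,
        map_mul]
      rfl
    refine ⟨fun F hF => (hmem F).mpr ?_, fun hall => ?_⟩
    · exact Ideal.mul_mem_right _ _ (le_satI J hF)
    · have hG : G ∈ satI J := by
        refine (mem_satI J G).mpr ⟨K + h₀, fun H hH => ?_⟩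
        rw [sc_split] at hH
        refine Submodule.mul_induction_on hH ?_ ?_
        · intro m hm n hn
          rw [mul_assoc]
          exact hK _ ((hmem n).mp (hall n hn)) m hm
        · intro x y hx hy
          rw [add_mul]
          exact J.add_mem hx hy
      apply hprime.ne_top
      rw [Ideal.eq_top_iff_one, hmem, one_mul]
      exact hG
  · intro p' _ hp' c hc F hF hpF
    refine hc₁ c hc F hF ?_
    by_contra hF0
    have hz : p' ∈ {r : MvPolynomial (Σ b, V b) E |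
        ∃ x : MvPolynomial (Σ b, V b) E ⧸ satI J, x ≠ 0 ∧ r • x = 0} := by
      refine ⟨Ideal.Quotient.mk _ F, ?_, ?_⟩
      · rwa [Ne, Ideal.Quotient.eq_zero_iff_mem]
      · have : Ideal.Quotient.mk (satI J) (p' * F) = 0 :=
          Ideal.Quotient.eq_zero_iff_mem.mpr (le_satI J hpF)
        rw [map_mul] at this
        exact this
    rw [← biUnion_associatedPrimes_eq_zero_divisors] at hz
    obtain ⟨𝔭, h𝔭, hmem⟩ := Set.mem_iUnion₂.mp hz
    exact hp' 𝔭 (hfin.mem_toFinset.mpr h𝔭) hmem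

end Pool.Agent.KST
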