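import Pool.Agent.KST.Pres
import Pool.Agent.KST.Sat

/-!
# KST NZX: existence of pencils without zero divisors

Take `m, φ, I` from `pres`, `p ∈ Sc h₀` with `φ p = P`, `J = I ⊔ (p)` (`mh_sup`, `mh_span` for one
element). `U` is finite dimensional, `(Sc h₀).map φ = Rm L h₀`, so there is a linear
`ψ₀ : U → Sc h₀` with `φ (ψ₀ u) = ψ u` (choose it on a basis). `sat` gives `S`, `c₁'`; the subspaces are
`T 𝔭 = {u | ψ₀ u ∈ 𝔭}` (a submodule over `E`), proper: if `ψ₀ u ∈ 𝔭` for all `u`, then for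
`F ∈ Sc h₀`, `φ F = ψ u = φ (ψ₀ u)` for some `u`, `F - ψ₀ u ∈ I ⊆ 𝔭`, so `F ∈ 𝔭` for all
`F ∈ Sc h₀`, contradiction. `c₁ = c₁' + h₀`. For `c ≥ c₁`, `F ∈ Rm L c`, `P' F = P G`, `G ∈ Rm L c`:
`F = φ F₀`, `G = φ G₀`, `F₀, G₀ ∈ Sc c`, `ψ₀ u F₀ - p G₀ ∈ Sc (c + h₀)` is in `I`, so
`ψ₀ u F₀ ∈ J` and `F₀ ∈ J`; by `mh_mem_sup` (`c = (c - h₀) + h₀`) `F₀ - p G₁ ∈ I` with
`G₁ ∈ Sc (c - h₀)`, so `F = P φ G₁`.
-/

open MvPolynomial

namespace Pool.Agent.KST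

variable {E 𝒜 B : Type*} [Field E] [CommRing 𝒜] [Algebra E 𝒜] [Fintype B] [DecidableEq B]

theorem nzx (L : B → Submodule E 𝒜) (hL : Irm L) (h₀ : B → ℕ) (P : 𝒜) (hP : P ∈ Rm L h₀)
    {U : Type*} [AddCommGroup U] [Module E U] [Module.Finite E U] (ψ : U →ₗ[E] 𝒜)
    (hψ : LinearMap.range ψ = Rm L h₀) :
    ∃ (S : Finset (Submodule E U)) (c₁ : B → ℕ), (∀ T ∈ S, T ≠ ⊤) ∧
      ∀ u, (∀ T ∈ S, u ∉ T) → NZ L h₀ P (ψ u) c₁ := by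
  classical
  obtain ⟨m, φ, I, hI, hmap, hker⟩ := pres L hL.fg
  have hsurj : ∀ c, ∀ F ∈ Rm L c, ∃ F₀ ∈ Sc E (fun b => Fin (m b)) c, φ F₀ = F := by
    intro c F hF
    rw [← hmap c] at hF
    obtain ⟨F₀, hF₀, h⟩ := hF
    exact ⟨F₀, hF₀, h⟩
  have hmem : ∀ c, ∀ F ∈ Sc E (fun b => Fin (m b)) c, φ F ∈ Rm L c := by
    intro c F hF
    rw [← hmap c]
    exact ⟨F, hF, rfl⟩
  obtain ⟨p, hp, hpP⟩ := hsurj h₀ P hP
  have hMp : MH (Ideal.span {p}) := by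
    have := mh_span (fun _ : Unit => p) (fun _ => h₀) (fun _ => hp)
    rwa [Set.range_const] at this
  have hJ := mh_sup hI hMp
  obtain ⟨S', c₁', hS', hc₁'⟩ := sat (I ⊔ Ideal.span {p}) hJ h₀
  obtain ⟨ψ₀, hψ₀⟩ : ∃ ψ₀ : U →ₗ[E] MvPolynomial (Σ b, Fin (m b)) E,
      ∀ u, ψ₀ u ∈ Sc E (fun b => Fin (m b)) h₀ ∧ φ (ψ₀ u) = ψ u := by
    obtain ⟨θ, hθ⟩ := Module.projective_lifting_property
      (φ.toLinearMap.restrict (p := Sc E (fun b => Fin (m b)) h₀) (q := Rm L h₀)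
        (fun F hF => hmem h₀ F hF))
      (ψ.codRestrict (Rm L h₀) (fun u => hψ ▸ ⟨u, rfl⟩))
      (by
        rintro ⟨F, hF⟩
        obtain ⟨F₀, hF₀, h⟩ := hsurj h₀ F hF
        exact ⟨⟨F₀, hF₀⟩, Subtype.ext h⟩)
    refine ⟨(Sc E (fun b => Fin (m b)) h₀).subtype ∘ₗ θ, fun u => ⟨(θ u).2, ?_⟩⟩
    have := congrArg Subtype.val (LinearMap.congr_fun hθ u)
    exact this
  refine ⟨S'.image (fun 𝔭 => (𝔭.restrictScalars E).comap ψ₀), c₁' + h₀, ?_, ?_⟩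
  · intro T hT
    obtain ⟨𝔭, h𝔭, rfl⟩ := Finset.mem_image.mp hT
    obtain ⟨hJ𝔭, hne⟩ := hS' 𝔭 h𝔭
    intro htop
    apply hne
    intro F hF
    have h1 : φ F ∈ LinearMap.range ψ := by
      rw [hψ]
      exact hmem h₀ F hF
    obtain ⟨u, hu⟩ := h1
    have hu' : ψ₀ u ∈ 𝔭 := by
      have : u ∈ (𝔭.restrictScalars E).comap ψ₀ := by
        rw [htop]
        exact Submodule.mem_top
      exact this
    have h2 : F - ψ₀ u ∈ I := (hker h₀ _ (Submodule.sub_mem _ hF (hψ₀ u).1)).mpr (by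
      rw [map_sub, (hψ₀ u).2, hu, sub_self])
    have h3 := 𝔭.add_mem (hJ𝔭 ((le_sup_left : I ≤ I ⊔ Ideal.span {p}) h2)) hu'
    rwa [sub_add_cancel] at h3
  · intro u hu
    refine ⟨le_add_self, ?_⟩
    rintro c hc F hF ⟨G, hG, hFG⟩
    obtain ⟨F₀, hF₀, rfl⟩ := hsurj c F hF
    obtain ⟨G₀, hG₀, rfl⟩ := hsurj c G hG
    have h1 : ψ₀ u * F₀ - p * G₀ ∈ I :=
      (hker (h₀ + c) _ (Submodule.sub_mem _ (sc_mul (hψ₀ u).1 hF₀) (sc_mul hp hG₀))).mpr (by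
        rw [map_sub, map_mul, map_mul, (hψ₀ u).2, hpP, hFG, sub_self])
    have h2 : ψ₀ u * F₀ ∈ I ⊔ Ideal.span {p} := by
      have h := Ideal.add_mem _ ((le_sup_left : I ≤ I ⊔ Ideal.span {p}) h1)
        ((le_sup_right : Ideal.span {p} ≤ I ⊔ Ideal.span {p})
          (Ideal.mul_mem_right G₀ _ (Ideal.mem_span_singleton_self p)))
      rwa [sub_add_cancel] at h
    have h3 := hc₁' (ψ₀ u) (hψ₀ u).1
      (fun 𝔭 h𝔭 hm => hu _ (Finset.mem_image_of_mem _ h𝔭) hm) c (le_self_add.trans hc) F₀ hF₀ h2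
    have hle : h₀ ≤ c := le_add_self.trans hc
    obtain ⟨G₁, hG₁, h4⟩ := mh_mem_sup hI (c := c - h₀) (d := h₀) p hp F₀
      (by rwa [tsub_add_cancel_of_le hle]) h3
    refine ⟨φ G₁, hmem _ G₁ hG₁, ?_⟩
    have hpG : p * G₁ ∈ Sc E (fun b => Fin (m b)) c := by
      have := sc_mul hp hG₁
      rwa [add_tsub_cancel_of_le hle] at this
    have h5 := (hker c _ (Submodule.sub_mem _ hF₀ hpG)).mp h4
    rw [map_sub, map_mul, hpP, sub_eq_zero] at h5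
    exact h5

end Pool.Agent.KST
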