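import Pool.Agent.KST.Trib
import Pool.Agent.KST.Ktb
import Pool.Agent.KST.Nzx

/-!
# KST GEO: positivity of the intersection form

For a block `j` of `Lf X f n` let `h₀ = bk j (fun _ => 1)`, `Rm (Lf X f n) h₀` is spanned by the
functions `sg X f j w`, `w : SIx N` (`bk_one`). `P = sg X f j w` for a `w` for which it is not `0`
(`seg_ne_zero`), `U = SIx N → E`, `ψ u = ∑ w, u w • sg X f j w`; `nzx` and a `u` outside of finitely
many proper subspaces (`E` is infinite, characteristic `0`: `Subspace.exists_eq_top_of_iUnion_eq_univ`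
as in LLC/Kl.lean) give `P'`, `c₁` with `NZ`. So `q_nonneg` and `rkt` apply with this `h₀`; by
`tri_cls`, `cls_bk`, `cls_add`: `Tri (pt A t n) (rv a) (rv b) (rv h₀) =
Tri t (cls A (rv a)) (cls A (rv b)) (om A j)`.
`geo_nonneg`: `n` large enough to contain the three blocks.
`geo_rkt`: `a = ∑ i, bk i (fun _ => α i)`, `b = bk j 1`, `X = sg X f j`, `σ = SIx N`.
-/

open MvPolynomial Filter Topology
open scoped LinearAlgebra.Projectivization

namespace Pool.Agent.KST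

open Pool.Agent.Helper90.KSC Pool.Agent.Helper63.SAND Pool.Agent.PW Pool.Agent.LLC

variable {E ι : Type*} [Field E] [CharZero E] [Fintype ι] [DecidableEq ι] {N : ι → ℕ}

private theorem geo_pencil (X : Set (PPt E N)) (hXi : Irred X) (f : PPt E N → PPt E N)
    (hf : Set.MapsTo f X X) (hlf : LocallyByForms X f) (n : ℕ) (h₀ : Fin (n + 1) × ι → ℕ) :
    ∃ (P P' : X → E) (c₁ : Fin (n + 1) × ι → ℕ), P ∈ Rm (Lf X f n) h₀ ∧
      P' ∈ Rm (Lf X f n) h₀ ∧ P ≠ 0 ∧ NZ (Lf X f n) h₀ P P' c₁ := by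
  have hL : Irm (Lf X f n) := irm_Lf X f hf hlf X (Set.Subset.refl X) hXi n
  haveI : Nonempty X := hXi.1.to_subtype
  obtain ⟨P, hP, hP0⟩ := rm_ne (Lf X f n) hL h₀
  have hfin : Module.Finite E (Rm (Lf X f n) h₀) :=
    Module.Finite.iff_fg.2 (rm_fg (Lf X f n) hL.fg h₀)
  obtain ⟨S, c₁, hS, hnz⟩ := nzx (Lf X f n) hL h₀ P hP (Rm (Lf X f n) h₀).subtype
    (Submodule.range_subtype _)
  have hcov : ⋃ T ∈ S, (T : Set (Rm (Lf X f n) h₀)) ≠ Set.univ := by
    apply Subspace.biUnion_ne_univ_of_top_notMem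
    intro htop
    exact hS _ htop rfl
  obtain ⟨u, hu⟩ := (Set.ne_univ_iff_exists_notMem _).1 hcov
  refine ⟨P, u.1, c₁, hP, u.2, hP0, hnz u fun T hT huT => hu ?_⟩
  exact Set.mem_iUnion₂.2 ⟨T, hT, huT⟩

private theorem geo_q (X : Set (PPt E N)) (hXi : Irred X) (f : PPt E N → PPt E N)
    (hf : Set.MapsTo f X X) (hlf : LocallyByForms X f) (A : Matrix ι ι ℤ)
    (t : ι → ι → ι → ℝ) (hcub : ∀ n, Cub (hm (Lf X f n)) (pt A t n)) (n : ℕ)
    (i j k : Fin (n + 1)) : 0 ≤ Tri t (om A i) (om A j) (om A k) := by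
  have hL : Irm (Lf X f n) := irm_Lf X f hf hlf X (Set.Subset.refl X) hXi n
  obtain ⟨P, P', c₁, hP, hP', hP0, hnz⟩ := geo_pencil X hXi f hf hlf n (bk k (fun _ => 1))
  have h := q_nonneg (Lf X f n) hL (pt A t n) (hcub n) (bk k (fun _ => 1)) P P' hP hP' hP0 c₁ hnz
    (bk i (fun _ => 1)) (bk j (fun _ => 1))
  rwa [tri_cls, cls_bk, cls_bk, cls_bk] at h

private theorem cls_sum' (A : Matrix ι ι ℤ) (n : ℕ) {κ : Type*} (s : Finset κ)
    (r : κ → ℝ) (a : κ → Fin (n + 1) × ι → ℝ) :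
    cls A (∑ x ∈ s, r x • a x) = ∑ x ∈ s, r x • cls A (a x) := by
  classical
  induction s using Finset.induction_on with
  | empty =>
    rw [Finset.sum_empty, Finset.sum_empty]
    have h := cls_smul A n 0 (0 : Fin (n + 1) × ι → ℝ)
    rwa [zero_smul, zero_smul] at h
  | insert x s hx ih =>
    rw [Finset.sum_insert hx, Finset.sum_insert hx, cls_add, cls_smul, ih]

theorem geo_nonneg (X : Set (PPt E N)) (hXi : Irred X) (f : PPt E N → PPt E N)
    (hf : Set.MapsTo f X X) (hlf : LocallyByForms X f) (A : Matrix ι ι ℤ)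
    (t : ι → ι → ι → ℝ) (hcub : ∀ n, Cub (hm (Lf X f n)) (pt A t n)) (i j k : ℕ) :
    0 ≤ Tri t (om A i) (om A j) (om A k) :=
  geo_q X hXi f hf hlf A t hcub (i + j + k) ⟨i, by omega⟩ ⟨j, by omega⟩ ⟨k, by omega⟩

theorem geo_rkt (X : Set (PPt E N)) (hXi : Irred X) (f : PPt E N → PPt E N)
    (hf : Set.MapsTo f X X) (hlf : LocallyByForms X f) (A : Matrix ι ι ℤ)
    (t : ι → ι → ι → ℝ) (hcub : ∀ n, Cub (hm (Lf X f n)) (pt A t n)) (n : ℕ)
    (α : Fin (n + 1) → ℕ) (j k l : Fin (n + 1)) :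
    Tri t (∑ i : Fin (n + 1), (α i : ℝ) • om A i) (∑ i : Fin (n + 1), (α i : ℝ) • om A i)
        (om A l) * Tri t (om A j) (om A k) (om A l) ≤
      3 * Fintype.card (SIx N) *
        Tri t (∑ i : Fin (n + 1), (α i : ℝ) • om A i) (om A j) (om A l) *
        Tri t (∑ i : Fin (n + 1), (α i : ℝ) • om A i) (om A k) (om A l) := by
  have hL : Irm (Lf X f n) := irm_Lf X f hf hlf X (Set.Subset.refl X) hXi n
  obtain ⟨P, P', c₁, hP, hP', hP0, hnz⟩ := geo_pencil X hXi f hf hlf n (bk l (fun _ => 1))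
  have ha : cls A (rv (fun b : Fin (n + 1) × ι => α b.1)) =
      ∑ i : Fin (n + 1), (α i : ℝ) • om A i := by
    have h1 : rv (fun b : Fin (n + 1) × ι => α b.1) =
        ∑ i : Fin (n + 1), (α i : ℝ) • rv (bk i (fun _ : ι => 1)) := by
      funext b
      rw [Finset.sum_apply, Finset.sum_eq_single b.1]
      · show ((α b.1 : ℕ) : ℝ) = (α b.1 : ℝ) * ((bk b.1 (fun _ : ι => 1) b : ℕ) : ℝ)
        rw [bk, if_pos rfl, Nat.cast_one, mul_one]
      · intro i _ hi
        show (α i : ℝ) * ((bk i (fun _ : ι => 1) b : ℕ) : ℝ) = 0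
        rw [bk, if_neg (Ne.symm hi), Nat.cast_zero, mul_zero]
      · intro h
        exact absurd (Finset.mem_univ _) h
    rw [h1, cls_sum' A n Finset.univ (fun i => (α i : ℝ)) fun i => rv (bk i (fun _ : ι => 1))]
    refine Finset.sum_congr rfl fun i _ => ?_
    rw [cls_bk]
  have h := rkt (Lf X f n) hL (pt A t n) (hcub n) (bk l (fun _ => 1)) P P' hP hP' hP0 c₁ hnz
    (bk j (fun _ => 1)) (sg X f j) (bk_one X f n j).symm (fun b => α b.1) (bk k (fun _ => 1))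
  rwa [tri_cls, tri_cls, tri_cls, tri_cls, ha, cls_bk, cls_bk, cls_bk] at h

end Pool.Agent.KST
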