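import Pool.Agent.KST.Irml

/-!
# KST INV: linearly equivalent degrees have the same Hilbert function

Let `j < n`, `i : ι`. `LinActsBy X f A` gives `Generated (graph X f) C` and
`Generated (graph X f) (-C)` for `C = Sum.elim (fun i' => -A i i') (Pi.single i 1)`. From the first:
`b, d : ι ⊕ ι → ℕ`, `b = C + d`, `t`, `L`, and for all `x ∈ X` a vector `z x : Fin t → E`, `z x ≠ 0`,
with `z x p * mono d (pair x (f x)) w = ∑ w', L (p, w) w' * mono b (pair x (f x)) w'`. For `y ∈ X`
take `x = f^[j] y`, and let `ζ_p y = z (f^[j] y) p` (functions on `X`, chosen). Let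
`d'` be the degree with `d (inl i')` in the block `(j, i')`, `d (inr i')` in the block
`(j + 1, i')`, `0` elsewhere, and similarly `b'`. The functions `y ↦ mono d (pair ..) w` span
`Rm d'` (products of coordinates; it is enough: each of them is in `Rm d'`, and they span it), so
`ζ_p Rm d' ⊆ Rm b'`, and `ζ_p Rm (c + d') ⊆ Rm (c + b')` for all `c`. Choose `y₀ ∈ X` and `p` with
`ζ_p y₀ ≠ 0`, and `m₀ ∈ Rm d'` with `m₀ y₀ ≠ 0`; then `ζ_p m₀ ∈ Rm b'` is not `0`, and for
`G ∈ Rm (c + d')`, `G ≠ 0`: `ζ_p G ≠ 0`, because `m₀ ζ_p G = (ζ_p m₀) G ≠ 0` (`Irm.mul`). So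
`hm (c + d') ≤ hm (c + b')` for all `c`. The second gives `d''`, `b''` with
`b'' - d'' = d' - b'` and `hm (c + d'') ≤ hm (c + b'')` for all `c`; for `c ≥ d''`:
`hm (c + b') = hm ((c + b' - d'') + d'') ≤ hm ((c + b' - d'') + b'') = hm (c + d')`.
-/

open MvPolynomial
open scoped LinearAlgebra.Projectivization

namespace Pool.Agent.KST

open Pool.Agent.Helper90.KSC Pool.Agent.Helper63.SAND Pool.Agent.LLC

variable {E ι : Type*} [Field E] [Fintype ι] [DecidableEq ι] {N : ι → ℕ}

/-- the coordinates of the point `(f^[j] y, f^[j+1] y)` as functions on `X` -/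
private noncomputable def ico (X : Set (PPt E N)) (f : PPt E N → PPt E N) (j : ℕ) (s : ι ⊕ ι)
    (k : Fin (Sum.elim N N s + 1)) : X → E :=
  fun y => ((pair (f^[j] (y : PPt E N)) (f (f^[j] (y : PPt E N)))) s).rep k

/-- the block belonging to a factor of the graph -/
private def ibk (n j : ℕ) (hj : j < n) : ι ⊕ ι → Fin (n + 1) × ι
  | .inl i => (⟨j, by omega⟩, i)
  | .inr i => (⟨j + 1, by omega⟩, i)

private def ipl (n j : ℕ) (hj : j < n) (e : ι ⊕ ι → ℕ) : Fin (n + 1) × ι → ℕ :=
  ∑ s, Pi.single (ibk n j hj s) (e s)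

omit [Fintype ι] [DecidableEq ι] in
private theorem ico_span (X : Set (PPt E N)) (f : PPt E N → PPt E N) (n j : ℕ) (hj : j < n)
    (s : ι ⊕ ι) : Lf X f n (ibk n j hj s) = Submodule.span E (Set.range (ico X f j s)) := by
  rcases s with i | i
  · rfl
  · have h1 : cf X f n (⟨j + 1, by omega⟩, i) = ico X f j (.inr i) := by
      funext k y
      show ((f^[j + 1] (y : PPt E N)) i).rep k = ((f (f^[j] (y : PPt E N))) i).rep k
      rw [Function.iterate_succ_apply']
    show Submodule.span E (Set.range (cf X f n (⟨j + 1, by omega⟩, i))) = _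
    rw [h1]
    rfl

/-- the monomials of the point of the graph -/
private noncomputable def imo (X : Set (PPt E N)) (f : PPt E N → PPt E N) (j : ℕ)
    (e : ι ⊕ ι → ℕ) (w : Mono (Sum.elim N N) e) : X → E :=
  fun y => mono e (pair (f^[j] (y : PPt E N)) (f (f^[j] (y : PPt E N)))) w

omit [DecidableEq ι] in
private theorem imo_span (X : Set (PPt E N)) (f : PPt E N → PPt E N) (j : ℕ)
    (e : ι ⊕ ι → ℕ) : ∏ s, Submodule.span E (Set.range (ico X f j s)) ^ e s =
      Submodule.span E (Set.range (imo X f j e)) := by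
  have h1 : ∏ s, Submodule.span E (Set.range (ico X f j s)) ^ e s =
      ∏ t : (Σ s, Fin (e s)), Submodule.span E (Set.range (ico X f j t.1)) := by
    rw [Fintype.prod_sigma]
    refine Finset.prod_congr rfl fun s _ => ?_
    simp only [Finset.prod_const, Finset.card_univ, Fintype.card_fin]
  rw [h1, Submodule.prod_span]
  congr 1
  ext g
  rw [Set.mem_fintype_prod]
  constructor
  · rintro ⟨G, hG, rfl⟩
    choose w hw using hG
    refine ⟨w, ?_⟩
    funext y
    rw [Finset.prod_apply]
    unfold imo mono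
    refine Finset.prod_congr rfl fun t _ => ?_
    rw [← hw t]
    rfl
  · rintro ⟨w, rfl⟩
    refine ⟨fun t => ico X f j t.1 (w t), fun t => ⟨w t, rfl⟩, ?_⟩
    funext y
    rw [Finset.prod_apply]
    rfl

private theorem irm_sum {𝒜 B κ : Type*} [CommRing 𝒜] [Algebra E 𝒜] [Fintype B]
    [Fintype κ] (L : B → Submodule E 𝒜) (c : κ → B → ℕ) (s : Finset κ) :
    Rm L (∑ k ∈ s, c k) = ∏ k ∈ s, Rm L (c k) := by
  classical
  induction s using Finset.induction_on with
  | empty => rw [Finset.sum_empty, Finset.prod_empty, rm_zero]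
  | insert a s ha ih => rw [Finset.sum_insert ha, Finset.prod_insert ha, rm_add, ih]

private theorem irm_single {𝒜 B : Type*} [CommRing 𝒜] [Algebra E 𝒜] [Fintype B]
    [DecidableEq B] (L : B → Submodule E 𝒜) (b : B) (k : ℕ) :
    Rm L (Pi.single b k) = L b ^ k := by
  have h1 : (Pi.single b k : B → ℕ) = k • Pi.single b 1 := by
    ext b'
    by_cases h : b' = b
    · subst h
      simp
    · simp [Pi.single_eq_of_ne h]
  rw [h1, rm_smul, rm_single]

private theorem ipl_span (X : Set (PPt E N)) (f : PPt E N → PPt E N) (n j : ℕ) (hj : j < n)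
    (e : ι ⊕ ι → ℕ) : Rm (Lf X f n) (ipl n j hj e) =
      Submodule.span E (Set.range (imo X f j e)) := by
  unfold ipl
  rw [irm_sum, ← imo_span]
  refine Finset.prod_congr rfl fun s _ => ?_
  rw [irm_single, ico_span]

omit [DecidableEq ι] in
private theorem imono_ne_zero {κ : Type*} [Fintype κ] {M : κ → ℕ} (b : κ → ℕ) (x : PPt E M) :
    mono b x ≠ 0 := by
  have h : ∀ t : (Σ i, Fin (b i)), ∃ j, (x t.1).rep j ≠ 0 := by
    intro t
    exact Function.ne_iff.mp (x t.1).rep_nonzero
  choose w hw using h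
  refine Function.ne_iff.mpr ⟨w, ?_⟩
  unfold mono
  exact Finset.prod_ne_zero_iff.mpr fun t _ => hw t

/-- sections of the difference class give the inequality of the Hilbert functions -/
private theorem inv_le (X : Set (PPt E N)) (f : PPt E N → PPt E N) (hf : Set.MapsTo f X X)
    (hloc : LocallyByForms X f) (hXi : Irred X) (n : ℕ) (j : ℕ) (hj : j < n) (C : ι ⊕ ι → ℤ)
    (hC : Generated (graph X f) C) : ∃ b d : ι ⊕ ι → ℕ, (∀ s, (b s : ℤ) = C s + d s) ∧
      ∀ c, hm (Lf X f n) (c + ipl n j hj d) ≤ hm (Lf X f n) (c + ipl n j hj b) := by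
  obtain ⟨b, d, hbd, t, L, hL⟩ := hC
  refine ⟨b, d, hbd, fun c => ?_⟩
  have hIrm : Irm (Lf X f n) := irm_Lf X f hf hloc X (le_refl _) hXi n
  have hz : ∀ y : X, ∃ z : Fin t → E, z ≠ 0 ∧ ∀ p : Fin t × Mono (Sum.elim N N) d,
      z p.1 * imo X f j d p.2 y = ∑ w, L p w * imo X f j b w y := fun y =>
    hL _ ⟨f^[j] (y : PPt E N), hf.iterate j y.2, rfl⟩
  choose z hz0 hz1 using hz
  obtain ⟨x₀, hx₀⟩ := hXi.1
  obtain ⟨p, hp⟩ : ∃ p, z ⟨x₀, hx₀⟩ p ≠ 0 := Function.ne_iff.1 (hz0 ⟨x₀, hx₀⟩)
  obtain ⟨ζ, hζ⟩ : ∃ ζ : X → E, ζ = fun y => z y p := ⟨_, rfl⟩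
  have h1 : ∀ G ∈ Rm (Lf X f n) (ipl n j hj d), ζ * G ∈ Rm (Lf X f n) (ipl n j hj b) := by
    intro G hG
    rw [ipl_span] at hG ⊢
    induction hG using Submodule.span_induction with
    | mem g hg =>
      obtain ⟨w, rfl⟩ := hg
      have h2 : ζ * imo X f j d w = ∑ w', L (p, w) w' • imo X f j b w' := by
        funext y
        rw [Pi.mul_apply, Finset.sum_apply, hζ]
        exact hz1 y (p, w)
      rw [h2]
      exact Submodule.sum_mem _ fun w' _ => Submodule.smul_mem _ _
        (Submodule.subset_span ⟨w', rfl⟩)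
    | zero =>
      rw [mul_zero]
      exact Submodule.zero_mem _
    | add g g' _ _ ih ih' =>
      rw [mul_add]
      exact Submodule.add_mem _ ih ih'
    | smul a g _ ih =>
      rw [mul_smul_comm]
      exact Submodule.smul_mem _ _ ih
  have h2 : ∀ G ∈ Rm (Lf X f n) (c + ipl n j hj d), ζ * G ∈ Rm (Lf X f n) (c + ipl n j hj b) := by
    intro G hG
    rw [rm_add] at hG ⊢
    refine Submodule.mul_induction_on hG (fun m hm g hg => ?_) fun g g' ih ih' => ?_
    · rw [mul_left_comm]
      exact Submodule.mul_mem_mul hm (h1 g hg)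
    · rw [mul_add]
      exact Submodule.add_mem _ ih ih'
  obtain ⟨w₀, hw₀⟩ := Function.ne_iff.1 (imono_ne_zero d
    (pair (f^[j] x₀) (f (f^[j] x₀))))
  have hm₀ : imo X f j d w₀ ∈ Rm (Lf X f n) (ipl n j hj d) := by
    rw [ipl_span]
    exact Submodule.subset_span ⟨w₀, rfl⟩
  have hζm : ζ * imo X f j d w₀ ≠ 0 := by
    intro h
    have h3 := congrFun h ⟨x₀, hx₀⟩
    rw [Pi.mul_apply, hζ] at h3
    exact (mul_ne_zero hp hw₀) h3
  have hinj : ∀ G ∈ Rm (Lf X f n) (c + ipl n j hj d), ζ * G = 0 → G = 0 := by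
    intro G hG h0
    rcases hIrm.mul _ _ _ _ (h1 _ hm₀) hG (by
      rw [mul_right_comm, h0, zero_mul]) with h | h
    · exact absurd h hζm
    · exact h
  have hfg := rm_fg (Lf X f n) hIrm.fg (c + ipl n j hj b)
  have : Module.Finite E (Rm (Lf X f n) (c + ipl n j hj b)) := Module.Finite.iff_fg.2 hfg
  let φ : Rm (Lf X f n) (c + ipl n j hj d) →ₗ[E] Rm (Lf X f n) (c + ipl n j hj b) :=
    ((LinearMap.mulLeft E ζ).domRestrict _).codRestrict _ fun G => h2 G.1 G.2
  have hφ : Function.Injective φ := by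
    rw [injective_iff_map_eq_zero]
    intro G hG
    have h3 : ζ * (G : X → E) = 0 := congrArg Subtype.val hG
    exact Subtype.ext (hinj G.1 G.2 h3)
  unfold hm
  exact_mod_cast LinearMap.finrank_le_finrank_of_injective hφ

private theorem ipl_apply (n j : ℕ) (hj : j < n) (e : ι ⊕ ι → ℕ) (q : Fin (n + 1) × ι) :
    ipl n j hj e q = (if (q.1 : ℕ) = j then e (.inl q.2) else 0) +
      if (q.1 : ℕ) = j + 1 then e (.inr q.2) else 0 := by
  obtain ⟨a, i'⟩ := q
  unfold ipl
  rw [Finset.sum_apply, Fintype.sum_sum_type]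
  congr 1
  · rw [Finset.sum_eq_single i']
    · by_cases h : (a : ℕ) = j
      · rw [if_pos h]
        have h1 : ibk n j hj (.inl i') = (a, i') := by
          unfold ibk
          simp only [Prod.mk.injEq, and_true]
          exact Fin.ext h.symm
        rw [h1, Pi.single_eq_same]
      · rw [if_neg h, Pi.single_eq_of_ne]
        intro h1
        unfold ibk at h1
        simp only [Prod.mk.injEq, and_true] at h1
        exact h (by rw [h1])
    · intro k _ hk
      rw [Pi.single_eq_of_ne]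
      intro h1
      unfold ibk at h1
      simp only [Prod.mk.injEq] at h1
      exact hk h1.2.symm
    · intro h
      exact absurd (Finset.mem_univ _) h
  · rw [Finset.sum_eq_single i']
    · by_cases h : (a : ℕ) = j + 1
      · rw [if_pos h]
        have h1 : ibk n j hj (.inr i') = (a, i') := by
          unfold ibk
          simp only [Prod.mk.injEq, and_true]
          exact Fin.ext h.symm
        rw [h1, Pi.single_eq_same]
      · rw [if_neg h, Pi.single_eq_of_ne]
        intro h1
        unfold ibk at h1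
        simp only [Prod.mk.injEq, and_true] at h1
        exact h (by rw [h1])
    · intro k _ hk
      rw [Pi.single_eq_of_ne]
      intro h1
      unfold ibk at h1
      simp only [Prod.mk.injEq] at h1
      exact hk h1.2.symm
    · intro h
      exact absurd (Finset.mem_univ _) h

theorem inv (X : Set (PPt E N)) (f : PPt E N → PPt E N) (hf : Set.MapsTo f X X)
    (hloc : LocallyByForms X f) (hXi : Irred X) (A : Matrix ι ι ℤ) (hA : LinActsBy X f A)
    (n : ℕ) (j : ℕ) (hj : j < n) (i : ι) :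
    ∃ b d c₀ : Fin (n + 1) × ι → ℕ,
      (∀ q : Fin (n + 1) × ι, (b q : ℤ) - d q =
        (if (q.1 : ℕ) = j + 1 ∧ q.2 = i then 1 else 0) - if (q.1 : ℕ) = j then A i q.2 else 0) ∧
      ∀ c, c₀ ≤ c → hm (Lf X f n) (c + b) = hm (Lf X f n) (c + d) := by
  obtain ⟨b, d, hbd, h1⟩ := inv_le X f hf hloc hXi n j hj _ (hA i).1
  obtain ⟨b', d', hbd', h2⟩ := inv_le X f hf hloc hXi n j hj _ (hA i).2
  refine ⟨ipl n j hj b, ipl n j hj d, ipl n j hj d', ?_, ?_⟩
  · intro q
    rw [ipl_apply, ipl_apply]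
    have e1 := hbd (.inl q.2)
    have e2 := hbd (.inr q.2)
    rw [Sum.elim_inl] at e1
    rw [Sum.elim_inr] at e2
    by_cases h3 : (q.1 : ℕ) = j
    · have h4 : ¬ (q.1 : ℕ) = j + 1 := by omega
      have h5 : ¬ ((q.1 : ℕ) = j + 1 ∧ q.2 = i) := fun h => h4 h.1
      rw [if_pos h3, if_neg h4, if_pos h3, if_neg h4, if_neg h5, if_pos h3]
      push_cast
      rw [e1]
      ring
    · by_cases h4 : (q.1 : ℕ) = j + 1
      · by_cases h6 : q.2 = i
        · rw [if_neg h3, if_pos h4, if_neg h3, if_pos h4, if_pos ⟨h4, h6⟩, if_neg h3]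
          push_cast
          rw [h6, Pi.single_eq_same] at e2
          rw [h6, e2]
          ring
        · have h5 : ¬ ((q.1 : ℕ) = j + 1 ∧ q.2 = i) := fun h => h6 h.2
          rw [if_neg h3, if_pos h4, if_neg h3, if_pos h4, if_neg h5, if_neg h3]
          push_cast
          rw [Pi.single_eq_of_ne h6] at e2
          rw [e2]
          ring
      · have h5 : ¬ ((q.1 : ℕ) = j + 1 ∧ q.2 = i) := fun h => h4 h.1
        rw [if_neg h3, if_neg h4, if_neg h3, if_neg h4, if_neg h5, if_neg h3]
        simp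
  · intro c hc
    refine le_antisymm ?_ (h1 c)
    have hsum : ∀ q, ipl n j hj b q + ipl n j hj b' q = ipl n j hj d q + ipl n j hj d' q := by
      intro q
      simp only [ipl_apply]
      have e1 := hbd (.inl q.2)
      have e2 := hbd (.inr q.2)
      have e3 := hbd' (.inl q.2)
      have e4 := hbd' (.inr q.2)
      rw [Pi.neg_apply] at e3 e4
      have e5 : b (.inl q.2) + b' (.inl q.2) = d (.inl q.2) + d' (.inl q.2) := by omega
      have e6 : b (.inr q.2) + b' (.inr q.2) = d (.inr q.2) + d' (.inr q.2) := by omega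
      split_ifs <;> omega
    have h3 := h2 (c + ipl n j hj b - ipl n j hj d')
    have e1 : c + ipl n j hj b - ipl n j hj d' + ipl n j hj d' = c + ipl n j hj b := by
      ext q
      have h0 : ipl n j hj d' q ≤ c q := hc q
      simp only [Pi.add_apply, Pi.sub_apply]
      omega
    have e2 : c + ipl n j hj b - ipl n j hj d' + ipl n j hj b' = c + ipl n j hj d := by
      ext q
      have h0 : ipl n j hj d' q ≤ c q := hc q
      have := hsum q
      simp only [Pi.add_apply, Pi.sub_apply]
      omega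
    rw [e1, e2] at h3
    exact h3

end Pool.Agent.KST
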