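import Pool.Agent.KST.Repb

/-!
# KST IRML: the graph ring of an irreducible set has no zero divisors

`fg`: spans of finite sets. `ne`: the coordinates of a point are not all `0`.
`mul`: let `F ∈ Rm c`, `G ∈ Rm c'`, `F G = 0`, and suppose `F y₁ ≠ 0`, `G y₂ ≠ 0`. By `rep_up`
(`j₀ = 0`) and `rep_form`: `lam₁ F` and `lam₂ G` are forms in the block `0` with `lam₁ y₁ ≠ 0`,
`lam₂ y₂ ≠ 0`, i.e. (`forms_block`) values of forms `P`, `Q` at `seg y`. `P Q` vanishes on `Y`, and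
by `primeH_seg` (`Helper63/SAND/Seg.lean`) `P` or `Q` vanishes on `Y`: contradiction at `y₁`, `y₂`.
-/

open MvPolynomial
open scoped LinearAlgebra.Projectivization

namespace Pool.Agent.KST

open Pool.Agent.Helper90.KSC Pool.Agent.Helper63.SAND

variable {E ι : Type*} [Field E] [Fintype ι] [DecidableEq ι] {N : ι → ℕ}

theorem irm_Lf (X : Set (PPt E N)) (f : PPt E N → PPt E N) (hf : Set.MapsTo f X X)
    (hloc : LocallyByForms X f) (Y : Set (PPt E N)) (hY : Y ⊆ X) (hYi : Irred Y) (n : ℕ) :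
    Irm (Lf Y f n) := by
  have hrep : ∀ (j : Fin (n + 1)) (i : ι), ∃ D : ℕ, ∀ y : Y, ∃ lam : Y → E, lam y ≠ 0 ∧
      ∀ k, lam * cf Y f n (j, i) k ∈ Rm (Lf Y f n) (bk 0 (fun _ => D)) :=
    fun j i => rep_up X f hf hloc Y hY n 0 j (Fin.zero_le j) i
  obtain ⟨D, hD⟩ := rep_form Y f n 0 hrep
  have key : ∀ (c : Fin (n + 1) × ι → ℕ) (F : Y → E), F ∈ Rm (Lf Y f n) c → F ≠ 0 →
      ∃ (d : ℕ) (P : MvPolynomial (SIx N) E) (lam : Y → E), P.IsHomogeneous d ∧
        (∀ y : Y, lam y * F y = eval (seg (y : PPt E N)) P) ∧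
        ¬ Van (fun y : Y => seg (y : PPt E N)) P := by
    intro c F hF hF0
    obtain ⟨y, hy⟩ := Function.ne_iff.1 hF0
    obtain ⟨lam, hlam, hform⟩ := hD c y
    obtain ⟨P, hP, hPe⟩ := (forms_block Y f n 0 _ _).1 (hform F hF)
    have hPe' : ∀ y : Y, lam y * F y = eval (seg (y : PPt E N)) P := fun y => hPe y
    refine ⟨_, P, lam, hP, hPe', fun hV => ?_⟩
    have h1 := hPe' y
    have h2 : eval (seg (y : PPt E N)) P = 0 := hV y
    rw [h2] at h1
    exact (mul_ne_zero hlam hy) h1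
  refine ⟨fun b => Submodule.fg_span (Set.finite_range _), fun b hb => ?_,
    fun c c' F G hF hG hFG => ?_⟩
  · obtain ⟨y₀, hy₀⟩ := hYi.1
    obtain ⟨k, hk⟩ := Function.ne_iff.1 (Projectivization.rep_nonzero ((f^[b.1] y₀) b.2))
    have h1 : cf Y f n b k ∈ Lf Y f n b := Submodule.subset_span ⟨k, rfl⟩
    rw [hb, Submodule.mem_bot] at h1
    exact hk (congrFun h1 ⟨y₀, hy₀⟩)
  · by_contra hcon
    push Not at hcon
    obtain ⟨d, P, lam, hP, hPe, hPV⟩ := key c F hF hcon.1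
    obtain ⟨d', P', lam', hP', hPe', hPV'⟩ := key c' G hG hcon.2
    rcases primeH_seg Y hYi P P' d d' hP hP' (fun y => by
      change eval (seg (y : PPt E N)) (P * P') = 0
      rw [map_mul, ← hPe, ← hPe']
      have h1 : F y * G y = 0 := congrFun hFG y
      rw [mul_mul_mul_comm, h1, mul_zero]) with h | h
    · exact hPV h
    · exact hPV' h

end Pool.Agent.KST
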