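import Pool.Agent.KST.Defs
import Pool.Agent.PBK.Multi

/-!
# KST JDEFS: jets

Part F (heights on slow subvarieties by jets): a rational map of bounded degree is determined by its
jet of bounded order at one point, and the heights of the jets of the iterates at `x₀` are bounded by the
sum of the heights of the orbit of `x₀`.
-/

set_option autoImplicit false

open MvPolynomial

namespace Pool.Agent.KST

variable {E : Type*} [Field E] {W : Type}

/-- The exponents of degree at most `r`. -/
abbrev MI (W : Type) (r : ℕ) : Type := {α : W →₀ ℕ // α.degree ≤ r}

noncomputable instance [Fintype W] (r : ℕ) : Fintype (MI W r) := by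
  classical
  exact Fintype.ofInjective (fun s : MI W r => fun b : W => (⟨s.1 b, by
    refine Nat.lt_succ_of_le (le_trans ?_ s.2)
    rw [Finsupp.degree_eq_sum]
    exact Finset.single_le_sum (f := fun b => s.1 b) (fun _ _ => Nat.zero_le _)
      (Finset.mem_univ b)⟩ : Fin (r + 1))) (by
    intro s t h
    ext b
    have := congrArg Fin.val (congrFun h b)
    simpa using this)

/-- The exponent zero. -/
noncomputable def zi (W : Type) (r : ℕ) : MI W r := ⟨0, by simp⟩

/-- The maximal ideal of the point `a`. -/
noncomputable def mx (a : W → E) : Ideal (MvPolynomial W E) := RingHom.ker (eval a)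

/-- The matrix of the pull back by the polynomial map `g` on the jets of order `r`. -/
noncomputable def jm [Fintype W] (r : ℕ) (g : W → MvPolynomial W E) : MI W r × MI W r → E :=
  fun p => coeff p.2.1 (∏ w, g w ^ p.1.1 w)

/-- The polynomial map with the Taylor coefficients `c` at `a`. -/
noncomputable def jt [Fintype W] (r : ℕ) (a : W → E) (c : W × MI W r → E) (w : W) :
    MvPolynomial W E :=
  ∑ α : MI W r, C (c (w, α)) * ∏ w', (X w' - C (a w')) ^ α.1 w'

end Pool.Agent.KST
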