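import Pool.Agent.KST.Jdefs

/-!
# KST JKRU: Krull's intersection theorem and linear functionals

PROOFS.  `krull`: the subspaces `V_j = V ⊓ (Q ⊔ mx a ^ j)` decrease with `j`, so they are stationary: `V_j = V_(r+1)` for `j ≥ r + 1`
(finite dimension: e.g. `WellFoundedLT`/the minimum of the dimensions). A polynomial `P` in `V_(r+1)` is in all `Q ⊔ mx a ^ j`; its image in
the Noetherian domain `MvPolynomial W E ⧸ Q` is in all the powers of the proper ideal `(mx a).map (Ideal.Quotient.mk Q)`
(proper: `Q ≤ mx a`), so it is zero (`Ideal.iInf_pow_eq_bot_of_isDomain`).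
`krull_exists`: `krull` for the span of `P`.
`fams`: in the quotient space `R ⧸ I` the image of `V` is finite dimensional; a finite family of functionals on the quotient
which separates the points of this subspace (dual basis of the subspace extended to the whole space:
`Submodule.exists_le_ker`.. or `Module.Dual` of a subspace: `Submodule.dualRestrict_surjective`/`LinearMap.exists_extend`), composed with the
projection.
`cancel_at`: `J` is not in the maximal ideal `mx a` (kernel of a surjective map to a field), so `span {J}` and `mx a` are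
coprime, so `span {J}` and `mx a ^ n` (`IsCoprime.pow_right`, `Ideal.isCoprime_span_singleton..`): `1 = u J + t`, `t ∈ mx a ^ n ≤ I`, and
`F = u (J F) + t F`.
`basis_mod`: a basis of the image of `V` in `R ⧸ Q`, lifted to elements `v b ∈ V`.
-/

set_option autoImplicit false

open MvPolynomial

namespace Pool.Agent.KST

variable {E : Type*} [Field E] {W : Type} [Finite W]

omit [Finite W] in
theorem mx_ne_top (a : W → E) : mx a ≠ ⊤ := by
  intro h
  have h1 : (1 : MvPolynomial W E) ∈ mx a := by rw [h]; trivial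
  have h2 := RingHom.mem_ker.1 h1
  simp at h2

theorem mem_of_forall_pow (Q : Ideal (MvPolynomial W E)) (hQ : Q.IsPrime) (a : W → E) (ha : Q ≤ mx a)
    (P : MvPolynomial W E) (hP : ∀ j : ℕ, P ∈ Q ⊔ mx a ^ j) : P ∈ Q := by
  haveI := hQ
  have hne : (mx a).map (Ideal.Quotient.mk Q) ≠ ⊤ := by
    intro h
    have h1 := congrArg (Ideal.comap (Ideal.Quotient.mk Q)) h
    rw [Ideal.comap_map_of_surjective _ Ideal.Quotient.mk_surjective, Ideal.comap_top] at h1
    have h2 : Ideal.comap (Ideal.Quotient.mk Q) ⊥ ≤ mx a := by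
      intro x hx
      rw [Ideal.mem_comap, Ideal.mem_bot, Ideal.Quotient.eq_zero_iff_mem] at hx
      exact ha hx
    rw [sup_eq_left.2 h2] at h1
    exact mx_ne_top a h1
  have hk := Ideal.iInf_pow_eq_bot_of_isDomain _ hne
  have : Ideal.Quotient.mk Q P ∈ (⨅ i : ℕ, (mx a).map (Ideal.Quotient.mk Q) ^ i) := by
    rw [Ideal.mem_iInf]
    intro i
    have := Ideal.mem_map_of_mem (Ideal.Quotient.mk Q) (hP i)
    rw [Ideal.map_sup, Ideal.map_pow, Ideal.map_quotient_self, bot_sup_eq] at this
    exact this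
  rw [hk, Ideal.mem_bot, Ideal.Quotient.eq_zero_iff_mem] at this
  exact this

theorem krull (Q : Ideal (MvPolynomial W E)) (hQ : Q.IsPrime) (a : W → E) (ha : Q ≤ mx a)
    (V : Submodule E (MvPolynomial W E)) [FiniteDimensional E V] :
    ∃ r : ℕ, ∀ P ∈ V, P ∈ Q ⊔ mx a ^ (r + 1) → P ∈ Q := by
  classical
  let S : ℕ → Submodule E V := fun j => ((Q ⊔ mx a ^ j).restrictScalars E).comap V.subtype
  have hS : ∀ i j, i ≤ j → S j ≤ S i := by
    intro i j hij x hx
    have hx' : (x : MvPolynomial W E) ∈ Q ⊔ mx a ^ j := hx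
    have : (x : MvPolynomial W E) ∈ Q ⊔ mx a ^ i := (sup_le_sup_left (Ideal.pow_le_pow_right hij) Q) hx'
    exact this
  let F : ℕ →o (Submodule E V)ᵒᵈ := ⟨fun j => OrderDual.toDual (S j), fun i j hij => hS i j hij⟩
  obtain ⟨n, hn⟩ := WellFoundedGT.monotone_chain_condition F
  refine ⟨n, fun P hPV hP => ?_⟩
  refine mem_of_forall_pow Q hQ a ha P fun j => ?_
  have h1 : S (n + 1) = S n := by
    have := hn (n + 1) (Nat.le_succ n)
    exact (congrArg OrderDual.ofDual this).symm
  have hPn : (⟨P, hPV⟩ : V) ∈ S (n + 1) := hP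
  rw [h1] at hPn
  rcases le_total j n with hj | hj
  · exact hS j n hj hPn
  · have h2 : S n = S j := congrArg OrderDual.ofDual (hn j hj)
    rw [h2] at hPn
    exact hPn

theorem krull_exists (Q : Ideal (MvPolynomial W E)) (hQ : Q.IsPrime) (a : W → E) (ha : Q ≤ mx a)
    (P : MvPolynomial W E) (hP : P ∉ Q) : ∃ j : ℕ, P ∉ Q ⊔ mx a ^ (j + 1) := by
  by_contra h
  push Not at h
  apply hP
  refine mem_of_forall_pow Q hQ a ha P fun j => ?_
  exact (sup_le_sup_left (Ideal.pow_le_pow_right (Nat.le_succ j)) Q) (h j)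

omit [Finite W] in
theorem fams_aux (V : Submodule E (MvPolynomial W E)) [FiniteDimensional E V]
    (I : Ideal (MvPolynomial W E)) :
    ∃ (n : ℕ) (ℓ : Fin n → MvPolynomial W E →ₗ[E] E), (∀ b, ∀ P ∈ I, ℓ b P = 0) ∧
      ∀ P ∈ V, (∀ b, ℓ b P = 0) → P ∈ I := by
  classical
  let IE : Submodule E (MvPolynomial W E) := I.restrictScalars E
  let U : Submodule E (MvPolynomial W E ⧸ IE) := V.map IE.mkQ
  haveI : FiniteDimensional E U := inferInstance
  let bs := Module.finBasis E U
  have hex : ∀ i, ∃ g : (MvPolynomial W E ⧸ IE) →ₗ[E] E, g ∘ₗ U.subtype = bs.coord i :=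
    fun i => LinearMap.exists_extend (bs.coord i)
  choose g hg using hex
  refine ⟨Module.finrank E U, fun i => (g i) ∘ₗ IE.mkQ, ?_, ?_⟩
  · intro i P hP
    have : IE.mkQ P = 0 := (Submodule.Quotient.mk_eq_zero IE).2 hP
    rw [LinearMap.comp_apply, this, map_zero]
  · intro P hPV h0
    have hU : IE.mkQ P ∈ U := Submodule.mem_map_of_mem hPV
    have hz : (⟨IE.mkQ P, hU⟩ : U) = 0 := by
      apply bs.ext_elem
      intro i
      have h1 := h0 i
      rw [LinearMap.comp_apply] at h1
      have h2 : bs.coord i ⟨IE.mkQ P, hU⟩ = 0 := by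
        rw [← hg i]; exact h1
      rw [map_zero]
      simpa using h2
    have : IE.mkQ P = 0 := congrArg Subtype.val hz
    exact (Submodule.Quotient.mk_eq_zero IE).1 this

theorem fams (V : Submodule E (MvPolynomial W E)) [FiniteDimensional E V]
    (I : Ideal (MvPolynomial W E)) :
    ∃ (n : ℕ) (ℓ : Fin n → MvPolynomial W E →ₗ[E] E), (∀ b, ∀ P ∈ I, ℓ b P = 0) ∧
      ∀ P ∈ V, (∀ b, ℓ b P = 0) → P ∈ I :=
  fams_aux V I

omit [Finite W] in
theorem cancel_at (a : W → E) (I : Ideal (MvPolynomial W E)) (n : ℕ) (hI : mx a ^ n ≤ I)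
    (J F : MvPolynomial W E) (hJ : eval a J ≠ 0) (h : J * F ∈ I) : F ∈ I := by
  have hm : (1 : MvPolynomial W E) - C (eval a J)⁻¹ * J ∈ mx a := by
    rw [mx, RingHom.mem_ker]
    simp [hJ]
  set t := (1 : MvPolynomial W E) - C (eval a J)⁻¹ * J with ht
  have hn : t ^ n ∈ I := hI (Ideal.pow_mem_pow hm n)
  have key : ∃ u, 1 - t ^ n = u * J := by
    have h1 : (1 - t) ∣ 1 - t ^ n := by
      have := sub_dvd_pow_sub_pow (1 : MvPolynomial W E) t n
      simpa using this
    obtain ⟨c, hc⟩ := h1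
    refine ⟨C (eval a J)⁻¹ * c, ?_⟩
    rw [hc, ht]; ring
  obtain ⟨u, hu⟩ := key
  have : F = u * (J * F) + t ^ n * F := by
    have : (u * J + t ^ n) * F = F := by rw [← hu]; ring
    linear_combination -this
  rw [this]
  exact I.add_mem (I.mul_mem_left _ h) (I.mul_mem_right _ hn)

omit [Finite W] in
theorem basis_mod (V : Submodule E (MvPolynomial W E)) [FiniteDimensional E V]
    (Q : Ideal (MvPolynomial W E)) :
    ∃ (D : ℕ) (v : Fin D → MvPolynomial W E), (∀ b, v b ∈ V) ∧
      (∀ P ∈ V, ∃ p : Fin D → E, P - ∑ b, C (p b) * v b ∈ Q) ∧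
      ∀ p : Fin D → E, ∑ b, C (p b) * v b ∈ Q → p = 0 := by
  classical
  let IE : Submodule E (MvPolynomial W E) := Q.restrictScalars E
  let U : Submodule E (MvPolynomial W E ⧸ IE) := V.map IE.mkQ
  haveI : FiniteDimensional E U := inferInstance
  let bs := Module.finBasis E U
  have hex : ∀ i, ∃ v ∈ V, IE.mkQ v = (bs i : MvPolynomial W E ⧸ IE) := by
    intro i
    exact Submodule.mem_map.1 (bs i).2
  choose v hv hvb using hex
  have hsm : ∀ p : Fin (Module.finrank E U) → E, (∑ b, C (p b) * v b) = ∑ b, p b • v b := by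
    intro p
    refine Finset.sum_congr rfl fun b _ => ?_
    rw [MvPolynomial.smul_eq_C_mul]
  have hmk : ∀ p : Fin (Module.finrank E U) → E, IE.mkQ (∑ b, p b • v b) = ((∑ b, p b • bs b : U) : MvPolynomial W E ⧸ IE) := by
    intro p
    rw [map_sum, AddSubmonoidClass.coe_finset_sum]
    refine Finset.sum_congr rfl fun b _ => ?_
    rw [map_smul, hvb]; rfl
  refine ⟨Module.finrank E U, v, hv, ?_, ?_⟩
  · intro P hP
    have hU : IE.mkQ P ∈ U := Submodule.mem_map_of_mem hP
    refine ⟨fun b => bs.repr ⟨IE.mkQ P, hU⟩ b, ?_⟩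
    rw [hsm]
    have : IE.mkQ (P - ∑ b, bs.repr ⟨IE.mkQ P, hU⟩ b • v b) = 0 := by
      rw [map_sub, hmk, bs.sum_repr]; simp
    exact (Submodule.Quotient.mk_eq_zero IE).1 this
  · intro p hp
    rw [hsm] at hp
    have h1 : IE.mkQ (∑ b, p b • v b) = 0 := (Submodule.Quotient.mk_eq_zero IE).2 hp
    rw [hmk] at h1
    have h2 : (∑ b, p b • bs b : U) = 0 := Subtype.ext h1
    have := Fintype.linearIndependent_iff.1 bs.linearIndependent p h2
    funext b
    exact this b

end Pool.Agent.KST
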