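import Pool.Agent.KST.Jdefs

/-!
# KST JMAT: composition of jets

PROOFS.  `coeff_zero_of_lt`: if all `g w` have constant coefficient `0` then `∏ w, g w ^ β w` has no monomials of degree
less than `β.degree` (induction, or: the order of a product; `MvPolynomial` has no order, so prove: the set of
the polynomials all of whose monomials have degree `≥ j` is closed under sums and multiplies: `j₁`, `j₂` give `j₁ + j₂`, by
`coeff_mul`).
`jm_comp`: `∏ w, (aeval g (h w)) ^ γ w = aeval g (∏ w, h w ^ γ w) = ∑_{β in support} coeff β (∏ w, h w ^ γ w) • ∏ w, g w ^ β w`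
(`aeval_def`, `eval₂_eq`); take the coefficient at `α`, `α.degree ≤ r`: the `β` with `β.degree > r ≥ α.degree` contribute zero, so
the sum is over `β : MI W r`.
`jm_iter`: `jm r (H (n+1)) = jm r (g n) * jm r (H n)` by `jm_comp`; the constant coefficient of `aeval (H n) (g n w)` is the value
of `g n w` at `0`, i.e. `0`. The height of a matrix product: `multi` (`PBK/Multi.lean`) with `J = Bool`, for the index set
`κ = MI × MI`: `∑_{I} coef (γ, α) I * A (I true) * B (I false)`, `coef = 1` if `I true = (γ, β)`, `I false = (β, α)` with the same `β`, else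
`0`. The matrices are not zero: the entry `(zi, zi)` is `1` (empty product). `n = 0`: `jm r X` is a fixed vector.
-/

set_option autoImplicit false

open MvPolynomial

namespace Pool.Agent.KST

open Pool.Agent.Helper63.WH Pool.Agent.PBK

variable {E : Type*} [Field E] {W : Type} [Fintype W]

theorem jm_zi (r : ℕ) (g : W → MvPolynomial W E) : jm r g (zi W r, zi W r) = 1 := by
  simp [jm, zi]

/-- all monomials have degree at least `j` -/
private def Od (j : ℕ) (f : MvPolynomial W E) : Prop := ∀ α : W →₀ ℕ, α.degree < j → coeff α f = 0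

private theorem Od_mul {j₁ j₂ : ℕ} {f g : MvPolynomial W E} (hf : Od j₁ f) (hg : Od j₂ g) :
    Od (j₁ + j₂) (f * g) := by
  classical
  intro α hα
  rw [coeff_mul]
  refine Finset.sum_eq_zero fun p hp => ?_
  rw [Finset.HasAntidiagonal.mem_antidiagonal] at hp
  have h1 : p.1.degree + p.2.degree = α.degree := by
    rw [← hp, map_add]
  rcases lt_or_ge p.1.degree j₁ with h2 | h2
  · rw [hf _ h2, zero_mul]
  · rw [hg _ (by omega), mul_zero]

private theorem Od_one : Od 0 (1 : MvPolynomial W E) := fun _ h => absurd h (Nat.not_lt_zero _)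

private theorem Od_pow {f : MvPolynomial W E} (hf : Od 1 f) (n : ℕ) : Od n (f ^ n) := by
  induction n with
  | zero =>
    rw [pow_zero]
    exact Od_one
  | succ n ih =>
    rw [pow_succ]
    exact Od_mul ih hf

private theorem Od_prod (s : Finset W) (f : W → MvPolynomial W E) (n : W → ℕ)
    (h : ∀ w, Od (n w) (f w)) : Od (∑ w ∈ s, n w) (∏ w ∈ s, f w) := by
  classical
  induction s using Finset.induction_on with
  | empty =>
    rw [Finset.sum_empty, Finset.prod_empty]
    exact Od_one
  | insert a s ha ih =>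
    rw [Finset.sum_insert ha, Finset.prod_insert ha]
    exact Od_mul (h a) ih

theorem coeff_zero_of_lt (g : W → MvPolynomial W E) (hg : ∀ w, constantCoeff (g w) = 0)
    (β α : W →₀ ℕ) (h : α.degree < β.degree) : coeff α (∏ w, g w ^ β w) = 0 := by
  have h1 : ∀ w, Od 1 (g w) := by
    intro w γ hγ
    have h2 : γ = 0 := by
      rw [← Finsupp.degree_eq_zero_iff]
      omega
    rw [h2]
    exact hg w
  have h3 := Od_prod Finset.univ (fun w => g w ^ β w) (fun w => β w) (fun w => Od_pow (h1 w) _)
  apply h3
  rw [← Finsupp.degree_eq_sum]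
  exact h

theorem jm_comp (r : ℕ) (g h : W → MvPolynomial W E) (hg : ∀ w, constantCoeff (g w) = 0)
    (γ α : MI W r) :
    jm r (fun w => aeval g (h w)) (γ, α) = ∑ β : MI W r, jm r h (γ, β) * jm r g (β, α) := by
  classical
  set P : MvPolynomial W E := ∏ w, h w ^ γ.1 w with hP
  have h1 : ∏ w, (aeval g (h w)) ^ γ.1 w = aeval g P := by
    rw [hP, map_prod]
    refine Finset.prod_congr rfl fun w _ => ?_
    rw [map_pow]
  set F : (W →₀ ℕ) → E := fun β => coeff β P * coeff α.1 (∏ w, g w ^ β w) with hF
  have h2 : coeff α.1 (aeval g P) = ∑ β ∈ P.support, F β := by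
    rw [aeval_def, eval₂_eq', coeff_sum]
    refine Finset.sum_congr rfl fun β _ => ?_
    exact coeff_C_mul _ _ _
  set S : Finset (W →₀ ℕ) := (Finset.univ : Finset (MI W r)).map (Function.Embedding.subtype _)
    with hS
  have h3 : ∑ β : MI W r, jm r h (γ, β) * jm r g (β, α) = ∑ β ∈ S, F β := by
    rw [hS, Finset.sum_map]
    rfl
  have h4 : ∑ β ∈ P.support, F β = ∑ β ∈ P.support ∪ S, F β := by
    refine Finset.sum_subset Finset.subset_union_left fun β _ hβ => ?_
    rw [hF]
    simp only
    rw [notMem_support_iff.mp hβ, zero_mul]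
  have h5 : ∑ β ∈ S, F β = ∑ β ∈ P.support ∪ S, F β := by
    refine Finset.sum_subset Finset.subset_union_right fun β _ hβ => ?_
    have h6 : r < β.degree := by
      by_contra hcon
      apply hβ
      rw [hS, Finset.mem_map]
      exact ⟨⟨β, not_lt.mp hcon⟩, Finset.mem_univ _, rfl⟩
    rw [hF]
    simp only
    rw [coeff_zero_of_lt g hg β α.1 (lt_of_le_of_lt α.2 h6), mul_zero]
  rw [h3, h5, ← h4, ← h2, ← h1]
  rfl

private theorem mat_mul_height [CharZero E] [Algebra.IsAlgebraic ℚ E] (r : ℕ) : ∃ C : ℝ, 0 ≤ C ∧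
    ∀ A B : MI W r × MI W r → E, A ≠ 0 → B ≠ 0 →
      absHeight (fun p : MI W r × MI W r => ∑ β : MI W r, A (p.1, β) * B (β, p.2)) ≤
        absHeight A + absHeight B + C := by
  classical
  obtain ⟨C, hC, h⟩ := multi (E := E) (κ := MI W r × MI W r) (J := Bool)
    (σ := fun _ => MI W r × MI W r)
    (fun p I => if (I true).1 = p.1 ∧ (I true).2 = (I false).1 ∧ (I false).2 = p.2 then 1 else 0)
  refine ⟨C, hC, ?_⟩
  intro A B hA hB
  have h1 := h (fun b => if b then A else B) (by
    intro b
    cases b
    · exact hB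
    · exact hA)
  rw [Fintype.sum_bool] at h1
  simp only [if_true, Bool.false_eq_true, if_false] at h1
  refine le_trans (le_of_eq ?_) h1
  congr 1
  funext p
  refine Finset.sum_of_injOn (fun β : MI W r => fun b : Bool => if b then (p.1, β) else (β, p.2))
    ?_ ?_ ?_ ?_
  · intro β _ β' _ hββ
    have h2 := congrArg Prod.snd (congrFun hββ true)
    exact h2
  · intro β _
    exact Finset.mem_coe.mpr (Finset.mem_univ _)
  · intro I _ hI
    rw [if_neg, zero_mul]
    rintro ⟨h2, h3, h4⟩
    apply hI
    refine ⟨(I true).2, Finset.mem_coe.mpr (Finset.mem_univ _), ?_⟩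
    funext b
    cases b
    · show ((I true).2, p.2) = I false
      rw [h3, ← h4]
    · show (p.1, (I true).2) = I true
      rw [← h2]
  · intro β _
    rw [Fintype.prod_bool]
    simp

theorem jm_iter [CharZero E] [Algebra.IsAlgebraic ℚ E] (r : ℕ) : ∃ C : ℝ, 0 ≤ C ∧
    ∀ g : ℕ → W → MvPolynomial W E, (∀ n w, constantCoeff (g n w) = 0) →
    ∀ H : ℕ → W → MvPolynomial W E, (∀ w, H 0 w = X w) →
    (∀ n w, H (n + 1) w = aeval (H n) (g n w)) → ∀ n : ℕ,
      (∀ w, constantCoeff (H n w) = 0) ∧
      absHeight (jm r (H n)) ≤ C * (n + 1) + ∑ i ∈ Finset.range n, absHeight (jm r (g i)) := by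
  obtain ⟨C, hC, hmul⟩ := mat_mul_height (E := E) (W := W) r
  have hX := absHeight_nonneg (E := E) (jm r (fun w : W => (X w : MvPolynomial W E)))
  refine ⟨C + absHeight (jm r (fun w : W => (X w : MvPolynomial W E))), add_nonneg hC hX, ?_⟩
  intro g hg H H0 H1 n
  have hne : ∀ k : W → MvPolynomial W E, jm r k ≠ 0 := by
    intro k h0
    have h1 := jm_zi r k
    rw [h0] at h1
    exact zero_ne_one h1
  induction n with
  | zero =>
    have h0 : H 0 = fun w => X w := funext H0
    refine ⟨fun w => ?_, ?_⟩
    · rw [H0, constantCoeff_X]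
    · rw [h0, Finset.range_zero, Finset.sum_empty]
      push_cast
      linarith
  | succ n ih =>
    obtain ⟨ih1, ih2⟩ := ih
    have h0 : H (n + 1) = fun w => aeval (H n) (g n w) := funext (H1 n)
    refine ⟨fun w => ?_, ?_⟩
    · rw [H1, map_aeval]
      have e1 : (fun i => constantCoeff (H n i)) = fun _ : W => (0 : E) := funext ih1
      rw [e1, eval₂Hom_zero', RingHom.comp_apply, hg, map_zero]
    · have h2 : jm r (H (n + 1)) = fun p : MI W r × MI W r =>
          ∑ β : MI W r, jm r (g n) (p.1, β) * jm r (H n) (β, p.2) := by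
        rw [h0]
        funext p
        exact jm_comp r (H n) (g n) ih1 p.1 p.2
      have h3 := hmul (jm r (g n)) (jm r (H n)) (hne _) (hne _)
      rw [← h2] at h3
      rw [Finset.sum_range_succ]
      push_cast
      linarith

end Pool.Agent.KST
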