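import Pool.Agent.KST.Jdefs

/-!
# KST JSTEP: the height of the jet of one normalised step

PROOFS.  `poly_ht`: let `D` be a bound of the total degrees, `z : Option W → E`, `z none = 1`, `z (some w) = x w`. Every
polynomial `Θ k` of degree `≤ D` is `∑ coef k I * ∏ j, z (I j)` over `I : Fin D → Option W` (choose for every monomial
one `I`: a list of its variables filled up with `none`; `coef k I = ∑ coeff s (Θ k)` over the monomials `s` whose chosen `I` is
`I`), so `multi` (`PBK/Multi.lean`) with `J = Fin D` gives `absHeight (fun k => eval x (Θ k)) ≤ D * absHeight z + C`, and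
`absHeight z ≤ absHeight x` if some `x w₀ = 1`: `z = x ∘ φ` up to `z none = x w₀` (`absHeight_comp_le`).
`jstep`: put `𝔾 t w = aeval (fun w' => C (X w') + X w') (G t w) - C (G t w)` in `MvPolynomial W (MvPolynomial W E)` (the inner variables
are the point, the outer ones the jet variables; `G t w` is mapped into the outer ring over the inner one by
`MvPolynomial.map C`, i.e. `aeval` over `E`), and for `w₀` with `y w₀ = 1`: `l = eval x (G t w₀)`.
`l ^ r * jm r (..) (β, α) = l ^ (r - |β|) * coeff α (∏ w, (aeval (C x + X) (G t w) - C (l * y w)) ^ β w)`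
`= eval x (Θ (β, α))`, `Θ (β, α) = (G t w₀) ^ (r - |β|) * coeff α (∏ w, 𝔾 t w ^ β w)` (specialisation of the inner variables at `x`:
`MvPolynomial.map (eval x)` is a ring homomorphism which maps `𝔾 t w` to `aeval (fun w' => C (x w') + X w') (G t w) - C (l * y w)`).
So `absHeight (jm ..) = absHeight (fun p => eval x (Θ p))` (`absHeight_smul` with `l ^ r ≠ 0`) and `poly_ht`; take the maximum
over the finitely many `(t, w₀)`.
-/

set_option autoImplicit false

open MvPolynomial

namespace Pool.Agent.KST

open Pool.Agent.Helper63.WH Pool.Agent.PBK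

variable {E : Type*} [Field E] [CharZero E] [Algebra.IsAlgebraic ℚ E] {W : Type} [Fintype W]

/-- the vector `(1, x)` -/
private def zz {E : Type*} [Field E] {W : Type} (x : W → E) : Option W → E := fun o => o.elim 1 x

private lemma mono_exists {E : Type*} [Field E] {W : Type} [Fintype W] (D : ℕ) (s : W →₀ ℕ)
    (hs : s.degree ≤ D) :
    ∃ I : Fin D → Option W, ∀ x : W → E, ∏ j, zz x (I j) = ∏ w, x w ^ s w := by
  classical
  induction D generalizing s with
  | zero =>
    have h0 : s = 0 := (Finsupp.degree_eq_zero_iff s).1 (Nat.le_zero.1 hs)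
    refine ⟨Fin.elim0, fun x => ?_⟩
    rw [h0]
    simp
  | succ D ih =>
    by_cases h0 : s = 0
    · refine ⟨fun _ => none, fun x => ?_⟩
      rw [h0]
      simp [zz]
    · obtain ⟨w, hw⟩ : ∃ w, s w ≠ 0 := by
        by_contra hcon
        push Not at hcon
        exact h0 (Finsupp.ext hcon)
      have hle : Finsupp.single w 1 ≤ s := by
        rw [Finsupp.single_le_iff]
        exact Nat.one_le_iff_ne_zero.2 hw
      set s' := s - Finsupp.single w 1 with hs'
      have hss : s = Finsupp.single w 1 + s' := (add_tsub_cancel_of_le hle).symm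
      have hd : s'.degree ≤ D := by
        have h1 : s.degree = 1 + s'.degree := by
          conv_lhs => rw [hss]
          rw [map_add, Finsupp.degree_single]
        omega
      obtain ⟨I', hI'⟩ := ih s' hd
      refine ⟨Fin.cons (some w) I', fun x => ?_⟩
      rw [Fin.prod_univ_succ]
      simp only [Fin.cons_zero, Fin.cons_succ]
      rw [hI' x, hss]
      simp only [Finsupp.add_apply, pow_add, Finset.prod_mul_distrib]
      congr 1
      rw [Finset.prod_eq_single w]
      · rw [Finsupp.single_eq_same, pow_one]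
        rfl
      · intro b _ hb
        rw [Finsupp.single_eq_of_ne hb, pow_zero]
      · intro h
        exact absurd (Finset.mem_univ w) h

theorem poly_ht {κ : Type} [Finite κ] (Θ : κ → MvPolynomial W E) : ∃ C : ℝ, 0 ≤ C ∧
    ∀ x : W → E, (∃ w, x w = 1) → absHeight (fun k => eval x (Θ k)) ≤ C * (1 + absHeight x) := by
  classical
  obtain ⟨D, hD⟩ : ∃ D : ℕ, ∀ k, (Θ k).totalDegree ≤ D := by
    have := Fintype.ofFinite κ
    exact ⟨∑ k, (Θ k).totalDegree, fun k =>
      Finset.single_le_sum (f := fun k => (Θ k).totalDegree) (fun _ _ => Nat.zero_le _)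
        (Finset.mem_univ k)⟩
  have hex : ∀ s : W →₀ ℕ, ∃ I : Fin D → Option W, s.degree ≤ D →
      ∀ x : W → E, ∏ j, zz x (I j) = ∏ w, x w ^ s w := by
    intro s
    by_cases h : s.degree ≤ D
    · obtain ⟨I, hI⟩ := mono_exists (E := E) D s h
      exact ⟨I, fun _ => hI⟩
    · exact ⟨fun _ => none, fun h' => absurd h' h⟩
  choose Im hIm using hex
  let coef : κ → (Fin D → Option W) → E := fun k I =>
    ∑ s ∈ (Θ k).support, if I = Im s then coeff s (Θ k) else 0
  obtain ⟨C, hC, h⟩ := multi (E := E) (κ := κ) (J := Fin D) (σ := fun _ => Option W) coef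
  refine ⟨D + C, add_nonneg (Nat.cast_nonneg _) hC, ?_⟩
  rintro x ⟨w₀, hw₀⟩
  have hz : ∀ _ : Fin D, zz x ≠ 0 := fun _ h0 => one_ne_zero (α := E) (congrFun h0 none)
  have h1 := h (fun _ => zz x) hz
  have h2 : (fun k => ∑ I : (Fin D → Option W), coef k I * ∏ j, zz x (I j)) =
      fun k => eval x (Θ k) := by
    funext k
    rw [MvPolynomial.eval_eq']
    simp only [coef, Finset.sum_mul]
    rw [Finset.sum_comm]
    refine Finset.sum_congr rfl fun s hs => ?_
    simp only [ite_mul, zero_mul, Finset.sum_ite_eq', Finset.mem_univ, if_true]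
    rw [hIm s ?_ x]
    refine le_trans ?_ ((le_totalDegree hs).trans (hD k))
    exact le_of_eq rfl
  rw [h2, Finset.sum_const, Finset.card_univ, Fintype.card_fin, nsmul_eq_mul] at h1
  have h3 : absHeight (zz x) ≤ absHeight x := by
    have h4 : zz x = fun o => x (o.elim w₀ id) := by
      funext o
      cases o with
      | none => exact hw₀.symm
      | some w => rfl
    rw [h4]
    exact absHeight_comp_le _ x
  have hx := absHeight_nonneg (E := E) x
  have h5 : (D : ℝ) * absHeight (zz x) ≤ D * absHeight x :=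
    mul_le_mul_of_nonneg_left h3 (Nat.cast_nonneg _)
  have h6 : 0 ≤ C * absHeight x := mul_nonneg hC hx
  have h7 : (0 : ℝ) ≤ D := Nat.cast_nonneg _
  change absHeight (fun k => eval x (Θ k)) ≤ (D + C) * (1 + absHeight x)
  linarith

/-- `G(x + X) - G(x)` as a polynomial in `X` whose coefficients are polynomials in `x` -/
private noncomputable def gg {E : Type*} [Field E] {W : Type} (p : MvPolynomial W E) :
    MvPolynomial W (MvPolynomial W E) :=
  aeval (fun w' => C (X w') + X w') p - C p

private lemma map_gg {E : Type*} [Field E] {W : Type} (x : W → E) (p : MvPolynomial W E) :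
    map (eval x) (gg p) = aeval (fun w' => C (x w') + X w') p - C (eval x p) := by
  unfold gg
  rw [map_sub, map_C]
  congr 1
  rw [MvPolynomial.map_aeval, MvPolynomial.aeval_def, ← MvPolynomial.coe_eval₂Hom]
  have h1 : (map (eval x)).comp (algebraMap E (MvPolynomial W (MvPolynomial W E))) =
      algebraMap E (MvPolynomial W E) := by
    ext a
    have h2 : algebraMap E (MvPolynomial W (MvPolynomial W E)) a = C (C a) := rfl
    rw [RingHom.comp_apply, h2, map_C, eval_C]
    rfl
  rw [h1]
  congr 2
  funext w'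
  rw [map_add, map_C, map_X, eval_X]

theorem jstep {T : Type} [Finite T] (G : T → W → MvPolynomial W E) (r : ℕ) : ∃ B : ℝ, 0 ≤ B ∧
    ∀ (t : T) (x y : W → E) (l : E), (∃ w, x w = 1) → (∃ w, y w = 1) → l ≠ 0 →
      (∀ w, eval x (G t w) = l * y w) →
      absHeight (jm r fun w => C l⁻¹ * aeval (fun w' => C (x w') + X w') (G t w) - C (y w)) ≤
        B * (1 + absHeight x) := by
  classical
  have := Fintype.ofFinite T
  let Θ : T × W → MI W r × MI W r → MvPolynomial W E := fun q p =>
    G q.1 q.2 ^ (r - p.1.1.degree) * coeff p.2.1 (∏ w, gg (G q.1 w) ^ p.1.1 w)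
  choose K hK0 hK using fun q : T × W => poly_ht (E := E) (Θ q)
  have hKs : 0 ≤ ∑ q, K q := Finset.sum_nonneg fun q _ => hK0 q
  refine ⟨∑ q, K q, hKs, ?_⟩
  rintro t x y l hx ⟨w₀, hw₀⟩ hl hG
  have hx0 := absHeight_nonneg (E := E) x
  have hl0 : eval x (G t w₀) = l := by rw [hG, hw₀, mul_one]
  have key : (fun p => eval x (Θ (t, w₀) p)) = l ^ r •
      jm r (fun w => C l⁻¹ * aeval (fun w' => C (x w') + X w') (G t w) - C (y w)) := by
    funext p
    show eval x (G t w₀ ^ (r - p.1.1.degree) * coeff p.2.1 (∏ w, gg (G t w) ^ p.1.1 w)) =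
      l ^ r * coeff p.2.1 (∏ w, (C l⁻¹ * aeval (fun w' => C (x w') + X w') (G t w) -
        C (y w)) ^ p.1.1 w)
    rw [map_mul, map_pow, hl0, ← coeff_map, map_prod]
    simp only [map_pow, map_gg, hG]
    have h1 : ∀ w, (C l⁻¹ * aeval (fun w' => C (x w') + X w') (G t w) - C (y w) :
        MvPolynomial W E) =
        C l⁻¹ * (aeval (fun w' => C (x w') + X w') (G t w) - C (l * y w)) := by
      intro w
      rw [mul_sub, ← C_mul, ← mul_assoc, inv_mul_cancel₀ hl, one_mul]
    simp only [h1, mul_pow, Finset.prod_mul_distrib]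
    have h2 : (∏ w, (C l⁻¹ : MvPolynomial W E) ^ p.1.1 w) = C (l⁻¹ ^ p.1.1.degree) := by
      rw [Finset.prod_pow_eq_pow_sum, ← C_pow, Finsupp.degree_eq_sum]
    rw [h2, coeff_C_mul, ← mul_assoc]
    congr 1
    rw [inv_pow]
    exact pow_sub₀ l hl p.1.2
  have h1 := hK (t, w₀) x hx
  rw [key, absHeight_smul _ (pow_ne_zero r hl)] at h1
  refine h1.trans (mul_le_mul_of_nonneg_right ?_ (by linarith))
  exact Finset.single_le_sum (fun q _ => hK0 q) (Finset.mem_univ (t, w₀))

end Pool.Agent.KST
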