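import Pool.Agent.KST.Jmat
import Pool.Agent.KST.Jstep
import Pool.Agent.Helper63.SAND.Iter

/-!
# KST JORB: the heights of the jets along an orbit

PROOF.  `g n w = C (l n)⁻¹ * aeval (fun w' => C (x n w') + X w') (G (s n) w) - C (x (n+1) w)`: the constant coefficient is
`(l n)⁻¹ eval (x n) (G (s n) w) - x (n+1) w = 0`. `H 0 w = X w`, `H (n+1) w = aeval (H n) (g n w)`. Let `u = fun w => X w - C (x 0 w)`.
CLAIM: there are `μ n ≠ 0` with `C (μ n) * chart G n (fun i => s i) w = C (x n w) + aeval u (H n w)` for all `w`. `n = 0`: `chart = X w`,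
`X w = C (x 0 w) + (X w - C (x 0 w))`, `μ 0 = 1`. Step: `chart G (n+1) _ w = bind₁ (chart G n _) (G (s n) w)`; as `G (s n) w` is
homogeneous of degree `e`, `aeval (fun w' => C μ * P w') (G (s n) w) = C (μ ^ e) * aeval P (G (s n) w)`; so with
`μ (n+1) = (l n)⁻¹ * (μ n) ^ e`: `C (μ (n+1)) * chart = C (l n)⁻¹ * aeval (fun w' => C (x n w') + aeval u (H n w')) (G (s n) w)
= aeval u (aeval (H n) (C (l n)⁻¹ * aeval (fun w' => C (x n w') + X w') (G (s n) w))) = aeval u (aeval (H n) (g n w) + C (x (n+1) w))`.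
`c (w, α) = x n w` if `α = 0` and `coeff α (H n w)` otherwise. The difference of `aeval u (H n w)` and
`∑_{|α| ≤ r, α ≠ 0} coeff α (H n w) u^α` is the sum over the `α` with `|α| > r` (the constant coefficient of `H n w` is `0`), each
`u^α` is in `mx (x 0) ^ (r+1)` (`u w ∈ mx (x 0)`).
HEIGHT: `c` is obtained from `p ↦ x n p.1 * jm r (H n) p.2` by a map of the index sets: `c (w, zi) = x n w * jm (zi, zi)`, and for
`α ≠ 0`, with `x n w₀ = 1`: `c (w, α) = x n w₀ * jm r (H n) (single w 1, α)` (`single w 1` has degree `1 ≤ r`). So by `absHeight_comp_le`,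
`absHeight_mul` (`PBK/Multi.lean`): `absHeight c ≤ absHeight (x n) + absHeight (jm r (H n))`, and `jm_iter`, `jstep`.
-/

set_option autoImplicit false

open MvPolynomial

namespace Pool.Agent.KST

open Pool.Agent.Helper63.WH Pool.Agent.PBK Pool.Agent.Helper63.SAND

section poly

variable {E : Type*} [Field E] {W : Type} [Fintype W]

omit [Fintype W] in
private theorem jo_const (x : W → E) (P : MvPolynomial W E) :
    constantCoeff (aeval (fun w' => (C (x w') + X w' : MvPolynomial W E)) P) = eval x P := by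
  rw [aeval_def, hom_eval₂]
  have h1 : (constantCoeff : MvPolynomial W E →+* E).comp
      (algebraMap E (MvPolynomial W E)) = RingHom.id E := by
    ext a
    simp [algebraMap_eq]
  have h2 : (fun i => (constantCoeff : MvPolynomial W E →+* E)
      (C (x i) + X i : MvPolynomial W E)) = x := by
    funext w
    simp
  rw [h1, h2]
  rfl

private theorem jo_hom {A : Type*} [CommRing A] [Algebra E A] (Q : MvPolynomial W E) (e : ℕ)
    (hQ : Q.IsHomogeneous e) (m : A) (P : W → A) :
    aeval (fun w => m * P w) Q = m ^ e * aeval P Q := by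
  rw [aeval_def, aeval_def, eval₂_eq', eval₂_eq', Finset.mul_sum]
  refine Finset.sum_congr rfl fun d hd => ?_
  have h1 : ∏ i, (m * P i) ^ d i = m ^ e * ∏ i, P i ^ d i := by
    have h2 : ∏ i, (m * P i) ^ d i = (∏ i, m ^ d i) * ∏ i, P i ^ d i := by
      rw [← Finset.prod_mul_distrib]
      exact Finset.prod_congr rfl fun i _ => mul_pow _ _ _
    rw [h2, Finset.prod_pow_eq_pow_sum]
    have h3 : ∑ i, d i = e := by
      have h4 := hQ (mem_support_iff.1 hd)
      rw [← h4, Finsupp.weight_apply, Finsupp.sum_fintype _ _ (fun i => by simp)]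
      simp
    rw [h3]
  rw [h1]
  ring

private theorem jo_mem (a : W → E) (d : W →₀ ℕ) :
    (∏ w', (X w' - C (a w') : MvPolynomial W E) ^ d w') ∈ mx a ^ d.degree := by
  rw [Finsupp.degree_eq_sum, ← Finset.prod_pow_eq_pow_sum]
  refine Ideal.prod_mem_prod fun i _ => Ideal.pow_mem_pow ?_ _
  show eval a (X i - C (a i)) = 0
  simp

private theorem jo_tay (r : ℕ) (a : W → E) (h : MvPolynomial W E) :
    aeval (fun w => (X w - C (a w) : MvPolynomial W E)) h -
      ∑ α : MI W r, C (coeff α.1 h) * ∏ w', (X w' - C (a w')) ^ α.1 w' ∈ mx a ^ (r + 1) := by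
  classical
  have e1 : ∑ α : MI W r, (C (coeff α.1 h) * ∏ w', (X w' - C (a w')) ^ α.1 w' :
      MvPolynomial W E) = ∑ d ∈ h.support with d.degree ≤ r,
        C (coeff d h) * ∏ w', (X w' - C (a w')) ^ d w' := by
    have e2 : ∑ α : MI W r, (C (coeff α.1 h) * ∏ w', (X w' - C (a w')) ^ α.1 w' :
        MvPolynomial W E) = ∑ d ∈ Finset.univ.image (fun α : MI W r => α.1),
          C (coeff d h) * ∏ w', (X w' - C (a w')) ^ d w' := by
      rw [Finset.sum_image]
      intro α _ β _ hαβ
      exact Subtype.ext hαβ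
    rw [e2]
    symm
    apply Finset.sum_subset
    · intro d hd
      rw [Finset.mem_filter] at hd
      exact Finset.mem_image.2 ⟨⟨d, hd.2⟩, Finset.mem_univ _, rfl⟩
    · intro d hd hd2
      obtain ⟨α, -, rfl⟩ := Finset.mem_image.1 hd
      have h3 : α.1 ∉ h.support := fun h4 => hd2 (Finset.mem_filter.2 ⟨h4, α.2⟩)
      rw [notMem_support_iff.1 h3, C_0, zero_mul]
  rw [e1, aeval_def, eval₂_eq', ← Finset.sum_filter_add_sum_filter_not h.support
    (fun d => d.degree ≤ r), algebraMap_eq, add_sub_cancel_left]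
  refine Ideal.sum_mem _ fun d hd => Ideal.mul_mem_left _ _ ?_
  rw [Finset.mem_filter] at hd
  exact Ideal.pow_le_pow_right (by omega) (jo_mem a d)

/-- the normalised steps -/
private noncomputable def joG {T : Type} (G : T → W → MvPolynomial W E) (x : ℕ → W → E)
    (s : ℕ → T) (l : ℕ → E) (n : ℕ) (w : W) : MvPolynomial W E :=
  C (l n)⁻¹ * aeval (fun w' => C (x n w') + X w') (G (s n) w) - C (x (n + 1) w)

/-- the jets -/
private noncomputable def joH {T : Type} (G : T → W → MvPolynomial W E) (x : ℕ → W → E)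
    (s : ℕ → T) (l : ℕ → E) : ℕ → W → MvPolynomial W E
  | 0 => X
  | n + 1 => fun w => aeval (joH G x s l n) (joG G x s l n w)

private theorem jo_claim {T : Type} (G : T → W → MvPolynomial W E) (e : ℕ)
    (hG : ∀ t w, (G t w).IsHomogeneous e) (x : ℕ → W → E) (s : ℕ → T) (l : ℕ → E)
    (hl : ∀ n, l n ≠ 0) (n : ℕ) :
    ∃ μ : E, μ ≠ 0 ∧ ∀ w, C μ * chart G n (fun i => s i) w =
      C (x n w) + aeval (fun w => (X w - C (x 0 w) : MvPolynomial W E)) (joH G x s l n w) := by
  induction n with
  | zero =>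
    refine ⟨1, one_ne_zero, fun w => ?_⟩
    have h1 : chart G 0 (fun i => s i) w = X w := rfl
    have h2 : joH G x s l 0 w = X w := rfl
    rw [h1, h2, aeval_X, C_1, one_mul]
    ring
  | succ n ih =>
    obtain ⟨μ, hμ, h⟩ := ih
    refine ⟨(l n)⁻¹ * μ ^ e, mul_ne_zero (inv_ne_zero (hl n)) (pow_ne_zero e hμ), fun w => ?_⟩
    have h1 : chart G (n + 1) (fun i => s i) w =
        aeval (chart G n (fun i : Fin n => s i)) (G (s n) w) := rfl
    have h2 : joH G x s l (n + 1) w = aeval (joH G x s l n) (joG G x s l n w) := rfl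
    have h3 : C (μ ^ e) * aeval (chart G n (fun i : Fin n => s i)) (G (s n) w) =
        aeval (fun w' => C (x n w') +
          aeval (fun w => (X w - C (x 0 w) : MvPolynomial W E)) (joH G x s l n w'))
          (G (s n) w) := by
      rw [C_pow, ← jo_hom (G (s n) w) e (hG _ _)]
      congr 2
      funext w'
      exact h w'
    rw [h1, h2, C_mul, mul_assoc, h3]
    unfold joG
    rw [map_sub, map_sub, map_mul, map_mul, algHom_C, algHom_C, comp_aeval_apply,
      comp_aeval_apply]
    simp only [map_add, aeval_X, aeval_C, algebraMap_eq]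
    ring

end poly

variable {E : Type*} [Field E] [CharZero E] [Algebra.IsAlgebraic ℚ E] {W : Type} [Fintype W]

private theorem jo_le {κ κ' κ'' : Type} [Finite κ] [Finite κ'] [Finite κ''] (c : κ → E)
    (φ : κ → κ' × κ'') (x : κ' → E) (y : κ'' → E) (hx : x ≠ 0) (hy : y ≠ 0)
    (hc : ∀ p, c p = x (φ p).1 * y (φ p).2) : absHeight c ≤ absHeight x + absHeight y := by
  have e : c = fun p => (fun q : κ' × κ'' => x q.1 * y q.2) (φ p) := funext hc
  have h1 := absHeight_comp_le (E := E) φ (fun q : κ' × κ'' => x q.1 * y q.2)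
  rw [← e, absHeight_mul x y hx hy] at h1
  exact h1

theorem jorb {T : Type} [Finite T] (G : T → W → MvPolynomial W E) (e : ℕ)
    (hG : ∀ t w, (G t w).IsHomogeneous e) (r : ℕ) (hr : 1 ≤ r) : ∃ B : ℝ, 0 ≤ B ∧
    ∀ (x : ℕ → W → E) (s : ℕ → T) (l : ℕ → E), (∀ n, ∃ w, x n w = 1) → (∀ n, l n ≠ 0) →
      (∀ n w, eval (x n) (G (s n) w) = l n * x (n + 1) w) → ∀ n : ℕ,
      ∃ (c : W × MI W r → E) (μ : E), μ ≠ 0 ∧ (∀ w, c (w, zi W r) = x n w) ∧
        (∀ w, C μ * chart G n (fun i => s i) w - jt r (x 0) c w ∈ mx (x 0) ^ (r + 1)) ∧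
        absHeight c ≤ B * ∑ j ∈ Finset.range (n + 1), (1 + absHeight (x j)) := by
  classical
  obtain ⟨C₁, hC₁, H1⟩ := jm_iter (E := E) (W := W) r
  obtain ⟨B₁, hB₁, H2⟩ := jstep G r
  refine ⟨1 + C₁ + B₁, by positivity, fun x s l hx hl hxl n => ?_⟩
  have hg0 : ∀ n w, constantCoeff (joG G x s l n w) = 0 := by
    intro n w
    unfold joG
    rw [map_sub, map_mul, constantCoeff_C, constantCoeff_C, jo_const, hxl, ← mul_assoc,
      inv_mul_cancel₀ (hl n), one_mul, sub_self]
  obtain ⟨h0, h1⟩ := H1 (joG G x s l) hg0 (joH G x s l) (fun w => rfl) (fun n w => rfl) n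
  obtain ⟨μ, hμ, h2⟩ := jo_claim G e hG x s l hl n
  obtain ⟨w₀, hw₀⟩ := hx n
  let c : W × MI W r → E := fun p =>
    if p.2 = zi W r then x n p.1 else coeff p.2.1 (joH G x s l n p.1)
  refine ⟨c, μ, hμ, ?_, ?_, ?_⟩
  · intro w
    exact if_pos rfl
  · intro w
    have e1 : jt r (x 0) c w = C (x n w) + ∑ α : MI W r,
        C (coeff α.1 (joH G x s l n w)) * ∏ w', (X w' - C (x 0 w')) ^ α.1 w' := by
      have e2 : ∀ α : MI W r, (C (c (w, α)) * ∏ w', (X w' - C (x 0 w')) ^ α.1 w' :
          MvPolynomial W E) = (if α = zi W r then C (x n w) else 0) +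
            C (coeff α.1 (joH G x s l n w)) * ∏ w', (X w' - C (x 0 w')) ^ α.1 w' := by
        intro α
        by_cases hα : α = zi W r
        · rw [if_pos hα]
          have e3 : c (w, α) = x n w := if_pos hα
          have e4 : coeff α.1 (joH G x s l n w) = 0 := by
            rw [hα]
            have := h0 w
            rwa [constantCoeff_eq] at this
          rw [e3, e4, hα, C_0, zero_mul, add_zero]
          have e5 : ∏ w', (X w' - C (x 0 w') : MvPolynomial W E) ^ (zi W r).1 w' = 1 :=
            Finset.prod_eq_one fun i _ => pow_zero _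
          rw [e5, mul_one]
        · rw [if_neg hα, zero_add]
          have e3 : c (w, α) = coeff α.1 (joH G x s l n w) := if_neg hα
          rw [e3]
      unfold jt
      rw [Finset.sum_congr rfl (fun α _ => e2 α), Finset.sum_add_distrib,
        Finset.sum_ite_eq' Finset.univ (zi W r), if_pos (Finset.mem_univ _)]
    rw [h2, e1, add_sub_add_left_eq_sub]
    exact jo_tay r (x 0) (joH G x s l n w)
  · have hsd : ∀ w : W, (Finsupp.single w 1 : W →₀ ℕ).degree ≤ r := by
      intro w
      rw [Finsupp.degree_single]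
      exact hr
    let φ : W × MI W r → W × (MI W r × MI W r) := fun p =>
      if p.2 = zi W r then (p.1, (zi W r, zi W r)) else (w₀, (⟨Finsupp.single p.1 1, hsd _⟩, p.2))
    have hφ : ∀ p, c p = x n (φ p).1 * jm r (joH G x s l n) (φ p).2 := by
      intro p
      by_cases hp : p.2 = zi W r
      · have e1 : c p = x n p.1 := if_pos hp
        have e2 : φ p = (p.1, (zi W r, zi W r)) := if_pos hp
        rw [e1, e2]
        show x n p.1 = x n p.1 * jm r (joH G x s l n) (zi W r, zi W r)
        rw [jm_zi, mul_one]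
      · have e1 : c p = coeff p.2.1 (joH G x s l n p.1) := if_neg hp
        have e2 : φ p = (w₀, (⟨Finsupp.single p.1 1, hsd _⟩, p.2)) := if_neg hp
        rw [e1, e2]
        show _ = x n w₀ * coeff p.2.1 (∏ w, joH G x s l n w ^ (Finsupp.single p.1 1 : W →₀ ℕ) w)
        rw [hw₀, one_mul, Finset.prod_eq_single p.1]
        · rw [Finsupp.single_eq_same, pow_one]
        · intro b _ hb
          rw [Finsupp.single_eq_of_ne hb, pow_zero]
        · intro h
          exact absurd (Finset.mem_univ _) h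
    have hxn : x n ≠ 0 := by
      intro h
      rw [h, Pi.zero_apply] at hw₀
      exact zero_ne_one hw₀
    have hjn : jm r (joH G x s l n) ≠ 0 := by
      intro h
      have := jm_zi r (joH G x s l n)
      rw [h, Pi.zero_apply] at this
      exact zero_ne_one this
    have h3 : absHeight c ≤ absHeight (x n) + absHeight (jm r (joH G x s l n)) :=
      jo_le c φ (x n) (jm r (joH G x s l n)) hxn hjn hφ
    have h4 : ∀ i, absHeight (jm r (joG G x s l i)) ≤ B₁ * (1 + absHeight (x i)) := fun i =>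
      H2 (s i) (x i) (x (i + 1)) (l i) (hx i) (hx (i + 1)) (hl i) (hxl i)
    have h5 : ∑ i ∈ Finset.range n, absHeight (jm r (joG G x s l i)) ≤
        B₁ * ∑ i ∈ Finset.range n, (1 + absHeight (x i)) := by
      rw [Finset.mul_sum]
      exact Finset.sum_le_sum fun i _ => h4 i
    have hnn : ∀ i, 0 ≤ absHeight (x i) := fun i => absHeight_nonneg _
    have h6 : (n : ℝ) ≤ ∑ i ∈ Finset.range n, (1 + absHeight (x i)) := by
      have : ∑ i ∈ Finset.range n, (1 : ℝ) ≤ ∑ i ∈ Finset.range n, (1 + absHeight (x i)) :=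
        Finset.sum_le_sum fun i _ => by have := hnn i; linarith
      simpa using this
    rw [Finset.sum_range_succ]
    obtain ⟨S, hS⟩ : ∃ S : ℝ, S = ∑ i ∈ Finset.range n, (1 + absHeight (x i)) := ⟨_, rfl⟩
    rw [← hS] at h5 h6 ⊢
    have hn0 : (0 : ℝ) ≤ n := Nat.cast_nonneg n
    have h7 := hnn n
    have h8 : absHeight c ≤ absHeight (x n) + C₁ * (n + 1) + B₁ * S := by linarith
    refine h8.trans ?_
    have h9 : C₁ * (n + 1) ≤ C₁ * (S + (1 + absHeight (x n))) :=
      mul_le_mul_of_nonneg_left (by linarith) hC₁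
    have h10 : B₁ * S ≤ B₁ * (S + (1 + absHeight (x n))) :=
      mul_le_mul_of_nonneg_left (by linarith) hB₁
    nlinarith

end Pool.Agent.KST
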