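import Pool.Agent.KST.Mor
import Pool.Agent.KST.Tr
import Pool.Agent.KST.Evc

/-!
# KST KTC: sections from the numerical condition, in dimension three

`mor` with `t = 0` (`Wt L P P' 0 c = Rm L c`, `P = P' = 0`, any `h₀`): it is enough that
`card σ * (hm L (c + j • b) - hm L c) < hm L c`. Let `c = k a + c₀`, `c₀` the bound of `c₁` of `Cub`,
`j = ⌊m' k⌋₊` (`j ≤ m' k`, `m' k - 1 ≤ j`). By `c₁` (`T = Tri t`):
`6 hm (k a + c₀) = k ^ 3 T(a,a,a) + O(k ^ 2)` and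
`6 hm (k a + c₀ + j b) = k ^ 3 T(a,a,a) + 3 k ^ 2 j T(a,a,b) + 3 k j ^ 2 T(a,b,b) + j ^ 3 T(b,b,b) + O(k ^ 2)`
(`O(k ^ 2)` with a constant depending on `a, b, c₀, m'`), and `j = m' k + O(1)`:
`card σ (6 hm (c + j b) - 6 hm c) = k ^ 3 card σ (3 m' T(a,a,b) + 3 m' ^ 2 T(a,b,b) + m' ^ 3 T(b,b,b)) + O(k ^ 2)
< k ^ 3 T(a,a,a) - O(k ^ 2) ≤ 6 hm c` for all large `k`. (`mor` gives `F ∈ Wt L 0 0 0 c`; convert with
`pow_zero`, `one_mul`.)
-/

open MvPolynomial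

namespace Pool.Agent.KST

variable {E 𝒜 B σ : Type*} [Field E] [CommRing 𝒜] [Algebra E 𝒜] [Fintype B] [DecidableEq B]
  [Fintype σ]

omit [DecidableEq B] in
open Filter Topology in
private lemma ktc_lim (h : (B → ℕ) → ℤ) (t : B → B → B → ℝ) (C : ℝ) (c₀ : B → ℕ)
    (hb : ∀ c, c₀ ≤ c →
      |6 * (h c : ℝ) - Tri t (rv c) (rv c) (rv c)| ≤ C * (1 + ∑ b, (c b : ℝ)) ^ 2)
    (x : ℕ → B → ℕ) (v : B → ℝ)
    (hx : ∀ b, Tendsto (fun k : ℕ => (x k b : ℝ) / k) atTop (𝓝 (v b))) (h0 : ∀ k, c₀ ≤ x k) :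
    Tendsto (fun k : ℕ => 6 * (h (x k) : ℝ) / (k : ℝ) ^ 3) atTop (𝓝 (Tri t v v v)) := by
  have hinv : Tendsto (fun k : ℕ => (k : ℝ)⁻¹) atTop (𝓝 0) := tendsto_inv_atTop_nhds_zero_nat
  have hxv : Tendsto (fun k : ℕ => (fun b => (x k b : ℝ) / k : B → ℝ)) atTop (𝓝 v) :=
    tendsto_pi_nhds.2 hx
  have h1 : Tendsto (fun k : ℕ => Tri t (fun b => (x k b : ℝ) / k) (fun b => (x k b : ℝ) / k)
      (fun b => (x k b : ℝ) / k)) atTop (𝓝 (Tri t v v v)) := by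
    have h2 := ((tri_cont t).tendsto (v, v, v)).comp
      (hxv.prodMk_nhds (hxv.prodMk_nhds hxv))
    exact h2
  have h2 : Tendsto (fun k : ℕ => C * ((k : ℝ)⁻¹ + ∑ b, (x k b : ℝ) / k) ^ 2 * (k : ℝ)⁻¹) atTop
      (𝓝 0) := by
    have h3 := (((hinv.add (tendsto_finset_sum Finset.univ fun b _ => hx b)).pow 2).const_mul
      C).mul hinv
    rw [mul_zero] at h3
    exact h3
  have h3 : Tendsto (fun k : ℕ => 6 * (h (x k) : ℝ) / (k : ℝ) ^ 3 -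
      Tri t (fun b => (x k b : ℝ) / k) (fun b => (x k b : ℝ) / k) (fun b => (x k b : ℝ) / k))
      atTop (𝓝 0) := by
    refine squeeze_zero_norm' ?_ h2
    filter_upwards [eventually_ge_atTop 1] with k hk
    have hk0 : (0 : ℝ) < k := by exact_mod_cast hk
    have h4 := hb (x k) (h0 k)
    have h5 : Tri t (rv (x k)) (rv (x k)) (rv (x k)) = (k : ℝ) ^ 3 *
        Tri t (fun b => (x k b : ℝ) / k) (fun b => (x k b : ℝ) / k)
          (fun b => (x k b : ℝ) / k) := by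
      unfold Tri
      simp only [Finset.mul_sum]
      refine Finset.sum_congr rfl fun i _ => Finset.sum_congr rfl fun j _ =>
        Finset.sum_congr rfl fun l _ => ?_
      change t i j l * (x k i : ℝ) * (x k j : ℝ) * (x k l : ℝ) = _
      field_simp
    have h6 : 1 + ∑ b, (x k b : ℝ) = (k : ℝ) * ((k : ℝ)⁻¹ + ∑ b, (x k b : ℝ) / k) := by
      rw [mul_add, mul_inv_cancel₀ hk0.ne', Finset.mul_sum]
      congr 1
      refine Finset.sum_congr rfl fun b _ => ?_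
      field_simp
    rw [h5, h6] at h4
    rw [Real.norm_eq_abs]
    obtain ⟨τ, hτ⟩ : ∃ τ : ℝ, τ = Tri t (fun b => (x k b : ℝ) / k) (fun b => (x k b : ℝ) / k)
          (fun b => (x k b : ℝ) / k) := ⟨_, rfl⟩
    obtain ⟨s, hs⟩ : ∃ s : ℝ, s = (k : ℝ)⁻¹ + ∑ b, (x k b : ℝ) / k := ⟨_, rfl⟩
    rw [← hτ, ← hs] at h4 ⊢
    have h8 : 6 * (h (x k) : ℝ) / (k : ℝ) ^ 3 - τ =
        (6 * (h (x k) : ℝ) - (k : ℝ) ^ 3 * τ) / (k : ℝ) ^ 3 := by
      field_simp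
    rw [h8, abs_div, abs_of_pos (by positivity : (0 : ℝ) < (k : ℝ) ^ 3),
      div_le_iff₀ (by positivity)]
    refine h4.trans (le_of_eq ?_)
    field_simp
  have h4 := h3.add h1
  rw [zero_add] at h4
  refine h4.congr fun k => ?_
  ring

omit [DecidableEq B] in
private lemma ktc_exp (t : B → B → B → ℝ) (h₁ : ∀ i j k, t i j k = t j i k)
    (h₂ : ∀ i j k, t i j k = t i k j) (m : ℝ) (u v : B → ℝ) :
    Tri t (u + m • v) (u + m • v) (u + m • v) = Tri t u u u + (3 * m * Tri t u u v +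
      3 * m ^ 2 * Tri t u v v + m ^ 3 * Tri t v v v) := by
  have a2 : ∀ x y y' z : B → ℝ, Tri t x (y + y') z = Tri t x y z + Tri t x y' z := by
    intro x y y' z
    rw [tri_swap₁ t h₁ x, tri_add₁, tri_swap₁ t h₁ y, tri_swap₁ t h₁ y']
  have a3 : ∀ x y z z' : B → ℝ, Tri t x y (z + z') = Tri t x y z + Tri t x y z' := by
    intro x y z z'
    rw [tri_swap₂ t h₂, a2, tri_swap₂ t h₂ x z, tri_swap₂ t h₂ x z']
  have s2 : ∀ (r : ℝ) (x y z : B → ℝ), Tri t x (r • y) z = r * Tri t x y z := by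
    intro r x y z
    rw [tri_swap₁ t h₁, tri_smul₁, tri_swap₁ t h₁]
  have s3 : ∀ (r : ℝ) (x y z : B → ℝ), Tri t x y (r • z) = r * Tri t x y z := by
    intro r x y z
    rw [tri_swap₂ t h₂, s2, tri_swap₂ t h₂]
  simp only [tri_add₁, a2, a3, tri_smul₁, s2, s3]
  have e1 : Tri t u v u = Tri t u u v := tri_swap₂ t h₂ u v u
  have e2 : Tri t v u u = Tri t u u v := by rw [tri_swap₁ t h₁, e1]
  have e3 : Tri t v u v = Tri t u v v := tri_swap₁ t h₁ v u v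
  have e4 : Tri t v v u = Tri t u v v := by rw [tri_swap₂ t h₂, e3]
  rw [e1, e2, e3, e4]
  ring

omit [DecidableEq B] in
private lemma ktc_wt (L : B → Submodule E 𝒜) (c : B → ℕ) : Wt L 0 0 0 c = Rm L c := by
  unfold Wt
  rw [pow_zero, one_mul]

open Filter Topology in
theorem kt_three (L : B → Submodule E 𝒜) (hL : Irm L) (t : B → B → B → ℝ) (ht : Cub (hm L) t)
    (b : B → ℕ) (X : σ → 𝒜) (hX : ∀ w, X w ∈ Rm L b) (β : 𝒜) (hβ : β ∈ Rm L b) (hβ0 : β ≠ 0)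
    (a : B → ℕ) (m' : ℝ) (hm' : 0 ≤ m')
    (hcond : Fintype.card σ * (3 * m' * Tri t (rv a) (rv a) (rv b) +
      3 * m' ^ 2 * Tri t (rv a) (rv b) (rv b) + m' ^ 3 * Tri t (rv b) (rv b) (rv b)) <
        Tri t (rv a) (rv a) (rv a)) :
    ∃ c₂ : B → ℕ, ∀ K : ℕ, ∃ k, K ≤ k ∧ ∃ j : ℕ, m' * k - 1 ≤ j ∧
      ∃ F ∈ Rm L (k • a + c₂), F ≠ 0 ∧
        ∀ w, ∃ G ∈ Rm L (k • a + c₂), X w ^ j * F = β ^ j * G := by
  obtain ⟨C, c₀, hb⟩ := ht.c₁
  refine ⟨c₀, ?_⟩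
  have hinv : Tendsto (fun k : ℕ => (k : ℝ)⁻¹) atTop (𝓝 0) := tendsto_inv_atTop_nhds_zero_nat
  have hfl : Tendsto (fun k : ℕ => (⌊m' * (k : ℝ)⌋₊ : ℝ) / (k : ℝ)) atTop (𝓝 m') :=
    (tendsto_nat_floor_mul_div_atTop hm').comp tendsto_natCast_atTop_atTop
  have e1 : ∀ i, Tendsto (fun k : ℕ => ((k • a + c₀) i : ℝ) / k) atTop (𝓝 (rv a i)) := by
    intro i
    have h1 := (hinv.const_mul (c₀ i : ℝ)).const_add (a i : ℝ)
    rw [mul_zero, add_zero] at h1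
    refine h1.congr' ?_
    filter_upwards [eventually_ge_atTop 1] with k hk
    have hk0 : (0 : ℝ) < k := by exact_mod_cast hk
    change _ = ((k * a i + c₀ i : ℕ) : ℝ) / k
    push_cast
    field_simp
  have e2 : ∀ i, Tendsto (fun k : ℕ => ((k • a + c₀ + ⌊m' * (k : ℝ)⌋₊ • b) i : ℝ) / k) atTop
      (𝓝 ((rv a + m' • rv b) i)) := by
    intro i
    have h1 := (e1 i).add (hfl.mul_const (b i : ℝ))
    refine h1.congr' ?_
    filter_upwards [eventually_ge_atTop 1] with k hk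
    have hk0 : (0 : ℝ) < k := by exact_mod_cast hk
    change ((k * a i + c₀ i : ℕ) : ℝ) / k + (⌊m' * (k : ℝ)⌋₊ : ℝ) / k * (b i : ℝ) =
      ((k * a i + c₀ i + ⌊m' * (k : ℝ)⌋₊ * b i : ℕ) : ℝ) / k
    push_cast
    field_simp
  have l1 := ktc_lim (hm L) t C c₀ hb (fun k => k • a + c₀) (rv a) e1
    (fun k => le_add_of_nonneg_left (zero_le))
  have l2 := ktc_lim (hm L) t C c₀ hb (fun k => k • a + c₀ + ⌊m' * (k : ℝ)⌋₊ • b)
    (rv a + m' • rv b) e2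
    (fun k => (le_add_of_nonneg_left (zero_le)).trans (le_add_of_nonneg_right (zero_le)))
  rw [ktc_exp t ht.s₁ ht.s₂] at l2
  have l3 := (((l2.sub l1).const_mul (Fintype.card σ : ℝ)).sub l1)
  have hneg : (Fintype.card σ : ℝ) * (Tri t (rv a) (rv a) (rv a) +
      (3 * m' * Tri t (rv a) (rv a) (rv b) + 3 * m' ^ 2 * Tri t (rv a) (rv b) (rv b) +
        m' ^ 3 * Tri t (rv b) (rv b) (rv b)) - Tri t (rv a) (rv a) (rv a)) -
      Tri t (rv a) (rv a) (rv a) < 0 := by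
    rw [add_sub_cancel_left]
    linarith
  have l4 := l3.eventually (gt_mem_nhds hneg)
  intro K
  obtain ⟨k, hk, hkK, hk1⟩ := (l4.and ((eventually_ge_atTop K).and
    (eventually_ge_atTop 1))).exists
  have hk0 : (0 : ℝ) < k := by exact_mod_cast hk1
  have hk3 : (0 : ℝ) < (k : ℝ) ^ 3 := by positivity
  refine ⟨k, hkK, ⌊m' * (k : ℝ)⌋₊, ?_, ?_⟩
  · have := Nat.lt_floor_add_one (m' * (k : ℝ))
    linarith
  · have hd : (Fintype.card σ : ℤ) * (hm L (k • a + c₀ + ⌊m' * (k : ℝ)⌋₊ • b) -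
        hm L (k • a + c₀)) < hm L (k • a + c₀) := by
      have h5 : (Fintype.card σ : ℝ) * ((hm L (k • a + c₀ + ⌊m' * (k : ℝ)⌋₊ • b) : ℝ) -
          (hm L (k • a + c₀) : ℝ)) < (hm L (k • a + c₀) : ℝ) := by
        obtain ⟨p, hp⟩ : ∃ p : ℝ, p = (hm L (k • a + c₀ + ⌊m' * (k : ℝ)⌋₊ • b) : ℝ) := ⟨_, rfl⟩
        obtain ⟨q, hq⟩ : ∃ q : ℝ, q = (hm L (k • a + c₀) : ℝ) := ⟨_, rfl⟩
        rw [← hp, ← hq] at hk ⊢
        have h6 : (Fintype.card σ : ℝ) * (6 * p / (k : ℝ) ^ 3 - 6 * q / (k : ℝ) ^ 3) -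
            6 * q / (k : ℝ) ^ 3 =
            6 * ((Fintype.card σ : ℝ) * (p - q) - q) / (k : ℝ) ^ 3 := by
          field_simp
        rw [h6] at hk
        have h7 : 6 * ((Fintype.card σ : ℝ) * (p - q) - q) < 0 := by
          by_contra hcon
          exact absurd hk (not_lt.2 (div_nonneg (not_lt.1 hcon) hk3.le))
        linarith
      exact_mod_cast h5
    have hm0 := mor (σ := σ) L hL 0 0 0 (Submodule.zero_mem _) (Submodule.zero_mem _) b X hX β hβ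
      hβ0 0 ⌊m' * (k : ℝ)⌋₊ (k • a + c₀) (by
        rw [ktc_wt, ktc_wt]
        exact hd)
    simpa only [ktc_wt] using hm0

end Pool.Agent.KST
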