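import Pool.Agent.KST.Defs2

/-!
# KST MHA: multihomogeneous ideals

`Sc c` is finite dimensional: it is spanned by the monomials with `∑_i s (b, i) = c b` for all `b`,
a finite set. `sc_mul`, `sc_X`: `IsWeightedHomogeneous.mul`, `isWeightedHomogeneous_X`.
`sc_split`: every monomial of multidegree `c + c'` is the product of a monomial of multidegree `c`
and one of multidegree `c'` (block by block choose a sub multiset of size `c b`).
`mh_span`: an element of the ideal generated by multihomogeneous elements `F i` is `∑ a i F i`; its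
component of degree `c` is `∑_i (component (c - d i) of a i) F i` (`0` if not `d i ≤ c`).
`mh_colon`: if `x G ∈ I`, then `x · (component c of G) = component (c + deg x) of (x G) ∈ I`.
`hI_exact`: let `b` be the block of the variable `x`. Let `U = Sc (c + e_b)`, `J = I ⊔ (x)`,
`I' = (I : x)`. The map `U / (U ∩ I) → U / (U ∩ J)` is onto with kernel `(U ∩ J) / (U ∩ I)`;
`U ∩ J = (U ∩ I) + x (Sc c)` (take the component of degree `c + e_b` of `i + x a`), so the kernel is
isomorphic, by multiplication by `x`, to `Sc c / (Sc c ∩ I')`. (finrank of the image of `U` in `S/I`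
is `finrank U - finrank (U ∩ I)`.)
-/

open MvPolynomial

namespace Pool.Agent.KST

variable {E B : Type*} [Field E] [DecidableEq B] [Fintype B] {V : B → Type*} [∀ b, Fintype (V b)]

private theorem mha_fin (c : B → ℕ) :
    {m : (Σ b, V b) →₀ ℕ | Finsupp.weight wgt m = c}.Finite := by
  classical
  refine (Set.finite_Iic (Finsupp.equivFunOnFinite.symm (fun s : Σ b, V b => c s.1))).subset ?_
  intro m hm s
  have hm' : Finsupp.weight wgt m = c := hm
  show m s ≤ c s.1
  rw [← hm', Finsupp.weight_apply, Finsupp.sum, Finset.sum_apply]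
  by_cases h : m s = 0
  · rw [h]
    exact Nat.zero_le _
  · have h1 : m s = (m s • wgt s : B → ℕ) s.1 := by
      simp [wgt]
    conv_lhs => rw [h1]
    exact Finset.single_le_sum (f := fun t : Σ b, V b => (m t • wgt t : B → ℕ) s.1)
      (fun t _ => Nat.zero_le _) (Finsupp.mem_support_iff.2 h)

omit [∀ b, Fintype (V b)] in
private theorem mha_choose : ∀ (n : ℕ) (m : (Σ b, V b) →₀ ℕ) (c : B → ℕ),
    c ≤ Finsupp.weight wgt m → ∑ b, Finsupp.weight wgt m b = n + ∑ b, c b →
    ∃ m' ≤ m, Finsupp.weight wgt m' = c := by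
  classical
  intro n
  induction n with
  | zero =>
    intro m c hc hs
    refine ⟨m, le_rfl, ?_⟩
    rw [zero_add] at hs
    have h1 := (Finset.sum_eq_sum_iff_of_le fun b _ => hc b).1 hs.symm
    funext b
    exact (h1 b (Finset.mem_univ b)).symm
  | succ n ih =>
    intro m c hc hs
    obtain ⟨b, hb⟩ : ∃ b, c b < Finsupp.weight wgt m b := by
      by_contra hcon
      push Not at hcon
      have h1 : Finsupp.weight wgt m = c := le_antisymm hcon hc
      rw [h1] at hs
      omega
    obtain ⟨s, hsb, hs0⟩ : ∃ s : Σ b, V b, s.1 = b ∧ m s ≠ 0 := by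
      by_contra hcon
      push Not at hcon
      have h1 : Finsupp.weight wgt m b = 0 := by
        rw [Finsupp.weight_apply, Finsupp.sum, Finset.sum_apply]
        refine Finset.sum_eq_zero fun t _ => ?_
        by_cases ht : t.1 = b
        · rw [hcon t ht, zero_smul]
          rfl
        · rw [Pi.smul_apply]
          unfold wgt
          rw [Pi.single_eq_of_ne (Ne.symm ht), smul_zero]
      omega
    have hle : Finsupp.single s 1 ≤ m := by
      rw [Finsupp.single_le_iff]
      omega
    have hm : (m - Finsupp.single s 1) + Finsupp.single s 1 = m := tsub_add_cancel_of_le hle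
    have hw : Finsupp.weight wgt m = Finsupp.weight wgt (m - Finsupp.single s 1) + wgt s := by
      conv_lhs => rw [← hm]
      rw [map_add, Finsupp.weight_single, one_smul]
    have k1 : c ≤ Finsupp.weight wgt (m - Finsupp.single s 1) := by
      intro b'
      have h1 : Finsupp.weight wgt m b' =
          Finsupp.weight wgt (m - Finsupp.single s 1) b' + wgt s b' := congrFun hw b'
      have h2 : c b' ≤ Finsupp.weight wgt m b' := hc b'
      show c b' ≤ Finsupp.weight wgt (m - Finsupp.single s 1) b'
      by_cases hb' : b' = b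
      · subst hb'
        have h3 : wgt s b' = 1 := by
          unfold wgt
          rw [← hsb, Pi.single_eq_same]
        omega
      · have h3 : wgt s b' = 0 := by
          unfold wgt
          exact Pi.single_eq_of_ne (by rw [hsb]; exact hb') 1
        omega
    have k2 : ∑ b, Finsupp.weight wgt (m - Finsupp.single s 1) b = n + ∑ b, c b := by
      have h1 : ∑ b, Finsupp.weight wgt m b =
          ∑ b, Finsupp.weight wgt (m - Finsupp.single s 1) b + ∑ b, wgt s b := by
        rw [← Finset.sum_add_distrib]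
        refine Finset.sum_congr rfl fun b _ => ?_
        rw [hw]
        rfl
      have h2 : ∑ b, wgt s b = 1 := by
        unfold wgt
        simp
      omega
    obtain ⟨m', hm', hwm⟩ := ih (m - Finsupp.single s 1) c k1 k2
    exact ⟨m', hm'.trans tsub_le_self, hwm⟩

omit [Fintype B] [∀ b, Fintype (V b)] in
private theorem mha_comp_mul (x : MvPolynomial (Σ b, V b) E) {d : B → ℕ} (hx : x ∈ Sc E V d)
    (a : MvPolynomial (Σ b, V b) E) (c : B → ℕ) :
    weightedHomogeneousComponent wgt (c + d) (a * x) =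
      weightedHomogeneousComponent wgt c a * x := by
  classical
  refine MvPolynomial.ext _ _ fun m => ?_
  rw [coeff_weightedHomogeneousComponent, coeff_mul, coeff_mul]
  split_ifs with h
  · refine Finset.sum_congr rfl fun p hp => ?_
    rw [Finset.HasAntidiagonal.mem_antidiagonal] at hp
    by_cases hq : coeff p.2 x = 0
    · rw [hq, mul_zero, mul_zero]
    · have h1 : Finsupp.weight wgt p.2 = d := hx hq
      have h2 : Finsupp.weight wgt p.1 = c := by
        rw [← hp, map_add, h1] at h
        exact add_right_cancel h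
      rw [coeff_weightedHomogeneousComponent, if_pos h2]
  · symm
    refine Finset.sum_eq_zero fun p hp => ?_
    rw [Finset.HasAntidiagonal.mem_antidiagonal] at hp
    by_cases hq : coeff p.2 x = 0
    · rw [hq, mul_zero]
    · have h1 : Finsupp.weight wgt p.2 = d := hx hq
      rw [coeff_weightedHomogeneousComponent, if_neg, zero_mul]
      intro h2
      apply h
      rw [← hp, map_add, h1, h2]

omit [Fintype B] [∀ b, Fintype (V b)] in
private theorem mha_comp_mul0 (x : MvPolynomial (Σ b, V b) E) {d : B → ℕ} (hx : x ∈ Sc E V d)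
    (a : MvPolynomial (Σ b, V b) E) (c : B → ℕ) (hc : ¬ d ≤ c) :
    weightedHomogeneousComponent wgt c (a * x) = 0 := by
  classical
  refine MvPolynomial.ext _ _ fun m => ?_
  rw [coeff_weightedHomogeneousComponent, coeff_mul, coeff_zero]
  split_ifs with h
  · refine Finset.sum_eq_zero fun p hp => ?_
    rw [Finset.HasAntidiagonal.mem_antidiagonal] at hp
    by_cases hq : coeff p.2 x = 0
    · rw [hq, mul_zero]
    · exfalso
      have h1 : Finsupp.weight wgt p.2 = d := hx hq
      apply hc
      rw [← h, ← hp, map_add, h1]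
      exact le_add_self
  · rfl

omit [Fintype B] [∀ b, Fintype (V b)] in
private theorem mha_sum [DecidableEq (B → ℕ)] (G : MvPolynomial (Σ b, V b) E) :
    ∑ c ∈ G.support.image (Finsupp.weight wgt), weightedHomogeneousComponent wgt c G = G := by
  refine MvPolynomial.ext _ _ fun m => ?_
  rw [coeff_sum]
  simp only [coeff_weightedHomogeneousComponent]
  rw [Finset.sum_ite_eq]
  split_ifs with h
  · rfl
  · by_contra hne
    apply h
    exact Finset.mem_image.2 ⟨m, mem_support_iff.2 (Ne.symm hne), rfl⟩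

omit [Fintype B] [∀ b, Fintype (V b)] in
private theorem mha_mul {I : Ideal (MvPolynomial (Σ b, V b) E)} {G : MvPolynomial (Σ b, V b) E}
    (hG : ∀ c : B → ℕ, weightedHomogeneousComponent wgt c G ∈ I)
    (a : MvPolynomial (Σ b, V b) E) (c : B → ℕ) :
    weightedHomogeneousComponent wgt c (a * G) ∈ I := by
  classical
  rw [← mha_sum G, Finset.mul_sum, map_sum]
  refine Ideal.sum_mem _ fun c2 _ => ?_
  by_cases h : c2 ≤ c
  · have h1 : c = (c - c2) + c2 := (tsub_add_cancel_of_le h).symm
    rw [h1, mha_comp_mul _ (weightedHomogeneousComponent_mem _ _ _)]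
    exact Ideal.mul_mem_left _ _ (hG c2)
  · rw [mha_comp_mul0 _ (weightedHomogeneousComponent_mem _ _ _) a c h]
    exact Ideal.zero_mem _

omit [Fintype B] [∀ b, Fintype (V b)] in
theorem mem_sc (c : B → ℕ) (F : MvPolynomial (Σ b, V b) E) :
    F ∈ Sc E V c ↔ F.IsWeightedHomogeneous wgt c := by
  exact Iff.rfl

theorem sc_fg (c : B → ℕ) : (Sc E V c).FG := by
  unfold Sc
  rw [weightedHomogeneousSubmodule_eq_finsupp_supported, ← Module.Finite.iff_fg]
  have := (mha_fin (V := V) c).to_subtype
  exact Module.Finite.of_basis (basisRestrictSupport E {d | Finsupp.weight wgt d = c})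

omit [Fintype B] [∀ b, Fintype (V b)] in
theorem sc_mul {c c' : B → ℕ} {F G : MvPolynomial (Σ b, V b) E} (hF : F ∈ Sc E V c)
    (hG : G ∈ Sc E V c') : F * G ∈ Sc E V (c + c') := by
  exact IsWeightedHomogeneous.mul hF hG

omit [Fintype B] [∀ b, Fintype (V b)] in
theorem sc_X (s : Σ b, V b) : (X s : MvPolynomial (Σ b, V b) E) ∈ Sc E V (Pi.single s.1 1) := by
  exact isWeightedHomogeneous_X E wgt s

theorem sc_split (c c' : B → ℕ) : Sc E V (c + c') = Sc E V c * Sc E V c' := by
  classical
  refine le_antisymm ?_ (Submodule.mul_le.2 fun F hF G hG => sc_mul hF hG)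
  intro F hF
  rw [← support_sum_monomial_coeff F]
  refine Submodule.sum_mem _ fun m hm => ?_
  have hw : Finsupp.weight wgt m = c + c' := hF (mem_support_iff.1 hm)
  obtain ⟨m', hm', hwm⟩ := mha_choose (∑ b, c' b) m c (by rw [hw]; exact le_self_add) (by
    rw [hw]
    simp only [Pi.add_apply]
    rw [Finset.sum_add_distrib, add_comm])
  have h1 : m' + (m - m') = m := add_tsub_cancel_of_le hm'
  have h2 : Finsupp.weight wgt (m - m') = c' := by
    have h3 := congrArg (Finsupp.weight (wgt (V := V))) h1
    rw [map_add, hwm, hw] at h3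
    exact add_left_cancel h3
  have h4 : monomial m (coeff m F) = monomial m' (1 : E) * monomial (m - m') (coeff m F) := by
    rw [monomial_mul, h1, one_mul]
  rw [h4]
  exact Submodule.mul_mem_mul (isWeightedHomogeneous_monomial wgt m' 1 hwm)
    (isWeightedHomogeneous_monomial wgt (m - m') _ h2)

omit [Fintype B] [∀ b, Fintype (V b)] in
theorem mh_span {κ : Type*} (F : κ → MvPolynomial (Σ b, V b) E) (d : κ → B → ℕ)
    (hF : ∀ i, F i ∈ Sc E V (d i)) : MH (Ideal.span (Set.range F)) := by
  classical
  intro G hG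
  refine Submodule.span_induction (p := fun G _ => ∀ c : B → ℕ,
    weightedHomogeneousComponent wgt c G ∈ Ideal.span (Set.range F)) ?_ ?_ ?_ ?_ hG
  · rintro _ ⟨i, rfl⟩ c
    rw [weightedHomogeneousComponent_of_mem (hF i)]
    split_ifs
    · exact Ideal.subset_span ⟨i, rfl⟩
    · exact Ideal.zero_mem _
  · intro c
    rw [map_zero]
    exact Ideal.zero_mem _
  · intro u v _ _ hu hv c
    rw [map_add]
    exact Ideal.add_mem _ (hu c) (hv c)
  · intro a u _ hu c
    rw [smul_eq_mul]
    exact mha_mul hu a c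

omit [Fintype B] [∀ b, Fintype (V b)] in
theorem mh_sup {I J : Ideal (MvPolynomial (Σ b, V b) E)} (hI : MH I) (hJ : MH J) :
    MH (I ⊔ J) := by
  intro F hF c
  obtain ⟨y, hy, z, hz, rfl⟩ := Submodule.mem_sup.1 hF
  rw [map_add]
  exact Submodule.add_mem_sup (hI y hy c) (hJ z hz c)

omit [Fintype B] [∀ b, Fintype (V b)] in
theorem mh_colon {I : Ideal (MvPolynomial (Σ b, V b) E)} (hI : MH I) {c : B → ℕ}
    (x : MvPolynomial (Σ b, V b) E) (hx : x ∈ Sc E V c) :
    MH (I.colon (Ideal.span {x} : Ideal (MvPolynomial (Σ b, V b) E))) := by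
  intro G hG c'
  rw [Ideal.mem_colon_span_singleton] at hG ⊢
  rw [← mha_comp_mul x hx]
  exact hI _ hG _

/-- The elements of degree `c` of a sum of a multihomogeneous ideal and of a principal one. -/
theorem mh_mem_sup {I : Ideal (MvPolynomial (Σ b, V b) E)} (hI : MH I) {c d : B → ℕ}
    (x : MvPolynomial (Σ b, V b) E) (hx : x ∈ Sc E V d) (F : MvPolynomial (Σ b, V b) E)
    (hF : F ∈ Sc E V (c + d)) (h : F ∈ I ⊔ Ideal.span {x}) : ∃ G ∈ Sc E V c, F - x * G ∈ I := by
  obtain ⟨i, hi, y, hy, hiy⟩ := Submodule.mem_sup.1 h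
  obtain ⟨a, rfl⟩ := Ideal.mem_span_singleton'.1 hy
  refine ⟨weightedHomogeneousComponent wgt c a, weightedHomogeneousComponent_mem _ _ _, ?_⟩
  have h1 : weightedHomogeneousComponent wgt (c + d) F = F :=
    IsWeightedHomogeneous.weightedHomogeneousComponent_same hF
  have h2 : F - x * weightedHomogeneousComponent wgt c a =
      weightedHomogeneousComponent wgt (c + d) i := by
    rw [← hiy, map_add, mha_comp_mul x hx, hiy] at h1
    rw [mul_comm x, sub_eq_iff_eq_add]
    exact h1.symm
  rw [h2]
  exact hI i hi _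

private theorem mha_rank (I : Ideal (MvPolynomial (Σ b, V b) E)) (c : B → ℕ) :
    KST.hI I c = (Module.finrank E (Sc E V c) : ℤ) -
      (Module.finrank E (Sc E V c ⊓ I.restrictScalars E :
        Submodule E (MvPolynomial (Σ b, V b) E)) : ℤ) := by
  have hfd : FiniteDimensional E (Sc E V c) := Module.Finite.iff_fg.2 (sc_fg c)
  set f := (Ideal.Quotient.mkₐ E I).toLinearMap with hf
  have h1 := LinearMap.finrank_range_add_finrank_ker (f.domRestrict (Sc E V c))
  rw [LinearMap.range_domRestrict] at h1
  have h2 : (LinearMap.ker (f.domRestrict (Sc E V c))).map (Sc E V c).subtype =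
      Sc E V c ⊓ I.restrictScalars E := by
    ext F
    constructor
    · rintro ⟨G, hG, rfl⟩
      refine ⟨G.2, ?_⟩
      have h3 : f (G : MvPolynomial (Σ b, V b) E) = 0 := hG
      exact Ideal.Quotient.eq_zero_iff_mem.1 h3
    · rintro ⟨h3, h4⟩
      exact ⟨⟨F, h3⟩, Ideal.Quotient.eq_zero_iff_mem.2 h4, rfl⟩
  have h3 := Submodule.finrank_map_subtype_eq (Sc E V c)
    (LinearMap.ker (f.domRestrict (Sc E V c)))
  rw [h2] at h3
  rw [h3]
  unfold KST.hI
  rw [← h1]
  push_cast
  ring

theorem hI_exact {I : Ideal (MvPolynomial (Σ b, V b) E)} (hI : MH I) (x : Σ b, V b)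
    (c : B → ℕ) : KST.hI I (c + Pi.single x.1 1) =
      KST.hI (I.colon (Ideal.span {(X x : MvPolynomial (Σ b, V b) E)} :
        Ideal (MvPolynomial (Σ b, V b) E))) c +
      KST.hI (I ⊔ Ideal.span {X x}) (c + Pi.single x.1 1) := by
  classical
  set e : B → ℕ := Pi.single x.1 1 with he
  have hX : (X x : MvPolynomial (Σ b, V b) E) ∈ Sc E V e := sc_X x
  have hfd : ∀ c : B → ℕ, FiniteDimensional E (Sc E V c) := fun c =>
    Module.Finite.iff_fg.2 (sc_fg c)
  have hfdU := hfd (c + e)
  have hfdc := hfd c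
  rw [mha_rank, mha_rank, mha_rank]
  set μ : MvPolynomial (Σ b, V b) E →ₗ[E] MvPolynomial (Σ b, V b) E :=
    LinearMap.mulLeft E (X x) with hμ
  have hμi : Function.Injective μ := by
    intro u v huv
    exact mul_left_cancel₀ (X_ne_zero x) huv
  have hμf : ∀ p : Submodule E (MvPolynomial (Σ b, V b) E),
      Module.finrank E (p.map μ) = Module.finrank E p := fun p =>
    (Submodule.equivMapOfInjective μ hμi p).finrank_eq.symm
  have h1 : (Sc E V (c + e) ⊓ I.restrictScalars E) ⊔ (Sc E V c).map μ =
      Sc E V (c + e) ⊓ (I ⊔ Ideal.span {X x}).restrictScalars E := by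
    refine le_antisymm (sup_le ?_ ?_) ?_
    · rintro F ⟨h2, h3⟩
      exact ⟨h2, Ideal.mem_sup_left h3⟩
    · rintro _ ⟨G, hG, rfl⟩
      refine ⟨?_, ?_⟩
      · have h4 := sc_mul hG hX
        rw [mul_comm] at h4
        exact h4
      · refine Ideal.mem_sup_right ?_
        exact Ideal.mul_mem_right _ _ (Ideal.subset_span rfl)
    · rintro F ⟨h2, h3⟩
      obtain ⟨G, hG, hFG⟩ := mh_mem_sup hI (X x) hX F h2 h3
      have h5 : F = (F - X x * G) + X x * G := by ring
      rw [h5]
      refine Submodule.add_mem_sup ⟨?_, hFG⟩ ⟨G, hG, rfl⟩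
      refine Submodule.sub_mem _ h2 ?_
      have h4 := sc_mul hG hX
      rw [mul_comm] at h4
      exact h4
  have h2 : (Sc E V (c + e) ⊓ I.restrictScalars E) ⊓ (Sc E V c).map μ =
      (Sc E V c ⊓ (I.colon (Ideal.span {(X x : MvPolynomial (Σ b, V b) E)} :
        Ideal (MvPolynomial (Σ b, V b) E))).restrictScalars E).map μ := by
    refine le_antisymm ?_ ?_
    · rintro _ ⟨⟨h3, h4⟩, ⟨G, hG, rfl⟩⟩
      refine ⟨G, ⟨hG, ?_⟩, rfl⟩
      show G ∈ I.colon _
      rw [Ideal.mem_colon_span_singleton, mul_comm]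
      exact h4
    · rintro _ ⟨G, ⟨hG, hG2⟩, rfl⟩
      have hG3 : G ∈ I.colon (Ideal.span {(X x : MvPolynomial (Σ b, V b) E)} :
        Ideal (MvPolynomial (Σ b, V b) E)) := hG2
      rw [Ideal.mem_colon_span_singleton, mul_comm] at hG3
      refine ⟨⟨?_, hG3⟩, ⟨G, hG, rfl⟩⟩
      have h4 := sc_mul hG hX
      rw [mul_comm] at h4
      exact h4
  have hfs : FiniteDimensional E (Sc E V (c + e) ⊓ I.restrictScalars E :
      Submodule E (MvPolynomial (Σ b, V b) E)) := Submodule.finiteDimensional_of_le inf_le_left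
  have h3 := Submodule.finrank_sup_add_finrank_inf_eq (Sc E V (c + e) ⊓ I.restrictScalars E)
    ((Sc E V c).map μ)
  rw [h1, h2, hμf, hμf] at h3
  have h4 : ((Module.finrank E (Sc E V (c + e) ⊓ (I ⊔ Ideal.span {X x}).restrictScalars E :
      Submodule E (MvPolynomial (Σ b, V b) E)) : ℕ) : ℤ) +
      ((Module.finrank E (Sc E V c ⊓ (I.colon (Ideal.span {(X x : MvPolynomial (Σ b, V b) E)} :
        Ideal (MvPolynomial (Σ b, V b) E))).restrictScalars E :
        Submodule E (MvPolynomial (Σ b, V b) E)) : ℕ) : ℤ) =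
      ((Module.finrank E (Sc E V (c + e) ⊓ I.restrictScalars E :
        Submodule E (MvPolynomial (Σ b, V b) E)) : ℕ) : ℤ) +
        ((Module.finrank E (Sc E V c) : ℕ) : ℤ) := by exact_mod_cast h3
  linarith

end Pool.Agent.KST
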