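import Pool.Agent.KST.Mha

/-!
# KST MHB: Hilbert functions are eventually polynomial

Noetherian induction on the multihomogeneous ideal `I` (`IsNoetherianRing`, well founded `>`).
Suppose that the statement is true for all multihomogeneous ideals `J > I`. `B` and the `V b` are
finite.
(1) If for some block `b` all the variables of the block are in `I`, then `hI I c = 0` for
`c b ≥ 1` (every monomial of degree `c` is divisible by a variable of the block), `EvP 0`.
(2) Suppose that there is a variable `x ∉ I`, of the block `b`, with `(I : x) ≠ I`. Both `(I : x)` and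
`I ⊔ (x)` are larger than `I` and multihomogeneous, so by `hI_exact`
`c ↦ hI I (c + e_b)` is `EvP d` for some `d`, and `EvP.unshift`.
(3) Otherwise for every block `b` there is a variable `x_b ∉ I` with `(I : x_b) = I`, so by `hI_exact`
`Dl e_b (hI I) c = hI (I ⊔ (x_b)) (c + e_b)` is `EvP d_b`; with `d = max d_b` all the first
differences are in `EvP d`, i.e. `EvP (d + 1) (hI I)`.
-/

open MvPolynomial

namespace Pool.Agent.KST

variable {E B : Type*} [Field E] [DecidableEq B] [Fintype B] {V : B → Type*} [∀ b, Fintype (V b)]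

omit [Fintype B] [∀ b, Fintype (V b)] in
private lemma mem_of_block (I : Ideal (MvPolynomial (Σ b, V b) E)) (b : B)
    (hb : ∀ x : Σ b, V b, x.1 = b → (X x : MvPolynomial (Σ b, V b) E) ∈ I) (c : B → ℕ)
    (hc : c b ≠ 0) (F : MvPolynomial (Σ b, V b) E) (hF : F ∈ Sc E V c) : F ∈ I := by
  have hle : Ideal.span (X '' {x : Σ b, V b | x.1 = b}) ≤ I := by
    rw [Ideal.span_le]
    rintro _ ⟨x, hx, rfl⟩
    exact hb x hx
  refine hle ?_
  rw [MvPolynomial.mem_ideal_span_X_image]
  intro m hm
  have hw := (mem_sc c F).1 hF (MvPolynomial.mem_support_iff.1 hm)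
  by_contra hcon
  push Not at hcon
  refine hc ?_
  rw [← hw, Finsupp.weight_apply, Finsupp.sum, Finset.sum_apply]
  refine Finset.sum_eq_zero fun i _ => ?_
  by_cases hi : i.1 = b
  · rw [hcon i hi, zero_smul, Pi.zero_apply]
  · rw [Pi.smul_apply, wgt, Pi.single_eq_of_ne (Ne.symm hi), smul_zero]

theorem mh_evp (I : Ideal (MvPolynomial (Σ b, V b) E)) (hI : MH I) :
    ∃ d, EvP d (KST.hI I) := by
  revert hI
  refine IsNoetherian.induction (R := MvPolynomial (Σ b, V b) E)
    (M := MvPolynomial (Σ b, V b) E) (P := fun I => MH I → ∃ d, EvP d (KST.hI I)) ?_ I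
  intro I ih hI
  have hXspan : ∀ x : Σ b, V b,
      MH (Ideal.span {(X x : MvPolynomial (Σ b, V b) E)}) := fun x => by
    have h := mh_span (E := E) (V := V) (κ := Unit) (fun _ => X x) (fun _ => Pi.single x.1 1)
      (fun _ => sc_X x)
    rwa [Set.range_const] at h
  by_cases h1 : ∃ b : B, ∀ x : Σ b, V b, x.1 = b → (X x : MvPolynomial (Σ b, V b) E) ∈ I
  · obtain ⟨b, hb⟩ := h1
    refine ⟨0, Pi.single b 1, fun c hc => ?_⟩
    have hcb : c b ≠ 0 := by
      have h : (1 : ℕ) ≤ c b := by
        have h' := hc b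
        rwa [Pi.single_eq_same] at h'
      omega
    have hbot : (Sc E V c).map (Ideal.Quotient.mkₐ E I).toLinearMap = ⊥ := by
      rw [eq_bot_iff, Submodule.map_le_iff_le_comap]
      intro F hF
      change Ideal.Quotient.mk I F = 0
      exact Ideal.Quotient.eq_zero_iff_mem.2 (mem_of_block I b hb c hcb F hF)
    rw [KST.hI, hbot, finrank_bot]
    rfl
  · push Not at h1
    have hlt : ∀ x : Σ b, V b, (X x : MvPolynomial (Σ b, V b) E) ∉ I →
        I < I ⊔ Ideal.span {(X x : MvPolynomial (Σ b, V b) E)} := fun x hx => by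
      refine lt_of_le_of_ne le_sup_left fun h => hx ?_
      rw [h]
      exact Ideal.mem_sup_right (Ideal.mem_span_singleton_self _)
    by_cases h2 : ∃ x : Σ b, V b, (X x : MvPolynomial (Σ b, V b) E) ∉ I ∧
        I.colon (Ideal.span {(X x : MvPolynomial (Σ b, V b) E)} :
          Ideal (MvPolynomial (Σ b, V b) E)) ≠ I
    · obtain ⟨x, hx, hne⟩ := h2
      have hle : I ≤ I.colon (Ideal.span {(X x : MvPolynomial (Σ b, V b) E)} :
          Ideal (MvPolynomial (Σ b, V b) E)) := by
        intro F hF
        rw [Submodule.mem_colon]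
        intro G _
        exact Ideal.mul_mem_right _ _ hF
      obtain ⟨d₁, H₁⟩ := ih _ (lt_of_le_of_ne hle (Ne.symm hne)) (mh_colon hI (X x) (sc_X x))
      obtain ⟨d₂, H₂⟩ := ih _ (hlt x hx) (mh_sup hI (hXspan x))
      refine ⟨max d₁ d₂, EvP.unshift (Pi.single x.1 1) ?_⟩
      have hfun : (fun c => KST.hI I (c + Pi.single x.1 1)) = fun c =>
          KST.hI (I.colon (Ideal.span {(X x : MvPolynomial (Σ b, V b) E)} :
            Ideal (MvPolynomial (Σ b, V b) E))) c +
          (fun c => KST.hI (I ⊔ Ideal.span {(X x : MvPolynomial (Σ b, V b) E)})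
            (c + Pi.single x.1 1)) c := by
        funext c
        exact hI_exact hI x c
      rw [hfun]
      exact EvP.add (EvP.mono (le_max_left _ _) H₁)
        (EvP.shift _ (EvP.mono (le_max_right _ _) H₂))
    · push Not at h2
      choose x hxb hxI using h1
      have key : ∀ b, ∃ d, EvP d (Dl (Pi.single b 1) (KST.hI I)) := by
        intro b
        obtain ⟨d, H⟩ := ih _ (hlt (x b) (hxI b)) (mh_sup hI (hXspan (x b)))
        refine ⟨d, ?_⟩
        have hfun : Dl (Pi.single b 1) (KST.hI I) = fun c =>
            KST.hI (I ⊔ Ideal.span {(X (x b) : MvPolynomial (Σ b, V b) E)})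
              (c + Pi.single b 1) := by
          funext c
          have h := hI_exact hI (x b) c
          rw [h2 (x b) (hxI b), hxb b] at h
          rw [Dl, h]
          ring
        rw [hfun]
        exact EvP.shift _ H
      choose d hd using key
      exact ⟨Finset.univ.sup d + 1, fun b =>
        EvP.mono (Finset.le_sup (f := d) (Finset.mem_univ b)) (hd b)⟩

end Pool.Agent.KST
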