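import Pool.Agent.KST.Tr

/-!
# KST NUMB: the numerical condition in dimension three

`ω n = om A n = 1 A ^ n` (row vectors), `ω (-n) = om B n`; invariance
`T(uA, vA, wA) = T(u, v, w)`.

`pos_num`: `A ^ n = d ^ n P + O(r₁ ^ n)`, so `T(ω n, 1, 1) = d ^ n p + O(r₁ ^ n)` with `p = T(θ, 1, 1)`,
`θ j = ∑ i, P i j` (`tri_bound`). By `hgA` for `ρ` with `max r₁ 1 ≤ r₁ < ρ < d`:
`ρ ^ n ≤ K₁ (1 + d ^ n p + C r₁ ^ n)` for all large `n`; `K₁ > 0` as `T(ω n,1,1) ≥ 0`; so `p > 0`. Then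
`T(ω n,1,1) ≥ (p / 2) d ^ n` for `n` large.

`numb`: `|ω n i|, |ω (-n) i| ≤ card ι * C * d ^ n`; with `tri_bound` there is `C₁ ≥ 0` with
`|T(u,v,w)| ≤ C₁ x y z` if `|u| ≤ x' ..`: let `C₁` be such that `T(ω i, ω j, ω k) ≤ C₁ d ^ (|i| + |j| + |k|)` for all
integers `i, j, k`. Let `α = ω 0 + τ ω m`, `d ^ N / d ^ m ≤ τ ≤ 2 d ^ N / d ^ m`, `N ≤ m`, `n₀ ≤ m`. By invariance
(shift by `-N`, `-m`):
`T(α,α,ω N) = T(1,1,ω N) + 2 τ T(1,ω m,ω N) + τ ^ 2 T(ω m,ω m,ω N)`, `T(1,ω m,ω N) = T(ω (-N), ω (m-N), 1) ≤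
C₁ d ^ m`, `T(ω m,ω m,ω N) = T(1,1,ω (N-m)) ≤ C₁ d ^ (m-N)`: so `T(α,α,ω N) ≤ 9 C₁ d ^ N`.
`T(α,ω N,ω N) = T(ω (-N),1,1) + τ T(ω (m-N),1,1) ≤ C₁ d ^ N + 2 C₁ ≤ 3 C₁ d ^ N`. `T(ω N,ω N,ω N) = T(1,1,1) ≤ C₁`.
`T(α,α,α) ≥ 3 τ T(1,1,ω m) ≥ 3 p₀ d ^ N` (the other terms are nonnegative by `hn`).
So the condition holds if `|M| (27 κ C₁ + 9 κ ^ 2 C₁ + κ ^ 3 C₁) < 3 p₀`; choose `κ` small.
-/

open Filter Topology

namespace Pool.Agent.KST

variable {ι : Type*} [Fintype ι] [DecidableEq ι]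

private theorem om_bound (A : Matrix ι ι ℤ) (d C : ℝ) (hd : 1 < d)
    (hA : ∀ (n : ℕ) (i j : ι), |(((A ^ n) i j : ℤ) : ℝ)| ≤ C * d ^ n) (n : ℕ) (i : ι) :
    |om A n i| ≤ (Fintype.card ι * |C|) * d ^ n := by
  unfold om
  refine (Finset.abs_sum_le_sum_abs _ _).trans ?_
  have : ∀ j ∈ (Finset.univ : Finset ι), |(((A ^ n) j i : ℤ) : ℝ)| ≤ |C| * d ^ n := by
    intro j _
    refine (hA n j i).trans ?_
    exact mul_le_mul_of_nonneg_right (le_abs_self C) (by positivity)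
  refine (Finset.sum_le_sum this).trans ?_
  rw [Finset.sum_const, nsmul_eq_mul, Finset.card_univ, mul_assoc]

theorem pos_num (A : Matrix ι ι ℤ) (t : ι → ι → ι → ℝ)
    (hn : ∀ i j k : ℕ, 0 ≤ Tri t (om A i) (om A j) (om A k))
    (d r₁ C : ℝ) (hd : 1 < d) (h1 : 1 ≤ r₁) (hr₁ : r₁ < d) (P : Matrix ι ι ℝ)
    (hA : ∀ (n : ℕ) (i j : ι), |(((A ^ n) i j : ℤ) : ℝ) - d ^ n * P i j| ≤ C * r₁ ^ n)
    (K₁ : ℝ) (hgA : ∀ ρ, 0 < ρ → ρ < d → ∀ᶠ n : ℕ in atTop,
      ρ ^ n ≤ K₁ * (1 + Tri t (om A n) (om A 0) (om A 0))) :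
    ∃ p₀ : ℝ, 0 < p₀ ∧ ∃ n₀ : ℕ, ∀ n, n₀ ≤ n →
      p₀ * d ^ n ≤ Tri t (om A n) (om A 0) (om A 0) := by
  obtain ⟨K, hK0, hK⟩ := tri_bound t
  set θ : ι → ℝ := fun i => ∑ j, P j i with hθ
  set p : ℝ := Tri t θ (om A 0) (om A 0) with hp
  -- a bound for `om A 0`
  obtain ⟨b, hb⟩ : ∃ b : ℝ, ∀ i, |om A 0 i| ≤ b := by
    refine ⟨∑ i, |om A 0 i|, fun i => ?_⟩
    exact Finset.single_le_sum (f := fun i => |om A 0 i|) (fun j _ => abs_nonneg _)
      (Finset.mem_univ i)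
  have hbb : 0 ≤ b * b := mul_self_nonneg b
  set L : ℝ := K * (Fintype.card ι * |C|) * b * b with hL
  have hL0 : 0 ≤ L := by
    have : 0 ≤ K * (Fintype.card ι * |C|) := by positivity
    rw [hL, mul_assoc]
    exact mul_nonneg this hbb
  have hkey : ∀ n : ℕ, |Tri t (om A n) (om A 0) (om A 0) - d ^ n * p| ≤ L * r₁ ^ n := by
    intro n
    have e : om A n = (d ^ n) • θ + (fun i => om A n i - d ^ n * θ i) := by
      funext i
      simp
    have e2 : Tri t (om A n) (om A 0) (om A 0) = d ^ n * p +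
        Tri t (fun i => om A n i - d ^ n * θ i) (om A 0) (om A 0) := by
      conv_lhs => rw [e]
      rw [tri_add₁, tri_smul₁]
    rw [e2, add_sub_cancel_left]
    have hD : ∀ i, |om A n i - d ^ n * θ i| ≤ (Fintype.card ι * |C|) * r₁ ^ n := by
      intro i
      have : om A n i - d ^ n * θ i = ∑ j, ((((A ^ n) j i : ℤ) : ℝ) - d ^ n * P j i) := by
        unfold om
        rw [hθ, Finset.mul_sum, ← Finset.sum_sub_distrib]
      rw [this]
      refine (Finset.abs_sum_le_sum_abs _ _).trans ?_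
      have h3 : ∀ j ∈ (Finset.univ : Finset ι),
          |(((A ^ n) j i : ℤ) : ℝ) - d ^ n * P j i| ≤ |C| * r₁ ^ n := by
        intro j _
        refine (hA n j i).trans ?_
        exact mul_le_mul_of_nonneg_right (le_abs_self C) (by positivity)
      refine (Finset.sum_le_sum h3).trans ?_
      rw [Finset.sum_const, nsmul_eq_mul, Finset.card_univ, mul_assoc]
    refine (hK _ _ _ _ _ _ hD hb hb).trans (le_of_eq ?_)
    rw [hL]
    ring
  have hd0 : 0 < d := by linarith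
  have hr0 : 0 < r₁ := by linarith
  -- `p > 0`
  have hppos : 0 < p := by
    by_contra hcon
    push Not at hcon
    set ρ : ℝ := (r₁ + d) / 2 with hρ
    have hρ1 : r₁ < ρ := by rw [hρ]; linarith
    have hρ2 : ρ < d := by rw [hρ]; linarith
    have hρ0 : 0 < ρ := by linarith
    have hev := hgA ρ hρ0 hρ2
    have hbig : Tendsto (fun n : ℕ => (ρ / r₁) ^ n) atTop atTop := by
      apply tendsto_pow_atTop_atTop_of_one_lt
      rw [lt_div_iff₀ hr0]
      linarith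
    have hev2 := hbig.eventually_gt_atTop (|K₁| * (1 + L))
    obtain ⟨n, hn1, hn2⟩ := (hev.and hev2).exists
    have hT0 := hn n 0 0
    have hr1n : 1 ≤ r₁ ^ n := one_le_pow₀ h1
    have hTle : Tri t (om A n) (om A 0) (om A 0) ≤ L * r₁ ^ n := by
      have h4 := (abs_le.mp (hkey n)).2
      have h5 : d ^ n * p ≤ 0 := mul_nonpos_of_nonneg_of_nonpos (by positivity) hcon
      linarith
    have h6 : ρ ^ n ≤ |K₁| * ((1 + L) * r₁ ^ n) := by
      refine hn1.trans ?_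
      refine (mul_le_mul_of_nonneg_right (le_abs_self K₁) (by linarith)).trans ?_
      refine mul_le_mul_of_nonneg_left ?_ (abs_nonneg _)
      nlinarith
    have h7 : (ρ / r₁) ^ n ≤ |K₁| * (1 + L) := by
      rw [div_pow, div_le_iff₀ (by positivity)]
      linarith
    linarith
  refine ⟨p / 2, by linarith, ?_⟩
  have hsm : Tendsto (fun n : ℕ => L * (r₁ / d) ^ n) atTop (𝓝 0) := by
    have : Tendsto (fun n : ℕ => (r₁ / d) ^ n) atTop (𝓝 0) := by
      apply tendsto_pow_atTop_nhds_zero_of_lt_one (by positivity)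
      rw [div_lt_one hd0]
      exact hr₁
    simpa using this.const_mul L
  have hev3 := hsm.eventually_lt_const (show (0 : ℝ) < p / 2 by linarith)
  obtain ⟨n₀, hn₀⟩ := eventually_atTop.mp hev3
  refine ⟨n₀, fun n hnn => ?_⟩
  have h8 := hn₀ n hnn
  have h9 : L * r₁ ^ n ≤ p / 2 * d ^ n := by
    rw [div_pow, ← mul_div_assoc, div_lt_iff₀ (by positivity)] at h8
    exact h8.le
  have h10 := (abs_le.mp (hkey n)).1
  linarith

private theorem om_add (A : Matrix ι ι ℤ) (k s : ℕ) :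
    om A (k + s) = Matrix.vecMul (om A k) ((A ^ s).map (Int.cast : ℤ → ℝ)) := by
  funext i
  simp only [om, Matrix.vecMul, dotProduct, Matrix.map_apply, pow_add, Matrix.mul_apply,
    Int.cast_sum, Int.cast_mul]
  rw [Finset.sum_comm]
  refine Finset.sum_congr rfl fun j _ => ?_
  rw [Finset.sum_mul]

private theorem om_neg (A B : Matrix ι ι ℤ) (hAB : A * B = 1) (k s : ℕ) :
    om A k = Matrix.vecMul (om B s) ((A ^ (k + s)).map (Int.cast : ℤ → ℝ)) := by
  have hBA : B * A = 1 := mul_eq_one_comm.mp hAB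
  have h1 : ∀ s : ℕ, B ^ s * A ^ s = 1 := by
    intro s
    induction s with
    | zero => simp
    | succ s ih =>
      rw [pow_succ B, pow_succ' A, mul_assoc, ← mul_assoc B A, hBA, one_mul, ih]
  have h2 : B ^ s * A ^ (k + s) = A ^ k := by
    rw [add_comm, pow_add, ← mul_assoc, h1, one_mul]
  funext i
  simp only [om, Matrix.vecMul, dotProduct, Matrix.map_apply]
  rw [← h2]
  simp only [Matrix.mul_apply, Int.cast_sum, Int.cast_mul]
  rw [Finset.sum_comm]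
  refine Finset.sum_congr rfl fun j _ => ?_
  rw [Finset.sum_mul]

private theorem inv_pow (A : Matrix ι ι ℤ) (t : ι → ι → ι → ℝ)
    (hinv : ∀ u v w : ι → ℝ, Tri t (Matrix.vecMul u (A.map (Int.cast : ℤ → ℝ)))
        (Matrix.vecMul v (A.map (Int.cast : ℤ → ℝ)))
        (Matrix.vecMul w (A.map (Int.cast : ℤ → ℝ))) = Tri t u v w) (s : ℕ) (u v w : ι → ℝ) :
    Tri t (Matrix.vecMul u ((A ^ s).map (Int.cast : ℤ → ℝ)))
        (Matrix.vecMul v ((A ^ s).map (Int.cast : ℤ → ℝ)))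
        (Matrix.vecMul w ((A ^ s).map (Int.cast : ℤ → ℝ))) = Tri t u v w := by
  induction s generalizing u v w with
  | zero =>
    have : ((A ^ 0).map (Int.cast : ℤ → ℝ)) = 1 := by
      rw [pow_zero]
      exact Matrix.map_one _ Int.cast_zero Int.cast_one
    rw [this, Matrix.vecMul_one, Matrix.vecMul_one, Matrix.vecMul_one]
  | succ s ih =>
    have : ((A ^ (s + 1)).map (Int.cast : ℤ → ℝ)) =
        ((A ^ s).map (Int.cast : ℤ → ℝ)) * (A.map (Int.cast : ℤ → ℝ)) := by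
      rw [pow_succ]
      exact Matrix.map_mul_intCast _ _
    rw [this, ← Matrix.vecMul_vecMul, ← Matrix.vecMul_vecMul, ← Matrix.vecMul_vecMul, hinv, ih]

theorem numb (A B : Matrix ι ι ℤ) (hAB : A * B = 1) (t : ι → ι → ι → ℝ)
    (hs₁ : ∀ i j k, t i j k = t j i k) (hs₂ : ∀ i j k, t i j k = t i k j)
    (hinv : ∀ u v w : ι → ℝ, Tri t (Matrix.vecMul u (A.map (Int.cast : ℤ → ℝ)))
        (Matrix.vecMul v (A.map (Int.cast : ℤ → ℝ)))
        (Matrix.vecMul w (A.map (Int.cast : ℤ → ℝ))) = Tri t u v w)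
    (hn : ∀ i j k : ℕ, 0 ≤ Tri t (om A i) (om A j) (om A k))
    (d C : ℝ) (hd : 1 < d) (hA : ∀ (n : ℕ) (i j : ι), |(((A ^ n) i j : ℤ) : ℝ)| ≤ C * d ^ n)
    (hB : ∀ (n : ℕ) (i j : ι), |(((B ^ n) i j : ℤ) : ℝ)| ≤ C * d ^ n)
    (p₀ : ℝ) (hp₀ : 0 < p₀) (n₀ : ℕ) (hp : ∀ n, n₀ ≤ n →
      p₀ * d ^ n ≤ Tri t (om A n) (om A 0) (om A 0)) (M : ℝ) :
    ∃ κ : ℝ, 0 < κ ∧ ∀ N m : ℕ, N ≤ m → n₀ ≤ m → ∀ τ : ℝ, d ^ N / d ^ m ≤ τ →
      τ ≤ 2 * (d ^ N / d ^ m) →
      M * (3 * κ * Tri t (om A 0 + τ • om A m) (om A 0 + τ • om A m) (om A N) +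
        3 * κ ^ 2 * Tri t (om A 0 + τ • om A m) (om A N) (om A N) +
        κ ^ 3 * Tri t (om A N) (om A N) (om A N)) <
      Tri t (om A 0 + τ • om A m) (om A 0 + τ • om A m) (om A 0 + τ • om A m) := by
  obtain ⟨K, hK0, hK⟩ := tri_bound t
  set c : ℝ := Fintype.card ι * |C| with hc
  have hc0 : 0 ≤ c := by positivity
  have hd0 : 0 < d := by linarith
  have bA := om_bound A d C hd hA
  have bB := om_bound B d C hd hB
  rw [← hc] at bA bB
  set C₁ : ℝ := K * c * c * c with hC₁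
  have hC₁0 : 0 ≤ C₁ := by positivity
  -- symmetries
  have s1 : ∀ u v w, Tri t u v w = Tri t v u w := tri_swap₁ t hs₁
  have s2 : ∀ u v w, Tri t u v w = Tri t u w v := tri_swap₂ t hs₂
  have add2 : ∀ u v v' w, Tri t u (v + v') w = Tri t u v w + Tri t u v' w := by
    intro u v v' w
    rw [s1, tri_add₁, s1 v, s1 v']
  have add3 : ∀ u v w w', Tri t u v (w + w') = Tri t u v w + Tri t u v w' := by
    intro u v w w'
    rw [s2, add2, s2 u w, s2 u w']
  have smul2 : ∀ (r : ℝ) u v w, Tri t u (r • v) w = r * Tri t u v w := by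
    intro r u v w
    rw [s1, tri_smul₁, s1 v]
  have smul3 : ∀ (r : ℝ) u v w, Tri t u v (r • w) = r * Tri t u v w := by
    intro r u v w
    rw [s2, smul2, s2 u w]
  have bound : ∀ (u v w : ι → ℝ) (a b e : ℕ), (∀ i, |u i| ≤ c * d ^ a) → (∀ i, |v i| ≤ c * d ^ b) →
      (∀ i, |w i| ≤ c * d ^ e) → Tri t u v w ≤ C₁ * d ^ (a + b + e) := by
    intro u v w a b e hu hv hw
    refine (le_abs_self _).trans ((hK u v w _ _ _ hu hv hw).trans (le_of_eq ?_))
    rw [hC₁, pow_add, pow_add]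
    ring
  set κ : ℝ := min 1 (p₀ / (37 * |M| * C₁ + 1)) with hκ
  have hden : 0 < 37 * |M| * C₁ + 1 := by positivity
  have hκ0 : 0 < κ := lt_min one_pos (by positivity)
  have hκ1 : κ ≤ 1 := min_le_left _ _
  have hκ2 : κ * (37 * |M| * C₁ + 1) ≤ p₀ := by
    have := min_le_right 1 (p₀ / (37 * |M| * C₁ + 1))
    rw [← hκ, le_div_iff₀ hden] at this
    exact this
  refine ⟨κ, hκ0, fun N m hNm hn₀m τ hτ1 hτ2 => ?_⟩
  have hdN : 0 < d ^ N := by positivity
  have hdm : 0 < d ^ m := by positivity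
  have hdN1 : 1 ≤ d ^ N := one_le_pow₀ hd.le
  have hτ0 : 0 < τ := lt_of_lt_of_le (by positivity) hτ1
  have hτm : τ * d ^ m ≤ 2 * d ^ N := by
    have := mul_le_mul_of_nonneg_right hτ2 hdm.le
    rwa [mul_assoc, div_mul_cancel₀ _ hdm.ne'] at this
  have hτm' : d ^ N ≤ τ * d ^ m := by
    have := mul_le_mul_of_nonneg_right hτ1 hdm.le
    rwa [div_mul_cancel₀ _ hdm.ne'] at this
  have hsplit : d ^ m = d ^ N * d ^ (m - N) := by
    rw [← pow_add]
    congr 1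
    omega
  have hdmN : 0 < d ^ (m - N) := by positivity
  have hτmN : τ * d ^ (m - N) ≤ 2 := by
    have : τ * d ^ (m - N) * d ^ N ≤ 2 * d ^ N := by
      calc τ * d ^ (m - N) * d ^ N = τ * d ^ m := by rw [hsplit]; ring
        _ ≤ 2 * d ^ N := hτm
    exact le_of_mul_le_mul_right this hdN
  have hτ2' : τ ≤ 2 := by
    have : 1 ≤ d ^ (m - N) := one_le_pow₀ hd.le
    nlinarith
  -- the six bounds
  have e0 : om A 0 = Matrix.vecMul (om B N) ((A ^ N).map (Int.cast : ℤ → ℝ)) := by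
    have := om_neg A B hAB 0 N
    rwa [zero_add] at this
  have eN : om A N = Matrix.vecMul (om A 0) ((A ^ N).map (Int.cast : ℤ → ℝ)) := by
    have := om_add A 0 N
    rwa [zero_add] at this
  have em : om A m = Matrix.vecMul (om A (m - N)) ((A ^ N).map (Int.cast : ℤ → ℝ)) := by
    have := om_add A (m - N) N
    rwa [Nat.sub_add_cancel hNm] at this
  have em' : om A m = Matrix.vecMul (om A 0) ((A ^ m).map (Int.cast : ℤ → ℝ)) := by
    have := om_add A 0 m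
    rwa [zero_add] at this
  have eN' : om A N = Matrix.vecMul (om B (m - N)) ((A ^ m).map (Int.cast : ℤ → ℝ)) := by
    have := om_neg A B hAB N (m - N)
    rwa [Nat.add_sub_cancel' hNm] at this
  have b1 : Tri t (om A 0) (om A 0) (om A N) ≤ C₁ * d ^ N := by
    have := bound _ _ _ _ _ _ (bA 0) (bA 0) (bA N)
    simpa using this
  have b2 : Tri t (om A 0) (om A m) (om A N) ≤ C₁ * d ^ m := by
    rw [e0, em, eN, inv_pow A t hinv]
    have := bound _ _ _ _ _ _ (bB N) (bA (m - N)) (bA 0)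
    have e : N + (m - N) + 0 = m := by omega
    rwa [e] at this
  have b3 : Tri t (om A m) (om A m) (om A N) ≤ C₁ * d ^ (m - N) := by
    rw [em', eN', inv_pow A t hinv]
    have := bound _ _ _ _ _ _ (bA 0) (bA 0) (bB (m - N))
    simpa using this
  have b4 : Tri t (om A 0) (om A N) (om A N) ≤ C₁ * d ^ N := by
    rw [e0, eN, inv_pow A t hinv]
    have := bound _ _ _ _ _ _ (bB N) (bA 0) (bA 0)
    simpa using this
  have b5 : Tri t (om A m) (om A N) (om A N) ≤ C₁ * d ^ (m - N) := by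
    rw [em, eN, inv_pow A t hinv]
    have := bound _ _ _ _ _ _ (bA (m - N)) (bA 0) (bA 0)
    simpa using this
  have b6 : Tri t (om A N) (om A N) (om A N) ≤ C₁ := by
    rw [eN, inv_pow A t hinv]
    have := bound _ _ _ _ _ _ (bA 0) (bA 0) (bA 0)
    simpa using this
  -- expansions
  have x1 : Tri t (om A 0 + τ • om A m) (om A 0 + τ • om A m) (om A N) =
      Tri t (om A 0) (om A 0) (om A N) + 2 * τ * Tri t (om A 0) (om A m) (om A N) +
        τ ^ 2 * Tri t (om A m) (om A m) (om A N) := by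
    rw [tri_add₁, add2, add2, tri_smul₁, tri_smul₁, smul2, smul2, s1 (om A m) (om A 0)]
    ring
  have x2 : Tri t (om A 0 + τ • om A m) (om A N) (om A N) =
      Tri t (om A 0) (om A N) (om A N) + τ * Tri t (om A m) (om A N) (om A N) := by
    rw [tri_add₁, tri_smul₁]
  have X1 : Tri t (om A 0 + τ • om A m) (om A 0 + τ • om A m) (om A N) ≤ 9 * C₁ * d ^ N := by
    rw [x1]
    have h2 : 2 * τ * Tri t (om A 0) (om A m) (om A N) ≤ 4 * C₁ * d ^ N := by
      calc 2 * τ * Tri t (om A 0) (om A m) (om A N) ≤ 2 * τ * (C₁ * d ^ m) :=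
            mul_le_mul_of_nonneg_left b2 (by positivity)
        _ = 2 * C₁ * (τ * d ^ m) := by ring
        _ ≤ 2 * C₁ * (2 * d ^ N) := mul_le_mul_of_nonneg_left hτm (by positivity)
        _ = 4 * C₁ * d ^ N := by ring
    have h3 : τ ^ 2 * Tri t (om A m) (om A m) (om A N) ≤ 4 * C₁ * d ^ N := by
      calc τ ^ 2 * Tri t (om A m) (om A m) (om A N) ≤ τ ^ 2 * (C₁ * d ^ (m - N)) :=
            mul_le_mul_of_nonneg_left b3 (by positivity)
        _ = τ * C₁ * (τ * d ^ (m - N)) := by ring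
        _ ≤ τ * C₁ * 2 := mul_le_mul_of_nonneg_left hτmN (by positivity)
        _ ≤ 2 * C₁ * 2 := by nlinarith
        _ ≤ 4 * C₁ * d ^ N := by nlinarith
    linarith
  have X2 : Tri t (om A 0 + τ • om A m) (om A N) (om A N) ≤ 3 * C₁ * d ^ N := by
    rw [x2]
    have h2 : τ * Tri t (om A m) (om A N) (om A N) ≤ 2 * C₁ * d ^ N := by
      calc τ * Tri t (om A m) (om A N) (om A N) ≤ τ * (C₁ * d ^ (m - N)) :=
            mul_le_mul_of_nonneg_left b5 hτ0.le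
        _ = C₁ * (τ * d ^ (m - N)) := by ring
        _ ≤ C₁ * 2 := mul_le_mul_of_nonneg_left hτmN hC₁0
        _ ≤ 2 * C₁ * d ^ N := by nlinarith
    linarith
  have X3 : Tri t (om A N) (om A N) (om A N) ≤ C₁ * d ^ N := by nlinarith
  have X1' : 0 ≤ Tri t (om A 0 + τ • om A m) (om A 0 + τ • om A m) (om A N) := by
    rw [x1]
    have := hn 0 0 N
    have h2 := mul_nonneg (by positivity : 0 ≤ 2 * τ) (hn 0 m N)
    have h3 := mul_nonneg (by positivity : 0 ≤ τ ^ 2) (hn m m N)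
    linarith
  have X2' : 0 ≤ Tri t (om A 0 + τ • om A m) (om A N) (om A N) := by
    rw [x2]
    have := hn 0 N N
    have h2 := mul_nonneg hτ0.le (hn m N N)
    linarith
  have X3' := hn N N N
  -- the right hand side
  have x4 : Tri t (om A 0 + τ • om A m) (om A 0 + τ • om A m) (om A 0 + τ • om A m) =
      Tri t (om A 0) (om A 0) (om A 0) + 3 * τ * Tri t (om A m) (om A 0) (om A 0) +
        3 * τ ^ 2 * Tri t (om A m) (om A m) (om A 0) +
          τ ^ 3 * Tri t (om A m) (om A m) (om A m) := by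
    simp only [tri_add₁, add2, add3, tri_smul₁, smul2, smul3]
    rw [s2 (om A 0) (om A 0) (om A m), s1 (om A 0) (om A m) (om A 0),
      s2 (om A m) (om A 0) (om A m), s1 (om A 0) (om A m) (om A m), s2 (om A m) (om A 0) (om A m)]
    ring
  have X4 : 3 * p₀ * d ^ N ≤
      Tri t (om A 0 + τ • om A m) (om A 0 + τ • om A m) (om A 0 + τ • om A m) := by
    rw [x4]
    have h1 := hn 0 0 0
    have h2 := mul_nonneg (by positivity : 0 ≤ 3 * τ ^ 2) (hn m m 0)
    have h3 := mul_nonneg (by positivity : 0 ≤ τ ^ 3) (hn m m m)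
    have h4 : 3 * τ * (p₀ * d ^ m) ≤ 3 * τ * Tri t (om A m) (om A 0) (om A 0) :=
      mul_le_mul_of_nonneg_left (hp m hn₀m) (by positivity)
    have h5 : 3 * p₀ * d ^ N ≤ 3 * τ * (p₀ * d ^ m) := by
      calc 3 * p₀ * d ^ N ≤ 3 * p₀ * (τ * d ^ m) :=
            mul_le_mul_of_nonneg_left hτm' (by positivity)
        _ = 3 * τ * (p₀ * d ^ m) := by ring
    linarith
  refine lt_of_lt_of_le ?_ X4
  -- the left hand side
  have hκ2' : κ ^ 2 ≤ κ := by nlinarith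
  have hκ3' : κ ^ 3 ≤ κ := by nlinarith [sq_nonneg κ]
  set X := Tri t (om A 0 + τ • om A m) (om A 0 + τ • om A m) (om A N)
  set Y := Tri t (om A 0 + τ • om A m) (om A N) (om A N)
  set Z := Tri t (om A N) (om A N) (om A N)
  have hsum0 : 0 ≤ 3 * κ * X + 3 * κ ^ 2 * Y + κ ^ 3 * Z := by positivity
  have hsum1 : 3 * κ * X + 3 * κ ^ 2 * Y + κ ^ 3 * Z ≤ 37 * κ * (C₁ * d ^ N) := by
    have h1 : 3 * κ * X ≤ 3 * κ * (9 * C₁ * d ^ N) := mul_le_mul_of_nonneg_left X1 (by positivity)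
    have h2 : 3 * κ ^ 2 * Y ≤ 3 * κ * (3 * C₁ * d ^ N) := by
      refine mul_le_mul (by linarith) X2 X2' (by positivity)
    have h3 : κ ^ 3 * Z ≤ κ * (C₁ * d ^ N) := mul_le_mul hκ3' X3 X3' hκ0.le
    linarith
  have hfin : M * (3 * κ * X + 3 * κ ^ 2 * Y + κ ^ 3 * Z) ≤ |M| * (37 * κ * (C₁ * d ^ N)) :=
    (mul_le_mul_of_nonneg_right (le_abs_self M) hsum0).trans
      (mul_le_mul_of_nonneg_left hsum1 (abs_nonneg M))
  have hlt : |M| * (37 * κ * (C₁ * d ^ N)) < 3 * p₀ * d ^ N := by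
    have : |M| * (37 * κ * C₁) < 3 * p₀ := by nlinarith
    calc |M| * (37 * κ * (C₁ * d ^ N)) = |M| * (37 * κ * C₁) * d ^ N := by ring
      _ < 3 * p₀ * d ^ N := mul_lt_mul_of_pos_right this hdN
  linarith

end Pool.Agent.KST
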