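import Pool.Agent.KST.Forms

/-!
# KST REPB: the coordinates of all the blocks are forms in one block

`rep_up`: let `G`, `e` be the local forms of `f` on `X`. For `j₀ ≤ j` use the charts
`chart G (j - j₀) χ` (`LLX`/`SAND`: `chart_locF` for `F : X → X` the restriction of `f`) at the point
`f^[j₀] y ∈ X`: forms `P_w` of degree `D = e ^ (j - j₀)` with
`eval (seg (f^[j₀] y')) (P_w) = c(y') seg (f^[j] y') w` for all `y'`, with a chart `χ` for which
`c(y) ≠ 0`. For a fixed `w₀` with `seg (f^[j] y) w₀ ≠ 0` let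
`lam y' = c(y') * ∏_{i' ≠ i} ((f^[j] y') i').rep (w₀ i')`, so that
`lam y' * ((f^[j] y') i).rep k = c(y') seg (f^[j] y') (update w₀ i k) =
eval (seg (f^[j₀] y')) (P (update w₀ i k))`, which is in `Rm .. (bk j₀ (fun _ => D))` by
`forms_block`; `lam y ≠ 0`.
`rep_down`: the same for `j ≤ j₀`, with the forms of `g`: for `y' ∈ X`,
`g^[j₀ - j] (f^[j₀] y') = f^[j] y'`.
-/

open MvPolynomial
open scoped LinearAlgebra.Projectivization

namespace Pool.Agent.KST

open Pool.Agent.Helper90.KSC Pool.Agent.Helper63.SAND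

variable {E ι : Type*} [Field E] [Fintype ι] [DecidableEq ι] {N : ι → ℕ}

omit [Fintype ι] in
private theorem bk_add' {n : ℕ} (j : Fin (n + 1)) (v w : ι → ℕ) :
    (bk j (v + w) : Fin (n + 1) × ι → ℕ) = bk j v + bk j w := by
  funext b
  simp only [bk, Pi.add_apply]
  split_ifs <;> simp

omit [Fintype ι] in
private theorem bk_smul' {n : ℕ} (j : Fin (n + 1)) (k D : ℕ) :
    k • (bk j (fun _ => D) : Fin (n + 1) × ι → ℕ) = bk j (fun _ => D * k) := by
  funext b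
  simp only [bk, Pi.smul_apply, smul_eq_mul]
  split_ifs
  · ring
  · rw [mul_zero]

/-- The common part of the two theorems. -/
private theorem rep_aux (Y : Set (PPt E N)) (f : PPt E N → PPt E N) (n : ℕ) (j₀ j : Fin (n + 1))
    (i : ι) (D : ℕ) (T : Type) (P : T → SIx N → MvPolynomial (SIx N) E)
    (hP : ∀ t w, (P t w).IsHomogeneous D)
    (h1 : ∀ t, ∀ y : Y, ∃ c : E, ∀ w, eval (seg (f^[j₀] (y : PPt E N))) (P t w) =
      c * seg (f^[j] (y : PPt E N)) w)
    (h2 : ∀ y : Y, ∃ t w, eval (seg (f^[j₀] (y : PPt E N))) (P t w) ≠ 0) :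
    ∀ y : Y, ∃ lam : Y → E, lam y ≠ 0 ∧
      ∀ k, lam * cf Y f n (j, i) k ∈ Rm (Lf Y f n) (bk j₀ (fun _ => D)) := by
  classical
  intro y
  obtain ⟨t, w₀, hw₀⟩ := h2 y
  choose c hc using h1 t
  have hne : c y * seg (f^[j] (y : PPt E N)) w₀ ≠ 0 := by rw [← hc]; exact hw₀
  have hcy : c y ≠ 0 := left_ne_zero_of_mul hne
  have hsy : ∏ i', ((f^[j] (y : PPt E N)) i').rep (w₀ i') ≠ 0 := right_ne_zero_of_mul hne
  refine ⟨fun y' => c y' * ∏ i' ∈ Finset.univ.erase i, ((f^[j] (y' : PPt E N)) i').rep (w₀ i'),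
    ?_, ?_⟩
  · refine mul_ne_zero hcy (Finset.prod_ne_zero_iff.2 fun i' _ => ?_)
    exact Finset.prod_ne_zero_iff.1 hsy i' (Finset.mem_univ _)
  · intro k
    rw [forms_block]
    refine ⟨P t (Function.update w₀ i k), hP _ _, fun y' => ?_⟩
    rw [hc y' (Function.update w₀ i k)]
    have h3 : seg (f^[j] (y' : PPt E N)) (Function.update w₀ i k) =
        (∏ i' ∈ Finset.univ.erase i, ((f^[j] (y' : PPt E N)) i').rep (w₀ i')) *
          ((f^[j] (y' : PPt E N)) i).rep k := by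
      unfold seg
      rw [← Finset.prod_erase_mul _ _ (Finset.mem_univ i), Function.update_self]
      congr 1
      refine Finset.prod_congr rfl fun i' hi' => ?_
      rw [Function.update_of_ne (Finset.ne_of_mem_erase hi')]
    rw [h3, Pi.mul_apply]
    change _ * _ * ((f^[j] (y' : PPt E N)) i).rep k = _
    ring

omit [DecidableEq ι] in
/-- The charts of an iterate. -/
private theorem iter_aux (X : Set (PPt E N)) (f : PPt E N → PPt E N) (hf : Set.MapsTo f X X)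
    (hloc : LocallyByForms X f) (m : ℕ) :
    ∃ (D : ℕ) (T : Type) (P : T → SIx N → MvPolynomial (SIx N) E),
      (∀ t w, (P t w).IsHomogeneous D) ∧
      (∀ t, ∀ x ∈ X, ∃ c : E, ∀ w, eval (seg x) (P t w) = c * seg (f^[m] x) w) ∧
      ∀ x ∈ X, ∃ t w, eval (seg x) (P t w) ≠ 0 := by
  obtain ⟨e, t, G, hG1, hG2, hG3⟩ := hloc
  let F : X → X := fun x => ⟨f x, hf x.2⟩
  have hF : ∀ (m : ℕ) (x : X), ((F^[m] x : X) : PPt E N) = f^[m] (x : PPt E N) := by
    intro m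
    induction m with
    | zero => intro x; rfl
    | succ m ih =>
      intro x
      rw [Function.iterate_succ_apply, Function.iterate_succ_apply, ih]
  have h := chart_locF (fun x : X => seg (x : PPt E N)) (fun x => seg_ne_zero _) F e G
    ⟨hG1, fun s x => hG2 s x x.2, fun x => hG3 x x.2⟩ m
  refine ⟨e ^ m, Fin m → Fin t, chart G m, h.1, fun τ x hx => ?_, fun x hx => ?_⟩
  · obtain ⟨c, hc⟩ := h.2.1 τ ⟨x, hx⟩
    refine ⟨c, fun w => ?_⟩
    have h1 := hc w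
    simp only [hF] at h1
    exact h1
  · obtain ⟨τ, w, hw⟩ := h.2.2 ⟨x, hx⟩
    exact ⟨τ, w, hw⟩

theorem rep_up (X : Set (PPt E N)) (f : PPt E N → PPt E N) (hf : Set.MapsTo f X X)
    (hloc : LocallyByForms X f) (Y : Set (PPt E N)) (hY : Y ⊆ X) (n : ℕ) (j₀ j : Fin (n + 1))
    (hj : j₀ ≤ j) (i : ι) : ∃ D : ℕ, ∀ y : Y, ∃ lam : Y → E, lam y ≠ 0 ∧
      ∀ k, lam * cf Y f n (j, i) k ∈ Rm (Lf Y f n) (bk j₀ (fun _ => D)) := by
  obtain ⟨D, T, P, hP, h1, h2⟩ := iter_aux X f hf hloc (j - j₀ : ℕ)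
  have hX : ∀ y : Y, f^[j₀] (y : PPt E N) ∈ X := fun y => hf.iterate _ (hY y.2)
  have hjj : (j - j₀ : ℕ) + (j₀ : ℕ) = j := Nat.sub_add_cancel hj
  refine ⟨D, rep_aux Y f n j₀ j i D T P hP (fun t y => ?_) (fun y => h2 _ (hX y))⟩
  obtain ⟨c, hc⟩ := h1 t _ (hX y)
  refine ⟨c, fun w => ?_⟩
  rw [hc w, ← Function.iterate_add_apply, hjj]

theorem rep_down (X : Set (PPt E N)) (f g : PPt E N → PPt E N) (hf : Set.MapsTo f X X)
    (hg : Set.MapsTo g X X) (hgf : ∀ x ∈ X, g (f x) = x) (hloc : LocallyByForms X g)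
    (n : ℕ) (j₀ j : Fin (n + 1)) (hj : j ≤ j₀) (i : ι) :
    ∃ D : ℕ, ∀ y : X, ∃ lam : X → E, lam y ≠ 0 ∧
      ∀ k, lam * cf X f n (j, i) k ∈ Rm (Lf X f n) (bk j₀ (fun _ => D)) := by
  obtain ⟨D, T, P, hP, h1, h2⟩ := iter_aux X g hg hloc (j₀ - j : ℕ)
  have hX : ∀ (m : ℕ) (y : X), f^[m] (y : PPt E N) ∈ X := fun m y => hf.iterate _ y.2
  have hinv : ∀ (m : ℕ), ∀ x ∈ X, g^[m] (f^[m] x) = x := by
    intro m
    induction m with
    | zero => intro x _; rfl
    | succ m ih =>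
      intro x hx
      rw [Function.iterate_succ_apply' f, Function.iterate_succ_apply g,
        hgf _ (hf.iterate m hx), ih x hx]
  have hjj : (j₀ - j : ℕ) + (j : ℕ) = j₀ := Nat.sub_add_cancel hj
  refine ⟨D, rep_aux X f n j₀ j i D T P hP (fun t y => ?_) (fun y => h2 _ (hX _ y))⟩
  obtain ⟨c, hc⟩ := h1 t _ (hX j₀ y)
  refine ⟨c, fun w => ?_⟩
  have h3 : f^[j₀] (y : PPt E N) = f^[(j₀ - j : ℕ)] (f^[j] (y : PPt E N)) := by
    rw [← Function.iterate_add_apply, hjj]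
  rw [hc w]
  congr 2
  rw [h3]
  exact hinv _ _ (hX j y)

private theorem pow_le_aux {𝒜 : Type*} [CommRing 𝒜] [Algebra E 𝒜] (M N : Submodule E 𝒜)
    (h : M ≤ N) (k : ℕ) : M ^ k ≤ N ^ k := by
  induction k with
  | zero => rw [pow_zero, pow_zero]
  | succ k ih =>
    rw [pow_succ, pow_succ]
    exact mul_le_mul' ih h

private theorem prod_le_aux {𝒜 B : Type*} [CommRing 𝒜] [Algebra E 𝒜] (s : Finset B)
    (M N : B → Submodule E 𝒜) (h : ∀ b, M b ≤ N b) : ∏ b ∈ s, M b ≤ ∏ b ∈ s, N b := by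
  classical
  induction s using Finset.induction_on with
  | empty => rw [Finset.prod_empty, Finset.prod_empty]
  | insert b s hb ih =>
    rw [Finset.prod_insert hb, Finset.prod_insert hb]
    exact mul_le_mul' (h b) ih

/-- Clearing the coordinates of the other blocks. -/
theorem rep_form (Y : Set (PPt E N)) (f : PPt E N → PPt E N) (n : ℕ) (j₀ : Fin (n + 1))
    (hrep : ∀ (j : Fin (n + 1)) (i : ι), ∃ D : ℕ, ∀ y : Y, ∃ lam : Y → E, lam y ≠ 0 ∧
      ∀ k, lam * cf Y f n (j, i) k ∈ Rm (Lf Y f n) (bk j₀ (fun _ => D))) :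
    ∃ D : ℕ, ∀ c : Fin (n + 1) × ι → ℕ, ∀ y : Y, ∃ lam : Y → E, lam y ≠ 0 ∧
      ∀ F ∈ Rm (Lf Y f n) c, lam * F ∈ Rm (Lf Y f n) (bk j₀ (fun _ => D * ∑ b, c b)) := by
  classical
  choose D₀ hD₀ using hrep
  let D : ℕ := ∑ b : Fin (n + 1) × ι, D₀ b.1 b.2
  have hD : ∀ b : Fin (n + 1) × ι, D₀ b.1 b.2 ≤ D := fun b =>
    Finset.single_le_sum (f := fun b : Fin (n + 1) × ι => D₀ b.1 b.2) (fun _ _ => Nat.zero_le _)
      (Finset.mem_univ b)
  refine ⟨D, fun c y => ?_⟩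
  have key : ∀ b : Fin (n + 1) × ι, ∃ lam : Y → E, lam y ≠ 0 ∧
      Submodule.span E {lam} * Lf Y f n b ≤ Rm (Lf Y f n) (bk j₀ (fun _ => D)) := by
    intro b
    obtain ⟨lam, hlam, hk⟩ := hD₀ b.1 b.2 y
    obtain ⟨w₁, hw₁⟩ := Function.ne_iff.1 (seg_ne_zero (f^[j₀] (y : PPt E N)))
    let s : Y → E := fun y' => eval (seg (f^[j₀] (y' : PPt E N)))
      ((X w₁ : MvPolynomial (SIx N) E) ^ (D - D₀ b.1 b.2))
    have hs : s ∈ Rm (Lf Y f n) (bk j₀ (fun _ => D - D₀ b.1 b.2)) := by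
      rw [forms_block]
      refine ⟨_, ?_, fun y' => rfl⟩
      have h5 := (isHomogeneous_X E w₁).pow (D - D₀ b.1 b.2)
      rwa [one_mul] at h5
    have hsy : s y ≠ 0 := by
      change eval _ _ ≠ 0
      rw [map_pow, eval_X]
      exact pow_ne_zero _ hw₁
    have hdeg : (bk j₀ (fun _ => D - D₀ b.1 b.2) : Fin (n + 1) × ι → ℕ) +
        bk j₀ (fun _ => D₀ b.1 b.2) = bk j₀ (fun _ => D) := by
      rw [← bk_add']
      congr 1
      funext _
      exact Nat.sub_add_cancel (hD b)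
    refine ⟨s * lam, mul_ne_zero hsy hlam, ?_⟩
    rw [Lf, Submodule.span_mul_span, Submodule.span_le]
    rintro _ ⟨a, ha, v, ⟨k, rfl⟩, rfl⟩
    rw [Set.mem_singleton_iff] at ha
    subst ha
    rw [SetLike.mem_coe, ← hdeg]
    change s * lam * cf Y f n b k ∈ _
    rw [mul_assoc]
    exact rm_mul_mem _ hs (hk k)
  choose lam hlam hle using key
  refine ⟨∏ b, lam b ^ c b, ?_, ?_⟩
  · rw [Finset.prod_apply]
    exact Finset.prod_ne_zero_iff.2 fun b _ => by
      rw [Pi.pow_apply]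
      exact pow_ne_zero _ (hlam b)
  · intro F hF
    have h1 : (∏ b, lam b ^ c b) ∈ ∏ b, (Submodule.span E {lam b}) ^ c b := by
      have h6 : (∏ b, (Submodule.span E {lam b}) ^ c b) =
          Submodule.span E {∏ b, lam b ^ c b} := by
        rw [← Submodule.prod_span_singleton]
        refine Finset.prod_congr rfl fun b _ => ?_
        rw [Submodule.span_pow, Set.singleton_pow]
      rw [h6]
      exact Submodule.mem_span_singleton_self _
    have h2 : (∏ b, lam b ^ c b) * F ∈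
        (∏ b, (Submodule.span E {lam b}) ^ c b) * Rm (Lf Y f n) c := Submodule.mul_mem_mul h1 hF
    have h3 : (∏ b, (Submodule.span E {lam b}) ^ c b) * Rm (Lf Y f n) c =
        ∏ b, (Submodule.span E {lam b} * Lf Y f n b) ^ c b := by
      rw [Rm, ← Finset.prod_mul_distrib]
      exact Finset.prod_congr rfl fun b _ => (mul_pow _ _ _).symm
    have h4 : (∏ b, (Submodule.span E {lam b} * Lf Y f n b) ^ c b) ≤
        ∏ b : Fin (n + 1) × ι, (Rm (Lf Y f n) (bk j₀ (fun _ => D))) ^ c b :=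
      prod_le_aux _ _ _ fun b => pow_le_aux _ _ (hle b) _
    rw [Finset.prod_pow_eq_pow_sum, ← rm_smul, bk_smul'] at h4
    rw [h3] at h2
    exact h4 h2

end Pool.Agent.KST
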