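import Pool.Agent.KST.Dns
import Pool.Agent.KST.Den

/-!
# KST SLP: a point of the orbit on a slow curve

`V = {y | ∀ I, eval (seg y) (Gc I) = 0}` is closed (`zc_forms`, `hGc.hom`) and does not contain `X`. The
orbit is infinite (`inj_of_dense`, `inf_of_deg`). `degree_one` (LLC/Deg1) gives `C`; `den` gives `L ≥ 1`.
Suppose that no `f^[j] x` is on a slow curve. For `n = L q ≥ 2`, for every `i < q` there is `j` with
`L i ≤ j < L (i + 1)` and `f^[j] x ∉ V`, so `j ∈ J`. So `q ≤ card J ≤ C (log (L q)) ^ 3` for all large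
`q`, a contradiction (`isLittleO_log_id_atTop` / `Real.isLittleO_pow_log_id_atTop`).
-/

open MvPolynomial
open scoped LinearAlgebra.Projectivization

namespace Pool.Agent.KST

open Pool.Agent.Helper90.KSC Pool.Agent.Helper63.SAND Pool.Agent.Helper63.WH Pool.Agent.PW
  Pool.Agent.LLX Pool.Agent.LLC

variable {E ι : Type*} [Field E] [CharZero E] [Algebra.IsAlgebraic ℚ E] [IsAlgClosed E]
  [Fintype ι] [DecidableEq ι] {N : ι → ℕ}

theorem slow_pt (X : Set (PPt E N)) (e₀ : ℕ) (f g : PPt E N → PPt E N) (A B : Matrix ι ι ℤ)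
    (h : Aut3 X e₀ f g A B) (hsm : SmoothDim X 3) (r₀ m₁ : ℕ) (hr₀ : 1 ≤ r₀)
    (Gc : (Fin 4 → SIx N) × (Fin m₁ → SIx N) → MvPolynomial (SIx N) E)
    (hGc : AntiCan (fun x : X => seg (x : PPt E N)) 3 r₀ m₁ Gc)
    (hG0 : ∃ I, ∃ x ∈ X, eval (seg x) (Gc I) ≠ 0) (x : PPt E N) (hx : x ∈ X)
    (ha : AbsArithDegree f x 1) (hd : DenseOrbit X f x) :
    ∃ j, OnSlowCurve X f (f^[j] x) := by
  classical
  by_contra hcon
  push Not at hcon
  have hV : ZClosed {y : PPt E N | ∀ I, eval (seg y) (Gc I) = 0} :=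
    zc_forms Gc (fun _ => r₀ * (3 + 1) + m₁) hGc.hom
  have hXV : ¬ X ⊆ {y : PPt E N | ∀ I, eval (seg y) (Gc I) = 0} := by
    intro hsub
    obtain ⟨I, y, hy, hne⟩ := hG0
    exact hne (hsub hy I)
  have hinf := inf_of_deg X 3 e₀ (by norm_num) h.e1 h.deg
  have hinj := inj_of_dense X hinf f x hd
  obtain ⟨L, hL, hden⟩ := den X h.cl h.irr f h.mf h.lf x hx hd hinj _ hV hXV
  obtain ⟨C, hC⟩ := degree_one X h.cl h.irr 3 e₀ h.deg hsm f h.mf h.lf A h.af r₀ m₁ hr₀ Gc hGc
    x hx ha hinj
  choose t ht1 ht2 using hden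
  have hmain : ∀ q : ℕ, 2 ≤ q → (q : ℝ) ≤ C * Real.log ((L * q : ℕ) : ℝ) ^ 3 := by
    intro q hq
    have hLq : 2 ≤ L * q := le_trans hq (Nat.le_mul_of_pos_left q hL)
    obtain ⟨J, hJ1, hJ2⟩ := hC (L * q) hLq
    refine le_trans ?_ hJ1
    have hcard : (Finset.range q).card ≤ J.card := by
      refine Finset.card_le_card_of_injOn (fun i => L * i + t (L * i)) ?_ ?_
      · intro i hi
        have hi' : i < q := Finset.mem_range.1 hi
        have hlt : L * i + t (L * i) < L * q := by
          have h1 := ht1 (L * i)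
          have h2 : L * (i + 1) ≤ L * q := Nat.mul_le_mul_left L hi'
          have h3 : L * (i + 1) = L * i + L := by ring
          omega
        by_contra hJ
        refine hcon _ (hJ2 _ hlt hJ ?_)
        have h4 := ht2 (L * i)
        rw [Set.mem_ofPred_eq, not_forall] at h4
        exact h4
      · intro i _ i' _ heq
        have h1 := ht1 (L * i)
        have h2 := ht1 (L * i')
        simp only at heq
        rcases lt_trichotomy i i' with hlt | hlt | hlt
        · exfalso
          have h3 : L * (i + 1) ≤ L * i' := Nat.mul_le_mul_left L hlt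
          have h4 : L * (i + 1) = L * i + L := by ring
          omega
        · exact hlt
        · exfalso
          have h3 : L * (i' + 1) ≤ L * i := Nat.mul_le_mul_left L hlt
          have h4 : L * (i' + 1) = L * i' + L := by ring
          omega
    rw [Finset.card_range] at hcard
    exact_mod_cast hcard
  have hLpos : (0 : ℝ) < L := by exact_mod_cast hL
  have hCpos : (0 : ℝ) < (C : ℝ) + 1 := by positivity
  have hlo := (Real.isLittleO_pow_log_id_atTop (n := 3)).def
    (c := 1 / (2 * ((C : ℝ) + 1) * L)) (by positivity)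
  have htend : Filter.Tendsto (fun q : ℕ => ((L * q : ℕ) : ℝ)) Filter.atTop Filter.atTop := by
    refine tendsto_natCast_atTop_atTop.comp ?_
    exact Filter.tendsto_id.const_mul_atTop' hL
  have hev := htend.eventually hlo
  obtain ⟨q, hq1, hq2⟩ := (hev.and (Filter.eventually_ge_atTop 2)).exists
  have h1 := hmain q hq2
  have hqpos : (0 : ℝ) < q := by
    have : 0 < q := by omega
    exact_mod_cast this
  have h2 : Real.log ((L * q : ℕ) : ℝ) ^ 3 ≤ 1 / (2 * ((C : ℝ) + 1) * L) * (L * q) := by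
    have h3 := le_trans (le_abs_self _) hq1
    have h4 : ‖id ((L * q : ℕ) : ℝ)‖ = (L : ℝ) * q := by
      rw [id, Real.norm_eq_abs, abs_of_nonneg (Nat.cast_nonneg _)]
      push_cast
      ring
    rwa [h4] at h3
  have h5 : 1 / (2 * ((C : ℝ) + 1) * L) * (L * q) = (q : ℝ) / (2 * (C + 1)) := by
    field_simp
  rw [h5] at h2
  have h6 : (q : ℝ) ≤ C * ((q : ℝ) / (2 * (C + 1))) :=
    h1.trans (mul_le_mul_of_nonneg_left h2 (Nat.cast_nonneg _))
  have h7 : (C : ℝ) * ((q : ℝ) / (2 * (C + 1))) < q := by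
    rw [mul_div_assoc', div_lt_iff₀ (by positivity)]
    nlinarith [(Nat.cast_nonneg C : (0 : ℝ) ≤ C)]
  linarith

end Pool.Agent.KST
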