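import Pool.Agent.KST.Irml
import Pool.Agent.LLC.Few

/-!
# KST SURF: an irreducible surface between a curve and the threefold

`Q = idl C`, `P = idl X`, `HP` (`idl_HP`), `P ≤ Q`. `noeth`, `rank_finite`, `basis`, `hil_limit` and the
uniqueness of dimension and degree (`few_unique` in LLC/Few.lean is private: copy it; see the proof of
`slow_vec`) give `NN P z` with `z : Fin 4 → _` and `RankLE P z e`, and `NN Q z'` with
`z' : Fin 2 → _`. `P ≠ Q` (the Hilbert functions are different), so there are `F ∈ Q`, `F ∉ P`, and a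
homogeneous component `F₁` of `F` is not in `P`; it is in `Q`. `comp` (`PW/Comp.lean`) gives the finite
set `S` of primes `Q₁ ≥ P` with `NN Q₁ (z₁ : Fin (d' + 1) → _)`, `d' + 1 = 3`, whose zeros cover the
zeros of `P` and `F₁`. `C` is covered by the closed sets `{y | seg y ∈ Zeros Q₁}`, so it is contained
in one of them (`Irred.iUnion` in Helper90/KSC/Zar.lean, or by contradiction with a product of forms
and `primeH_seg`). `S₁ = {y ∈ X | seg y ∈ Zeros Q₁}`. It is closed; irreducible: if `S₁ ⊆ E₁ ∪ E₂`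
closed and there are `y_i ∈ S₁ \ E_i`, there are multihomogeneous polynomials and, by multiplication
by monomials, forms `R_i` in the Segre coordinates (`seglift`, PW/Segl.lean) vanishing on `E_i` and
not at `y_i`; `R₁ R₂` vanishes on `S₁`, so it is in `Q₁` (`null`, PW/Null.lean: a form which vanishes on
`{y ∈ X | seg y ∈ Zeros Q₁}` is in `Q₁`), so `R₁` or `R₂` is in `Q₁`: contradiction. Nonempty: it
contains `C`. `S₁` is the zero set: `F₁ ∈ Q₁`? For the conclusion we need a form in `Q₁ \ P` and a form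
in `Q \ Q₁`: `Q₁ ≠ P` and `Q ≠ Q₁` as their dimensions are `2`, `3` and `1`, `2` (if `Q₁ = P` the
Hilbert function would have two different orders of growth, `hil_limit`), and the ideals are
homogeneous.
-/

open MvPolynomial Filter Topology
open scoped LinearAlgebra.Projectivization

namespace Pool.Agent.KST

open Pool.Agent.Helper90.KSC Pool.Agent.Helper63.SAND Pool.Agent.PW

/-- dimension and degree are determined by the Hilbert function -/
private theorem surf_lt {u : ℕ → ℝ} {d d' : ℕ} {e e' : ℝ}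
    (h : Tendsto (fun k : ℕ => u k * (d.factorial : ℝ) / (k : ℝ) ^ d) atTop (𝓝 e))
    (h' : Tendsto (fun k : ℕ => u k * (d'.factorial : ℝ) / (k : ℝ) ^ d') atTop (𝓝 e'))
    (he' : e' ≠ 0) : ¬ d < d' := by
  intro hlt
  apply he'
  have h1 : Tendsto (fun k : ℕ => (u k * (d.factorial : ℝ) / (k : ℝ) ^ d) *
      (((d'.factorial : ℝ) / (d.factorial : ℝ)) * (1 / (k : ℝ) ^ (d' - d)))) atTop
      (𝓝 (e * (((d'.factorial : ℝ) / (d.factorial : ℝ)) * 0))) := by
    refine h.mul (Tendsto.const_mul _ ?_)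
    have h2 : Tendsto (fun k : ℕ => ((k : ℝ) ^ (d' - d))) atTop atTop :=
      (tendsto_pow_atTop (by omega)).comp tendsto_natCast_atTop_atTop
    have h3 := h2.inv_tendsto_atTop
    simp only [one_div]
    exact h3
  rw [mul_zero, mul_zero] at h1
  refine tendsto_nhds_unique h' (h1.congr' ?_)
  filter_upwards [eventually_gt_atTop 0] with k hk
  have hk0 : (0 : ℝ) < k := by exact_mod_cast hk
  have hf : (d.factorial : ℝ) ≠ 0 := by exact_mod_cast (Nat.factorial_pos d).ne'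
  have h2 : (k : ℝ) ^ d' = (k : ℝ) ^ d * (k : ℝ) ^ (d' - d) := by
    rw [← pow_add]
    congr 1
    omega
  rw [h2]
  field_simp

private theorem surf_unique {u : ℕ → ℝ} {d d' : ℕ} {e e' : ℝ}
    (h : Tendsto (fun k : ℕ => u k * (d.factorial : ℝ) / (k : ℝ) ^ d) atTop (𝓝 e))
    (h' : Tendsto (fun k : ℕ => u k * (d'.factorial : ℝ) / (k : ℝ) ^ d') atTop (𝓝 e'))
    (he : e ≠ 0) (he' : e' ≠ 0) : d = d' ∧ e = e' := by
  have h1 := surf_lt h h' he'
  have h2 := surf_lt h' h he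
  have h3 : d = d' := by omega
  subst h3
  exact ⟨rfl, tendsto_nhds_unique h h'⟩

variable {E ι : Type*} [Field E] [Fintype ι] [DecidableEq ι] {N : ι → ℕ}

omit [DecidableEq ι] in
private theorem surf_mem {Z : Set (PPt E N)} {F : MvPolynomial (SIx N) E} {k : ℕ}
    (hF : F.IsHomogeneous k) : F ∈ idl Z ↔ ∀ x ∈ Z, eval (seg x) F = 0 := by
  constructor
  · intro h x hx
    have h1 : eval (seg x) (homogeneousComponent k F) = 0 := h k x hx
    rwa [homogeneousComponent_of_mem ((mem_homogeneousSubmodule _ _).2 hF), if_pos rfl] at h1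
  · intro h j x hx
    rw [homogeneousComponent_of_mem ((mem_homogeneousSubmodule _ _).2 hF)]
    split_ifs
    · exact h x hx
    · exact map_zero _

private theorem surf_hom {W : Type*} {P Q : Ideal (MvPolynomial W E)}
    (hQ : ∀ F ∈ Q, ∀ k : ℕ, homogeneousComponent k F ∈ Q) (hPQ : P ≤ Q) (hne : P ≠ Q) :
    ∃ (k : ℕ) (F : MvPolynomial W E), F.IsHomogeneous k ∧ F ∈ Q ∧ F ∉ P := by
  obtain ⟨F, hF, hFP⟩ : ∃ F ∈ Q, F ∉ P := by
    by_contra hcon
    push Not at hcon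
    exact hne (le_antisymm hPQ hcon)
  by_contra hcon
  push Not at hcon
  apply hFP
  rw [← sum_homogeneousComponent F]
  exact Ideal.sum_mem _ fun k _ =>
    hcon k _ (homogeneousComponent_isHomogeneous k F) (hQ F hF k)

omit [DecidableEq ι] in
/-- The number of elements of a Noether normalisation is determined. -/
private theorem surf_dim [CharZero E] (Z : Set (PPt E N)) (d₀ e₀ : ℕ) (he₀ : 1 ≤ e₀)
    (hdeg : HasDegree Z d₀ e₀) (Q : Ideal (MvPolynomial (SIx N) E)) (hQ : HP Q) {d : ℕ}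
    (z : Fin (d + 1) → MvPolynomial (SIx N) E) (hz : NN Q z) (hZQ : Q = idl Z) : d = d₀ := by
  obtain ⟨e, he⟩ := rank_finite Q hQ.prime z hz
  obtain ⟨e', he'1, -, he'3, m, hm1, hm2⟩ := basis Q hQ.prime z hz e he
  have h1 := hil_limit Q hQ z hz e' he'3 m hm2 hm1 (fun x : Z => seg (x : PPt E N)) (by
    intro F k hF
    rw [hZQ, surf_mem hF]
    constructor
    · intro h x hx
      exact h ⟨x, hx⟩
    · intro h x
      exact h x.1 x.2)
  refine (surf_unique hdeg h1 ?_ ?_).1.symm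
  · have h2 : e₀ ≠ 0 := by omega
    exact_mod_cast h2
  · have h2 : e' ≠ 0 := by omega
    exact_mod_cast h2

theorem surf [IsAlgClosed E] [CharZero E] (X : Set (PPt E N)) (hX : ZClosed X) (hXi : Irred X)
    (e₀ : ℕ) (he₀ : 1 ≤ e₀) (hdeg : HasDegree X 3 e₀) (C : Set (PPt E N)) (hCX : C ⊆ X)
    (hC : ZClosed C) (hCi : Irred C) (e : ℕ) (he : 1 ≤ e) (hdegC : HasDegree C 1 e) :
    ∃ S₁ : Set (PPt E N), C ⊆ S₁ ∧ S₁ ⊆ X ∧ Irred S₁ ∧
      (∃ (D : ℕ) (F : MvPolynomial (SIx N) E), F.IsHomogeneous D ∧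
        (∀ y ∈ S₁, eval (seg y) F = 0) ∧ ∃ y ∈ X, eval (seg y) F ≠ 0) ∧
      ∃ (D : ℕ) (F : MvPolynomial (SIx N) E), F.IsHomogeneous D ∧
        (∀ y ∈ C, eval (seg y) F = 0) ∧ ∃ y ∈ S₁, eval (seg y) F ≠ 0 := by
  classical
  have hP : HP (idl X) := idl_HP X hXi
  have hQ : HP (idl C) := idl_HP C hCi
  have hPQ : idl X ≤ idl C := fun F hF k x hx => hF k x (hCX hx)
  obtain ⟨d, z, hz⟩ := noeth (idl X) hP
  obtain ⟨e₁, he₁⟩ := rank_finite (idl X) hP.prime z hz
  have hd : d = 3 := surf_dim X 3 e₀ he₀ hdeg (idl X) hP z hz rfl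
  have hne : idl X ≠ idl C := by
    intro h
    have h1 : d = 1 := surf_dim C 1 e he hdegC (idl X) hP z hz h
    omega
  obtain ⟨D, F, hF, hFQ, hFP⟩ := surf_hom hQ.hom hPQ hne
  obtain ⟨S, -, hS1, hS2⟩ := comp (idl X) hP z hz e₁ he₁ F D hF hFP
  -- one of the primes is contained in `idl C`
  have hinf : S.inf id ≤ idl C := by
    intro G hG k y hy
    have h1 : seg y ∈ Zeros (idl X) := by
      intro H hH
      rw [← sum_homogeneousComponent H, map_sum]
      exact Finset.sum_eq_zero fun k _ => hH k y (hCX hy)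
    obtain ⟨Q₁, hQ₁S, hQ₁⟩ := hS2 (seg y) (seg_ne_zero y) h1 ((surf_mem hF).1 hFQ y hy)
    have h2 : G ∈ Q₁ := (Finset.inf_le (f := id) hQ₁S : S.inf id ≤ Q₁) hG
    exact hQ₁ _ ((hS1 Q₁ hQ₁S).1.hom G h2 k)
  obtain ⟨Q₁, hQ₁S, hQ₁Q⟩ := (Ideal.IsPrime.inf_le' hQ.prime).1 hinf
  have hQ₁Q : Q₁ ≤ idl C := hQ₁Q
  obtain ⟨hQ₁, hPQ₁, d', z', hd', hz', -⟩ := hS1 Q₁ hQ₁S
  refine ⟨sub X Q₁, ?_, fun y hy => hy.1, sub_irred X hX Q₁ hQ₁ hPQ₁, ?_, ?_⟩
  · intro y hy
    refine ⟨hCX hy, ?_⟩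
    intro G hG
    have h1 := hQ₁Q hG
    rw [← sum_homogeneousComponent G, map_sum]
    exact Finset.sum_eq_zero fun k _ => h1 k y hy
  · have hne₁ : idl X ≠ Q₁ := by
      intro h
      have h1 : d' = 3 := surf_dim X 3 e₀ he₀ hdeg Q₁ hQ₁ z' hz' h.symm
      omega
    obtain ⟨D₁, G, hG, hGQ, hGP⟩ := surf_hom hQ₁.hom hPQ₁ hne₁
    refine ⟨D₁, G, hG, fun y hy => hy.2 G hGQ, ?_⟩
    by_contra hcon
    push Not at hcon
    exact hGP ((surf_mem hG).2 hcon)
  · have hne₁ : Q₁ ≠ idl C := by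
      intro h
      have h1 : d' = 1 := surf_dim C 1 e he hdegC Q₁ hQ₁ z' hz' h
      omega
    obtain ⟨D₁, G, hG, hGQ, hGP⟩ := surf_hom hQ.hom hQ₁Q hne₁
    refine ⟨D₁, G, hG, (surf_mem hG).1 hGQ, ?_⟩
    by_contra hcon
    push Not at hcon
    exact hGP ((null X hX Q₁ hQ₁ hPQ₁ G D₁ hG).1 hcon)

end Pool.Agent.KST
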