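import Pool.Agent.KST.Tr
import Pool.Agent.KST.Evc

/-!
# KST TRIA: descent of the leading form

Let `T = Tri t`. For the relation `(b, d)` of `j < n`, `i`: by `c₃` (with `a = u`, `a' = b` and
`a' = d`; `Dl b (Dl u h) c - Dl d (Dl u h) c = Dl u h (c + b) - Dl u h (c + d) = 0` for `c ≥ c₀`)
`|T(c, u, b) - T(c, u, d)| ≤ C` for all `c ≥ c₀'` (natural vectors), in particular for
`c = c₀' + k v`, `k → ∞`: `T(v, u, b - d) = 0` for all natural `v`, `u`, hence for all real vectors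
(multilinear, the natural vectors `e_q` span). So `T(v, u, e_{(j+1,i)}) = T(v, u, ∑ A i i' e_{(j,i')})`.
By induction on `j`: `T(v, u, e_{(j,i)}) = T(v, u, ∑_{i'} (A^j) i i' e_{(0,i')})` for all `j ≤ n`
(`A^(j+1) = A * A^j`: `(A^(j+1)) i i'' = ∑ A i i' (A^j) i' i''`). With the symmetry, applied in each
argument: `t b b' b'' = T(e_b, e_b', e_b'') = T(ι₀ (cls e_b), ι₀ (cls e_b'), ι₀ (cls e_b''))`, where
`ι₀` puts a vector in the block `0`, and this is `Tri t₀ (cls e_b) (cls e_b') (cls e_b'')` for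
`t₀ i j k = t (0,i) (0,j) (0,k)`, i.e. `pt A t₀ n b b' b''`.
-/

open Filter Topology

namespace Pool.Agent.KST

variable {ι : Type*} [Fintype ι] [DecidableEq ι]

private theorem tria_cls (A : Matrix ι ι ℤ) (n : ℕ) (b : Fin (n + 1) × ι) (i : ι) :
    cls A (Pi.single b 1) i = (((A ^ (b.1 : ℕ)) b.2 i : ℤ) : ℝ) := by
  unfold cls
  rw [Finset.sum_eq_single b]
  · simp
  · intro b' _ hb'
    simp [Pi.single_apply, hb']
  · simp

private theorem tria_zero (x y C : ℝ) (h : ∀ k : ℕ, |x + k * y| ≤ C) : y = 0 := by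
  by_contra hy
  have hy' : 0 < |y| := abs_pos.mpr hy
  obtain ⟨k, hk⟩ := exists_nat_gt ((C + |x|) / |y|)
  have h1 := h k
  have h2 : (k : ℝ) * |y| ≤ C + |x| := by
    have h3 : |(k : ℝ) * y| = |(x + k * y) - x| := by congr 1; ring
    rw [abs_mul, Nat.abs_cast] at h3
    rw [h3]
    calc |x + k * y - x| ≤ |x + k * y| + |x| := abs_sub _ _
      _ ≤ _ := by linarith
  rw [div_lt_iff₀ hy'] at hk
  linarith

private theorem tria_tri2 {B : Type*} [Fintype B] [DecidableEq B] (t : B → B → B → ℝ)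
    (u w : B → ℝ) (q : B) :
    Tri t u (rv (Pi.single q 1)) w = ∑ r, (∑ s, t r q s * w s) * u r := by
  unfold Tri
  refine Finset.sum_congr rfl fun r _ => ?_
  rw [Finset.sum_eq_single q]
  · rw [Finset.sum_mul]
    refine Finset.sum_congr rfl fun s _ => ?_
    simp only [rv, Pi.single_eq_same, Nat.cast_one]
    ring
  · intro j _ hj
    refine Finset.sum_eq_zero fun s _ => ?_
    simp [rv, Pi.single_apply, hj]
  · simp

private theorem tria_rel {B : Type*} [Fintype B] [DecidableEq B] (h : (B → ℕ) → ℤ)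
    (t : B → B → B → ℝ) (ht : Cub h t) (b d c₀ : B → ℕ)
    (hc : ∀ c, c₀ ≤ c → h (c + b) = h (c + d)) (p q : B) :
    ∑ s, t p q s * ((b s : ℝ) - d s) = 0 := by
  obtain ⟨C₁, c₁, h₁⟩ := ht.c₃ (Pi.single q 1) b
  obtain ⟨C₂, c₂, h₂⟩ := ht.c₃ (Pi.single q 1) d
  set c' : B → ℕ := c₀ + c₁ + c₂ with hc'
  refine tria_zero (∑ r, (∑ s, t r q s * ((b s : ℝ) - d s)) * (c' r : ℝ)) _ (C₁ + C₂) ?_
  intro k
  set c : B → ℕ := c' + k • Pi.single p 1 with hcc
  have e0 : c₀ ≤ c := by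
    intro r
    simp only [hcc, hc', Pi.add_apply]
    omega
  have e1 : c₁ ≤ c := by
    intro r
    simp only [hcc, hc', Pi.add_apply]
    omega
  have e2 : c₂ ≤ c := by
    intro r
    simp only [hcc, hc', Pi.add_apply]
    omega
  have f1 := h₁ c e1
  have f2 := h₂ c e2
  rw [tria_tri2] at f1 f2
  have g : Dl b (Dl (Pi.single q 1) h) c = Dl d (Dl (Pi.single q 1) h) c := by
    unfold Dl
    have g1 := hc c e0
    have g2 := hc (c + Pi.single q 1) (e0.trans (by
      intro r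
      simp only [Pi.add_apply]
      omega))
    have g3 : c + b + Pi.single q 1 = c + Pi.single q 1 + b := by abel
    have g4 : c + d + Pi.single q 1 = c + Pi.single q 1 + d := by abel
    rw [g3, g4, g1, g2]
  rw [g] at f1
  have e : (∑ r, (∑ s, t r q s * ((b s : ℝ) - d s)) * (c' r : ℝ)) +
      k * (∑ s, t p q s * ((b s : ℝ) - d s)) =
      ∑ r, (∑ s, t r q s * rv b s) * rv c r - ∑ r, (∑ s, t r q s * rv d s) * rv c r := by
    have e3 : ∀ r, rv c r = (c' r : ℝ) + k * (if r = p then 1 else 0) := by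
      intro r
      simp only [rv, hcc, Pi.add_apply, Pi.smul_apply, Pi.single_apply, smul_eq_mul]
      push_cast
      rfl
    rw [← Finset.sum_sub_distrib]
    have e4 : ∀ r, (∑ s, t r q s * rv b s) * rv c r - (∑ s, t r q s * rv d s) * rv c r =
        (∑ s, t r q s * ((b s : ℝ) - d s)) * (c' r : ℝ) +
          k * ((∑ s, t r q s * ((b s : ℝ) - d s)) * (if r = p then 1 else 0)) := by
      intro r
      rw [← sub_mul, ← Finset.sum_sub_distrib, e3 r]
      have e5 : ∑ s, (t r q s * rv b s - t r q s * rv d s) =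
          ∑ s, t r q s * ((b s : ℝ) - d s) := by
        refine Finset.sum_congr rfl fun s _ => ?_
        simp only [rv]
        ring
      rw [e5]
      ring
    rw [Finset.sum_congr rfl fun r _ => e4 r, Finset.sum_add_distrib, ← Finset.mul_sum]
    congr 2
    simp
  rw [e]
  calc _ = |((Dl d (Dl (Pi.single q 1) h) c : ℤ) - ∑ r, (∑ s, t r q s * rv d s) * rv c r) -
        ((Dl d (Dl (Pi.single q 1) h) c : ℤ) - ∑ r, (∑ s, t r q s * rv b s) * rv c r)| := by
        congr 1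
        ring
    _ ≤ _ := by
        refine (abs_sub _ _).trans ?_
        linarith

private theorem tria_step (A : Matrix ι ι ℤ) (n : ℕ) (h : (Fin (n + 1) × ι → ℕ) → ℤ)
    (t : Fin (n + 1) × ι → Fin (n + 1) × ι → Fin (n + 1) × ι → ℝ) (ht : Cub h t)
    (hinv : ∀ (j : ℕ), j < n → ∀ i : ι, ∃ b d c₀ : Fin (n + 1) × ι → ℕ,
      (∀ q : Fin (n + 1) × ι, (b q : ℤ) - d q =
        (if (q.1 : ℕ) = j + 1 ∧ q.2 = i then 1 else 0) - if (q.1 : ℕ) = j then A i q.2 else 0) ∧
      ∀ c, c₀ ≤ c → h (c + b) = h (c + d)) (p q : Fin (n + 1) × ι) (j : ℕ) (hj : j < n) (i : ι) :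
    t p q (⟨j + 1, by omega⟩, i) =
      ∑ i', ((A i i' : ℤ) : ℝ) * t p q (⟨j, by omega⟩, i') := by
  obtain ⟨b, d, c₀, hbd, hc⟩ := hinv j hj i
  have h0 := tria_rel h t ht b d c₀ hc p q
  have h1 : ∀ s : Fin (n + 1) × ι, ((b s : ℝ) - d s) =
      (if s = (⟨j + 1, by omega⟩, i) then 1 else 0) -
        if s.1 = ⟨j, by omega⟩ then ((A i s.2 : ℤ) : ℝ) else 0 := by
    intro s
    have h2 := hbd s
    have h3 : ((b s : ℝ) - d s) = (((b s : ℤ) - d s : ℤ) : ℝ) := by push_cast; rfl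
    rw [h3, h2]
    push_cast
    congr 1
    · refine if_congr ?_ rfl rfl
      constructor
      · rintro ⟨e1, e2⟩
        exact Prod.ext (Fin.ext e1) e2
      · intro e
        rw [e]
        exact ⟨rfl, rfl⟩
    · refine if_congr ?_ rfl rfl
      exact ⟨fun e => Fin.ext e, fun e => congrArg Fin.val e⟩
  simp only [h1, mul_sub, Finset.sum_sub_distrib, mul_ite, mul_one, mul_zero,
    Finset.sum_ite_eq', Finset.mem_univ, if_true] at h0
  rw [Fintype.sum_prod_type] at h0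
  have h4 : ∑ x : Fin (n + 1), ∑ y : ι,
      (if (x, y).1 = ⟨j, by omega⟩ then t p q (x, y) * ((A i (x, y).2 : ℤ) : ℝ) else 0) =
      ∑ i', ((A i i' : ℤ) : ℝ) * t p q (⟨j, by omega⟩, i') := by
    rw [Finset.sum_eq_single (⟨j, by omega⟩ : Fin (n + 1))]
    · refine Finset.sum_congr rfl fun y _ => ?_
      rw [if_pos rfl, mul_comm]
    · intro x _ hx
      refine Finset.sum_eq_zero fun y _ => ?_
      rw [if_neg hx]
    · simp
  rw [h4] at h0
  linarith

private theorem tria_pow (A : Matrix ι ι ℤ) (n : ℕ) (g : Fin (n + 1) × ι → ℝ)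
    (hg : ∀ (j : ℕ) (hj : j < n) (i : ι), g (⟨j + 1, by omega⟩, i) =
      ∑ i', ((A i i' : ℤ) : ℝ) * g (⟨j, by omega⟩, i')) (j : ℕ) (hj : j < n + 1) :
    ∀ i : ι, g (⟨j, hj⟩, i) = ∑ i', (((A ^ j) i i' : ℤ) : ℝ) * g (0, i') := by
  induction j with
  | zero =>
    intro i
    rw [Finset.sum_eq_single i]
    · simp
    · intro i' _ hi'
      simp [Matrix.one_apply, hi'.symm]
    · simp
  | succ j ih =>
    intro i
    rw [hg j (by omega) i]
    have h1 : ∀ i', ((A i i' : ℤ) : ℝ) * g (⟨j, by omega⟩, i') =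
        ∑ i'', ((A i i' : ℤ) : ℝ) * ((((A ^ j) i' i'' : ℤ) : ℝ) * g (0, i'')) := by
      intro i'
      rw [ih (by omega) i', Finset.mul_sum]
    rw [Finset.sum_congr rfl fun i' _ => h1 i', Finset.sum_comm]
    refine Finset.sum_congr rfl fun i'' _ => ?_
    rw [pow_succ', Matrix.mul_apply]
    push_cast
    rw [Finset.sum_mul]
    refine Finset.sum_congr rfl fun i' _ => ?_
    ring

theorem tri_desc (A : Matrix ι ι ℤ) (n : ℕ) (h : (Fin (n + 1) × ι → ℕ) → ℤ)
    (t : Fin (n + 1) × ι → Fin (n + 1) × ι → Fin (n + 1) × ι → ℝ) (ht : Cub h t)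
    (hinv : ∀ (j : ℕ), j < n → ∀ i : ι, ∃ b d c₀ : Fin (n + 1) × ι → ℕ,
      (∀ q : Fin (n + 1) × ι, (b q : ℤ) - d q =
        (if (q.1 : ℕ) = j + 1 ∧ q.2 = i then 1 else 0) - if (q.1 : ℕ) = j then A i q.2 else 0) ∧
      ∀ c, c₀ ≤ c → h (c + b) = h (c + d)) :
    t = pt A (fun i j k => t (0, i) (0, j) (0, k)) n := by
  have h1 : ∀ (p q r : Fin (n + 1) × ι), t p q r =
      ∑ k, (((A ^ (r.1 : ℕ)) r.2 k : ℤ) : ℝ) * t p q (0, k) := by
    intro p q r
    have := tria_pow A n (fun s => t p q s)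
      (fun j hj i => tria_step A n h t ht hinv p q j hj i) r.1 r.1.2 r.2
    simpa using this
  have h2 : ∀ (p q r : Fin (n + 1) × ι), t p q r =
      ∑ k, (((A ^ (q.1 : ℕ)) q.2 k : ℤ) : ℝ) * t p (0, k) r := by
    intro p q r
    rw [ht.s₂ p q r, h1 p r q]
    refine Finset.sum_congr rfl fun k _ => ?_
    rw [ht.s₂ p r (0, k)]
  have h3 : ∀ (p q r : Fin (n + 1) × ι), t p q r =
      ∑ k, (((A ^ (p.1 : ℕ)) p.2 k : ℤ) : ℝ) * t (0, k) q r := by
    intro p q r
    rw [ht.s₁ p q r, h2 q p r]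
    refine Finset.sum_congr rfl fun k _ => ?_
    rw [ht.s₁ q (0, k) r]
  funext p q r
  unfold pt Tri
  simp only [tria_cls]
  rw [h3 p q r]
  refine Finset.sum_congr rfl fun i _ => ?_
  rw [h2 (0, i) q r, Finset.mul_sum]
  refine Finset.sum_congr rfl fun j _ => ?_
  rw [h1 (0, i) (0, j) r, Finset.mul_sum, Finset.mul_sum]
  refine Finset.sum_congr rfl fun k _ => ?_
  ring

end Pool.Agent.KST
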