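import Pool.Agent.KST.Tria
import Pool.Agent.KST.Grw
import Pool.Agent.KST.Inv

/-!
# KST TRIB: the intersection form

For every `n`: `evp_Lf`, `ev_cub` give `t_n` with `Cub (hm (Lf X f n)) t_n`, and `tri_desc`, `inv` give
`t_n = pt A (s_n) n`, `s_n i j k = t_n (0,i) (0,j) (0,k)`, symmetric. Let `t = s_0`.

(1) `s_n = t`. For `v : ι → ℕ`, `R_n(c) = hm (Lf X f n) c`: `R_n (bk 0 v) = R_0 (bk 0 v)` (the same
product of spans: `Lf X f n (0, i)` does not depend on `n`). For `c₁` large (for both)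
`lim 6 R_n (c₁ + k bk 0 v) / k ^ 3 = s_n(v,v,v)` (`cub_ray`, `tri_cls`, `cls A (bk 0 v) = v`), and
`R_n (k bk 0 v) ≤ R_n (c₁ + k bk 0 v) ≤ R_n (bk 0 (D ∑ c₁ + k v))` (`hm_mono`, `grw_up`); so for
`c₂ ∈ ι → ℕ` constant and large `lim 6 R_0 (bk 0 (c₂ + k v)) / k ^ 3 = s_n (v,v,v)`: take the constant
`c₂ = D ∑ c₁`: `R_n (c₁ + k bk 0 v) ≤ R_0 (bk 0 (c₂ + k v))` and the latter has limit `t(v,v,v)` if
`c₂` is above the bound of `cub_ray` for `R_0` (increase `c₁`); conversely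
`R_0 (bk 0 (c₂ + k v)) ≤ R_n (c₁ + bk 0 c₂ + k bk 0 v)`, which has limit `s_n(v,v,v)`. So
`s_n(v,v,v) = t(v,v,v)` and `tri_polar`.

(2) `t(vA, vA, vA) = t(v,v,v)` for `v : ι → ℕ`, so (polarisation, both sides are symmetric trilinear)
for all real vectors. Let `n = 1`. `cls A (bk 1 v) = v A`, so
`lim 6 R_1 (c₁ + k bk 1 v) / k ^ 3 = t(vA,vA,vA)`. `R_1 (bk 1 v) = R_1 (bk 0 v)`: composition with
`f` (surjective on `X`, inverse `g`) is an isomorphism from `Rm (bk 0 v)` to `Rm (bk 1 v)`.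
`R_1 (c₁ + k bk 1 v) ≤ R_1 (bk 1 (D ∑ c₁ + k v))`: as `grw_up`, but with the base block `1`:
`rep_up` for `j = 1` and `rep_down` for `j = 0` and `j₀ = 1`, `rep_form`. So the limit is squeezed
between limits of `6 R_1 (bk 1 (c₂ + k v)) / k ^ 3 = 6 R_0 (bk 0 (c₂ + k v)) / k ^ 3`, i.e. `t(v,v,v)`.

(3) `Tri t 1 1 1 = e₀`: `R_0 (bk 0 (fun _ => k)) = hil k` (`hm_block_zero`), and
`R_0 (c₁ + k bk 0 1)` for `c₁ = bk 0 (fun _ => m)` is `hil (m + k)`; `HasDegree`.
-/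

open MvPolynomial Filter Topology
open scoped LinearAlgebra.Projectivization

namespace Pool.Agent.KST

open Pool.Agent.Helper90.KSC Pool.Agent.Helper63.SAND Pool.Agent.PW Pool.Agent.LLC

section sq

variable {ι B : Type*} [Fintype B]

/-- The squeezing argument. -/
private lemma sqz (R : (B → ℕ) → ℤ) (P : (ι → ℕ) → ℤ) (β : (ι → ℕ) → B → ℕ)
    (hβ : ∀ u v, β (u + v) = β u + β v) (hβk : ∀ (k : ℕ) v, β (k • v) = k • β v)
    (hR : ∀ c c', c ≤ c' → R c ≤ R c') (hP : ∀ v, R (β v) = P v)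
    (D : ℕ) (hup : ∀ c v, R (c + β v) ≤ P (fun i => D * ∑ b, c b + v i)) (v : ι → ℕ) (L : ℝ)
    (c₀ : B → ℕ)
    (hL : ∀ c₁, c₀ ≤ c₁ →
      Tendsto (fun k : ℕ => 6 * (R (c₁ + k • β v) : ℝ) / (k : ℝ) ^ 3) atTop (𝓝 L))
    (u : ι → ℕ) (hu : (fun _ => D * ∑ b, c₀ b) ≤ u) :
    Tendsto (fun k : ℕ => 6 * (P (u + k • v) : ℝ) / (k : ℝ) ^ 3) atTop (𝓝 L) := by
  have hPm : ∀ u v : ι → ℕ, P u ≤ P (u + v) := by
    intro u v
    rw [← hP, ← hP, hβ]
    exact hR _ _ (le_add_of_nonneg_right (fun b => Nat.zero_le _))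
  refine tendsto_of_tendsto_of_tendsto_of_le_of_le (hL c₀ le_rfl)
    (hL (c₀ + β u) (le_add_of_nonneg_right (fun b => Nat.zero_le _))) ?_ ?_
  · intro k
    have h1 : R (c₀ + k • β v) ≤ P (u + k • v) := by
      rw [← hβk]
      refine (hup c₀ (k • v)).trans ?_
      have h2 : u + k • v = (fun i => D * ∑ b, c₀ b + (k • v) i) +
          fun i => u i - D * ∑ b, c₀ b := by
        funext i
        have h3 : D * ∑ b, c₀ b ≤ u i := hu i
        simp only [Pi.add_apply]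
        omega
      rw [h2]
      exact hPm _ _
    have h4 : (R (c₀ + k • β v) : ℝ) ≤ P (u + k • v) := by exact_mod_cast h1
    change 6 * (R (c₀ + k • β v) : ℝ) / (k : ℝ) ^ 3 ≤ 6 * (P (u + k • v) : ℝ) / (k : ℝ) ^ 3
    gcongr
  · intro k
    have h1 : P (u + k • v) ≤ R (c₀ + β u + k • β v) := by
      rw [← hP, hβ, hβk]
      refine hR _ _ ?_
      intro b
      simp only [Pi.add_apply]
      omega
    have h4 : (P (u + k • v) : ℝ) ≤ R (c₀ + β u + k • β v) := by exact_mod_cast h1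
    change 6 * (P (u + k • v) : ℝ) / (k : ℝ) ^ 3 ≤
      6 * (R (c₀ + β u + k • β v) : ℝ) / (k : ℝ) ^ 3
    gcongr

end sq

section lin

variable {ι : Type*} [Fintype ι]

private lemma tri_lin (t : ι → ι → ι → ℝ) (h₁ : ∀ i j k, t i j k = t j i k)
    (h₂ : ∀ i j k, t i j k = t i k j) (M : ι → ι → ℝ) (u v w : ι → ℝ) :
    Tri t (∑ i, u i • M i) (∑ j, v j • M j) (∑ k, w k • M k) =
      Tri (fun i j k => Tri t (M i) (M j) (M k)) u v w := by
  have e1 : ∀ (a : ι → ℝ) (x y : ι → ℝ), Tri t (∑ i, a i • M i) x y =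
      ∑ i, a i * Tri t (M i) x y := by
    intro a x y
    rw [tri_sum₁]
    exact Finset.sum_congr rfl fun i _ => tri_smul₁ t _ _ _ _
  have e2 : ∀ (a : ι → ℝ) (x y : ι → ℝ), Tri t x (∑ i, a i • M i) y =
      ∑ i, a i * Tri t x (M i) y := by
    intro a x y
    rw [tri_swap₁ t h₁, e1]
    exact Finset.sum_congr rfl fun i _ => by rw [tri_swap₁ t h₁]
  have e3 : ∀ (a : ι → ℝ) (x y : ι → ℝ), Tri t x y (∑ i, a i • M i) =
      ∑ i, a i * Tri t x y (M i) := by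
    intro a x y
    rw [tri_swap₂ t h₂, e2]
    exact Finset.sum_congr rfl fun i _ => by rw [tri_swap₂ t h₂]
  rw [e1]
  change _ = ∑ i, ∑ j, ∑ k, Tri t (M i) (M j) (M k) * u i * v j * w k
  refine Finset.sum_congr rfl fun i _ => ?_
  rw [e2, Finset.mul_sum]
  refine Finset.sum_congr rfl fun j _ => ?_
  rw [e3, Finset.mul_sum, Finset.mul_sum]
  refine Finset.sum_congr rfl fun k _ => ?_
  ring

private lemma vecMul_eq_sum' (A : Matrix ι ι ℝ) (u : ι → ℝ) :
    Matrix.vecMul u A = ∑ i, u i • A i := by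
  funext j
  rw [Matrix.vecMul, dotProduct, Finset.sum_apply]
  rfl

end lin

variable {E ι : Type*} [Field E] [Fintype ι] [DecidableEq ι] {N : ι → ℕ}

omit [Fintype ι] in
private lemma bk_add' {n : ℕ} (j : Fin (n + 1)) (u v : ι → ℕ) :
    bk j (u + v) = bk j u + bk j v := by
  funext b
  simp only [bk, Pi.add_apply]
  split_ifs <;> rfl

omit [Fintype ι] in
private lemma bk_smul' {n : ℕ} (j : Fin (n + 1)) (k : ℕ) (v : ι → ℕ) :
    bk j (k • v) = k • bk j v := by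
  funext b
  simp only [bk, Pi.smul_apply, smul_eq_mul]
  split_ifs <;> simp

private lemma cls_bk' (A : Matrix ι ι ℤ) {n : ℕ} (j : Fin (n + 1)) (v : ι → ℕ) :
    cls A (rv (bk j v)) = fun i => ∑ i', (v i' : ℝ) * (((A ^ (j : ℕ)) i' i : ℤ) : ℝ) := by
  funext i
  unfold cls
  rw [Fintype.sum_prod_type, Finset.sum_eq_single j]
  · refine Finset.sum_congr rfl fun i' _ => ?_
    simp [bk]
  · intro j' _ hj'
    refine Finset.sum_eq_zero fun i' _ => ?_
    simp [bk, hj']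
  · intro h
    exact absurd (Finset.mem_univ j) h

private lemma rm_bk {𝒜 : Type*} [CommRing 𝒜] [Algebra E 𝒜] {n : ℕ}
    (L : Fin (n + 1) × ι → Submodule E 𝒜) (j : Fin (n + 1)) (v : ι → ℕ) :
    Rm L (bk j v) = ∏ i, L (j, i) ^ v i := by
  unfold Rm
  rw [Fintype.prod_prod_type, Finset.prod_eq_single j]
  · refine Finset.prod_congr rfl fun i' _ => ?_
    simp [bk]
  · intro j' _ hj'
    refine Finset.prod_eq_one fun i' _ => ?_
    simp [bk, hj']
  · intro h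
    exact absurd (Finset.mem_univ j) h

private lemma hm_bk_zero (X : Set (PPt E N)) (f : PPt E N → PPt E N) (n : ℕ) (v : ι → ℕ) :
    hm (Lf X f n) (bk 0 v) = hm (Lf X f 0) (bk 0 v) := by
  unfold hm
  rw [rm_bk, rm_bk]
  have h : ∀ i : ι, Lf X f n (0, i) = Lf X f 0 (0, i) := fun i => rfl
  have h2 : ∏ i, Lf X f n (0, i) ^ v i = ∏ i, Lf X f 0 (0, i) ^ v i :=
    Finset.prod_congr rfl fun i _ => by rw [h]
  rw [h2]

/-- Composition with a map. -/
private def pre {Y : Type*} (σ : Y → Y) : (Y → E) →ₐ[E] (Y → E) where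
  toFun F := fun x => F (σ x)
  map_one' := rfl
  map_mul' _ _ := rfl
  map_zero' := rfl
  map_add' _ _ := rfl
  commutes' _ := rfl

private lemma hm_bk_one (X : Set (PPt E N)) (f g : PPt E N → PPt E N) (hf : Set.MapsTo f X X)
    (hg : Set.MapsTo g X X) (hfg : ∀ x ∈ X, f (g x) = x) (v : ι → ℕ) :
    hm (Lf X f 1) (bk 1 v) = hm (Lf X f 1) (bk 0 v) := by
  unfold hm
  rw [rm_bk, rm_bk]
  let σ : X → X := fun x => ⟨f x, hf x.2⟩
  have hσ : Function.Surjective σ := by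
    intro x
    exact ⟨⟨g x, hg x.2⟩, Subtype.ext (hfg x x.2)⟩
  have hinj : Function.Injective (pre (E := E) σ).toLinearMap := by
    intro F G hFG
    funext x
    obtain ⟨y, rfl⟩ := hσ x
    exact congrFun hFG y
  have h : ∀ i : ι, Lf X f 1 (1, i) = Submodule.mapHom (pre σ) (Lf X f 1 (0, i)) := by
    intro i
    rw [Submodule.mapHom_apply]
    unfold Lf
    rw [Submodule.map_span, ← Set.range_comp]
    rfl
  have h2 : ∏ i, Lf X f 1 (1, i) ^ v i = Submodule.map (pre σ).toLinearMap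
      (∏ i, Lf X f 1 (0, i) ^ v i) := by
    rw [← Submodule.mapHom_apply, map_prod]
    refine Finset.prod_congr rfl fun i _ => ?_
    rw [h i, map_pow]
  rw [h2]
  congr 1
  exact (LinearEquiv.finrank_eq (Submodule.equivMapOfInjective _ hinj _)).symm

/-- The general form of `grw_up`. -/
private lemma up_of_rep (Y : Set (PPt E N)) (f : PPt E N → PPt E N) (n : ℕ)
    (hI : Irm (Lf Y f n)) (hne : Y.Nonempty) (j₀ : Fin (n + 1)) (D : ℕ)
    (hD : ∀ c : Fin (n + 1) × ι → ℕ, ∀ y : Y, ∃ lam : Y → E, lam y ≠ 0 ∧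
      ∀ F ∈ Rm (Lf Y f n) c, lam * F ∈ Rm (Lf Y f n) (bk j₀ (fun _ => D * ∑ b, c b)))
    (c : Fin (n + 1) × ι → ℕ) (v : ι → ℕ) :
    hm (Lf Y f n) (c + bk j₀ v) ≤ hm (Lf Y f n) (bk j₀ (fun i => D * ∑ b, c b + v i)) := by
  classical
  obtain ⟨y, hy⟩ := hne
  obtain ⟨lam, hlam, hF⟩ := hD c ⟨y, hy⟩
  -- an element which does not vanish at `y`
  have hk : ∀ b : Fin (n + 1) × ι, ∃ k, cf Y f n b k ⟨y, hy⟩ ≠ 0 := by
    intro b
    have h1 := ((f^[b.1] y) b.2).rep_nonzero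
    by_contra hcon
    push Not at hcon
    exact h1 (funext hcon)
  choose k hk using hk
  have hcf : ∀ b, cf Y f n b (k b) ∈ Lf Y f n b := fun b =>
    Submodule.subset_span (Set.mem_range_self (k b))
  let H : Y → E := ∏ b, cf Y f n b (k b) ^ c b
  have hH : H ∈ Rm (Lf Y f n) c := by
    have h1 : ∀ s : Finset (Fin (n + 1) × ι), ∏ b ∈ s, cf Y f n b (k b) ^ c b ∈
        ∏ b ∈ s, Lf Y f n b ^ c b := by
      intro s
      induction s using Finset.induction_on with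
      | empty =>
        rw [Finset.prod_empty, Finset.prod_empty]
        exact Submodule.one_le.1 le_rfl
      | insert b s hb ih =>
        rw [Finset.prod_insert hb, Finset.prod_insert hb]
        exact Submodule.mul_mem_mul
          (Submodule.pow_mem_pow _ (hcf b) _) ih
    exact h1 Finset.univ
  have hHy : H ⟨y, hy⟩ ≠ 0 := by
    change (∏ b, cf Y f n b (k b) ^ c b) ⟨y, hy⟩ ≠ 0
    rw [Finset.prod_apply]
    refine Finset.prod_ne_zero_iff.2 fun b _ => ?_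
    rw [Pi.pow_apply]
    exact pow_ne_zero _ (hk b)
  have hlH : lam * H ≠ 0 := by
    intro h0
    have h1 := congrFun h0 ⟨y, hy⟩
    rw [Pi.mul_apply, Pi.zero_apply] at h1
    exact mul_ne_zero hlam hHy h1
  have hmem : ∀ F ∈ Rm (Lf Y f n) (c + bk j₀ v),
      lam * F ∈ Rm (Lf Y f n) (bk j₀ (fun i => D * ∑ b, c b + v i)) := by
    intro F hF'
    have h1 : bk j₀ (fun i => D * ∑ b, c b + v i) =
        bk j₀ (fun _ : ι => D * ∑ b, c b) + bk j₀ v := bk_add' j₀ (fun _ => D * ∑ b, c b) v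
    rw [h1, rm_add]
    rw [rm_add] at hF'
    induction hF' using Submodule.mul_induction_on' with
    | mem_mul_mem m hm m' hm' =>
      rw [← mul_assoc]
      exact Submodule.mul_mem_mul (hF m hm) hm'
    | add x _ y _ hx hy =>
      rw [mul_add]
      exact Submodule.add_mem _ hx hy
  let φ : Rm (Lf Y f n) (c + bk j₀ v) →ₗ[E]
      Rm (Lf Y f n) (bk j₀ (fun i => D * ∑ b, c b + v i)) :=
    (LinearMap.mulLeft E lam).restrict hmem
  have hφ : Function.Injective φ := by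
    rw [injective_iff_map_eq_zero]
    rintro ⟨F, hF'⟩ h0
    have h1 : lam * F = 0 := congrArg Subtype.val h0
    have h2 : (lam * H) * F = 0 := by
      rw [mul_comm lam H, mul_assoc, h1, mul_zero]
    have h3 := hI.mul _ _ (lam * H) F (hF H hH) hF' h2
    exact Subtype.ext (h3.resolve_left hlH)
  have hfin : Module.Finite E (Rm (Lf Y f n) (bk j₀ (fun i => D * ∑ b, c b + v i))) :=
    Module.Finite.iff_fg.2 (rm_fg _ hI.fg _)
  have h4 := LinearMap.finrank_le_finrank_of_injective hφ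
  unfold hm
  exact_mod_cast h4

theorem trib (X : Set (PPt E N)) (hXi : Irred X) (e₀ : ℕ) (hdeg : HasDegree X 3 e₀)
    (f g : PPt E N → PPt E N) (hf : Set.MapsTo f X X) (hg : Set.MapsTo g X X)
    (hfg : ∀ x ∈ X, f (g x) = x) (hgf : ∀ x ∈ X, g (f x) = x) (hlf : LocallyByForms X f)
    (hlg : LocallyByForms X g) (A : Matrix ι ι ℤ) (hA : LinActsBy X f A) :
    ∃ t : ι → ι → ι → ℝ, (∀ i j k, t i j k = t j i k) ∧ (∀ i j k, t i j k = t i k j) ∧
      (∀ u v w : ι → ℝ, Tri t (Matrix.vecMul u (A.map (Int.cast : ℤ → ℝ)))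
        (Matrix.vecMul v (A.map (Int.cast : ℤ → ℝ)))
        (Matrix.vecMul w (A.map (Int.cast : ℤ → ℝ))) = Tri t u v w) ∧
      Tri t (fun _ => 1) (fun _ => 1) (fun _ => 1) = e₀ ∧
      ∀ n, Cub (hm (Lf X f n)) (pt A t n) := by
  classical
  have hex : ∀ n, ∃ t, Cub (hm (Lf X f n)) t := fun n =>
    ev_cub _ (evp_Lf X f hf hlf hXi e₀ hdeg n)
  choose T hT using hex
  have hI : ∀ n, Irm (Lf X f n) := fun n => irm_Lf X f hf hlf X le_rfl hXi n
  let S : ∀ _ : ℕ, ι → ι → ι → ℝ := fun n i j k => T n (0, i) (0, j) (0, k)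
  have hdesc : ∀ n, T n = pt A (S n) n := fun n =>
    tri_desc A n _ _ (hT n) (fun j hj i => inv X f hf hlf hXi A hA n j hj i)
  have hS₁ : ∀ n i j k, S n i j k = S n j i k := fun n i j k => (hT n).s₁ _ _ _
  have hS₂ : ∀ n i j k, S n i j k = S n i k j := fun n i j k => (hT n).s₂ _ _ _
  let P : (ι → ℕ) → ℤ := fun v => hm (Lf X f 0) (bk 0 v)
  have hcls0 : ∀ (n : ℕ) (v : ι → ℕ), cls A (rv (bk (0 : Fin (n + 1)) v)) = rv v := by
    intro n v
    rw [cls_bk']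
    funext i
    simp [Matrix.one_apply]
  -- the limits along the block `0`
  have hlim0 : ∀ (n : ℕ) (v : ι → ℕ), ∃ u₀ : ι → ℕ, ∀ u, u₀ ≤ u →
      Tendsto (fun k : ℕ => 6 * (P (u + k • v) : ℝ) / (k : ℝ) ^ 3) atTop
        (𝓝 (Tri (S n) (rv v) (rv v) (rv v))) := by
    intro n v
    obtain ⟨D, hD⟩ := grw_up X f hf hlf hXi n
    obtain ⟨c₀, hc₀⟩ := cub_ray _ _ (hT n) (bk 0 v)
    refine ⟨fun _ => D * ∑ b, c₀ b, fun u hu => ?_⟩
    have hval : Tri (T n) (rv (bk 0 v)) (rv (bk 0 v)) (rv (bk 0 v)) =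
        Tri (S n) (rv v) (rv v) (rv v) := by
      rw [hdesc n, tri_cls, hcls0]
    rw [← hval]
    refine sqz (hm (Lf X f n)) P (bk 0) (bk_add' 0) (bk_smul' 0)
      (fun c c' h => hm_mono _ (hI n) h) (fun v => hm_bk_zero X f n v) D (fun c v => ?_) v _ c₀
      hc₀ u hu
    refine (hD c v).trans (le_of_eq ?_)
    exact hm_bk_zero X f n _
  have hSeq : ∀ n, S n = S 0 := by
    intro n
    apply tri_polar _ _ (hS₁ n) (hS₂ n) (hS₁ 0) (hS₂ 0)
    intro v
    obtain ⟨u₁, h1⟩ := hlim0 n v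
    obtain ⟨u₂, h2⟩ := hlim0 0 v
    exact tendsto_nhds_unique (h1 (u₁ + u₂) (fun i => Nat.le_add_right _ _))
      (h2 (u₁ + u₂) (fun i => Nat.le_add_left _ _))
  -- the limits along the block `1`
  have hcls1 : ∀ (v : ι → ℕ), cls A (rv (bk (1 : Fin (1 + 1)) v)) =
      Matrix.vecMul (rv v) (A.map (Int.cast : ℤ → ℝ)) := by
    intro v
    rw [cls_bk']
    funext i
    simp [Matrix.vecMul, dotProduct]
  have hlim1 : ∀ (v : ι → ℕ), ∃ u₀ : ι → ℕ, ∀ u, u₀ ≤ u →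
      Tendsto (fun k : ℕ => 6 * (P (u + k • v) : ℝ) / (k : ℝ) ^ 3) atTop
        (𝓝 (Tri (S 0) (Matrix.vecMul (rv v) (A.map (Int.cast : ℤ → ℝ)))
          (Matrix.vecMul (rv v) (A.map (Int.cast : ℤ → ℝ)))
          (Matrix.vecMul (rv v) (A.map (Int.cast : ℤ → ℝ))))) := by
    intro v
    have hrep : ∀ (j : Fin (1 + 1)) (i : ι), ∃ D : ℕ, ∀ y : X, ∃ lam : X → E, lam y ≠ 0 ∧
        ∀ k, lam * cf X f 1 (j, i) k ∈ Rm (Lf X f 1) (bk 1 (fun _ => D)) := by
      intro j i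
      exact rep_down X f g hf hg hgf hlg 1 1 j (Fin.le_last j) i
    obtain ⟨D, hD⟩ := rep_form X f 1 1 hrep
    have hup := up_of_rep X f 1 (hI 1) hXi.1 1 D hD
    obtain ⟨c₀, hc₀⟩ := cub_ray _ _ (hT 1) (bk 1 v)
    refine ⟨fun _ => D * ∑ b, c₀ b, fun u hu => ?_⟩
    have hval : Tri (T 1) (rv (bk 1 v)) (rv (bk 1 v)) (rv (bk 1 v)) =
        Tri (S 0) (Matrix.vecMul (rv v) (A.map (Int.cast : ℤ → ℝ)))
          (Matrix.vecMul (rv v) (A.map (Int.cast : ℤ → ℝ)))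
          (Matrix.vecMul (rv v) (A.map (Int.cast : ℤ → ℝ))) := by
      rw [hdesc 1, tri_cls, hcls1, hSeq 1]
    rw [← hval]
    have hP1 : ∀ v, hm (Lf X f 1) (bk 1 v) = P v := fun v =>
      (hm_bk_one X f g hf hg hfg v).trans (hm_bk_zero X f 1 v)
    refine sqz (hm (Lf X f 1)) P (bk 1) (bk_add' 1) (bk_smul' 1)
      (fun c c' h => hm_mono _ (hI 1) h) hP1 D (fun c v => ?_) v _ c₀ hc₀ u hu
    exact (hup c v).trans (le_of_eq (hP1 _))
  refine ⟨S 0, hS₁ 0, hS₂ 0, ?_, ?_, ?_⟩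
  · -- invariance
    let M : ι → ι → ℝ := fun i => (A.map (Int.cast : ℤ → ℝ)) i
    have hM : ∀ u v w : ι → ℝ, Tri (S 0) (Matrix.vecMul u (A.map (Int.cast : ℤ → ℝ)))
        (Matrix.vecMul v (A.map (Int.cast : ℤ → ℝ)))
        (Matrix.vecMul w (A.map (Int.cast : ℤ → ℝ))) =
        Tri (fun i j k => Tri (S 0) (M i) (M j) (M k)) u v w := by
      intro u v w
      rw [vecMul_eq_sum', vecMul_eq_sum', vecMul_eq_sum']
      exact tri_lin (S 0) (hS₁ 0) (hS₂ 0) M u v w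
    have hEq : (fun i j k => Tri (S 0) (M i) (M j) (M k)) = S 0 := by
      apply tri_polar _ _ _ _ (hS₁ 0) (hS₂ 0)
      · intro v
        rw [← hM]
        obtain ⟨u₁, h1⟩ := hlim1 v
        obtain ⟨u₂, h2⟩ := hlim0 0 v
        exact tendsto_nhds_unique (h1 (u₁ + u₂) (fun i => Nat.le_add_right _ _))
          (h2 (u₁ + u₂) (fun i => Nat.le_add_left _ _))
      · intro i j k
        exact tri_swap₁ _ (hS₁ 0) _ _ _
      · intro i j k
        exact tri_swap₂ _ (hS₂ 0) _ _ _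
    intro u v w
    rw [hM, hEq]
  · -- degree
    obtain ⟨u₀, hu₀⟩ := hlim0 0 (fun _ => 1)
    let m : ℕ := ∑ i, u₀ i
    have h1 := hu₀ (fun _ => m) (fun i => Finset.single_le_sum
      (f := u₀) (fun _ _ => Nat.zero_le _) (Finset.mem_univ i))
    have hPk : ∀ k : ℕ, (P ((fun _ => m) + k • fun _ => 1) : ℝ) =
        (hil (fun x : X => seg (x : PPt E N)) (k + m) : ℝ) := by
      intro k
      have h2 : ((fun _ => m) + k • fun _ => 1 : ι → ℕ) = fun _ => k + m := by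
        funext i
        simp [add_comm]
      rw [h2]
      change ((hm (Lf X f 0) (bk 0 (fun _ => k + m)) : ℤ) : ℝ) = _
      rw [hm_block_zero]
      simp
    simp only [hPk] at h1
    have h3 : Tendsto (fun k : ℕ =>
        (hil (fun x : X => seg (x : PPt E N)) (k + m) : ℝ) * ((3 : ℕ).factorial : ℝ) /
          ((k + m : ℕ) : ℝ) ^ 3) atTop (𝓝 (e₀ : ℝ)) := hdeg.comp (tendsto_add_atTop_nat m)
    have h4 : Tendsto (fun k : ℕ => ((k + m : ℕ) : ℝ) / (k : ℝ)) atTop (𝓝 1) := by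
      have h5 : Tendsto (fun k : ℕ => 1 + (m : ℝ) / (k : ℝ)) atTop (𝓝 (1 + 0)) :=
        tendsto_const_nhds.add (tendsto_const_div_atTop_nhds_zero_nat (m : ℝ))
      rw [add_zero] at h5
      refine h5.congr' ?_
      filter_upwards [eventually_gt_atTop 0] with k hk
      have hk' : (k : ℝ) ≠ 0 := Nat.cast_ne_zero.2 hk.ne'
      push_cast
      rw [add_div, div_self hk']
    have h6 := h3.mul (h4.pow 3)
    rw [one_pow, mul_one] at h6
    have h7 : Tri (S 0) (rv fun _ => 1) (rv fun _ => 1) (rv fun _ => 1) = e₀ := by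
      refine tendsto_nhds_unique h1 (h6.congr' ?_)
      filter_upwards [eventually_gt_atTop 0] with k hk
      have hk' : (k : ℝ) ≠ 0 := Nat.cast_ne_zero.2 hk.ne'
      have hkm : ((k + m : ℕ) : ℝ) ≠ 0 := Nat.cast_ne_zero.2 (by omega)
      have hfac : ((3 : ℕ).factorial : ℝ) = 6 := by norm_num [Nat.factorial]
      rw [hfac]
      field_simp
    have h8 : (rv fun _ : ι => 1) = fun _ : ι => (1 : ℝ) := by
      funext i
      simp [rv]
    rw [h8] at h7
    exact h7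
  · intro n
    have h1 := hT n
    rw [hdesc n, hSeq n] at h1
    exact h1

end Pool.Agent.KST
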