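import Pool.Agent.KST.Ktc
import Pool.Agent.KST.Numb
import Pool.Agent.KST.Bst

/-!
# KST WTH: comparison of the heights of the iterates

`w_num`: as `bst_num`: `trib`, `geo_nonneg`, `geo_rkt`, `crvc` for the curve `C` (growth of `T(ω n, 1, 1)`), then
`pos_num` and `numb` with `M = card (SIx N)`; `|(A ^ n) i j| ≤ (|C₀| + ∑ |P i j|) d ^ n` from `hPA` (`r₁ < d`), the
same for `B`.

`wth`: `L = Lf X f m`, the blocks `0`, `N` and `m` (`Fin (m + 1)`), `b = bk N 1`, `X w = sg X f N w`, `β` a nonzero one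
(`seg_ne_zero`), `a = p • bk 0 1 + q • bk m 1`, `m' = κ p`. `rv a = p • (rv (bk 0 1) + τ • rv (bk m 1))`, `τ = q / p`; by
`tri_cls`, `cls_bk`, `cls_add`, `cls_smul` the condition of `kt_three` is `hcond` times `p ^ 3`. `kt_three` gives `c₂`,
and for arbitrarily large `k`: `j ≥ κ p k - 1`, `F ∈ Rm L (k a + c₂)`, `F ≠ 0`. `hti` with `T = 0` (`P = P' = 1`, the
function `1`: `P y ≠ 0`): for `y` with `F y ≠ 0`
`j h(f^[N] y) ≤ k (p h(y) + q h(f^[m] y)) + ∑ b, c₂ b h_b(y) + C` (`h = absTotal`), and the heights of the blocks are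
`h_b(y) ≤ C₃ (1 + h(y))` (`lbnd` iterated). So `(κ p k - 1) h(f^[N] y) ≤ k p h(y) + k q h(f^[m] y) + C₄ (1 + h(y)) + C`; with
`h(f^[N] y) ≤ C₃ (1 + h(y))` and `k` fixed so large that `C₃ + C₄ ≤ k p`:
`κ p k h(f^[N] y) ≤ 2 k p h(y) + k q h(f^[m] y) + C'`. Divide by `k p`.
The form `Φ`: as in `bst` with the base block `0`: `F = k`-th block function; `rep_up`, `rep_form` for `j₀ = 0` and a
point `y₁` with `F y₁ ≠ 0`: `lam F ∈ Rm (bk 0 ..)`, `lam y₁ ≠ 0`, so (`forms_block`) `lam F` is a form `Φ` in `seg y`,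
`Φ(seg y₁) ≠ 0`, and `Φ(seg y) ≠ 0` implies `F y ≠ 0`.
-/

open MvPolynomial Filter Topology
open scoped LinearAlgebra.Projectivization

namespace Pool.Agent.KST

open Pool.Agent.Helper90.KSC Pool.Agent.Helper63.SAND Pool.Agent.Helper63.WH Pool.Agent.PW
  Pool.Agent.LLC

variable {E ι : Type*} [Field E] [CharZero E] [Fintype ι] [DecidableEq ι] {N : ι → ℕ}

theorem w_num [IsAlgClosed E] (X : Set (PPt E N)) (hX : ZClosed X) (hXi : Irred X)
    (e₀ : ℕ) (he₀ : 1 ≤ e₀) (hdeg : HasDegree X 3 e₀) (f g : PPt E N → PPt E N)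
    (hf : Set.MapsTo f X X) (hg : Set.MapsTo g X X) (hfg : ∀ x ∈ X, f (g x) = x)
    (hgf : ∀ x ∈ X, g (f x) = x) (hlf : LocallyByForms X f) (hlg : LocallyByForms X g)
    (A B : Matrix ι ι ℤ) (hA : LinActsBy X f A) (hAB : A * B = 1)
    (d r₁ C₀ : ℝ) (hd : 1 < d) (h1 : 1 ≤ r₁) (hr₁ : r₁ < d) (P P' : Matrix ι ι ℝ)
    (hPA : ∀ (n : ℕ) (i j : ι), |(((A ^ n) i j : ℤ) : ℝ) - d ^ n * P i j| ≤ C₀ * r₁ ^ n)
    (hPB : ∀ (n : ℕ) (i j : ι), |(((B ^ n) i j : ℤ) : ℝ) - d ^ n * P' i j| ≤ C₀ * r₁ ^ n)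
    (hG : Gr3 X f A d) :
    ∃ t : ι → ι → ι → ℝ, (∀ n, Cub (hm (Lf X f n)) (pt A t n)) ∧
      ∃ κ : ℝ, 0 < κ ∧ ∃ n₀ : ℕ, ∀ k m : ℕ, k ≤ m → n₀ ≤ m → ∀ τ : ℝ, d ^ k / d ^ m ≤ τ →
        τ ≤ 2 * (d ^ k / d ^ m) →
        (Fintype.card (SIx N) : ℝ) *
          (3 * κ * Tri t (om A 0 + τ • om A m) (om A 0 + τ • om A m) (om A k) +
          3 * κ ^ 2 * Tri t (om A 0 + τ • om A m) (om A k) (om A k) +
          κ ^ 3 * Tri t (om A k) (om A k) (om A k)) <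
        Tri t (om A 0 + τ • om A m) (om A 0 + τ • om A m) (om A 0 + τ • om A m) := by
  classical
  obtain ⟨t, hs₁, hs₂, hinv, h1t, hcub⟩ := trib X hXi e₀ hdeg f g hf hg hfg hgf hlf hlg A hA
  refine ⟨t, hcub, ?_⟩
  obtain ⟨K₁, hK₁, hg₁⟩ := hG t hcub
  have h0 := geo_nonneg X hXi f hf hlf A t hcub
  obtain ⟨p₀, hp₀, n₀, hn₀⟩ := pos_num A t h0 d r₁ C₀ hd h1 hr₁ P hPA K₁ hg₁
  have hd0 : 0 < d := by linarith
  have hr0 : 0 ≤ r₁ := by linarith
  have hbd : ∀ (M : Matrix ι ι ℤ) (Q : Matrix ι ι ℝ),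
      (∀ (n : ℕ) (i j : ι), |(((M ^ n) i j : ℤ) : ℝ) - d ^ n * Q i j| ≤ C₀ * r₁ ^ n) →
      ∀ (n : ℕ) (i j : ι), |(((M ^ n) i j : ℤ) : ℝ)| ≤ (|C₀| + ∑ i, ∑ j, |Q i j|) * d ^ n := by
    intro M Q hM n i j
    have e1 := hM n i j
    have e2 : C₀ * r₁ ^ n ≤ |C₀| * d ^ n :=
      mul_le_mul (le_abs_self _) (pow_le_pow_left₀ hr0 hr₁.le n) (by positivity) (abs_nonneg _)
    have e3 : |Q i j| ≤ ∑ i, ∑ j, |Q i j| := by
      have e4 : |Q i j| ≤ ∑ j, |Q i j| :=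
        Finset.single_le_sum (f := fun j => |Q i j|) (fun j _ => abs_nonneg _)
          (Finset.mem_univ j)
      exact e4.trans (Finset.single_le_sum (f := fun i => ∑ j, |Q i j|)
        (fun i _ => Finset.sum_nonneg fun j _ => abs_nonneg _) (Finset.mem_univ i))
    have e5 : |(((M ^ n) i j : ℤ) : ℝ)| ≤
        |(((M ^ n) i j : ℤ) : ℝ) - d ^ n * Q i j| + |d ^ n * Q i j| := by
      have := abs_add_le ((((M ^ n) i j : ℤ) : ℝ) - d ^ n * Q i j) (d ^ n * Q i j)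
      rwa [sub_add_cancel] at this
    have e6 : |d ^ n * Q i j| ≤ d ^ n * ∑ i, ∑ j, |Q i j| := by
      rw [abs_mul, abs_of_nonneg (by positivity : (0 : ℝ) ≤ d ^ n)]
      exact mul_le_mul_of_nonneg_left e3 (by positivity)
    calc |(((M ^ n) i j : ℤ) : ℝ)| ≤ |C₀| * d ^ n + d ^ n * ∑ i, ∑ j, |Q i j| := by linarith
      _ = _ := by ring
  have hA' : ∀ (n : ℕ) (i j : ι), |(((A ^ n) i j : ℤ) : ℝ)| ≤
      (|C₀| + ∑ i, ∑ j, |P i j| + ∑ i, ∑ j, |P' i j|) * d ^ n := by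
    intro n i j
    refine (hbd A P hPA n i j).trans (mul_le_mul_of_nonneg_right ?_ (by positivity))
    have : 0 ≤ ∑ i, ∑ j, |P' i j| :=
      Finset.sum_nonneg fun i _ => Finset.sum_nonneg fun j _ => abs_nonneg _
    linarith
  have hB' : ∀ (n : ℕ) (i j : ι), |(((B ^ n) i j : ℤ) : ℝ)| ≤
      (|C₀| + ∑ i, ∑ j, |P i j| + ∑ i, ∑ j, |P' i j|) * d ^ n := by
    intro n i j
    refine (hbd B P' hPB n i j).trans (mul_le_mul_of_nonneg_right ?_ (by positivity))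
    have : 0 ≤ ∑ i, ∑ j, |P i j| :=
      Finset.sum_nonneg fun i _ => Finset.sum_nonneg fun j _ => abs_nonneg _
    linarith
  obtain ⟨κ, hκ, hmain⟩ := numb A B hAB t hs₁ hs₂ hinv h0 d _ hd hA' hB' p₀ hp₀ n₀ hn₀
    (Fintype.card (SIx N))
  exact ⟨κ, hκ, n₀, hmain⟩

section Aux

variable {B : Type*} [Fintype B]

private theorem tri_sm₁ (t : B → B → B → ℝ) (r : ℝ) (u v w : B → ℝ) :
    Tri t (r • u) v w = r * Tri t u v w := by
  simp only [Tri, Pi.smul_apply, smul_eq_mul, Finset.mul_sum]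
  refine Finset.sum_congr rfl fun i _ => Finset.sum_congr rfl fun j _ =>
    Finset.sum_congr rfl fun k _ => ?_
  ring

private theorem tri_sm₂ (t : B → B → B → ℝ) (r : ℝ) (u v w : B → ℝ) :
    Tri t u (r • v) w = r * Tri t u v w := by
  simp only [Tri, Pi.smul_apply, smul_eq_mul, Finset.mul_sum]
  refine Finset.sum_congr rfl fun i _ => Finset.sum_congr rfl fun j _ =>
    Finset.sum_congr rfl fun k _ => ?_
  ring

private theorem tri_sm₃ (t : B → B → B → ℝ) (r : ℝ) (u v w : B → ℝ) :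
    Tri t u v (r • w) = r * Tri t u v w := by
  simp only [Tri, Pi.smul_apply, smul_eq_mul, Finset.mul_sum]
  refine Finset.sum_congr rfl fun i _ => Finset.sum_congr rfl fun j _ =>
    Finset.sum_congr rfl fun k _ => ?_
  ring

end Aux

theorem wth [IsAlgClosed E] [Algebra.IsAlgebraic ℚ E] (X : Set (PPt E N))
    (hXi : Irred X) (f : PPt E N → PPt E N) (hf : Set.MapsTo f X X)
    (hlf : LocallyByForms X f) (A : Matrix ι ι ℤ) (hA : LinActsBy X f A)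
    (t : ι → ι → ι → ℝ) (hcub : ∀ n, Cub (hm (Lf X f n)) (pt A t n)) (κ : ℝ) (hκ : 0 < κ)
    (k m : ℕ) (hkm : k ≤ m) (p q : ℕ) (hp : 1 ≤ p)
    (hcond : (Fintype.card (SIx N) : ℝ) *
          (3 * κ * Tri t (om A 0 + ((q : ℝ) / p) • om A m) (om A 0 + ((q : ℝ) / p) • om A m)
            (om A k) +
          3 * κ ^ 2 * Tri t (om A 0 + ((q : ℝ) / p) • om A m) (om A k) (om A k) +
          κ ^ 3 * Tri t (om A k) (om A k) (om A k)) <
        Tri t (om A 0 + ((q : ℝ) / p) • om A m) (om A 0 + ((q : ℝ) / p) • om A m)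
          (om A 0 + ((q : ℝ) / p) • om A m)) :
    ∃ (D : ℕ) (Φ : MvPolynomial (SIx N) E) (C' : ℝ), Φ.IsHomogeneous D ∧
      (∃ x ∈ X, eval (seg x) Φ ≠ 0) ∧ ∀ y ∈ X, eval (seg y) Φ ≠ 0 →
        κ * absTotal (f^[k] y) ≤ 2 * absTotal y + ((q : ℝ) / p) * absTotal (f^[m] y) + C' := by
  classical
  have hlt : k < m + 1 := by omega
  set jk : Fin (m + 1) := ⟨k, hlt⟩ with hjk
  have hIrm := irm_Lf X f hf hlf X subset_rfl hXi m
  set b : Fin (m + 1) × ι → ℕ := bk jk (fun _ => 1) with hb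
  have hsg : ∀ w, sg X f k w ∈ Rm (Lf X f m) b := by
    intro w
    rw [hb, bk_one X f m jk]
    exact Submodule.subset_span ⟨w, rfl⟩
  obtain ⟨x₀, hx₀⟩ := hXi.1
  obtain ⟨w₀, hw₀⟩ := Function.ne_iff.mp (seg_ne_zero (f^[k] x₀))
  have hβ0 : sg X f k w₀ ≠ 0 := by
    intro h
    exact hw₀ (congrFun h ⟨x₀, hx₀⟩)
  set a : Fin (m + 1) × ι → ℕ := p • bk 0 (fun _ => 1) + q • bk (Fin.last m) (fun _ => 1) with ha
  have hp0 : (0 : ℝ) < p := by exact_mod_cast hp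
  have hcls₀ : cls A (rv b) = om A k := cls_bk A m jk
  have hcls₁ : cls A (rv a) = (p : ℝ) • (om A 0 + ((q : ℝ) / p) • om A m) := by
    have e1 : rv a = (p : ℝ) • rv (bk (0 : Fin (m + 1)) (fun _ : ι => 1)) +
        (q : ℝ) • rv (bk (Fin.last m) (fun _ : ι => 1)) := by
      funext c
      simp [ha, rv]
    rw [e1, cls_add, cls_smul, cls_smul, cls_bk, cls_bk, smul_add, smul_smul,
      mul_div_cancel₀ _ hp0.ne']
    simp
  have hcond' : (Fintype.card (SIx N) : ℝ) *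
      (3 * (κ * p) * Tri (pt A t m) (rv a) (rv a) (rv b) +
        3 * (κ * p) ^ 2 * Tri (pt A t m) (rv a) (rv b) (rv b) +
        (κ * p) ^ 3 * Tri (pt A t m) (rv b) (rv b) (rv b)) <
      Tri (pt A t m) (rv a) (rv a) (rv a) := by
    rw [tri_cls, tri_cls, tri_cls, tri_cls, hcls₀, hcls₁]
    simp only [tri_sm₁, tri_sm₂, tri_sm₃]
    have hp3 : (0 : ℝ) < (p : ℝ) ^ 3 := by positivity
    have e1 := mul_lt_mul_of_pos_left hcond hp3
    calc _ = _ := by ring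
      _ < _ := e1
      _ = _ := by ring
  obtain ⟨c₂, hk⟩ := kt_three (σ := SIx N) (Lf X f m) hIrm (pt A t m) (hcub m) b
    (fun w => sg X f k w) hsg (sg X f k w₀) (hsg w₀) hβ0 a (κ * p) (by positivity) hcond'
  -- the heights of the blocks
  obtain ⟨Cf, hCf, hf1⟩ := bst_total_step hA
  have hj : ∀ j : Fin (m + 1), ∃ C' : ℝ, 0 ≤ C' ∧
      ∀ x ∈ X, absTotal (f^[j] x) ≤ C' * (1 + absTotal x) := fun j => bst_total_iter hf hCf hf1 j
  choose Cj hCj hCj' using hj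
  set C₃ : ℝ := ∑ j, Cj j with hC₃
  have hC₃0 : 0 ≤ C₃ := Finset.sum_nonneg fun j _ => hCj j
  have hht : ∀ y ∈ X, ∀ j : Fin (m + 1), absTotal (f^[j] y) ≤ C₃ * (1 + absTotal y) := by
    intro y hy j
    refine (hCj' j y hy).trans (mul_le_mul_of_nonneg_right ?_ ?_)
    · exact Finset.single_le_sum (fun j _ => hCj j) (Finset.mem_univ j)
    · linarith [bst_absTotal_nonneg y]
  set C₄ : ℝ := ∑ c, (c₂ c : ℝ) * C₃ with hC₄
  have hC₄0 : 0 ≤ C₄ := Finset.sum_nonneg fun c _ => by positivity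
  obtain ⟨k', hKk, j, hj, F, hF, hF0, hG⟩ := hk (max 1 ⌈C₃ + C₄⌉₊)
  have hk1 : 1 ≤ k' := (le_max_left _ _).trans hKk
  have hk2 : C₃ + C₄ ≤ k' :=
    (Nat.le_ceil _).trans (by exact_mod_cast (le_max_right _ _).trans hKk)
  have hWt : ∀ c, Wt (Lf X f m) (1 : X → E) 1 0 c = Rm (Lf X f m) c := by
    intro c
    rw [Wt, pow_zero, one_mul]
  obtain ⟨C, hC⟩ := hti X f m (1 : X → E) 1 0 (k' • a + c₂) F (by rw [hWt]; exact hF) k j
    (sg X f k w₀) (fun w => by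
      obtain ⟨G, hG1, hG2⟩ := hG w
      exact ⟨G, by rw [hWt]; exact hG1, hG2⟩)
  -- the form
  have hrep : ∀ (j : Fin (m + 1)) (i : ι), ∃ D : ℕ, ∀ y : X, ∃ lam : X → E, lam y ≠ 0 ∧
      ∀ k, lam * cf X f m (j, i) k ∈ Rm (Lf X f m) (bk 0 (fun _ => D)) := fun j i =>
    rep_up X f hf hlf X subset_rfl m 0 j (Fin.zero_le j) i
  obtain ⟨D, hD⟩ := rep_form X f m 0 hrep
  obtain ⟨y₁, hy₁⟩ := Function.ne_iff.mp hF0
  obtain ⟨lam, hlam, hlamF⟩ := hD (k' • a + c₂) y₁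
  have hF2 := hlamF F hF
  obtain ⟨Φ, hΦ, hΦe⟩ := (forms_block X f m 0 _ _).mp hF2
  have hΦe' : ∀ y : X, (lam * F) y = eval (seg (y : PPt E N)) Φ := hΦe
  refine ⟨_, Φ, |C| + C₃ + C₄, hΦ, ?_, ?_⟩
  · refine ⟨(y₁ : PPt E N), y₁.2, ?_⟩
    rw [← hΦe']
    exact mul_ne_zero hlam hy₁
  · intro y hy hΦy
    have hFy : F ⟨y, hy⟩ ≠ 0 := by
      intro h
      apply hΦy
      have h1 := hΦe' ⟨y, hy⟩
      rw [← h1]
      change lam ⟨y, hy⟩ * F ⟨y, hy⟩ = 0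
      rw [h, mul_zero]
    have hmain := hC ⟨y, hy⟩ hFy (Or.inl one_ne_zero)
    set H : Fin (m + 1) × ι → ℝ := fun c => absHeight ((f^[c.1] y) c.2).rep with hH
    have hsum : ∑ c : Fin (m + 1) × ι, (((k' • a + c₂) c : ℕ) : ℝ) * H c =
        k' * (p * absTotal y + q * absTotal (f^[m] y)) + ∑ c, (c₂ c : ℝ) * H c := by
      have e1 : ∀ c, (((k' • a + c₂) c : ℕ) : ℝ) * H c =
          (k' : ℝ) * p * (((bk (0 : Fin (m + 1)) (fun _ : ι => 1) c : ℕ) : ℝ) * H c) +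
          (k' : ℝ) * q * (((bk (Fin.last m) (fun _ : ι => 1) c : ℕ) : ℝ) * H c) +
          (c₂ c : ℝ) * H c := by
        intro c
        simp only [ha, Pi.add_apply, Pi.smul_apply, smul_eq_mul, Nat.cast_add, Nat.cast_mul]
        ring
      rw [Finset.sum_congr rfl fun c _ => e1 c, Finset.sum_add_distrib, Finset.sum_add_distrib,
        ← Finset.mul_sum, ← Finset.mul_sum, bst_sum_bk, bst_sum_bk]
      have e2 : ∑ i, H (Fin.last m, i) = absTotal (f^[m] y) := by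
        simp only [hH, Fin.val_last, absTotal]
      have e4 : ∑ i, H (0, i) = absTotal y := by
        simp only [hH, Fin.val_zero, Function.iterate_zero, id_eq, absTotal]
      rw [e2, e4]
      ring
    have hHb : ∀ c, H c ≤ C₃ * (1 + absTotal y) := fun c =>
      (bst_absHeight_le_total _ _).trans (hht y hy c.1)
    have hsum2 : ∑ c, (c₂ c : ℝ) * H c ≤ C₄ * (1 + absTotal y) := by
      rw [hC₄, Finset.sum_mul]
      refine Finset.sum_le_sum fun c _ => ?_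
      rw [mul_assoc]
      exact mul_le_mul_of_nonneg_left (hHb c) (Nat.cast_nonneg _)
    have hmain2 : (j : ℝ) * absTotal (f^[k] y) ≤
        k' * (p * absTotal y + q * absTotal (f^[m] y)) + ∑ c, (c₂ c : ℝ) * H c + C := by
      rw [← hsum]
      have := hmain
      rw [Nat.cast_zero, zero_mul, add_zero] at this
      exact this
    have hy0 := bst_absTotal_nonneg y
    have hyk0 := bst_absTotal_nonneg (f^[k] y)
    have hym0 := bst_absTotal_nonneg (f^[m] y)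
    have hyk : absTotal (f^[k] y) ≤ C₃ * (1 + absTotal y) := hht y hy jk
    have hkpos : (0 : ℝ) < k' := by exact_mod_cast hk1
    have hk1' : (1 : ℝ) ≤ k' := by exact_mod_cast hk1
    have hp1' : (1 : ℝ) ≤ p := by exact_mod_cast hp
    have hj2 : (κ * p * k' - 1) * absTotal (f^[k] y) ≤ j * absTotal (f^[k] y) :=
      mul_le_mul_of_nonneg_right hj hyk0
    have hkp1 : (1 : ℝ) ≤ k' * p := by nlinarith
    have hk3 : (C₃ + C₄) * absTotal y ≤ k' * p * absTotal y := by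
      refine mul_le_mul_of_nonneg_right (hk2.trans ?_) hy0
      exact le_mul_of_one_le_right hkpos.le hp1'
    have h5 : k' * p * (κ * absTotal (f^[k] y)) ≤
        2 * (k' * p * absTotal y) + k' * q * absTotal (f^[m] y) + (|C| + C₃ + C₄) := by
      have h6 := le_abs_self C
      nlinarith
    have h7 : |C| + C₃ + C₄ ≤ k' * p * (|C| + C₃ + C₄) :=
      le_mul_of_one_le_left (by positivity) hkp1
    have h8 : k' * p * (κ * absTotal (f^[k] y)) ≤ k' * p *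
        (2 * absTotal y + ((q : ℝ) / p) * absTotal (f^[m] y) + (|C| + C₃ + C₄)) := by
      have e1 : k' * p * (2 * absTotal y + ((q : ℝ) / p) * absTotal (f^[m] y) +
          (|C| + C₃ + C₄)) = 2 * (k' * p * absTotal y) + k' * q * absTotal (f^[m] y) +
          k' * p * (|C| + C₃ + C₄) := by
        field_simp
      rw [e1]
      linarith
    exact le_of_mul_le_mul_left h8 (by positivity)

end Pool.Agent.KST
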